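import Mathlib
import Pool.Agent.H24.TD.Dg
import Pool.Agent.H76.CQ.Qb
import Pool.Agent.H76.PN.D1
import Pool.Agent.H76.PN.P1
import Pool.Agent.H76.PN.P2

/-! This file joins several modules to save build time (Y0). -/

set_option autoImplicit false

section S_H30_ZO_Aa

set_option autoImplicit false

namespace H30ZO

theorem exists_lift {G J : Type} [AddCommGroup G] [Fintype J] (H X : AddSubgroup G) (hX : X ≤ H)
    (W : J → AddSubgroup G) (hfin : ∀ j, (W j).relIndex H ≠ 0) (hXf : Finite X)
    (hprod : ∏ j, (W j).relIndex H ≤ Nat.card X)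
    (htriv : ∀ c ∈ X, (∀ j, c ∈ W j) → c = 0) (h : J → G) (hh : ∀ j, h j ∈ H) :
    ∃ c ∈ X, ∀ j, c - h j ∈ W j := by
  classical
  have hcard : ∀ j, Nat.card (H ⧸ (W j).addSubgroupOf H) = (W j).relIndex H := fun j => rfl
  have hf : ∀ j, Finite (H ⧸ (W j).addSubgroupOf H) := fun j =>
    Nat.finite_of_card_ne_zero (by rw [hcard]; exact hfin j)
  have hpi : Nat.card (∀ j, H ⧸ (W j).addSubgroupOf H) = ∏ j, (W j).relIndex H := by
    rw [Nat.card_pi]
    rfl
  obtain ⟨φ, hφ⟩ : ∃ φ : X → ∀ j, H ⧸ (W j).addSubgroupOf H,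
      ∀ c j, φ c j = QuotientAddGroup.mk (⟨(c : G), hX c.2⟩ : H) := ⟨fun c j => _, fun _ _ => rfl⟩
  have hinj : Function.Injective φ := by
    intro c d hcd
    have h1 : ∀ j, (c : G) - d ∈ W j := by
      intro j
      have h2 := congrFun hcd j
      rw [hφ, hφ, QuotientAddGroup.eq, AddSubgroup.mem_addSubgroupOf] at h2
      have h3 : (c : G) - d = - (- (c : G) + d) := by abel
      rw [h3]
      exact neg_mem h2
    have h4 := htriv _ (sub_mem c.2 d.2) h1
    exact Subtype.ext (sub_eq_zero.1 h4)
  have hbij : Function.Bijective φ := by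
    refine Function.Injective.bijective_of_nat_card_le hinj ?_
    rw [hpi]
    exact hprod
  obtain ⟨c, hc⟩ := hbij.2 (fun j => QuotientAddGroup.mk (⟨h j, hh j⟩ : H))
  refine ⟨c, c.2, fun j => ?_⟩
  have h2 := congrFun hc j
  rw [hφ, QuotientAddGroup.eq, AddSubgroup.mem_addSubgroupOf] at h2
  have h3 : (c : G) - h j = - (- (c : G) + h j) := by abel
  rw [h3]
  exact neg_mem h2

end H30ZO

end S_H30_ZO_Aa

section S_H30_ZO_Df

set_option autoImplicit false
set_option linter.unusedSectionVars false
open scoped Classical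

open WithZero NumberField IsDedekindDomain H38RT
open H38T1 (SC sc scu rep eo la si Pri OddP tp unif)
open H76PP

namespace H30ZO

section Classes

variable (k L : Type) [Field k] [NumberField k] [Field L] [NumberField L] [Algebra k L]

/-- The square classes of square norm. -/
noncomputable def HH : AddSubgroup (SC L) := (scm (Algebra.norm k : L →* k)).ker

variable {L} in
/-- The square classes of the squares in the completion. -/
noncomputable def Sq (w : HeightOneSpectrum (𝓞 L)) : AddSubgroup (SC L) :=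
  (scm (algebraMap L (w.adicCompletion L) : L →* w.adicCompletion L)).ker

/-- The square classes of the elements which are squares at all the places above `v`. -/
noncomputable def Sqv (v : HeightOneSpectrum (𝓞 k)) : AddSubgroup (SC L) :=
  ⨅ (w : HeightOneSpectrum (𝓞 L)) (_ : dn k w = v), Sq w

variable {k} in
/-- The order of two. -/
noncomputable def e2 (v : HeightOneSpectrum (𝓞 k)) : ℕ := (ord (v.valuation k) 2).toNat

variable {k} in
/-- The number of elements of the integers of the completion modulo two. -/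
noncomputable def qq (v : HeightOneSpectrum (𝓞 k)) : ℕ := Nv v ^ e2 v

/-- The number of places above `v`. -/
noncomputable def nb (v : HeightOneSpectrum (𝓞 k)) : ℕ :=
  {w : HeightOneSpectrum (𝓞 L) | dn k w = v}.ncard

/-- The number of real embeddings above `s`. -/
noncomputable def nr (s : k →+* ℝ) : ℕ := Nat.card {t : L →+* ℝ // t.comp (algebraMap k L) = s}

end Classes

/-- The class `c` satisfies the local condition for `i`. -/
def Wc {k L F : Type} [Field k] [Field L] [Algebra k L] [Field F] (i : k →+* F) (a b : k) (θ : L)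
    (c : SC L) : Prop :=
  ∃ d : Fin 3 → k, ev θ d ≠ 0 ∧ sc (ev θ d) = c ∧ LC i a b d

/-- The points over the completion. -/
abbrev Pt {k : Type} [Field k] [NumberField k] (v : HeightOneSpectrum (𝓞 k)) (a b : k) : Type :=
  (⟨0, 0, 0, algebraMap k (v.adicCompletion k) a, algebraMap k (v.adicCompletion k) b⟩ :
    WeierstrassCurve (v.adicCompletion k)).toAffine.Point

/-- The points divisible by two. -/
noncomputable def D2 {k : Type} [Field k] [NumberField k] (v : HeightOneSpectrum (𝓞 k)) (a b : k) :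
    AddSubgroup (Pt v a b) := (zsmulAddGroupHom (α := Pt v a b) (2 : ℤ)).range

/-- The points killed by two. -/
noncomputable def T2 {k : Type} [Field k] [NumberField k] (v : HeightOneSpectrum (𝓞 k)) (a b : k) :
    AddSubgroup (Pt v a b) := (zsmulAddGroupHom (α := Pt v a b) (2 : ℤ)).ker

section Lemmas

variable {k L : Type} [Field k] [NumberField k] [Field L] [NumberField L] [Algebra k L]

theorem mem_HH {x : L} (hx : x ≠ 0) : sc x ∈ HH k L ↔ IsSquare (Algebra.norm k x) := by
  have _ : FiniteDimensional k L := Module.Finite.of_restrictScalars_finite ℚ k L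
  rw [HH, AddMonoidHom.mem_ker, scm_sc _ hx, H38T1.sc_eq_zero]
  exact Algebra.norm_ne_zero_iff.2 hx

theorem mem_Sq {w : HeightOneSpectrum (𝓞 L)} {x : L} (hx : x ≠ 0) :
    sc x ∈ Sq w ↔ IsSquare (algebraMap L (w.adicCompletion L) x) := by
  rw [Sq, AddMonoidHom.mem_ker, scm_sc _ hx, H38T1.sc_eq_zero]
  · rfl
  · exact (map_ne_zero (algebraMap L (w.adicCompletion L))).2 hx

theorem mem_Sqv {v : HeightOneSpectrum (𝓞 k)} {c : SC L} :
    c ∈ Sqv k L v ↔ ∀ w : HeightOneSpectrum (𝓞 L), dn k w = v → c ∈ Sq w := by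
  simp only [Sqv, AddSubgroup.mem_iInf]

theorem val_nat (V : Valuation k (WithZero (Multiplicative ℤ))) (n : ℕ) : V (n : k) ≤ 1 := by
  induction n with
  | zero => rw [Nat.cast_zero, map_zero]; exact zero_le
  | succ n ih =>
    rw [Nat.cast_succ]
    exact V.map_add_le ih (le_of_eq (map_one V))

theorem e2_spec (v : HeightOneSpectrum (𝓞 k)) : v.valuation k 2 = exp (-(e2 v : ℤ)) := by
  have h0 : v.valuation k 2 ≠ 0 := (Valuation.ne_zero_iff _).2 two_ne_zero
  have h1 : v.valuation k 2 ≤ 1 := by
    have := val_nat (v.valuation k) 2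
    rwa [Nat.cast_ofNat] at this
  have h2 : 0 ≤ ord (v.valuation k) 2 := by
    unfold ord
    have h3 := (log_le_log h0 one_ne_zero).2 h1
    rw [log_one] at h3
    omega
  rw [e2, Int.toNat_of_nonneg h2, ord, neg_neg, exp_log h0]

theorem qq_odd {v : HeightOneSpectrum (𝓞 k)} (h : v.valuation k 2 = 1) : qq v = 1 := by
  have h1 := e2_spec v
  rw [h, ← exp_zero, exp_inj] at h1
  have h2 : e2 v = 0 := by omega
  rw [qq, h2, pow_zero]

end Lemmas

end H30ZO

end S_H30_ZO_Df

section S_H30_ZO_Df2

set_option autoImplicit false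
set_option linter.unusedSectionVars false
open scoped Classical

open WithZero WeierstrassCurve

namespace H30ZO

/-- The points of the curve. -/
abbrev Pc {F : Type} [Field F] (A B : F) : Type := (⟨0, 0, 0, A, B⟩ : WeierstrassCurve F).toAffine.Point

/-- The points of level at least `m`. -/
def Lv {F : Type} [Field F] (V : Valuation F (WithZero (Multiplicative ℤ))) {A B : F} (m : ℕ)
    (P : Pc A B) : Prop :=
  P = 0 ∨ ∃ (x y : F) (h : (⟨0, 0, 0, A, B⟩ : WeierstrassCurve F).toAffine.Nonsingular x y),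
    P = Affine.Point.some x y h ∧ exp (2 * (m : ℤ)) ≤ V x

/-- The parameter `x / y`. -/
def zt {F : Type} [Field F] {A B : F} : Pc A B → F
  | 0 => 0
  | .some x y _ => x / y

theorem zt_zero {F : Type} [Field F] {A B : F} : zt (0 : Pc A B) = 0 := rfl

theorem zt_some {F : Type} [Field F] {A B : F} {x y : F}
    (h : (⟨0, 0, 0, A, B⟩ : WeierstrassCurve F).toAffine.Nonsingular x y) :
    zt (Affine.Point.some x y h : Pc A B) = x / y := rfl

end H30ZO

end S_H30_ZO_Df2

section S_H30_ZO_Gc

set_option autoImplicit false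
set_option linter.unusedSectionVars false
open scoped Classical

open WithZero NumberField IsDedekindDomain H38RT
open H38T1 (SC sc scu rep eo la si Pri OddP tp unif)
open H76PP

namespace H30ZO

theorem prod_two {k : Type} [Field k] [NumberField k] (S : Finset (HeightOneSpectrum (𝓞 k)))
    (h2 : ∀ v : HeightOneSpectrum (𝓞 k), v.valuation k 2 < 1 → v ∈ S) :
    ∏ v ∈ S, qq v = 2 ^ Module.finrank ℚ k := by
  have h20 : (2 : 𝓞 k) ≠ 0 := two_ne_zero
  have hI : (Ideal.span {(2 : 𝓞 k)}) ≠ 0 := by
    rw [Ideal.zero_eq_bot, Ne, Ideal.span_singleton_eq_bot]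
    exact h20
  -- the exponents
  have hexp : ∀ v : HeightOneSpectrum (𝓞 k),
      (Associates.mk v.asIdeal).count (Associates.mk (Ideal.span {(2 : 𝓞 k)})).factors = e2 v := by
    intro v
    have h3 := v.intValuation_if_neg h20
    have h33 : algebraMap (𝓞 k) k 2 = 2 := map_ofNat _ 2
    rw [← v.valuation_of_algebraMap (K := k)] at h3
    change v.valuation k (algebraMap (𝓞 k) k 2) = _ at h3
    rw [h33, e2_spec v, exp_inj] at h3
    omega
  have hone : ∀ v : HeightOneSpectrum (𝓞 k), v ∉ S → e2 v = 0 := by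
    intro v hv
    have h1 : v.valuation k 2 ≤ 1 := by
      have := val_nat (v.valuation k) 2
      rwa [Nat.cast_ofNat] at this
    have h3 : v.valuation k 2 = 1 := le_antisymm h1 (not_lt.1 fun h => hv (h2 v h))
    have h4 := e2_spec v
    rw [h3, ← exp_zero, exp_inj] at h4
    omega
  have hfac := Ideal.finprod_heightOneSpectrum_factorization hI
  have hfac2 : ∏ v ∈ S, v.asIdeal ^ e2 v = Ideal.span {(2 : 𝓞 k)} := by
    rw [← hfac]
    rw [finprod_eq_prod_of_mulSupport_subset (s := S)]
    · refine Finset.prod_congr rfl fun v _ => ?_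
      rw [HeightOneSpectrum.maxPowDividing, hexp v]
    · intro v hv
      rw [Function.mem_mulSupport] at hv
      by_contra hvS
      apply hv
      rw [HeightOneSpectrum.maxPowDividing, hexp v, hone v hvS, pow_zero]
  have hN : ∏ v ∈ S, qq v = Ideal.absNorm (∏ v ∈ S, v.asIdeal ^ e2 v) := by
    rw [map_prod]
    refine Finset.prod_congr rfl fun v _ => ?_
    rw [map_pow]
    rfl
  rw [hN, hfac2, Ideal.absNorm_span_singleton]
  have h5 : Algebra.norm ℤ (2 : 𝓞 k) = 2 ^ Module.finrank ℚ k := by
    have h6 := Algebra.norm_algebraMap (R := ℤ) (S := 𝓞 k) 2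
    rw [map_ofNat, RingOfIntegers.rank] at h6
    exact h6
  rw [h5, Int.natAbs_pow]
  rfl

end H30ZO

end S_H30_ZO_Gc

section S_H30_ZO_Na

set_option autoImplicit false
set_option linter.unusedSectionVars false
open scoped Classical

open WithZero NumberField IsDedekindDomain H38RT
open H38T1 (SC sc scu rep eo la si Pri OddP tp unif)
open H76PP

namespace H30ZO

theorem Na_ev_mul {k L : Type} [Field k] [Field L] [Algebra k L] {a b : k} {θ : L}
    (h : Cub k L a b θ) (u v : Fin 3 → k) : ev θ u * ev θ v = ev θ (m3 a b u v) := by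
  have hr := h.root
  simp only [ev, m3, Matrix.cons_val_zero, Matrix.cons_val_one, Matrix.cons_val_two,
    Matrix.head_cons, Matrix.tail_cons, Matrix.cons_val, map_add, map_sub, map_mul]
  generalize algebraMap k L (u 0) = a0
  generalize algebraMap k L (u 1) = a1
  generalize algebraMap k L (u 2) = a2
  generalize algebraMap k L (v 0) = b0
  generalize algebraMap k L (v 1) = b1
  generalize algebraMap k L (v 2) = b2
  linear_combination (a1 * b2 + a2 * b1 + a2 * b2 * θ) * hr

theorem Na_inj {k L : Type} [Field k] [Field L] [Algebra k L] {a b : k} {θ : L}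
    (h : Cub k L a b θ) {d e : Fin 3 → k} (he : ev θ d = ev θ e) : d = e := by
  unfold ev at he
  obtain ⟨h0, h1, h2⟩ := h.li (d 0 - e 0) (d 1 - e 1) (d 2 - e 2) (by
    rw [map_sub, map_sub, map_sub]
    linear_combination he)
  funext j
  fin_cases j
  · exact sub_eq_zero.1 h0
  · exact sub_eq_zero.1 h1
  · exact sub_eq_zero.1 h2

theorem Wc_iff {k L F : Type} [Field k] [Field L] [Algebra k L] [Field F] (i : k →+* F) {a b : k}
    {θ : L} (h : Cub k L a b θ) {d : Fin 3 → k} (hd : ev θ d ≠ 0) :
    Wc i a b θ (sc (ev θ d)) ↔ LC i a b d := by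
  constructor
  · rintro ⟨d', hd', hc, hL⟩
    have h2 : sc (ev θ d * ev θ d') = 0 := by
      rw [H38T1.sc_mul hd hd', hc, ← two_nsmul, H38T1.SC.two_smul]
    obtain ⟨t, ht⟩ := (H38T1.sc_eq_zero (mul_ne_zero hd hd')).1 h2
    obtain ⟨e0, e1, e2, hu⟩ := h.sp (t / ev θ d')
    obtain ⟨e, he⟩ : ∃ e : Fin 3 → k, ev θ e = t / ev θ d' := ⟨![e0, e1, e2], by
      rw [hu]
      simp [ev]⟩
    have h3 : ev θ d = ev θ (m3 a b d' (m3 a b e e)) := by
      rw [← Na_ev_mul h, ← Na_ev_mul h, he]
      have h4 : ev θ d' * (t / ev θ d' * (t / ev θ d')) = t * t / ev θ d' := by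
        field_simp
      rw [h4, ← ht, mul_div_cancel_right₀ _ hd']
    rw [Na_inj h h3]
    exact H73P2.LC_sq i e hL
  · intro hL
    exact ⟨d, hd, rfl, hL⟩

end H30ZO

end S_H30_ZO_Na
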