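import Mathlib
import Pool.Agent.H88.T7.Un
import Pool.Agent.H76.PN.A4
import Pool.Agent.H76.PN.D1
import Pool.Agent.H76.ZQ.Y0

/-! This file joins several modules to save build time (Y8). -/

set_option autoImplicit false

section S_H30_ZO_Ea

set_option autoImplicit false

namespace H30ZO

private theorem Ea_root (A B : ℝ) : ∃ r : ℝ, r ^ 3 + A * r + B = 0 := by
  have hcont : Continuous fun x : ℝ => x ^ 3 + A * x + B := by fun_prop
  have hA := neg_abs_le A
  have hA' := le_abs_self A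
  have hB := neg_abs_le B
  have hB' := le_abs_self B
  have hA0 := abs_nonneg A
  have hB0 := abs_nonneg B
  obtain ⟨M, hM⟩ : ∃ M, M = 1 + |A| + |B| := ⟨_, rfl⟩
  have hM1 : 1 ≤ M := by linarith
  have h1 : 0 ≤ M * (M ^ 2 - |A| - |B|) := by
    apply mul_nonneg (by linarith)
    nlinarith
  have h2 : |A| * M + |B| ≤ M ^ 3 := by nlinarith
  have h3 : A * M ≤ |A| * M := mul_le_mul_of_nonneg_right hA' (by linarith)
  have h4 : -|A| * M ≤ A * M := mul_le_mul_of_nonneg_right hA (by linarith)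
  have h5 := mem_range_of_exists_le_of_exists_ge (c := (0 : ℝ)) hcont
    ⟨-M, (by nlinarith : (-M) ^ 3 + A * (-M) + B ≤ 0)⟩
    ⟨M, (by nlinarith : 0 ≤ M ^ 3 + A * M + B)⟩
  obtain ⟨r, hr⟩ := h5
  exact ⟨r, hr⟩

theorem real_cases {A B : ℝ} (hD : 4 * A ^ 3 + 27 * B ^ 2 ≠ 0) :
    (∃ r p q : ℝ, (∀ x : ℝ, x ^ 3 + A * x + B = (x - r) * (x ^ 2 + p * x + q)) ∧ p ^ 2 < 4 * q) ∨
      ∃ r₁ r₂ r₃ : ℝ, r₁ < r₂ ∧ r₂ < r₃ ∧
        ∀ x : ℝ, x ^ 3 + A * x + B = (x - r₁) * (x - r₂) * (x - r₃) := by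
  obtain ⟨r, hr⟩ := Ea_root A B
  have hB : B = -r ^ 3 - A * r := by linear_combination hr
  have hfac : ∀ x : ℝ, x ^ 3 + A * x + B = (x - r) * (x ^ 2 + r * x + (r ^ 2 + A)) := by
    intro x
    rw [hB]
    ring
  by_cases hδ : r ^ 2 < 4 * (r ^ 2 + A)
  · exact Or.inl ⟨r, r, r ^ 2 + A, hfac, hδ⟩
  right
  have hδ' : 0 ≤ r ^ 2 - 4 * (r ^ 2 + A) := by linarith
  obtain ⟨s, hs, hs0⟩ : ∃ s : ℝ, s ^ 2 = r ^ 2 - 4 * (r ^ 2 + A) ∧ 0 ≤ s :=
    ⟨_, Real.sq_sqrt hδ', Real.sqrt_nonneg _⟩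
  have hA : A = (r ^ 2 - s ^ 2) / 4 - r ^ 2 := by linear_combination (1 / 4) * hs
  have hdisc : 4 * A ^ 3 + 27 * B ^ 2 = -(s ^ 2 * (3 * r ^ 2 + A) ^ 2) := by
    rw [hB, hs]
    ring
  have hs1 : s ≠ 0 := by
    rintro rfl
    apply hD
    rw [hdisc]
    ring
  have hs2 : 3 * r ^ 2 + A ≠ 0 := by
    intro h
    apply hD
    rw [hdisc, h]
    ring
  have hspos : 0 < s := lt_of_le_of_ne hs0 (Ne.symm hs1)
  obtain ⟨u, hu⟩ : ∃ u : ℝ, u = (-r - s) / 2 := ⟨_, rfl⟩
  obtain ⟨v, hv⟩ : ∃ v : ℝ, v = (-r + s) / 2 := ⟨_, rfl⟩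
  have huv : u < v := by rw [hu, hv]; linarith
  have hfac2 : ∀ x : ℝ, x ^ 3 + A * x + B = (x - r) * ((x - u) * (x - v)) := by
    intro x
    rw [hfac, hu, hv, hA]
    ring
  have hprod : (r - u) * (r - v) = 3 * r ^ 2 + A := by
    rw [hu, hv, hA]
    ring
  have hru : r ≠ u := by
    rintro rfl
    rw [sub_self, zero_mul] at hprod
    exact hs2 hprod.symm
  have hrv : r ≠ v := by
    rintro rfl
    rw [sub_self, mul_zero] at hprod
    exact hs2 hprod.symm
  rcases lt_or_gt_of_ne hru with h1 | h1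
  · exact ⟨r, u, v, h1, huv, fun x => by rw [hfac2]; ring⟩
  rcases lt_or_gt_of_ne hrv with h2 | h2
  · exact ⟨u, r, v, h1, h2, fun x => by rw [hfac2]; ring⟩
  · exact ⟨u, v, r, huv, h2, fun x => by rw [hfac2]; ring⟩

end H30ZO

end S_H30_ZO_Ea

section S_H30_ZO_Eb

set_option autoImplicit false
set_option linter.unusedSectionVars false
open scoped Classical

open H76PP

namespace H30ZO

private theorem eb_cast {A B : ℝ} {z : Fin 3 → ℝ} {u : Fin 3 → ℂ} (hu : ∀ j, u j = (z j : ℂ))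
    (j : Fin 3) : m3 (A : ℂ) (B : ℂ) u u j = ((m3 A B z z j : ℝ) : ℂ) := by
  have h0 : m3 (A : ℂ) (B : ℂ) u u 0 = u 0 * u 0 - B * (u 1 * u 2 + u 2 * u 1) := rfl
  have h1 : m3 (A : ℂ) (B : ℂ) u u 1
      = u 0 * u 1 + u 1 * u 0 - A * (u 1 * u 2 + u 2 * u 1) - B * (u 2 * u 2) := rfl
  have h2 : m3 (A : ℂ) (B : ℂ) u u 2
      = u 0 * u 2 + u 1 * u 1 + u 2 * u 0 - A * (u 2 * u 2) := rfl
  have k0 : m3 A B z z 0 = z 0 * z 0 - B * (z 1 * z 2 + z 2 * z 1) := rfl
  have k1 : m3 A B z z 1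
      = z 0 * z 1 + z 1 * z 0 - A * (z 1 * z 2 + z 2 * z 1) - B * (z 2 * z 2) := rfl
  have k2 : m3 A B z z 2 = z 0 * z 2 + z 1 * z 1 + z 2 * z 0 - A * (z 2 * z 2) := rfl
  fin_cases j
  · show m3 (A : ℂ) (B : ℂ) u u 0 = ((m3 A B z z 0 : ℝ) : ℂ)
    rw [h0, k0, hu 0, hu 1, hu 2]
    push_cast
    ring
  · show m3 (A : ℂ) (B : ℂ) u u 1 = ((m3 A B z z 1 : ℝ) : ℂ)
    rw [h1, k1, hu 0, hu 1, hu 2]
    push_cast
    ring
  · show m3 (A : ℂ) (B : ℂ) u u 2 = ((m3 A B z z 2 : ℝ) : ℂ)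
    rw [h2, k2, hu 0, hu 1, hu 2]
    push_cast
    ring

private theorem eb_conj (e : ℂ) (u : Fin 3 → ℂ) :
    H24PD.E3 ((starRingEnd ℂ) e) (fun j => (starRingEnd ℂ) (u j))
      = (starRingEnd ℂ) (H24PD.E3 e u) := by
  unfold H24PD.E3
  simp only [map_add, map_mul, map_pow]

private theorem eb_three {A B : ℝ} {d : Fin 3 → ℝ} {r₁ r₂ r₃ : ℝ} (h12 : r₁ < r₂) (h23 : r₂ < r₃)
    (hr : ∀ x : ℝ, x ^ 3 + A * x + B = (x - r₁) * (x - r₂) * (x - r₃))
    (hd : ∀ r : ℝ, r ^ 3 + A * r + B = 0 → 0 < d 0 + d 1 * r + d 2 * r ^ 2) :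
    ∃ z : Fin 3 → ℝ, m3 A B z z = d := by
  have g1 : r₁ ^ 3 + A * r₁ + B = 0 := by rw [hr]; ring
  have g2 : r₂ ^ 3 + A * r₂ + B = 0 := by rw [hr]; ring
  have g3 : r₃ ^ 3 + A * r₃ + B = 0 := by rw [hr]; ring
  have ge : ∀ i : Fin 3, (![r₁, r₂, r₃] i) ^ 3 + A * (![r₁, r₂, r₃] i) + B = 0 := by
    intro i
    fin_cases i
    · exact g1
    · exact g2
    · exact g3
  have e01 : (![r₁, r₂, r₃] : Fin 3 → ℝ) 0 ≠ (![r₁, r₂, r₃] : Fin 3 → ℝ) 1 := by
    show r₁ ≠ r₂
    exact h12.ne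
  have e02 : (![r₁, r₂, r₃] : Fin 3 → ℝ) 0 ≠ (![r₁, r₂, r₃] : Fin 3 → ℝ) 2 := by
    show r₁ ≠ r₃
    exact (h12.trans h23).ne
  have e12 : (![r₁, r₂, r₃] : Fin 3 → ℝ) 1 ≠ (![r₁, r₂, r₃] : Fin 3 → ℝ) 2 := by
    show r₂ ≠ r₃
    exact h23.ne
  obtain ⟨z, hz⟩ := H24PD.E3_ex e01 e02 e12
    (fun i => Real.sqrt (H24PD.E3 (![r₁, r₂, r₃] i) d))
  refine ⟨z, H24PD.E3_inj e01 e02 e12 fun i => ?_⟩
  rw [H24PD.E3_m3 (ge i), hz i]
  refine Real.mul_self_sqrt ?_
  have h := hd _ (ge i)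
  unfold H24PD.E3
  linarith

private theorem eb_one {A B : ℝ} {d : Fin 3 → ℝ} {r p q : ℝ}
    (hr : ∀ x : ℝ, x ^ 3 + A * x + B = (x - r) * (x ^ 2 + p * x + q)) (hpq : p ^ 2 < 4 * q)
    (hd : ∀ r : ℝ, r ^ 3 + A * r + B = 0 → 0 < d 0 + d 1 * r + d 2 * r ^ 2) :
    ∃ z : Fin 3 → ℝ, m3 A B z z = d := by
  have g1 : r ^ 3 + A * r + B = 0 := by rw [hr]; ring
  have a0 := hr 0
  have a1 := hr 1
  have a2 := hr (-1)
  have a3 := hr 2
  have hp : p = r := by nlinarith
  have hA : A = q - r * p := by nlinarith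
  have hB : B = - (r * q) := by nlinarith
  obtain ⟨s, hs, hs2⟩ : ∃ s : ℝ, 0 < s ∧ s ^ 2 = 4 * q - p ^ 2 :=
    ⟨Real.sqrt (4 * q - p ^ 2), Real.sqrt_pos.2 (by linarith), Real.sq_sqrt (by linarith)⟩
  obtain ⟨ρ, hρ⟩ : ∃ ρ : ℂ, ρ = ⟨-p / 2, s / 2⟩ := ⟨_, rfl⟩
  have hρ0 : ρ ^ 2 + p * ρ + q = 0 := by
    rw [hρ]
    apply Complex.ext
    · simp only [pow_two, Complex.add_re, Complex.mul_re, Complex.ofReal_re, Complex.ofReal_im,
        Complex.zero_re]
      nlinarith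
    · simp only [pow_two, Complex.add_im, Complex.mul_im, Complex.ofReal_re, Complex.ofReal_im,
        Complex.zero_im]
      nlinarith
  have hρr : ρ ^ 3 + (A : ℂ) * ρ + (B : ℂ) = 0 := by
    rw [hA, hB, hp]
    rw [hp] at hρ0
    push_cast
    linear_combination (ρ - r) * hρ0
  have hcr : ((starRingEnd ℂ) ρ) ^ 3 + (A : ℂ) * ((starRingEnd ℂ) ρ) + (B : ℂ) = 0 := by
    have h := congrArg (starRingEnd ℂ) hρr
    simp only [map_add, map_mul, map_pow, Complex.conj_ofReal, map_zero] at h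
    exact h
  have hrr : ((r : ℝ) : ℂ) ^ 3 + (A : ℂ) * ((r : ℝ) : ℂ) + (B : ℂ) = 0 := by
    exact_mod_cast congrArg (fun t : ℝ => (t : ℂ)) g1
  have him : ρ.im ≠ 0 := by
    rw [hρ]
    show s / 2 ≠ 0
    exact (by positivity : (0:ℝ) < s / 2).ne'
  obtain ⟨ζ, hζ⟩ : ∃ ζ : ℂ, ζ ^ 2 = H24PD.E3 ρ (fun j => (d j : ℂ)) :=
    IsAlgClosed.exists_pow_nat_eq _ (by norm_num)
  have hdr := hd r g1
  have ge : ∀ i : Fin 3, ((![((r : ℝ) : ℂ), ρ, (starRingEnd ℂ) ρ] : Fin 3 → ℂ) i) ^ 3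
      + (A : ℂ) * ((![((r : ℝ) : ℂ), ρ, (starRingEnd ℂ) ρ] : Fin 3 → ℂ) i) + (B : ℂ) = 0 := by
    intro i
    fin_cases i
    · exact hrr
    · exact hρr
    · exact hcr
  have e01 : (![((r : ℝ) : ℂ), ρ, (starRingEnd ℂ) ρ] : Fin 3 → ℂ) 0
      ≠ (![((r : ℝ) : ℂ), ρ, (starRingEnd ℂ) ρ] : Fin 3 → ℂ) 1 := by
    show ((r : ℝ) : ℂ) ≠ ρ
    intro h
    apply him
    rw [← h]
    exact Complex.ofReal_im r
  have e02 : (![((r : ℝ) : ℂ), ρ, (starRingEnd ℂ) ρ] : Fin 3 → ℂ) 0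
      ≠ (![((r : ℝ) : ℂ), ρ, (starRingEnd ℂ) ρ] : Fin 3 → ℂ) 2 := by
    show ((r : ℝ) : ℂ) ≠ (starRingEnd ℂ) ρ
    intro h
    have h2 := congrArg Complex.im h
    rw [Complex.ofReal_im, Complex.conj_im] at h2
    exact him (by linarith)
  have e12 : (![((r : ℝ) : ℂ), ρ, (starRingEnd ℂ) ρ] : Fin 3 → ℂ) 1
      ≠ (![((r : ℝ) : ℂ), ρ, (starRingEnd ℂ) ρ] : Fin 3 → ℂ) 2 := by
    show ρ ≠ (starRingEnd ℂ) ρ
    intro h
    have h2 := congrArg Complex.im h
    rw [Complex.conj_im] at h2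
    exact him (by linarith)
  obtain ⟨u, hu⟩ := H24PD.E3_ex e01 e02 e12
    ![((Real.sqrt (d 0 + d 1 * r + d 2 * r ^ 2) : ℝ) : ℂ), ζ, (starRingEnd ℂ) ζ]
  have u0 : H24PD.E3 ((r : ℝ) : ℂ) u = ((Real.sqrt (d 0 + d 1 * r + d 2 * r ^ 2) : ℝ) : ℂ) := hu 0
  have u1 : H24PD.E3 ρ u = ζ := hu 1
  have u2 : H24PD.E3 ((starRingEnd ℂ) ρ) u = (starRingEnd ℂ) ζ := hu 2
  have hcu : (fun j => (starRingEnd ℂ) (u j)) = u := by
    refine H24PD.E3_inj e01 e02 e12 fun i => ?_
    fin_cases i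
    · show H24PD.E3 ((r : ℝ) : ℂ) (fun j => (starRingEnd ℂ) (u j)) = H24PD.E3 ((r : ℝ) : ℂ) u
      have h := eb_conj ((r : ℝ) : ℂ) u
      rw [Complex.conj_ofReal, u0, Complex.conj_ofReal] at h
      rw [h, u0]
    · show H24PD.E3 ρ (fun j => (starRingEnd ℂ) (u j)) = H24PD.E3 ρ u
      have h := eb_conj ((starRingEnd ℂ) ρ) u
      rw [Complex.conj_conj, u2, Complex.conj_conj] at h
      rw [h, u1]
    · show H24PD.E3 ((starRingEnd ℂ) ρ) (fun j => (starRingEnd ℂ) (u j))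
        = H24PD.E3 ((starRingEnd ℂ) ρ) u
      rw [eb_conj ρ u, u1, u2]
  have hur : ∀ j, u j = (((u j).re : ℝ) : ℂ) := by
    intro j
    have h : (starRingEnd ℂ) (u j) = u j := congrFun hcu j
    exact ((Complex.conj_eq_iff_re).1 h).symm
  have hm : m3 (A : ℂ) (B : ℂ) u u = fun j => (d j : ℂ) := by
    refine H24PD.E3_inj e01 e02 e12 fun i => ?_
    rw [H24PD.E3_m3 (ge i)]
    fin_cases i
    · show H24PD.E3 ((r : ℝ) : ℂ) u * H24PD.E3 ((r : ℝ) : ℂ) u
        = H24PD.E3 ((r : ℝ) : ℂ) (fun j => (d j : ℂ))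
      rw [u0]
      have h := Real.mul_self_sqrt hdr.le
      unfold H24PD.E3
      rw [← Complex.ofReal_mul, h]
      push_cast
      ring
    · show H24PD.E3 ρ u * H24PD.E3 ρ u = H24PD.E3 ρ (fun j => (d j : ℂ))
      rw [u1, ← hζ]
      ring
    · show H24PD.E3 ((starRingEnd ℂ) ρ) u * H24PD.E3 ((starRingEnd ℂ) ρ) u
        = H24PD.E3 ((starRingEnd ℂ) ρ) (fun j => (d j : ℂ))
      have h := eb_conj ρ (fun j => (d j : ℂ))
      simp only [Complex.conj_ofReal] at h
      rw [u2, h, ← hζ, map_pow]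
      ring
  refine ⟨fun j => (u j).re, ?_⟩
  funext j
  have h := congrFun hm j
  rw [eb_cast hur j] at h
  exact_mod_cast h

theorem sq_real {A B : ℝ} (hD : 4 * A ^ 3 + 27 * B ^ 2 ≠ 0) {d : Fin 3 → ℝ}
    (hd : ∀ r : ℝ, r ^ 3 + A * r + B = 0 → 0 < d 0 + d 1 * r + d 2 * r ^ 2) :
    ∃ z : Fin 3 → ℝ, m3 A B z z = d := by
  rcases real_cases hD with ⟨r, p, q, hr, hpq⟩ | ⟨r₁, r₂, r₃, h12, h23, hr⟩
  · exact eb_one hr hpq hd
  · exact eb_three h12 h23 hr hd

end H30ZO

end S_H30_ZO_Eb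

section S_H30_ZO_Ec

set_option autoImplicit false
set_option linter.unusedSectionVars false
open scoped Classical

open WithZero NumberField IsDedekindDomain H38RT
open H38T1 (SC sc scu rep eo la si Pri OddP tp unif)
open H76PP

namespace H30ZO

variable {k L : Type} [Field k] [NumberField k] [Field L] [NumberField L] [Algebra k L]

theorem emb_real {a b : k} {θ : L} (h : Cub k L a b θ) (s : k →+* ℝ) {r : ℝ}
    (hr : r ^ 3 + s a * r + s b = 0) :
    ∃ t : L →+* ℝ, t.comp (algebraMap k L) = s ∧ t θ = r := by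
  have key : ∀ x y : L, s (h.co 0 (x * y)) + s (h.co 1 (x * y)) * r + s (h.co 2 (x * y)) * r ^ 2 =
      (s (h.co 0 x) + s (h.co 1 x) * r + s (h.co 2 x) * r ^ 2) *
      (s (h.co 0 y) + s (h.co 1 y) * r + s (h.co 2 y) * r ^ 2) := by
    intro x y
    obtain ⟨c0, c1, c2⟩ := h.co_mul x y
    rw [c0, c1, c2]
    simp only [map_add, map_sub, map_mul]
    generalize s (h.co 0 x) = a0
    generalize s (h.co 1 x) = a1
    generalize s (h.co 2 x) = a2
    generalize s (h.co 0 y) = b0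
    generalize s (h.co 1 y) = b1
    generalize s (h.co 2 y) = b2
    linear_combination (-(a1 * b2 + a2 * b1 + a2 * b2 * r)) * hr
  refine ⟨{ toFun := fun x => s (h.co 0 x) + s (h.co 1 x) * r + s (h.co 2 x) * r ^ 2
            map_one' := ?_
            map_mul' := key
            map_zero' := ?_
            map_add' := ?_ }, ?_, ?_⟩
  · obtain ⟨e0, e1, e2⟩ := h.co_one
    show s (h.co 0 1) + s (h.co 1 1) * r + s (h.co 2 1) * r ^ 2 = 1
    rw [e0, e1, e2]
    simp
  · show s (h.co 0 0) + s (h.co 1 0) * r + s (h.co 2 0) * r ^ 2 = 0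
    simp
  · intro x y
    show s (h.co 0 (x + y)) + s (h.co 1 (x + y)) * r + s (h.co 2 (x + y)) * r ^ 2 =
      (s (h.co 0 x) + s (h.co 1 x) * r + s (h.co 2 x) * r ^ 2) +
      (s (h.co 0 y) + s (h.co 1 y) * r + s (h.co 2 y) * r ^ 2)
    simp only [map_add]
    ring
  · ext y
    show s (h.co 0 (algebraMap k L y)) + s (h.co 1 (algebraMap k L y)) * r +
      s (h.co 2 (algebraMap k L y)) * r ^ 2 = s y
    have h1 := h.co_mk' y 0 0
    simp only [map_zero, zero_mul, add_zero] at h1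
    rw [h1.1, h1.2.1, h1.2.2]
    simp
  · obtain ⟨e0, e1, e2⟩ := h.co_theta
    show s (h.co 0 θ) + s (h.co 1 θ) * r + s (h.co 2 θ) * r ^ 2 = r
    rw [e0, e1, e2]
    simp

/-- The number of real embeddings above `s` is the number of the real roots. -/
theorem ec_card {a b : k} {θ : L} (h : Cub k L a b θ) (s : k →+* ℝ) :
    nr k L s = Nat.card {r : ℝ // r ^ 3 + s a * r + s b = 0} := by
  unfold nr
  have hroot : ∀ t : L →+* ℝ, t.comp (algebraMap k L) = s → (t θ) ^ 3 + s a * t θ + s b = 0 := by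
    intro t ht
    have h1 := congrArg t h.root
    simp only [map_add, map_mul, map_pow, map_zero] at h1
    have h2 : ∀ y : k, t (algebraMap k L y) = s y := fun y => by rw [← ht]; rfl
    rw [h2, h2] at h1
    exact h1
  refine Nat.card_congr (Equiv.ofBijective (fun t => ⟨t.1 θ, hroot t.1 t.2⟩) ⟨?_, ?_⟩)
  · rintro ⟨t, ht⟩ ⟨u, hu⟩ e
    have e1 : t θ = u θ := congrArg Subtype.val e
    refine Subtype.ext ?_
    refine RingHom.ext fun x => ?_
    have h2 : ∀ y : k, t (algebraMap k L y) = u (algebraMap k L y) := fun y => by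
      have := congrArg (fun f : k →+* ℝ => f y) (ht.trans hu.symm)
      exact this
    show t x = u x
    rw [h.eq_co x]
    simp only [map_add, map_mul, map_pow, e1, h2]
  · rintro ⟨r, hr⟩
    obtain ⟨t, ht, h1⟩ := emb_real h s hr
    exact ⟨⟨t, ht⟩, Subtype.ext h1⟩

theorem nr_cases {a b : k} {θ : L} (h : Cub k L a b θ) (hD : 4 * a ^ 3 + 27 * b ^ 2 ≠ 0)
    (s : k →+* ℝ) : nr k L s = 1 ∨ nr k L s = 3 := by
  rw [ec_card h s]
  have hD' : 4 * (s a) ^ 3 + 27 * (s b) ^ 2 ≠ 0 := by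
    intro h0
    apply hD
    have h1 : s (4 * a ^ 3 + 27 * b ^ 2) = 0 := by
      simp only [map_add, map_mul, map_pow, map_ofNat]
      exact h0
    exact (map_eq_zero s).1 h1
  rcases real_cases hD' with ⟨r, p, q, hf, hq⟩ | ⟨r₁, r₂, r₃, h12, h23, hf⟩
  · left
    have e : {x : ℝ | x ^ 3 + s a * x + s b = 0} = {r} := by
      ext x
      simp only [Set.mem_ofPred_eq, Set.mem_singleton_iff]
      rw [hf x]
      constructor
      · intro h0
        rcases mul_eq_zero.1 h0 with h1 | h1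
        · linarith
        · exfalso
          nlinarith [sq_nonneg (2 * x + p)]
      · intro h0
        rw [h0, sub_self, zero_mul]
    have : Nat.card {x : ℝ | x ^ 3 + s a * x + s b = 0} = 1 := by
      rw [e]
      simp
    exact this
  · right
    have e : {x : ℝ | x ^ 3 + s a * x + s b = 0} = {r₁, r₂, r₃} := by
      ext x
      simp only [Set.mem_ofPred_eq, Set.mem_insert_iff, Set.mem_singleton_iff]
      rw [hf x]
      rw [mul_eq_zero, mul_eq_zero, sub_eq_zero, sub_eq_zero, sub_eq_zero, or_assoc]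
    have h3 : Set.ncard {x : ℝ | x ^ 3 + s a * x + s b = 0} = 3 := by
      rw [e]
      exact Set.ncard_eq_three.2 ⟨r₁, r₂, r₃, h12.ne, (h12.trans h23).ne, h23.ne, rfl⟩
    exact h3

end H30ZO

end S_H30_ZO_Ec

section S_H30_ZO_Ed

set_option autoImplicit false
set_option linter.unusedSectionVars false
open scoped Classical

open WithZero NumberField IsDedekindDomain H38RT
open H38T1 (SC sc scu rep eo la si Pri OddP tp unif)
open H76PP

namespace H30ZO

variable {k L : Type} [Field k] [NumberField k] [Field L] [NumberField L] [Algebra k L]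

private lemma Ed_m3 {a b e : ℝ} (he : e ^ 3 + a * e + b = 0)
    (u v : Fin 3 → ℝ) : H24PD.E3 e (m3 a b u v) = H24PD.E3 e u * H24PD.E3 e v := by
  have h0 : m3 a b u v 0 = u 0 * v 0 - b * (u 1 * v 2 + u 2 * v 1) := rfl
  have h1 : m3 a b u v 1 = u 0 * v 1 + u 1 * v 0 - a * (u 1 * v 2 + u 2 * v 1) - b * (u 2 * v 2) := rfl
  have h2 : m3 a b u v 2 = u 0 * v 2 + u 1 * v 1 + u 2 * v 0 - a * (u 2 * v 2) := rfl
  unfold H24PD.E3
  rw [h0, h1, h2]
  linear_combination (-(u 1 * v 2 + u 2 * v 1) - u 2 * v 2 * e) * he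

private lemma Ed_big {A B x : ℝ} (hx : 1 + |A| + |B| ≤ x) : 0 < x ^ 3 + A * x + B := by
  have hA := neg_abs_le A
  have hB := neg_abs_le B
  have hA0 := abs_nonneg A
  have hB0 := abs_nonneg B
  have hx1 : 1 ≤ x := by linarith
  have h1 : 0 ≤ (A + |A|) * x := mul_nonneg (by linarith) (by linarith)
  have h2 : 0 ≤ (x - (1 + |A| + |B|)) * x := mul_nonneg (by linarith) (by linarith)
  have h3 : 0 ≤ (x ^ 2) * (x - 1) := mul_nonneg (by positivity) (by linarith)
  have h4 : 0 ≤ |B| * (x - 1) := mul_nonneg hB0 (by linarith)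
  nlinarith

private lemma Ed_LC {k : Type} [Field k] {a b : k} (s : k →+* ℝ) (hD : 4 * (s a) ^ 3 + 27 * (s b) ^ 2 ≠ 0)
    {d : Fin 3 → k} {x : ℝ} (hx : 0 < x ^ 3 + s a * x + s b)
    (hd : ∀ r : ℝ, r ^ 3 + s a * r + s b = 0 → 0 < H24PD.E3 r (fun j => s (d j)) * (x - r)) : LC s a b d := by
  obtain ⟨z, hz⟩ := sq_real hD (d := m3 (s a) (s b) (fun j => s (d j)) ![x, -1, 0]) (by
    intro r hr
    have h1 := Ed_m3 hr (fun j => s (d j)) ![x, -1, 0]
    have h2 : H24PD.E3 r ![x, -1, 0] = x - r := by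
      unfold H24PD.E3
      simp
      ring
    rw [h2] at h1
    have h3 : m3 (s a) (s b) (fun j => s (d j)) ![x, -1, 0] 0 + m3 (s a) (s b) (fun j => s (d j)) ![x, -1, 0] 1 * r +
        m3 (s a) (s b) (fun j => s (d j)) ![x, -1, 0] 2 * r ^ 2 =
        H24PD.E3 r (m3 (s a) (s b) (fun j => s (d j)) ![x, -1, 0]) := rfl
    rw [h3, h1]
    exact hd r hr)
  refine ⟨x, √(x ^ 3 + s a * x + s b), z, (Real.sqrt_pos.2 hx).ne', Real.sq_sqrt hx.le, hz.symm⟩

private lemma Ed_pos {a b : k} {θ : L} (h : Cub k L a b θ) (s : k →+* ℝ) {d : Fin 3 → k} (hd0 : ev θ d ≠ 0)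
    (hc : sc (ev θ d) ∈ HH k L) : 0 < Te_nf (s a) (s b) (fun j => s (d j)) := by
  have _ : FiniteDimensional k L := Module.Finite.of_restrictScalars_finite ℚ k L
  rw [mem_HH hd0, Te_norm h] at hc
  obtain ⟨n, hn⟩ := hc
  rw [Te_nf_map, hn, map_mul]
  have h1 : Te_nf a b d ≠ 0 := by
    rw [← Te_norm h]
    exact Algebra.norm_ne_zero_iff.2 hd0
  have h2 : s n ≠ 0 := by
    intro h0
    apply h1
    rw [hn, (map_eq_zero s).1 h0, mul_zero]
  exact mul_self_pos.2 h2

private lemma Ed_ev {a b : k} {θ : L} (h : Cub k L a b θ) (c : SC L) :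
    ∃ d : Fin 3 → k, ev θ d ≠ 0 ∧ sc (ev θ d) = c := by
  obtain ⟨d0, d1, d2, hd⟩ := h.sp (rep c)
  refine ⟨![d0, d1, d2], ?_, ?_⟩
  · have : ev θ ![d0, d1, d2] = rep c := by
      rw [hd]
      rfl
    rw [this]
    exact H38T1.rep_ne c
  · have : ev θ ![d0, d1, d2] = rep c := by
      rw [hd]
      rfl
    rw [this]
    exact H38T1.sc_rep c

private lemma Ed_tev {θ : L} (s : k →+* ℝ) (t : L →+* ℝ) (ht : t.comp (algebraMap k L) = s) {r : ℝ} (hr : t θ = r)
    (d : Fin 3 → k) : t (ev θ d) = H24PD.E3 r (fun j => s (d j)) := by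
  unfold ev H24PD.E3
  rw [← ht, ← hr]
  simp only [map_add, map_mul, map_pow, RingHom.comp_apply]

theorem real_idx {a b : k} {θ : L} (h : Cub k L a b θ) (hD : 4 * a ^ 3 + 27 * b ^ 2 ≠ 0)
    (s : k →+* ℝ) {W : AddSubgroup (SC L)}
    (hW : ∀ c, c ∈ W ↔ c ∈ HH k L ∧ Wc s a b θ c) :
    W.relIndex (HH k L) ≠ 0 ∧ 2 * W.relIndex (HH k L) ≤ nr k L s + 1 := by
  have hD' : 4 * (s a) ^ 3 + 27 * (s b) ^ 2 ≠ 0 := by
    have e : 4 * (s a) ^ 3 + 27 * (s b) ^ 2 = s (4 * a ^ 3 + 27 * b ^ 2) := by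
      rw [map_add, map_mul, map_mul, map_pow, map_pow, map_ofNat, map_ofNat]
    rw [e]
    exact (map_ne_zero s).2 hD
  have hnr := nr_cases h hD s
  rcases real_cases hD' with ⟨r, p, q, hf, hpq⟩ | ⟨r₁, r₂, r₃, h12, h23, hf⟩
  · -- one real root
    have e0 := hf 0
    have e1 := hf 1
    have e2 := hf (-1)
    have hp : p = r := by linarith
    have hA : s a = q - r ^ 2 := by
      rw [hp] at e1 e0
      linarith
    have hB : s b = -(r * q) := by linarith
    have hle : HH k L ≤ W := by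
      intro c hc
      rw [hW]
      refine ⟨hc, ?_⟩
      obtain ⟨d, hd0, rfl⟩ := Ed_ev h c
      refine ⟨d, hd0, rfl, Ed_LC s hD' (x := 1 + |s a| + |s b|) (Ed_big le_rfl) fun r' hr' => ?_⟩
      have h1 : r' = r := by
        rw [hf] at hr'
        rcases mul_eq_zero.1 hr' with h2 | h2
        · linarith
        · nlinarith [sq_nonneg (2 * r' + p)]
      have h2 : r' < 1 + |s a| + |s b| := by
        by_contra hc'
        push Not at hc'
        have := Ed_big hc'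
        linarith
      refine mul_pos ?_ (by linarith)
      rw [h1]
      have h3 := Ed_pos h s hd0 hc
      obtain ⟨D, hDD⟩ : ∃ D : Fin 3 → ℝ, D = fun j => s (d j) := ⟨_, rfl⟩
      rw [← hDD] at h3 ⊢
      have h4 : Te_nf (s a) (s b) D = H24PD.E3 r D *
          ((D 0 - q * D 2) ^ 2 - r * (D 0 - q * D 2) * (D 1 - r * D 2) + q * (D 1 - r * D 2) ^ 2) := by
        rw [hA, hB]
        unfold Te_nf H24PD.E3
        ring
      have h5 : 0 ≤ (D 0 - q * D 2) ^ 2 - r * (D 0 - q * D 2) * (D 1 - r * D 2) + q * (D 1 - r * D 2) ^ 2 := by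
        rw [hp] at hpq
        nlinarith [sq_nonneg (2 * (D 0 - q * D 2) - r * (D 1 - r * D 2)),
          mul_nonneg (by linarith : 0 ≤ 4 * q - r ^ 2) (sq_nonneg (D 1 - r * D 2))]
      rw [h4] at h3
      by_contra hcc
      push Not at hcc
      exact absurd (mul_nonpos_of_nonpos_of_nonneg hcc h5) (not_le.2 h3)
    have h1 : W.relIndex (HH k L) = 1 := AddSubgroup.relIndex_eq_one.2 hle
    rw [h1]
    refine ⟨one_ne_zero, ?_⟩
    rcases hnr with h2 | h2 <;> omega
  · -- three real roots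
    have e0 := hf 0
    have e1 := hf 1
    have e2 := hf (-1)
    have hs : r₁ + r₂ + r₃ = 0 := by linarith
    have hB : s b = -(r₁ * r₂ * r₃) := by linarith
    have hA : s a = r₁ * r₂ + r₁ * r₃ + r₂ * r₃ := by linarith
    have z1 : r₁ ^ 3 + s a * r₁ + s b = 0 := by
      rw [hf]
      ring
    have z2 : r₂ ^ 3 + s a * r₂ + s b = 0 := by
      rw [hf]
      ring
    have z3 : r₃ ^ 3 + s a * r₃ + s b = 0 := by
      rw [hf]
      ring
    obtain ⟨t₁, ht₁, hr₁⟩ := emb_real h s z1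
    obtain ⟨t₂, ht₂, hr₂⟩ := emb_real h s z2
    have hnf : ∀ D : Fin 3 → ℝ, Te_nf (s a) (s b) D = H24PD.E3 r₁ D * H24PD.E3 r₂ D * H24PD.E3 r₃ D := by
      intro D
      have h3 : r₃ = -(r₁ + r₂) := by linarith
      rw [hA, hB, h3]
      unfold Te_nf H24PD.E3
      ring
    obtain ⟨φ, hφ⟩ : ∃ φ : SC L →+ ZMod 2, ∀ c, φ c = si t₁ c :=
      ⟨AddMonoidHom.mk' (si t₁) (H38T1.si_add t₁), fun _ => rfl⟩
    have hle : φ.ker ⊓ HH k L ≤ W := by
      intro c hc
      obtain ⟨hc1, hc2⟩ := AddSubgroup.mem_inf.1 hc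
      rw [hW]
      refine ⟨hc2, ?_⟩
      obtain ⟨d, hd0, rfl⟩ := Ed_ev h c
      refine ⟨d, hd0, rfl, ?_⟩
      rw [AddMonoidHom.mem_ker, hφ, H38T1.si_sc t₁ hd0, H38RT.sw] at hc1
      have h1 : 0 ≤ t₁ (ev θ d) := by
        by_contra hcc
        push Not at hcc
        rw [if_pos hcc] at hc1
        exact one_ne_zero hc1
      have h2 : 0 < t₁ (ev θ d) := lt_of_le_of_ne h1 (Ne.symm ((map_ne_zero t₁).2 hd0))
      rw [Ed_tev s t₁ ht₁ hr₁] at h2
      have h3 := Ed_pos h s hd0 hc2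
      rw [hnf] at h3
      have hroot : ∀ r : ℝ, r ^ 3 + s a * r + s b = 0 → r = r₁ ∨ r = r₂ ∨ r = r₃ := by
        intro r hr
        rw [hf] at hr
        rcases mul_eq_zero.1 hr with h4 | h4
        · rcases mul_eq_zero.1 h4 with h5 | h5
          · left; linarith
          · right; left; linarith
        · right; right; linarith
      rcases lt_trichotomy (H24PD.E3 r₂ fun j => s (d j)) 0 with h4 | h4 | h4
      · have h5 : H24PD.E3 r₃ (fun j => s (d j)) < 0 := by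
          by_contra hcc
          push Not at hcc
          have h6 := mul_nonpos_of_nonpos_of_nonneg (mul_neg_of_pos_of_neg h2 h4).le hcc
          linarith
        refine Ed_LC s hD' (x := (r₁ + r₂) / 2) ?_ fun r hr => ?_
        · rw [hf]
          have h6 : 0 < ((r₁ + r₂) / 2 - r₁) := by linarith
          have h7 : ((r₁ + r₂) / 2 - r₂) < 0 := by linarith
          have h8 : ((r₁ + r₂) / 2 - r₃) < 0 := by linarith
          exact mul_pos_of_neg_of_neg (mul_neg_of_pos_of_neg h6 h7) h8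
        · rcases hroot r hr with rfl | rfl | rfl
          · exact mul_pos h2 (by linarith)
          · exact mul_pos_of_neg_of_neg h4 (by linarith)
          · exact mul_pos_of_neg_of_neg h5 (by linarith)
      · rw [h4, mul_zero, zero_mul] at h3
        exact absurd h3 (lt_irrefl 0)
      · have h5 : 0 < H24PD.E3 r₃ (fun j => s (d j)) := by
          by_contra hcc
          push Not at hcc
          have h6 := mul_nonpos_of_nonneg_of_nonpos (mul_pos h2 h4).le hcc
          linarith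
        refine Ed_LC s hD' (x := 1 + |s a| + |s b|) (Ed_big le_rfl) fun r hr => ?_
        have h6 : r < 1 + |s a| + |s b| := by
          by_contra hc'
          push Not at hc'
          have := Ed_big hc'
          linarith
        refine mul_pos ?_ (by linarith)
        rcases hroot r hr with rfl | rfl | rfl
        · exact h2
        · exact h4
        · exact h5
    have hdvd : W.relIndex (HH k L) ∣ 2 := by
      have h1 : W.relIndex (HH k L) ∣ (φ.ker ⊓ HH k L).relIndex (HH k L) :=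
        AddSubgroup.relIndex_dvd_of_le_left _ hle
      rw [AddSubgroup.inf_relIndex_right] at h1
      have h2 : φ.ker.relIndex (HH k L) ∣ φ.ker.index := AddSubgroup.relIndex_dvd_index_of_normal _ _
      rw [AddSubgroup.index_ker] at h2
      have h3 : Nat.card φ.range ∣ Nat.card (ZMod 2) := AddSubgroup.card_addSubgroup_dvd_card _
      rw [Nat.card_zmod] at h3
      exact (h1.trans h2).trans h3
    have h3 : nr k L s = 3 := by
      rcases hnr with h1 | h1
      · exfalso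
        unfold nr at h1
        rw [Nat.card_eq_one_iff_unique] at h1
        have h2 := h1.1.elim ⟨t₁, ht₁⟩ ⟨t₂, ht₂⟩
        have h4 : t₁ = t₂ := congrArg Subtype.val h2
        rw [h4, hr₂] at hr₁
        linarith
      · exact h1
    rw [h3]
    refine ⟨fun h0 => ?_, ?_⟩
    · rw [h0] at hdvd
      omega
    · have := Nat.le_of_dvd two_pos hdvd
      omega

end H30ZO

end S_H30_ZO_Ed

section S_H30_ZO_Ga

set_option autoImplicit false
set_option linter.unusedSectionVars false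
open scoped Classical

open WithZero NumberField IsDedekindDomain H38RT
open H38T1 (SC sc scu rep eo la si Pri OddP tp unif)
open H76PP

namespace H30ZO

variable {k L : Type} [Field k] [NumberField k] [Field L] [NumberField L] [Algebra k L]

private theorem Ga_norm {S : Finset (HeightOneSpectrum (𝓞 k))} {u : Additive Lˣ}
    (hu : u ∈ H24TD.SUa L {w : HeightOneSpectrum (𝓞 L) | dn k w ∈ S}) :
    (Additive.ofMul (Units.map (Algebra.norm k : L →* k) (Additive.toMul u)) : Additive kˣ) ∈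
      H24TD.SUa k (S : Set (HeightOneSpectrum (𝓞 k))) := by
  intro v hv
  have _ : FiniteDimensional k L := Module.Finite.of_restrictScalars_finite ℚ k L
  have hne : ((Additive.toMul u : Lˣ) : L) ≠ 0 := Units.ne_zero _
  have h1 := ord_norm (K := k) v hne
  have h2 : ∑ᶠ w : {w : HeightOneSpectrum (𝓞 L) // dn k w = v},
      (w.1.asIdeal.inertiaDeg (𝓞 k) : ℤ) * ord (w.1.valuation L) ((Additive.toMul u : Lˣ) : L) =
      0 := by
    rw [← finsum_zero (α := {w : HeightOneSpectrum (𝓞 L) // dn k w = v}) (M := ℤ)]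
    refine finsum_congr fun w => ?_
    have h3 : w.1.valuation L ((Additive.toMul u : Lˣ) : L) = 1 := by
      refine hu w.1 fun h4 => hv ?_
      have h5 : dn k w.1 ∈ S := h4
      rw [w.2] at h5
      exact h5
    rw [ord, h3, log_one, neg_zero, mul_zero]
  rw [h2] at h1
  change v.valuation k (Algebra.norm k ((Additive.toMul u : Lˣ) : L)) = 1
  have h6 : Algebra.norm k ((Additive.toMul u : Lˣ) : L) ≠ 0 := Algebra.norm_ne_zero_iff.2 hne
  have h7 : v.valuation k (Algebra.norm k ((Additive.toMul u : Lˣ) : L)) ≠ 0 :=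
    (Valuation.ne_zero_iff _).2 h6
  rw [ord] at h1
  rw [← exp_log h7, ← exp_zero, exp_inj]
  omega

private theorem Ga_alg {S : Finset (HeightOneSpectrum (𝓞 k))} {u : Additive kˣ}
    (hu : u ∈ H24TD.SUa k (S : Set (HeightOneSpectrum (𝓞 k)))) :
    (Additive.ofMul (Units.map (algebraMap k L : k →* L) (Additive.toMul u)) : Additive Lˣ) ∈
      H24TD.SUa L {w : HeightOneSpectrum (𝓞 L) | dn k w ∈ S} := by
  intro w hw
  change w.valuation L (algebraMap k L ((Additive.toMul u : kˣ) : k)) = 1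
  exact val_one (hu (dn k w) fun h => hw h)

private theorem Ga_map {a b : k} {θ : L} (h : Cub k L a b θ)
    (S : Finset (HeightOneSpectrum (𝓞 k))) :
    (H24TD.US L {w : HeightOneSpectrum (𝓞 L) | dn k w ∈ S}).map
      (scm (Algebra.norm k : L →* k)) = H24TD.US k (S : Set (HeightOneSpectrum (𝓞 k))) := by
  apply le_antisymm
  · rintro _ ⟨_, ⟨u, hu, rfl⟩, rfl⟩
    exact ⟨_, Ga_norm hu, (scm_scu _ u).symm⟩
  · rintro _ ⟨u, hu, rfl⟩
    refine ⟨_, ⟨_, Ga_alg hu, rfl⟩, ?_⟩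
    have h1 : scm (Algebra.norm k : L →* k) (scu L (Additive.ofMul
        (Units.map (algebraMap k L : k →* L) (Additive.toMul u)))) =
        scu k (Additive.ofMul (Units.map (Algebra.norm k : L →* k)
          (Units.map (algebraMap k L : k →* L) (Additive.toMul u)))) := scm_scu _ _
    refine h1.trans ?_
    have h2 : (Additive.ofMul (Units.map (Algebra.norm k : L →* k)
        (Units.map (algebraMap k L : k →* L) (Additive.toMul u))) : Additive kˣ) = 2 • u + u := by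
      apply Additive.toMul.injective
      apply Units.ext
      change Algebra.norm k (algebraMap k L ((Additive.toMul u : kˣ) : k)) =
        (((Additive.toMul u) ^ 2 * Additive.toMul u : kˣ) : k)
      rw [Algebra.norm_algebraMap, h.finrank, Units.val_mul, Units.val_pow_eq_pow_val]
      ring
    rw [h2, map_add, map_nsmul, H38T1.SC.two_smul, zero_add]

private theorem Ga_fin (S : Finset (HeightOneSpectrum (𝓞 k))) :
    {w : HeightOneSpectrum (𝓞 L) | dn k w ∈ S}.Finite := by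
  have h1 : {w : HeightOneSpectrum (𝓞 L) | dn k w ∈ S} =
      ⋃ v ∈ S, {w : HeightOneSpectrum (𝓞 L) | dn k w = v} := by
    ext w
    rw [Set.mem_iUnion₂]
    constructor
    · intro hw
      exact ⟨dn k w, hw, rfl⟩
    · rintro ⟨v, hv, hw⟩
      have hw' : dn k w = v := hw
      change dn k w ∈ S
      rw [hw']
      exact hv
  rw [h1]
  exact S.finite_toSet.biUnion fun v _ => fin_above v

private theorem Ga_card (S : Finset (HeightOneSpectrum (𝓞 k))) :
    {w : HeightOneSpectrum (𝓞 L) | dn k w ∈ S}.ncard = ∑ v ∈ S, nb k L v := by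
  rw [Set.ncard_eq_toFinset_card _ (Ga_fin S),
    Finset.card_eq_sum_card_fiberwise (f := dn k) (t := S) (by
      intro w hw
      have h1 : w ∈ (Ga_fin (L := L) S).toFinset := hw
      rw [Set.Finite.mem_toFinset] at h1
      exact h1)]
  refine Finset.sum_congr rfl fun v hv => ?_
  rw [nb, ← Set.ncard_coe_finset]
  congr 1
  ext w
  rw [Finset.mem_coe, Finset.mem_filter, Set.Finite.mem_toFinset]
  constructor
  · intro h
    exact h.2
  · intro h
    have h' : dn k w = v := h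
    refine ⟨?_, h'⟩
    change dn k w ∈ S
    rw [h']
    exact hv

theorem card_X {a b : k} {θ : L} (h : Cub k L a b θ) (S : Finset (HeightOneSpectrum (𝓞 k))) :
    Nat.card ↥(H24TD.US L {w : HeightOneSpectrum (𝓞 L) | dn k w ∈ S} ⊓ HH k L) *
        2 ^ (S.card + (InfinitePlace.nrRealPlaces k + InfinitePlace.nrComplexPlaces k)) =
      2 ^ ((∑ v ∈ S, nb k L v) +
        (InfinitePlace.nrRealPlaces L + InfinitePlace.nrComplexPlaces L)) := by
  obtain ⟨A, hA⟩ : ∃ A, A = H24TD.US L {w : HeightOneSpectrum (𝓞 L) | dn k w ∈ S} := ⟨_, rfl⟩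
  have h1 : Nat.card A = 2 ^ ((∑ v ∈ S, nb k L v) +
      (InfinitePlace.nrRealPlaces L + InfinitePlace.nrComplexPlaces L)) := by
    rw [hA, H88T7.card_US7 (Ga_fin S), Ga_card]
  have h2 : Nat.card (H24TD.US k (S : Set (HeightOneSpectrum (𝓞 k)))) = 2 ^ (S.card +
      (InfinitePlace.nrRealPlaces k + InfinitePlace.nrComplexPlaces k)) := by
    rw [H88T7.card_US7 S.finite_toSet, Set.ncard_coe_finset]
  have h3 : (HH k L).relIndex A = Nat.card (H24TD.US k (S : Set (HeightOneSpectrum (𝓞 k)))) := by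
    rw [HH, AddSubgroup.relIndex_ker, hA, Ga_map h]
  have h4 : (⊥ : AddSubgroup (SC L)).relIndex (A ⊓ HH k L) * (A ⊓ HH k L).relIndex A =
      (⊥ : AddSubgroup (SC L)).relIndex A :=
    AddSubgroup.relIndex_mul_relIndex _ _ _ bot_le inf_le_left
  rw [AddSubgroup.relIndex_bot_left, AddSubgroup.relIndex_bot_left, AddSubgroup.inf_relIndex_left,
    h3, h2, h1] at h4
  rw [← hA]
  exact h4

end H30ZO

end S_H30_ZO_Ga

section S_H30_ZO_Gb

set_option autoImplicit false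
set_option linter.unusedSectionVars false
open scoped Classical

open WithZero NumberField IsDedekindDomain H38RT
open H38T1 (SC sc scu rep eo la si Pri OddP tp unif)
open H76PP

namespace H30ZO

variable {k L : Type} [Field k] [NumberField k] [Field L] [NumberField L] [Algebra k L]

/-- Real embeddings and self-conjugate complex embeddings. -/
noncomputable def Gb_E (K : Type) [Field K] [NumberField K] :
    (K →+* ℝ) ≃ {φ : K →+* ℂ // ComplexEmbedding.IsReal φ} where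
  toFun w := ⟨Complex.ofRealHom.comp w, by
    rw [ComplexEmbedding.isReal_iff]
    ext x
    simp⟩
  invFun φ := φ.2.embedding
  left_inv w := by
    ext x
    rfl
  right_inv φ := by
    apply Subtype.ext
    ext x
    exact φ.2.coe_embedding_apply x

theorem Gb_fin (K : Type) [Field K] [NumberField K] : Finite (K →+* ℝ) :=
  Finite.of_equiv _ (Gb_E K).symm

theorem Gb_card (K : Type) [Field K] [NumberField K] :
    Nat.card (K →+* ℝ) = InfinitePlace.nrRealPlaces K := by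
  rw [Nat.card_congr (Gb_E K), Nat.card_eq_fintype_card]
  exact InfinitePlace.card_real_embeddings K

theorem places_count {a b : k} {θ : L} (h : Cub k L a b θ) (hD : 4 * a ^ 3 + 27 * b ^ 2 ≠ 0) :
    InfinitePlace.nrRealPlaces L + InfinitePlace.nrComplexPlaces L =
      InfinitePlace.nrRealPlaces k + InfinitePlace.nrComplexPlaces k + Module.finrank ℚ k +
        Nat.card {s : k →+* ℝ // nr k L s = 3} := by
  haveI := Gb_fin k
  haveI := Gb_fin L
  haveI : Fintype (k →+* ℝ) := Fintype.ofFinite _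
  have h1 : Nat.card (L →+* ℝ) = ∑ s : k →+* ℝ, nr k L s := by
    rw [← Nat.card_congr (Equiv.sigmaFiberEquiv (fun t : L →+* ℝ => t.comp (algebraMap k L))),
      Nat.card_sigma]
    rfl
  have h2 : ∑ s : k →+* ℝ, nr k L s =
      Nat.card (k →+* ℝ) + 2 * Nat.card {s : k →+* ℝ // nr k L s = 3} := by
    have h3 : ∀ s : k →+* ℝ, nr k L s = 1 + if nr k L s = 3 then 2 else 0 := by
      intro s
      rcases nr_cases h hD s with h4 | h4
      · rw [h4]
        simp
      · rw [h4]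
        simp
    rw [Finset.sum_congr rfl (fun s _ => h3 s), Finset.sum_add_distrib, ← Finset.sum_filter,
      Finset.sum_const, Finset.sum_const, smul_eq_mul, smul_eq_mul, mul_one, Finset.card_univ,
      Nat.card_eq_fintype_card, Nat.card_eq_fintype_card, Fintype.card_subtype, mul_comm 2]
  have h5 := InfinitePlace.card_add_two_mul_card_eq_rank k
  have h6 := InfinitePlace.card_add_two_mul_card_eq_rank L
  have h7 : Module.finrank ℚ L = Module.finrank ℚ k * 3 := by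
    rw [← h.finrank]
    exact (Module.finrank_mul_finrank ℚ k L).symm
  rw [h2, Gb_card, Gb_card] at h1
  omega

end H30ZO

end S_H30_ZO_Gb
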