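import Mathlib
import Pool.Agent.H10.Sha
import Pool.Agent.H76.CQ.Qa
import Pool.Agent.H76.CQ.Qe
import Pool.Agent.H76.PN.C2
import Pool.Agent.H76.PN.D1
import Pool.Agent.H76.PN.N2
import Pool.Agent.H76.PN.N5
import Pool.Agent.H76.PN.N6
import Pool.Agent.H76.PN.P2
import Pool.Agent.H76.PN.Z2

/-! This file joins several modules to save build time (Y4). -/

set_option autoImplicit false

section S_H30_ZO_Sf

set_option autoImplicit false
set_option linter.unusedSectionVars false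

open NumberField IsDedekindDomain H76PP H36PP H36MT

namespace H30ZO

section FamIn

variable {K : Type} [Field K] [NumberField K]

theorem famS_of_in {S : Finset (HeightOneSpectrum (𝓞 K))}
    (hSv : ∀ v : HeightOneSpectrum (𝓞 K), (2 : 𝓞 K) ∈ v.asIdeal → v ∈ S) {e : ℕ}
    {q₀ : HeightOneSpectrum (𝓞 K)} (h6 : (6 : 𝓞 K) ∉ q₀.asIdeal)
    {T : Finset (HeightOneSpectrum (𝓞 K))} (hT : ∀ v ∈ T, v ≠ q₀ ∧ (6 : 𝓞 K) ∉ v.asIdeal)
    {m : Ideal (𝓞 K)} {A₀ B₀ : 𝓞 K}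
    (hmS : ∀ v ∈ S, m ≤ v.asIdeal ^ e ∧ dsc A₀ B₀ ∉ v.asIdeal ^ e)
    (hm : ∀ v : HeightOneSpectrum (𝓞 K), v ∉ S → m ≤ v.asIdeal → dsc A₀ B₀ ∉ v.asIdeal)
    {M : ℕ} {X : ℝ} {p : 𝓞 K × 𝓞 K} (hp : p ∈ Bx K X) (hq : p ∈ Pq q₀)
    (hq' : p.1 ∉ q₀.asIdeal) (hPt : ∀ v ∈ T, p ∈ Pt v)
    (hA : p.1 - A₀ ∈ m) (hB : p.2 - B₀ ∈ m)
    (hP6 : ∀ v : HeightOneSpectrum (𝓞 K), (6 : 𝓞 K) ∈ v.asIdeal → ¬ m ≤ v.asIdeal → p ∈ P6 v)
    (ho : ∀ v : HeightOneSpectrum (𝓞 K), (6 : 𝓞 K) ∉ v.asIdeal → v ≠ q₀ → v ∉ T →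
      ¬ m ≤ v.asIdeal → Nv v ≤ M → p ∈ Po v)
    (ht : p ∉ Tail K M X) : FamS S e q₀ T p.1 p.2 := by
  have hone : ∀ v : HeightOneSpectrum (𝓞 K), (1 : 𝓞 K) ∉ v.asIdeal := fun v h =>
    v.isPrime.ne_top ((Ideal.eq_top_iff_one _).2 h)
  have m1 : ∀ (v : HeightOneSpectrum (𝓞 K)) (x : 𝓞 K), x - 1 ∈ v.asIdeal → x ∉ v.asIdeal := by
    intro v x h1 h2
    apply hone v
    have h3 := sub_mem h2 h1
    rwa [sub_sub_cancel] at h3
  have m4 : ∀ (I : Ideal (𝓞 K)) (x y : 𝓞 K), x - y ∈ I → y ∉ I → x ∉ I := by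
    intro I x y h1 h2 h3
    apply h2
    have h4 := sub_mem h3 h1
    rwa [sub_sub_cancel] at h4
  have hdm : dsc p.1 p.2 - dsc A₀ B₀ ∈ m := by
    have e : dsc p.1 p.2 - dsc A₀ B₀ =
        (p.1 - A₀) * (4 * (p.1 ^ 2 + p.1 * A₀ + A₀ ^ 2)) + (p.2 - B₀) * (27 * (p.2 + B₀)) := by
      unfold dsc
      ring
    rw [e]
    exact add_mem (m.mul_mem_right _ hA) (m.mul_mem_right _ hB)
  have h3of : ∀ v : HeightOneSpectrum (𝓞 K), v ∉ S → (6 : 𝓞 K) ∈ v.asIdeal →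
      (3 : 𝓞 K) ∈ v.asIdeal := by
    intro v hvS hv6
    have h7 : (2 : 𝓞 K) * 3 ∈ v.asIdeal := by
      rw [show (2 : 𝓞 K) * 3 = 6 by norm_num]
      exact hv6
    exact (v.isPrime.mem_or_mem h7).resolve_left fun h => hvS (hSv v h)
  have hunit : ∀ v : HeightOneSpectrum (𝓞 K), v ∉ S → (6 : 𝓞 K) ∈ v.asIdeal →
      dsc p.1 p.2 ∉ v.asIdeal := by
    intro v hvS hv6
    by_cases hmv : m ≤ v.asIdeal
    · exact m4 _ _ _ (hmv hdm) (hm v hvS hmv)
    · obtain ⟨g1, g2⟩ := hP6 v hv6 hmv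
      have h2 : (2 : 𝓞 K) ∉ v.asIdeal := fun h => hvS (hSv v h)
      have h3 := h3of v hvS hv6
      intro h
      have h8 : p.1 ^ 3 * 4 ∈ v.asIdeal := by
        have e : p.1 ^ 3 * 4 = dsc p.1 p.2 - 3 * (9 * p.2 ^ 2) := by
          unfold dsc
          ring
        rw [e]
        exact sub_mem h (v.asIdeal.mul_mem_right _ h3)
      rcases v.isPrime.mem_or_mem h8 with h9 | h9
      · exact m1 v _ g1 (v.isPrime.mem_of_pow_mem 3 h9)
      · have h10 : (2 : 𝓞 K) ^ 2 ∈ v.asIdeal := by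
          rw [show (2 : 𝓞 K) ^ 2 = 4 by norm_num]
          exact h9
        exact h2 (v.isPrime.mem_of_pow_mem 2 h10)
  have hne : p.1 ≠ 0 := by
    intro h0
    apply hq'
    rw [h0]
    exact q₀.asIdeal.zero_mem
  have hd0 : dsc p.1 p.2 ≠ 0 := by
    intro h0
    have h1 := dsc_q h6 hq
    rw [h0] at h1
    exact h1 q₀.asIdeal.zero_mem
  refine ⟨hq, hPt, fun v hv => ?_, fun v hv => ?_⟩
  · by_cases hv6 : (6 : 𝓞 K) ∈ v.asIdeal
    · exact fun h => hunit v hv hv6 (Ideal.pow_le_self two_ne_zero h)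
    by_cases hvq : v = q₀
    · rw [hvq]
      exact fun h => dsc_q h6 hq (Ideal.pow_le_self two_ne_zero h)
    by_cases hvT : v ∈ T
    · exact fun h => dsc_t hv6 (hPt v hvT) (Ideal.pow_le_self two_ne_zero h)
    by_cases hmv : m ≤ v.asIdeal
    · exact fun h => m4 _ _ _ (hmv hdm) (hm v hv hmv) (Ideal.pow_le_self two_ne_zero h)
    by_cases hvM : Nv v ≤ M
    · exact ho v hv6 hvq hvT hmv hvM
    · exact fun h => ht ⟨hp, hne, hd0, v, hv6, not_le.1 hvM, h⟩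
  · obtain ⟨h1, h2⟩ := hmS v hv
    exact m4 _ _ _ (h1 hdm) h2

end FamIn

variable (K : Type) [Field K] [NumberField K]

private theorem Fl_cop {v w : HeightOneSpectrum (𝓞 K)} (h : v ≠ w) (a b : ℕ) :
    IsCoprime (v.asIdeal ^ a) (w.asIdeal ^ b) := by
  apply IsCoprime.pow
  rw [Ideal.isCoprime_iff_sup_eq]
  exact Ideal.IsMaximal.coprime_of_ne v.isMaximal w.isMaximal fun h' => h (HeightOneSpectrum.ext h')

private theorem Fl_cop1 {v w : HeightOneSpectrum (𝓞 K)} (h : v ≠ w) :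
    IsCoprime v.asIdeal w.asIdeal := by
  have h1 := Fl_cop K h 1 1
  rwa [pow_one, pow_one] at h1

private theorem Fl_cop2 {v w : HeightOneSpectrum (𝓞 K)} (h : v ≠ w) :
    IsCoprime v.asIdeal (w.asIdeal ^ 2) := by
  have h1 := Fl_cop K h 1 2
  rwa [pow_one] at h1

private theorem Fl_copm {m : Ideal (𝓞 K)} {v : HeightOneSpectrum (𝓞 K)} (h : ¬ m ≤ v.asIdeal) :
    IsCoprime v.asIdeal m := by
  rw [Ideal.isCoprime_iff_sup_eq]
  by_contra h1
  have h2 := v.isMaximal.eq_of_le h1 le_sup_left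
  apply h
  rw [h2]
  exact le_sup_right

private theorem Fl_copm2 {m : Ideal (𝓞 K)} {v : HeightOneSpectrum (𝓞 K)} (h : ¬ m ≤ v.asIdeal) :
    IsCoprime (v.asIdeal ^ 2) m := (Fl_copm K h).pow_left

private theorem Fl_pos (v : HeightOneSpectrum (𝓞 K)) : (0 : ℝ) < (Nv v : ℝ) := by
  have h := Sm_pos v
  exact_mod_cast Nat.pos_of_ne_zero h

theorem famS_lower_in {S : Finset (HeightOneSpectrum (𝓞 K))}
    (hSv : ∀ v : HeightOneSpectrum (𝓞 K), (2 : 𝓞 K) ∈ v.asIdeal → v ∈ S) {e : ℕ}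
    (q₀ : HeightOneSpectrum (𝓞 K)) (h6 : (6 : 𝓞 K) ∉ q₀.asIdeal)
    {m : Ideal (𝓞 K)} (hm0 : m ≠ ⊥) (hmq : ¬ m ≤ q₀.asIdeal) {A₀ B₀ : 𝓞 K}
    (hmS : ∀ v ∈ S, m ≤ v.asIdeal ^ e ∧ dsc A₀ B₀ ∉ v.asIdeal ^ e)
    (hm : ∀ v : HeightOneSpectrum (𝓞 K), v ∉ S → m ≤ v.asIdeal → dsc A₀ B₀ ∉ v.asIdeal) :
    ∃ c : ℝ, 0 < c ∧ ∀ T : Finset (HeightOneSpectrum (𝓞 K)),
      (∀ v ∈ T, v ≠ q₀ ∧ (6 : 𝓞 K) ∉ v.asIdeal ∧ ¬ m ≤ v.asIdeal) → ∃ X₀ : ℝ, ∀ X : ℝ, X₀ ≤ X →
        c * (∏ v ∈ T, (1 / 2 * (1 - 1 / (Nv v : ℝ)))) * X ^ (5 * Module.finrank ℚ K) ≤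
          ({p : 𝓞 K × 𝓞 K | p ∈ Bx K X ∧ FamS S e q₀ T p.1 p.2 ∧ p.1 - A₀ ∈ m ∧ p.2 - B₀ ∈ m ∧
            ∀ s : K →+* ℝ, 0 < s (p.1 : K)}.ncard : ℝ) := by
  classical
  obtain ⟨C, hC1, hU⟩ := coset_upper K
  obtain ⟨c₁, hc₁, hL⟩ := coset_lower K
  obtain ⟨c₀, hc₀, hP⟩ := prod_lower K
  obtain ⟨c₂, hc₂⟩ : ∃ c₂ : ℝ, c₂ = c₁ ^ 2 / 4 ^ Module.finrank ℚ K := ⟨_, rfl⟩
  have hc₂p : 0 < c₂ := by
    rw [hc₂]
    positivity
  have hF6fin : {v : HeightOneSpectrum (𝓞 K) | (6 : 𝓞 K) ∈ v.asIdeal ∧ ¬ m ≤ v.asIdeal}.Finite :=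
    (six_fin K).subset fun v hv => hv.1
  obtain ⟨F6, hF6⟩ : ∃ F6 : Finset (HeightOneSpectrum (𝓞 K)), ∀ v, v ∈ F6 ↔
      ((6 : 𝓞 K) ∈ v.asIdeal ∧ ¬ m ≤ v.asIdeal) :=
    ⟨hF6fin.toFinset, fun v => hF6fin.mem_toFinset⟩
  obtain ⟨d1, hd1⟩ : ∃ d1 : ℝ, d1 = 1 / (Nv q₀ : ℝ) ^ 2 := ⟨_, rfl⟩
  obtain ⟨d3, hd3⟩ : ∃ d3 : ℝ, d3 = ∏ v ∈ F6, (1 / (Nv v : ℝ) ^ 2) := ⟨_, rfl⟩
  obtain ⟨d5, hd5⟩ : ∃ d5 : ℝ, d5 = 1 / (Ideal.absNorm m : ℝ) ^ 2 := ⟨_, rfl⟩
  have hd1p : 0 < d1 := by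
    rw [hd1]
    exact div_pos one_pos (pow_pos (Fl_pos K q₀) 2)
  have hd3p : 0 < d3 := by
    rw [hd3]
    exact Finset.prod_pos fun v _ => div_pos one_pos (pow_pos (Fl_pos K v) 2)
  have hd5p : 0 < d5 := by
    rw [hd5]
    have h1 : Ideal.absNorm m ≠ 0 := fun h => hm0 (Ideal.absNorm_eq_zero_iff.1 h)
    have h2 : (0 : ℝ) < (Ideal.absNorm m : ℝ) := by exact_mod_cast Nat.pos_of_ne_zero h1
    positivity
  refine ⟨c₂ * (d1 * d3 * c₀ * d5) / 2, by positivity, fun T hT => ?_⟩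
  have hT' : ∀ v ∈ T, v ≠ q₀ ∧ (6 : 𝓞 K) ∉ v.asIdeal := fun v hv => ⟨(hT v hv).1, (hT v hv).2.1⟩
  obtain ⟨d2, hd2⟩ : ∃ d2 : ℝ, d2 = ∏ v ∈ T, (1 / 2 * (1 - 1 / (Nv v : ℝ))) := ⟨_, rfl⟩
  rw [← hd2]
  have hT5 : ∀ v ∈ T, 0 < 1 / 2 * (1 - 1 / (Nv v : ℝ)) := by
    intro v hv
    have h1 : (5 : ℝ) ≤ (Nv v : ℝ) := by exact_mod_cast five_le K (hT' v hv).2
    have h2 : 1 / (Nv v : ℝ) < 1 := by
      rw [div_lt_one (by linarith)]
      linarith
    linarith
  have hd2p : 0 < d2 := by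
    rw [hd2]
    exact Finset.prod_pos hT5
  obtain ⟨c, hc⟩ : ∃ c, c = c₂ * (d1 * d3 * c₀ * d5) / 2 := ⟨_, rfl⟩
  rw [← hc]
  have hcp : 0 < c := by
    rw [hc]
    positivity
  obtain ⟨M, X₁, hM⟩ := tail_bound K (zero_le_one.trans hC1) hU (mul_pos hcp hd2p)
  have hfin : {v : HeightOneSpectrum (𝓞 K) | (6 : 𝓞 K) ∉ v.asIdeal ∧ v ≠ q₀ ∧ v ∉ T ∧
      ¬ m ≤ v.asIdeal ∧ Nv v ≤ M}.Finite := by
    refine (nv_finite K (M : ℝ)).subset ?_
    rintro v ⟨-, -, -, -, h⟩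
    show ((Nv v : ℕ) : ℝ) ≤ (M : ℝ)
    exact_mod_cast h
  obtain ⟨FM, hFM⟩ : ∃ FM : Finset (HeightOneSpectrum (𝓞 K)), ∀ v, v ∈ FM ↔
      ((6 : 𝓞 K) ∉ v.asIdeal ∧ v ≠ q₀ ∧ v ∉ T ∧ ¬ m ≤ v.asIdeal ∧ Nv v ≤ M) :=
    ⟨hfin.toFinset, fun v => hfin.mem_toFinset⟩
  obtain ⟨d4, hd4⟩ : ∃ d4 : ℝ, d4 = ∏ v ∈ FM, (1 - 3 / (Nv v : ℝ) ^ 2) := ⟨_, rfl⟩
  have hM5 : ∀ v ∈ FM, 0 ≤ 1 - 3 / (Nv v : ℝ) ^ 2 := by
    intro v hv
    have h1 : (5 : ℝ) ≤ (Nv v : ℝ) := by exact_mod_cast five_le K ((hFM v).1 hv).1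
    have h2 : (25 : ℝ) ≤ (Nv v : ℝ) ^ 2 := by nlinarith
    have h3 : 3 / (Nv v : ℝ) ^ 2 ≤ 1 := by
      rw [div_le_one (by linarith)]
      linarith
    linarith
  have hd4c : c₀ ≤ d4 := by
    rw [hd4]
    exact hP FM fun v hv => ((hFM v).1 hv).1
  have D1 : Dens q₀.asIdeal {p : 𝓞 K × 𝓞 K | p ∈ Pq q₀ ∧ p.1 ∉ q₀.asIdeal} d1 := by
    rw [hd1]
    obtain ⟨b, hb⟩ := H30PN.Rm_noroot q₀
    refine Dv_one q₀.ne_bot ?_ ⟨(-1, b), ?_, ?_⟩
    · rintro p p' hpp ⟨h1, h2⟩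
      refine ⟨(Dv_le q₀.ne_bot (Dv_Pq q₀)).1 p p' hpp h1, fun h3 => h2 ?_⟩
      have h4 := (Dn_rs q₀.asIdeal p p').1 hpp
      have h5 := add_mem h4.1 h3
      rwa [sub_add_cancel] at h5
    · intro t ht
      apply hb t
      have e : t ^ 3 - t + b = t ^ 3 + (-1, b).1 * t + (-1, b).2 := by ring
      rw [e]
      exact ht
    · intro h
      apply q₀.isPrime.ne_top
      rw [Ideal.eq_top_iff_one]
      exact (neg_mem_iff).1 h
  have D2 := dens_prod T (fun v => v.asIdeal) Pt (fun v => 1 / 2 * (1 - 1 / (Nv v : ℝ)))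
    (fun v _ => v.ne_bot) (fun v _ w _ h => Fl_cop1 K h) (fun v hv => (hT5 v hv).le)
    (fun v hv => dens_t (hT' v hv).2)
  rw [← hd2] at D2
  have D3 := dens_prod F6 (fun v => v.asIdeal) P6 (fun v => 1 / (Nv v : ℝ) ^ 2)
    (fun v _ => v.ne_bot) (fun v _ w _ h => Fl_cop1 K h)
    (fun v _ => (div_pos one_pos (pow_pos (Fl_pos K v) 2)).le) (fun v _ => dens_6 v)
  rw [← hd3] at D3
  have D4 := dens_prod FM (fun v => v.asIdeal ^ 2) Po (fun v => 1 - 3 / (Nv v : ℝ) ^ 2)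
    (fun v _ => pow_ne_zero 2 v.ne_bot) (fun v _ w _ h => Fl_cop K h 2 2) hM5
    (fun v hv => dens_o ((hFM v).1 hv).1)
  rw [← hd4] at D4
  have D5 : Dens m {p : 𝓞 K × 𝓞 K | p.1 - A₀ ∈ m ∧ p.2 - B₀ ∈ m} d5 := by
    rw [hd5]
    refine Dv_one hm0 ?_ ⟨(A₀, B₀), ?_⟩
    · rintro p p' hpp ⟨h1, h2⟩
      have h3 := (Dn_rs m p p').1 hpp
      constructor
      · have e := sub_mem h1 h3.1
        rwa [sub_sub_sub_cancel_left] at e
      · have e := sub_mem h2 h3.2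
        rwa [sub_sub_sub_cancel_left] at e
    · constructor
      · show A₀ - A₀ ∈ m
        rw [sub_self]
        exact m.zero_mem
      · show B₀ - B₀ ∈ m
        rw [sub_self]
        exact m.zero_mem
  have b2 : (∏ v ∈ T, v.asIdeal) ≠ (⊥ : Ideal (𝓞 K)) :=
    Finset.prod_ne_zero_iff.2 fun v _ => v.ne_bot
  have b3 : (∏ v ∈ F6, v.asIdeal) ≠ (⊥ : Ideal (𝓞 K)) :=
    Finset.prod_ne_zero_iff.2 fun v _ => v.ne_bot
  have b4 : (∏ v ∈ FM, v.asIdeal ^ 2) ≠ (⊥ : Ideal (𝓞 K)) :=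
    Finset.prod_ne_zero_iff.2 fun v _ => pow_ne_zero 2 v.ne_bot
  have n6 : ∀ v ∈ F6, v ≠ q₀ := by
    rintro v hv rfl
    exact h6 ((hF6 _).1 hv).1
  have n7 : ∀ v ∈ F6, ∀ t ∈ T, t ≠ v := by
    rintro v hv t ht rfl
    exact (hT' _ ht).2 ((hF6 _).1 hv).1
  have n8 : ∀ v ∈ FM, ∀ t ∈ T, t ≠ v := by
    rintro v hv t ht rfl
    exact ((hFM _).1 hv).2.2.1 ht
  have n9 : ∀ v ∈ FM, ∀ t ∈ F6, t ≠ v := by
    rintro v hv t ht rfl
    exact ((hFM _).1 hv).1 ((hF6 _).1 ht).1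
  have D12 := dens_mul q₀.ne_bot b2 (IsCoprime.prod_right fun v hv =>
    Fl_cop1 K (hT' v hv).1.symm) hd1p.le hd2p.le D1 D2
  have b12 : q₀.asIdeal * (∏ v ∈ T, v.asIdeal) ≠ (⊥ : Ideal (𝓞 K)) := mul_ne_zero q₀.ne_bot b2
  have D123 := dens_mul b12 b3 (IsCoprime.prod_right fun v hv => IsCoprime.mul_left
    (Fl_cop1 K (n6 v hv).symm) (IsCoprime.prod_left fun t ht => Fl_cop1 K (n7 v hv t ht)))
    (mul_pos hd1p hd2p).le hd3p.le D12 D3
  have b123 : q₀.asIdeal * (∏ v ∈ T, v.asIdeal) * (∏ v ∈ F6, v.asIdeal) ≠ (⊥ : Ideal (𝓞 K)) :=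
    mul_ne_zero b12 b3
  have D1234 := dens_mul b123 b4 (IsCoprime.prod_right fun v hv => IsCoprime.mul_left (IsCoprime.mul_left
    (Fl_cop2 K ((hFM v).1 hv).2.1.symm)
    (IsCoprime.prod_left fun t ht => Fl_cop2 K (n8 v hv t ht)))
    (IsCoprime.prod_left fun t ht => Fl_cop2 K (n9 v hv t ht)))
    (mul_pos (mul_pos hd1p hd2p) hd3p).le (hc₀.le.trans hd4c) D123 D4
  have b1234 : q₀.asIdeal * (∏ v ∈ T, v.asIdeal) * (∏ v ∈ F6, v.asIdeal) *
      (∏ v ∈ FM, v.asIdeal ^ 2) ≠ (⊥ : Ideal (𝓞 K)) := mul_ne_zero b123 b4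
  have D := dens_mul b1234 hm0 (IsCoprime.mul_left (IsCoprime.mul_left (IsCoprime.mul_left
    (Fl_copm K hmq) (IsCoprime.prod_left fun t ht => Fl_copm K (hT t ht).2.2))
    (IsCoprime.prod_left fun t ht => Fl_copm K ((hF6 _).1 ht).2))
    (IsCoprime.prod_left fun t ht => Fl_copm2 K ((hFM _).1 ht).2.2.2.1))
    (mul_nonneg (mul_pos (mul_pos hd1p hd2p) hd3p).le (hc₀.le.trans hd4c)) hd5p.le D1234 D5
  obtain ⟨X₂, hX₂⟩ := dens_lower_pos hc₁.le hL (Bx_finite K) (mul_ne_zero b1234 hm0) D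
  rw [← hc₂] at hX₂
  refine ⟨max (max X₁ X₂) 0, fun X hX => ?_⟩
  have hX1 : X₁ ≤ X := ((le_max_left _ _).trans (le_max_left _ _)).trans hX
  have hX2 : X₂ ≤ X := ((le_max_right _ _).trans (le_max_left _ _)).trans hX
  have hX0 : 0 ≤ X := (le_max_right _ _).trans hX
  have e1 := hX₂ X hX2
  have e2 := hM X hX1
  obtain ⟨S1, hS1⟩ : ∃ S1 : Set (𝓞 K × 𝓞 K), S1 = {p : 𝓞 K × 𝓞 K | p ∈ Bx K X ∧
      FamS S e q₀ T p.1 p.2 ∧ p.1 - A₀ ∈ m ∧ p.2 - B₀ ∈ m ∧ ∀ s : K →+* ℝ, 0 < s (p.1 : K)} := ⟨_, rfl⟩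
  obtain ⟨S2, hS2⟩ : ∃ S2 : Set (𝓞 K × 𝓞 K), S2 = {p : 𝓞 K × 𝓞 K | (p ∈ Bx K X ∧
      ∀ s : K →+* ℝ, 0 < s (p.1 : K)) ∧ p ∈ {p : 𝓞 K × 𝓞 K | p ∈ Pq q₀ ∧ p.1 ∉ q₀.asIdeal} ∩
      {p | ∀ v ∈ T, p ∈ Pt v} ∩
      {p | ∀ v ∈ F6, p ∈ P6 v} ∩ {p | ∀ v ∈ FM, p ∈ Po v} ∩
      {p : 𝓞 K × 𝓞 K | p.1 - A₀ ∈ m ∧ p.2 - B₀ ∈ m}} := ⟨_, rfl⟩
  rw [← hS1]
  rw [← hS2] at e1
  have hS : S1.Finite := by
    rw [hS1]
    exact (Bx_finite K X).subset fun p hp => hp.1
  have hTl : (Tail K M X).Finite := (Bx_finite K X).subset fun p hp => hp.1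
  have hsub : S2 ⊆ S1 ∪ Tail K M X := by
    rw [hS1, hS2]
    rintro p ⟨⟨hp, hpos⟩, ⟨⟨⟨⟨hp1, hp1'⟩, hp2⟩, hp3⟩, hp4⟩, hp5, hp6⟩
    by_cases ht : p ∈ Tail K M X
    · exact Or.inr ht
    · exact Or.inl ⟨hp, famS_of_in hSv h6 hT' hmS hm hp hp1 hp1' hp2 hp5 hp6
        (fun v hv hv' => hp3 v ((hF6 v).2 ⟨hv, hv'⟩))
        (fun v a1 a2 a3 a4 a5 => hp4 v ((hFM v).2 ⟨a1, a2, a3, a4, a5⟩)) ht, hp5, hp6, hpos⟩
  have e3 := (Set.ncard_le_ncard hsub (hS.union hTl)).trans (Set.ncard_union_le _ _)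
  have e4 : (S2.ncard : ℝ) ≤ (S1.ncard : ℝ) + ((Tail K M X).ncard : ℝ) := by
    exact_mod_cast e3
  obtain ⟨Z, hZ⟩ : ∃ Z, Z = X ^ (5 * Module.finrank ℚ K) := ⟨_, rfl⟩
  have hZ0 : 0 ≤ Z := by
    rw [hZ]
    exact pow_nonneg hX0 _
  rw [← hZ] at e1 e2 ⊢
  have e5 : c₂ * (d1 * d2 * d3 * c₀ * d5) * Z ≤ c₂ * (d1 * d2 * d3 * d4 * d5) * Z := by
    refine mul_le_mul_of_nonneg_right (mul_le_mul_of_nonneg_left ?_ (by positivity)) hZ0
    exact mul_le_mul_of_nonneg_right (mul_le_mul_of_nonneg_left hd4c (by positivity)) hd5p.le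
  have e6 : c₂ * (d1 * d2 * d3 * c₀ * d5) * Z = 2 * (c * d2 * Z) := by
    rw [hc]
    ring
  linarith

end H30ZO

end S_H30_ZO_Sf

section S_H30_ZO_Ms

set_option autoImplicit false
set_option linter.unusedSectionVars false
open scoped Classical

open WithZero NumberField IsDedekindDomain H38RT H76PP H36MT
open H30CY hiding main_inS main_B2
open H38T1 (SC sc scu rep eo la si Pri OddP tp unif)

namespace H30ZO

variable {K : Type} [Field K] [NumberField K]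

/-- The auxiliary primes inside a given infinite set and the number of pairs in a residue class with
totally positive `A` which are not bad (modification of `H30PN.main_in`). -/
theorem main_inS3 (H : Blocks K) {S : Finset (HeightOneSpectrum (𝓞 K))}
    (hSv : ∀ v : HeightOneSpectrum (𝓞 K), (2 : 𝓞 K) ∈ v.asIdeal → v ∈ S) {e : ℕ} (he : 1 ≤ e)
    {Z : Set (HeightOneSpectrum (𝓞 K))} (hZ : Z.Infinite)
    {m : Ideal (𝓞 K)} (hm0 : m ≠ ⊥) (hmZ : ∀ v ∈ Z, ¬ m ≤ v.asIdeal ∧ (6 : 𝓞 K) ∉ v.asIdeal)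
    {A₀ B₀ : 𝓞 K} (hmS : ∀ v ∈ S, m ≤ v.asIdeal ^ e ∧ dsc A₀ B₀ ∉ v.asIdeal ^ e)
    (hm : ∀ v : HeightOneSpectrum (𝓞 K), v ∉ S → m ≤ v.asIdeal → dsc A₀ B₀ ∉ v.asIdeal) :
    ∃ (q₀ : HeightOneSpectrum (𝓞 K))
    (T : Finset (HeightOneSpectrum (𝓞 K))) (c X₀ : ℝ), q₀ ∈ Z ∧
      (∀ v ∈ T, v ∈ Z ∧ v ≠ q₀) ∧ 0 < c ∧ ∀ X : ℝ, X₀ ≤ X →
        c * X ^ (5 * Module.finrank ℚ K) ≤
          ({p : 𝓞 K × 𝓞 K | p ∈ Bx K X ∧ FamS S e q₀ T p.1 p.2 ∧ (p.1 - A₀ ∈ m ∧ p.2 - B₀ ∈ m ∧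
            ∀ s : K →+* ℝ, 0 < s (p.1 : K)) ∧ ¬ BadS S T p.1 p.2}.ncard : ℝ) := by
  obtain ⟨q₀, hq₀⟩ := hZ.nonempty
  have h6 := (hmZ q₀ hq₀).2
  have hinf : (Z \ {q₀}).Infinite := hZ.sdiff (Set.finite_singleton q₀)
  obtain ⟨C₄, N₀, hC, hbad⟩ := bad_countS K (H36PP.Bx_finite K) S e he
  obtain ⟨c₃, hc₃, hfam⟩ := famS_lower_in K hSv (e := e) q₀ h6 hm0 (hmZ q₀ hq₀).1 hmS hm
  -- the number of auxiliary primes
  obtain ⟨k, hk⟩ := exists_pow_lt_of_lt_one (x := c₃ / (2 * C₄)) (y := (0.55 : ℝ))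
    (by positivity) (by norm_num)
  obtain ⟨T, hT, hTk⟩ := exists_T hinf (max N₀ 40) k
  have hTZ : ∀ v ∈ T, v ∈ Z ∧ v ≠ q₀ := fun v hv => ⟨(hT v hv).1.1, (hT v hv).1.2⟩
  have hTS : ∀ v ∈ T, v ∉ S := by
    intro v hv hvS
    exact (hmZ v (hTZ v hv).1).1 ((hmS v hvS).1.trans (Ideal.pow_le_self (by omega)))
  obtain ⟨X₁, h1⟩ := hfam T (fun v hv => ⟨(hTZ v hv).2, (hmZ v (hTZ v hv).1).2,
    (hmZ v (hTZ v hv).1).1⟩)
  obtain ⟨X₂, h2⟩ := hbad q₀ T (fun v hv => ⟨(le_max_left _ _).trans (hT v hv).2,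
    (hmZ v (hTZ v hv).1).2, hTS v hv⟩)
  set P : ℝ := ∏ v ∈ T, (1 / 2 * (1 - 1 / (Nv v : ℝ))) with hP
  have hPpos : 0 < P := by
    refine Finset.prod_pos fun v hv => ?_
    have h3 : 40 ≤ Nv v := (le_max_right _ _).trans (hT v hv).2
    have h4 : (40 : ℝ) ≤ (Nv v : ℝ) := by exact_mod_cast h3
    have h5 : 1 / (Nv v : ℝ) ≤ 1 / 40 := one_div_le_one_div_of_le (by norm_num) h4
    nlinarith
  refine ⟨q₀, T, c₃ * P / 2, max (max X₁ X₂) 0, hq₀, hTZ, by positivity, ?_⟩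
  intro X hX
  have hX1 : X₁ ≤ X := (le_max_left _ _).trans ((le_max_left _ _).trans hX)
  have hX2 : X₂ ≤ X := (le_max_right _ _).trans ((le_max_left _ _).trans hX)
  have hX0 : 0 ≤ X := (le_max_right _ _).trans hX
  have e1 := h1 X hX1
  have e2 := h2 X hX2
  have e3 := prod_ratio_le (T := T) (fun v hv => (le_max_right _ _).trans (hT v hv).2)
  rw [hTk, ← hP] at e3
  have hXp : 0 ≤ X ^ (5 * Module.finrank ℚ K) := by positivity
  have hk' : C₄ * 0.55 ^ k ≤ c₃ / 2 := by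
    have h7 : C₄ * 0.55 ^ k ≤ C₄ * (c₃ / (2 * C₄)) := mul_le_mul_of_nonneg_left hk.le hC.le
    have h8 : C₄ * (c₃ / (2 * C₄)) = c₃ / 2 := by field_simp
    rwa [h8] at h7
  have e4 : C₄ * (∏ v ∈ T, ((1 + 1 / (Nv v : ℝ)) ^ 2 / 4)) * X ^ (5 * Module.finrank ℚ K) ≤
      c₃ / 2 * P * X ^ (5 * Module.finrank ℚ K) := by
    refine mul_le_mul_of_nonneg_right ?_ hXp
    calc C₄ * (∏ v ∈ T, ((1 + 1 / (Nv v : ℝ)) ^ 2 / 4)) ≤ C₄ * (0.55 ^ k * P) :=
          mul_le_mul_of_nonneg_left e3 hC.le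
      _ = (C₄ * 0.55 ^ k) * P := by ring
      _ ≤ c₃ / 2 * P := mul_le_mul_of_nonneg_right hk' hPpos.le
  -- the family is the union of the bad and the good pairs
  have hfin : {p : 𝓞 K × 𝓞 K | p ∈ Bx K X ∧ FamS S e q₀ T p.1 p.2 ∧ (p.1 - A₀ ∈ m ∧ p.2 - B₀ ∈ m ∧
      ∀ s : K →+* ℝ, 0 < s (p.1 : K)) ∧ ¬ BadS S T p.1 p.2}.Finite :=
    (H.fin X).subset fun p hp => hp.1
  have hfinb : {p : 𝓞 K × 𝓞 K | p ∈ Bx K X ∧ FamS S e q₀ T p.1 p.2 ∧ BadS S T p.1 p.2}.Finite :=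
    (H.fin X).subset fun p hp => hp.1
  have e5 : ({p : 𝓞 K × 𝓞 K | p ∈ Bx K X ∧ FamS S e q₀ T p.1 p.2 ∧ p.1 - A₀ ∈ m ∧ p.2 - B₀ ∈ m ∧
        ∀ s : K →+* ℝ, 0 < s (p.1 : K)}.ncard : ℝ) ≤
      ({p : 𝓞 K × 𝓞 K | p ∈ Bx K X ∧ FamS S e q₀ T p.1 p.2 ∧ BadS S T p.1 p.2}.ncard : ℝ) +
      ({p : 𝓞 K × 𝓞 K | p ∈ Bx K X ∧ FamS S e q₀ T p.1 p.2 ∧ (p.1 - A₀ ∈ m ∧ p.2 - B₀ ∈ m ∧
        ∀ s : K →+* ℝ, 0 < s (p.1 : K)) ∧ ¬ BadS S T p.1 p.2}.ncard : ℝ) := by
    have h9 : {p : 𝓞 K × 𝓞 K | p ∈ Bx K X ∧ FamS S e q₀ T p.1 p.2 ∧ p.1 - A₀ ∈ m ∧ p.2 - B₀ ∈ m ∧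
        ∀ s : K →+* ℝ, 0 < s (p.1 : K)} ⊆
        {p : 𝓞 K × 𝓞 K | p ∈ Bx K X ∧ FamS S e q₀ T p.1 p.2 ∧ BadS S T p.1 p.2} ∪
        {p : 𝓞 K × 𝓞 K | p ∈ Bx K X ∧ FamS S e q₀ T p.1 p.2 ∧ (p.1 - A₀ ∈ m ∧ p.2 - B₀ ∈ m ∧
          ∀ s : K →+* ℝ, 0 < s (p.1 : K)) ∧ ¬ BadS S T p.1 p.2} := by
      rintro p ⟨h10, h11, h13⟩
      by_cases h12 : BadS S T p.1 p.2
      · exact Or.inl ⟨h10, h11, h12⟩
      · exact Or.inr ⟨h10, h11, h13, h12⟩
    have h13 := (Set.ncard_le_ncard h9 (hfinb.union hfin)).trans (Set.ncard_union_le _ _)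
    exact_mod_cast h13
  have e6 : c₃ * P * X ^ (5 * Module.finrank ℚ K) =
      c₃ * P / 2 * X ^ (5 * Module.finrank ℚ K) + c₃ / 2 * P * X ^ (5 * Module.finrank ℚ K) := by
    ring
  linarith

/-- The counting theorem: residue classes and auxiliary primes given in advance. -/
theorem main_B3 (K : Type) [Field K] [NumberField K] {S : Finset (HeightOneSpectrum (𝓞 K))}
    (hSv : ∀ v : HeightOneSpectrum (𝓞 K), (2 : 𝓞 K) ∈ v.asIdeal → v ∈ S) {e : ℕ} (he : 1 ≤ e)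
    {Z : Set (HeightOneSpectrum (𝓞 K))} (hZ : Z.Infinite) {m : Ideal (𝓞 K)} (hm0 : m ≠ ⊥)
    {A₀ B₀ : 𝓞 K} (hmS : ∀ v ∈ S, m ≤ v.asIdeal ^ e ∧ dsc A₀ B₀ ∉ v.asIdeal ^ e)
    (hm : ∀ v : HeightOneSpectrum (𝓞 K), v ∉ S → m ≤ v.asIdeal → dsc A₀ B₀ ∉ v.asIdeal) :
    ∃ (T : Finset (HeightOneSpectrum (𝓞 K))) (c X₀ : ℝ),
      (∀ v ∈ T, v ∈ Z ∧ v ∉ S ∧ ¬ m ≤ v.asIdeal) ∧ 0 < c ∧ ∀ X : ℝ, X₀ ≤ X →
        ∃ G : Finset (𝓞 K × 𝓞 K),
          (∀ p ∈ G, p ∈ Bx K X ∧ p.1 - A₀ ∈ m ∧ p.2 - B₀ ∈ m ∧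
            (∀ s : K →+* ℝ, 0 < s (p.1 : K)) ∧ RelG K (S ∪ T) p.1 p.2) ∧
          (∀ p ∈ G, ∀ q ∈ G, p.1 ^ 3 * q.2 ^ 2 = q.1 ^ 3 * p.2 ^ 2 → p = q) ∧
          c * ((Bx K X).ncard : ℝ) ≤ (G.card : ℝ) := by
  have H : Blocks K := blocks_of_HR2 K fun h hd => hr2 h hd
  obtain ⟨m', hm'0, hm't, hm'm, hm'S, -⟩ := exists_mod hm0 S
  obtain ⟨Z', hZ'Z, hZ', hZ'm, hZr⟩ := aux_set_in K hm'0 hZ
  have hmZ : ∀ v ∈ Z', ¬ m ≤ v.asIdeal ∧ (6 : 𝓞 K) ∉ v.asIdeal := fun v hv =>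
    ⟨fun h => (hZ'm v hv).1 (hm'm.trans h), (hZ'm v hv).2⟩
  have hS6 : ∀ v : HeightOneSpectrum (𝓞 K), ¬ m ≤ v.asIdeal → v ∉ S := by
    intro v hv hvS
    exact hv ((hmS v hvS).1.trans (Ideal.pow_le_self (by omega)))
  have hS2 : ∀ v : HeightOneSpectrum (𝓞 K), v.valuation K 2 < 1 → v ∈ S := by
    intro v hv
    refine hSv v ?_
    by_contra h
    have h4 := (v.valuation_eq_one_iff_notMem (K := K) (r := (2 : 𝓞 K))).2 h
    have h5 : v.valuation K (2 : K) = 1 := by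
      rw [← h4]
      congr 1
    exact absurd h5 hv.ne
  obtain ⟨q₀, T, c, X₀, hq₀, hT, hc, hmain⟩ := main_inS3 H hSv he hZ' hm0 hmZ hmS hm
  obtain ⟨c', X₁, hc', h⟩ := count_genS H (S := S) (e := e) (q₀ := q₀) (T := T) (m' := m')
    (fun J hJ => exists_twistS hm'0 hm't hm'S (hZ'm q₀ hq₀).1 fun p hp =>
      hZr q₀ hq₀ p (hT p (hJ hp)).1 (hT p (hJ hp)).2)
    (fun p => p.1 - A₀ ∈ m ∧ p.2 - B₀ ∈ m ∧ ∀ s : K →+* ℝ, 0 < s (p.1 : K))
    (fun p => p.1 - A₀ ∈ m ∧ p.2 - B₀ ∈ m ∧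
            (∀ s : K →+* ℝ, 0 < s (p.1 : K)) ∧ RelG K (S ∪ insert q₀ T) p.1 p.2) hc hmain
    (by
      intro p hF hP hB
      obtain ⟨J, hJ, hg⟩ := good_S2 hS2
        (fun v hv => ⟨(hT v hv).2, hS6 v (hmZ v (hT v hv).1).1, (hZ'm v (hT v hv).1).2⟩) hF hB
      refine ⟨J, hJ, fun D hDm hD => ?_⟩
      have hDm' := hm'm hDm
      obtain ⟨h1, h2, h3⟩ := hP
      refine ⟨?_, ?_, ?_, hg D hD _ Finset.subset_union_left ?_ ?_⟩
      · change D ^ 2 * p.1 - A₀ ∈ m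
        have e1 : D ^ 2 * p.1 - A₀ = (p.1 - A₀) + (D - 1) * ((D + 1) * p.1) := by ring
        rw [e1]
        exact m.add_mem h1 (m.mul_mem_right _ hDm')
      · change D ^ 3 * p.2 - B₀ ∈ m
        have e1 : D ^ 3 * p.2 - B₀ = (p.2 - B₀) + (D - 1) * ((D ^ 2 + D + 1) * p.2) := by ring
        rw [e1]
        exact m.add_mem h2 (m.mul_mem_right _ hDm')
      · intro s
        change 0 < s ((D ^ 2 * p.1 : 𝓞 K) : K)
        have e1 : ((D ^ 2 * p.1 : 𝓞 K) : K) = (D : K) ^ 2 * (p.1 : K) := by push_cast; rfl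
        rw [e1, map_mul, map_pow]
        exact mul_pos (pow_pos (hD.pos s) 2) (h3 s)
      · exact (Finset.subset_insert _ _).trans Finset.subset_union_right
      · exact Finset.mem_union_right _ (Finset.mem_insert_self _ _))
  refine ⟨insert q₀ T, c', X₁, fun v hv => ?_, hc', h⟩
  have hv' : v ∈ Z' := by
    rw [Finset.mem_insert] at hv
    rcases hv with h | h
    · rw [h]
      exact hq₀
    · exact (hT v h).1
  exact ⟨hZ'Z hv', hS6 v (hmZ v hv').1, (hmZ v hv').1⟩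

end H30ZO

end S_H30_ZO_Ms

section S_H30_ZO_Tv

set_option autoImplicit false
set_option linter.unusedSectionVars false
open scoped Classical

open NumberField WeierstrassCurve

namespace H30ZO

/-- A root of the polynomial gives a point of order two. -/
theorem noroot_of_tors {M : Type} [Field M] {a b : M} (h2 : (2 : M) ≠ 0)
    (hD : 4 * a ^ 3 + 27 * b ^ 2 ≠ 0)
    (ht : ∀ P : (⟨0, 0, 0, a, b⟩ : WeierstrassCurve M).toAffine.Point, P + P = 0 → P = 0) (t : M) :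
    t ^ 3 + a * t + b ≠ 0 := by
  intro h0
  have h1 : (3 * t ^ 2 + a) ≠ 0 := by
    intro h3
    apply hD
    have e1 : a = -(3 * t ^ 2) := by linear_combination h3
    have e2 : b = 2 * t ^ 3 := by
      rw [e1] at h0
      linear_combination h0
    rw [e1, e2]
    ring
  have hns : (⟨0, 0, 0, a, b⟩ : WeierstrassCurve M).toAffine.Nonsingular t 0 := by
    rw [Affine.nonsingular_iff']
    refine ⟨?_, Or.inl ?_⟩
    · rw [Affine.equation_iff']
      simp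
      linear_combination -h0
    · simp
      intro h3
      exact h1 (by linear_combination -h3)
  have h4 := ht (Affine.Point.some t 0 hns) (by
    refine Affine.Point.add_self_of_Y_eq ?_
    simp [Affine.negY])
  exact absurd h4 (by simp)

/-- Finitely many points, no point of order two, trivial two-primary part of the Tate-Shafarevich
group. -/
def Tv (M : Type) [Field M] [NumberField M] (a b : M) : Prop :=
  Finite (⟨0, 0, 0, a, b⟩ : WeierstrassCurve M).toAffine.Point ∧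
  (∀ P : (⟨0, 0, 0, a, b⟩ : WeierstrassCurve M).toAffine.Point, P + P = 0 → P = 0) ∧
  Pool.Agent.H10.Sha2Trivial M (⟨0, 0, 0, a, b⟩ : WeierstrassCurve M)

theorem Tv.noroot {M : Type} [Field M] [NumberField M] {a b : M} (h : Tv M a b)
    (hD : 4 * a ^ 3 + 27 * b ^ 2 ≠ 0) (t : M) : t ^ 3 + a * t + b ≠ 0 :=
  noroot_of_tors two_ne_zero hD h.2.1 t

/-- Without root there is no point of order two. -/
theorem tors_of_noroot {M : Type} [Field M] [CharZero M] {a b : M}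
    (h : ∀ t : M, t ^ 3 + a * t + b ≠ 0)
    (P : (⟨0, 0, 0, a, b⟩ : WeierstrassCurve M).toAffine.Point) (hP : P + P = 0) : P = 0 := by
  rcases P with _ | ⟨x, y, hxy⟩
  · rfl
  · exfalso
    have h1 := add_eq_zero_iff_eq_neg.1 hP
    rw [Affine.Point.neg_some] at h1
    have h2 : y = -y := by
      simpa [Affine.negY] using h1
    have hy : y = 0 := by
      have h3 : (2 : M) * y = 0 := by linear_combination h2
      exact (mul_eq_zero.1 h3).resolve_left two_ne_zero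
    have h4 := (Affine.equation_iff' _ _).1 hxy.1
    rw [hy] at h4
    apply h x
    simp at h4
    linear_combination -h4

end H30ZO

end S_H30_ZO_Tv

section S_H73_ZO_Df

set_option autoImplicit false
set_option linter.unusedSectionVars false
open scoped Classical

open WithZero NumberField IsDedekindDomain H38RT
open H38T1 (SC sc scu rep eo la si Pri OddP tp unif)
open H76PP H73P2 H36CY H73CY

namespace H73ZO

section Rel

variable (K k L : Type) [Field K] [NumberField K] [Field k] [NumberField k] [Field L] [NumberField L]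
  [Algebra K k] [Algebra k L]

/-- The relaxed Selmer condition: square norm, even orders at the primes away from `Sg` and `S`, the
local conditions at the places of `S` (for all embeddings), at all places above `Sg` and at the real
places. -/
structure RelS (Sg S : Finset (HeightOneSpectrum (𝓞 K))) (a b : K) (θ : L) (d : Fin 3 → k) :
    Prop where
  ne : ev θ d ≠ 0
  sq : IsSquare (Algebra.norm k (ev θ d))
  even : ∀ w : HeightOneSpectrum (𝓞 L), dn K (dn k w) ∉ Sg → dn K (dn k w) ∉ S →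
    eo w (sc (ev θ d)) = 0
  loc : ∀ v ∈ S, H73P2.LCv K v a b d
  sg : ∀ u : HeightOneSpectrum (𝓞 k), dn K u ∈ Sg →
    LC (algebraMap k (u.adicCompletion k)) (algebraMap K k a) (algebraMap K k b) d
  real : ∀ s : k →+* ℝ, LC s (algebraMap K k a) (algebraMap K k b) d

/-- The relaxed Selmer group is trivial. -/
def RelST (Sg S : Finset (HeightOneSpectrum (𝓞 K))) (a b : K) (θ : L) : Prop :=
  ∀ d : Fin 3 → k, RelS K k L Sg S a b θ d → IsSquare (ev θ d)

end Rel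

section Val

variable {K N : Type} [Field K] [NumberField K] [Field N] [NumberField N] [Algebra K N]

/-- Away from a set that contains the primes above two, two is a unit. -/
theorem odd_of {Sg : Finset (HeightOneSpectrum (𝓞 K))}
    (h2 : ∀ v : HeightOneSpectrum (𝓞 K), v.valuation K 2 < 1 → v ∈ Sg)
    {v : HeightOneSpectrum (𝓞 K)} (hv : v ∉ Sg) : v.valuation K 2 = 1 := by
  by_contra h0
  refine hv (h2 v (lt_of_le_of_ne ?_ h0))
  have h3 := v.valuation_le_one (K := K) (2 : 𝓞 K)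
  have h4 : algebraMap (𝓞 K) K 2 = 2 := map_ofNat (algebraMap (𝓞 K) K) 2
  rw [← h4]
  exact h3

theorem mem_dn {V : HeightOneSpectrum (𝓞 N)} {x : 𝓞 K} :
    x ∈ (dn K V).asIdeal ↔ algebraMap (𝓞 K) (𝓞 N) x ∈ V.asIdeal := Iff.rfl

end Val

/-- The completions at conjugate places. -/
theorem conj_mapS {K k k' : Type} [Field K] [NumberField K] [Field k] [NumberField k] [Field k']
    [NumberField k'] [Algebra K k] [Algebra K k'] [Algebra k k'] [IsScalarTower K k k']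
    (τ : k' ≃ₐ[k] k') (u : HeightOneSpectrum (𝓞 k')) :
    ∃ u' : HeightOneSpectrum (𝓞 k'), dn K u' = dn K u ∧
      ∃ φ : u'.adicCompletion k' →+* u.adicCompletion k', ∀ x : k',
        φ (algebraMap k' (u'.adicCompletion k') x) = algebraMap k' (u.adicCompletion k') (τ x) := by
  obtain ⟨u', h1, φ, hφ⟩ := conj_map τ u
  refine ⟨u', ?_, φ, hφ⟩
  apply HeightOneSpectrum.ext
  ext x
  rw [mem_dn, mem_dn]
  have e1 := u'.valuation_lt_one_iff_mem (K := k') (algebraMap (𝓞 K) (𝓞 k') x)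
  have e2 := u.valuation_lt_one_iff_mem (K := k') (algebraMap (𝓞 K) (𝓞 k') x)
  have e3 : τ (algebraMap (𝓞 k') k' (algebraMap (𝓞 K) (𝓞 k') x)) =
      algebraMap (𝓞 k') k' (algebraMap (𝓞 K) (𝓞 k') x) := by
    have e4 : algebraMap (𝓞 k') k' (algebraMap (𝓞 K) (𝓞 k') x) =
        algebraMap K k' (algebraMap (𝓞 K) K x) := rfl
    rw [e4, IsScalarTower.algebraMap_apply K k k', τ.commutes]
  rw [← e1, ← e2, ← h1, e3]

/-- The local conditions above `Sg` for the conjugate. -/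
theorem sg_conj {K k k' : Type} [Field K] [NumberField K] [Field k] [NumberField k] [Field k']
    [NumberField k'] [Algebra K k] [Algebra K k'] [Algebra k k'] [IsScalarTower K k k']
    (τ : k' ≃ₐ[k] k') {Sg : Finset (HeightOneSpectrum (𝓞 K))} {a b : k} {d : Fin 3 → k'}
    (h : ∀ u : HeightOneSpectrum (𝓞 k'), dn K u ∈ Sg →
      LC (algebraMap k' (u.adicCompletion k')) (algebraMap k k' a) (algebraMap k k' b) d)
    (u : HeightOneSpectrum (𝓞 k')) (hu : dn K u ∈ Sg) :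
    LC (algebraMap k' (u.adicCompletion k')) (algebraMap k k' a) (algebraMap k k' b)
      (fun i => τ (d i)) := by
  obtain ⟨u', h1, φ, hφ⟩ := conj_mapS (K := K) τ u
  have h3 := LC_map (j := (algebraMap k' (u.adicCompletion k')).comp (τ : k' →+* k')) φ
    (fun x => hφ x) (h u' (by rw [h1]; exact hu))
  unfold LC at h3 ⊢
  simp only [RingHom.comp_apply, RingHom.coe_coe, τ.commutes] at h3
  exact h3

/-- As `H73P2.exists_map`, with the prime below. -/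
theorem exists_mapS {K M : Type} [Field K] [NumberField K] [Field M] [NumberField M] [Algebra K M]
    (v : HeightOneSpectrum (𝓞 K)) (j : M →+* v.adicCompletion K)
    (hj : ∀ x : K, j (algebraMap K M x) = algebraMap K (v.adicCompletion K) x) :
    ∃ (u : HeightOneSpectrum (𝓞 M)) (φ : u.adicCompletion M →+* v.adicCompletion K),
      dn K u = v ∧ ∀ x : M, φ (algebraMap M (u.adicCompletion M) x) = j x := by
  refine ⟨Cm_pl v j hj, Pool.Agent.H10.adicLift (Cm_pl v j hj) j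
    (Pool.Agent.H10.continuous_fromVal (Cm_pl v j hj) j (Cm_nhds v j hj)), ?_,
    fun x => Pool.Agent.H10.adicLift_algebraMap (Cm_pl v j hj) _ _ x⟩
  apply HeightOneSpectrum.ext
  ext x
  rw [mem_dn]
  change algebraMap (𝓞 K) (𝓞 M) x ∈ Cm_id v j hj ↔ _
  rw [Cm_mem]
  have e1 : algebraMap (𝓞 M) M (algebraMap (𝓞 K) (𝓞 M) x) = algebraMap K M (algebraMap (𝓞 K) K x) :=
    rfl
  rw [e1, Cm_val v j hj]
  exact v.valuation_lt_one_iff_mem (K := K) x

end H73ZO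

end S_H73_ZO_Df

section S_H73_ZO_Qc

set_option autoImplicit false
set_option linter.unusedSectionVars false
open scoped Classical

open WithZero NumberField IsDedekindDomain H38RT
open H38T1 (SC sc scu rep eo la si Pri OddP tp unif)
open H76PP H73P2 H36CY H73CY

namespace H73ZO

section Down

variable {K k L k' L' N : Type} [Field K] [NumberField K] [Field k] [NumberField k] [Field L]
  [NumberField L] [Field k'] [NumberField k'] [Field L'] [NumberField L'] [Field N] [NumberField N]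
  [Algebra K k] [Algebra K k'] [Algebra k k'] [Algebra k L] [Algebra L L'] [Algebra k' L']
  [Algebra k L'] [IsScalarTower K k k'] [IsScalarTower k L L'] [IsScalarTower k k' L']
  [Algebra K N] [Algebra k N] [Algebra k' N] [IsScalarTower K k N] [IsScalarTower K k' N]
  [IsScalarTower k k' N] [IsGalois K N]

theorem relS_down {Sg S : Finset (HeightOneSpectrum (𝓞 K))} {a b : K}
    (h2 : ∀ v : HeightOneSpectrum (𝓞 K), v.valuation K 2 < 1 → v ∈ Sg)
    (hsplit : ∀ v ∈ S, ∃ ι : N →+* v.adicCompletion K, ∀ x : K,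
      ι (algebraMap K N x) = algebraMap K (v.adicCompletion K) x)
    (hreal : ∀ s : K →+* ℝ, 0 < s (4 * a ^ 3 + 27 * b ^ 2) ∨ ∃ s' : N →+* ℝ, ∀ x : K,
      s' (algebraMap K N x) = s x)
    (hram : ∀ V : HeightOneSpectrum (𝓞 N), dn K V ∉ Sg → dn K V ∉ S → Ram K V →
      NoRootAt (dn K V) a b)
    (hdesc : ∀ v ∈ Sg, DescAt K N v a b)
    (hNR : ∀ u : HeightOneSpectrum (𝓞 k), NoRootAt (dn K u) a b →
      NoRootAt u (algebraMap K k a) (algebraMap K k b))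
    {θ : L} {θ' : L'} (Q : QS k L k' L' (algebraMap K k a) (algebraMap K k b) θ θ')
    (f2 : Module.finrank L L' = 2) {e : Fin 3 → k} (hne : ev θ e ≠ 0)
    (hsq : IsSquare (Algebra.norm k (ev θ e)))
    (hev : ∀ w' : HeightOneSpectrum (𝓞 L'), dn K (dn k' w') ∉ Sg → dn K (dn k' w') ∉ S →
      eo w' (sc (algebraMap L L' (ev θ e))) = 0)
    (hloc : ∀ v ∈ S, LCv K v a b (fun i => algebraMap k k' (e i)))
    (hsg : ∀ u : HeightOneSpectrum (𝓞 k'), dn K u ∈ Sg →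
      LC (algebraMap k' (u.adicCompletion k')) (algebraMap K k' a) (algebraMap K k' b)
        (fun i => algebraMap k k' (e i)))
    (hre : ∀ s : k' →+* ℝ, LC s (algebraMap K k' a) (algebraMap K k' b)
      (fun i => algebraMap k k' (e i))) : RelS K k L Sg S a b θ e := by
  have hab : ∀ x : K, algebraMap K k' x = algebraMap k k' (algebraMap K k x) :=
    IsScalarTower.algebraMap_apply K k k'
  refine ⟨hne, hsq, ?_, ?_, ?_, ?_⟩
  · intro w hwg hw
    obtain ⟨V, hV⟩ := exists_above (L := N) (dn k w)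
    have hKV : dn K V = dn K (dn k w) := by
      rw [← hV]
      exact (dn_dn V).symm
    have hw2 : w.valuation L 2 = 1 := val2_up (K := k) (val2_up (K := K) (odd_of h2 hwg))
    by_cases hr : Ram K V
    · have h1 := hram V (by rw [hKV]; exact hwg) (by rw [hKV]; exact hw) hr
      rw [hKV] at h1
      exact even_unique Q.cub w (hNR _ h1) hne hsq
    · obtain ⟨h1, -⟩ := unram_mid (k := k) hr
      obtain ⟨D, ρ, hρ, hρk, hD⟩ := exists_gen (k' := k') Q.two h1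
      rw [hV] at hD
      refine even_unram Q f2 w hw2 hρ hρk hD hne fun w' hw' => hev w' ?_ ?_
      · rw [← dn_sq (k := k) (L := L), hw']
        exact hwg
      · rw [← dn_sq (k := k) (L := L), hw']
        exact hw
  · intro v hv j hj
    obtain ⟨j', hj'⟩ := ext_of (k' := k') (algebraMap K (v.adicCompletion K)) (hsplit v hv) j hj
    have h1 := hloc v hv j' (fun x => by rw [hab, hj', hj])
    unfold LC at h1 ⊢
    simp only [hab, hj'] at h1
    exact h1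
  · intro u hu
    refine hdesc (dn K u) hu k k' Q.two e ?_ ?_ (fun u' hu' => hsg u' (by rw [hu']; exact hu)) u rfl
    · rw [← Te_norm Q.cub e, Ne, Algebra.norm_eq_zero_iff]
      exact hne
    · rw [← Te_norm Q.cub e]
      exact hsq
  · intro s
    rcases hreal (s.comp (algebraMap K k)) with h | h
    · refine LC_real s ?_ ?_
      · rw [RingHom.comp_apply] at h
        simpa only [map_add, map_mul, map_pow, map_ofNat] using h
      · have h1 := Te_norm Q.cub e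
        rw [← h1]
        obtain ⟨c, hc⟩ := hsq
        have h2 : Algebra.norm k (ev θ e) ≠ 0 := by
          rw [Ne, Algebra.norm_eq_zero_iff]
          exact hne
        rw [hc] at h2 ⊢
        rw [map_mul]
        have h3 : s c ≠ 0 := (map_ne_zero s).2 (left_ne_zero_of_mul h2)
        exact mul_self_pos.2 h3
    · obtain ⟨s', hs'⟩ := ext_of (k' := k') (s.comp (algebraMap K k)) h s (fun x => rfl)
      have h1 := hre s'
      unfold LC at h1 ⊢
      simp only [hab, hs'] at h1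
      exact h1

end Down

section Step

variable {K k k' N : Type} [Field K] [NumberField K] [Field k] [NumberField k] [Field k']
  [NumberField k'] [Field N] [NumberField N] [Algebra K k] [Algebra K k'] [Algebra k k']
  [IsScalarTower K k k'] [Algebra K N] [Algebra k N] [Algebra k' N] [IsScalarTower K k N]
  [IsScalarTower K k' N] [IsScalarTower k k' N] [IsGalois K N]

theorem quad_stepS (two : Module.finrank k k' = 2) {Sg S : Finset (HeightOneSpectrum (𝓞 K))}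
    {a b : K}
    (h2 : ∀ v : HeightOneSpectrum (𝓞 K), v.valuation K 2 < 1 → v ∈ Sg)
    (hd : 4 * a ^ 3 + 27 * b ^ 2 ≠ 0)
    (hsplit : ∀ v ∈ S, ∃ ι : N →+* v.adicCompletion K, ∀ x : K,
      ι (algebraMap K N x) = algebraMap K (v.adicCompletion K) x)
    (hreal : ∀ s : K →+* ℝ, 0 < s (4 * a ^ 3 + 27 * b ^ 2) ∨ ∃ s' : N →+* ℝ, ∀ x : K,
      s' (algebraMap K N x) = s x)
    (hram : ∀ V : HeightOneSpectrum (𝓞 N), dn K V ∉ Sg → dn K V ∉ S → Ram K V →
      NoRootAt (dn K V) a b)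
    (hdesc : ∀ v ∈ Sg, DescAt K N v a b)
    (hNR : ∀ u : HeightOneSpectrum (𝓞 k), NoRootAt (dn K u) a b →
      NoRootAt u (algebraMap K k a) (algebraMap K k b))
    (hT : ∀ (L : Type) [Field L] [NumberField L] [Algebra k L] (θ : L),
      Cub k L (algebraMap K k a) (algebraMap K k b) θ → RelST K k L Sg S a b θ)
    (L' : Type) [Field L'] [NumberField L'] [Algebra k' L'] (θ' : L')
    (h' : Cub k' L' (algebraMap K k' a) (algebraMap K k' b) θ') : RelST K k' L' Sg S a b θ' := by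
  intro d hR
  have hab : ∀ x : K, algebraMap K k' x = algebraMap k k' (algebraMap K k x) :=
    IsScalarTower.algebraMap_apply K k k'
  let _ : Algebra k L' := ((algebraMap k' L').comp (algebraMap k k')).toAlgebra
  have _ : IsScalarTower k k' L' := IsScalarTower.of_algebraMap_eq fun _ => rfl
  have h'' : Cub k' L' (algebraMap k k' (algebraMap K k a)) (algebraMap k k' (algebraMap K k b)) θ' := by
    rw [← hab, ← hab]
    exact h'
  obtain ⟨L, _, _, _, _, _, θ, hc, hθ⟩ := exists_sub h''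
  have Q : QS k L k' L' (algebraMap K k a) (algebraMap K k b) θ θ' := ⟨two, hc, h'', hθ⟩
  have f2 := Q.fin2
  obtain ⟨τ, σ, hσ, hτ⟩ := Q.sigma f2
  set x : L' := ev θ' d with hx
  have hx0 : x ≠ 0 := hR.ne
  -- the coordinates of an element of `L`
  have hco : ∀ y : L, ev θ (fun i => hc.co i y) = y := fun y => (hc.eq_co y).symm
  have hn0 : Algebra.norm L x ≠ 0 := by
    rw [Ne, Algebra.norm_eq_zero_iff]
    exact hx0
  -- first descent
  have hsq1 : IsSquare (Algebra.norm L x) := by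
    set e : Fin 3 → k := fun i => hc.co i (Algebra.norm L x) with he
    have he1 : ev θ e = Algebra.norm L x := hco _
    have he2 := hτ d e he1
    rw [← he1]
    refine hT L θ hc e (relS_down h2 hsplit hreal hram hdesc hNR Q f2 ?_ ?_ ?_ ?_ ?_ ?_)
    · rw [he1]
      exact hn0
    · rw [he1]
      exact Q.norm_sq f2 hR.sq
    · intro w' hwg hw'
      rw [he1, hσ, H38T1.sc_mul hx0 ((map_ne_zero σ).2 hx0), H38T1.eo_add, hR.even w' hwg hw',
        zero_add]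
      obtain ⟨W', h1, h3⟩ := eo_conj σ w'
      rw [h3 x hx0]
      apply hR.even
      · rw [← dn_sq (K := K) (k := k) (k' := k') (L := L) W', h1,
          dn_sq (K := K) (k := k) (k' := k') (L := L) w']
        exact hwg
      · rw [← dn_sq (K := K) (k := k) (k' := k') (L := L) W', h1,
          dn_sq (K := K) (k := k) (k' := k') (L := L) w']
        exact hw'
    · intro v hv
      rw [he2, ← hab, ← hab]
      refine lcv_mul hd v (hR.loc v hv) ?_
      intro j hj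
      have h1 := hR.loc v hv (j.comp (τ : k' →+* k')) (fun y => by
        change j (τ (algebraMap K k' y)) = _
        rw [hab, τ.commutes, ← hab, hj])
      unfold LC at h1 ⊢
      simp only [RingHom.comp_apply, RingHom.coe_coe, hab, τ.commutes] at h1 ⊢
      exact h1
    · intro u hu
      rw [he2, ← hab, ← hab]
      refine lct_mul hd u (hR.sg u hu) ?_
      rw [hab, hab]
      refine sg_conj τ (fun u hu => ?_) u hu
      rw [← hab, ← hab]
      exact hR.sg u hu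
    · intro s
      rw [he2, ← hab, ← hab]
      refine lcr_mul hd s (hR.real s) ?_
      have h1 := hR.real (s.comp (τ : k' →+* k'))
      unfold LC at h1 ⊢
      simp only [RingHom.comp_apply, RingHom.coe_coe, hab, τ.commutes] at h1 ⊢
      exact h1
  -- second descent
  obtain ⟨t, z, ht, hz, hxt, hNt⟩ := Q.core f2 hx0 hR.sq hsq1
  have hsq2 : IsSquare t := by
    set e : Fin 3 → k := fun i => hc.co i t with he
    have he1 : ev θ e = t := hco _
    -- the coordinates of the inverse of `z`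
    set u : Fin 3 → k' := fun i => h''.co i z⁻¹ with hu
    have hu1 : ev θ' u = z⁻¹ := (h''.eq_co z⁻¹).symm
    have he2 : (fun i => algebraMap k k' (e i)) = m3 (algebraMap k k' (algebraMap K k a))
        (algebraMap k k' (algebraMap K k b)) d (m3 (algebraMap k k' (algebraMap K k a))
        (algebraMap k k' (algebraMap K k b)) u u) := by
      have h1 : ev θ' (fun i => algebraMap k k' (e i)) = ev θ' (m3 (algebraMap k k' (algebraMap K k a))
        (algebraMap k k' (algebraMap K k b)) d (m3 (algebraMap k k' (algebraMap K k a))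
        (algebraMap k k' (algebraMap K k b)) u u)) := by
        rw [← Q.coord, he1, ← Te_ev_mul h'', ← Te_ev_mul h'', hu1, ← hx, hxt]
        field_simp
      funext i
      have h2 := h''.co_mk (fun i => algebraMap k k' (e i)) i
      have h3 := h''.co_mk (m3 (algebraMap k k' (algebraMap K k a))
        (algebraMap k k' (algebraMap K k b)) d (m3 (algebraMap k k' (algebraMap K k a))
        (algebraMap k k' (algebraMap K k b)) u u)) i
      unfold ev at h1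
      rw [← h2, ← h3, h1]
    rw [← he1]
    refine hT L θ hc e (relS_down h2 hsplit hreal hram hdesc hNR Q f2 ?_ ?_ ?_ ?_ ?_ ?_)
    · rw [he1]
      exact ht
    · rw [he1]
      exact hNt
    · intro w' hwg hw'
      rw [he1]
      have h1 := hR.even w' hwg hw'
      have htL : algebraMap L L' t ≠ 0 := (map_ne_zero _).2 ht
      rw [← hx, hxt, H38T1.sc_mul htL (pow_ne_zero 2 hz)] at h1
      have h2 : sc (z ^ 2) = (0 : SC L') := (H38T1.sc_eq_zero (pow_ne_zero 2 hz)).2 ⟨z, pow_two z⟩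
      rwa [h2, add_zero] at h1
    · intro v hv j hj
      have h1 := LC_sq j u (hR.loc v hv j hj)
      rw [hab, hab] at h1 ⊢
      rw [he2]
      exact h1
    · intro w hw
      have h1 := LC_sq (algebraMap k' (w.adicCompletion k')) u (hR.sg w hw)
      rw [hab, hab] at h1 ⊢
      rw [he2]
      exact h1
    · intro s
      have h1 := LC_sq s u (hR.real s)
      rw [hab, hab] at h1 ⊢
      rw [he2]
      exact h1
  rw [hxt]
  obtain ⟨c, rfl⟩ := hsq2
  exact ⟨algebraMap L L' c * z, by rw [map_mul]; ring⟩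

end Step

end H73ZO

end S_H73_ZO_Qc

section S_H73_ZO_Rc

set_option autoImplicit false
set_option linter.unusedSectionVars false
open scoped Classical

open WithZero NumberField IsDedekindDomain H38RT
open H38T1 (SC sc scu rep eo la si Pri OddP tp unif)
open H76PP H73P2 H36CY H73CY

namespace H73ZO

section Base

variable {K k : Type} [Field K] [NumberField K] [Field k] [NumberField k] [Algebra K k]

theorem relS_base (h1 : Module.finrank K k = 1) {Sg S : Finset (HeightOneSpectrum (𝓞 K))} {a b : K}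
    (hT : ∀ (L : Type) [Field L] [NumberField L] [Algebra K L] (θ : L), Cub K L a b θ →
      RelST K K L Sg S a b θ)
    (L : Type) [Field L] [NumberField L] [Algebra k L] (θ : L)
    (h : Cub k L (algebraMap K k a) (algebraMap K k b) θ) : RelST K k L Sg S a b θ := by
  have hs := bs_surj h1
  have hi : Function.Injective (algebraMap K k) := (algebraMap K k).injective
  letI : Algebra K L := ((algebraMap k L).comp (algebraMap K k)).toAlgebra
  have hal : ∀ x : K, algebraMap K L x = algebraMap k L (algebraMap K k x) := fun _ => rfl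
  have hcub : Cub K L a b θ := by
    refine ⟨?_, ?_, ?_⟩
    · rw [hal, hal]
      exact h.root
    · intro c₀ c₁ c₂ hc
      rw [hal, hal, hal] at hc
      obtain ⟨e0, e1, e2⟩ := h.li _ _ _ hc
      exact ⟨(map_eq_zero _).1 e0, (map_eq_zero _).1 e1, (map_eq_zero _).1 e2⟩
    · intro x
      obtain ⟨c₀, c₁, c₂, hx⟩ := h.sp x
      obtain ⟨d₀, rfl⟩ := hs c₀
      obtain ⟨d₁, rfl⟩ := hs c₁
      obtain ⟨d₂, rfl⟩ := hs c₂
      exact ⟨d₀, d₁, d₂, hx⟩
  intro d hR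
  choose d₀ hd₀ using fun i => hs (d i)
  obtain rfl : d = fun i => algebraMap K k (d₀ i) := funext fun i => (hd₀ i).symm
  have hev : ev θ d₀ = ev θ (fun i => algebraMap K k (d₀ i)) := rfl
  let e : K ≃+* k := RingEquiv.ofBijective (algebraMap K k) ⟨hi, hs⟩
  have hRel : RelS K K L Sg S a b θ d₀ := by
    refine ⟨?_, ?_, ?_, ?_, ?_, ?_⟩
    · rw [hev]
      exact hR.ne
    · rw [Te_norm hcub]
      have h2 := hR.sq
      rw [Te_norm h, Te_nf_map] at h2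
      obtain ⟨r, hr⟩ := h2
      obtain ⟨r₀, rfl⟩ := hs r
      refine ⟨r₀, hi ?_⟩
      rw [hr, map_mul]
    · intro w hwg hw
      rw [hev]
      have h3 : dn K (dn K w) = dn K (dn k w) := by
        apply HeightOneSpectrum.ext
        ext x
        have h4 : algebraMap (𝓞 K) (𝓞 L) (algebraMap (𝓞 K) (𝓞 K) x) =
            algebraMap (𝓞 k) (𝓞 L) (algebraMap (𝓞 K) (𝓞 k) x) := by
          apply RingOfIntegers.coe_injective
          rfl
        change algebraMap (𝓞 K) (𝓞 L) (algebraMap (𝓞 K) (𝓞 K) x) ∈ w.asIdeal ↔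
          algebraMap (𝓞 k) (𝓞 L) (algebraMap (𝓞 K) (𝓞 k) x) ∈ w.asIdeal
        rw [h4]
      rw [h3] at hwg hw
      exact hR.even w hwg hw
    · intro v hv j hj
      let j' : k →+* v.adicCompletion K := j.comp (e.symm : k →+* K)
      have hj' : ∀ x : K, j' (algebraMap K k x) = j x := by
        intro x
        change j (e.symm (e x)) = j x
        rw [RingEquiv.symm_apply_apply]
      refine bs_LC (k := k) j j' hj' ?_
      apply hR.loc v hv j'
      intro x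
      rw [hj']
      exact hj x
    · intro v hv
      let j' : k →+* v.adicCompletion K :=
        (algebraMap K (v.adicCompletion K)).comp (e.symm : k →+* K)
      have hj' : ∀ x : K, j' (algebraMap K k x) = algebraMap K (v.adicCompletion K) x := by
        intro x
        change algebraMap K (v.adicCompletion K) (e.symm (e x)) = algebraMap K (v.adicCompletion K) x
        rw [RingEquiv.symm_apply_apply]
      obtain ⟨u, φ, hu, hφ⟩ := exists_mapS v j' hj'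
      have hvd : dn K v = v := by
        apply HeightOneSpectrum.ext
        ext x
        rw [mem_dn]
        exact Iff.rfl
      exact bs_LC (k := k) _ j' hj' (LC_map φ hφ (hR.sg u (by rw [hu, ← hvd]; exact hv)))
    · intro s
      let s' : k →+* ℝ := s.comp (e.symm : k →+* K)
      have hs' : ∀ x : K, s' (algebraMap K k x) = s x := by
        intro x
        change s (e.symm (e x)) = s x
        rw [RingEquiv.symm_apply_apply]
      exact bs_LC (k := k) s s' hs' (hR.real s')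
  have h5 := hT L θ hcub d₀ hRel
  rw [hev] at h5
  exact h5

end Base

theorem chainS {K N : Type} [Field K] [NumberField K] [Field N] [NumberField N] [Algebra K N]
    [IsGalois K N] {r : ℕ} (hr : Module.finrank K N = 2 ^ r) {Sg S : Finset (HeightOneSpectrum (𝓞 K))}
    {a b : K}
    (h2S : ∀ v : HeightOneSpectrum (𝓞 K), v.valuation K 2 < 1 → v ∈ Sg)
    (hd : 4 * a ^ 3 + 27 * b ^ 2 ≠ 0)
    (hsplit : ∀ v ∈ S, ∃ ι : N →+* v.adicCompletion K, ∀ x : K,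
      ι (algebraMap K N x) = algebraMap K (v.adicCompletion K) x)
    (hreal : ∀ s : K →+* ℝ, 0 < s (4 * a ^ 3 + 27 * b ^ 2) ∨ ∃ s' : N →+* ℝ, ∀ x : K,
      s' (algebraMap K N x) = s x)
    (hram : ∀ V : HeightOneSpectrum (𝓞 N), dn K V ∉ Sg → dn K V ∉ S → Ram K V →
      NoRootAt (dn K V) a b)
    (hdesc : ∀ v ∈ Sg, DescAt K N v a b)
    (hT : ∀ (L : Type) [Field L] [NumberField L] [Algebra K L] (θ : L), Cub K L a b θ →
      RelST K K L Sg S a b θ) (n : ℕ) :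
    ∀ (k : Type) [Field k] [NumberField k] [Algebra K k] [Algebra k N] [IsScalarTower K k N],
      Module.finrank K k = n →
      (∀ u : HeightOneSpectrum (𝓞 k), NoRootAt (dn K u) a b →
        NoRootAt u (algebraMap K k a) (algebraMap K k b)) ∧
      ∀ (L : Type) [Field L] [NumberField L] [Algebra k L] (θ : L),
        Cub k L (algebraMap K k a) (algebraMap K k b) θ → RelST K k L Sg S a b θ := by
  have _ : FiniteDimensional K N := Module.Finite.of_restrictScalars_finite ℚ K N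
  induction n using Nat.strong_induction_on with
  | _ n ih =>
    intro k _ _ _ _ _ hn
    by_cases h1 : Module.finrank K k = 1
    · exact ⟨fun u hu => nr_base h1 u hu, fun L _ _ _ θ h => relS_base h1 hT L θ h⟩
    · obtain ⟨k₀, hk₀⟩ := exists_half (K := K) (N := N) (k' := k) hr h1
      have _ : FiniteDimensional K k := Module.Finite.of_restrictScalars_finite ℚ K k
      have _ : NumberField k₀ := NumberField.of_module_finite K k₀
      have _ : IsScalarTower k₀ k N := inferInstance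
      have _ : IsScalarTower K k₀ N := IsScalarTower.of_algebraMap_eq fun x => by
        rw [IsScalarTower.algebraMap_apply K k N, IsScalarTower.algebraMap_apply K k₀ k]
        rfl
      have hmul := Module.finrank_mul_finrank K k₀ k
      rw [hk₀] at hmul
      have hpos : 0 < Module.finrank K k₀ := Module.finrank_pos
      obtain ⟨ih1, ih2⟩ := ih (Module.finrank K k₀) (by omega) k₀ rfl
      have hab : ∀ x : K, algebraMap K k x = algebraMap k₀ k (algebraMap K k₀ x) :=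
        IsScalarTower.algebraMap_apply K k₀ k
      refine ⟨fun u hu => ?_, fun L _ _ _ θ h =>
        quad_stepS (N := N) hk₀ h2S hd hsplit hreal hram hdesc ih1 ih2 L θ h⟩
      have h2 : dn K (dn k₀ u) = dn K u := dn_dn u
      rw [hab, hab]
      refine NoRootAt.up hk₀ u (ih1 _ ?_)
      rw [h2]
      exact hu

section

variable {K N : Type} [Field K] [NumberField K] [Field N] [NumberField N] [Algebra K N]
  [IsGalois K N]

/-- The Selmer group over a field between `K` and `N`. -/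
theorem selS_mid (hos : OrdSub) {r : ℕ} (hr : Module.finrank K N = 2 ^ r)
    {Sg S : Finset (HeightOneSpectrum (𝓞 K))} {a b : K}
    (h2S : ∀ v : HeightOneSpectrum (𝓞 K), v.valuation K 2 < 1 → v ∈ Sg)
    (hd : 4 * a ^ 3 + 27 * b ^ 2 ≠ 0)
    (hnice : ∀ v : HeightOneSpectrum (𝓞 K), v ∉ Sg → v ∉ S → NiceAt v a b)
    (hsplit : ∀ v ∈ S, ∃ ι : N →+* v.adicCompletion K, ∀ x : K,
      ι (algebraMap K N x) = algebraMap K (v.adicCompletion K) x)
    (hreal : ∀ s : K →+* ℝ, 0 < s (4 * a ^ 3 + 27 * b ^ 2) ∨ ∃ s' : N →+* ℝ, ∀ x : K,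
      s' (algebraMap K N x) = s x)
    (hram : ∀ V : HeightOneSpectrum (𝓞 N), dn K V ∉ Sg → dn K V ∉ S → Ram K V →
      NoRootAt (dn K V) a b)
    (hdesc : ∀ v ∈ Sg, DescAt K N v a b)
    (hT : ∀ (L : Type) [Field L] [NumberField L] [Algebra K L] (θ : L), Cub K L a b θ →
      RelST K K L Sg S a b θ)
    (k : Type) [Field k] [NumberField k] [Algebra K k] [Algebra k N] [IsScalarTower K k N]
    (L : Type) [Field L] [NumberField L] [Algebra k L] (θ : L)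
    (h : Cub k L (algebraMap K k a) (algebraMap K k b) θ) :
    SelTriv k L (algebraMap K k a) (algebraMap K k b) θ := by
  obtain ⟨hNR, hRT⟩ := chainS hr h2S hd hsplit hreal hram hdesc hT _ k rfl
  intro d hd0 hsq hfin hre
  refine hRT L θ h d ⟨hd0, hsq, ?_, ?_, fun u _ => hfin u, hre⟩
  · intro w hwg hw
    obtain ⟨V, hV⟩ := exists_above (L := N) (dn k w)
    have hKV : dn K V = dn K (dn k w) := by
      rw [← hV]
      exact (dn_dn V).symm
    by_cases hr' : Ram K V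
    · have h1 := hram V (by rw [hKV]; exact hwg) (by rw [hKV]; exact hw) hr'
      rw [hKV] at h1
      exact even_unique h w (hNR _ h1) hd0 hsq
    · obtain ⟨-, h1⟩ := unram_mid (k := k) hr'
      rw [hV, hKV] at h1
      exact even_nice hos h w (NiceAt.up h1 (hnice _ hwg hw)) hd0 (hfin _)
  · intro v _ j hj
    exact LC_of_places hfin v j hj

/-- The relative theorem. -/
theorem relS_main (hos : OrdSub) {r : ℕ} (hr : Module.finrank K N = 2 ^ r)
    {Sg S : Finset (HeightOneSpectrum (𝓞 K))} {a b : K}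
    (h2S : ∀ v : HeightOneSpectrum (𝓞 K), v.valuation K 2 < 1 → v ∈ Sg)
    (hd : 4 * a ^ 3 + 27 * b ^ 2 ≠ 0) (hirr : ∀ t : K, t ^ 3 + a * t + b ≠ 0)
    (hnice : ∀ v : HeightOneSpectrum (𝓞 K), v ∉ Sg → v ∉ S → NiceAt v a b)
    (hsplit : ∀ v ∈ S, ∃ ι : N →+* v.adicCompletion K, ∀ x : K,
      ι (algebraMap K N x) = algebraMap K (v.adicCompletion K) x)
    (hreal : ∀ s : K →+* ℝ, 0 < s (4 * a ^ 3 + 27 * b ^ 2) ∨ ∃ s' : N →+* ℝ, ∀ x : K,
      s' (algebraMap K N x) = s x)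
    (hram : ∀ V : HeightOneSpectrum (𝓞 N), dn K V ∉ Sg → dn K V ∉ S → Ram K V →
      NoRootAt (dn K V) a b)
    (hdesc : ∀ v ∈ Sg, DescAt K N v a b)
    (hT : ∀ (L : Type) [Field L] [NumberField L] [Algebra K L] (θ : L), Cub K L a b θ →
      RelST K K L Sg S a b θ)
    (M : IntermediateField K N) [NumberField M] :
    Finite (⟨0, 0, 0, algebraMap K M a, algebraMap K M b⟩ : WeierstrassCurve M).toAffine.Point ∧
      Pool.Agent.H10.Sha2Trivial M
        (⟨0, 0, 0, algebraMap K M a, algebraMap K M b⟩ : WeierstrassCurve M) := by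
  have _ : FiniteDimensional K N := Module.Finite.of_restrictScalars_finite ℚ K N
  obtain ⟨L, _, _, _, θ, hL⟩ := H24PD.exists_cub (K := M)
    (noroot (K := K) (N := N) (k := M) hr hirr)
  exact H24PD.descent hL (selS_mid hos hr h2S hd hnice hsplit hreal hram hdesc hT M L θ hL)

end

/-- Over `K` itself the two forms of the relaxed Selmer condition agree. -/
theorem relST_of {K : Type} [Field K] [NumberField K] {Sg S : Finset (HeightOneSpectrum (𝓞 K))}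
    {a b : K} {L : Type} [Field L] [NumberField L] [Algebra K L] {θ : L}
    (h : H73P2.RelT K K L (Sg ∪ S) a b θ) : RelST K K L Sg S a b θ := by
  intro d hd
  refine h d ⟨hd.ne, hd.sq, ?_, ?_, hd.real⟩
  · intro w hw
    rw [Finset.mem_union, not_or] at hw
    exact hd.even w hw.1 hw.2
  · intro v hv
    rcases Finset.mem_union.1 hv with hv | hv
    · intro j hj
      have h1 : j = algebraMap K (v.adicCompletion K) := RingHom.ext fun x => hj x
      rw [h1]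
      refine hd.sg v ?_
      have hvd : dn K v = v := by
        apply HeightOneSpectrum.ext
        ext x
        rw [mem_dn]
        exact Iff.rfl
      rw [hvd]
      exact hv
    · exact hd.loc v hv

end H73ZO

end S_H73_ZO_Rc

section S_H30_ZO_Gs

set_option autoImplicit false
set_option linter.unusedSectionVars false
open scoped Classical

open WithZero NumberField IsDedekindDomain H38RT H76PP H36MT
open H38T1 (SC sc scu rep eo la si Pri OddP tp unif)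

namespace H30ZO

/-- `N / K` is a Galois extension whose degree is a power of two, every ramified prime lies above `S` or
`R`, the primes of `T` split completely, and the local conditions above `S` descend in the
quadratic extensions between `K` and `N`. -/
structure AdmG (K : Type) (N : Type) [Field K] [NumberField K] [Field N] [NumberField N]
    [Algebra K N] (S R T : Finset (HeightOneSpectrum (𝓞 K))) (a b : K) : Prop where
  gal : IsGalois K N
  two : ∃ r : ℕ, Module.finrank K N = 2 ^ r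
  ram : ∀ V : HeightOneSpectrum (𝓞 N), dn K V ∉ S → H73P2.Ram K V → dn K V ∈ R
  spl : ∀ v ∈ T, ∃ ι : N →+* v.adicCompletion K, ∀ x : K,
      ι (algebraMap K N x) = algebraMap K (v.adicCompletion K) x
  desc : ∀ v ∈ S, H36CY.DescAt K N v a b

theorem two_mem_iff {K : Type} [Field K] [NumberField K] {v : HeightOneSpectrum (𝓞 K)} :
    v.valuation K 2 < 1 ↔ (2 : 𝓞 K) ∈ v.asIdeal := by
  have h := v.valuation_lt_one_iff_mem (K := K) (2 : 𝓞 K)
  have e : algebraMap (𝓞 K) K 2 = 2 := map_ofNat (algebraMap (𝓞 K) K) 2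
  constructor
  · intro h1
    refine h.1 ?_
    change v.valuation K (algebraMap (𝓞 K) K 2) < 1
    rw [e]
    exact h1
  · intro h1
    rw [← e]
    exact h.2 h1

theorem two_fin (K : Type) [Field K] [NumberField K] :
    ∃ P : Finset (HeightOneSpectrum (𝓞 K)), ∀ v, v ∈ P ↔ (2 : 𝓞 K) ∈ v.asIdeal := by
  have h : {v : HeightOneSpectrum (𝓞 K) | (2 : 𝓞 K) ∈ v.asIdeal}.Finite := by
    refine (H36PP.six_fin K).subset fun v hv => ?_
    have h6 : (6 : 𝓞 K) = 3 * 2 := by norm_num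
    change (6 : 𝓞 K) ∈ v.asIdeal
    rw [h6]
    exact v.asIdeal.mul_mem_left _ hv
  exact ⟨h.toFinset, fun v => h.mem_toFinset⟩

/-- The residue class. -/
theorem exists_cls {K : Type} [Field K] [NumberField K] {S R : Finset (HeightOneSpectrum (𝓞 K))}
    (hSv : ∀ v : HeightOneSpectrum (𝓞 K), (2 : 𝓞 K) ∈ v.asIdeal → v ∈ S)
    (hR : ∀ v ∈ R, v ∉ S) (e : HeightOneSpectrum (𝓞 K) → ℕ)
    (Av Bv : HeightOneSpectrum (𝓞 K) → 𝓞 K)
    (hcl : ∀ v ∈ S, dsc (Av v) (Bv v) ∉ v.asIdeal ^ e v) :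
    ∃ (m : Ideal (𝓞 K)) (E : ℕ) (A₀ B₀ : 𝓞 K), m ≠ ⊥ ∧ 1 ≤ E ∧
      (∀ v ∈ S, m ≤ v.asIdeal ^ E ∧ dsc A₀ B₀ ∉ v.asIdeal ^ E) ∧
      (∀ v : HeightOneSpectrum (𝓞 K), v ∉ S → m ≤ v.asIdeal → dsc A₀ B₀ ∉ v.asIdeal) ∧
      (∀ A B : 𝓞 K, A - A₀ ∈ m → B - B₀ ∈ m →
        (∀ v ∈ S, A - Av v ∈ v.asIdeal ^ e v ∧ B - Bv v ∈ v.asIdeal ^ e v) ∧
        ∀ v ∈ R, H30PN.NoRt K v A B) := by
  choose b hb using fun v : HeightOneSpectrum (𝓞 K) => H30PN.Rm_noroot v
  obtain ⟨E, hE⟩ : ∃ E : ℕ, E = 1 + ∑ v ∈ S, e v := ⟨_, rfl⟩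
  have hEe : ∀ v ∈ S, e v ≤ E := by
    intro v hv
    have h1 : e v ≤ ∑ v ∈ S, e v := Finset.single_le_sum (fun _ _ => Nat.zero_le _) hv
    omega
  obtain ⟨ex, hex⟩ : ∃ ex : HeightOneSpectrum (𝓞 K) → ℕ, ex = fun v => if v ∈ S then E else 1 :=
    ⟨_, rfl⟩
  have hexS : ∀ v ∈ S, ex v = E := by
    intro v hv
    rw [hex]
    exact if_pos hv
  have hexR : ∀ v ∉ S, ex v = 1 := by
    intro v hv
    rw [hex]
    exact if_neg hv
  have hRS : ∀ v ∈ R, v ∉ S := hR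
  obtain ⟨A₀, hA₀⟩ := IsDedekindDomain.exists_forall_sub_mem_ideal (s := S ∪ R)
    (fun v : HeightOneSpectrum (𝓞 K) => v.asIdeal) ex (fun v _ => v.prime)
    (fun v _ w _ hne h => hne (HeightOneSpectrum.ext h)) (fun v => if v.1 ∈ S then Av v else -1)
  obtain ⟨B₀, hB₀⟩ := IsDedekindDomain.exists_forall_sub_mem_ideal (s := S ∪ R)
    (fun v : HeightOneSpectrum (𝓞 K) => v.asIdeal) ex (fun v _ => v.prime)
    (fun v _ w _ hne h => hne (HeightOneSpectrum.ext h)) (fun v => if v.1 ∈ S then Bv v else b v)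
  have hAS : ∀ v ∈ S, A₀ - Av v ∈ v.asIdeal ^ E := by
    intro v hv
    have h := hA₀ v (Finset.mem_union_left _ hv)
    rw [hexS v hv, if_pos hv] at h
    exact h
  have hBS : ∀ v ∈ S, B₀ - Bv v ∈ v.asIdeal ^ E := by
    intro v hv
    have h := hB₀ v (Finset.mem_union_left _ hv)
    rw [hexS v hv, if_pos hv] at h
    exact h
  have hAR : ∀ v ∈ R, A₀ - (-1) ∈ v.asIdeal := by
    intro v hv
    have h := hA₀ v (Finset.mem_union_right _ hv)
    rw [hexR v (hRS v hv), if_neg (hRS v hv), pow_one] at h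
    exact h
  have hBR : ∀ v ∈ R, B₀ - b v ∈ v.asIdeal := by
    intro v hv
    have h := hB₀ v (Finset.mem_union_right _ hv)
    rw [hexR v (hRS v hv), if_neg (hRS v hv), pow_one] at h
    exact h
  obtain ⟨m, hm⟩ : ∃ m : Ideal (𝓞 K), m = ∏ v ∈ S ∪ R, v.asIdeal ^ ex v := ⟨_, rfl⟩
  have hle : ∀ v ∈ S ∪ R, m ≤ v.asIdeal ^ ex v := fun v hv => by
    rw [hm]
    exact Ideal.le_of_dvd (Finset.dvd_prod_of_mem
      (fun w : HeightOneSpectrum (𝓞 K) => w.asIdeal ^ ex w) hv)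
  have hleS : ∀ v ∈ S, m ≤ v.asIdeal ^ E := fun v hv => by
    rw [← hexS v hv]
    exact hle v (Finset.mem_union_left _ hv)
  have hleR : ∀ v ∈ R, m ≤ v.asIdeal := fun v hv => by
    have h := hle v (Finset.mem_union_right _ hv)
    rwa [hexR v (hRS v hv), pow_one] at h
  have hmem : ∀ v : HeightOneSpectrum (𝓞 K), m ≤ v.asIdeal → v ∈ S ∪ R := by
    intro v hv
    rw [hm] at hv
    obtain ⟨w, hw, hwv⟩ := (Ideal.IsPrime.prod_le v.isPrime).1 hv
    have h1 : w.asIdeal = v.asIdeal :=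
      w.isMaximal.eq_of_le v.isPrime.ne_top (Ideal.IsPrime.le_of_pow_le hwv)
    have h2 : w = v := HeightOneSpectrum.ext h1
    rwa [← h2]
  have hno : ∀ A B : 𝓞 K, A - A₀ ∈ m → B - B₀ ∈ m → ∀ v ∈ R, H30PN.NoRt K v A B := by
    intro A B hA hBm v hv t ht
    apply hb v t
    have e : t ^ 3 - t + b v = (t ^ 3 + A * t + B) - t * ((A - A₀) + (A₀ - (-1))) -
        (B - B₀) - (B₀ - b v) := by ring
    rw [e]
    exact Ideal.sub_mem _ (Ideal.sub_mem _ (Ideal.sub_mem _ ht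
      (Ideal.mul_mem_left _ _ (Ideal.add_mem _ (hleR v hv hA) (hAR v hv)))) (hleR v hv hBm))
      (hBR v hv)
  refine ⟨m, E, A₀, B₀, ?_, by omega, ?_, ?_, ?_⟩
  · rw [hm, ← Ideal.zero_eq_bot, Finset.prod_ne_zero_iff]
    intro w _
    exact pow_ne_zero _ (by rw [Ideal.zero_eq_bot]; exact w.ne_bot)
  · intro v hv
    refine ⟨hleS v hv, fun h => hcl v hv ?_⟩
    have h1 : dsc (Av v) (Bv v) = dsc A₀ B₀ - ((A₀ - Av v) *
        (4 * (A₀ ^ 2 + A₀ * Av v + Av v ^ 2)) + (B₀ - Bv v) * (27 * (B₀ + Bv v))) := by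
      unfold dsc
      ring
    have h2 : dsc (Av v) (Bv v) ∈ v.asIdeal ^ E := by
      rw [h1]
      exact sub_mem h (add_mem (Ideal.mul_mem_right _ _ (hAS v hv))
        (Ideal.mul_mem_right _ _ (hBS v hv)))
    exact Ideal.pow_le_pow_right (hEe v hv) h2
  · intro v hvS hmv
    have hvR : v ∈ R := by
      rcases Finset.mem_union.1 (hmem v hmv) with h | h
      · exact absurd h hvS
      · exact h
    have h2v : (2 : 𝓞 K) ∉ v.asIdeal := fun h => hR v hvR (hSv v h)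
    by_cases h6 : (6 : 𝓞 K) ∈ v.asIdeal
    · have h3 : (3 : 𝓞 K) ∈ v.asIdeal := by
        have h7 : (2 : 𝓞 K) * 3 ∈ v.asIdeal := by
          rw [show (2 : 𝓞 K) * 3 = 6 by norm_num]
          exact h6
        exact (v.isPrime.mem_or_mem h7).resolve_left h2v
      intro h
      have h8 : (2 : 𝓞 K) ^ 2 ∈ v.asIdeal := by
        have e : (2 : 𝓞 K) ^ 2 = 3 * (9 * B₀ ^ 2) + (A₀ - (-1)) * (4 * (A₀ ^ 2 - A₀ + 1)) -
            dsc A₀ B₀ := by
          unfold dsc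
          ring
        rw [e]
        exact sub_mem (add_mem (v.asIdeal.mul_mem_right _ h3)
          (v.asIdeal.mul_mem_right _ (hAR v hvR))) h
      exact h2v (v.isPrime.mem_of_pow_mem 2 h8)
    · refine H30PN.nort_dsc' h6 (hno A₀ B₀ ?_ ?_ v hvR)
      · rw [sub_self]
        exact Ideal.zero_mem _
      · rw [sub_self]
        exact Ideal.zero_mem _
  · intro A B hA hB
    refine ⟨fun v hv => ?_, hno A B hA hB⟩
    have h1 : v.asIdeal ^ E ≤ v.asIdeal ^ e v := Ideal.pow_le_pow_right (hEe v hv)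
    constructor
    · have h2 := h1 (add_mem (hleS v hv hA) (hAS v hv))
      rwa [sub_add_sub_cancel] at h2
    · have h2 := h1 (add_mem (hleS v hv hB) (hBS v hv))
      rwa [sub_add_sub_cancel] at h2

/-- The general theorem. -/
theorem main_gen (K : Type) [Field K] [NumberField K] {S R : Finset (HeightOneSpectrum (𝓞 K))}
    (hSv : ∀ v : HeightOneSpectrum (𝓞 K), (2 : 𝓞 K) ∈ v.asIdeal → v ∈ S)
    (hR : ∀ v ∈ R, v ∉ S) {Z : Set (HeightOneSpectrum (𝓞 K))}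
    (hZ : Z.Infinite) (e : HeightOneSpectrum (𝓞 K) → ℕ) (Av Bv : HeightOneSpectrum (𝓞 K) → 𝓞 K)
    (hcl : ∀ v ∈ S, dsc (Av v) (Bv v) ∉ v.asIdeal ^ e v) :
    ∃ (T : Finset (HeightOneSpectrum (𝓞 K))) (c X₀ : ℝ),
      (∀ v ∈ T, v ∈ Z) ∧ 0 < c ∧ ∀ X : ℝ, X₀ ≤ X → ∃ G : Finset (𝓞 K × 𝓞 K),
        (∀ p ∈ G, p ∈ Bx K X ∧ 4 * p.1 ^ 3 + 27 * p.2 ^ 2 ≠ 0 ∧
          (∀ v ∈ S, p.1 - Av v ∈ v.asIdeal ^ e v ∧ p.2 - Bv v ∈ v.asIdeal ^ e v) ∧
          ∀ (N : Type) [Field N] [NumberField N] [Algebra K N],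
            AdmG K N S R T (p.1 : K) (p.2 : K) → ∀ (M : Type) [Field M] [NumberField M]
            [Algebra K M] [Algebra M N] [IsScalarTower K M N],
            Tv M (algebraMap K M p.1) (algebraMap K M p.2)) ∧
        (∀ p ∈ G, ∀ q ∈ G, p.1 ^ 3 * q.2 ^ 2 = q.1 ^ 3 * p.2 ^ 2 → p = q) ∧
        c * ((Bx K X).ncard : ℝ) ≤ (G.card : ℝ) := by
  obtain ⟨m, E, A₀, B₀, hm0, hE, hmS, hm, hclass⟩ :=
    exists_cls hSv hR e Av Bv hcl
  obtain ⟨T, c, X₀, hT, hc, h⟩ := main_B3 K hSv hE hZ hm0 hmS hm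
  refine ⟨T, c, X₀, fun v hv => (hT v hv).1, hc, fun X hX => ?_⟩
  obtain ⟨G, hG, hj, hcard⟩ := h X hX
  refine ⟨G, fun p hp => ?_, hj, hcard⟩
  obtain ⟨hB, h1, h2, hpos, hrel⟩ := hG p hp
  obtain ⟨hc1, hc2⟩ := hclass p.1 p.2 h1 h2
  refine ⟨hB, hrel.ne, hc1, ?_⟩
  intro N _ _ _ hN M _ _ _ _ _
  have _ := hN.gal
  obtain ⟨r, hr⟩ := hN.two
  have hd : 4 * (p.1 : K) ^ 3 + 27 * (p.2 : K) ^ 2 ≠ 0 := by
    rw [← dsc_coe]
    intro h0
    apply hrel.ne
    apply RingOfIntegers.coe_injective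
    rw [map_zero]
    exact h0
  have _ : FiniteDimensional K N := Module.Finite.of_restrictScalars_finite ℚ K N
  have hnr := H73P2.noroot (K := K) (N := N) (k := M) hr hrel.irr
  obtain ⟨L, _, _, _, θ, hL⟩ := H24PD.exists_cub (K := M) hnr
  have hdes := H24PD.descent hL (H73ZO.selS_mid (K := K) (N := N) ordSub hr (Sg := S) (S := T)
    (fun v hv => hSv v (two_mem_iff.1 hv)) hd ?_ hN.spl ?_ ?_ hN.desc ?_ M L θ hL)
  · exact ⟨hdes.1, tors_of_noroot hnr, hdes.2⟩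
  · intro v hv1 hv2
    exact hrel.nice v fun h => (Finset.mem_union.1 h).elim hv1 hv2
  · intro s
    left
    rw [map_add, map_mul, map_mul, map_pow, map_pow, map_ofNat, map_ofNat]
    have h1 := hpos s
    positivity
  · intro V hVS hVT hV
    have h1 := H30PN.noroot_of (D := (1 : K)) one_ne_zero (hc2 _ (hN.ram V hVS hV)) (by
      have : ord ((dn K V).valuation K) (1 : K) = 0 := by
        unfold ord
        rw [map_one]
        simp
      rw [this]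
      exact Even.zero)
    rw [one_pow, one_pow, one_mul, one_mul] at h1
    exact h1
  · intro L _ _ _ θ hL
    exact H73ZO.relST_of (hrel.rel L θ hL)

end H30ZO

end S_H30_ZO_Gs
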