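import Mathlib
import Pool.Agent.H76.CQ.Qa
import Pool.Agent.H76.PN.A4
import Pool.Agent.H76.PN.A5
import Pool.Agent.H76.PN.C2
import Pool.Agent.H76.PN.N3
import Pool.Agent.H76.PN.N6
import Pool.Agent.H76.PN.P2
import Pool.Agent.H76.PN.Z1
import Pool.Agent.H76.PN.Z2

/-! This file joins several modules to save build time (Y11). -/

set_option autoImplicit false

section S_H30_ZO_Ct

set_option autoImplicit false
set_option linter.unusedSectionVars false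
open scoped Classical

open WithZero NumberField IsDedekindDomain H38RT
open H76PP H36PP H36MT

namespace H30ZO

theorem main_count (K : Type) [Field K] [NumberField K] {m : Ideal (𝓞 K)} (hm : m ≠ ⊥) {ε : ℝ}
    (hε : 0 < ε) {Z₀ : Set (HeightOneSpectrum (𝓞 K))} (hZ₀ : Z₀.Infinite)
    (S₀ : Finset (HeightOneSpectrum (𝓞 K))) :
    ∃ (S : Finset (HeightOneSpectrum (𝓞 K))) (e : ℕ) (Z₁ Z₂ : Finset (HeightOneSpectrum (𝓞 K)))
      (m' : Ideal (𝓞 K)) (X₀ : ℝ),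
      (∀ v : HeightOneSpectrum (𝓞 K), (6 : 𝓞 K) ∈ v.asIdeal → v ∈ S) ∧ S₀ ⊆ S ∧ (∀ v ∈ Z₁, v ∈ Z₀) ∧
      (∀ v ∈ Z₂, v ∈ Z₀) ∧ m' ≠ ⊥ ∧ m' ≠ ⊤ ∧ m' ≤ m ∧
      (∀ v ∈ S, ∀ x ∈ m', v.valuation K (x : K) < v.valuation K 4) ∧
      (∀ q ∈ Z₁, q ∉ S ∧ q ∉ Z₂ ∧ ¬ m' ≤ q.asIdeal) ∧ (∀ p ∈ Z₂, p ∉ S) ∧
      (∀ q ∈ Z₁, ∀ p ∈ Z₂, ∃ D : K, AuxR m' q p D) ∧
      ∀ X : ℝ, X₀ ≤ X →
        ({p : 𝓞 K × 𝓞 K | p ∈ Bx K X ∧ ¬ ∃ q ∈ Z₁, ∃ T ⊆ Z₂, FamS S e q T p.1 p.2 ∧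
          ¬ BadS S T p.1 p.2}.ncard : ℝ) ≤ ε * X ^ (5 * Module.finrank ℚ K) := by
  obtain ⟨δ, hδ⟩ : ∃ δ : ℝ, δ = ε / 6 := ⟨_, rfl⟩
  have hδ0 : 0 < δ := by rw [hδ]; positivity
  obtain ⟨CU, hCU, hU⟩ := coset_upper K
  obtain ⟨M₀, X₁, h1⟩ := tail_bound K (le_trans zero_le_one hCU) hU hδ0
  -- the set `S`
  obtain ⟨S, hS⟩ : ∃ S : Finset (HeightOneSpectrum (𝓞 K)), ∀ v, v ∈ S ↔
      (((6 : 𝓞 K) ∈ v.asIdeal ∨ ¬ M₀ < Nv v) ∨ v ∈ S₀) := by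
    have hf1 : {v : HeightOneSpectrum (𝓞 K) | ¬ (M₀ + 1) ≤ Nv v}.Finite := fin_norm K (M₀ + 1)
    have hf2 : {v : HeightOneSpectrum (𝓞 K) | (6 : 𝓞 K) ∈ v.asIdeal}.Finite := by
      refine (nv_finite K (Ideal.absNorm (Ideal.span {(6 : 𝓞 K)}) : ℝ)).subset fun v hv => ?_
      have h6 : (6 : 𝓞 K) ≠ 0 := by norm_num
      have h7 : v.asIdeal ∣ Ideal.span {(6 : 𝓞 K)} :=
        Ideal.dvd_span_singleton.2 hv
      have h8 : Ideal.absNorm v.asIdeal ∣ Ideal.absNorm (Ideal.span {(6 : 𝓞 K)}) :=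
        map_dvd Ideal.absNorm h7
      have h9 : 0 < Ideal.absNorm (Ideal.span {(6 : 𝓞 K)}) := by
        refine Nat.pos_of_ne_zero ?_
        rw [Ne, Ideal.absNorm_eq_zero_iff, Ideal.span_singleton_eq_bot]
        exact h6
      exact_mod_cast Nat.le_of_dvd h9 h8
    refine ⟨((hf2.union hf1).union S₀.finite_toSet).toFinset, fun v => ?_⟩
    rw [Set.Finite.mem_toFinset, Set.mem_union, Set.mem_union]
    change ((6 : 𝓞 K) ∈ v.asIdeal ∨ ¬ (M₀ + 1) ≤ Nv v) ∨ v ∈ S₀ ↔ _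
    rw [Nat.succ_le_iff]
  obtain ⟨e, X₂, hX₂, h2⟩ := pow_count (K := K) S hδ0
  obtain ⟨C₄, N₀, hC₄, h4⟩ := bad_countS K (H36PP.Bx_finite K) S (e + 1) (by omega)
  obtain ⟨m', hm'0, hm't, hm'm, hm'S, -⟩ := exists_mod hm S
  obtain ⟨Z, hZZ₀, hZinf, hZ, hZr⟩ := H30CY.aux_set_in K hm'0 hZ₀
  have hSm : ∀ v ∈ S, m' ≤ v.asIdeal := by
    intro v hv x hx
    have h5 := hm'S v hv x hx
    have h6 : v.valuation K (4 : K) ≤ 1 := by
      rw [← map_ofNat (algebraMap (𝓞 K) K) 4]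
      exact v.valuation_le_one (K := K) (4 : 𝓞 K)
    exact (v.valuation_lt_one_iff_mem (K := K) x).1 (h5.trans_le h6)
  have hZS : ∀ v ∈ Z, v ∉ S := fun v hv hvS => (hZ v hv).1 (hSm v hvS)
  obtain ⟨r₁, h7⟩ := root_count (K := K) hδ0
  obtain ⟨Z₁, hZ₁, hZ₁c⟩ := exists_T hZinf 0 (r₁ + 1)
  obtain ⟨X₃, hX₃, h3⟩ := h7 Z₁ (by omega) (fun v hv => (hZ v (hZ₁ v hv).1).2)
  obtain ⟨k, N₁, hk⟩ := params (C := C₄ * ((r₁ + 1 : ℕ) : ℝ)) (ε := δ) (by positivity) hδ0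
  obtain ⟨N₂, hN₂⟩ := type_count (K := K) hδ0
  obtain ⟨N, hN⟩ : ∃ N, N = max N₁ N₂ := ⟨_, rfl⟩
  have hinf' : (Z \ (Z₁ : Set (HeightOneSpectrum (𝓞 K)))).Infinite := hZinf.diff Z₁.finite_toSet
  obtain ⟨Z₂, hZ₂, hZ₂c⟩ := exists_T hinf' (max N₀ 9) (3 * N)
  obtain ⟨X₄, hX₄, h5⟩ := hN₂ Z₂ N (by rw [hN]; exact le_max_right _ _) hZ₂c
    (fun v hv => (hZ v (hZ₂ v hv).1.1).2)
  obtain ⟨hk0, hk1⟩ := hk N (by rw [hN]; exact le_max_left _ _)
  -- the first moments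
  have h6 : ∀ (q : HeightOneSpectrum (𝓞 K)) (T : Finset (HeightOneSpectrum (𝓞 K))), ∃ X₀ : ℝ,
      T ⊆ Z₂ → ∀ X : ℝ, X₀ ≤ X →
        ({p : 𝓞 K × 𝓞 K | p ∈ Bx K X ∧ FamS S (e + 1) q T p.1 p.2 ∧ BadS S T p.1 p.2}.ncard : ℝ) ≤
          C₄ * (∏ v ∈ T, ((1 + 1 / (Nv v : ℝ)) ^ 2 / 4)) * X ^ (5 * Module.finrank ℚ K) := by
    intro q T
    by_cases hT : T ⊆ Z₂
    · obtain ⟨X₀, hX₀⟩ := h4 q T (fun v hv => ⟨(le_max_left _ _).trans (hZ₂ v (hT hv)).2,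
        (hZ v (hZ₂ v (hT hv)).1.1).2, hZS v (hZ₂ v (hT hv)).1.1⟩)
      exact ⟨X₀, fun _ => hX₀⟩
    · exact ⟨0, fun h => absurd h hT⟩
  choose Xb hXb using h6
  obtain ⟨X₅, hX₅⟩ : ∃ X₅ : ℝ, X₅ = ∑ q ∈ Z₁, ∑ T ∈ Z₂.powerset, |Xb q T| := ⟨_, rfl⟩
  have hX₅' : ∀ q ∈ Z₁, ∀ T ⊆ Z₂, Xb q T ≤ X₅ := by
    intro q hq T hT
    have e1 : |Xb q T| ≤ ∑ T ∈ Z₂.powerset, |Xb q T| :=
      Finset.single_le_sum (f := fun T => |Xb q T|) (fun _ _ => abs_nonneg _)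
        (Finset.mem_powerset.2 hT)
    have e2 : ∑ T ∈ Z₂.powerset, |Xb q T| ≤ ∑ q ∈ Z₁, ∑ T ∈ Z₂.powerset, |Xb q T| :=
      Finset.single_le_sum (f := fun q => ∑ T ∈ Z₂.powerset, |Xb q T|)
        (fun _ _ => Finset.sum_nonneg fun _ _ => abs_nonneg _) hq
    rw [hX₅]
    exact (le_abs_self _).trans (e1.trans e2)
  obtain ⟨X₆, hX₆, h8⟩ := zero_count (K := K) hδ0
  refine ⟨S, e + 1, Z₁, Z₂, m', max (max (max X₁ X₂) (max X₃ X₄)) (max X₅ X₆), ?_,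
    fun v hv => (hS v).2 (Or.inr hv), fun v hv => hZZ₀ (hZ₁ v hv).1,
    fun v hv => hZZ₀ (hZ₂ v hv).1.1, hm'0, hm't, hm'm, hm'S, ?_, ?_, ?_, ?_⟩
  · intro v hv
    exact (hS v).2 (Or.inl (Or.inl hv))
  · intro q hq
    refine ⟨hZS q (hZ₁ q hq).1, fun h => (hZ₂ q h).1.2 hq, (hZ q (hZ₁ q hq).1).1⟩
  · intro p hp
    exact hZS p (hZ₂ p hp).1.1
  · intro q hq p hp
    refine hZr q (hZ₁ q hq).1 p (hZ₂ p hp).1.1 ?_
    rintro rfl
    exact (hZ₂ p hp).1.2 hq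
  intro X hX
  have hXX₁ : X₁ ≤ X := (le_max_left _ _).trans ((le_max_left _ _).trans ((le_max_left _ _).trans hX))
  have hXX₂ : X₂ ≤ X := (le_max_right _ _).trans ((le_max_left _ _).trans ((le_max_left _ _).trans hX))
  have hXX₃ : X₃ ≤ X := (le_max_left _ _).trans ((le_max_right _ _).trans ((le_max_left _ _).trans hX))
  have hXX₄ : X₄ ≤ X := (le_max_right _ _).trans ((le_max_right _ _).trans ((le_max_left _ _).trans hX))
  have hXX₅ : X₅ ≤ X := (le_max_left _ _).trans ((le_max_right _ _).trans hX)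
  have hXX₆ : X₆ ≤ X := (le_max_right _ _).trans ((le_max_right _ _).trans hX)
  have hX0 : 0 ≤ X := by linarith
  obtain ⟨Y, hY⟩ : ∃ Y : ℝ, Y = X ^ (5 * Module.finrank ℚ K) := ⟨_, rfl⟩
  have hY0 : 0 ≤ Y := by rw [hY]; positivity
  have hfin : ∀ P : 𝓞 K × 𝓞 K → Prop, {p : 𝓞 K × 𝓞 K | p ∈ Bx K X ∧ P p}.Finite := fun P =>
    (H36PP.Bx_finite K X).subset fun p hp => hp.1
  have e1 := h1 X hXX₁
  have e2 := h2 X hXX₂
  have e3 := h3 X hXX₃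
  have e5 := h5 X hXX₄
  have e8 := h8 X hXX₆
  rw [← hY] at e1 e2 e3 e5 e8 ⊢
  -- the remaining pairs
  obtain ⟨P, hP⟩ : ∃ P : Finset (𝓞 K × 𝓞 K), ∀ p, p ∈ P ↔ (p ∈ Bx K X ∧
      ((∀ v : HeightOneSpectrum (𝓞 K), v ∉ S → dsc p.1 p.2 ∉ v.asIdeal ^ 2) ∧
      (∀ v ∈ S, dsc p.1 p.2 ∉ v.asIdeal ^ (e + 1)) ∧
      (∃ q ∈ Z₁, ∀ t : 𝓞 K, t ^ 3 + p.1 * t + p.2 ∉ q.asIdeal) ∧
      N ≤ (Z₂.filter (fun v => p ∈ Pt v)).card ∧
      ¬ ∃ q ∈ Z₁, ∃ T ⊆ Z₂, FamS S (e + 1) q T p.1 p.2 ∧ ¬ BadS S T p.1 p.2)) :=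
    ⟨(hfin _).toFinset, fun p => Set.Finite.mem_toFinset _⟩
  have hbadfin : ∀ (q : HeightOneSpectrum (𝓞 K)) (T : Finset (HeightOneSpectrum (𝓞 K))),
      {p : 𝓞 K × 𝓞 K | p ∈ Bx K X ∧ FamS S (e + 1) q T p.1 p.2 ∧ BadS S T p.1 p.2}.Finite :=
    fun q T => hfin _
  have hav := average Z₂ P (fun p => Z₂.filter (fun v => p ∈ Pt v))
    (fun T => Z₁.biUnion fun q => (hbadfin q T).toFinset) N k
    (((r₁ + 1 : ℕ) : ℝ) * (C₄ * 0.31 ^ k * Y)) (by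
      intro T hT hTk
      refine (Nat.cast_le.2 Finset.card_biUnion_le).trans ?_
      rw [Nat.cast_sum]
      refine (Finset.sum_le_card_nsmul Z₁ _ (C₄ * 0.31 ^ k * Y) fun q hq => ?_).trans ?_
      · have g1 := hXb q T hT X ((hX₅' q hq T hT).trans hXX₅)
        rw [← Set.ncard_eq_toFinset_card _ (hbadfin q T)]
        refine g1.trans ?_
        rw [← hY]
        refine mul_le_mul_of_nonneg_right (mul_le_mul_of_nonneg_left ?_ hC₄.le) hY0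
        rw [← hTk]
        exact prod9 fun v hv => (le_max_right _ _).trans (hZ₂ v (hT hv)).2
      · rw [hZ₁c, nsmul_eq_mul])
    (by
      intro p hp
      obtain ⟨hpB, hsq, hbd, ⟨q, hq, hqr⟩, hNc, hno⟩ := (hP p).1 hp
      refine ⟨Finset.filter_subset _ _, hNc, fun T hT hTk => ?_⟩
      have hTZ : T ⊆ Z₂ := hT.trans (Finset.filter_subset _ _)
      have hF : FamS S (e + 1) q T p.1 p.2 :=
        ⟨hqr, fun v hv => (Finset.mem_filter.1 (hT hv)).2, hsq, hbd⟩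
      rw [Finset.mem_biUnion]
      refine ⟨q, hq, ?_⟩
      rw [Set.Finite.mem_toFinset]
      refine ⟨hpB, hF, ?_⟩
      by_contra hB
      exact hno ⟨q, hq, T, hTZ, hF, hB⟩)
  rw [hZ₂c] at hav
  have ePc : (P.card : ℝ) ≤ δ * Y := by
    have hc0 : (0 : ℝ) < (N.choose k : ℝ) := by exact_mod_cast hk0
    have g2 : (N.choose k : ℝ) * (P.card : ℝ) ≤ (N.choose k : ℝ) * (δ * Y) := by
      refine hav.trans ?_
      calc ((3 * N).choose k : ℝ) * (((r₁ + 1 : ℕ) : ℝ) * (C₄ * 0.31 ^ k * Y))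
          = (C₄ * ((r₁ + 1 : ℕ) : ℝ) * 0.31 ^ k * ((3 * N).choose k : ℝ)) * Y := by ring
        _ ≤ (δ * (N.choose k : ℝ)) * Y := mul_le_mul_of_nonneg_right hk1 hY0
        _ = _ := by ring
    exact le_of_mul_le_mul_left g2 hc0
  -- the union bound
  have hsub : {p : 𝓞 K × 𝓞 K | p ∈ Bx K X ∧ ¬ ∃ q ∈ Z₁, ∃ T ⊆ Z₂, FamS S (e + 1) q T p.1 p.2 ∧
      ¬ BadS S T p.1 p.2} ⊆
      ((((Tail K M₀ X ∪ {p : 𝓞 K × 𝓞 K | p ∈ Bx K X ∧ ∃ v ∈ S, dsc p.1 p.2 ∈ v.asIdeal ^ e}) ∪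
        {p : 𝓞 K × 𝓞 K | p ∈ Bx K X ∧ ∀ v ∈ Z₁, ∃ t : 𝓞 K,
          t ^ 3 + p.1 * t + p.2 ∈ v.asIdeal}) ∪
        {p : 𝓞 K × 𝓞 K | p ∈ Bx K X ∧ (Z₂.filter (fun v => p ∈ Pt v)).card < N}) ∪
        {p : 𝓞 K × 𝓞 K | p ∈ Bx K X ∧ p.1 = 0}) ∪ (P : Set (𝓞 K × 𝓞 K)) := by
    rintro p ⟨hpB, hno⟩
    by_cases c1 : p ∈ Tail K M₀ X
    · exact Or.inl (Or.inl (Or.inl (Or.inl (Or.inl c1))))
    by_cases c2 : ∃ v ∈ S, dsc p.1 p.2 ∈ v.asIdeal ^ e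
    · exact Or.inl (Or.inl (Or.inl (Or.inl (Or.inr ⟨hpB, c2⟩))))
    by_cases c3 : ∀ v ∈ Z₁, ∃ t : 𝓞 K, t ^ 3 + p.1 * t + p.2 ∈ v.asIdeal
    · exact Or.inl (Or.inl (Or.inl (Or.inr ⟨hpB, c3⟩)))
    by_cases c4 : (Z₂.filter (fun v => p ∈ Pt v)).card < N
    · exact Or.inl (Or.inl (Or.inr ⟨hpB, c4⟩))
    by_cases c5 : p.1 = 0
    · exact Or.inl (Or.inr ⟨hpB, c5⟩)
    refine Or.inr ?_
    rw [Finset.mem_coe, hP]
    push Not at c2 c3
    refine ⟨hpB, ?_, ?_, ?_, not_lt.1 c4, hno⟩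
    · intro v hv hd
      have hv' : ¬ ((6 : 𝓞 K) ∈ v.asIdeal ∨ ¬ M₀ < Nv v) := fun h => hv ((hS v).2 (Or.inl h))
      rw [not_or, not_not] at hv'
      refine c1 ⟨hpB, c5, ?_, v, hv'.1, hv'.2, hd⟩
      intro h0
      obtain ⟨u, hu⟩ := Ya_exists_two K
      have hu6 : (6 : 𝓞 K) ∈ u.asIdeal := by
        have : (6 : 𝓞 K) = 3 * 2 := by norm_num
        rw [this]
        exact u.asIdeal.mul_mem_left _ hu
      apply c2 u ((hS u).2 (Or.inl (Or.inl hu6)))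
      rw [h0]
      exact Submodule.zero_mem _
    · intro v hv hd
      exact c2 v hv (Ideal.pow_le_pow_right (Nat.le_succ e) hd)
    · exact c3
  have hfinT : (Tail K M₀ X).Finite := (H36PP.Bx_finite K X).subset fun p hp => hp.1
  have hfin1 := hfinT.union (hfin fun p => ∃ v ∈ S, dsc p.1 p.2 ∈ v.asIdeal ^ e)
  have hfin2 := hfin1.union (hfin fun p => ∀ v ∈ Z₁, ∃ t : 𝓞 K, t ^ 3 + p.1 * t + p.2 ∈ v.asIdeal)
  have hfin3 := hfin2.union (hfin fun p => (Z₂.filter (fun v => p ∈ Pt v)).card < N)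
  have hfin4 := hfin3.union (hfin fun p => p.1 = 0)
  have hfin5 := hfin4.union P.finite_toSet
  have g := Set.ncard_le_ncard hsub hfin5
  have g1 := g.trans (Set.ncard_union_le _ _)
  have g2 := g1.trans (Nat.add_le_add_right (Set.ncard_union_le _ _) _)
  have g3 := g2.trans (Nat.add_le_add_right (Nat.add_le_add_right (Set.ncard_union_le _ _) _) _)
  have g4 := g3.trans (Nat.add_le_add_right (Nat.add_le_add_right (Nat.add_le_add_right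
    (Set.ncard_union_le _ _) _) _) _)
  have g5 := g4.trans (Nat.add_le_add_right (Nat.add_le_add_right (Nat.add_le_add_right
    (Nat.add_le_add_right (Set.ncard_union_le _ _) _) _) _) _)
  rw [Set.ncard_coe_finset] at g5
  have g6 : ({p : 𝓞 K × 𝓞 K | p ∈ Bx K X ∧ ¬ ∃ q ∈ Z₁, ∃ T ⊆ Z₂, FamS S (e + 1) q T p.1 p.2 ∧
      ¬ BadS S T p.1 p.2}.ncard : ℝ) ≤ _ := Nat.cast_le.2 g5
  push_cast at g6
  have hε' : ε * Y = δ * Y + δ * Y + δ * Y + δ * Y + δ * Y + δ * Y := by rw [hδ]; ring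
  linarith

end H30ZO

end S_H30_ZO_Ct

section S_H30_PN_Bj

set_option autoImplicit false
set_option linter.unusedSectionVars false
open scoped Classical

open WithZero NumberField IsDedekindDomain H38RT H76PP
open H38T1 (SC sc scu rep eo la si Pri OddP tp unif)

namespace H30PN

private theorem Tj_odd {K : Type} [Field K] [NumberField K] {v : HeightOneSpectrum (𝓞 K)}
    (h6 : (6 : 𝓞 K) ∉ v.asIdeal) : OddP v := by
  have h2 : (2 : 𝓞 K) ∉ v.asIdeal := by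
    intro h
    apply h6
    have : (6 : 𝓞 K) = 3 * 2 := by norm_num
    rw [this]
    exact v.asIdeal.mul_mem_left _ h
  have h3 := (v.valuation_eq_one_iff_notMem (K := K) (r := (2 : 𝓞 K))).2 h2
  unfold H38T1.OddP
  rw [← h3]
  congr 1

private theorem Tj_unif_ne {K : Type} [Field K] [NumberField K] (v : HeightOneSpectrum (𝓞 K)) :
    unif v ≠ 0 := by
  intro h
  have h1 := H38T1.unif_spec v
  rw [h, map_zero] at h1
  exact exp_ne_zero h1.symm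

private theorem Tj_neg {L : Type} [Field L] (c : SC L) : -c = c := by
  have h := H38T1.SC.two_smul c
  rw [two_nsmul] at h
  exact neg_eq_of_add_eq_zero_left h

private theorem Tj_la {K L : Type} [Field K] [NumberField K] [Field L] [NumberField L]
    [Algebra K L] {A B : 𝓞 K} {θ : L} (hR : HR2 K L A B θ) {v : HeightOneSpectrum (𝓞 K)}
    (hv : OddP v) {w₁ w₂ : HeightOneSpectrum (𝓞 L)} (h2 : Two K θ v w₁ w₂) {c : SC L}
    (h1 : eo w₁ c = 0) (h1' : eo w₂ c = 0) (hc : scm (Algebra.norm K : L →* K) c = 0) :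
    la w₁ c = la w₂ c := by
  obtain ⟨y, hy, rfl⟩ := H38T1.sc_surj c
  have hu := Tj_unif_ne v
  have h3 := hR.proj hv hy hu
  rw [scm_sc _ hy] at hc
  have h4 : sc (Algebra.norm K y) = (0 : SC K) := hc
  have h5 : tp v (sc (Algebra.norm K y)) (sc (unif v)) = 0 := by
    rw [h4]
    unfold H38T1.tp
    rw [H38T1.eo_zero, H38T1.la_zero hv]
    ring
  have e1 : (ord (v.valuation K) (unif v) : ZMod 2) = 1 := by
    have : ord (v.valuation K) (unif v) = 1 := by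
      unfold ord
      rw [H38T1.unif_spec]
      simp
    rw [this]
    simp
  have hne : algebraMap K L (unif v) ≠ 0 := (map_ne_zero _).2 hu
  have t1 : tp w₁ (sc y) (sc (algebraMap K L (unif v))) = la w₁ (sc y) := by
    unfold H38T1.tp
    rw [h1, H38T1.eo_sc hne, h2.ord1 _ hu, e1]
    ring
  have t2 : tp w₂ (sc y) (sc (algebraMap K L (unif v))) = la w₂ (sc y) := by
    unfold H38T1.tp
    rw [h1', H38T1.eo_sc hne, h2.ord2 _ hu, e1]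
    ring
  have h6 : ∑ᶠ w : {w : HeightOneSpectrum (𝓞 L) // dn K w = v},
      tp w.1 (sc y) (sc (algebraMap K L (unif v))) = la w₁ (sc y) + la w₂ (sc y) := by
    rw [← t1, ← t2, ← finsum_mem_pair (f := fun w => tp w (sc y) (sc (algebraMap K L (unif v)))) h2.ne,
      finsum_subtype_eq_finsum_cond (f := fun w => tp w (sc y) (sc (algebraMap K L (unif v))))]
    refine finsum_congr fun w => ?_
    have hw : (dn K w = v) ↔ w ∈ ({w₁, w₂} : Set (HeightOneSpectrum (𝓞 L))) := by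
      constructor
      · intro h
        rcases h2.only w h with h | h
        · exact Or.inl h
        · exact Or.inr h
      · rintro (h | h)
        · rw [h]
          exact h2.dn1
        · rw [Set.mem_singleton_iff.1 h]
          exact h2.dn2
    rw [finsum_congr_Prop (propext hw) fun _ => rfl]
  rw [h6, h5] at h3
  exact CharTwo.add_eq_zero.1 h3

/-- The classes of square norm with even orders outside `S` which satisfy the local conditions at `S`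
and at the real places are trivial. -/
def BT (K L : Type) [Field K] [NumberField K] [Field L] [NumberField L] [Algebra K L]
    (S : Finset (HeightOneSpectrum (𝓞 K))) (a b : K) (θ : L) : Prop :=
  ∀ d : Fin 3 → K, ev θ d ≠ 0 → IsSquare (Algebra.norm K (ev θ d)) →
    (∀ w : HeightOneSpectrum (𝓞 L), dn K w ∉ S → eo w (sc (ev θ d)) = 0) →
    (∀ v ∈ S, LC (algebraMap K (v.adicCompletion K)) a b d) →
    (∀ s : K →+* ℝ, LC s a b d) → IsSquare (ev θ d)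

/-- The base case for one cubic extension `L`. -/
theorem base_one {K : Type} [Field K] [NumberField K] {q₀ : HeightOneSpectrum (𝓞 K)}
    {T : Finset (HeightOneSpectrum (𝓞 K))} (hT : ∀ v ∈ T, v ≠ q₀ ∧ (6 : 𝓞 K) ∉ v.asIdeal)
    {A B : 𝓞 K} (hF : Fam q₀ T A B) (hB : ¬ BadP T A B) {L : Type} [Field L] [NumberField L]
    [Algebra K L] {θ : L} (hL : Cub K L (A : K) (B : K) θ) (hR : HR2 K L A B θ) :
    ∃ J ⊆ T, ∀ D : K, TwD q₀ J D → ∀ S : Finset (HeightOneSpectrum (𝓞 K)), J ⊆ S →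
      (∀ v : HeightOneSpectrum (𝓞 K), v.valuation K 2 < 1 → v ∈ S) →
      BT K L S (D ^ 2 * A) (D ^ 3 * B) (algebraMap K L D * θ) := by
  obtain ⟨w₀, -⟩ := exists_above (L := L) q₀
  have : Nonempty (HeightOneSpectrum (𝓞 L)) := ⟨w₀⟩
  have h2 : ∀ v ∈ T, ∃ w₁ w₂ : HeightOneSpectrum (𝓞 L), Two K θ v w₁ w₂ := fun v hv =>
    exists_two hF hL hv (hT v hv).2
  choose! w₁ w₂ hw using h2
  have hodd : ∀ v ∈ T, OddP v := fun v hv => Tj_odd (hT v hv).2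
  have hodd1 : ∀ v ∈ T, OddP (w₁ v) := fun v hv => by
    rw [oddP_dn (K := K), (hw v hv).dn1]
    exact hodd v hv
  have hodd2 : ∀ v ∈ T, OddP (w₂ v) := fun v hv => by
    rw [oddP_dn (K := K), (hw v hv).dn2]
    exact hodd v hv
  have hu : ∃ u : HeightOneSpectrum (𝓞 K) → SC L →+ ZMod 2, ∀ v ∈ T, ∀ c, u v c = la (w₁ v) c := by
    refine ⟨fun v => if h : v ∈ T then ⟨⟨la (w₁ v), H38T1.la_zero (hodd1 v h)⟩,
      H38T1.la_add (hodd1 v h)⟩ else 0, fun v hv c => ?_⟩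
    beta_reduce
    rw [dif_pos hv]
    rfl
  obtain ⟨u, hu⟩ := hu
  let Y : Set (SC L) := {c | ∃ d : Fin 3 → K, ev θ d ≠ 0 ∧ c = sc (ev θ d) ∧
    IsSquare (Algebra.norm K (ev θ d)) ∧ (∀ w, eo w c = 0) ∧
    (∀ v : HeightOneSpectrum (𝓞 K), v.valuation K 2 < 1 →
      LC (algebraMap K (v.adicCompletion K)) (A : K) (B : K) d) ∧
    ∀ s : K →+* ℝ, LC s (A : K) (B : K) d}
  have hYn : ∀ c ∈ Y, scm (Algebra.norm K : L →* K) c = 0 := by
    rintro c ⟨d, hd, rfl, hs, -⟩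
    rw [scm_sc _ hd]
    exact (H38T1.sc_eq_zero (scm_ne _ hd)).2 hs
  have hH : ∀ c ∈ AddSubgroup.closure Y, (∀ w, eo w c = 0) ∧
      scm (Algebra.norm K : L →* K) c = 0 := by
    intro c hc
    induction hc using AddSubgroup.closure_induction with
    | mem c hc =>
      refine ⟨?_, hYn c hc⟩
      obtain ⟨d, -, -, -, h, -⟩ := hc
      exact h
    | zero => exact ⟨fun w => H38T1.eo_zero w, map_zero _⟩
    | add c c' _ _ h h' =>
      refine ⟨fun w => ?_, ?_⟩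
      · rw [H38T1.eo_add, h.1, h'.1, add_zero]
      · rw [map_add, h.2, h'.2, add_zero]
    | neg c _ h =>
      rw [Tj_neg]
      exact h
  have hla : ∀ v ∈ T, ∀ c ∈ AddSubgroup.closure Y, la (w₁ v) c = la (w₂ v) c := fun v hv c hc =>
    Tj_la hR (hodd v hv) (hw v hv) ((hH c hc).1 _) ((hH c hc).1 _) (hH c hc).2
  have hker : ∀ y ∈ AddSubgroup.closure Y, (∀ v ∈ T, u v y = 0) → y = 0 := by
    intro c hc h
    by_contra hne
    refine hB ⟨L, _, _, _, θ, c, hL, hne, (hH c hc).2, (hH c hc).1, fun w hwT => ?_⟩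
    have h3 : la (w₁ (dn K w)) c = 0 := by
      rw [← hu _ hwT]
      exact h _ hwT
    rcases (hw _ hwT).only w rfl with h4 | h4
    · rw [h4]
      exact h3
    · rw [h4, ← hla _ hwT c hc]
      exact h3
  obtain ⟨J, hJT, hJ1, hJ2⟩ := exists_J (AddSubgroup.closure Y) T u hker
  refine ⟨J, hJT, fun D hD S hJS hS2 d' hd' hsq hevn hLC hLCr => ?_⟩
  set δ := ev (algebraMap K L D * θ) d' with hδ
  have hev : ev θ (fun j => d' j * D ^ (j : ℕ)) = δ := by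
    rw [hδ]
    simp only [ev, map_mul, map_pow, Fin.val_zero, Fin.val_one, Fin.val_two]
    ring
  have hd : ev θ (fun j => d' j * D ^ (j : ℕ)) ≠ 0 := by
    rw [hev]
    exact hd'
  have hL2 : ∀ v : HeightOneSpectrum (𝓞 K), v.valuation K 2 < 1 →
      LC (algebraMap K (v.adicCompletion K)) (A : K) (B : K) (fun j => d' j * D ^ (j : ℕ)) := by
    intro v hv
    obtain ⟨m, hm, h⟩ := hD.two v hv
    obtain ⟨r, hr⟩ := sq_two hv hm h
    exact LC_twist _ hD.ne hr (hLC v (hS2 v hv))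
  have hLr : ∀ s : K →+* ℝ, LC s (A : K) (B : K) (fun j => d' j * D ^ (j : ℕ)) := by
    intro s
    exact LC_twist _ hD.ne (Real.sq_sqrt (hD.pos s).le).symm (hLCr s)
  have hoff : ∀ w : HeightOneSpectrum (𝓞 L), dn K w ∉ J → eo w (sc δ) = 0 := fun w hwJ => by
    by_cases hwS : dn K w ∈ S
    · exact even_off hF hL hD hd' hwJ (hLC _ hwS)
    · exact hevn w hwS
  have hat : ∀ v ∈ J, eo (w₁ v) (sc δ) = 0 ∧ (eo (w₂ v) (sc δ) = 0 → la (w₁ v) (sc δ) = 0 ∧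
      la (w₂ v) (sc δ) = 0) := fun v hv =>
    at_J hF hL hD hd' hv (hT v (hJT hv)).2 (hw v (hJT hv)) (hLC _ (hJS hv))
  have hrel : ∀ y ∈ AddSubgroup.closure Y, ∑ v ∈ J, eo (w₂ v) (sc δ) * u v y = 0 := by
    intro y hy
    induction hy using AddSubgroup.closure_induction with
    | mem y hy =>
      have hyH : y ∈ AddSubgroup.closure Y := AddSubgroup.subset_closure hy
      obtain ⟨d₁, hd₁, rfl, hs₁, he₁, hl₁, hr₁⟩ := hy
      have h3 := hR.iso (d := fun j => d' j * D ^ (j : ℕ)) (d' := d₁) hd hd₁ (by rw [hev]; exact hsq) hs₁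
        (fun v hv => ⟨hL2 v hv, hl₁ v hv⟩) fun s => ⟨hLr s, hr₁ s⟩
      rw [hev] at h3
      have ht : ∀ w : HeightOneSpectrum (𝓞 L), tp w (sc δ) (sc (ev θ d₁)) =
          eo w (sc δ) * la w (sc (ev θ d₁)) := by
        intro w
        unfold H38T1.tp
        rw [he₁ w]
        ring
      have hsub : Function.support (fun w : HeightOneSpectrum (𝓞 L) =>
          if OddP w then tp w (sc δ) (sc (ev θ d₁)) else 0) ⊆ ((J.image w₂ : Finset _) : Set _) := by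
        intro w hwS
        by_contra hn
        apply hwS
        change (if OddP w then tp w (sc δ) (sc (ev θ d₁)) else 0) = 0
        have h5 : eo w (sc δ) = 0 := by
          by_cases hwJ : dn K w ∈ J
          · rcases (hw _ (hJT hwJ)).only w rfl with h4 | h4
            · rw [h4]
              exact (hat _ hwJ).1
            · exact absurd (Finset.mem_coe.2 (Finset.mem_image.2 ⟨_, hwJ, h4.symm⟩)) hn
          · exact hoff w hwJ
        rw [ht, h5, zero_mul, ite_self]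
      rw [finsum_eq_sum_of_support_subset _ hsub, Finset.sum_image] at h3
      · rw [← h3]
        refine Finset.sum_congr rfl fun v hv => ?_
        rw [if_pos (hodd2 v (hJT hv)), ht, hu v (hJT hv), hla v (hJT hv) _ hyH]
      · intro v hv v' hv' h
        rw [← (hw v (hJT hv)).dn2, ← (hw v' (hJT hv')).dn2, h]
    | zero => simp
    | add y y' _ _ h h' =>
      simp only [map_add, mul_add, Finset.sum_add_distrib]
      rw [h, h', add_zero]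
    | neg y _ h =>
      rw [Tj_neg]
      exact h
  have hr := hJ2 (fun v => eo (w₂ v) (sc δ)) hrel
  have heo : ∀ w : HeightOneSpectrum (𝓞 L), eo w (sc δ) = 0 := by
    intro w
    by_cases hwJ : dn K w ∈ J
    · rcases (hw _ (hJT hwJ)).only w rfl with h4 | h4
      · rw [h4]
        exact (hat _ hwJ).1
      · rw [h4]
        exact hr _ hwJ
    · exact hoff w hwJ
  have hmem : sc δ ∈ AddSubgroup.closure Y := by
    refine AddSubgroup.subset_closure ⟨fun j => d' j * D ^ (j : ℕ), hd, by rw [hev], ?_, heo, hL2, hLr⟩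
    rw [hev]
    exact hsq
  have h0 := hJ1 _ hmem fun v hv => by
    rw [hu v (hJT hv)]
    exact ((hat v hv).2 (hr v hv)).1
  exact (H38T1.sc_eq_zero hd').1 h0

end H30PN

end S_H30_PN_Bj

section S_H30_PN_Bi

set_option autoImplicit false
set_option linter.unusedSectionVars false
open scoped Classical

open WithZero NumberField IsDedekindDomain H38RT H76PP
open H38T1 (SC sc scu rep eo la si Pri OddP tp unif)

namespace H30PN

private theorem Bi_hom {K L L' : Type} [Field K] [NumberField K] [Field L] [NumberField L]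
    [Field L'] [NumberField L'] [Algebra K L] [Algebra K L'] {a b : K} {θ : L} {θ' : L'}
    (h : Cub K L a b θ) (h' : Cub K L' a b θ') :
    ∃ φ : L →+* L', ∀ d : Fin 3 → K, φ (ev θ d) = ev θ' d := by
  have hco : ∀ x : L, ev θ (fun i => h.co i x) = x := fun x => (h.eq_co x).symm
  have hmk : ∀ d : Fin 3 → K, (fun i => h.co i (ev θ d)) = d := fun d =>
    funext fun i => h.co_mk d i
  have hadd : ∀ u v : Fin 3 → K, ev θ' (fun i => u i + v i) = ev θ' u + ev θ' v := by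
    intro u v
    simp only [ev, map_add]
    ring
  have hmul : ∀ x y : L, (fun i => h.co i (x * y)) =
      m3 a b (fun i => h.co i x) (fun i => h.co i y) := by
    intro x y
    have h1 : x * y = ev θ (m3 a b (fun i => h.co i x) (fun i => h.co i y)) := by
      rw [← Te_ev_mul h, hco, hco]
    conv_lhs => rw [h1]
    exact hmk _
  have hone : (fun i => h.co i (1 : L)) = ![1, 0, 0] := by
    have h1 : (1 : L) = ev θ (![1, 0, 0] : Fin 3 → K) := by simp [ev]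
    rw [h1]
    exact hmk _
  let φ : L →+* L' :=
    { toFun := fun x => ev θ' (fun i => h.co i x)
      map_one' := by
        rw [hone]
        simp [ev]
      map_mul' := fun x y => by
        rw [hmul, Te_ev_mul h']
      map_zero' := by
        simp [ev]
      map_add' := fun x y => by
        simp only [map_add]
        exact hadd _ _ }
  refine ⟨φ, fun d => ?_⟩
  change ev θ' (fun i => h.co i (ev θ d)) = ev θ' d
  rw [hmk]

theorem bt_iso {K L L' : Type} [Field K] [NumberField K] [Field L] [NumberField L] [Field L']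
    [NumberField L'] [Algebra K L] [Algebra K L'] {S : Finset (HeightOneSpectrum (𝓞 K))} {a b : K}
    {θ : L} {θ' : L'} (h : Cub K L a b θ) (h' : Cub K L' a b θ') (hB : BT K L S a b θ) :
    BT K L' S a b θ' := by
  obtain ⟨φ, hφ⟩ := Bi_hom h h'
  obtain ⟨f, hf⟩ := Bi_hom h' h
  intro d hd hsq hev hLC hLCr
  have hinj : Function.Injective f := f.injective
  have hdL : ev θ d ≠ 0 := by
    intro h0
    apply hd
    apply hinj
    rw [hf, h0, map_zero]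
  have hnorm : Algebra.norm K (ev θ d) = Algebra.norm K (ev θ' d) := by
    rw [Te_norm h, Te_norm h']
  have hfK : ∀ x : K, f (algebraMap K L' x) = algebraMap K L x := by
    intro x
    have h1 : algebraMap K L' x = ev θ' ![x, 0, 0] := by simp [ev]
    have h2 : algebraMap K L x = ev θ ![x, 0, 0] := by simp [ev]
    rw [h1, h2, hf]
  have hsurj : Function.Surjective f := by
    intro y
    refine ⟨ev θ' (fun i => h.co i y), ?_⟩
    rw [hf]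
    exact (h.eq_co y).symm
  have hres : IsSquare (ev θ d) := by
    refine hB d hdL (by rw [hnorm]; exact hsq) ?_ hLC hLCr
    intro w hw
    let _inst : Algebra L' L := f.toAlgebra
    have halg : ∀ x : L', algebraMap L' L x = f x := fun _ => rfl
    have hdn : dn K (dn L' w) = dn K w := by
      apply HeightOneSpectrum.ext
      change (w.asIdeal.comap (algebraMap (𝓞 L') (𝓞 L))).comap (algebraMap (𝓞 K) (𝓞 L')) =
        w.asIdeal.comap (algebraMap (𝓞 K) (𝓞 L))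
      rw [Ideal.comap_comap]
      congr 1
      ext x
      exact hfK x
    obtain ⟨e, he, hord⟩ := ord_dn (K := L') w
    have he1 : e = 1 := by
      obtain ⟨y, hy⟩ := w.valuation_exists_uniformizer L
      have hy0 : y ≠ 0 := by
        rintro rfl
        rw [map_zero] at hy
        exact exp_ne_zero hy.symm
      obtain ⟨x, rfl⟩ := hsurj y
      have hx0 : x ≠ 0 := by
        rintro rfl
        exact hy0 (map_zero f)
      have h1 := hord x hx0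
      rw [halg] at h1
      have h2 : ord (w.valuation L) (f x) = 1 := by
        unfold ord
        rw [hy]
        simp
      rw [h2] at h1
      have h3 : (e : ℤ) ∣ 1 := ⟨_, h1⟩
      have h4 := Int.le_of_dvd one_pos h3
      omega
    have h1 : ord (w.valuation L) (ev θ d) = ord ((dn L' w).valuation L') (ev θ' d) := by
      have h2 := hord (ev θ' d) hd
      rw [halg, hf, he1] at h2
      rw [h2]
      push_cast
      ring
    rw [H38T1.eo_sc hdL, h1, ← H38T1.eo_sc hd]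
    apply hev
    rw [hdn]
    exact hw
  obtain ⟨r, hr⟩ := hres
  refine ⟨φ r, ?_⟩
  rw [← map_mul, ← hr, hφ]

end H30PN

end S_H30_PN_Bi

section S_H36_PP_Flp

set_option autoImplicit false
set_option linter.unusedSectionVars false

open NumberField IsDedekindDomain H76PP

namespace H36PP

section FamIn

variable {K : Type} [Field K] [NumberField K]

theorem fam_of_in {q₀ : HeightOneSpectrum (𝓞 K)} (h6 : (6 : 𝓞 K) ∉ q₀.asIdeal)
    {T : Finset (HeightOneSpectrum (𝓞 K))} (hT : ∀ v ∈ T, v ≠ q₀ ∧ (6 : 𝓞 K) ∉ v.asIdeal)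
    {m : Ideal (𝓞 K)} {A₀ B₀ : 𝓞 K}
    (hm : ∀ v : HeightOneSpectrum (𝓞 K), m ≤ v.asIdeal →
      ((6 : 𝓞 K) ∉ v.asIdeal → dsc A₀ B₀ ∉ v.asIdeal) ∧ ((2 : 𝓞 K) ∈ v.asIdeal → B₀ ∉ v.asIdeal) ∧
      ((3 : 𝓞 K) ∈ v.asIdeal → A₀ ∉ v.asIdeal))
    {M : ℕ} {X : ℝ} {p : 𝓞 K × 𝓞 K} (hp : p ∈ Bx K X) (hq : p ∈ Pq q₀) (hPt : ∀ v ∈ T, p ∈ Pt v)
    (hA : p.1 - A₀ ∈ m) (hB : p.2 - B₀ ∈ m)
    (hP6 : ∀ v : HeightOneSpectrum (𝓞 K), (6 : 𝓞 K) ∈ v.asIdeal → ¬ m ≤ v.asIdeal → p ∈ P6 v)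
    (ho : ∀ v : HeightOneSpectrum (𝓞 K), (6 : 𝓞 K) ∉ v.asIdeal → v ≠ q₀ → v ∉ T →
      ¬ m ≤ v.asIdeal → Nv v ≤ M → p ∈ Po v)
    (ht : p ∉ Tail K M X) : Fam q₀ T p.1 p.2 := by
  have hone : ∀ v : HeightOneSpectrum (𝓞 K), (1 : 𝓞 K) ∉ v.asIdeal := fun v h =>
    v.isPrime.ne_top ((Ideal.eq_top_iff_one _).2 h)
  have m2 : ∀ v : HeightOneSpectrum (𝓞 K), (2 : 𝓞 K) ∈ v.asIdeal → (6 : 𝓞 K) ∈ v.asIdeal := by
    intro v h
    rw [show (6 : 𝓞 K) = 3 * 2 by norm_num]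
    exact v.asIdeal.mul_mem_left _ h
  have m3 : ∀ v : HeightOneSpectrum (𝓞 K), (3 : 𝓞 K) ∈ v.asIdeal → (6 : 𝓞 K) ∈ v.asIdeal := by
    intro v h
    rw [show (6 : 𝓞 K) = 2 * 3 by norm_num]
    exact v.asIdeal.mul_mem_left _ h
  have m1 : ∀ (v : HeightOneSpectrum (𝓞 K)) (x : 𝓞 K), x - 1 ∈ v.asIdeal → x ∉ v.asIdeal := by
    intro v x h1 h2
    apply hone v
    have h3 := sub_mem h2 h1
    rwa [sub_sub_cancel] at h3
  have m4 : ∀ (v : HeightOneSpectrum (𝓞 K)) (x y : 𝓞 K), x - y ∈ v.asIdeal → y ∉ v.asIdeal →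
      x ∉ v.asIdeal := by
    intro v x y h1 h2 h3
    apply h2
    have h4 := sub_mem h3 h1
    rwa [sub_sub_cancel] at h4
  have hdm : dsc p.1 p.2 - dsc A₀ B₀ ∈ m := by
    have e : dsc p.1 p.2 - dsc A₀ B₀ =
        (p.1 - A₀) * (4 * (p.1 ^ 2 + p.1 * A₀ + A₀ ^ 2)) + (p.2 - B₀) * (27 * (p.2 + B₀)) := by
      unfold dsc
      ring
    rw [e]
    exact add_mem (m.mul_mem_right _ hA) (m.mul_mem_right _ hB)
  have htwo : ∀ v : HeightOneSpectrum (𝓞 K), (2 : 𝓞 K) ∈ v.asIdeal → p.2 ∉ v.asIdeal := by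
    intro v hv
    by_cases hmv : m ≤ v.asIdeal
    · exact m4 v _ _ (hmv hB) ((hm v hmv).2.1 hv)
    · exact m1 v _ (hP6 v (m2 v hv) hmv).2
  have hthree : ∀ v : HeightOneSpectrum (𝓞 K), (3 : 𝓞 K) ∈ v.asIdeal → p.1 ∉ v.asIdeal := by
    intro v hv
    by_cases hmv : m ≤ v.asIdeal
    · exact m4 v _ _ (hmv hA) ((hm v hmv).2.2 hv)
    · exact m1 v _ (hP6 v (m3 v hv) hmv).1
  have hne : p.1 ≠ 0 := by
    obtain ⟨v, hv⟩ := Fm_three (K := K)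
    intro h0
    have h1 := hthree v hv
    rw [h0] at h1
    exact h1 v.asIdeal.zero_mem
  have hd0 : dsc p.1 p.2 ≠ 0 := by
    intro h0
    have h1 := dsc_q h6 hq
    rw [h0] at h1
    exact h1 q₀.asIdeal.zero_mem
  refine ⟨hne, hq, hPt, htwo, hthree, fun v hv => ?_⟩
  by_cases hvq : v = q₀
  · rw [hvq]
    exact fun h => dsc_q h6 hq (Ideal.pow_le_self two_ne_zero h)
  by_cases hvT : v ∈ T
  · exact fun h => dsc_t hv (hPt v hvT) (Ideal.pow_le_self two_ne_zero h)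
  by_cases hmv : m ≤ v.asIdeal
  · exact fun h => m4 v _ _ (hmv hdm) ((hm v hmv).1 hv) (Ideal.pow_le_self two_ne_zero h)
  by_cases hvM : Nv v ≤ M
  · exact ho v hv hvq hvT hmv hvM
  · exact fun h => ht ⟨hp, hne, hd0, v, hv, not_le.1 hvM, h⟩

end FamIn

variable (K : Type) [Field K] [NumberField K]

private theorem Fl_cop {v w : HeightOneSpectrum (𝓞 K)} (h : v ≠ w) (a b : ℕ) :
    IsCoprime (v.asIdeal ^ a) (w.asIdeal ^ b) := by
  apply IsCoprime.pow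
  rw [Ideal.isCoprime_iff_sup_eq]
  exact Ideal.IsMaximal.coprime_of_ne v.isMaximal w.isMaximal fun h' => h (HeightOneSpectrum.ext h')

private theorem Fl_cop1 {v w : HeightOneSpectrum (𝓞 K)} (h : v ≠ w) :
    IsCoprime v.asIdeal w.asIdeal := by
  have h1 := Fl_cop K h 1 1
  rwa [pow_one, pow_one] at h1

private theorem Fl_cop2 {v w : HeightOneSpectrum (𝓞 K)} (h : v ≠ w) :
    IsCoprime v.asIdeal (w.asIdeal ^ 2) := by
  have h1 := Fl_cop K h 1 2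
  rwa [pow_one] at h1

private theorem Fl_copm {m : Ideal (𝓞 K)} {v : HeightOneSpectrum (𝓞 K)} (h : ¬ m ≤ v.asIdeal) :
    IsCoprime v.asIdeal m := by
  rw [Ideal.isCoprime_iff_sup_eq]
  by_contra h1
  have h2 := v.isMaximal.eq_of_le h1 le_sup_left
  apply h
  rw [h2]
  exact le_sup_right

private theorem Fl_copm2 {m : Ideal (𝓞 K)} {v : HeightOneSpectrum (𝓞 K)} (h : ¬ m ≤ v.asIdeal) :
    IsCoprime (v.asIdeal ^ 2) m := (Fl_copm K h).pow_left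

private theorem Fl_pos (v : HeightOneSpectrum (𝓞 K)) : (0 : ℝ) < (Nv v : ℝ) := by
  have h := Sm_pos v
  exact_mod_cast Nat.pos_of_ne_zero h

theorem fam_lower_in (q₀ : HeightOneSpectrum (𝓞 K)) (h6 : (6 : 𝓞 K) ∉ q₀.asIdeal)
    {m : Ideal (𝓞 K)} (hm0 : m ≠ ⊥) (hmq : ¬ m ≤ q₀.asIdeal) {A₀ B₀ : 𝓞 K}
    (hm : ∀ v : HeightOneSpectrum (𝓞 K), m ≤ v.asIdeal →
      ((6 : 𝓞 K) ∉ v.asIdeal → dsc A₀ B₀ ∉ v.asIdeal) ∧ ((2 : 𝓞 K) ∈ v.asIdeal → B₀ ∉ v.asIdeal) ∧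
      ((3 : 𝓞 K) ∈ v.asIdeal → A₀ ∉ v.asIdeal)) :
    ∃ c : ℝ, 0 < c ∧ ∀ T : Finset (HeightOneSpectrum (𝓞 K)),
      (∀ v ∈ T, v ≠ q₀ ∧ (6 : 𝓞 K) ∉ v.asIdeal ∧ ¬ m ≤ v.asIdeal) → ∃ X₀ : ℝ, ∀ X : ℝ, X₀ ≤ X →
        c * (∏ v ∈ T, (1 / 2 * (1 - 1 / (Nv v : ℝ)))) * X ^ (5 * Module.finrank ℚ K) ≤
          ({p : 𝓞 K × 𝓞 K | p ∈ Bx K X ∧ Fam q₀ T p.1 p.2 ∧ p.1 - A₀ ∈ m ∧ p.2 - B₀ ∈ m ∧
            ∀ s : K →+* ℝ, 0 < s (p.1 : K)}.ncard : ℝ) := by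
  classical
  obtain ⟨C, hC1, hU⟩ := coset_upper K
  obtain ⟨c₁, hc₁, hL⟩ := coset_lower K
  obtain ⟨c₀, hc₀, hP⟩ := prod_lower K
  obtain ⟨c₂, hc₂⟩ : ∃ c₂ : ℝ, c₂ = c₁ ^ 2 / 4 ^ Module.finrank ℚ K := ⟨_, rfl⟩
  have hc₂p : 0 < c₂ := by
    rw [hc₂]
    positivity
  have hF6fin : {v : HeightOneSpectrum (𝓞 K) | (6 : 𝓞 K) ∈ v.asIdeal ∧ ¬ m ≤ v.asIdeal}.Finite :=
    (six_fin K).subset fun v hv => hv.1
  obtain ⟨F6, hF6⟩ : ∃ F6 : Finset (HeightOneSpectrum (𝓞 K)), ∀ v, v ∈ F6 ↔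
      ((6 : 𝓞 K) ∈ v.asIdeal ∧ ¬ m ≤ v.asIdeal) :=
    ⟨hF6fin.toFinset, fun v => hF6fin.mem_toFinset⟩
  obtain ⟨d1, hd1⟩ : ∃ d1 : ℝ, d1 = 1 / (Nv q₀ : ℝ) ^ 2 := ⟨_, rfl⟩
  obtain ⟨d3, hd3⟩ : ∃ d3 : ℝ, d3 = ∏ v ∈ F6, (1 / (Nv v : ℝ) ^ 2) := ⟨_, rfl⟩
  obtain ⟨d5, hd5⟩ : ∃ d5 : ℝ, d5 = 1 / (Ideal.absNorm m : ℝ) ^ 2 := ⟨_, rfl⟩
  have hd1p : 0 < d1 := by
    rw [hd1]
    exact div_pos one_pos (pow_pos (Fl_pos K q₀) 2)
  have hd3p : 0 < d3 := by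
    rw [hd3]
    exact Finset.prod_pos fun v _ => div_pos one_pos (pow_pos (Fl_pos K v) 2)
  have hd5p : 0 < d5 := by
    rw [hd5]
    have h1 : Ideal.absNorm m ≠ 0 := fun h => hm0 (Ideal.absNorm_eq_zero_iff.1 h)
    have h2 : (0 : ℝ) < (Ideal.absNorm m : ℝ) := by exact_mod_cast Nat.pos_of_ne_zero h1
    positivity
  refine ⟨c₂ * (d1 * d3 * c₀ * d5) / 2, by positivity, fun T hT => ?_⟩
  have hT' : ∀ v ∈ T, v ≠ q₀ ∧ (6 : 𝓞 K) ∉ v.asIdeal := fun v hv => ⟨(hT v hv).1, (hT v hv).2.1⟩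
  obtain ⟨d2, hd2⟩ : ∃ d2 : ℝ, d2 = ∏ v ∈ T, (1 / 2 * (1 - 1 / (Nv v : ℝ))) := ⟨_, rfl⟩
  rw [← hd2]
  have hT5 : ∀ v ∈ T, 0 < 1 / 2 * (1 - 1 / (Nv v : ℝ)) := by
    intro v hv
    have h1 : (5 : ℝ) ≤ (Nv v : ℝ) := by exact_mod_cast five_le K (hT' v hv).2
    have h2 : 1 / (Nv v : ℝ) < 1 := by
      rw [div_lt_one (by linarith)]
      linarith
    linarith
  have hd2p : 0 < d2 := by
    rw [hd2]
    exact Finset.prod_pos hT5
  obtain ⟨c, hc⟩ : ∃ c, c = c₂ * (d1 * d3 * c₀ * d5) / 2 := ⟨_, rfl⟩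
  rw [← hc]
  have hcp : 0 < c := by
    rw [hc]
    positivity
  obtain ⟨M, X₁, hM⟩ := tail_bound K (zero_le_one.trans hC1) hU (mul_pos hcp hd2p)
  have hfin : {v : HeightOneSpectrum (𝓞 K) | (6 : 𝓞 K) ∉ v.asIdeal ∧ v ≠ q₀ ∧ v ∉ T ∧
      ¬ m ≤ v.asIdeal ∧ Nv v ≤ M}.Finite := by
    refine (nv_finite K (M : ℝ)).subset ?_
    rintro v ⟨-, -, -, -, h⟩
    show ((Nv v : ℕ) : ℝ) ≤ (M : ℝ)
    exact_mod_cast h
  obtain ⟨FM, hFM⟩ : ∃ FM : Finset (HeightOneSpectrum (𝓞 K)), ∀ v, v ∈ FM ↔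
      ((6 : 𝓞 K) ∉ v.asIdeal ∧ v ≠ q₀ ∧ v ∉ T ∧ ¬ m ≤ v.asIdeal ∧ Nv v ≤ M) :=
    ⟨hfin.toFinset, fun v => hfin.mem_toFinset⟩
  obtain ⟨d4, hd4⟩ : ∃ d4 : ℝ, d4 = ∏ v ∈ FM, (1 - 3 / (Nv v : ℝ) ^ 2) := ⟨_, rfl⟩
  have hM5 : ∀ v ∈ FM, 0 ≤ 1 - 3 / (Nv v : ℝ) ^ 2 := by
    intro v hv
    have h1 : (5 : ℝ) ≤ (Nv v : ℝ) := by exact_mod_cast five_le K ((hFM v).1 hv).1
    have h2 : (25 : ℝ) ≤ (Nv v : ℝ) ^ 2 := by nlinarith
    have h3 : 3 / (Nv v : ℝ) ^ 2 ≤ 1 := by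
      rw [div_le_one (by linarith)]
      linarith
    linarith
  have hd4c : c₀ ≤ d4 := by
    rw [hd4]
    exact hP FM fun v hv => ((hFM v).1 hv).1
  have D1 := dens_q q₀
  rw [← hd1] at D1
  have D2 := dens_prod T (fun v => v.asIdeal) Pt (fun v => 1 / 2 * (1 - 1 / (Nv v : ℝ)))
    (fun v _ => v.ne_bot) (fun v _ w _ h => Fl_cop1 K h) (fun v hv => (hT5 v hv).le)
    (fun v hv => dens_t (hT' v hv).2)
  rw [← hd2] at D2
  have D3 := dens_prod F6 (fun v => v.asIdeal) P6 (fun v => 1 / (Nv v : ℝ) ^ 2)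
    (fun v _ => v.ne_bot) (fun v _ w _ h => Fl_cop1 K h)
    (fun v _ => (div_pos one_pos (pow_pos (Fl_pos K v) 2)).le) (fun v _ => dens_6 v)
  rw [← hd3] at D3
  have D4 := dens_prod FM (fun v => v.asIdeal ^ 2) Po (fun v => 1 - 3 / (Nv v : ℝ) ^ 2)
    (fun v _ => pow_ne_zero 2 v.ne_bot) (fun v _ w _ h => Fl_cop K h 2 2) hM5
    (fun v hv => dens_o ((hFM v).1 hv).1)
  rw [← hd4] at D4
  have D5 : Dens m {p : 𝓞 K × 𝓞 K | p.1 - A₀ ∈ m ∧ p.2 - B₀ ∈ m} d5 := by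
    rw [hd5]
    refine Dv_one hm0 ?_ ⟨(A₀, B₀), ?_⟩
    · rintro p p' hpp ⟨h1, h2⟩
      have h3 := (Dn_rs m p p').1 hpp
      constructor
      · have e := sub_mem h1 h3.1
        rwa [sub_sub_sub_cancel_left] at e
      · have e := sub_mem h2 h3.2
        rwa [sub_sub_sub_cancel_left] at e
    · constructor
      · show A₀ - A₀ ∈ m
        rw [sub_self]
        exact m.zero_mem
      · show B₀ - B₀ ∈ m
        rw [sub_self]
        exact m.zero_mem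
  have b2 : (∏ v ∈ T, v.asIdeal) ≠ (⊥ : Ideal (𝓞 K)) :=
    Finset.prod_ne_zero_iff.2 fun v _ => v.ne_bot
  have b3 : (∏ v ∈ F6, v.asIdeal) ≠ (⊥ : Ideal (𝓞 K)) :=
    Finset.prod_ne_zero_iff.2 fun v _ => v.ne_bot
  have b4 : (∏ v ∈ FM, v.asIdeal ^ 2) ≠ (⊥ : Ideal (𝓞 K)) :=
    Finset.prod_ne_zero_iff.2 fun v _ => pow_ne_zero 2 v.ne_bot
  have n6 : ∀ v ∈ F6, v ≠ q₀ := by
    rintro v hv rfl
    exact h6 ((hF6 _).1 hv).1
  have n7 : ∀ v ∈ F6, ∀ t ∈ T, t ≠ v := by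
    rintro v hv t ht rfl
    exact (hT' _ ht).2 ((hF6 _).1 hv).1
  have n8 : ∀ v ∈ FM, ∀ t ∈ T, t ≠ v := by
    rintro v hv t ht rfl
    exact ((hFM _).1 hv).2.2.1 ht
  have n9 : ∀ v ∈ FM, ∀ t ∈ F6, t ≠ v := by
    rintro v hv t ht rfl
    exact ((hFM _).1 hv).1 ((hF6 _).1 ht).1
  have D12 := dens_mul q₀.ne_bot b2 (IsCoprime.prod_right fun v hv =>
    Fl_cop1 K (hT' v hv).1.symm) hd1p.le hd2p.le D1 D2
  have b12 : q₀.asIdeal * (∏ v ∈ T, v.asIdeal) ≠ (⊥ : Ideal (𝓞 K)) := mul_ne_zero q₀.ne_bot b2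
  have D123 := dens_mul b12 b3 (IsCoprime.prod_right fun v hv => IsCoprime.mul_left
    (Fl_cop1 K (n6 v hv).symm) (IsCoprime.prod_left fun t ht => Fl_cop1 K (n7 v hv t ht)))
    (mul_pos hd1p hd2p).le hd3p.le D12 D3
  have b123 : q₀.asIdeal * (∏ v ∈ T, v.asIdeal) * (∏ v ∈ F6, v.asIdeal) ≠ (⊥ : Ideal (𝓞 K)) :=
    mul_ne_zero b12 b3
  have D1234 := dens_mul b123 b4 (IsCoprime.prod_right fun v hv => IsCoprime.mul_left (IsCoprime.mul_left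
    (Fl_cop2 K ((hFM v).1 hv).2.1.symm)
    (IsCoprime.prod_left fun t ht => Fl_cop2 K (n8 v hv t ht)))
    (IsCoprime.prod_left fun t ht => Fl_cop2 K (n9 v hv t ht)))
    (mul_pos (mul_pos hd1p hd2p) hd3p).le (hc₀.le.trans hd4c) D123 D4
  have b1234 : q₀.asIdeal * (∏ v ∈ T, v.asIdeal) * (∏ v ∈ F6, v.asIdeal) *
      (∏ v ∈ FM, v.asIdeal ^ 2) ≠ (⊥ : Ideal (𝓞 K)) := mul_ne_zero b123 b4
  have D := dens_mul b1234 hm0 (IsCoprime.mul_left (IsCoprime.mul_left (IsCoprime.mul_left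
    (Fl_copm K hmq) (IsCoprime.prod_left fun t ht => Fl_copm K (hT t ht).2.2))
    (IsCoprime.prod_left fun t ht => Fl_copm K ((hF6 _).1 ht).2))
    (IsCoprime.prod_left fun t ht => Fl_copm2 K ((hFM _).1 ht).2.2.2.1))
    (mul_nonneg (mul_pos (mul_pos hd1p hd2p) hd3p).le (hc₀.le.trans hd4c)) hd5p.le D1234 D5
  obtain ⟨X₂, hX₂⟩ := dens_lower_pos hc₁.le hL (Bx_finite K) (mul_ne_zero b1234 hm0) D
  rw [← hc₂] at hX₂
  refine ⟨max (max X₁ X₂) 0, fun X hX => ?_⟩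
  have hX1 : X₁ ≤ X := ((le_max_left _ _).trans (le_max_left _ _)).trans hX
  have hX2 : X₂ ≤ X := ((le_max_right _ _).trans (le_max_left _ _)).trans hX
  have hX0 : 0 ≤ X := (le_max_right _ _).trans hX
  have e1 := hX₂ X hX2
  have e2 := hM X hX1
  obtain ⟨S1, hS1⟩ : ∃ S1 : Set (𝓞 K × 𝓞 K), S1 = {p : 𝓞 K × 𝓞 K | p ∈ Bx K X ∧
      Fam q₀ T p.1 p.2 ∧ p.1 - A₀ ∈ m ∧ p.2 - B₀ ∈ m ∧ ∀ s : K →+* ℝ, 0 < s (p.1 : K)} := ⟨_, rfl⟩
  obtain ⟨S2, hS2⟩ : ∃ S2 : Set (𝓞 K × 𝓞 K), S2 = {p : 𝓞 K × 𝓞 K | (p ∈ Bx K X ∧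
      ∀ s : K →+* ℝ, 0 < s (p.1 : K)) ∧ p ∈ Pq q₀ ∩ {p | ∀ v ∈ T, p ∈ Pt v} ∩
      {p | ∀ v ∈ F6, p ∈ P6 v} ∩ {p | ∀ v ∈ FM, p ∈ Po v} ∩
      {p : 𝓞 K × 𝓞 K | p.1 - A₀ ∈ m ∧ p.2 - B₀ ∈ m}} := ⟨_, rfl⟩
  rw [← hS1]
  rw [← hS2] at e1
  have hS : S1.Finite := by
    rw [hS1]
    exact (Bx_finite K X).subset fun p hp => hp.1
  have hTl : (Tail K M X).Finite := (Bx_finite K X).subset fun p hp => hp.1
  have hsub : S2 ⊆ S1 ∪ Tail K M X := by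
    rw [hS1, hS2]
    rintro p ⟨⟨hp, hpos⟩, ⟨⟨⟨hp1, hp2⟩, hp3⟩, hp4⟩, hp5, hp6⟩
    by_cases ht : p ∈ Tail K M X
    · exact Or.inr ht
    · exact Or.inl ⟨hp, fam_of_in h6 hT' hm hp hp1 hp2 hp5 hp6
        (fun v hv hv' => hp3 v ((hF6 v).2 ⟨hv, hv'⟩))
        (fun v a1 a2 a3 a4 a5 => hp4 v ((hFM v).2 ⟨a1, a2, a3, a4, a5⟩)) ht, hp5, hp6, hpos⟩
  have e3 := (Set.ncard_le_ncard hsub (hS.union hTl)).trans (Set.ncard_union_le _ _)
  have e4 : (S2.ncard : ℝ) ≤ (S1.ncard : ℝ) + ((Tail K M X).ncard : ℝ) := by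
    exact_mod_cast e3
  obtain ⟨Z, hZ⟩ : ∃ Z, Z = X ^ (5 * Module.finrank ℚ K) := ⟨_, rfl⟩
  have hZ0 : 0 ≤ Z := by
    rw [hZ]
    exact pow_nonneg hX0 _
  rw [← hZ] at e1 e2 ⊢
  have e5 : c₂ * (d1 * d2 * d3 * c₀ * d5) * Z ≤ c₂ * (d1 * d2 * d3 * d4 * d5) * Z := by
    refine mul_le_mul_of_nonneg_right (mul_le_mul_of_nonneg_left ?_ (by positivity)) hZ0
    exact mul_le_mul_of_nonneg_right (mul_le_mul_of_nonneg_left hd4c (by positivity)) hd5p.le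
  have e6 : c₂ * (d1 * d2 * d3 * c₀ * d5) * Z = 2 * (c * d2 * Z) := by
    rw [hc]
    ring
  linarith

end H36PP

end S_H36_PP_Flp

section S_H30_PN_Cn

set_option autoImplicit false
set_option linter.unusedSectionVars false
open scoped Classical

open WithZero NumberField IsDedekindDomain H38RT H76PP
open H38T1 (SC sc scu rep eo la si Pri OddP tp unif)

namespace H30PN

variable {K : Type} [Field K] [NumberField K]

/-- The auxiliary primes inside a given infinite set and the number of pairs in a residue class with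
totally positive `A` which are not bad (modification of `H76PP.Blocks.main`). -/
theorem main_in (H : Blocks K) {Z : Set (HeightOneSpectrum (𝓞 K))} (hZ : Z.Infinite)
    {m : Ideal (𝓞 K)} (hm0 : m ≠ ⊥) (hmZ : ∀ v ∈ Z, ¬ m ≤ v.asIdeal) {A₀ B₀ : 𝓞 K}
    (hm : ∀ v : HeightOneSpectrum (𝓞 K), m ≤ v.asIdeal →
      ((6 : 𝓞 K) ∉ v.asIdeal → dsc A₀ B₀ ∉ v.asIdeal) ∧ ((2 : 𝓞 K) ∈ v.asIdeal → B₀ ∉ v.asIdeal) ∧
      ((3 : 𝓞 K) ∈ v.asIdeal → A₀ ∉ v.asIdeal)) :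
    ∃ (q₀ : HeightOneSpectrum (𝓞 K))
    (T : Finset (HeightOneSpectrum (𝓞 K))) (c X₀ : ℝ), q₀ ∈ Z ∧ (6 : 𝓞 K) ∉ q₀.asIdeal ∧
      (∀ v ∈ T, v ∈ Z ∧ AuxP q₀ v) ∧ 0 < c ∧ ∀ X : ℝ, X₀ ≤ X →
        c * X ^ (5 * Module.finrank ℚ K) ≤
          ({p : 𝓞 K × 𝓞 K | p ∈ Bx K X ∧ Fam q₀ T p.1 p.2 ∧ (p.1 - A₀ ∈ m ∧ p.2 - B₀ ∈ m ∧
            ∀ s : K →+* ℝ, 0 < s (p.1 : K)) ∧ ¬ BadP T p.1 p.2}.ncard : ℝ) := by
  obtain ⟨q₀, hq₀, h6, hinf⟩ := H36PP.aux_primes_in hZ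
  obtain ⟨C₄, N₀, hC, hbad⟩ := H.bad
  obtain ⟨c₃, hc₃, hfam⟩ := H36PP.fam_lower_in K q₀ h6 hm0 (hmZ q₀ hq₀) hm
  -- the number of auxiliary primes
  obtain ⟨k, hk⟩ := exists_pow_lt_of_lt_one (x := c₃ / (2 * C₄)) (y := (0.55 : ℝ))
    (by positivity) (by norm_num)
  obtain ⟨T, hT, hTk⟩ := exists_T hinf (max N₀ 40) k
  obtain ⟨X₁, h1⟩ := hfam T (fun v hv => ⟨(hT v hv).1.2.2.1, (hT v hv).1.2.1,
    hmZ v (hT v hv).1.1⟩)
  obtain ⟨X₂, h2⟩ := hbad q₀ T (fun v hv => ⟨(le_max_left _ _).trans (hT v hv).2, (hT v hv).1.2.1⟩)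
  set P : ℝ := ∏ v ∈ T, (1 / 2 * (1 - 1 / (Nv v : ℝ))) with hP
  have hPpos : 0 < P := by
    refine Finset.prod_pos fun v hv => ?_
    have h3 : 40 ≤ Nv v := (le_max_right _ _).trans (hT v hv).2
    have h4 : (40 : ℝ) ≤ (Nv v : ℝ) := by exact_mod_cast h3
    have h5 : 1 / (Nv v : ℝ) ≤ 1 / 40 := one_div_le_one_div_of_le (by norm_num) h4
    nlinarith
  refine ⟨q₀, T, c₃ * P / 2, max (max X₁ X₂) 0, hq₀, h6, fun v hv => (hT v hv).1, by positivity, ?_⟩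
  intro X hX
  have hX1 : X₁ ≤ X := (le_max_left _ _).trans ((le_max_left _ _).trans hX)
  have hX2 : X₂ ≤ X := (le_max_right _ _).trans ((le_max_left _ _).trans hX)
  have hX0 : 0 ≤ X := (le_max_right _ _).trans hX
  have e1 := h1 X hX1
  have e2 := h2 X hX2
  have e3 := prod_ratio_le (T := T) (fun v hv => (le_max_right _ _).trans (hT v hv).2)
  rw [hTk, ← hP] at e3
  have hXp : 0 ≤ X ^ (5 * Module.finrank ℚ K) := by positivity
  have hk' : C₄ * 0.55 ^ k ≤ c₃ / 2 := by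
    have h7 : C₄ * 0.55 ^ k ≤ C₄ * (c₃ / (2 * C₄)) := mul_le_mul_of_nonneg_left hk.le hC.le
    have h8 : C₄ * (c₃ / (2 * C₄)) = c₃ / 2 := by field_simp
    rwa [h8] at h7
  have e4 : C₄ * (∏ v ∈ T, ((1 + 1 / (Nv v : ℝ)) ^ 2 / 4)) * X ^ (5 * Module.finrank ℚ K) ≤
      c₃ / 2 * P * X ^ (5 * Module.finrank ℚ K) := by
    refine mul_le_mul_of_nonneg_right ?_ hXp
    calc C₄ * (∏ v ∈ T, ((1 + 1 / (Nv v : ℝ)) ^ 2 / 4)) ≤ C₄ * (0.55 ^ k * P) :=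
          mul_le_mul_of_nonneg_left e3 hC.le
      _ = (C₄ * 0.55 ^ k) * P := by ring
      _ ≤ c₃ / 2 * P := mul_le_mul_of_nonneg_right hk' hPpos.le
  -- the family is the union of the bad and the good pairs
  have hfin : {p : 𝓞 K × 𝓞 K | p ∈ Bx K X ∧ Fam q₀ T p.1 p.2 ∧ (p.1 - A₀ ∈ m ∧ p.2 - B₀ ∈ m ∧
      ∀ s : K →+* ℝ, 0 < s (p.1 : K)) ∧ ¬ BadP T p.1 p.2}.Finite :=
    (H.fin X).subset fun p hp => hp.1
  have hfinb : {p : 𝓞 K × 𝓞 K | p ∈ Bx K X ∧ Fam q₀ T p.1 p.2 ∧ BadP T p.1 p.2}.Finite :=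
    (H.fin X).subset fun p hp => hp.1
  have e5 : ({p : 𝓞 K × 𝓞 K | p ∈ Bx K X ∧ Fam q₀ T p.1 p.2 ∧ p.1 - A₀ ∈ m ∧ p.2 - B₀ ∈ m ∧
        ∀ s : K →+* ℝ, 0 < s (p.1 : K)}.ncard : ℝ) ≤
      ({p : 𝓞 K × 𝓞 K | p ∈ Bx K X ∧ Fam q₀ T p.1 p.2 ∧ BadP T p.1 p.2}.ncard : ℝ) +
      ({p : 𝓞 K × 𝓞 K | p ∈ Bx K X ∧ Fam q₀ T p.1 p.2 ∧ (p.1 - A₀ ∈ m ∧ p.2 - B₀ ∈ m ∧
        ∀ s : K →+* ℝ, 0 < s (p.1 : K)) ∧ ¬ BadP T p.1 p.2}.ncard : ℝ) := by
    have h9 : {p : 𝓞 K × 𝓞 K | p ∈ Bx K X ∧ Fam q₀ T p.1 p.2 ∧ p.1 - A₀ ∈ m ∧ p.2 - B₀ ∈ m ∧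
        ∀ s : K →+* ℝ, 0 < s (p.1 : K)} ⊆
        {p : 𝓞 K × 𝓞 K | p ∈ Bx K X ∧ Fam q₀ T p.1 p.2 ∧ BadP T p.1 p.2} ∪
        {p : 𝓞 K × 𝓞 K | p ∈ Bx K X ∧ Fam q₀ T p.1 p.2 ∧ (p.1 - A₀ ∈ m ∧ p.2 - B₀ ∈ m ∧
          ∀ s : K →+* ℝ, 0 < s (p.1 : K)) ∧ ¬ BadP T p.1 p.2} := by
      rintro p ⟨h10, h11, h13⟩
      by_cases h12 : BadP T p.1 p.2
      · exact Or.inl ⟨h10, h11, h12⟩
      · exact Or.inr ⟨h10, h11, h13, h12⟩
    have h13 := (Set.ncard_le_ncard h9 (hfinb.union hfin)).trans (Set.ncard_union_le _ _)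
    exact_mod_cast h13
  have e6 : c₃ * P * X ^ (5 * Module.finrank ℚ K) =
      c₃ * P / 2 * X ^ (5 * Module.finrank ℚ K) + c₃ / 2 * P * X ^ (5 * Module.finrank ℚ K) := by
    ring
  linarith

/-- The pigeonhole argument for a general property `Gd` of the twisted pairs and a subfamily `P`
(modification of `H76PP.Blocks.result2`). -/
theorem count_gen (H : Blocks K) {q₀ : HeightOneSpectrum (𝓞 K)}
    {T : Finset (HeightOneSpectrum (𝓞 K))} (hT : ∀ v ∈ T, AuxP q₀ v)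
    (P Gd : 𝓞 K × 𝓞 K → Prop) {c X₀ : ℝ} (hc : 0 < c)
    (hmain : ∀ X : ℝ, X₀ ≤ X → c * X ^ (5 * Module.finrank ℚ K) ≤
      ({p : 𝓞 K × 𝓞 K | p ∈ Bx K X ∧ Fam q₀ T p.1 p.2 ∧ P p ∧ ¬ BadP T p.1 p.2}.ncard : ℝ))
    (hgood : ∀ p : 𝓞 K × 𝓞 K, Fam q₀ T p.1 p.2 → P p → ¬ BadP T p.1 p.2 →
      ∃ J ⊆ T, ∀ D : 𝓞 K, TwD q₀ J (D : K) → Gd (D ^ 2 * p.1, D ^ 3 * p.2)) :
    ∃ (c X₀ : ℝ), 0 < c ∧ ∀ X : ℝ, X₀ ≤ X →
    ∃ G : Finset (𝓞 K × 𝓞 K), (∀ p ∈ G, p ∈ Bx K X ∧ Gd p) ∧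
      (∀ p ∈ G, ∀ q ∈ G, p.1 ^ 3 * q.2 ^ 2 = q.1 ^ 3 * p.2 ^ 2 → p = q) ∧
      c * ((Bx K X).ncard : ℝ) ≤ (G.card : ℝ) := by
  obtain ⟨C, hC, hup⟩ := H.up
  obtain ⟨ε, X₁, hε, hε1, hsmall⟩ := H.small (δ := c / 2) (by positivity)
  obtain ⟨M, hM⟩ := exists_sub K hε hε1
  -- the twisting factors
  have htw : ∀ J : Finset (HeightOneSpectrum (𝓞 K)), ∃ D : 𝓞 K, J ⊆ T → TwD q₀ J (D : K) := by
    intro J
    by_cases hJ : J ⊆ T
    · obtain ⟨D, hD⟩ := H.tw (fun p hp => hT p (hJ hp))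
      exact ⟨D, fun _ => hD⟩
    · exact ⟨0, fun h => absurd h hJ⟩
  choose D hD using htw
  choose t ht using fun J => exists_bx (D J)
  set κ : ℝ := 1 + ∑ J ∈ T.powerset, |t J| with hκ
  have hκ1 : 1 ≤ κ := by
    have : 0 ≤ ∑ J ∈ T.powerset, |t J| := Finset.sum_nonneg fun _ _ => abs_nonneg _
    linarith
  have hκD : ∀ J ⊆ T, D J ∈ bx K κ := by
    intro J hJ
    refine bx_mono ?_ (ht J)
    have h1 : |t J| ≤ ∑ J ∈ T.powerset, |t J| :=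
      Finset.single_le_sum (f := fun J => |t J|) (fun _ _ => abs_nonneg _)
        (Finset.mem_powerset.2 hJ)
    have := le_abs_self (t J)
    linarith
  set n := Module.finrank ℚ K with hn
  refine ⟨(c / 2) / ((M + 1) * (2 ^ T.card * (C * κ ^ (5 * n)))), κ * max (max X₀ X₁) 1,
    by positivity, ?_⟩
  intro Y hY
  set X := Y / κ with hXdef
  have hκ0 : 0 < κ := by linarith
  have hYX : Y = κ * X := by rw [hXdef]; field_simp
  have hX : max (max X₀ X₁) 1 ≤ X := by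
    rw [hXdef, le_div_iff₀ hκ0, mul_comm]
    exact hY
  have hX0 : X₀ ≤ X := (le_max_left _ _).trans ((le_max_left _ _).trans hX)
  have hX1' : X₁ ≤ X := (le_max_right _ _).trans ((le_max_left _ _).trans hX)
  have hX1 : 1 ≤ X := (le_max_right _ _).trans hX
  have hY1 : 1 ≤ Y := by rw [hYX]; nlinarith
  -- the good pairs without small conjugates and the choice of the twisting factor
  set G₀ : Set (𝓞 K × 𝓞 K) := {p | p ∈ Bx K X ∧ Fam q₀ T p.1 p.2 ∧ P p ∧ ¬ BadP T p.1 p.2} with hG₀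
  set G : Set (𝓞 K × 𝓞 K) := {p | p ∈ G₀ ∧ ∀ s : K →+* ℂ, ε * X ^ 2 ≤ ‖s (p.1 : K)‖} with hG
  have hG₀fin : G₀.Finite := (H.fin X).subset fun p hp => hp.1
  have hGfin : G.Finite := hG₀fin.subset fun p hp => hp.1
  have hGcard : c / 2 * X ^ (5 * n) ≤ (G.ncard : ℝ) := by
    have h1 := hmain X hX0
    have h2 := hsmall X hX1'
    have hsfin : {p : 𝓞 K × 𝓞 K | p ∈ Bx K X ∧
        ∃ s : K →+* ℂ, ‖s (p.1 : K)‖ < ε * X ^ 2}.Finite := (H.fin X).subset fun p hp => hp.1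
    have h3 : G₀ ⊆ G ∪ {p : 𝓞 K × 𝓞 K | p ∈ Bx K X ∧
        ∃ s : K →+* ℂ, ‖s (p.1 : K)‖ < ε * X ^ 2} := by
      intro p hp
      by_cases h4 : ∀ s : K →+* ℂ, ε * X ^ 2 ≤ ‖s (p.1 : K)‖
      · exact Or.inl ⟨hp, h4⟩
      · push Not at h4
        exact Or.inr ⟨hp.1, h4⟩
    have h5 := (Set.ncard_le_ncard h3 (hGfin.union hsfin)).trans (Set.ncard_union_le _ _)
    have h6 : (G₀.ncard : ℝ) ≤ (G.ncard : ℝ) + ({p : 𝓞 K × 𝓞 K | p ∈ Bx K X ∧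
        ∃ s : K →+* ℂ, ‖s (p.1 : K)‖ < ε * X ^ 2}.ncard : ℝ) := by exact_mod_cast h5
    have h7 : c * X ^ (5 * n) = c / 2 * X ^ (5 * n) + c / 2 * X ^ (5 * n) := by ring
    linarith
  have hJ : ∀ p : 𝓞 K × 𝓞 K, ∃ J : Finset (HeightOneSpectrum (𝓞 K)), p ∈ G →
      J ⊆ T ∧ Gd (D J ^ 2 * p.1, D J ^ 3 * p.2) := by
    intro p
    by_cases hp : p ∈ G
    · obtain ⟨J, hJ, h1⟩ := hgood p hp.1.2.1 hp.1.2.2.1 hp.1.2.2.2
      exact ⟨J, fun _ => ⟨hJ, h1 (D J) (hD J hJ)⟩⟩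
    · exact ⟨∅, fun h => absurd h hp⟩
  choose J hJ using hJ
  -- pigeonhole
  have hpig : ∃ J₀ ∈ T.powerset, (G.ncard : ℝ) ≤
      2 ^ T.card * ({p ∈ hGfin.toFinset | J p = J₀}.card : ℝ) := by
    by_contra hcon
    push Not at hcon
    have h1 : hGfin.toFinset.card = ∑ J₀ ∈ T.powerset, {p ∈ hGfin.toFinset | J p = J₀}.card := by
      refine Finset.card_eq_sum_card_fiberwise fun p hp => ?_
      exact Finset.mem_coe.2 (Finset.mem_powerset.2 (hJ p (by simpa using hp)).1)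
    have h2 : (G.ncard : ℝ) = ∑ J₀ ∈ T.powerset,
        ({p ∈ hGfin.toFinset | J p = J₀}.card : ℝ) := by
      rw [Set.ncard_eq_toFinset_card G hGfin, h1]
      push_cast
      rfl
    have h3 : (2 : ℝ) ^ T.card * ∑ J₀ ∈ T.powerset, ({p ∈ hGfin.toFinset | J p = J₀}.card : ℝ) <
        ∑ J₀ ∈ T.powerset, (G.ncard : ℝ) := by
      rw [Finset.mul_sum]
      exact Finset.sum_lt_sum_of_nonempty ⟨∅, Finset.empty_mem_powerset _⟩ hcon
    rw [← h2, Finset.sum_const, Finset.card_powerset, nsmul_eq_mul] at h3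
    push_cast at h3
    exact lt_irrefl _ h3
  obtain ⟨J₀, hJ₀, hcard⟩ := hpig
  rw [Finset.mem_powerset] at hJ₀
  obtain ⟨G₁, hG₁, hcard₁, hinj₁⟩ := hM q₀ T X (by linarith)
    ({p ∈ hGfin.toFinset | J p = J₀}) (by
      intro p hp
      rw [Finset.mem_filter, Set.Finite.mem_toFinset] at hp
      exact ⟨hp.1.1.1, hp.1.1.2.1, hp.1.2⟩)
  -- the injection
  have hD0 : D J₀ ≠ 0 := by
    intro h0
    apply (hD J₀ hJ₀).ne
    rw [h0]
    exact map_zero (algebraMap (𝓞 K) K)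
  have hi : Set.InjOn (fun p : 𝓞 K × 𝓞 K => (D J₀ ^ 2 * p.1, D J₀ ^ 3 * p.2)) (G₁ : Set _) := by
    intro p _ p' _ hpp
    simp only [Prod.mk.injEq] at hpp
    exact Prod.ext (mul_left_cancel₀ (pow_ne_zero 2 hD0) hpp.1)
      (mul_left_cancel₀ (pow_ne_zero 3 hD0) hpp.2)
  refine ⟨G₁.image (fun p => (D J₀ ^ 2 * p.1, D J₀ ^ 3 * p.2)), ?_, ?_, ?_⟩
  · intro q hq
    rw [Finset.mem_image] at hq
    obtain ⟨p, hp, rfl⟩ := hq
    have hp' := hG₁ hp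
    rw [Finset.mem_filter, Set.Finite.mem_toFinset] at hp'
    obtain ⟨hpG, hpJ⟩ := hp'
    have h2 := hJ p hpG
    rw [hpJ] at h2
    refine ⟨⟨?_, ?_⟩, h2.2⟩
    · rw [hYX]
      exact bx_int_mul (hκD J₀ hJ₀) hpG.1.1.1
    · rw [hYX]
      exact bx_int_mul3 (hκD J₀ hJ₀) hpG.1.1.2
  · intro q hq q' hq' h
    rw [Finset.mem_image] at hq hq'
    obtain ⟨p, hp, rfl⟩ := hq
    obtain ⟨p', hp', rfl⟩ := hq'
    have h1 : p = p' := by
      refine hinj₁ p hp p' hp' ?_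
      have h2 : D J₀ ^ 12 * (p.1 ^ 3 * p'.2 ^ 2) = D J₀ ^ 12 * (p'.1 ^ 3 * p.2 ^ 2) := by
        change (D J₀ ^ 2 * p.1) ^ 3 * (D J₀ ^ 3 * p'.2) ^ 2 =
          (D J₀ ^ 2 * p'.1) ^ 3 * (D J₀ ^ 3 * p.2) ^ 2 at h
        linear_combination h
      exact mul_left_cancel₀ (pow_ne_zero 12 hD0) h2
    rw [h1]
  · rw [Finset.card_image_of_injOn hi]
    have h2 := hup Y hY1
    have hpow : Y ^ (5 * n) = κ ^ (5 * n) * X ^ (5 * n) := by rw [hYX, mul_pow]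
    have h3 : (({p ∈ hGfin.toFinset | J p = J₀}.card : ℕ) : ℝ) ≤ (M + 1) * (G₁.card : ℝ) := by
      have h4 : (({p ∈ hGfin.toFinset | J p = J₀}.card : ℕ) : ℝ) ≤ M * (G₁.card : ℝ) := by
        exact_mod_cast hcard₁
      have h5 : (0 : ℝ) ≤ (G₁.card : ℝ) := Nat.cast_nonneg _
      linarith
    calc (c / 2) / ((M + 1) * (2 ^ T.card * (C * κ ^ (5 * n)))) * ((Bx K Y).ncard : ℝ)
        ≤ (c / 2) / ((M + 1) * (2 ^ T.card * (C * κ ^ (5 * n)))) * (C * Y ^ (5 * n)) :=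
          mul_le_mul_of_nonneg_left h2 (by positivity)
      _ = (c / 2 * X ^ (5 * n)) / 2 ^ T.card / (M + 1) := by
          rw [hpow]
          field_simp
      _ ≤ (G.ncard : ℝ) / 2 ^ T.card / (M + 1) := by
          refine div_le_div_of_nonneg_right (div_le_div_of_nonneg_right hGcard (by positivity))
            (by positivity)
      _ ≤ ({p ∈ hGfin.toFinset | J p = J₀}.card : ℝ) / (M + 1) := by
          refine div_le_div_of_nonneg_right ?_ (by positivity)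
          rw [div_le_iff₀ (by positivity), mul_comm]
          exact hcard
      _ ≤ (G₁.card : ℝ) := by
          rw [div_le_iff₀ (by positivity), mul_comm]
          exact h3


end H30PN

end S_H30_PN_Cn

section S_H30_PN_Fi

set_option autoImplicit false
set_option linter.unusedSectionVars false
open scoped Classical

open WithZero NumberField IsDedekindDomain H38RT H76PP
open H38T1 (SC sc scu rep eo la si Pri OddP tp unif)

namespace H30PN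

/-- `N / K` is a Galois extension whose degree is a power of two, every ramified prime lies above `R` or
above two, and the primes of `S` and the primes above two split completely (`N` embeds into `K_v`). -/
structure AdmN (K : Type) {N : Type} [Field K] [NumberField K] [Field N] [NumberField N]
    [Algebra K N] (R S : Finset (HeightOneSpectrum (𝓞 K))) : Prop where
  gal : IsGalois K N
  two : ∃ r : ℕ, Module.finrank K N = 2 ^ r
  ram : ∀ V : HeightOneSpectrum (𝓞 N), (2 : 𝓞 K) ∉ (dn K V).asIdeal → H73P2.Ram K V → dn K V ∈ R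
  spl : ∀ v : HeightOneSpectrum (𝓞 K), (v ∈ S ∨ (2 : 𝓞 K) ∈ v.asIdeal) →
    ∃ ι : N →+* v.adicCompletion K, ∀ x : K,
      ι (algebraMap K N x) = algebraMap K (v.adicCompletion K) x

/-- The curve attached to the pair has finitely many points and no two-primary Tate-Shafarevich group over
all the fields between `K` and the admissible fields `N`. -/
def GoodN (K : Type) [Field K] [NumberField K] (R S : Finset (HeightOneSpectrum (𝓞 K)))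
    (p : 𝓞 K × 𝓞 K) : Prop :=
  4 * p.1 ^ 3 + 27 * p.2 ^ 2 ≠ 0 ∧
    ∀ (N : Type) [Field N] [NumberField N] [Algebra K N], AdmN K (N := N) R S →
      ∀ M : IntermediateField K N,
        Finite (⟨0, 0, 0, algebraMap K M p.1, algebraMap K M p.2⟩ :
          WeierstrassCurve M).toAffine.Point ∧
        Pool.Agent.H10.Sha2Trivial M
          (⟨0, 0, 0, algebraMap K M p.1, algebraMap K M p.2⟩ : WeierstrassCurve M)

variable {K : Type} [Field K] [NumberField K]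

theorem two_iff {v : HeightOneSpectrum (𝓞 K)} : v.valuation K 2 < 1 ↔ (2 : 𝓞 K) ∈ v.asIdeal := by
  have h := v.valuation_lt_one_iff_mem (K := K) (2 : 𝓞 K)
  have e : algebraMap (𝓞 K) K 2 = 2 := map_ofNat (algebraMap (𝓞 K) K) 2
  constructor
  · intro h1
    refine h.1 ?_
    change v.valuation K (algebraMap (𝓞 K) K 2) < 1
    rw [e]
    exact h1
  · intro h1
    rw [← e]
    exact h.2 h1

theorem ordSub : H73P2.OrdSub := by
  intro k L _ _ _ _ _ a b θ h v ha hb hd x hx hfx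
  exact H36MT.ord_sub_loc h ha hb hd hx hfx

theorem six_imp {v : HeightOneSpectrum (𝓞 K)} (h6 : (6 : 𝓞 K) ∉ v.asIdeal) :
    (2 : 𝓞 K) ∉ v.asIdeal := by
  intro h
  apply h6
  have : (6 : 𝓞 K) = 3 * 2 := by norm_num
  rw [this]
  exact v.asIdeal.mul_mem_left _ h

/-- the set of the primes above two -/
theorem exists_P2 (K : Type) [Field K] [NumberField K] :
    ∃ P : Finset (HeightOneSpectrum (𝓞 K)), ∀ v, v ∈ P ↔ (2 : 𝓞 K) ∈ v.asIdeal := by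
  have h : {v : HeightOneSpectrum (𝓞 K) | (2 : 𝓞 K) ∈ v.asIdeal}.Finite := by
    refine (H36PP.six_fin K).subset fun v hv => ?_
    have h6 : (6 : 𝓞 K) = 3 * 2 := by norm_num
    change (6 : 𝓞 K) ∈ v.asIdeal
    rw [h6]
    exact v.asIdeal.mul_mem_left _ hv
  exact ⟨h.toFinset, fun v => h.mem_toFinset⟩

/-- A member of the family which is not bad has a good twist. -/
theorem good_of {q₀ : HeightOneSpectrum (𝓞 K)} {T R : Finset (HeightOneSpectrum (𝓞 K))}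
    (hq : q₀ ∉ R) (hTR : ∀ v ∈ T, v ∉ R)
    (hR : ∀ v ∈ R, (2 : 𝓞 K) ∉ v.asIdeal) (hT : ∀ v ∈ T, AuxP q₀ v) {A B : 𝓞 K}
    (hF : Fam q₀ T A B) (hpos : ∀ s : K →+* ℝ, 0 < s (A : K)) (hNR : ∀ v ∈ R, NoRt K v A B)
    (hB : ¬ BadP T A B) :
    ∃ J ⊆ T, ∀ D : 𝓞 K, TwD q₀ J (D : K) → GoodN K R (insert q₀ T) (D ^ 2 * A, D ^ 3 * B) := by
  have hT' : ∀ v ∈ T, v ≠ q₀ ∧ (6 : 𝓞 K) ∉ v.asIdeal := fun v hv => ⟨(hT v hv).2.1, (hT v hv).1⟩
  have hdsc := hF.dsc_ne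
  obtain ⟨L₀, _, _, _, θ₀, hL₀⟩ := H24PD.exists_cub (K := K) (A := (A : K)) (B := (B : K))
    fun t => hF.no_root t
  obtain ⟨J, hJ, hbase⟩ := base_one hT' hF hB hL₀ (hr2 hL₀ hdsc)
  obtain ⟨P, hP⟩ := exists_P2 K
  refine ⟨J, hJ, fun D hD => ?_⟩
  have hD0 : (D : K) ≠ 0 := hD.ne
  obtain ⟨S, hS⟩ : ∃ S, S = insert q₀ (J ∪ P) := ⟨_, rfl⟩
  have hJS : J ⊆ S := fun v hv => by
    rw [hS]
    exact Finset.mem_insert_of_mem (Finset.mem_union_left _ hv)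
  have h2S : ∀ v : HeightOneSpectrum (𝓞 K), v.valuation K 2 < 1 → v ∈ S := fun v hv => by
    rw [hS]
    exact Finset.mem_insert_of_mem (Finset.mem_union_right _ ((hP v).2 (two_iff.1 hv)))
  have hBT := hbase (D : K) hD S hJS h2S
  have hCub := hL₀.twist hD0
  have e1 : ((D ^ 2 * A : 𝓞 K) : K) = (D : K) ^ 2 * (A : K) := by push_cast; rfl
  have e2 : ((D ^ 3 * B : 𝓞 K) : K) = (D : K) ^ 3 * (B : K) := by push_cast; rfl
  have hd6 : 4 * ((D : K) ^ 2 * (A : K)) ^ 3 + 27 * ((D : K) ^ 3 * (B : K)) ^ 2 =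
      (D : K) ^ 6 * (4 * (A : K) ^ 3 + 27 * (B : K) ^ 2) := by ring
  have hdK : 4 * ((D : K) ^ 2 * (A : K)) ^ 3 + 27 * ((D : K) ^ 3 * (B : K)) ^ 2 ≠ 0 := by
    rw [hd6]
    exact mul_ne_zero (pow_ne_zero 6 hD0) hdsc
  refine ⟨?_, ?_⟩
  · intro h4
    have h5 : (4 * ((D ^ 2 * A : 𝓞 K) : K) ^ 3 + 27 * ((D ^ 3 * B : 𝓞 K) : K) ^ 2) = 0 := by
      have h6 := congrArg (algebraMap (𝓞 K) K) h4
      simp only [map_add, map_mul, map_pow, map_ofNat, map_zero] at h6 ⊢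
      exact h6
    rw [e1, e2] at h5
    exact hdK h5
  · intro N _ _ _ hN M
    have _ := hN.gal
    obtain ⟨r, hr⟩ := hN.two
    have hin : ∀ v : HeightOneSpectrum (𝓞 K), v ∉ S → v ∉ J ∧ v ≠ q₀ ∧ (2 : 𝓞 K) ∉ v.asIdeal := by
      intro v hv
      rw [hS, Finset.mem_insert, Finset.mem_union, hP] at hv
      push Not at hv
      exact ⟨hv.2.1, hv.1, hv.2.2⟩
    have hmain := H73P2.rel_main (K := K) (N := N) ordSub hr h2S
      (a := (D : K) ^ 2 * (A : K)) (b := (D : K) ^ 3 * (B : K)) hdK ?_ ?_ ?_ ?_ ?_ ?_ M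
    · change Finite (⟨0, 0, 0, algebraMap K M ((D ^ 2 * A : 𝓞 K) : K),
          algebraMap K M ((D ^ 3 * B : 𝓞 K) : K)⟩ : WeierstrassCurve M).toAffine.Point ∧
        Pool.Agent.H10.Sha2Trivial M (⟨0, 0, 0, algebraMap K M ((D ^ 2 * A : 𝓞 K) : K),
          algebraMap K M ((D ^ 3 * B : 𝓞 K) : K)⟩ : WeierstrassCurve M)
      rw [e1, e2]
      exact hmain
    · -- no root
      intro t ht
      apply hF.no_root (t / (D : K))
      have h3 : (D : K) ^ 3 * ((t / (D : K)) ^ 3 + (A : K) * (t / (D : K)) + (B : K)) = 0 := by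
        rw [← ht]
        field_simp
      exact (mul_eq_zero.1 h3).resolve_left (pow_ne_zero 3 hD0)
    · intro v hv
      obtain ⟨h1, h2, h3⟩ := hin v hv
      exact nice_of hF hD0 h3 (hD.even v h1 h2)
    · intro v hv
      refine hN.spl v ?_
      rw [hS, Finset.mem_insert, Finset.mem_union, hP] at hv
      rcases hv with h | h | h
      · exact Or.inl (by rw [h]; exact Finset.mem_insert_self _ _)
      · exact Or.inl (Finset.mem_insert_of_mem (hJ h))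
      · exact Or.inr h
    · intro s
      left
      rw [hd6, map_mul, map_pow, map_add, map_mul, map_mul, map_pow, map_pow, map_ofNat, map_ofNat]
      have h1 := hpos s
      have h2 := hD.pos s
      positivity
    · intro V hVS hV
      have h1 := hN.ram V (hin _ hVS).2.2 hV
      have h2 : dn K V ∉ J := fun h => hTR _ (hJ h) h1
      have h3 : dn K V ≠ q₀ := fun h => hq (by rw [← h]; exact h1)
      exact noroot_of hD0 (hNR _ h1) (hD.even _ h2 h3)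
    · intro L _ _ _ θ hL
      have h1 := bt_iso hCub hL hBT
      intro d hd
      refine h1 d hd.ne hd.sq ?_ ?_ hd.real
      · intro w hw
        refine hd.even w ?_
        rw [H73P2.dn_dn]
        exact hw
      · intro v hv
        exact hd.loc v hv _ (fun x => rfl)

/-- The final theorem. -/
theorem main_N (K : Type) [Field K] [NumberField K] (R : Finset (HeightOneSpectrum (𝓞 K)))
    (hR : ∀ v ∈ R, (2 : 𝓞 K) ∉ v.asIdeal) (Z : Set (HeightOneSpectrum (𝓞 K)))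
    (hZ : Z.Infinite) : ∃ (T : Finset (HeightOneSpectrum (𝓞 K))) (c X₀ : ℝ),
      (∀ v ∈ T, v ∈ Z) ∧ 0 < c ∧ ∀ X : ℝ, X₀ ≤ X →
        ∃ G : Finset (𝓞 K × 𝓞 K), (∀ p ∈ G, p ∈ Bx K X ∧ GoodN K R T p) ∧
          (∀ p ∈ G, ∀ q ∈ G, p.1 ^ 3 * q.2 ^ 2 = q.1 ^ 3 * p.2 ^ 2 → p = q) ∧
          c * ((Bx K X).ncard : ℝ) ≤ (G.card : ℝ) := by
  have H : Blocks K := blocks_of_HR2 K fun h hd => hr2 h hd
  obtain ⟨m, A₀, B₀, hm0, hmR, hm, hcl⟩ := exists_class R hR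
  have hZ' : (Z \ (R : Set (HeightOneSpectrum (𝓞 K)))).Infinite := hZ.sdiff R.finite_toSet
  obtain ⟨q₀, T, c, X₀, hq₀, -, hT, hc, hmain⟩ := main_in H hZ' hm0
    (fun v hv h => hv.2 (hmR v h)) hm
  obtain ⟨c', X₁, hc', h⟩ := count_gen H (fun v hv => (hT v hv).2)
    (fun p => p.1 - A₀ ∈ m ∧ p.2 - B₀ ∈ m ∧ ∀ s : K →+* ℝ, 0 < s (p.1 : K))
    (GoodN K R (insert q₀ T)) hc hmain (fun p hF hP hB =>
      good_of (fun h => hq₀.2 h) (fun v hv h => (hT v hv).1.2 h) hR (fun v hv => (hT v hv).2) hF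
        hP.2.2 (hcl _ _ hP.1 hP.2.1) hB)
  refine ⟨insert q₀ T, c', X₁, fun v hv => ?_, hc', h⟩
  rw [Finset.mem_insert] at hv
  rcases hv with h | h
  · rw [h]
    exact hq₀.1
  · exact (hT v h).1.1

theorem ram_fin (K N : Type) [Field K] [NumberField K] [Field N] [NumberField N] [Algebra K N] :
    {V : HeightOneSpectrum (𝓞 N) | H73P2.Ram K V}.Finite := by
  have h1 : {v : HeightOneSpectrum (𝓞 N) | v.asIdeal ∣ differentIdeal (𝓞 K) (𝓞 N)}.Finite := by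
    refine Ideal.finite_factors ?_
    exact differentIdeal_ne_bot
  refine h1.subset fun V hV => ?_
  change V.asIdeal ∣ _
  by_contra h
  have h2 : Algebra.IsUnramifiedAt (𝓞 K) V.asIdeal := not_dvd_differentIdeal_iff.1 h
  have h3 := Ideal.ramificationIdx_eq_one V.asIdeal (𝓞 K)
  have h4 : (dn K V).asIdeal.map (algebraMap (𝓞 K) (𝓞 N)) ≤ V.asIdeal ^ 2 := hV
  have hlo : V.asIdeal.LiesOver (dn K V).asIdeal := ⟨rfl⟩
  have hinj : Function.Injective (algebraMap (𝓞 K) (𝓞 N)) := by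
    intro x y hxy
    apply RingOfIntegers.ext
    have h5 := congrArg (fun z : 𝓞 N => (z : N)) hxy
    exact (algebraMap K N).injective h5
  have hb : (dn K V).asIdeal.map (algebraMap (𝓞 K) (𝓞 N)) ≠ ⊥ := by
    intro h5
    exact (dn K V).ne_bot ((Ideal.map_eq_bot_iff_of_injective hinj).1 h5)
  rw [← Ideal.ramificationIdx'_eq_ramificationIdx (dn K V).asIdeal V.asIdeal (dn K V).ne_bot] at h3
  have h5 := Ideal.IsDedekindDomain.ramificationIdx'_eq_normalizedFactors_count hb V.isPrime V.ne_bot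
  rw [h3] at h5
  have h6 : V.asIdeal ^ 2 ∣ (dn K V).asIdeal.map (algebraMap (𝓞 K) (𝓞 N)) := Ideal.dvd_iff_le.2 h4
  have hV2 : V.asIdeal ^ 2 ≠ 0 := pow_ne_zero 2 V.ne_bot
  have h7 := (UniqueFactorizationMonoid.dvd_iff_normalizedFactors_le_normalizedFactors hV2 hb).1 h6
  have h8 := Multiset.count_le_of_le V.asIdeal h7
  rw [← h5, UniqueFactorizationMonoid.normalizedFactors_pow, Multiset.count_nsmul,
    UniqueFactorizationMonoid.normalizedFactors_irreducible V.irreducible, normalize_eq,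
    Multiset.count_singleton_self] at h8
  omega
/-- A given field `N`. -/
theorem main_fixed (K N : Type) [Field K] [NumberField K] [Field N] [NumberField N] [Algebra K N]
    [IsGalois K N] {r : ℕ} (hr : Module.finrank K N = 2 ^ r)
    (h2 : ∀ v : HeightOneSpectrum (𝓞 K), (2 : 𝓞 K) ∈ v.asIdeal →
      ∃ ι : N →+* v.adicCompletion K, ∀ x : K,
        ι (algebraMap K N x) = algebraMap K (v.adicCompletion K) x) :
    ∃ (c X₀ : ℝ), 0 < c ∧ ∀ X : ℝ, X₀ ≤ X →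
      ∃ G : Finset (𝓞 K × 𝓞 K), (∀ p ∈ G, p ∈ Bx K X ∧ 4 * p.1 ^ 3 + 27 * p.2 ^ 2 ≠ 0 ∧
        ∀ M : IntermediateField K N,
          Finite (⟨0, 0, 0, algebraMap K M p.1, algebraMap K M p.2⟩ :
            WeierstrassCurve M).toAffine.Point ∧
          Pool.Agent.H10.Sha2Trivial M
            (⟨0, 0, 0, algebraMap K M p.1, algebraMap K M p.2⟩ : WeierstrassCurve M)) ∧
        (∀ p ∈ G, ∀ q ∈ G, p.1 ^ 3 * q.2 ^ 2 = q.1 ^ 3 * p.2 ^ 2 → p = q) ∧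
        c * ((Bx K X).ncard : ℝ) ≤ (G.card : ℝ) := by
  obtain ⟨R, hR⟩ : ∃ R : Finset (HeightOneSpectrum (𝓞 K)), ∀ v, v ∈ R ↔
      ((2 : 𝓞 K) ∉ v.asIdeal ∧ ∃ V : HeightOneSpectrum (𝓞 N), H73P2.Ram K V ∧ dn K V = v) := by
    refine ⟨((ram_fin K N).toFinset.image (dn K)).filter fun v => (2 : 𝓞 K) ∉ v.asIdeal,
      fun v => ?_⟩
    rw [Finset.mem_filter, Finset.mem_image, and_comm]
    simp only [Set.Finite.mem_toFinset, Set.mem_ofPred_eq]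
  obtain ⟨T, c, X₀, hT, hc, h⟩ := main_N K R (fun v hv => ((hR v).1 hv).1) _ (split_inf K N)
  refine ⟨c, X₀, hc, fun X hX => ?_⟩
  obtain ⟨G, hG, hj, hcard⟩ := h X hX
  refine ⟨G, fun p hp => ⟨(hG p hp).1, (hG p hp).2.1, (hG p hp).2.2 N ⟨inferInstance, ⟨r, hr⟩, ?_, ?_⟩⟩,
    hj, hcard⟩
  · intro V h2V hV
    exact (hR _).2 ⟨h2V, V, hV, rfl⟩
  · rintro v (hv | hv)
    · exact hT v hv
    · exact h2 v hv

end H30PN

end S_H30_PN_Fi
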