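import Mathlib
import Pool.Agent.H10.GrHen
import Pool.Agent.H76.CQ.Qb

/-! This file joins several modules to save build time (Y1). -/

set_option autoImplicit false

section S_H36_LG_Df

set_option autoImplicit false
set_option linter.unusedSectionVars false
open scoped Classical

open WithZero NumberField IsDedekindDomain H76PP H36CY

namespace H36LG

section Alg

variable {F : Type*} [Field F]

/-- The number `4 a^3 + 27 b^2`. -/
def dl (a b : F) : F := 4 * a ^ 3 + 27 * b ^ 2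

/-- The element `x` of `F[T] / (T^3 + a T + b)`. -/
def cst (x : F) : Fin 3 → F := ![x, 0, 0]

/-- The element `T`. -/
def TT : Fin 3 → F := ![0, 1, 0]

/-- The element `x - T`. -/
def xT (x : F) : Fin 3 → F := ![x, -1, 0]

/-- The element `x - τ`. -/
def xt (τ : Fin 3 → F) (x : F) : Fin 3 → F := ![x - τ 0, -τ 1, -τ 2]

/-- The element `c 0 + c 1 τ + c 2 τ^2` of `F[T] / (T^3 + a T + b)`. -/
def ph (a b : F) (τ c : Fin 3 → F) : Fin 3 → F :=
  fun j => c 0 * cst (1 : F) j + c 1 * τ j + c 2 * m3 a b τ τ j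

/-- The element `τ` of `F[T] / (T^3 + a T + b)` is a root of `T^3 + A T + B`. -/
def Rt (a b A B : F) (τ : Fin 3 → F) : Prop :=
  ∀ j, m3 a b τ (m3 a b τ τ) j + A * τ j + cst B j = 0

end Alg

section Val

variable {F : Type*} [Field F] [Valued F (WithZero (Multiplicative ℤ))]

/-- The pair `(A, B)` is close to `(a, b)`, the element `τ` of `F[T] / (T^3 + a T + b)` is a root of
`T^3 + A T + B` and close to `T`; the precision is given by an element `ϖ` with `|ϖ| < 1` and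
`|ϖ| ≤ |4|`. -/
structure Near (ϖ a b A B : F) (τ : Fin 3 → F) : Prop where
  ia : Valued.v a ≤ 1
  ib : Valued.v b ≤ 1
  ne : dl a b ≠ 0
  w0 : ϖ ≠ 0
  w1 : Valued.v ϖ < 1
  w4 : Valued.v ϖ ≤ Valued.v (4 : F)
  dA : Valued.v (A - a) < Valued.v (ϖ ^ 2 * dl a b ^ 3)
  dB : Valued.v (B - b) < Valued.v (ϖ ^ 2 * dl a b ^ 3)
  rt : Rt a b A B τ
  nr : ∀ j, Valued.v (τ j - TT j) < Valued.v (ϖ ^ 2 * dl a b ^ 3)

/-- All coordinates have valuation at most `γ`. -/
def Bd (γ : WithZero (Multiplicative ℤ)) (z : Fin 3 → F) : Prop := ∀ j, Valued.v (z j) ≤ γ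

theorem v_nat (n : ℕ) : Valued.v (n : F) ≤ 1 := by
  induction n with
  | zero => rw [Nat.cast_zero, map_zero]; exact zero_le
  | succ n ih =>
    rw [Nat.cast_succ]
    exact Valuation.map_add_le _ ih (le_of_eq (map_one _))

theorem v_ofNat (n : ℕ) [n.AtLeastTwo] : Valued.v (OfNat.ofNat n : F) ≤ 1 := by
  exact_mod_cast v_nat (F := F) n

theorem v_dl {a b : F} (ha : Valued.v a ≤ 1) (hb : Valued.v b ≤ 1) : Valued.v (dl a b) ≤ 1 := by
  unfold dl
  refine Valuation.map_add_le _ ?_ ?_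
  · rw [map_mul, map_pow]
    exact mul_le_one' (v_ofNat 4) (pow_le_one' ha 3)
  · rw [map_mul, map_pow]
    exact mul_le_one' (v_ofNat 27) (pow_le_one' hb 2)

/-- The size of a product. -/
theorem m3_bd {a b : F} (ha : Valued.v a ≤ 1) (hb : Valued.v b ≤ 1) {γ δ : WithZero (Multiplicative ℤ)}
    {u v : Fin 3 → F} (hu : Bd γ u) (hv : Bd δ v) : Bd (γ * δ) (m3 a b u v) := by
  have h : ∀ i j, Valued.v (u i * v j) ≤ γ * δ := by
    intro i j
    rw [map_mul]
    exact mul_le_mul' (hu i) (hv j)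
  have ha' : ∀ x : F, Valued.v x ≤ γ * δ → Valued.v (a * x) ≤ γ * δ := by
    intro x hx
    rw [map_mul]
    exact (mul_le_mul' ha hx).trans_eq (one_mul _)
  have hb' : ∀ x : F, Valued.v x ≤ γ * δ → Valued.v (b * x) ≤ γ * δ := by
    intro x hx
    rw [map_mul]
    exact (mul_le_mul' hb hx).trans_eq (one_mul _)
  have h12 : Valued.v (u 1 * v 2 + u 2 * v 1) ≤ γ * δ := Valuation.map_add_le _ (h 1 2) (h 2 1)
  intro j
  fin_cases j
  · exact Valuation.map_sub_le _ (h 0 0) (hb' _ h12)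
  · exact Valuation.map_sub_le _ (Valuation.map_sub_le _ (Valuation.map_add_le _ (h 0 1) (h 1 0))
      (ha' _ h12)) (hb' _ (h 2 2))
  · exact Valuation.map_sub_le _ (Valuation.map_add_le _ (Valuation.map_add_le _ (h 0 2) (h 1 1))
      (h 2 0)) (ha' _ (h 2 2))

theorem bd_sub {γ : WithZero (Multiplicative ℤ)} {u v : Fin 3 → F} (hu : Bd γ u) (hv : Bd γ v) :
    Bd γ (fun j => u j - v j) := fun j => Valuation.map_sub_le _ (hu j) (hv j)

theorem bd_add {γ : WithZero (Multiplicative ℤ)} {u v : Fin 3 → F} (hu : Bd γ u) (hv : Bd γ v) :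
    Bd γ (fun j => u j + v j) := fun j => Valuation.map_add_le _ (hu j) (hv j)

end Val

section Alg2

variable {F : Type*} [Field F] {a b : F}

theorem m3_comm (u v : Fin 3 → F) : m3 a b u v = m3 a b v u := by
  funext j
  fin_cases j <;> simp [m3] <;> ring

theorem m3_assoc (u v w : Fin 3 → F) : m3 a b (m3 a b u v) w = m3 a b u (m3 a b v w) := by
  funext j
  fin_cases j <;> simp [m3] <;> ring

theorem m3_cst (c : F) (u : Fin 3 → F) (j : Fin 3) : m3 a b (cst c) u j = c * u j := by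
  fin_cases j <;> simp [m3, cst]

theorem m3_one (u : Fin 3 → F) : m3 a b (cst 1) u = u := by
  funext j
  rw [m3_cst, one_mul]

theorem m3_smul (c : F) (u v : Fin 3 → F) :
    m3 a b (fun j => c * u j) v = fun j => c * m3 a b u v j := by
  funext j
  fin_cases j <;> simp [m3] <;> ring

theorem m3_add (u v w : Fin 3 → F) :
    m3 a b (fun j => u j + v j) w = fun j => m3 a b u w j + m3 a b v w j := by
  funext j
  fin_cases j <;> simp [m3] <;> ring

theorem m3_sub (u v w : Fin 3 → F) :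
    m3 a b (fun j => u j - v j) w = fun j => m3 a b u w j - m3 a b v w j := by
  funext j
  fin_cases j <;> simp [m3] <;> ring

/-- An element with norm not zero is invertible. -/
theorem m3_inv {z : Fin 3 → F} (hz : Te_nf a b z ≠ 0) : ∃ w : Fin 3 → F, m3 a b z w = cst 1 := by
  refine ⟨fun j => (Te_nf a b z)⁻¹ * Te_C a b z j, ?_⟩
  rw [m3_comm, m3_smul, m3_comm, Te_m3_adj]
  funext j
  fin_cases j
  · exact inv_mul_cancel₀ hz
  · exact mul_zero _
  · exact mul_zero _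

theorem nf_xT (x : F) : Te_nf a b (xT x) = x ^ 3 + a * x + b := by
  simp [Te_nf, xT]
  ring

theorem nf_cst (x : F) : Te_nf a b (cst x) = x ^ 3 := by
  simp [Te_nf, cst]
  ring

end Alg2

end H36LG

end S_H36_LG_Df

section S_H36_LG_Fx

set_option autoImplicit false
set_option linter.unusedSectionVars false
open scoped Classical

open WithZero NumberField IsDedekindDomain H76PP H36CY Topology Filter

namespace H36LG

theorem Fx_pow_small {γ ρ x : WithZero (Multiplicative ℤ)} (hγ : γ < 1) (hx : x ≠ 0) :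
    ∃ N : ℕ, ∀ n, N ≤ n → γ ^ n * ρ < x := by
  by_cases hρ : ρ = 0
  · exact ⟨0, fun n _ => by rw [hρ, mul_zero]; exact zero_lt_iff.mpr hx⟩
  · have hx' : x / ρ ≠ 0 := div_ne_zero hx hρ
    obtain ⟨N, hN⟩ := exists_exp_neg_natCast_lt hx'
    refine ⟨N, fun n hn => ?_⟩
    have h1 : γ ^ n ≤ exp (-(N : ℤ)) := by
      calc γ ^ n ≤ γ ^ N := pow_le_pow_right_of_le_one' hγ.le hn
        _ ≤ (exp (-1 : ℤ)) ^ N := pow_le_pow_left' (Pool.Agent.H10.lt_one_le_exp hγ) N
        _ = exp (-(N : ℤ)) := by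
            rw [← exp_nsmul]
            congr 1
            simp
    have h2 : γ ^ n < x / ρ := lt_of_le_of_lt h1 hN
    rwa [lt_div_iff₀ (zero_lt_iff.mpr hρ)] at h2

theorem Fx_lim_le {F : Type*} [Field F] [Valued F (WithZero (Multiplicative ℤ))] {t : ℕ → F}
    {l c : F} {δ : WithZero (Multiplicative ℤ)} (ht : Tendsto t atTop (𝓝 l)) {N : ℕ}
    (h : ∀ m, N ≤ m → Valued.v (t m - c) ≤ δ) : Valued.v (l - c) ≤ δ := by
  by_contra hcon
  have hlt := not_le.1 hcon
  have hne : l - c ≠ 0 := by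
    intro h0
    rw [h0, map_zero] at hlt
    exact not_lt_zero hlt
  have h1 := ht.eventually (Te_nhd l hne)
  obtain ⟨m, hm1, hm2⟩ := (h1.and (eventually_ge_atTop N)).exists
  have hm1' : Valued.v (t m - l) < Valued.v (l - c) := hm1
  have h2 : Valued.v (t m - c) = Valued.v (l - c) := by
    have e : t m - c = (l - c) + (t m - l) := by ring
    rw [e]
    exact Valuation.map_add_eq_of_lt_left _ hm1'
  exact absurd (h m hm2) (not_le.2 (h2 ▸ hlt))

theorem fix_pt {F : Type*} [Field F] [Valued F (WithZero (Multiplicative ℤ))] [CompleteSpace F]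
    {ι : Type} [Finite ι] (G : (ι → F) → ι → F) {ρ γ : WithZero (Multiplicative ℤ)} (hγ : γ < 1)
    (h0 : ∀ j, Valued.v (G 0 j) ≤ ρ)
    (hG : ∀ Y Z : ι → F, (∀ j, Valued.v (Y j) ≤ ρ) → (∀ j, Valued.v (Z j) ≤ ρ) →
      ∀ δ : WithZero (Multiplicative ℤ), (∀ j, Valued.v (Y j - Z j) ≤ δ) →
        ∀ j, Valued.v (G Y j - G Z j) ≤ γ * δ) :
    ∃ Y : ι → F, (∀ j, Valued.v (Y j) ≤ ρ) ∧ G Y = Y := by
  let S : ℕ → ι → F := fun n => G^[n] 0
  have hS0 : S 0 = 0 := rfl
  have hS1 : ∀ n, S (n + 1) = G (S n) := fun n => Function.iterate_succ_apply' G n 0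
  have hz : ∀ j, Valued.v ((0 : ι → F) j) ≤ ρ := fun j => by
    rw [Pi.zero_apply, map_zero]; exact zero_le
  have hγρ : γ * ρ ≤ ρ := by
    calc γ * ρ ≤ 1 * ρ := mul_le_mul' hγ.le le_rfl
      _ = ρ := one_mul _
  have hball : ∀ n j, Valued.v (S n j) ≤ ρ := by
    intro n
    induction n with
    | zero => intro j; rw [hS0]; exact hz j
    | succ n ih =>
      intro j
      rw [hS1]
      have e : G (S n) j = (G (S n) j - G 0 j) + G 0 j := by ring
      rw [e]
      refine (Valuation.map_add _ _ _).trans (max_le ?_ (h0 j))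
      refine (hG (S n) 0 ih hz ρ (fun i => ?_) j).trans hγρ
      rw [Pi.zero_apply, sub_zero]
      exact ih i
  have hstep : ∀ n j, Valued.v (S (n + 1) j - S n j) ≤ γ ^ n * ρ := by
    intro n
    induction n with
    | zero =>
      intro j
      rw [hS0, pow_zero, one_mul, Pi.zero_apply, sub_zero]
      exact hball 1 j
    | succ n ih =>
      intro j
      rw [hS1 (n + 1), hS1 n]
      rw [hS1 n] at ih
      have h1 := hG (G (S n)) (S n) (fun i => by rw [← hS1]; exact hball _ i) (hball n) _ ih j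
      rw [pow_succ', mul_assoc]
      exact h1
  have hfar : ∀ n k j, Valued.v (S (n + k) j - S n j) ≤ γ ^ n * ρ := by
    intro n k
    induction k with
    | zero => intro j; rw [add_zero, sub_self, map_zero]; exact zero_le
    | succ k ih =>
      intro j
      have e : S (n + (k + 1)) j - S n j = (S (n + k + 1) j - S (n + k) j) +
          (S (n + k) j - S n j) := by
        rw [← add_assoc]; ring
      rw [e]
      refine (Valuation.map_add _ _ _).trans (max_le ((hstep (n + k) j).trans ?_) (ih j))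
      exact mul_le_mul' (pow_le_pow_right_of_le_one' hγ.le (Nat.le_add_right _ _)) le_rfl
  have hcau : ∀ j, CauchySeq (fun n => S n j) := by
    intro j
    rw [CauchySeq, Valued.cauchy_iff]
    refine ⟨inferInstance, fun g => ?_⟩
    obtain ⟨N, hN⟩ := Fx_pow_small (ρ := ρ) hγ
      (x := MonoidWithZeroHom.ValueGroup₀.embedding g.1) (by simp)
    refine ⟨(fun n => S n j) '' Set.Ici N, Filter.image_mem_map (Filter.Ici_mem_atTop N), ?_⟩
    rintro _ ⟨m, hm, rfl⟩ _ ⟨n, hn, rfl⟩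
    rw [Valuation.restrict_lt_iff_lt_embedding]
    refine lt_of_le_of_lt ?_ (hN N le_rfl)
    have h1 := hfar N (m - N) j
    have h2 := hfar N (n - N) j
    rw [Nat.add_sub_cancel' hm] at h1
    rw [Nat.add_sub_cancel' hn] at h2
    have e : S n j - S m j = (S n j - S N j) - (S m j - S N j) := by ring
    show Valued.v (S n j - S m j) ≤ _
    rw [e]
    exact (Valuation.map_sub _ _ _).trans (max_le h2 h1)
  choose Y hY using fun j => cauchySeq_tendsto_of_complete (hcau j)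
  have hYball : ∀ j, Valued.v (Y j) ≤ ρ := by
    intro j
    have h1 := Fx_lim_le (hY j) (c := 0) (N := 0) (δ := ρ) (fun m _ => by
      rw [sub_zero]; exact hball m j)
    rwa [sub_zero] at h1
  have hYn : ∀ n j, Valued.v (Y j - S n j) ≤ γ ^ n * ρ := by
    intro n j
    refine Fx_lim_le (hY j) (N := n) (fun m hm => ?_)
    have h1 := hfar n (m - n) j
    rwa [Nat.add_sub_cancel' hm] at h1
  refine ⟨Y, hYball, ?_⟩
  funext j
  have hsmall : ∀ n, Valued.v (G Y j - Y j) ≤ γ ^ n * ρ := by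
    intro n
    have h1 := hG Y (S n) hYball (hball n) _ (hYn n) j
    have h2 := hYn (n + 1) j
    rw [hS1] at h2
    have h3 : γ * (γ ^ n * ρ) ≤ γ ^ n * ρ := by
      calc γ * (γ ^ n * ρ) ≤ 1 * (γ ^ n * ρ) := mul_le_mul' hγ.le le_rfl
        _ = _ := one_mul _
    have h4 : γ ^ (n + 1) * ρ ≤ γ ^ n * ρ := by
      rw [pow_succ', mul_assoc]; exact h3
    have e : G Y j - Y j = (G Y j - G (S n) j) - (Y j - G (S n) j) := by ring
    rw [e]
    exact (Valuation.map_sub _ _ _).trans (max_le (h1.trans h3) (h2.trans h4))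
  by_contra hne
  have hne' : Valued.v (G Y j - Y j) ≠ 0 := by
    rw [Valuation.ne_zero_iff]
    exact sub_ne_zero.2 hne
  obtain ⟨N, hN⟩ := Fx_pow_small (ρ := ρ) hγ hne'
  exact absurd (hsmall N) (not_le.2 (hN N le_rfl))

end H36LG

end S_H36_LG_Fx

section S_H36_LG_Qr

set_option autoImplicit false
set_option linter.unusedSectionVars false
open scoped Classical

open WithZero NumberField IsDedekindDomain H76PP H36CY

namespace H36LG

variable {F : Type*} [Field F] [Valued F (WithZero (Multiplicative ℤ))]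

theorem sqrt3 [CompleteSpace F] {a b : F} (ha : Valued.v a ≤ 1) (hb : Valued.v b ≤ 1)
    (h2 : (2 : F) ≠ 0) {z : Fin 3 → F} (hz : ∀ j, Valued.v (z j - cst 1 j) < Valued.v (4 : F)) :
    ∃ s : Fin 3 → F, m3 a b s s = z := by
  have h4 : (4 : F) ≠ 0 := by
    have : (4 : F) = 2 * 2 := by norm_num
    rw [this]
    exact mul_ne_zero h2 h2
  have hv4 : Valued.v (4 : F) ≠ 0 := (Valuation.ne_zero_iff _).2 h4
  set c : Fin 3 → F := fun j => (z j - cst 1 j) / 4 with hc
  have hcb : Bd (exp (-1 : ℤ)) c := by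
    intro j
    apply Pool.Agent.H10.lt_one_le_exp
    rw [hc]
    simp only
    rw [map_div₀]
    exact (div_lt_one₀ (zero_lt_iff.2 hv4)).2 (hz j)
  have hlt : (exp (-1 : ℤ)) < (1 : WithZero (Multiplicative ℤ)) := by
    rw [← exp_zero]
    exact exp_lt_exp.2 (by norm_num)
  obtain ⟨t, ht, hG⟩ := fix_pt (F := F) (ι := Fin 3) (fun t j => c j - m3 a b t t j)
    (ρ := exp (-1 : ℤ)) (γ := exp (-1 : ℤ)) hlt
    (by
      intro j
      have : m3 a b (0 : Fin 3 → F) 0 j = 0 := by fin_cases j <;> simp [m3]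
      simp only [this, sub_zero]
      exact hcb j)
    (by
      intro Y Z hY hZ δ hδ j
      have h1 : (c j - m3 a b Y Y j) - (c j - m3 a b Z Z j)
          = - m3 a b (fun j => Y j + Z j) (fun j => Y j - Z j) j := by
        fin_cases j <;> simp [m3] <;> ring
      simp only [h1]
      rw [Valuation.map_neg]
      exact m3_bd ha hb (bd_add hY hZ) hδ j)
  refine ⟨fun j => cst 1 j + 2 * t j, ?_⟩
  funext j
  have h1 : m3 a b (fun j => cst 1 j + 2 * t j) (fun j => cst 1 j + 2 * t j) j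
      = cst 1 j + 4 * t j + 4 * m3 a b t t j := by
    fin_cases j <;> simp [m3, cst] <;> ring
  rw [h1]
  have h3 := congrFun hG j
  simp only [hc] at h3
  field_simp at h3
  linear_combination -h3

end H36LG

end S_H36_LG_Qr

section S_H36_LG_Na

set_option autoImplicit false
set_option linter.unusedSectionVars false
open scoped Classical

open WithZero NumberField IsDedekindDomain H76PP H36CY

namespace H36LG

variable {F : Type*} [Field F] [Valued F (WithZero (Multiplicative ℤ))]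

theorem near1 [CompleteSpace F] [CharZero F] {ϖ a b A B : F} {τ : Fin 3 → F} (h : Near ϖ a b A B τ)
    {x : F} (hx : 1 < Valued.v x ∨ Valued.v x ≤ 1 ∧
      Valued.v (ϖ * dl a b ^ 3) ≤ Valued.v (x ^ 3 + a * x + b)) :
    ∃ r : Fin 3 → F, m3 a b r r = m3 a b (xt τ x) (xT x) := by
  have h4 : (4 : F) ≠ 0 := by norm_num
  have h2 : (2 : F) ≠ 0 := by norm_num
  have hd3 : ϖ * dl a b ^ 3 ≠ 0 := mul_ne_zero h.w0 (pow_ne_zero 3 h.ne)
  have hv4 : Valued.v (ϖ ^ 2 * dl a b ^ 3) ≤ Valued.v (4 : F) * Valued.v (ϖ * dl a b ^ 3) := by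
    have h1 : (ϖ ^ 2 * dl a b ^ 3 : F) = ϖ * (ϖ * dl a b ^ 3) := by ring
    rw [h1, map_mul]
    exact mul_le_mul' h.w4 le_rfl
  have hle1 : Valued.v (ϖ * dl a b ^ 3) ≤ 1 := by
    rw [map_mul, map_pow]
    exact mul_le_one' h.w1.le (pow_le_one' (v_dl h.ia h.ib) 3)
  obtain ⟨γ, hγ, hB⟩ : ∃ γ : WithZero (Multiplicative ℤ), γ < Valued.v (ϖ ^ 2 * dl a b ^ 3) ∧
      Bd γ (fun j => (TT j : F) - τ j) := by
    have h' : ∀ j, Valued.v ((TT j : F) - τ j) < Valued.v (ϖ ^ 2 * dl a b ^ 3) := by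
      intro j
      rw [Valuation.map_sub_swap]
      exact h.nr j
    refine ⟨max (Valued.v ((TT 0 : F) - τ 0)) (max (Valued.v ((TT 1 : F) - τ 1))
      (Valued.v ((TT 2 : F) - τ 2))), max_lt (h' 0) (max_lt (h' 1) (h' 2)), ?_⟩
    intro j
    fin_cases j
    · exact le_max_left _ _
    · exact (le_max_left _ _).trans (le_max_right _ _)
    · exact (le_max_right _ _).trans (le_max_right _ _)
  obtain ⟨f, hf⟩ : ∃ f : F, f = x ^ 3 + a * x + b := ⟨_, rfl⟩
  rw [← hf] at hx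
  obtain ⟨C, hCd⟩ : ∃ C : Fin 3 → F, C = ![x ^ 2 + a, x, 1] := ⟨_, rfl⟩
  have hC : m3 a b (xT x) C = cst f := by
    rw [hCd, hf]
    funext j
    fin_cases j <;> simp [m3, xT, cst] <;> ring
  have key : ∃ δ : WithZero (Multiplicative ℤ), Bd δ C ∧ f ≠ 0 ∧
      γ * δ < Valued.v (4 : F) * Valued.v f := by
    rcases hx with hx | ⟨hx, hx'⟩
    · have hx2 : 1 ≤ Valued.v x ^ 2 := one_le_pow₀ hx.le
      have hp : 0 < Valued.v x := lt_trans zero_lt_one hx
      have hfv : Valued.v f = Valued.v x ^ 3 := by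
        have h1 : Valued.v (a * x + b) < Valued.v (x ^ 3) := by
          have h3 : Valued.v (a * x + b) ≤ Valued.v x := by
            refine Valuation.map_add_le _ ?_ (h.ib.trans hx.le)
            rw [map_mul]
            exact (mul_le_mul' h.ia le_rfl).trans_eq (one_mul _)
          refine lt_of_le_of_lt h3 ?_
          rw [map_pow]
          exact lt_self_pow₀ hx (by norm_num)
        rw [hf, add_assoc, Valuation.map_add_eq_of_lt_left _ h1, map_pow]
      refine ⟨Valued.v x ^ 2, ?_, ?_, ?_⟩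
      · intro j
        rw [hCd]
        fin_cases j
        · refine Valuation.map_add_le _ ?_ (h.ia.trans hx2)
          rw [map_pow]
        · exact le_self_pow₀ hx.le (by norm_num)
        · exact (le_of_eq (map_one _)).trans hx2
      · intro h0
        rw [h0, map_zero] at hfv
        exact absurd hfv.symm (pow_pos hp 3).ne'
      · rw [hfv]
        have h5 : γ < Valued.v (4 : F) := by
          refine lt_of_lt_of_le hγ (hv4.trans ?_)
          exact (mul_le_mul' le_rfl hle1).trans_eq (mul_one _)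
        refine lt_of_le_of_lt (mul_le_mul' le_rfl (pow_le_pow_right₀ hx.le (by norm_num : 2 ≤ 3))) ?_
        exact mul_lt_mul_of_pos_right h5 (pow_pos hp 3)
    · have hvp : 0 < Valued.v (ϖ * dl a b ^ 3) := by
        rw [zero_lt_iff]
        exact (Valuation.ne_zero_iff _).2 hd3
      refine ⟨1, ?_, ?_, ?_⟩
      · intro j
        rw [hCd]
        fin_cases j
        · refine Valuation.map_add_le _ ?_ h.ia
          rw [map_pow]
          exact pow_le_one' hx 2
        · exact hx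
        · exact le_of_eq (map_one _)
      · intro h0
        rw [h0, map_zero] at hx'
        exact absurd (lt_of_lt_of_le hvp hx') (lt_irrefl _)
      · rw [mul_one]
        refine lt_of_lt_of_le hγ (hv4.trans ?_)
        exact mul_le_mul' le_rfl hx'
  obtain ⟨δ, hδ, hf0, hlt⟩ := key
  have hvf : 0 < Valued.v f := by
    rw [zero_lt_iff]
    exact (Valuation.ne_zero_iff _).2 hf0
  have hw : ∀ j, f⁻¹ * m3 a b (xt τ x) C j - cst 1 j =
      f⁻¹ * m3 a b (fun j => (TT j : F) - τ j) C j := by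
    intro j
    have h1 : xt τ x = fun j => xT x j + ((TT j : F) - τ j) := by
      funext i
      fin_cases i <;> simp [xt, xT, TT] <;> ring
    rw [h1]
    have h2 := congrFun (m3_add (a := a) (b := b) (xT x) (fun j => (TT j : F) - τ j) C) j
    rw [h2, hC]
    have h3 : cst (1 : F) j = f⁻¹ * cst f j := by
      fin_cases j
      · exact (inv_mul_cancel₀ hf0).symm
      · exact (mul_zero _).symm
      · exact (mul_zero _).symm
    rw [h3]
    ring
  obtain ⟨t, ht⟩ := sqrt3 h.ia h.ib h2 (z := fun j => f⁻¹ * m3 a b (xt τ x) C j) (by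
    intro j
    rw [hw j, map_mul, map_inv₀]
    have h1 := m3_bd h.ia h.ib hB hδ j
    have h3 : (Valued.v f)⁻¹ * Valued.v (m3 a b (fun j => (TT j : F) - τ j) C j) ≤
        (Valued.v f)⁻¹ * (γ * δ) := mul_le_mul' le_rfl h1
    refine lt_of_le_of_lt h3 ?_
    have h4 : (Valued.v f)⁻¹ * (γ * δ) < (Valued.v f)⁻¹ * (Valued.v (4 : F) * Valued.v f) :=
      mul_lt_mul_of_pos_left hlt (inv_pos.2 hvf)
    refine lt_of_lt_of_eq h4 ?_
    rw [mul_comm (Valued.v (4 : F)), inv_mul_cancel_left₀ hvf.ne'])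
  refine ⟨m3 a b t (xT x), ?_⟩
  have e1 : m3 a b (m3 a b t (xT x)) (m3 a b t (xT x)) =
      m3 a b (m3 a b t t) (m3 a b (xT x) (xT x)) := by
    rw [m3_assoc, ← m3_assoc (xT x) t (xT x), m3_comm (xT x) t, m3_assoc t (xT x) (xT x),
      ← m3_assoc]
  rw [e1, ht, m3_smul, m3_assoc, ← m3_assoc C, m3_comm C (xT x), hC]
  have e2 : m3 a b (cst f) (xT x) = fun j => f * xT x j := funext (fun j => m3_cst f (xT x) j)
  rw [e2, m3_comm (xt τ x), m3_smul, m3_comm (xT x)]
  funext j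
  exact inv_mul_cancel_left₀ hf0 _

end H36LG

end S_H36_LG_Na

section S_H36_LG_Hc

set_option autoImplicit false
set_option linter.unusedSectionVars false
open scoped Classical

open WithZero NumberField IsDedekindDomain H76PP H36CY

namespace H36LG

variable {F : Type*} [Field F] [Valued F (WithZero (Multiplicative ℤ))]

theorem v_ml1 {x y : F} (hx : Valued.v x ≤ 1) (hy : Valued.v y ≤ 1) : Valued.v (x * y) ≤ 1 := by
  rw [map_mul]
  exact mul_le_one' hx hy

theorem v_pw1 {x : F} (hx : Valued.v x ≤ 1) (n : ℕ) : Valued.v (x ^ n) ≤ 1 := by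
  rw [map_pow]
  exact pow_le_one' hx n

theorem v_mlr {x y : F} {ρ : WithZero (Multiplicative ℤ)} (hx : Valued.v x ≤ 1)
    (hy : Valued.v y ≤ ρ) : Valued.v (x * y) ≤ ρ := by
  rw [map_mul]
  exact (mul_le_mul' hx hy).trans_eq (one_mul _)

theorem hens3 [CompleteSpace F] {c0 c2 c3 : F} (h0 : Valued.v c0 < 1) (h2 : Valued.v c2 ≤ 1)
    (h3 : Valued.v c3 ≤ 1) : ∃ Y : F, c0 + Y + c2 * Y ^ 2 + c3 * Y ^ 3 = 0 ∧ Valued.v Y ≤ Valued.v c0 := by
  obtain ⟨Y, hY, hYe⟩ := fix_pt (F := F) (ι := Unit)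
    (fun Y _ => -(c0 + c2 * Y () ^ 2 + c3 * Y () ^ 3)) (ρ := Valued.v c0) (γ := Valued.v c0) h0
    (by
      intro j
      have e : -(c0 + c2 * (0 : Unit → F) () ^ 2 + c3 * (0 : Unit → F) () ^ 3) = -c0 := by
        rw [Pi.zero_apply]
        ring
      show Valued.v (-(c0 + c2 * (0 : Unit → F) () ^ 2 + c3 * (0 : Unit → F) () ^ 3)) ≤ Valued.v c0
      rw [e, Valuation.map_neg])
    (by
      intro Y Z hY hZ δ hδ j
      show Valued.v (-(c0 + c2 * Y () ^ 2 + c3 * Y () ^ 3) -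
        -(c0 + c2 * Z () ^ 2 + c3 * Z () ^ 3)) ≤ Valued.v c0 * δ
      have hy := hY ()
      have hz := hZ ()
      have hd := hδ ()
      generalize Y () = y at *
      generalize Z () = z at *
      have e : -(c0 + c2 * y ^ 2 + c3 * y ^ 3) - -(c0 + c2 * z ^ 2 + c3 * z ^ 3) =
          -((c2 * (y + z) + c3 * (y * y + y * z + z * z)) * (y - z)) := by
        ring
      rw [e, Valuation.map_neg, map_mul]
      have hy1 : Valued.v y ≤ 1 := hy.trans h0.le
      have hz1 : Valued.v z ≤ 1 := hz.trans h0.le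
      refine mul_le_mul' ?_ hd
      refine Valuation.map_add_le _ (v_mlr h2 (Valuation.map_add_le _ hy hz)) (v_mlr h3 ?_)
      exact Valuation.map_add_le _ (Valuation.map_add_le _ (v_mlr hy1 hy) (v_mlr hy1 hz))
        (v_mlr hz1 hz))
  refine ⟨Y (), ?_, hY ()⟩
  have h := congrFun hYe ()
  have h' : -(c0 + c2 * Y () ^ 2 + c3 * Y () ^ 3) = Y () := h
  linear_combination -h'

theorem dl_le {a b x : F} (ha : Valued.v a ≤ 1) (hb : Valued.v b ≤ 1) (hx : Valued.v x ≤ 1) :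
    Valued.v (dl a b) ≤ max (Valued.v (3 * x ^ 2 + a)) (Valued.v (x ^ 3 + a * x + b)) := by
  have e : dl a b = (6 * a * x ^ 2 - 9 * b * x + 4 * a ^ 2) * (3 * x ^ 2 + a) +
      (-(18 * a * x) + 27 * b) * (x ^ 3 + a * x + b) := by
    unfold dl
    ring
  have h1 : Valued.v (6 * a * x ^ 2 - 9 * b * x + 4 * a ^ 2) ≤ 1 := by
    refine Valuation.map_add_le _ (Valuation.map_sub_le _ ?_ ?_) ?_
    · exact v_ml1 (v_ml1 (v_ofNat 6) ha) (v_pw1 hx 2)
    · exact v_ml1 (v_ml1 (v_ofNat 9) hb) hx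
    · exact v_ml1 (v_ofNat 4) (v_pw1 ha 2)
  have h2 : Valued.v (-(18 * a * x) + 27 * b) ≤ 1 := by
    refine Valuation.map_add_le _ ?_ (v_ml1 (v_ofNat 27) hb)
    rw [Valuation.map_neg]
    exact v_ml1 (v_ml1 (v_ofNat 18) ha) hx
  rw [e]
  refine Valuation.map_add_le _ ?_ ?_
  · exact v_mlr h1 (le_max_left _ _)
  · exact v_mlr h2 (le_max_right _ _)

theorem root_near [CompleteSpace F] {a b x : F} (ha : Valued.v a ≤ 1) (hb : Valued.v b ≤ 1)
    (hx : Valued.v x ≤ 1) (hd : dl a b ≠ 0)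
    (h : Valued.v (x ^ 3 + a * x + b) < Valued.v (dl a b ^ 2)) :
    ∃ e : F, e ^ 3 + a * e + b = 0 ∧ Valued.v e ≤ 1 ∧
      Valued.v (x - e) * Valued.v (dl a b) ≤ Valued.v (x ^ 3 + a * x + b) := by
  have hdl := v_dl ha hb
  have hd0 : Valued.v (dl a b) ≠ 0 := (Valuation.ne_zero_iff _).2 hd
  have hsq : Valued.v (dl a b ^ 2) ≤ Valued.v (dl a b) := by
    rw [pow_two]
    exact v_mlr hdl le_rfl
  have hD : Valued.v (dl a b) ≤ Valued.v (3 * x ^ 2 + a) := by
    rcases le_max_iff.1 (dl_le ha hb hx) with h1 | h1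
    · exact h1
    · exact absurd h1 (not_le.2 (h.trans_le hsq))
  obtain ⟨D, hDe⟩ : ∃ D, D = 3 * x ^ 2 + a := ⟨_, rfl⟩
  obtain ⟨f, hf⟩ : ∃ f, f = x ^ 3 + a * x + b := ⟨_, rfl⟩
  rw [← hDe] at hD
  rw [← hf] at h ⊢
  have hD0 : D ≠ 0 := by
    rintro rfl
    rw [map_zero] at hD
    exact hd0 (le_antisymm hD zero_le)
  have hvD0 : Valued.v D ≠ 0 := (Valuation.ne_zero_iff _).2 hD0
  have hD1 : Valued.v D ≤ 1 := by
    rw [hDe]
    exact Valuation.map_add_le _ (v_ml1 (v_ofNat 3) (v_pw1 hx 2)) ha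
  have hfD : Valued.v f < Valued.v (D ^ 2) := by
    refine h.trans_le ?_
    rw [map_pow, map_pow]
    exact pow_le_pow_left' hD 2
  have hc0 : Valued.v (f / D ^ 2) < 1 := by
    rw [map_div₀]
    exact (div_lt_one₀ (zero_lt_iff.2 ((Valuation.ne_zero_iff _).2 (pow_ne_zero 2 hD0)))).2 hfD
  obtain ⟨Y, hY, hYv⟩ := hens3 (c0 := f / D ^ 2) (c2 := 3 * x) (c3 := D) hc0
    (v_ml1 (v_ofNat 3) hx) hD1
  have hY1 : Valued.v Y ≤ 1 := hYv.trans hc0.le
  refine ⟨x + D * Y, ?_, Valuation.map_add_le _ hx (v_ml1 hD1 hY1), ?_⟩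
  · have e1 : (x + D * Y) ^ 3 + a * (x + D * Y) + b =
        D ^ 2 * (f / D ^ 2 + Y + 3 * x * Y ^ 2 + D * Y ^ 3) := by
      have e2 : D ^ 2 * (f / D ^ 2 + Y + 3 * x * Y ^ 2 + D * Y ^ 3) =
          f + D ^ 2 * (Y + 3 * x * Y ^ 2 + D * Y ^ 3) := by
        field_simp
        ring
      rw [e2, hf]
      linear_combination (-(D * Y)) * hDe
    rw [e1, hY, mul_zero]
  · have e3 : x - (x + D * Y) = -(D * Y) := by ring
    rw [e3, Valuation.map_neg, map_mul]
    have e4 : Valued.v Y * (Valued.v D * Valued.v D) ≤ Valued.v f := by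
      have e5 : Valued.v f = Valued.v (f / D ^ 2) * (Valued.v D * Valued.v D) := by
        rw [← map_mul, ← map_mul]
        congr 1
        field_simp
      rw [e5]
      exact mul_le_mul' hYv le_rfl
    calc Valued.v D * Valued.v Y * Valued.v (dl a b)
        ≤ Valued.v D * Valued.v Y * Valued.v D := mul_le_mul' le_rfl hD
      _ = Valued.v Y * (Valued.v D * Valued.v D) := by
          rw [mul_comm (Valued.v D) (Valued.v Y), mul_assoc]
      _ ≤ Valued.v f := e4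

theorem der_le {a b e : F} (ha : Valued.v a ≤ 1) (hb : Valued.v b ≤ 1) (he : Valued.v e ≤ 1)
    (h : e ^ 3 + a * e + b = 0) : Valued.v (dl a b) ≤ Valued.v (3 * e ^ 2 + a) := by
  have h1 := dl_le ha hb he
  rw [h, map_zero] at h1
  exact h1.trans (max_le le_rfl zero_le)

end H36LG

end S_H36_LG_Hc

section S_H36_LG_Nb

set_option autoImplicit false
set_option linter.unusedSectionVars false
open scoped Classical

open WithZero NumberField IsDedekindDomain H76PP H36CY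

namespace H36LG

variable {F : Type*} [Field F] [Valued F (WithZero (Multiplicative ℤ))]

theorem Nb_mul {x y : F} {κ : WithZero (Multiplicative ℤ)} (hx : Valued.v x ≤ 1)
    (hy : Valued.v y ≤ κ) : Valued.v (x * y) ≤ κ := by
  rw [map_mul]
  exact (mul_le_mul' hx hy).trans_eq (one_mul _)

theorem Nb_mul4 {a b : F} (p q r s : Fin 3 → F) :
    m3 a b (m3 a b p q) (m3 a b r s) = m3 a b (m3 a b p r) (m3 a b q s) := by
  rw [m3_assoc, ← m3_assoc q r s, m3_comm q r, m3_assoc r q s, ← m3_assoc]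

/-- A common bound for all the small quantities. -/
theorem Nb_eta {ϖ a b A B : F} {τ : Fin 3 → F} (h : Near ϖ a b A B τ)
    {e x x0 : F} (he : Valued.v e ≤ 1)
    (hx : Valued.v (x - e1 e τ) < Valued.v (ϖ * dl a b ^ 2))
    (hx0 : Valued.v (x0 - e) < Valued.v (ϖ * dl a b ^ 2)) :
    ∃ η : WithZero (Multiplicative ℤ), Valued.v (x - e) ≤ η ∧ Valued.v (x0 - e) ≤ η ∧
      (∀ j, Valued.v (τ j - TT j) ≤ η) ∧ η < Valued.v (ϖ * dl a b ^ 2) := by
  have hτ : ∀ j, Valued.v (τ j - TT j) < Valued.v (ϖ * dl a b ^ 2) := by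
    intro j
    refine lt_of_lt_of_le (h.nr j) ?_
    have h1 : (ϖ ^ 2 * dl a b ^ 3 : F) = (ϖ * dl a b) * (ϖ * dl a b ^ 2) := by ring
    rw [h1]
    exact Nb_mul (Nb_mul h.w1.le (v_dl h.ia h.ib)) le_rfl
  have hxe : Valued.v (x - e) < Valued.v (ϖ * dl a b ^ 2) := by
    have h1 : x - e = (x - e1 e τ) + ((τ 0 - TT 0) + e * (τ 1 - TT 1) + e ^ 2 * (τ 2 - TT 2)) := by
      simp only [e1, TT, Matrix.cons_val_zero, Matrix.cons_val_one, Matrix.cons_val_two,
        Matrix.head_cons, Matrix.tail_cons, Matrix.cons_val]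
      ring
    have he2 : Valued.v (e ^ 2) ≤ 1 := by
      rw [map_pow]
      exact pow_le_one' he 2
    rw [h1]
    refine Valuation.map_add_lt _ hx (Valuation.map_add_lt _ (Valuation.map_add_lt _ (hτ 0) ?_) ?_)
    · exact lt_of_le_of_lt (Nb_mul he le_rfl) (hτ 1)
    · exact lt_of_le_of_lt (Nb_mul he2 le_rfl) (hτ 2)
  refine ⟨max (max (Valued.v (x - e)) (Valued.v (x0 - e)))
    (max (max (Valued.v (τ 0 - TT 0)) (Valued.v (τ 1 - TT 1))) (Valued.v (τ 2 - TT 2))),
    ?_, ?_, ?_, ?_⟩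
  · exact (le_max_left _ _).trans (le_max_left _ _)
  · exact (le_max_right _ _).trans (le_max_left _ _)
  · intro j
    fin_cases j
    · exact ((le_max_left _ _).trans (le_max_left _ _)).trans (le_max_right _ _)
    · exact ((le_max_right _ _).trans (le_max_left _ _)).trans (le_max_right _ _)
    · exact (le_max_right _ _).trans (le_max_right _ _)
  · exact max_lt (max_lt hxe hx0) (max_lt (max_lt (hτ 0) (hτ 1)) (hτ 2))

/-- The coordinates of an element whose residues are close to those of `1`. -/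
theorem Nb_coord {a e : F} (ha : Valued.v a ≤ 1) (he : Valued.v e ≤ 1) (hD : 3 * e ^ 2 + a ≠ 0)
    (hD1 : Valued.v (3 * e ^ 2 + a) ≤ 1) {κ μ : WithZero (Multiplicative ℤ)} {w : Fin 3 → F}
    (h1 : e1 e w = 1) (hp : Valued.v (pp e a w - 1) ≤ κ) (hq : Valued.v (qq e w) ≤ κ)
    (hκ : κ < μ * Valued.v (3 * e ^ 2 + a)) : ∀ j, Valued.v (w j - cst 1 j) < μ := by
  have hD0 : 0 < Valued.v (3 * e ^ 2 + a) := (Valuation.pos_iff _).2 hD
  have hκμ : κ < μ := by
    refine lt_of_lt_of_le hκ ?_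
    exact (mul_le_mul' le_rfl hD1).trans_eq (mul_one _)
  have h2 : Valued.v (w 2) < μ := by
    have h3 : (3 * e ^ 2 + a) * w 2 = -((pp e a w - 1) + e * qq e w) := by
      unfold e1 at h1
      unfold pp qq
      linear_combination h1
    have h4 : Valued.v ((3 * e ^ 2 + a) * w 2) ≤ κ := by
      rw [h3, Valuation.map_neg]
      exact Valuation.map_add_le _ hp (Nb_mul he hq)
    rw [map_mul, mul_comm] at h4
    exact lt_of_mul_lt_mul_right' (lt_of_le_of_lt h4 hκ)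
  have hea : Valued.v (e ^ 2 + a) ≤ 1 := by
    refine Valuation.map_add_le _ ?_ ha
    rw [map_pow]
    exact pow_le_one' he 2
  intro j
  fin_cases j
  · have h3 : w 0 - 1 = (pp e a w - 1) + (e ^ 2 + a) * w 2 := by
      unfold pp
      ring
    show Valued.v (w 0 - 1) < μ
    rw [h3]
    exact Valuation.map_add_lt _ (lt_of_le_of_lt hp hκμ) (lt_of_le_of_lt (Nb_mul hea le_rfl) h2)
  · have h3 : w 1 - 0 = qq e w + e * w 2 := by
      unfold qq
      ring
    show Valued.v (w 1 - 0) < μ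
    rw [h3]
    exact Valuation.map_add_lt _ (lt_of_le_of_lt hq hκμ) (lt_of_le_of_lt (Nb_mul he le_rfl) h2)
  · show Valued.v (w 2 - 0) < μ
    rw [sub_zero]
    exact h2

/-- The residues of a product of two elements close to `1`. -/
theorem Nb_prod {a b e : F} (her : e ^ 3 + a * e + b = 0) (ha : Valued.v a ≤ 1)
    (he : Valued.v e ≤ 1) {κ : WithZero (Multiplicative ℤ)} (hκ : κ ≤ 1) {u v : Fin 3 → F}
    (hu1 : Valued.v (pp e a u - 1) ≤ κ) (hu2 : Valued.v (qq e u) ≤ κ)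
    (hv1 : Valued.v (pp e a v - 1) ≤ κ) (hv2 : Valued.v (qq e v) ≤ κ) :
    Valued.v (pp e a (m3 a b v u) - 1) ≤ κ ∧ Valued.v (qq e (m3 a b v u)) ≤ κ := by
  have hea : Valued.v (e ^ 2 + a) ≤ 1 := by
    refine Valuation.map_add_le _ ?_ ha
    rw [map_pow]
    exact pow_le_one' he 2
  have hqq : Valued.v (qq e v * qq e u) ≤ κ := Nb_mul (hv2.trans hκ) hu2
  constructor
  · have h1 : pp e a (m3 a b v u) - 1 = (pp e a v - 1) + (pp e a u - 1) +
        (pp e a v - 1) * (pp e a u - 1) - (e ^ 2 + a) * (qq e v * qq e u) := by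
      rw [pp_m3 her]
      ring
    rw [h1]
    refine Valuation.map_sub_le _ (Valuation.map_add_le _ (Valuation.map_add_le _ hv1 hu1) ?_) ?_
    · exact Nb_mul (hv1.trans hκ) hu1
    · exact Nb_mul hea hqq
  · have h1 : qq e (m3 a b v u) = qq e u + (pp e a v - 1) * qq e u + qq e v +
        qq e v * (pp e a u - 1) - e * (qq e v * qq e u) := by
      rw [qq_m3 her]
      ring
    rw [h1]
    refine Valuation.map_sub_le _ (Valuation.map_add_le _ (Valuation.map_add_le _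
      (Valuation.map_add_le _ hu2 ?_) hv2) ?_) ?_
    · exact Nb_mul (hv1.trans hκ) hu2
    · exact Nb_mul (hv2.trans hκ) hu1
    · exact Nb_mul he hqq

theorem near2 [CompleteSpace F] [CharZero F] {ϖ a b A B : F} {τ : Fin 3 → F} (h : Near ϖ a b A B τ)
    {e x x0 r : F} (he : Valued.v e ≤ 1) (her : e ^ 3 + a * e + b = 0)
    (hx : Valued.v (x - e1 e τ) < Valued.v (ϖ * dl a b ^ 2))
    (hx0 : Valued.v (x0 - e) < Valued.v (ϖ * dl a b ^ 2))
    (hr : (x - e1 e τ) * (x0 - e) = r ^ 2) (hr0 : r ≠ 0) :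
    ∃ ρ : Fin 3 → F, m3 a b ρ ρ = m3 a b (xt τ x) (xT x0) := by
  have h2F : (2 : F) ≠ 0 := two_ne_zero
  have ha := h.ia
  have hb := h.ib
  obtain ⟨η, hη1, hη2, hη3, hη4⟩ := Nb_eta h he hx hx0
  have hΔD := der_le ha hb he her
  have hΔ0 : 0 < Valued.v (dl a b) := (Valuation.pos_iff _).2 h.ne
  have hD0 : 0 < Valued.v (3 * e ^ 2 + a) := lt_of_lt_of_le hΔ0 hΔD
  have hD : 3 * e ^ 2 + a ≠ 0 := (Valuation.pos_iff _).1 hD0
  have he2 : Valued.v (e ^ 2) ≤ 1 := by
    rw [map_pow]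
    exact pow_le_one' he 2
  have hD1 : Valued.v (3 * e ^ 2 + a) ≤ 1 := Valuation.map_add_le _ (Nb_mul (v_ofNat 3) he2) ha
  have hea : Valued.v (e ^ 2 + a) ≤ 1 := Valuation.map_add_le _ he2 ha
  have h2e : Valued.v (2 * e) ≤ 1 := Nb_mul (v_ofNat 2) he
  have h4Δ : Valued.v (ϖ * dl a b ^ 2) ≤
      Valued.v (4 : F) * Valued.v (3 * e ^ 2 + a) * Valued.v (3 * e ^ 2 + a) := by
    rw [map_mul, map_pow, pow_two, mul_assoc]
    exact mul_le_mul' h.w4 (mul_le_mul' hΔD hΔD)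
  have hηD : η < Valued.v (4 : F) * Valued.v (3 * e ^ 2 + a) * Valued.v (3 * e ^ 2 + a) :=
    lt_of_lt_of_le hη4 h4Δ
  obtain ⟨κ, hκ⟩ : ∃ κ : WithZero (Multiplicative ℤ), κ = Valued.v ((3 * e ^ 2 + a)⁻¹) * η :=
    ⟨_, rfl⟩
  have hinv : Valued.v ((3 * e ^ 2 + a)⁻¹) * Valued.v (3 * e ^ 2 + a) = 1 := by
    rw [← map_mul, inv_mul_cancel₀ hD, map_one]
  have hκD : κ * Valued.v (3 * e ^ 2 + a) = η := by
    rw [hκ, mul_comm (Valued.v ((3 * e ^ 2 + a)⁻¹)) η, mul_assoc, hinv, mul_one]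
  have hκ4 : κ < Valued.v (4 : F) * Valued.v (3 * e ^ 2 + a) := by
    refine lt_of_mul_lt_mul_right' (a := Valued.v (3 * e ^ 2 + a)) ?_
    rw [hκD]
    exact hηD
  have hκ1 : κ ≤ 1 := by
    refine hκ4.le.trans ?_
    exact mul_le_one' (v_ofNat 4) hD1
  have hκm : ∀ y : F, Valued.v y ≤ η → Valued.v ((3 * e ^ 2 + a)⁻¹ * y) ≤ κ := by
    intro y hy
    rw [map_mul, hκ]
    exact mul_le_mul' le_rfl hy
  have hDi : (3 * e ^ 2 + a)⁻¹ * (3 * e ^ 2 + a) = 1 := inv_mul_cancel₀ hD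
  obtain ⟨Di, hDi'⟩ : ∃ Di : F, Di = (3 * e ^ 2 + a)⁻¹ := ⟨_, rfl⟩
  rw [← hDi'] at hDi hκm
  obtain ⟨s, hs1, hs2, hs3⟩ := crt_ex hD (1 / r) (2 * e * Di) Di
  have hP : Valued.v (pp e a τ) ≤ η := by
    have h1 : pp e a τ = (τ 0 - TT 0) - (e ^ 2 + a) * (τ 2 - TT 2) := by
      simp only [pp, TT, Matrix.cons_val_zero, Matrix.cons_val_two, Matrix.head_cons,
        Matrix.tail_cons, Matrix.cons_val]
      ring
    rw [h1]
    exact Valuation.map_sub_le _ (hη3 0) (Nb_mul hea (hη3 2))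
  have hQ : Valued.v (qq e τ - 1) ≤ η := by
    have h1 : qq e τ - 1 = (τ 1 - TT 1) - e * (τ 2 - TT 2) := by
      simp only [qq, TT, Matrix.cons_val_one, Matrix.cons_val_two, Matrix.head_cons,
        Matrix.tail_cons, Matrix.cons_val]
      ring
    rw [h1]
    exact Valuation.map_sub_le _ (hη3 1) (Nb_mul he (hη3 2))
  have hpx : pp e a (xt τ x) = x - pp e a τ := by
    simp only [pp, xt, Matrix.cons_val_zero, Matrix.cons_val_two, Matrix.head_cons,
      Matrix.tail_cons, Matrix.cons_val]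
    ring
  have hqx : qq e (xt τ x) = -qq e τ := by
    simp only [qq, xt, Matrix.cons_val_one, Matrix.cons_val_two, Matrix.head_cons,
      Matrix.tail_cons, Matrix.cons_val]
    ring
  have hpx0 : pp e a (xT x0) = x0 := by
    simp only [pp, xT, Matrix.cons_val_zero, Matrix.cons_val_two, Matrix.head_cons,
      Matrix.tail_cons, Matrix.cons_val]
    ring
  have hqx0 : qq e (xT x0) = -1 := by
    simp only [qq, xT, Matrix.cons_val_one, Matrix.cons_val_two, Matrix.head_cons,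
      Matrix.tail_cons, Matrix.cons_val]
    ring
  have hv1 : Valued.v (pp e a (m3 a b (xt τ x) s) - 1) ≤ κ := by
    have h1 : pp e a (m3 a b (xt τ x) s) - 1 =
        Di * (2 * e * (x - e) - 2 * e * pp e a τ + (e ^ 2 + a) * (qq e τ - 1)) := by
      rw [pp_m3 her, hpx, hqx, hs2, hs3]
      linear_combination hDi
    rw [h1]
    exact hκm _ (Valuation.map_add_le _ (Valuation.map_sub_le _ (Nb_mul h2e hη1)
      (Nb_mul h2e hP)) (Nb_mul hea hQ))
  have hv2 : Valued.v (qq e (m3 a b (xt τ x) s)) ≤ κ := by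
    have h1 : qq e (m3 a b (xt τ x) s) = Di * ((x - e) - pp e a τ - e * (qq e τ - 1)) := by
      rw [qq_m3 her, hpx, hqx, hs2, hs3]
      ring
    rw [h1]
    exact hκm _ (Valuation.map_sub_le _ (Valuation.map_sub_le _ hη1 hP) (Nb_mul he hQ))
  have hu1 : Valued.v (pp e a (m3 a b (xT x0) s) - 1) ≤ κ := by
    have h1 : pp e a (m3 a b (xT x0) s) - 1 = Di * (2 * e * (x0 - e)) := by
      rw [pp_m3 her, hpx0, hqx0, hs2, hs3]
      linear_combination hDi
    rw [h1]
    exact hκm _ (Nb_mul h2e hη2)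
  have hu2 : Valued.v (qq e (m3 a b (xT x0) s)) ≤ κ := by
    have h1 : qq e (m3 a b (xT x0) s) = Di * (x0 - e) := by
      rw [qq_m3 her, hpx0, hqx0, hs2, hs3]
      ring
    rw [h1]
    exact hκm _ hη2
  obtain ⟨hw1, hw2⟩ := Nb_prod her ha he hκ1 hu1 hu2 hv1 hv2
  have hwe : e1 e (m3 a b (m3 a b (xt τ x) s) (m3 a b (xT x0) s)) = 1 := by
    have h1 : e1 e (xt τ x) = x - e1 e τ := by
      simp only [e1, xt, Matrix.cons_val_zero, Matrix.cons_val_one, Matrix.cons_val_two,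
        Matrix.head_cons, Matrix.tail_cons, Matrix.cons_val]
      ring
    have h3 : e1 e (xT x0) = x0 - e := by
      simp only [e1, xT, Matrix.cons_val_zero, Matrix.cons_val_one, Matrix.cons_val_two,
        Matrix.head_cons, Matrix.tail_cons, Matrix.cons_val]
      ring
    rw [e1_m3 her, e1_m3 her, e1_m3 her, h1, h3, hs1]
    field_simp
    linear_combination hr
  obtain ⟨t, ht⟩ := sqrt3 ha hb h2F (Nb_coord ha he hD hD1 hwe hw1 hw2 hκ4)
  have hnf : Te_nf a b s ≠ 0 := by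
    rw [nf_fac her, hs1, hs2, hs3]
    have h1 : N2 e a (2 * e * Di) Di = Di := by
      unfold N2
      linear_combination Di * hDi
    rw [h1]
    refine mul_ne_zero (one_div_ne_zero hr0) ?_
    rw [hDi']
    exact inv_ne_zero hD
  obtain ⟨s', hs'⟩ := m3_inv hnf
  refine ⟨m3 a b t s', ?_⟩
  have h11 : m3 a b (cst (1 : F)) (cst 1) = cst 1 := m3_one _
  rw [Nb_mul4, ht, Nb_mul4 (xt τ x) s (xT x0) s, m3_assoc, Nb_mul4 s s s' s', hs', h11, m3_comm,
    m3_one]

end H36LG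

end S_H36_LG_Nb

section S_H36_LG_Sw

set_option autoImplicit false
set_option linter.unusedSectionVars false
open scoped Classical

open WithZero NumberField IsDedekindDomain H76PP H36CY

namespace H36LG

variable {F : Type*} [Field F] [Valued F (WithZero (Multiplicative ℤ))] {ϖ a b A B : F}
  {τ : Fin 3 → F}

private theorem Sw_mul_lt {x y g : F} (hx : Valued.v x < Valued.v g) (hy : Valued.v y ≤ 1) :
    Valued.v (x * y) < Valued.v g := by
  rw [map_mul]
  exact (mul_le_of_le_one_right' hy).trans_lt hx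

private theorem Sw_mul_lt' {x y g : F} (hx : Valued.v x < Valued.v g) (hy : Valued.v y ≤ 1) :
    Valued.v (y * x) < Valued.v g := by
  rw [mul_comm]
  exact Sw_mul_lt hx hy

private theorem Sw_nz (h : Near ϖ a b A B τ) [CharZero F] : (ϖ * dl a b ^ 2 : F) ≠ 0 :=
  mul_ne_zero h.w0 (pow_ne_zero 2 h.ne)

/-- `|16 Δ^3| ≤ |4 Δ^2|` -/
private theorem Sw_16 (h : Near ϖ a b A B τ) :
    Valued.v (ϖ ^ 2 * dl a b ^ 3) ≤ Valued.v (ϖ * dl a b ^ 2) := by
  have h1 : (ϖ ^ 2 * dl a b ^ 3 : F) = ϖ * dl a b ^ 2 * (ϖ * dl a b) := by ring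
  rw [h1, map_mul]
  refine mul_le_of_le_one_right' ?_
  rw [map_mul]
  exact mul_le_one' h.w1.le (v_dl h.ia h.ib)

/-- `|4 Δ^2| ≤ |4 Δ|` -/
private theorem Sw_4 (h : Near ϖ a b A B τ) :
    Valued.v (ϖ * dl a b ^ 2) ≤ Valued.v (ϖ * dl a b) := by
  have h1 : (ϖ * dl a b ^ 2 : F) = ϖ * dl a b * dl a b := by ring
  rw [h1, map_mul]
  exact mul_le_of_le_one_right' (v_dl h.ia h.ib)

private theorem Sw_4one (h : Near ϖ a b A B τ) : Valued.v (ϖ * dl a b ^ 2) ≤ 1 := by
  rw [map_mul, map_pow]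
  exact mul_le_one' h.w1.le (pow_le_one' (v_dl h.ia h.ib) 2)

private theorem Sw_A (h : Near ϖ a b A B τ) : Valued.v A ≤ 1 := by
  have h1 : A = (A - a) + a := by ring
  rw [h1]
  exact Valuation.map_add_le _ ((h.dA.trans_le ((Sw_16 h).trans (Sw_4one h))).le) h.ia

private theorem Sw_B (h : Near ϖ a b A B τ) : Valued.v B ≤ 1 := by
  have h1 : B = (B - b) + b := by ring
  rw [h1]
  exact Valuation.map_add_le _ ((h.dB.trans_le ((Sw_16 h).trans (Sw_4one h))).le) h.ib

private theorem Sw_big {a b x : F} (ha : Valued.v a ≤ 1) (hb : Valued.v b ≤ 1)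
    (hx : 1 < Valued.v x) : x ^ 3 + a * x + b ≠ 0 := by
  intro h
  have h1 : x ^ 3 = -(a * x + b) := by linear_combination h
  have h2 : Valued.v (x ^ 3) ≤ Valued.v x := by
    rw [h1, Valuation.map_neg]
    refine Valuation.map_add_le _ ?_ (hb.trans hx.le)
    rw [map_mul]
    exact mul_le_of_le_one_left' ha
  have h3 : Valued.v x < Valued.v (x ^ 3) := by
    have hx0 : 0 < Valued.v x := zero_lt_one.trans hx
    rw [map_pow, pow_succ, pow_two]
    calc Valued.v x = 1 * Valued.v x := (one_mul _).symm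
      _ < Valued.v x * Valued.v x * Valued.v x := by
        refine (mul_lt_mul_iff_left₀ hx0).2 ?_
        exact one_lt_mul'' hx hx
  exact absurd h2 (not_le.2 h3)

private theorem Sw_gen [CompleteSpace F] [CharZero F] (h : Near ϖ a b A B τ) {e e' x A' : F}
    (he : Valued.v e ≤ 1) (her : e ^ 3 + a * e + b = 0)
    (h1 : Valued.v (x - e) < Valued.v (ϖ * dl a b ^ 2))
    (h2 : Valued.v (e' - e) < Valued.v (ϖ * dl a b ^ 2))
    (h3 : Valued.v (A' - a) < Valued.v (ϖ * dl a b ^ 2)) :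
    ∃ u : F, u ≠ 0 ∧ x ^ 2 + x * e' + e' ^ 2 + A' = (3 * e ^ 2 + a) * u ^ 2 := by
  have hx : Valued.v x ≤ 1 := by
    have k : x = (x - e) + e := by ring
    rw [k]
    exact Valuation.map_add_le _ (h1.trans_le (Sw_4one h)).le he
  have he' : Valued.v e' ≤ 1 := by
    have k : e' = (e' - e) + e := by ring
    rw [k]
    exact Valuation.map_add_le _ (h2.trans_le (Sw_4one h)).le he
  refine sq_near (lt_of_lt_of_le (b := Valued.v (ϖ * dl a b ^ 2)) ?_ ?_)
  · have k : x ^ 2 + x * e' + e' ^ 2 + A' - (3 * e ^ 2 + a) =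
        (x - e) * (x + e) + (x - e) * e' + e * (e' - e) + (e' - e) * (e' + e) + (A' - a) := by
      ring
    rw [k]
    refine Valuation.map_add_lt _ (Valuation.map_add_lt _ (Valuation.map_add_lt _
      (Valuation.map_add_lt _ ?_ ?_) ?_) ?_) h3
    · exact Sw_mul_lt h1 (Valuation.map_add_le _ hx he)
    · exact Sw_mul_lt h1 he'
    · exact Sw_mul_lt' h2 he
    · exact Sw_mul_lt h2 (Valuation.map_add_le _ he' he)
  · refine (Sw_4 h).trans ?_
    rw [map_mul, map_mul]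
    exact mul_le_mul' h.w4 (der_le h.ia h.ib he her)

private theorem Sw_D (h : Near ϖ a b A B τ) {e : F} (he : Valued.v e ≤ 1)
    (her : e ^ 3 + a * e + b = 0) : 3 * e ^ 2 + a ≠ 0 := by
  intro h0
  have h1 := der_le h.ia h.ib he her
  rw [h0, map_zero, le_zero_iff] at h1
  exact h.ne ((Valuation.zero_iff _).1 h1)

private theorem Sw_D1 (h : Near ϖ a b A B τ) {e : F} (he : Valued.v e ≤ 1) :
    Valued.v (3 * e ^ 2 + a) ≤ 1 := by
  refine Valuation.map_add_le _ ?_ h.ia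
  rw [map_mul, map_pow]
  exact mul_le_one' (v_ofNat 3) (pow_le_one' he 2)

private theorem Sw_16D [CharZero F] (h : Near ϖ a b A B τ) {e : F} (he : Valued.v e ≤ 1) :
    Valued.v ((3 * e ^ 2 + a) * (ϖ * dl a b) ^ 2) < Valued.v (ϖ * dl a b ^ 2) := by
  have h1 : ((3 * e ^ 2 + a) * (ϖ * dl a b) ^ 2 : F) = ϖ * dl a b ^ 2 * (ϖ * (3 * e ^ 2 + a)) := by
    ring
  have h0 : 0 < Valued.v (ϖ * dl a b ^ 2) := zero_lt_iff.2 ((Valuation.ne_zero_iff _).2 (Sw_nz h))
  have h2 : Valued.v (ϖ * (3 * e ^ 2 + a)) < 1 := by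
    rw [map_mul]
    exact (mul_le_of_le_one_right' (Sw_D1 h he)).trans_lt h.w1
  rw [h1, map_mul]
  calc Valued.v (ϖ * dl a b ^ 2) * Valued.v (ϖ * (3 * e ^ 2 + a)) <
      Valued.v (ϖ * dl a b ^ 2) * 1 := (mul_lt_mul_iff_right₀ h0).2 h2
    _ = _ := mul_one _

private theorem Sw_rn [CompleteSpace F] (h : Near ϖ a b A B τ) {x : F} (hx : Valued.v x ≤ 1)
    (hf : Valued.v (x ^ 3 + a * x + b) < Valued.v (ϖ * dl a b ^ 3)) :
    ∃ e : F, e ^ 3 + a * e + b = 0 ∧ Valued.v e ≤ 1 ∧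
      Valued.v (x - e) < Valued.v (ϖ * dl a b ^ 2) := by
  have h1 : Valued.v (ϖ * dl a b ^ 3) ≤ Valued.v (dl a b ^ 2) := by
    have k : (ϖ * dl a b ^ 3 : F) = dl a b ^ 2 * (ϖ * dl a b) := by ring
    rw [k, map_mul]
    refine mul_le_of_le_one_right' ?_
    rw [map_mul]
    exact mul_le_one' h.w1.le (v_dl h.ia h.ib)
  obtain ⟨e, her, he, hxe⟩ := root_near h.ia h.ib hx h.ne (hf.trans_le h1)
  refine ⟨e, her, he, ?_⟩
  have h2 : Valued.v (x - e) * Valued.v (dl a b) < Valued.v (ϖ * dl a b ^ 2) * Valued.v (dl a b) := by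
    refine hxe.trans_lt (hf.trans_eq ?_)
    rw [← map_mul]
    congr 1
    ring
  exact lt_of_mul_lt_mul_right' h2

theorem root_tau (h : Near ϖ a b A B τ) {e : F} (he : Valued.v e ≤ 1) (her : e ^ 3 + a * e + b = 0) :
    e1 e τ ^ 3 + A * e1 e τ + B = 0 ∧ Valued.v (e1 e τ - e) < Valued.v (ϖ ^ 2 * dl a b ^ 3) := by
  constructor
  · have h0 := h.rt 0
    have h1 := h.rt 1
    have h2 := h.rt 2
    have c0 : cst B 0 = B := rfl
    have c1 : cst B 1 = 0 := rfl
    have c2 : cst B 2 = 0 := rfl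
    rw [c0] at h0
    rw [c1] at h1
    rw [c2] at h2
    have k1 : e1 e (m3 a b τ (m3 a b τ τ)) + A * e1 e τ + B = 0 := by
      unfold e1
      linear_combination h0 + e * h1 + e ^ 2 * h2
    rw [e1_m3 her, e1_m3 her] at k1
    linear_combination k1
  · have h0 := h.nr 0
    have h1 := h.nr 1
    have h2 := h.nr 2
    have c0 : (TT 0 : F) = 0 := rfl
    have c1 : (TT 1 : F) = 1 := rfl
    have c2 : (TT 2 : F) = 0 := rfl
    have k : e1 e τ - e = (τ 0 - TT 0) + (τ 1 - TT 1) * e + (τ 2 - TT 2) * e ^ 2 := by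
      rw [c0, c1, c2]
      unfold e1
      ring
    rw [k]
    refine Valuation.map_add_lt _ (Valuation.map_add_lt _ h0 (Sw_mul_lt h1 he)) (Sw_mul_lt h2 ?_)
    rw [map_pow]
    exact pow_le_one' he 2

theorem sw1 [CompleteSpace F] [CharZero F] (h : Near ϖ a b A B τ) {x y : F} (hy : y ≠ 0)
    (hxy : y ^ 2 = x ^ 3 + A * x + B) :
    ∃ (x0 : F) (r : Fin 3 → F), x0 ^ 3 + a * x0 + b ≠ 0 ∧
      m3 a b r r = m3 a b (xt τ x) (xT x0) := by
  rcases lt_or_ge 1 (Valued.v x) with hx | hx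
  · obtain ⟨r, hr⟩ := near1 h (Or.inl hx)
    exact ⟨x, r, Sw_big h.ia h.ib hx, hr⟩
  rcases le_or_gt (Valued.v (ϖ * dl a b ^ 3)) (Valued.v (x ^ 3 + a * x + b)) with hf | hf
  · obtain ⟨r, hr⟩ := near1 h (Or.inr ⟨hx, hf⟩)
    refine ⟨x, r, ?_, hr⟩
    intro h0
    rw [h0, map_zero, le_zero_iff, Valuation.zero_iff] at hf
    exact mul_ne_zero h.w0 (pow_ne_zero 3 h.ne) hf
  obtain ⟨e, her, he, hxe⟩ := Sw_rn h hx hf
  obtain ⟨ht, hte⟩ := root_tau h he her
  have hte' : Valued.v (e1 e τ - e) < Valued.v (ϖ * dl a b ^ 2) := hte.trans_le (Sw_16 h)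
  obtain ⟨u, hu, hM⟩ := Sw_gen h he her hxe hte' (h.dA.trans_le (Sw_16 h))
  have hD := Sw_D h he her
  set e' := e1 e τ with he'
  have hyy : y ^ 2 = (x - e') * ((3 * e ^ 2 + a) * u ^ 2) := by
    rw [← hM]
    linear_combination hxy + ht
  obtain ⟨x0, hx0⟩ : ∃ x0 : F, x0 = e + (3 * e ^ 2 + a) * (ϖ * dl a b) ^ 2 := ⟨_, rfl⟩
  have hx0e : x0 - e = (3 * e ^ 2 + a) * (ϖ * dl a b) ^ 2 := by rw [hx0]; ring
  have hx0v : Valued.v (x0 - e) < Valued.v (ϖ * dl a b ^ 2) := by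
    rw [hx0e]
    exact Sw_16D h he
  have hxe' : Valued.v (x - e') < Valued.v (ϖ * dl a b ^ 2) := by
    have k : x - e' = (x - e) - (e' - e) := by ring
    rw [k]
    exact Valuation.map_sub_lt _ hxe hte'
  have hr : (x - e') * (x0 - e) = (ϖ * dl a b * y / u) ^ 2 := by
    rw [hx0e, div_pow, eq_div_iff (pow_ne_zero 2 hu)]
    linear_combination (-(ϖ * dl a b) ^ 2) * hyy
  have hr0 : ϖ * dl a b * y / u ≠ 0 :=
    div_ne_zero (mul_ne_zero (mul_ne_zero h.w0 h.ne) hy) hu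
  obtain ⟨ρ, hρ⟩ := near2 h he her hxe' hx0v hr hr0
  refine ⟨x0, ρ, ?_, hρ⟩
  have hz : Valued.v (0 : F) < Valued.v (ϖ * dl a b ^ 2) := by
    rw [map_zero]
    exact zero_lt_iff.2 ((Valuation.ne_zero_iff _).2 (Sw_nz h))
  obtain ⟨u0, hu0, hM0⟩ := Sw_gen (e' := e) (A' := a) h he her hx0v (by rw [sub_self]; exact hz)
    (by rw [sub_self]; exact hz)
  have hfac : x0 ^ 3 + a * x0 + b = (x0 - e) * ((3 * e ^ 2 + a) * u0 ^ 2) := by
    rw [← hM0]
    linear_combination her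
  rw [hfac, hx0e]
  exact mul_ne_zero (mul_ne_zero hD (pow_ne_zero 2 (mul_ne_zero h.w0 h.ne)))
    (mul_ne_zero hD (pow_ne_zero 2 hu0))

theorem sw2 [CompleteSpace F] [CharZero F] (h : Near ϖ a b A B τ) {x0 y0 : F} (hy : y0 ≠ 0)
    (hxy : y0 ^ 2 = x0 ^ 3 + a * x0 + b) :
    ∃ (x : F) (r : Fin 3 → F), x ^ 3 + A * x + B ≠ 0 ∧
      m3 a b r r = m3 a b (xt τ x) (xT x0) := by
  rcases lt_or_ge 1 (Valued.v x0) with hx | hx
  · obtain ⟨r, hr⟩ := near1 h (Or.inl hx)
    exact ⟨x0, r, Sw_big (Sw_A h) (Sw_B h) hx, hr⟩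
  rcases le_or_gt (Valued.v (ϖ * dl a b ^ 3)) (Valued.v (x0 ^ 3 + a * x0 + b)) with hf | hf
  · obtain ⟨r, hr⟩ := near1 h (Or.inr ⟨hx, hf⟩)
    refine ⟨x0, r, ?_, hr⟩
    intro h0
    have k : x0 ^ 3 + a * x0 + b = -((A - a) * x0 + (B - b)) := by linear_combination h0
    have k1 : Valued.v (x0 ^ 3 + a * x0 + b) < Valued.v (ϖ ^ 2 * dl a b ^ 3) := by
      rw [k, Valuation.map_neg]
      exact Valuation.map_add_lt _ (Sw_mul_lt h.dA hx) h.dB
    have k2 : Valued.v (ϖ ^ 2 * dl a b ^ 3) ≤ Valued.v (ϖ * dl a b ^ 3) := by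
      have k3 : (ϖ ^ 2 * dl a b ^ 3 : F) = ϖ * dl a b ^ 3 * ϖ := by ring
      rw [k3, map_mul (Valued.v) (ϖ * dl a b ^ 3) ϖ]
      exact mul_le_of_le_one_right' h.w1.le
    exact absurd hf (not_le.2 (k1.trans_le k2))
  obtain ⟨e, her, he, hxe⟩ := Sw_rn h hx hf
  obtain ⟨ht, hte⟩ := root_tau h he her
  have hte' : Valued.v (e1 e τ - e) < Valued.v (ϖ * dl a b ^ 2) := hte.trans_le (Sw_16 h)
  have hz : Valued.v (0 : F) < Valued.v (ϖ * dl a b ^ 2) := by
    rw [map_zero]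
    exact zero_lt_iff.2 ((Valuation.ne_zero_iff _).2 (Sw_nz h))
  obtain ⟨u, hu, hM⟩ := Sw_gen (e' := e) (A' := a) h he her hxe (by rw [sub_self]; exact hz)
    (by rw [sub_self]; exact hz)
  have hD := Sw_D h he her
  set e' := e1 e τ with he'
  have hyy : y0 ^ 2 = (x0 - e) * ((3 * e ^ 2 + a) * u ^ 2) := by
    rw [← hM]
    linear_combination hxy + her
  obtain ⟨x, hxd⟩ : ∃ x : F, x = e' + (3 * e ^ 2 + a) * (ϖ * dl a b) ^ 2 := ⟨_, rfl⟩
  have hxe1 : x - e' = (3 * e ^ 2 + a) * (ϖ * dl a b) ^ 2 := by rw [hxd]; ring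
  have hxv : Valued.v (x - e') < Valued.v (ϖ * dl a b ^ 2) := by
    rw [hxe1]
    exact Sw_16D h he
  have hr : (x - e') * (x0 - e) = (ϖ * dl a b * y0 / u) ^ 2 := by
    rw [hxe1, div_pow, eq_div_iff (pow_ne_zero 2 hu)]
    linear_combination (-(ϖ * dl a b) ^ 2) * hyy
  have hr0 : ϖ * dl a b * y0 / u ≠ 0 :=
    div_ne_zero (mul_ne_zero (mul_ne_zero h.w0 h.ne) hy) hu
  obtain ⟨ρ, hρ⟩ := near2 h he her hxv hxe hr hr0
  refine ⟨x, ρ, ?_, hρ⟩
  have hxv' : Valued.v (x - e) < Valued.v (ϖ * dl a b ^ 2) := by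
    have k : x - e = (x - e') + (e' - e) := by ring
    rw [k]
    exact Valuation.map_add_lt _ hxv hte'
  obtain ⟨u0, hu0, hM0⟩ := Sw_gen h he her hxv' hte' (h.dA.trans_le (Sw_16 h))
  have hfac : x ^ 3 + A * x + B = (x - e') * ((3 * e ^ 2 + a) * u0 ^ 2) := by
    rw [← hM0]
    linear_combination ht
  rw [hfac, hxe1]
  exact mul_ne_zero (mul_ne_zero hD (pow_ne_zero 2 (mul_ne_zero h.w0 h.ne)))
    (mul_ne_zero hD (pow_ne_zero 2 hu0))

end H36LG

end S_H36_LG_Sw
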