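import Mathlib
import Pool.Agent.H76.CQ.Qb
import Pool.Agent.H76.CQ.Qc
import Pool.Agent.H76.ZQ.Y1

/-! This file joins several modules to save build time (Y2). -/

set_option autoImplicit false

section S_H36_LG_Ph

set_option autoImplicit false
set_option linter.unusedSectionVars false
open scoped Classical

open WithZero NumberField IsDedekindDomain H76PP H36CY

namespace H36LG

section

variable {F : Type*} [Field F] {a b A B : F} {τ : Fin 3 → F}

theorem ph_mul (hr : Rt a b A B τ) (u v : Fin 3 → F) :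
    ph a b τ (m3 A B u v) = m3 a b (ph a b τ u) (ph a b τ v) := by
  have hq : ∀ j, m3 a b (ph a b τ u) (ph a b τ v) j = u 0 * v 0 * cst (1 : F) j +
      (u 0 * v 1 + u 1 * v 0) * τ j + (u 0 * v 2 + u 1 * v 1 + u 2 * v 0) * m3 a b τ τ j +
      (u 1 * v 2 + u 2 * v 1) * m3 a b τ (m3 a b τ τ) j +
      u 2 * v 2 * m3 a b τ (m3 a b τ (m3 a b τ τ)) j := by
    intro j
    fin_cases j
    · simp [m3, ph, cst]
      ring
    · simp [m3, ph, cst]
      ring
    · simp [m3, ph, cst]
      ring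
  have hc : m3 a b τ (m3 a b τ τ) = fun j => -(A * τ j + cst B j) := by
    funext j
    linear_combination hr j
  have hd : ∀ j, m3 a b τ (m3 a b τ (m3 a b τ τ)) j = -(A * m3 a b τ τ j + B * τ j) := by
    intro j
    rw [hc]
    fin_cases j
    · simp [m3, cst]
      ring
    · simp [m3, cst]
      ring
    · simp [m3, cst]
      ring
  funext j
  rw [hq, hd, hc]
  have hB : cst B j = B * cst (1 : F) j := by
    fin_cases j <;> simp [cst]
  have e0 : m3 A B u v 0 = u 0 * v 0 - B * (u 1 * v 2 + u 2 * v 1) := rfl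
  have e1 : m3 A B u v 1 = u 0 * v 1 + u 1 * v 0 - A * (u 1 * v 2 + u 2 * v 1) -
    B * (u 2 * v 2) := rfl
  have e2 : m3 A B u v 2 = u 0 * v 2 + u 1 * v 1 + u 2 * v 0 - A * (u 2 * v 2) := rfl
  show m3 A B u v 0 * cst (1 : F) j + m3 A B u v 1 * τ j + m3 A B u v 2 * m3 a b τ τ j =
    u 0 * v 0 * cst (1 : F) j + (u 0 * v 1 + u 1 * v 0) * τ j +
      (u 0 * v 2 + u 1 * v 1 + u 2 * v 0) * m3 a b τ τ j +
      (u 1 * v 2 + u 2 * v 1) * (-(A * τ j + cst B j)) +
      u 2 * v 2 * -(A * m3 a b τ τ j + B * τ j)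
  rw [e0, e1, e2, hB]
  ring

theorem ph_inj (hd : τ 1 * m3 a b τ τ 2 - τ 2 * m3 a b τ τ 1 ≠ 0) {u v : Fin 3 → F}
    (h : ph a b τ u = ph a b τ v) : u = v := by
  have h0 : u 0 * 1 + u 1 * τ 0 + u 2 * m3 a b τ τ 0 = v 0 * 1 + v 1 * τ 0 + v 2 * m3 a b τ τ 0 :=
    congrFun h 0
  have h1 : u 0 * 0 + u 1 * τ 1 + u 2 * m3 a b τ τ 1 = v 0 * 0 + v 1 * τ 1 + v 2 * m3 a b τ τ 1 :=
    congrFun h 1
  have h2 : u 0 * 0 + u 1 * τ 2 + u 2 * m3 a b τ τ 2 = v 0 * 0 + v 1 * τ 2 + v 2 * m3 a b τ τ 2 :=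
    congrFun h 2
  have w1 : u 1 = v 1 := by
    have : (τ 1 * m3 a b τ τ 2 - τ 2 * m3 a b τ τ 1) * (u 1 - v 1) = 0 := by
      linear_combination m3 a b τ τ 2 * h1 - m3 a b τ τ 1 * h2
    exact sub_eq_zero.1 ((mul_eq_zero.1 this).resolve_left hd)
  have w2 : u 2 = v 2 := by
    have : (τ 1 * m3 a b τ τ 2 - τ 2 * m3 a b τ τ 1) * (u 2 - v 2) = 0 := by
      linear_combination τ 1 * h2 - τ 2 * h1
    exact sub_eq_zero.1 ((mul_eq_zero.1 this).resolve_left hd)
  have w0 : u 0 = v 0 := by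
    rw [w1, w2] at h0
    linear_combination h0
  funext j
  fin_cases j
  · exact w0
  · exact w1
  · exact w2

theorem ph_surj (hd : τ 1 * m3 a b τ τ 2 - τ 2 * m3 a b τ τ 1 ≠ 0) (w : Fin 3 → F) :
    ∃ u : Fin 3 → F, ph a b τ u = w := by
  obtain ⟨D, hD⟩ : ∃ D, D = τ 1 * m3 a b τ τ 2 - τ 2 * m3 a b τ τ 1 := ⟨_, rfl⟩
  rw [← hD] at hd
  obtain ⟨c1, hc1⟩ : ∃ c, c = (m3 a b τ τ 2 * w 1 - m3 a b τ τ 1 * w 2) / D := ⟨_, rfl⟩
  obtain ⟨c2, hc2⟩ : ∃ c, c = (τ 1 * w 2 - τ 2 * w 1) / D := ⟨_, rfl⟩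
  have k1 : c1 * D = m3 a b τ τ 2 * w 1 - m3 a b τ τ 1 * w 2 := by
    rw [hc1, div_mul_cancel₀ _ hd]
  have k2 : c2 * D = τ 1 * w 2 - τ 2 * w 1 := by
    rw [hc2, div_mul_cancel₀ _ hd]
  refine ⟨![w 0 - c1 * τ 0 - c2 * m3 a b τ τ 0, c1, c2], ?_⟩
  funext j
  fin_cases j
  · show (w 0 - c1 * τ 0 - c2 * m3 a b τ τ 0) * 1 + c1 * τ 0 + c2 * m3 a b τ τ 0 = w 0
    ring
  · show (w 0 - c1 * τ 0 - c2 * m3 a b τ τ 0) * 0 + c1 * τ 1 + c2 * m3 a b τ τ 1 = w 1
    apply mul_right_cancel₀ hd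
    linear_combination τ 1 * k1 + m3 a b τ τ 1 * k2 - w 1 * hD
  · show (w 0 - c1 * τ 0 - c2 * m3 a b τ τ 0) * 0 + c1 * τ 2 + c2 * m3 a b τ τ 2 = w 2
    apply mul_right_cancel₀ hd
    linear_combination τ 2 * k1 + m3 a b τ τ 2 * k2 - w 2 * hD

theorem ph_nf (hr : Rt a b A B τ) (hd : τ 1 * m3 a b τ τ 2 - τ 2 * m3 a b τ τ 1 ≠ 0)
    (u : Fin 3 → F) : Te_nf a b (ph a b τ u) = Te_nf A B u := by
  obtain ⟨e, he⟩ : ∃ e : Fin 3 → Fin 3 → F, e = ![![1, 0, 0], ![0, 1, 0], ![0, 0, 1]] := ⟨_, rfl⟩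
  obtain ⟨P, hP⟩ : ∃ P : Matrix (Fin 3) (Fin 3) F,
    P = Matrix.of (fun i k => ph a b τ (e k) i) := ⟨_, rfl⟩
  have hPa : ∀ i k, P i k = ph a b τ (e k) i := by
    intro i k
    rw [hP, Matrix.of_apply]
  have hph : ∀ (c : Fin 3 → F) (i : Fin 3), ph a b τ c i = ∑ k, P i k * c k := by
    intro c i
    rw [Fin.sum_univ_three, hPa, hPa, hPa, he]
    simp [ph]
    ring
  have hm : ∀ (x y : F) (z w : Fin 3 → F) (i : Fin 3),
      m3 x y z w i = ∑ k, m3 x y z (e k) i * w k := by
    intro x y z w i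
    rw [Fin.sum_univ_three, he]
    fin_cases i
    · simp [m3]
      ring
    · simp [m3]
      ring
    · simp [m3]
      ring
  have hdet : ∀ (x y : F) (z : Fin 3 → F),
      (Matrix.of (fun i k => m3 x y z (e k) i)).det = Te_nf x y z := by
    intro x y z
    rw [Matrix.det_fin_three, he]
    simp [m3, Te_nf]
    ring
  have hPd : P.det ≠ 0 := by
    have : P.det = τ 1 * m3 a b τ τ 2 - τ 2 * m3 a b τ τ 1 := by
      rw [Matrix.det_fin_three, hP, he]
      simp [ph, cst]
      ring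
    rw [this]
    exact hd
  have hmul : Matrix.of (fun i k => m3 a b (ph a b τ u) (e k) i) * P =
      P * Matrix.of (fun i k => m3 A B u (e k) i) := by
    ext i j
    rw [Matrix.mul_apply, Matrix.mul_apply]
    simp only [Matrix.of_apply]
    have h1 : ∑ k, P i k * m3 A B u (e j) k = ph a b τ (m3 A B u (e j)) i := (hph _ _).symm
    have h2 : ∑ k, m3 a b (ph a b τ u) (e k) i * P k j =
        m3 a b (ph a b τ u) (ph a b τ (e j)) i := by
      rw [hm a b (ph a b τ u) (ph a b τ (e j)) i]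
      refine Finset.sum_congr rfl fun k _ => ?_
      rw [hPa]
    exact h2.trans ((congrFun (ph_mul hr u (e j)) i).symm.trans h1.symm)
  have h3 := congrArg Matrix.det hmul
  rw [Matrix.det_mul, Matrix.det_mul, hdet, hdet, mul_comm] at h3
  exact mul_left_cancel₀ hPd h3

theorem ph_xT (x : F) : ph a b τ (xT x) = xt τ x := by
  funext j
  fin_cases j <;> simp [ph, xT, xt, cst]
  ring

theorem ph_cst (x : F) : ph a b τ (cst x) = cst x := by
  funext j
  fin_cases j <;> simp [ph, cst]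

end

theorem det_ne {F : Type*} [Field F] [Valued F (WithZero (Multiplicative ℤ))] {ϖ a b A B : F}
    {τ : Fin 3 → F} (h : Near ϖ a b A B τ) : τ 1 * m3 a b τ τ 2 - τ 2 * m3 a b τ τ 1 ≠ 0 := by
  have h16 : Valued.v (ϖ ^ 2 * dl a b ^ 3) ≤ (1 : WithZero (Multiplicative ℤ)) := by
    rw [map_mul, map_pow, map_pow]
    exact mul_le_one' (pow_le_one' h.w1.le 2) (pow_le_one' (v_dl h.ia h.ib) 3)
  have hnr : ∀ j, Valued.v (τ j - TT j) < (1 : WithZero (Multiplicative ℤ)) :=
    fun j => (h.nr j).trans_le h16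
  have t0 : Valued.v (τ 0) < (1 : WithZero (Multiplicative ℤ)) := by
    have := hnr 0
    rwa [show (TT 0 : F) = 0 from rfl, sub_zero] at this
  have t2 : Valued.v (τ 2) < (1 : WithZero (Multiplicative ℤ)) := by
    have := hnr 2
    rwa [show (TT 2 : F) = 0 from rfl, sub_zero] at this
  have t1 : Valued.v (τ 1 - 1) < (1 : WithZero (Multiplicative ℤ)) := hnr 1
  have t1' : Valued.v (τ 1) ≤ (1 : WithZero (Multiplicative ℤ)) := by
    rw [show τ 1 = (τ 1 - 1) + 1 by ring]
    exact Valuation.map_add_le _ t1.le (le_of_eq (map_one _))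
  have hv2 : Valued.v (2 : F) ≤ (1 : WithZero (Multiplicative ℤ)) := v_ofNat 2
  have hmul : ∀ x y : F, Valued.v x ≤ (1 : WithZero (Multiplicative ℤ)) → Valued.v y ≤ 1 →
      Valued.v (x * y) ≤ (1 : WithZero (Multiplicative ℤ)) := by
    intro x y hx hy
    rw [map_mul]
    exact mul_le_one' hx hy
  have hmul' : ∀ x y : F, Valued.v x < (1 : WithZero (Multiplicative ℤ)) → Valued.v y ≤ 1 →
      Valued.v (x * y) < (1 : WithZero (Multiplicative ℤ)) := by
    intro x y hx hy
    rw [map_mul]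
    exact (mul_le_of_le_one_right' hy).trans_lt hx
  intro h0
  have hkey : (-1 : F) = (τ 1 - 1) * (τ 1 * τ 1 + τ 1 + 1) + τ 2 * (2 * (τ 0 * τ 1) -
      a * (τ 1 * τ 2) - (2 * (τ 0 * τ 1) - 2 * (a * (τ 1 * τ 2)) - b * (τ 2 * τ 2))) := by
    have e1 : m3 a b τ τ 1 = τ 0 * τ 1 + τ 1 * τ 0 - a * (τ 1 * τ 2 + τ 2 * τ 1) -
      b * (τ 2 * τ 2) := rfl
    have e2 : m3 a b τ τ 2 = τ 0 * τ 2 + τ 1 * τ 1 + τ 2 * τ 0 - a * (τ 2 * τ 2) := rfl
    rw [e1, e2] at h0
    linear_combination -h0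
  have hlt : Valued.v (-1 : F) < (1 : WithZero (Multiplicative ℤ)) := by
    rw [hkey]
    have p01 : Valued.v (2 * (τ 0 * τ 1)) ≤ (1 : WithZero (Multiplicative ℤ)) :=
      hmul _ _ hv2 (hmul _ _ t0.le t1')
    have p12 : Valued.v (a * (τ 1 * τ 2)) ≤ (1 : WithZero (Multiplicative ℤ)) :=
      hmul _ _ h.ia (hmul _ _ t1' t2.le)
    have p22 : Valued.v (b * (τ 2 * τ 2)) ≤ (1 : WithZero (Multiplicative ℤ)) :=
      hmul _ _ h.ib (hmul _ _ t2.le t2.le)
    refine Valuation.map_add_lt _ (hmul' _ _ t1 ?_) (hmul' _ _ t2 ?_)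
    · exact Valuation.map_add_le _ (Valuation.map_add_le _ (hmul _ _ t1' t1') t1')
        (le_of_eq (map_one _))
    · exact Valuation.map_sub_le _ (Valuation.map_sub_le _ p01 p12)
        (Valuation.map_sub_le _ (Valuation.map_sub_le _ p01 (hmul _ _ hv2 p12)) p22)
  rw [Valuation.map_neg, map_one] at hlt
  exact lt_irrefl _ hlt

end H36LG

end S_H36_LG_Ph

section S_H36_LG_Lt

set_option autoImplicit false
set_option linter.unusedSectionVars false
open scoped Classical

open WithZero NumberField IsDedekindDomain H76PP H36CY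

namespace H36LG

theorem LC_iff {k F : Type} [Field k] [Field F] [Valued F (WithZero (Multiplicative ℤ))]
    [CompleteSpace F] [CharZero F] (i : k →+* F) {a b A B : k} {ϖ : F} {τ : Fin 3 → F}
    (h : Near ϖ (i a) (i b) (i A) (i B) τ) {d d0 : Fin 3 → k} (hd : Te_nf A B d ≠ 0)
    {s : Fin 3 → F} (hs : Te_nf (i a) (i b) s ≠ 0)
    (h0 : (fun j => i (d0 j)) =
      m3 (i a) (i b) (ph (i a) (i b) τ (fun j => i (d j))) (m3 (i a) (i b) s s)) :
    LC i A B d ↔ LC i a b d0 := by
  have hac : Std.Commutative (m3 (i a) (i b)) := ⟨m3_comm⟩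
  have has : Std.Associative (m3 (i a) (i b)) := ⟨m3_assoc⟩
  have one' : ∀ u : Fin 3 → F, m3 (i a) (i b) u (cst 1) = u := by
    intro u
    rw [m3_comm, m3_one]
  have hP : Te_nf (i a) (i b) (ph (i a) (i b) τ (fun j => i (d j))) = i (Te_nf A B d) := by
    rw [ph_nf h.rt (det_ne h), Te_nf_map]
  have hP0 : i (Te_nf A B d) ≠ 0 := (map_ne_zero i).2 hd
  have hN0 : Te_nf (i a) (i b) (fun j => i (d0 j)) =
      i (Te_nf A B d) * (Te_nf (i a) (i b) s * Te_nf (i a) (i b) s) := by
    rw [h0, Te_nf_mul, Te_nf_mul, hP]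
  constructor
  · rintro ⟨x, y, z, hy, hxy, hm⟩
    obtain ⟨x0, r, hx0, hr⟩ := sw1 h hy hxy
    have hPt : m3 (i a) (i b) (ph (i a) (i b) τ (fun j => i (d j))) (xt τ x) =
        m3 (i a) (i b) (ph (i a) (i b) τ z) (ph (i a) (i b) τ z) := by
      rw [← ph_xT (a := i a) (b := i b), ← ph_mul h.rt, ← ph_mul h.rt]
      exact congrArg (ph (i a) (i b) τ) hm
    have hNt : Te_nf (i a) (i b) (xt τ x) = y ^ 2 := by
      rw [← ph_xT (a := i a) (b := i b), ph_nf h.rt (det_ne h), nf_xT, hxy]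
    obtain ⟨w, hw⟩ := m3_inv (z := xt τ x) (a := i a) (b := i b)
      (by rw [hNt]; exact pow_ne_zero 2 hy)
    have hZ : m3 (i a) (i b) (fun j => i (d0 j)) (xT x0) =
        m3 (i a) (i b) (m3 (i a) (i b) (ph (i a) (i b) τ z) (m3 (i a) (i b) s (m3 (i a) (i b) r w)))
          (m3 (i a) (i b) (ph (i a) (i b) τ z) (m3 (i a) (i b) s (m3 (i a) (i b) r w))) := by
      rw [h0]
      generalize ph (i a) (i b) τ (fun j => i (d j)) = P at hPt ⊢
      generalize ph (i a) (i b) τ z = Z at hPt ⊢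
      calc m3 (i a) (i b) (m3 (i a) (i b) P (m3 (i a) (i b) s s)) (xT x0)
          = m3 (i a) (i b) (m3 (i a) (i b) (m3 (i a) (i b) P (m3 (i a) (i b) s s)) (xT x0))
            (m3 (i a) (i b) (m3 (i a) (i b) (xt τ x) w) (m3 (i a) (i b) (xt τ x) w)) := by
            rw [hw, one', one']
        _ = m3 (i a) (i b) (m3 (i a) (i b) (m3 (i a) (i b) P (xt τ x)) (m3 (i a) (i b) s s))
            (m3 (i a) (i b) (m3 (i a) (i b) (xt τ x) (xT x0)) (m3 (i a) (i b) w w)) := by
            ac_rfl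
        _ = m3 (i a) (i b) (m3 (i a) (i b) (m3 (i a) (i b) Z Z) (m3 (i a) (i b) s s))
            (m3 (i a) (i b) (m3 (i a) (i b) r r) (m3 (i a) (i b) w w)) := by
            rw [hPt, hr]
        _ = _ := by ac_rfl
    have n1 : i (Te_nf A B d) * y ^ 2 = Te_nf (i a) (i b) (ph (i a) (i b) τ z) ^ 2 := by
      have k := congrArg (Te_nf (i a) (i b)) hPt
      rw [Te_nf_mul, Te_nf_mul, hP, hNt] at k
      rw [k]
      ring
    have n2 := congrArg (Te_nf (i a) (i b)) hZ
    rw [Te_nf_mul (i a) (i b) (fun j => i (d0 j)) (xT x0), hN0, nf_xT, Te_nf_mul] at n2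
    generalize Te_nf (i a) (i b) (m3 (i a) (i b) (ph (i a) (i b) τ z)
      (m3 (i a) (i b) s (m3 (i a) (i b) r w))) = N' at n2
    generalize Te_nf (i a) (i b) (ph (i a) (i b) τ z) = NZ at n1
    generalize Te_nf (i a) (i b) s = Ns at n2 hs
    have hNZ : NZ ≠ 0 := by
      intro e
      rw [e] at n1
      exact mul_ne_zero hP0 (pow_ne_zero 2 hy) (n1.trans (by ring))
    have hy0 : (N' * y / (NZ * Ns)) ^ 2 = x0 ^ 3 + i a * x0 + i b := by
      rw [div_pow, div_eq_iff (pow_ne_zero 2 (mul_ne_zero hNZ hs))]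
      have k : i (Te_nf A B d) * (N' * y) ^ 2 =
          i (Te_nf A B d) * ((x0 ^ 3 + i a * x0 + i b) * (NZ * Ns) ^ 2) := by
        linear_combination (-(i (Te_nf A B d) * y ^ 2)) * n2 +
          (i (Te_nf A B d) * Ns ^ 2 * (x0 ^ 3 + i a * x0 + i b)) * n1
      exact mul_left_cancel₀ hP0 k
    refine ⟨x0, N' * y / (NZ * Ns), _, ?_, hy0, hZ⟩
    intro e
    rw [e] at hy0
    exact hx0 (hy0.symm.trans (by ring))
  · rintro ⟨x0, y0, z0, hy, hxy, hm⟩
    obtain ⟨x, r, hx, hr⟩ := sw2 h hy hxy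
    have hNt : Te_nf (i a) (i b) (xT x0) = y0 ^ 2 := by rw [nf_xT, hxy]
    obtain ⟨w, hw⟩ := m3_inv (z := xT x0) (a := i a) (b := i b)
      (by rw [hNt]; exact pow_ne_zero 2 hy)
    obtain ⟨s', hs'⟩ := m3_inv (z := s) (a := i a) (b := i b) hs
    have hm' : m3 (i a) (i b) (fun j => i (d0 j)) (xT x0) = m3 (i a) (i b) z0 z0 := hm
    have hZ : m3 (i a) (i b) (ph (i a) (i b) τ (fun j => i (d j))) (xt τ x) =
        m3 (i a) (i b) (m3 (i a) (i b) z0 (m3 (i a) (i b) s' (m3 (i a) (i b) r w)))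
          (m3 (i a) (i b) z0 (m3 (i a) (i b) s' (m3 (i a) (i b) r w))) := by
      rw [h0] at hm'
      generalize ph (i a) (i b) τ (fun j => i (d j)) = P at hm' ⊢
      calc m3 (i a) (i b) P (xt τ x)
          = m3 (i a) (i b) (m3 (i a) (i b) P (xt τ x))
            (m3 (i a) (i b) (m3 (i a) (i b) (m3 (i a) (i b) s s') (m3 (i a) (i b) s s'))
              (m3 (i a) (i b) (m3 (i a) (i b) (xT x0) w) (m3 (i a) (i b) (xT x0) w))) := by
            rw [hw, hs', one', one', one']
        _ = m3 (i a) (i b) (m3 (i a) (i b) (m3 (i a) (i b) P (m3 (i a) (i b) s s)) (xT x0))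
            (m3 (i a) (i b) (m3 (i a) (i b) (xt τ x) (xT x0))
              (m3 (i a) (i b) (m3 (i a) (i b) s' s') (m3 (i a) (i b) w w))) := by
            ac_rfl
        _ = m3 (i a) (i b) (m3 (i a) (i b) z0 z0) (m3 (i a) (i b) (m3 (i a) (i b) r r)
              (m3 (i a) (i b) (m3 (i a) (i b) s' s') (m3 (i a) (i b) w w))) := by
            rw [hm', hr]
        _ = _ := by ac_rfl
    obtain ⟨z, hz⟩ := ph_surj (det_ne h) (m3 (i a) (i b) z0 (m3 (i a) (i b) s' (m3 (i a) (i b) r w)))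
    rw [← hz, ← ph_mul h.rt, ← ph_xT (a := i a) (b := i b), ← ph_mul h.rt] at hZ
    have hZ' := ph_inj (det_ne h) hZ
    have n1 := congrArg (Te_nf (i A) (i B)) hZ'
    rw [Te_nf_mul, Te_nf_mul, Te_nf_map, nf_xT] at n1
    have n2 := congrArg (Te_nf (i a) (i b)) hm'
    rw [Te_nf_mul, Te_nf_mul, hN0, hNt] at n2
    generalize Te_nf (i A) (i B) z = N' at n1
    generalize Te_nf (i a) (i b) z0 = NZ at n2
    generalize Te_nf (i a) (i b) s = Ns at n2 hs
    have hNZ : NZ ≠ 0 := by
      intro e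
      rw [e] at n2
      exact mul_ne_zero (mul_ne_zero hP0 (mul_ne_zero hs hs)) (pow_ne_zero 2 hy) (n2.trans (by ring))
    have hy0 : (N' * Ns * y0 / NZ) ^ 2 = x ^ 3 + i A * x + i B := by
      rw [div_pow, div_eq_iff (pow_ne_zero 2 hNZ)]
      have k : i (Te_nf A B d) * (N' * Ns * y0) ^ 2 =
          i (Te_nf A B d) * ((x ^ 3 + i A * x + i B) * NZ ^ 2) := by
        linear_combination (-(i (Te_nf A B d) * Ns ^ 2 * y0 ^ 2)) * n1 +
          (i (Te_nf A B d) * (x ^ 3 + i A * x + i B)) * n2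
      exact mul_left_cancel₀ hP0 k
    refine ⟨x, N' * Ns * y0 / NZ, z, ?_, hy0, hZ'⟩
    intro e
    rw [e] at hy0
    exact hx (hy0.symm.trans (by ring))

end H36LG

end S_H36_LG_Lt

section S_H36_LG_Gn

set_option autoImplicit false
set_option linter.unusedSectionVars false
open scoped Classical

open WithZero NumberField IsDedekindDomain H76PP H36CY

namespace H36LG

variable {F : Type*} [Field F] [Valued F (WithZero (Multiplicative ℤ))] {ϖ a b A B : F}
  {τ : Fin 3 → F}

theorem Gn_max (x y : F) : ∃ g : F, Valued.v x ≤ Valued.v g ∧ Valued.v y ≤ Valued.v g := by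
  rcases le_total (Valued.v x) (Valued.v y) with h | h
  · exact ⟨y, h, le_rfl⟩
  · exact ⟨x, le_rfl, h⟩

theorem Gn_ml {x y : F} (hx : Valued.v x < 1) (hy : Valued.v y ≤ 1) : Valued.v (x * y) < 1 := by
  rw [map_mul]
  exact (mul_le_mul_right hy _).trans_lt (by rw [mul_one]; exact hx)

theorem nf_near (ha : Valued.v a ≤ 1) (hb : Valued.v b ≤ 1) {z : Fin 3 → F}
    (hz : ∀ j, Valued.v (z j - cst 1 j) < 1) : Te_nf a b z ≠ 0 := by
  have h0 : Valued.v (z 0 - 1) < 1 := hz 0
  have h1 : Valued.v (z 1) < 1 := by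
    have := hz 1
    rwa [show cst (1 : F) 1 = 0 from rfl, sub_zero] at this
  have h2 : Valued.v (z 2) < 1 := by
    have := hz 2
    rwa [show cst (1 : F) 2 = 0 from rfl, sub_zero] at this
  have h0' : Valued.v (z 0) ≤ 1 := by
    have : z 0 = (z 0 - 1) + 1 := by ring
    rw [this]
    exact Valuation.map_add_le _ h0.le (le_of_eq (map_one _))
  let O : Subring F := (Valued.v : Valuation F (WithZero (Multiplicative ℤ))).integer
  have key : ∀ a' b' x y w : O, Valued.v (-(2 * (a' : F) * x ^ 2) + a' ^ 2 * x * w + 3 * b' * x * y + b' ^ 2 * w ^ 2 - a' * b' * y * w) ≤ 1 ∧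
      Valued.v ((a' : F) * x * y - b' * y ^ 2) ≤ 1 ∧ Valued.v ((x : F) ^ 2 + x + 1) ≤ 1 := by
    intro a' b' x y w
    refine ⟨?_, ?_, ?_⟩
    · have := (-(2 * a' * x ^ 2) + a' ^ 2 * x * w + 3 * b' * x * y + b' ^ 2 * w ^ 2 - a' * b' * y * w : O).2
      push_cast at this
      exact this
    · have := (a' * x * y - b' * y ^ 2 : O).2
      push_cast at this
      exact this
    · have := (x ^ 2 + x + 1 : O).2
      push_cast at this
      exact this
  obtain ⟨k2, k1, k0⟩ := key ⟨a, ha⟩ ⟨b, hb⟩ ⟨z 0, h0'⟩ ⟨z 1, h1.le⟩ ⟨z 2, h2.le⟩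
  have e : Te_nf a b z - 1 = (z 0 - 1) * (z 0 ^ 2 + z 0 + 1) + z 1 * (a * z 0 * z 1 - b * z 1 ^ 2) +
      z 2 * (-(2 * a * z 0 ^ 2) + a ^ 2 * z 0 * z 2 + 3 * b * z 0 * z 1 + b ^ 2 * z 2 ^ 2 - a * b * z 1 * z 2) := by
    unfold Te_nf
    ring
  have h3 : Valued.v (Te_nf a b z - 1) < 1 := by
    rw [e]
    exact Valuation.map_add_lt _ (Valuation.map_add_lt _ (Gn_ml h0 k0) (Gn_ml h1 k1)) (Gn_ml h2 k2)
  intro h
  rw [h, zero_sub, Valuation.map_neg, map_one] at h3
  exact lt_irrefl _ h3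

theorem Gn_bd {g : F} {γ : WithZero (Multiplicative ℤ)} {τ1 d : Fin 3 → F} (ha : Valued.v a ≤ 1) (hb : Valued.v b ≤ 1)
    (h1 : Valued.v (d 1) ≤ Valued.v g) (h2 : Valued.v (d 2) ≤ Valued.v g) (ht : Bd 1 τ) (ht1 : Bd 1 τ1)
    (hd : Bd γ (fun j => τ1 j - τ j)) : Bd (Valued.v g * γ) (fun j => ph a b τ1 d j - ph a b τ d j) := by
  have e : ∀ j, ph a b τ1 d j - ph a b τ d j =
      d 1 * (τ1 j - τ j) + d 2 * m3 a b (fun j => τ1 j - τ j) (fun j => τ1 j + τ j) j := by
    intro j
    fin_cases j <;> simp [ph, m3, cst] <;> ring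
  have hm : Bd (γ * 1) (m3 a b (fun j => τ1 j - τ j) (fun j => τ1 j + τ j)) := m3_bd ha hb hd (bd_add ht1 ht)
  rw [mul_one] at hm
  intro j
  show Valued.v (ph a b τ1 d j - ph a b τ d j) ≤ _
  rw [e]
  refine Valuation.map_add_le _ ?_ ?_
  · rw [map_mul]
    exact mul_le_mul' h1 (hd j)
  · rw [map_mul]
    exact mul_le_mul' h2 (hm j)

theorem ph_near [CompleteSpace F] [CharZero F] (h : Near ϖ a b A B τ) {d : Fin 3 → F}
    (hd : Te_nf A B d ≠ 0) :
    ∃ c : F, c ≠ 0 ∧ ∀ τ1 : Fin 3 → F, (∀ j, Valued.v (τ1 j - τ j) < Valued.v c) →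
      ∃ t : Fin 3 → F, Te_nf a b t ≠ 0 ∧ ph a b τ1 d = m3 a b (ph a b τ d) (m3 a b t t) := by
  have hw : Te_nf a b (ph a b τ d) ≠ 0 := by rw [ph_nf h.rt (det_ne h)]; exact hd
  obtain ⟨w', hw'⟩ := m3_inv hw
  obtain ⟨g1, p1, p2⟩ := Gn_max (1 : F) (d 1)
  obtain ⟨g2, q1, q2⟩ := Gn_max g1 (d 2)
  obtain ⟨g3, r1, r2⟩ := Gn_max g2 (w' 0)
  obtain ⟨g4, s1, s2⟩ := Gn_max g3 (w' 1)
  obtain ⟨g, t1, t2⟩ := Gn_max g4 (w' 2)
  have hg3 := s1.trans t1
  have hg2 := r1.trans hg3
  have hg1 := q1.trans hg2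
  have g1' : 1 ≤ Valued.v g := by
    have := p1.trans hg1
    rwa [map_one] at this
  have gd1 : Valued.v (d 1) ≤ Valued.v g := p2.trans hg1
  have gd2 : Valued.v (d 2) ≤ Valued.v g := q2.trans hg2
  have gw : Bd (Valued.v g) w' := by
    intro j
    fin_cases j
    · exact r2.trans hg3
    · exact s2.trans t1
    · exact t2
  have gpos : 0 < Valued.v g := lt_of_lt_of_le zero_lt_one g1'
  have g0 : g ≠ 0 := fun h0 => by rw [h0, map_zero] at gpos; exact lt_irrefl _ gpos
  have four : (4 : F) ≠ 0 := by norm_num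
  have two : (2 : F) ≠ 0 := by norm_num
  refine ⟨4 / (g * g), div_ne_zero four (mul_ne_zero g0 g0), ?_⟩
  intro τ1 hτ1
  have hc1 : Valued.v (4 / (g * g)) ≤ 1 := by
    rw [map_div₀, map_mul]
    exact div_le_one_of_le₀ ((v_ofNat 4).trans (one_le_mul g1' g1')) zero_le
  have hτ : Bd 1 τ := by
    intro j
    have e : τ j = (τ j - TT j) + TT j := by ring
    rw [e]
    refine Valuation.map_add_le _ ?_ ?_
    · refine (h.nr j).le.trans ?_
      rw [map_mul, map_pow, map_pow]
      exact mul_le_one' (pow_le_one' h.w1.le 2) (pow_le_one' (v_dl h.ia h.ib) 3)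
    · fin_cases j
      · show Valued.v (0 : F) ≤ 1
        rw [map_zero]; exact zero_le
      · show Valued.v (1 : F) ≤ 1
        rw [map_one]
      · show Valued.v (0 : F) ≤ 1
        rw [map_zero]; exact zero_le
  have hτ1' : Bd 1 τ1 := by
    intro j
    have e : τ1 j = (τ1 j - τ j) + τ j := by ring
    rw [e]
    exact Valuation.map_add_le _ ((hτ1 j).le.trans hc1) (hτ j)
  obtain ⟨γ, hγ, hγ'⟩ : ∃ γ : WithZero (Multiplicative ℤ), γ < Valued.v (4 / (g * g)) ∧ Bd γ (fun j => τ1 j - τ j) := by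
    refine ⟨max (max (Valued.v (τ1 0 - τ 0)) (Valued.v (τ1 1 - τ 1))) (Valued.v (τ1 2 - τ 2)),
      max_lt (max_lt (hτ1 0) (hτ1 1)) (hτ1 2), ?_⟩
    intro j
    fin_cases j
    · exact (le_max_left _ _).trans (le_max_left _ _)
    · exact (le_max_right _ _).trans (le_max_left _ _)
    · exact le_max_right _ _
  have hb1 := Gn_bd h.ia h.ib gd1 gd2 hτ hτ1' hγ'
  have hb2 := m3_bd h.ia h.ib gw hb1
  have hyw : m3 a b w' (ph a b τ d) = cst 1 := by rw [m3_comm]; exact hw'
  have hlt : Valued.v g * (Valued.v g * γ) < Valued.v (4 : F) := by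
    have e : Valued.v (4 : F) = Valued.v g * (Valued.v g * Valued.v (4 / (g * g))) := by
      rw [← map_mul, ← map_mul]
      congr 1
      field_simp
    rw [e]
    exact mul_lt_mul_of_pos_left (mul_lt_mul_of_pos_left hγ gpos) gpos
  have hz : ∀ j, Valued.v (m3 a b w' (ph a b τ1 d) j - cst 1 j) < Valued.v (4 : F) := by
    intro j
    have e : m3 a b w' (ph a b τ1 d) j - cst 1 j = m3 a b w' (fun j => ph a b τ1 d j - ph a b τ d j) j := by
      rw [m3_comm w' (fun j => ph a b τ1 d j - ph a b τ d j), m3_sub, m3_comm _ w', m3_comm _ w', hyw]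
    rw [e]
    exact (hb2 j).trans_lt hlt
  obtain ⟨t, ht⟩ := sqrt3 h.ia h.ib two hz
  refine ⟨t, ?_, ?_⟩
  · have hn := nf_near h.ia h.ib (z := m3 a b w' (ph a b τ1 d)) (fun j => (hz j).trans_le (v_ofNat 4))
    rw [← ht, Te_nf_mul] at hn
    exact left_ne_zero_of_mul hn
  · rw [ht, ← m3_assoc, hw', m3_one]

end H36LG

end S_H36_LG_Gn

section S_H36_LG_Mp

set_option autoImplicit false
set_option linter.unusedSectionVars false
open scoped Classical

open WithZero NumberField IsDedekindDomain H76PP H36CY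

namespace H36LG

variable {K L : Type} [Field K] [NumberField K] [Field L] [NumberField L] [Algebra K L]
  {v : HeightOneSpectrum (𝓞 K)} {w : HeightOneSpectrum (𝓞 L)}

theorem map_le (h : Pool.Agent.H10.Over v w) {x : v.adicCompletion K} (hx : Valued.v x ≤ 1) :
    Valued.v (h.map x) ≤ 1 := by
  rcases lt_or_eq_of_le hx with h1 | h1
  · have h2 := map_lt h (x := x) (y := 1) (by rw [map_one]; exact h1)
    rw [map_one, map_one] at h2
    exact h2.le
  · have hd := HeightOneSpectrum.denseRange_algebraMap (K := K) v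
    have h2 : {t : v.adicCompletion K | Valued.v (t - x) < Valued.v (1 : v.adicCompletion K)} ∈
        nhds x := Te_nhd x one_ne_zero
    obtain ⟨t, ht, ⟨k, rfl⟩⟩ := mem_closure_iff_nhds.1 (hd x) _ h2
    have ht' : Valued.v (algebraMap K (v.adicCompletion K) k - x) <
        Valued.v (1 : v.adicCompletion K) := ht
    have h3 := map_lt h ht'
    rw [map_one] at ht'
    have h4 : Valued.v (algebraMap K (v.adicCompletion K) k) = 1 := by
      have h5 : algebraMap K (v.adicCompletion K) k =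
          x + (algebraMap K (v.adicCompletion K) k - x) := by ring
      rw [h5, Valuation.map_add_eq_of_lt_left _ (by rw [h1]; exact ht')]
      exact h1
    have h5 := v.valuedAdicCompletion_eq_valuation' (K := K) k
    change Valued.v (algebraMap K (v.adicCompletion K) k) = _ at h5
    rw [h5] at h4
    have h6 := v_one h h4
    have h7 := w.valuedAdicCompletion_eq_valuation' (K := L) (algebraMap K L k)
    change Valued.v (algebraMap L (w.adicCompletion L) (algebraMap K L k)) = _ at h7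
    rw [map_sub, h.map_algebraMap, map_one, map_one] at h3
    have h8 : h.map x = algebraMap L (w.adicCompletion L) (algebraMap K L k) -
        (algebraMap L (w.adicCompletion L) (algebraMap K L k) - h.map x) := by ring
    rw [h8]
    refine Valuation.map_sub_le _ ?_ h3.le
    rw [h7, h6]

theorem Mp_dl (h : Pool.Agent.H10.Over v w) (a b : v.adicCompletion K) :
    dl (h.map a) (h.map b) = h.map (dl a b) := by
  unfold dl
  rw [map_add, map_mul, map_mul, map_pow, map_pow, map_ofNat, map_ofNat]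

theorem Mp_16 (h : Pool.Agent.H10.Over v w) (ϖ a b : v.adicCompletion K) :
    h.map ϖ ^ 2 * dl (h.map a) (h.map b) ^ 3 = h.map (ϖ ^ 2 * dl a b ^ 3) := by
  rw [Mp_dl, map_mul, map_pow, map_pow]

theorem map_le' (h : Pool.Agent.H10.Over v w) {x y : v.adicCompletion K}
    (hxy : Valued.v x ≤ Valued.v y) : Valued.v (h.map x) ≤ Valued.v (h.map y) := by
  by_cases hy : y = 0
  · rw [hy, map_zero, le_zero_iff, Valuation.zero_iff] at hxy
    rw [hxy, hy]
  · have h1 : 0 < Valued.v y := (Valuation.pos_iff _).2 hy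
    have h2 : 0 < Valued.v (h.map y) := (Valuation.pos_iff _).2 ((map_ne_zero _).2 hy)
    have h3 := map_le h (x := x / y) (by rw [map_div₀]; exact (div_le_one₀ h1).2 hxy)
    rw [map_div₀, map_div₀] at h3
    exact (div_le_one₀ h2).1 h3

theorem Mp_TT (h : Pool.Agent.H10.Over v w) (j : Fin 3) :
    (TT j : w.adicCompletion L) = h.map (TT j) := by
  fin_cases j
  · exact (map_zero h.map).symm
  · exact (map_one h.map).symm
  · exact (map_zero h.map).symm

theorem Mp_cst (h : Pool.Agent.H10.Over v w) (x : v.adicCompletion K) (j : Fin 3) :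
    cst (h.map x) j = h.map (cst x j) := by
  fin_cases j
  · rfl
  · exact (map_zero h.map).symm
  · exact (map_zero h.map).symm

theorem Mp_m3 (h : Pool.Agent.H10.Over v w) (a b : v.adicCompletion K)
    (y z : Fin 3 → v.adicCompletion K) :
    m3 (h.map a) (h.map b) (fun j => h.map (y j)) (fun j => h.map (z j)) =
      fun j => h.map (m3 a b y z j) := by
  funext j
  exact Te_m3_map h.map a b y z j

theorem Near.map (h : Pool.Agent.H10.Over v w) {ϖ a b A B : v.adicCompletion K}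
    {τ : Fin 3 → v.adicCompletion K} (hab : Near ϖ a b A B τ) :
    Near (h.map ϖ) (h.map a) (h.map b) (h.map A) (h.map B) (fun j => h.map (τ j)) := by
  obtain ⟨ia, ib, ne, w0, w1, w4, dA, dB, rt, nr⟩ := hab
  refine ⟨map_le h ia, map_le h ib, ?_, (map_ne_zero _).2 w0, ?_, ?_, ?_, ?_, ?_, ?_⟩
  · rw [Mp_dl]
    exact (map_ne_zero _).2 ne
  · have h4 := map_lt h (x := ϖ) (y := 1) (by rw [map_one]; exact w1)
    rw [map_one, map_one] at h4
    exact h4
  · have h4 := map_le' h w4
    rw [map_ofNat] at h4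
    exact h4
  · rw [Mp_16, ← map_sub]
    exact map_lt h dA
  · rw [Mp_16, ← map_sub]
    exact map_lt h dB
  · intro j
    rw [Mp_m3, Mp_m3, Mp_cst]
    have h4 := congrArg h.map (rt j)
    rw [map_add, map_add, map_mul, map_zero] at h4
    exact h4
  · intro j
    rw [Mp_16, Mp_TT h, ← map_sub]
    exact map_lt h (nr j)

end H36LG

end S_H36_LG_Mp

section S_H36_LG_Gl

set_option autoImplicit false
set_option linter.unusedSectionVars false
open scoped Classical

open WithZero NumberField IsDedekindDomain H76PP H36CY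

namespace H36LG

private theorem Gl_val {k : Type} [Field k] [NumberField k] (u : HeightOneSpectrum (𝓞 k)) (x : k) :
    Valued.v (algebraMap k (u.adicCompletion k) x) = u.valuation k x :=
  HeightOneSpectrum.valuedAdicCompletion_eq_valuation' u x

private theorem Gl_char {k : Type} [Field k] [NumberField k] (u : HeightOneSpectrum (𝓞 k)) :
    CharZero (u.adicCompletion k) :=
  charZero_of_injective_algebraMap (algebraMap k (u.adicCompletion k)).injective

private theorem Gl_near {k : Type} [Field k] [NumberField k] (u : HeightOneSpectrum (𝓞 k))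
    (x : u.adicCompletion k) {c : u.adicCompletion k} (hc : c ≠ 0) :
    ∃ y : k, Valued.v (algebraMap k (u.adicCompletion k) y - x) < Valued.v c := by
  have hd := HeightOneSpectrum.denseRange_algebraMap (K := k) u
  obtain ⟨y, hy⟩ := hd.mem_nhds (Te_nhd x hc)
  exact ⟨y, hy⟩

private theorem Gl_ph_map {F F' : Type*} [Field F] [Field F'] (i : F →+* F') (a b : F)
    (τ c : Fin 3 → F) :
    (fun j => i (ph a b τ c j)) = ph (i a) (i b) (fun j => i (τ j)) (fun j => i (c j)) := by
  funext j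
  unfold ph
  rw [map_add, map_add, map_mul, map_mul, map_mul, Te_m3_map]
  have h : i (cst (1 : F) j) = cst (1 : F') j := by
    fin_cases j <;> simp [cst]
  rw [h]

private theorem Gl_nf_smul {F : Type*} [Field F] (a b c : F) (z : Fin 3 → F) :
    Te_nf a b (fun j => c * z j) = c ^ 3 * Te_nf a b z := by
  unfold Te_nf
  ring

private theorem Gl_sq {F : Type*} [Field F] (a b c : F) (w t : Fin 3 → F) (j : Fin 3) :
    m3 a b w (m3 a b (fun j => c * t j) (fun j => c * t j)) j = c ^ 2 * m3 a b w (m3 a b t t) j := by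
  fin_cases j <;> simp [m3] <;> ring

private theorem Gl_N {k F : Type*} [Field k] [Field F] (i : k →+* F) {a b A B : k} {d d1 : Fin 3 → k}
    {w t : Fin 3 → F} (hw : Te_nf (i a) (i b) w = i (Te_nf A B d))
    (hte : (fun j => i (d1 j)) = m3 (i a) (i b) w (m3 (i a) (i b) t t)) :
    i (Te_nf a b d1) = i (Te_nf A B d) * Te_nf (i a) (i b) t ^ 2 := by
  rw [← Te_nf_map, hte, Te_nf_mul, Te_nf_mul, hw]
  ring

private theorem Gl_last {k F : Type*} [Field k] [Field F] (i : k →+* F) {a b A B : k} {d d1 : Fin 3 → k}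
    {w t : Fin 3 → F} {n : k} (hn0 : n ≠ 0) (hn : Te_nf A B d = n * n) (ht : Te_nf (i a) (i b) t ≠ 0)
    (hw : Te_nf (i a) (i b) w = i (Te_nf A B d))
    (hte : (fun j => i (d1 j)) = m3 (i a) (i b) w (m3 (i a) (i b) t t)) :
    ∃ s : Fin 3 → F, Te_nf (i a) (i b) s ≠ 0 ∧
      (fun j => i (Te_nf a b d1 * d1 j)) = m3 (i a) (i b) w (m3 (i a) (i b) s s) := by
  have h1 := Gl_N i hw hte
  obtain ⟨e, he⟩ : ∃ e : F, e = i n * Te_nf (i a) (i b) t := ⟨_, rfl⟩
  have he0 : e ≠ 0 := by
    rw [he]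
    exact mul_ne_zero ((map_ne_zero _).2 hn0) ht
  have he2 : i (Te_nf a b d1) = e ^ 2 := by
    rw [h1, hn, he, map_mul]
    ring
  refine ⟨fun j => e * t j, ?_, ?_⟩
  · rw [Gl_nf_smul]
    exact mul_ne_zero (pow_ne_zero _ he0) ht
  · funext j
    rw [Gl_sq, map_mul, he2, ← congrFun hte j]

private theorem Gl_nf {F : Type*} [Field F] [Valued F (WithZero (Multiplicative ℤ))] {ϖ a b A B : F}
    {τ : Fin 3 → F} (h : Near ϖ a b A B τ) (d : Fin 3 → F) :
    Te_nf a b (ph a b τ d) = Te_nf A B d := ph_nf h.rt (det_ne h) d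

section

variable {K k : Type} [Field K] [NumberField K] [Field k] [NumberField k] [Algebra K k]
    {v : HeightOneSpectrum (𝓞 K)} {a b A B : K} {ϖ : v.adicCompletion K} {τ : Fin 3 → v.adicCompletion K}

private theorem Gl_map (h : Near ϖ (algebraMap K (v.adicCompletion K) a) (algebraMap K (v.adicCompletion K) b)
      (algebraMap K (v.adicCompletion K) A) (algebraMap K (v.adicCompletion K) B) τ)
    (u : HeightOneSpectrum (𝓞 k)) (hov : Pool.Agent.H10.Over v u) :
    Near (hov.map ϖ) (algebraMap k (u.adicCompletion k) (algebraMap K k a))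
      (algebraMap k (u.adicCompletion k) (algebraMap K k b))
      (algebraMap k (u.adicCompletion k) (algebraMap K k A))
      (algebraMap k (u.adicCompletion k) (algebraMap K k B)) (fun j => hov.map (τ j)) := by
  have hn := Near.map hov h
  have e1 := hov.map_algebraMap a
  have e2 := hov.map_algebraMap b
  have e3 := hov.map_algebraMap A
  have e4 := hov.map_algebraMap B
  rw [← e1, ← e2, ← e3, ← e4]
  exact hn

private theorem Gl_key (h : Near ϖ (algebraMap K (v.adicCompletion K) a) (algebraMap K (v.adicCompletion K) b)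
      (algebraMap K (v.adicCompletion K) A) (algebraMap K (v.adicCompletion K) B) τ)
    {d : Fin 3 → k} (hd : Te_nf (algebraMap K k A) (algebraMap K k B) d ≠ 0)
    (u : HeightOneSpectrum (𝓞 k)) (hov : Pool.Agent.H10.Over v u) :
      ∃ c : u.adicCompletion k, c ≠ 0 ∧ ∀ τ1 : Fin 3 → u.adicCompletion k,
        (∀ j, Valued.v (τ1 j - hov.map (τ j)) < Valued.v c) →
        ∃ t : Fin 3 → u.adicCompletion k,
          Te_nf (algebraMap k (u.adicCompletion k) (algebraMap K k a))
            (algebraMap k (u.adicCompletion k) (algebraMap K k b)) t ≠ 0 ∧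
          ph (algebraMap k (u.adicCompletion k) (algebraMap K k a))
            (algebraMap k (u.adicCompletion k) (algebraMap K k b)) τ1
            (fun j => algebraMap k (u.adicCompletion k) (d j)) =
          m3 (algebraMap k (u.adicCompletion k) (algebraMap K k a))
            (algebraMap k (u.adicCompletion k) (algebraMap K k b))
            (ph (algebraMap k (u.adicCompletion k) (algebraMap K k a))
              (algebraMap k (u.adicCompletion k) (algebraMap K k b)) (fun j => hov.map (τ j))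
              (fun j => algebraMap k (u.adicCompletion k) (d j)))
            (m3 (algebraMap k (u.adicCompletion k) (algebraMap K k a))
              (algebraMap k (u.adicCompletion k) (algebraMap K k b)) t t) := by
  have hc := Gl_char u
  refine ph_near (Gl_map h u hov) ?_
  rw [Te_nf_map]
  exact (map_ne_zero _).2 hd

private theorem Gl_norm (h : Near ϖ (algebraMap K (v.adicCompletion K) a) (algebraMap K (v.adicCompletion K) b)
      (algebraMap K (v.adicCompletion K) A) (algebraMap K (v.adicCompletion K) B) τ)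
    (d : Fin 3 → k) (u : HeightOneSpectrum (𝓞 k)) (hov : Pool.Agent.H10.Over v u) :
      Te_nf (algebraMap k (u.adicCompletion k) (algebraMap K k a))
        (algebraMap k (u.adicCompletion k) (algebraMap K k b))
        (ph (algebraMap k (u.adicCompletion k) (algebraMap K k a))
          (algebraMap k (u.adicCompletion k) (algebraMap K k b)) (fun j => hov.map (τ j))
          (fun j => algebraMap k (u.adicCompletion k) (d j))) =
      algebraMap k (u.adicCompletion k) (Te_nf (algebraMap K k A) (algebraMap K k B) d) := by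
  exact (Gl_nf (Gl_map h u hov) _).trans (Te_nf_map (algebraMap k (u.adicCompletion k)) _ _ _)

/-- One power of the uniformiser for all primes above. -/
private theorem Gl_pow (v : HeightOneSpectrum (𝓞 K)) (P : ∀ u : HeightOneSpectrum (𝓞 k), Pool.Agent.H10.Over v u → u.adicCompletion k)
    (hP : ∀ u hov, P u hov ≠ 0) :
    ∃ c : K, c ≠ 0 ∧ ∀ u : HeightOneSpectrum (𝓞 k), dn K u = v → ∀ hov : Pool.Agent.H10.Over v u,
      u.valuation k (algebraMap K k c) < Valued.v (P u hov) := by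
  obtain ⟨π, hπ⟩ := v.valuation_exists_uniformizer K
  have hπ0 : π ≠ 0 := by
    rintro rfl
    rw [map_zero] at hπ
    exact absurd hπ.symm exp_ne_zero
  have hπ1 : v.valuation K π < 1 := by
    rw [hπ, ← exp_zero, exp_lt_exp]
    norm_num
  have hfin : {u : HeightOneSpectrum (𝓞 k) | dn K u = v}.Finite := fin_above v
  have hev : ∀ᶠ m : ℕ in Filter.atTop, ∀ u ∈ {u : HeightOneSpectrum (𝓞 k) | dn K u = v},
      ∀ hov : Pool.Agent.H10.Over v u,
        u.valuation k (algebraMap K k (π ^ m)) < Valued.v (P u hov) := by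
    rw [Filter.eventually_all_finite hfin]
    intro u hu
    have hu' : dn K u = v := hu
    have hov' : Pool.Agent.H10.Over v u := by
      rw [← hu']
      exact over_dn u
    have h1 := v_lt_one hov' hπ1
    have h2 : Valued.v (P u hov') ≠ 0 := (Valuation.ne_zero_iff _).2 (hP u hov')
    obtain ⟨n, hn⟩ := exists_pow_lt₀ h1 (Units.mk0 _ h2)
    rw [Units.val_mk0] at hn
    refine Filter.eventually_atTop.2 ⟨n, fun m hm _ => ?_⟩
    rw [map_pow, map_pow]
    exact (pow_le_pow_right_of_le_one' h1.le hm).trans_lt hn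
  obtain ⟨m, hm⟩ := hev.exists
  exact ⟨π ^ m, pow_ne_zero _ hπ0, hm⟩

private theorem Gl_d1 (h : Near ϖ (algebraMap K (v.adicCompletion K) a) (algebraMap K (v.adicCompletion K) b)
      (algebraMap K (v.adicCompletion K) A) (algebraMap K (v.adicCompletion K) B) τ)
    {d : Fin 3 → k} (hd : Te_nf (algebraMap K k A) (algebraMap K k B) d ≠ 0) :
    ∃ d1 : Fin 3 → k, ∀ u : HeightOneSpectrum (𝓞 k), dn K u = v → ∀ hov : Pool.Agent.H10.Over v u,
      ∃ t : Fin 3 → u.adicCompletion k,
          Te_nf (algebraMap k (u.adicCompletion k) (algebraMap K k a))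
            (algebraMap k (u.adicCompletion k) (algebraMap K k b)) t ≠ 0 ∧
          (fun j => algebraMap k (u.adicCompletion k) (d1 j)) =
          m3 (algebraMap k (u.adicCompletion k) (algebraMap K k a))
            (algebraMap k (u.adicCompletion k) (algebraMap K k b))
            (ph (algebraMap k (u.adicCompletion k) (algebraMap K k a))
              (algebraMap k (u.adicCompletion k) (algebraMap K k b)) (fun j => hov.map (τ j))
              (fun j => algebraMap k (u.adicCompletion k) (d j)))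
            (m3 (algebraMap k (u.adicCompletion k) (algebraMap K k a))
              (algebraMap k (u.adicCompletion k) (algebraMap K k b)) t t) := by
  choose P hP0 hP using fun (u : HeightOneSpectrum (𝓞 k)) (hov : Pool.Agent.H10.Over v u) => Gl_key h hd u hov
  obtain ⟨c, hc0, hc⟩ := Gl_pow v P hP0
  have hc1 : algebraMap K (v.adicCompletion K) c ≠ 0 := (map_ne_zero _).2 hc0
  choose σ hσ using fun j => Gl_near v (τ j) hc1
  refine ⟨ph (algebraMap K k a) (algebraMap K k b) (fun j => algebraMap K k (σ j)) d, ?_⟩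
  intro u hu hov
  obtain ⟨t, ht, hte⟩ := hP u hov
    (fun j => algebraMap k (u.adicCompletion k) (algebraMap K k (σ j))) (by
      intro j
      have h1 := map_lt hov (hσ j)
      rw [map_sub, hov.map_algebraMap, hov.map_algebraMap, Gl_val u (algebraMap K k c)] at h1
      exact h1.trans (hc u hu hov))
  refine ⟨t, ht, ?_⟩
  rw [← hte]
  exact Gl_ph_map (algebraMap k (u.adicCompletion k)) _ _ _ _

end

theorem glob {K k : Type} [Field K] [NumberField K] [Field k] [NumberField k] [Algebra K k]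
    {v : HeightOneSpectrum (𝓞 K)} {a b A B : K} {ϖ : v.adicCompletion K} {τ : Fin 3 → v.adicCompletion K}
    (h : Near ϖ (algebraMap K (v.adicCompletion K) a) (algebraMap K (v.adicCompletion K) b)
      (algebraMap K (v.adicCompletion K) A) (algebraMap K (v.adicCompletion K) B) τ)
    {d : Fin 3 → k} (hd : Te_nf (algebraMap K k A) (algebraMap K k B) d ≠ 0)
    (hsq : IsSquare (Te_nf (algebraMap K k A) (algebraMap K k B) d)) :
    ∃ d0 : Fin 3 → k, Te_nf (algebraMap K k a) (algebraMap K k b) d0 ≠ 0 ∧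
      IsSquare (Te_nf (algebraMap K k a) (algebraMap K k b) d0) ∧
      ∀ (u : HeightOneSpectrum (𝓞 k)), dn K u = v → ∀ hov : Pool.Agent.H10.Over v u,
        ∃ s : Fin 3 → u.adicCompletion k,
          Te_nf (algebraMap k (u.adicCompletion k) (algebraMap K k a))
            (algebraMap k (u.adicCompletion k) (algebraMap K k b)) s ≠ 0 ∧
          (fun j => algebraMap k (u.adicCompletion k) (d0 j)) =
            m3 (algebraMap k (u.adicCompletion k) (algebraMap K k a))
              (algebraMap k (u.adicCompletion k) (algebraMap K k b))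
              (ph (algebraMap k (u.adicCompletion k) (algebraMap K k a))
                (algebraMap k (u.adicCompletion k) (algebraMap K k b)) (fun j => hov.map (τ j))
                (fun j => algebraMap k (u.adicCompletion k) (d j)))
              (m3 (algebraMap k (u.adicCompletion k) (algebraMap K k a))
                (algebraMap k (u.adicCompletion k) (algebraMap K k b)) s s) := by
  obtain ⟨d1, himg⟩ := Gl_d1 h hd
  have hN0 : Te_nf (algebraMap K k a) (algebraMap K k b) d1 ≠ 0 := by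
    obtain ⟨u, hu⟩ := exists_above (L := k) v
    have hov : Pool.Agent.H10.Over v u := by
      rw [← hu]
      exact over_dn u
    obtain ⟨t, ht, hte⟩ := himg u hu hov
    have h1 := Gl_N (algebraMap k (u.adicCompletion k)) (Gl_norm h d u hov) hte
    have h2 : algebraMap k (u.adicCompletion k) (Te_nf (algebraMap K k a) (algebraMap K k b) d1) ≠ 0 := by
      rw [h1]
      exact mul_ne_zero ((map_ne_zero _).2 hd) (pow_ne_zero _ ht)
    exact (map_ne_zero _).1 h2
  obtain ⟨n, hn⟩ := hsq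
  have hn0 : n ≠ 0 := by
    rintro rfl
    rw [mul_zero] at hn
    exact hd hn
  have hnf : Te_nf (algebraMap K k a) (algebraMap K k b)
      (fun j => Te_nf (algebraMap K k a) (algebraMap K k b) d1 * d1 j) =
        Te_nf (algebraMap K k a) (algebraMap K k b) d1 ^ 2 * Te_nf (algebraMap K k a) (algebraMap K k b) d1 ^ 2 := by
    rw [Gl_nf_smul]
    ring
  refine ⟨fun j => Te_nf (algebraMap K k a) (algebraMap K k b) d1 * d1 j, ?_, ⟨_, hnf⟩, ?_⟩
  · rw [hnf]
    exact mul_ne_zero (pow_ne_zero _ hN0) (pow_ne_zero _ hN0)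
  · intro u hu hov
    obtain ⟨t, ht, hte⟩ := himg u hu hov
    exact Gl_last (algebraMap k (u.adicCompletion k)) hn0 hn ht (Gl_norm h d u hov) hte

end H36LG

end S_H36_LG_Gl

section S_H36_LG_Ta

set_option autoImplicit false
set_option linter.unusedSectionVars false
open scoped Classical

open WithZero NumberField IsDedekindDomain H76PP H36CY

namespace H36LG

variable {F : Type*} [Field F] [Valued F (WithZero (Multiplicative ℤ))]

/-- the cofactor of the derivative -/
def Ta_om (a b : F) : Fin 3 → F := ![4 * a ^ 2, -9 * b, 6 * a]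

/-- the value of `T^3 + A T + B` -/
def Ta_ka (a b A B : F) : Fin 3 → F := ![B - b, A - a, 0]

theorem Ta_der (a b : F) : m3 a b (Ta_om a b) ![a, 0, 3] = cst (dl a b) := by
  funext j
  fin_cases j <;> simp [m3, Ta_om, cst, dl] <;> ring

theorem Ta_key (a b A B : F) (s : Fin 3 → F) (j : Fin 3) :
    m3 a b (Ta_om a b) (fun i => m3 a b (fun l => TT l + s l)
      (m3 a b (fun l => TT l + s l) (fun l => TT l + s l)) i + A * (TT i + s i) + cst B i) j =
    m3 a b (Ta_om a b) (Ta_ka a b A B) j + dl a b * s j + (A - a) * m3 a b (Ta_om a b) s j +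
      3 * m3 a b (m3 a b (Ta_om a b) TT) (m3 a b s s) j +
      m3 a b (Ta_om a b) (m3 a b s (m3 a b s s)) j := by
  fin_cases j <;> simp [m3, TT, cst, dl, Ta_om, Ta_ka] <;> ring

theorem Ta_dif (a b : F) (c0 c1 c2 c3 Y Z : Fin 3 → F) (j : Fin 3) :
    -(c0 j + m3 a b c1 Y j + m3 a b c2 (m3 a b Y Y) j + m3 a b c3 (m3 a b Y (m3 a b Y Y)) j) -
      -(c0 j + m3 a b c1 Z j + m3 a b c2 (m3 a b Z Z) j + m3 a b c3 (m3 a b Z (m3 a b Z Z)) j) =
    -(m3 a b c1 (fun i => Y i - Z i) j +
      m3 a b c2 (m3 a b (fun i => Y i - Z i) (fun i => Y i + Z i)) j +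
      m3 a b c3 (m3 a b (fun i => Y i - Z i)
        (fun i => m3 a b Y Y i + m3 a b Y Z i + m3 a b Z Z i)) j) := by
  fin_cases j <;> simp [m3] <;> ring

theorem Ta_bd_mono {γ δ : WithZero (Multiplicative ℤ)} {z : Fin 3 → F} (h : Bd γ z)
    (hd : γ ≤ δ) : Bd δ z := fun j => (h j).trans hd

theorem exists_tau [CompleteSpace F] {ϖ a b A B : F} (ia : Valued.v a ≤ 1) (ib : Valued.v b ≤ 1)
    (ne : dl a b ≠ 0) (w0 : ϖ ≠ 0) (w1 : Valued.v ϖ < 1) (w4 : Valued.v ϖ ≤ Valued.v (4 : F))
    (hA : Valued.v (A - a) < Valued.v (ϖ ^ 2 * dl a b ^ 4))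
    (hB : Valued.v (B - b) < Valued.v (ϖ ^ 2 * dl a b ^ 4)) : ∃ τ : Fin 3 → F, Near ϖ a b A B τ := by
  obtain ⟨x, hx⟩ : ∃ x, x = Valued.v (dl a b) := ⟨_, rfl⟩
  obtain ⟨y, hy⟩ : ∃ y, y = Valued.v (ϖ ^ 2 : F) := ⟨_, rfl⟩
  have hx0 : x ≠ 0 := by
    rw [hx]
    exact (Valuation.ne_zero_iff _).2 ne
  have hxp : 0 < x := zero_lt_iff.2 hx0
  have hx1 : x ≤ 1 := by
    rw [hx]
    exact v_dl ia ib
  have hy1 : y < 1 := by
    rw [hy, map_pow]
    exact pow_lt_one' w1 (by norm_num)
  have e4 : Valued.v (ϖ ^ 2 * dl a b ^ 4) = y * x ^ 4 := by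
    rw [map_mul, map_pow Valued.v (dl a b), ← hx, ← hy]
  have e3 : Valued.v (ϖ ^ 2 * dl a b ^ 3) = y * x ^ 3 := by
    rw [map_mul, map_pow Valued.v (dl a b), ← hx, ← hy]
  rw [e4] at hA hB
  obtain ⟨m, hm⟩ : ∃ m, m = max (Valued.v (A - a)) (Valued.v (B - b)) := ⟨_, rfl⟩
  have hmA : Valued.v (A - a) ≤ m := by
    rw [hm]
    exact le_max_left _ _
  have hmB : Valued.v (B - b) ≤ m := by
    rw [hm]
    exact le_max_right _ _
  have hm4 : m < y * x ^ 4 := by
    rw [hm]
    exact max_lt hA hB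
  obtain ⟨ρ, hρ⟩ : ∃ ρ, ρ = m * (x ^ 2)⁻¹ := ⟨_, rfl⟩
  have hx2 : x ^ 2 ≠ 0 := pow_ne_zero _ hx0
  have hρm : ρ * x ^ 2 = m := by
    rw [hρ, mul_assoc, inv_mul_cancel₀ hx2, mul_one]
  have hρ2 : ρ < y * x ^ 2 := by
    have h1 : ρ * x ^ 2 < y * x ^ 2 * x ^ 2 := by
      rw [hρm, mul_assoc, ← pow_add]
      exact hm4
    exact lt_of_mul_lt_mul_right' h1
  have hρ1 : ρ < 1 := by
    refine hρ2.trans_le ?_
    exact mul_le_one' hy1.le (pow_le_one' hx1 2)
  have hmρ : m ≤ ρ := by
    rw [← hρm]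
    exact (mul_le_mul' le_rfl (pow_le_one' hx1 2)).trans_eq (mul_one _)
  -- the coefficients
  have bo : Bd 1 (Ta_om a b) := by
    intro j
    fin_cases j
    · show Valued.v (4 * a ^ 2) ≤ 1
      rw [map_mul, map_pow]
      exact mul_le_one' (v_ofNat 4) (pow_le_one' ia 2)
    · show Valued.v (-9 * b) ≤ 1
      rw [map_mul, Valuation.map_neg]
      exact mul_le_one' (v_ofNat 9) ib
    · show Valued.v (6 * a) ≤ 1
      rw [map_mul]
      exact mul_le_one' (v_ofNat 6) ia
  have bk : Bd m (Ta_ka a b A B) := by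
    intro j
    fin_cases j
    · exact hmB
    · exact hmA
    · show Valued.v (0 : F) ≤ m
      rw [map_zero]
      exact zero_le
  have bT : Bd 1 (TT : Fin 3 → F) := by
    intro j
    fin_cases j
    · show Valued.v (0 : F) ≤ 1
      rw [map_zero]
      exact zero_le
    · exact le_of_eq (map_one _)
    · show Valued.v (0 : F) ≤ 1
      rw [map_zero]
      exact zero_le
  obtain ⟨c0, hc0⟩ : ∃ c0 : Fin 3 → F, c0 = fun j => (dl a b ^ 2)⁻¹ *
    m3 a b (Ta_om a b) (Ta_ka a b A B) j := ⟨_, rfl⟩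
  obtain ⟨c1, hc1⟩ : ∃ c1 : Fin 3 → F, c1 = fun j => ((A - a) * (dl a b)⁻¹) * Ta_om a b j :=
    ⟨_, rfl⟩
  obtain ⟨c2, hc2⟩ : ∃ c2 : Fin 3 → F, c2 = fun j => 3 * m3 a b (Ta_om a b) TT j := ⟨_, rfl⟩
  obtain ⟨c3, hc3⟩ : ∃ c3 : Fin 3 → F, c3 = fun j => dl a b * Ta_om a b j := ⟨_, rfl⟩
  have b0 : Bd ρ c0 := by
    intro j
    have h1 := m3_bd ia ib bo bk j
    rw [one_mul] at h1
    rw [hc0]
    dsimp only
    rw [map_mul, map_inv₀, map_pow, ← hx, hρ, mul_comm]
    exact mul_le_mul' h1 le_rfl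
  have b1 : Bd ρ c1 := by
    intro j
    rw [hc1]
    dsimp only
    rw [map_mul, map_mul, map_inv₀, ← hx]
    refine (mul_le_mul' le_rfl (bo j)).trans ?_
    rw [mul_one, hρ]
    refine mul_le_mul' hmA ?_
    refine inv_anti₀ (pow_pos hxp 2) ?_
    rw [pow_two]
    exact (mul_le_mul' hx1 le_rfl).trans_eq (one_mul _)
  have b2 : Bd 1 c2 := by
    intro j
    have h1 := m3_bd ia ib bo bT j
    rw [one_mul] at h1
    rw [hc2]
    dsimp only
    rw [map_mul]
    exact mul_le_one' (v_ofNat 3) h1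
  have b3 : Bd 1 c3 := by
    intro j
    rw [hc3]
    dsimp only
    rw [map_mul, ← hx]
    exact mul_le_one' hx1 (bo j)
  obtain ⟨G, hG⟩ : ∃ G : (Fin 3 → F) → Fin 3 → F, G = fun Y j => -(c0 j + m3 a b c1 Y j +
    m3 a b c2 (m3 a b Y Y) j + m3 a b c3 (m3 a b Y (m3 a b Y Y)) j) := ⟨_, rfl⟩
  have g0 : ∀ j, Valued.v (G 0 j) ≤ ρ := by
    intro j
    have h1 : G 0 j = -c0 j := by
      rw [hG]
      fin_cases j <;> simp [m3]
    rw [h1, Valuation.map_neg]
    exact b0 j
  have gd : ∀ Y Z : Fin 3 → F, (∀ j, Valued.v (Y j) ≤ ρ) → (∀ j, Valued.v (Z j) ≤ ρ) →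
      ∀ δ : WithZero (Multiplicative ℤ), (∀ j, Valued.v (Y j - Z j) ≤ δ) →
        ∀ j, Valued.v (G Y j - G Z j) ≤ ρ * δ := by
    intro Y Z hY hZ δ hδ j
    have h1 := Ta_dif a b c0 c1 c2 c3 Y Z j
    rw [hG]
    dsimp only
    rw [h1, Valuation.map_neg]
    have hD : Bd δ (fun i => Y i - Z i) := hδ
    have hS : Bd ρ (fun i => Y i + Z i) := bd_add hY hZ
    have hρρ : ρ * ρ ≤ ρ := (mul_le_mul' hρ1.le le_rfl).trans_eq (one_mul _)
    have hQ : Bd ρ (fun i => m3 a b Y Y i + m3 a b Y Z i + m3 a b Z Z i) :=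
      Ta_bd_mono (bd_add (bd_add (m3_bd ia ib hY hY) (m3_bd ia ib hY hZ)) (m3_bd ia ib hZ hZ)) hρρ
    refine Valuation.map_add_le _ (Valuation.map_add_le _ ?_ ?_) ?_
    · exact m3_bd ia ib b1 hD j
    · refine (m3_bd ia ib b2 (m3_bd ia ib hD hS) j).trans_eq ?_
      rw [one_mul, mul_comm]
    · refine (m3_bd ia ib b3 (m3_bd ia ib hD hQ) j).trans_eq ?_
      rw [one_mul, mul_comm]
  obtain ⟨Y, hY, hfix⟩ := fix_pt G hρ1 g0 gd
  obtain ⟨s, hs⟩ : ∃ s : Fin 3 → F, s = fun j => dl a b * Y j := ⟨_, rfl⟩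
  have m3r : ∀ (c : F) (u v : Fin 3 → F), m3 a b u (fun j => c * v j) = fun j => c * m3 a b u v j := by
    intro c u v
    rw [m3_comm, m3_smul, m3_comm v u]
  -- the equation
  have hz : ∀ j, m3 a b (Ta_om a b) (fun i => m3 a b (fun l => TT l + s l)
      (m3 a b (fun l => TT l + s l) (fun l => TT l + s l)) i + A * (TT i + s i) + cst B i) j =
      0 := by
    intro j
    rw [Ta_key]
    have h1 : Y j = -(c0 j + m3 a b c1 Y j + m3 a b c2 (m3 a b Y Y) j +
        m3 a b c3 (m3 a b Y (m3 a b Y Y)) j) := by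
      have h2 := congrFun hfix j
      rw [hG] at h2
      exact h2.symm
    rw [hc0, hc1, hc2, hc3] at h1
    rw [m3_smul, m3_smul, m3_smul] at h1
    dsimp only at h1
    have h3 : m3 a b s s = fun j => dl a b * (dl a b * m3 a b Y Y j) := by
      rw [hs, m3_smul, m3r]
    have h4 : m3 a b s (m3 a b s s) = fun j =>
        dl a b * (dl a b * (dl a b * m3 a b Y (m3 a b Y Y) j)) := by
      rw [h3, m3r, m3r, hs, m3_smul]
    have h5 : m3 a b (Ta_om a b) s = fun j => dl a b * m3 a b (Ta_om a b) Y j := by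
      rw [hs, m3r]
    rw [h4, h3, h5, m3r, m3r, m3r, m3r, m3r]
    have h6 : s j = dl a b * Y j := by rw [hs]
    rw [h6]
    dsimp only
    generalize m3 a b (Ta_om a b) (Ta_ka a b A B) j = X0 at h1 ⊢
    generalize m3 a b (Ta_om a b) Y j = X1 at h1 ⊢
    generalize m3 a b (m3 a b (Ta_om a b) TT) (m3 a b Y Y) j = X2 at h1 ⊢
    generalize m3 a b (Ta_om a b) (m3 a b Y (m3 a b Y Y)) j = X3 at h1 ⊢
    generalize dl a b = Δ at h1 ne ⊢
    rw [h1]
    field_simp
    ring
  have hR : ∀ j, m3 a b (fun l => TT l + s l)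
      (m3 a b (fun l => TT l + s l) (fun l => TT l + s l)) j + A * (TT j + s j) + cst B j =
      0 := by
    intro j
    have h1 := funext hz
    have h2 := congrArg (fun u => m3 a b ![a, 0, 3] u) h1
    rw [← m3_assoc, m3_comm ![a, 0, 3] (Ta_om a b), Ta_der] at h2
    have h3 := congrFun h2 j
    rw [m3_cst] at h3
    have h4 : m3 a b ![a, 0, 3] (fun _ => (0 : F)) j = 0 := by
      fin_cases j <;> simp [m3]
    rw [h4] at h3
    exact (mul_eq_zero.1 h3).resolve_left ne
  refine ⟨fun l => TT l + s l, ⟨ia, ib, ne, w0, w1, w4, ?_, ?_, hR, ?_⟩⟩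
  · rw [e3]
    refine hA.trans_le (mul_le_mul' le_rfl ?_)
    exact pow_le_pow_right_of_le_one' hx1 (by norm_num)
  · rw [e3]
    refine hB.trans_le (mul_le_mul' le_rfl ?_)
    exact pow_le_pow_right_of_le_one' hx1 (by norm_num)
  · intro j
    rw [e3, add_sub_cancel_left, hs]
    dsimp only
    rw [map_mul, ← hx]
    have h1 : y * x ^ 3 = x * (y * x ^ 2) := by
      rw [pow_succ' x 2, mul_left_comm]
    rw [h1]
    exact mul_lt_mul_of_pos_left ((hY j).trans_lt hρ2) hxp

end H36LG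

end S_H36_LG_Ta

section S_H36_LG_Fn

set_option autoImplicit false
set_option linter.unusedSectionVars false
open scoped Classical

open WithZero NumberField IsDedekindDomain H76PP H73P2 H36CY

namespace H36LG

theorem descAt_near {K : Type} [Field K] [NumberField K] {v : HeightOneSpectrum (𝓞 K)}
    {a b A B : K} {ϖ : v.adicCompletion K} {τ : Fin 3 → v.adicCompletion K}
    (h : Near ϖ (algebraMap K (v.adicCompletion K) a) (algebraMap K (v.adicCompletion K) b)
      (algebraMap K (v.adicCompletion K) A) (algebraMap K (v.adicCompletion K) B) τ)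
    {N : Type} [Field N] [NumberField N] [Algebra K N] (hD : DescAt K N v a b) :
    DescAt K N v A B := by
  intro k k' _ _ _ _ _ _ _ _ _ _ _ _ _ two d hd hsq hloc u hu
  obtain ⟨d0, hd0, hsq0, hs⟩ := glob h hd hsq
  have hmap : ∀ (u : HeightOneSpectrum (𝓞 k)) (hov : Pool.Agent.H10.Over v u),
      Near (hov.map ϖ) (algebraMap k (u.adicCompletion k) (algebraMap K k a))
        (algebraMap k (u.adicCompletion k) (algebraMap K k b))
        (algebraMap k (u.adicCompletion k) (algebraMap K k A))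
        (algebraMap k (u.adicCompletion k) (algebraMap K k B)) (fun j => hov.map (τ j)) := by
    intro u hov
    have h1 := Near.map hov h
    simp only [Pool.Agent.H10.Over.map_algebraMap] at h1
    exact h1
  have hov : Pool.Agent.H10.Over v u := by
    rw [← hu]
    exact over_dn u
  have _ := char_zero u
  obtain ⟨s, hs0, hs1⟩ := hs u hu hov
  rw [LC_iff (algebraMap k (u.adicCompletion k)) (hmap u hov) hd hs0 hs1]
  refine hD k k' two d0 hd0 hsq0 (fun u' hu' => ?_) u hu
  have hu2 : dn K (dn k u') = v := by rw [dn_dn, hu']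
  have hov1 : Pool.Agent.H10.Over v (dn k u') := by
    rw [← hu2]
    exact over_dn _
  have hov2 : Pool.Agent.H10.Over (dn k u') u' := over_dn u'
  have _ := char_zero u'
  obtain ⟨s', hs0', hs1'⟩ := hs (dn k u') hu2 hov1
  have hN := Near.map hov2 (hmap (dn k u') hov1)
  simp only [Pool.Agent.H10.Over.map_algebraMap, ← IsScalarTower.algebraMap_apply K k k'] at hN
  have hd' : Te_nf (algebraMap K k' A) (algebraMap K k' B) (fun j => algebraMap k k' (d j)) ≠ 0 := by
    rw [IsScalarTower.algebraMap_apply K k k', IsScalarTower.algebraMap_apply K k k', Te_nf_map]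
    exact (map_ne_zero _).2 hd
  have e1 : Te_nf (algebraMap k' (u'.adicCompletion k') (algebraMap K k' a))
      (algebraMap k' (u'.adicCompletion k') (algebraMap K k' b)) (fun j => hov2.map (s' j)) ≠ 0 := by
    have h1 := Te_nf_map hov2.map (algebraMap k ((dn k u').adicCompletion k) (algebraMap K k a))
      (algebraMap k ((dn k u').adicCompletion k) (algebraMap K k b)) s'
    simp only [Pool.Agent.H10.Over.map_algebraMap, ← IsScalarTower.algebraMap_apply K k k'] at h1
    rw [h1]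
    exact (map_ne_zero _).2 hs0'
  have e2 : (fun j => algebraMap k' (u'.adicCompletion k') (algebraMap k k' (d0 j))) =
      m3 (algebraMap k' (u'.adicCompletion k') (algebraMap K k' a))
        (algebraMap k' (u'.adicCompletion k') (algebraMap K k' b))
        (ph (algebraMap k' (u'.adicCompletion k') (algebraMap K k' a))
          (algebraMap k' (u'.adicCompletion k') (algebraMap K k' b))
          (fun j => hov2.map (hov1.map (τ j)))
          (fun j => algebraMap k' (u'.adicCompletion k') (algebraMap k k' (d j))))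
        (m3 (algebraMap k' (u'.adicCompletion k') (algebraMap K k' a))
          (algebraMap k' (u'.adicCompletion k') (algebraMap K k' b)) (fun j => hov2.map (s' j))
          (fun j => hov2.map (s' j))) := by
    have key : ∀ (a b : (dn k u').adicCompletion k) (τ c s : Fin 3 → (dn k u').adicCompletion k)
        (j : Fin 3), hov2.map (m3 a b (ph a b τ c) (m3 a b s s) j) =
          m3 (hov2.map a) (hov2.map b) (ph (hov2.map a) (hov2.map b) (fun j => hov2.map (τ j))
            (fun j => hov2.map (c j))) (m3 (hov2.map a) (hov2.map b) (fun j => hov2.map (s j))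
              (fun j => hov2.map (s j))) j := by
      intro a b τ c s j
      fin_cases j <;> simp [m3, ph, cst]
    funext j
    have h1 := congrArg hov2.map (congrFun hs1' j)
    rw [key] at h1
    simp only [Pool.Agent.H10.Over.map_algebraMap, ← IsScalarTower.algebraMap_apply K k k'] at h1
    exact h1
  have h3 := LC_iff (algebraMap k' (u'.adicCompletion k')) hN hd' e1 e2
  exact h3.1 (hloc u' hu')

/-- Elements of a high power of a prime are small. -/
theorem exists_pow_small {K : Type} [Field K] [NumberField K] (v : HeightOneSpectrum (𝓞 K)) {c : K}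
    (hc : c ≠ 0) : ∃ e : ℕ, ∀ x : 𝓞 K, x ∈ v.asIdeal ^ e →
      v.valuation K (x : K) < v.valuation K c := by
  obtain ⟨e, he⟩ := exists_exp_neg_natCast_lt (x := v.valuation K c)
    ((Valuation.ne_zero_iff _).2 hc)
  refine ⟨e, fun x hx => lt_of_le_of_lt ?_ he⟩
  rw [v.valuation_of_algebraMap]
  exact (v.intValuation_le_pow_iff_mem x e).2 hx

/-- The local descent at a prime is an open condition. -/
theorem descAt_open {K : Type} [Field K] [NumberField K] (v : HeightOneSpectrum (𝓞 K))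
    {a b : 𝓞 K} (hd : dsc a b ≠ 0) :
    ∃ e : ℕ, dsc a b ∉ v.asIdeal ^ e ∧ ∀ A B : 𝓞 K, A - a ∈ v.asIdeal ^ e →
      B - b ∈ v.asIdeal ^ e → ∀ (N : Type) [Field N] [NumberField N] [Algebra K N],
        DescAt K N v (a : K) (b : K) → DescAt K N v (A : K) (B : K) := by
  obtain ⟨π, hπ⟩ := v.valuation_exists_uniformizer K
  have hπ0 : π ≠ 0 := by
    rintro rfl
    rw [map_zero] at hπ
    exact absurd hπ.symm exp_ne_zero
  have hπ1 : v.valuation K π < 1 := by
    rw [hπ, ← exp_zero, exp_lt_exp]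
    norm_num
  have h40 : (4 : K) ≠ 0 := by norm_num
  have h4 : v.valuation K 4 ≤ 1 := by exact_mod_cast vn (v.valuation K) 4
  obtain ⟨ϖ, hϖ⟩ : ∃ ϖ : K, ϖ = 4 * π := ⟨_, rfl⟩
  have w0 : ϖ ≠ 0 := by
    rw [hϖ]
    exact mul_ne_zero h40 hπ0
  have w1 : v.valuation K ϖ < 1 := by
    rw [hϖ, map_mul]
    exact (mul_le_of_le_one_left' h4).trans_lt hπ1
  have w4 : v.valuation K ϖ ≤ v.valuation K 4 := by
    rw [hϖ, map_mul]
    exact mul_le_of_le_one_right' hπ1.le
  have e0 : dl (a : K) (b : K) = ((dsc a b : 𝓞 K) : K) := by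
    unfold dl dsc
    push_cast
    rfl
  have hdl : dl (a : K) (b : K) ≠ 0 := by
    rw [e0]
    intro h
    apply hd
    apply RingOfIntegers.coe_injective
    rw [map_zero]
    exact h
  have h16 : ϖ ^ 2 * dl (a : K) (b : K) ^ 4 ≠ 0 := mul_ne_zero (pow_ne_zero 2 w0) (pow_ne_zero 4 hdl)
  obtain ⟨e, he⟩ := exists_pow_small v h16
  have hi : ∀ x : 𝓞 K, Valued.v (algebraMap K (v.adicCompletion K) (x : K)) ≤ 1 := by
    intro x
    rw [val_coe]
    exact v.valuation_le_one x
  have hdF : dl (algebraMap K (v.adicCompletion K) (a : K)) (algebraMap K (v.adicCompletion K) (b : K)) =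
      algebraMap K (v.adicCompletion K) (dl (a : K) (b : K)) := by
    unfold dl
    simp only [map_add, map_mul, map_pow, map_ofNat]
  refine ⟨e, fun h => ?_, fun A B hA hB N _ _ _ hD => ?_⟩
  · have h1 := he _ h
    rw [← e0, map_mul, map_pow, map_pow] at h1
    have h3 : v.valuation K (dl (a : K) (b : K)) ≤ 1 := by
      rw [e0]
      exact v.valuation_le_one _
    have h5 : v.valuation K (dl (a : K) (b : K)) ^ 4 ≤ v.valuation K (dl (a : K) (b : K)) := by
      calc v.valuation K (dl (a : K) (b : K)) ^ 4 =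
          v.valuation K (dl (a : K) (b : K)) ^ 3 * v.valuation K (dl (a : K) (b : K)) := pow_succ _ 3
        _ ≤ _ := mul_le_of_le_one_left' (pow_le_one' h3 3)
    exact absurd h1 (not_lt.2 ((mul_le_of_le_one_left' (pow_le_one' w1.le 2)).trans h5))
  · have hsm : ∀ x y : 𝓞 K, x - y ∈ v.asIdeal ^ e →
        Valued.v (algebraMap K (v.adicCompletion K) (x : K) -
          algebraMap K (v.adicCompletion K) (y : K)) <
          Valued.v (algebraMap K (v.adicCompletion K) ϖ ^ 2 *
            dl (algebraMap K (v.adicCompletion K) (a : K))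
              (algebraMap K (v.adicCompletion K) (b : K)) ^ 4) := by
      intro x y hxy
      have h1 := he _ hxy
      rw [hdF, ← map_pow, ← map_pow, ← map_mul, ← map_sub, val_coe, val_coe]
      have e2 : ((x - y : 𝓞 K) : K) = (x : K) - (y : K) := by push_cast; rfl
      rwa [e2] at h1
    have _ := char_zero v
    have hne : dl (algebraMap K (v.adicCompletion K) (a : K))
        (algebraMap K (v.adicCompletion K) (b : K)) ≠ 0 := by
      rw [hdF]
      exact (map_ne_zero _).2 hdl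
    obtain ⟨τ, hτ⟩ := exists_tau (hi a) (hi b) hne (ϖ := algebraMap K (v.adicCompletion K) ϖ)
      ((map_ne_zero _).2 w0) (by rw [val_coe]; exact w1)
      (by
        have e4 : (4 : v.adicCompletion K) = algebraMap K (v.adicCompletion K) 4 := by rw [map_ofNat]
        rw [e4, val_coe, val_coe]
        exact w4) (hsm A a hA) (hsm B b hB)
    exact descAt_near hτ hD

end H36LG

end S_H36_LG_Fn
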