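import Mathlib
import Pool.Agent.H76.CQ.Qb
import Pool.Agent.H76.CQ.Qe
import Pool.Agent.H76.CQ.Qf
import Pool.Agent.H76.PN.D1
import Pool.Agent.H76.PN.N1

/-! This file joins several modules to save build time (Y3). -/

set_option autoImplicit false

section S_H30_ZO_Ja

set_option autoImplicit false
open scoped Classical

open WeierstrassCurve NumberField IsDedekindDomain Pool.Agent.H10 H76PP H24PD

namespace H30ZO

private theorem Ja_prod {K L : Type} [Field K] [Field L] [Algebra K L]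
    [Fintype (L →ₐ[K] AlgebraicClosure K)]
    {φ₁ φ₂ φ₃ : L →ₐ[K] AlgebraicClosure K} (h12 : φ₁ ≠ φ₂) (h13 : φ₁ ≠ φ₃) (h23 : φ₂ ≠ φ₃)
    (hall : ∀ φ, φ = φ₁ ∨ φ = φ₂ ∨ φ = φ₃) (F : (L →ₐ[K] AlgebraicClosure K) → ℤˣ) :
    ∏ φ, F φ = F φ₁ * F φ₂ * F φ₃ := by
  have huniv : (Finset.univ : Finset (L →ₐ[K] AlgebraicClosure K)) = {φ₁, φ₂, φ₃} := by
    ext φ
    simp only [Finset.mem_univ, Finset.mem_insert, Finset.mem_singleton, true_iff]
    exact hall φ
  rw [huniv, Finset.prod_insert, Finset.prod_insert, Finset.prod_singleton, mul_assoc]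
  · simp only [Finset.mem_singleton]
    exact h23
  · simp only [Finset.mem_insert, Finset.mem_singleton, not_or]
    exact ⟨h12, h13⟩

private theorem Ja_can {Ω : Type} [Field Ω] [CharZero Ω] {u v : ℤˣ} {x : Ω} (hx : x ≠ 0)
    (h : ((u : ℤ) : Ω) * x = ((v : ℤ) : Ω) * x) : u = v := by
  have h1 := mul_right_cancel₀ hx h
  have h2 : ((u : ℤˣ) : ℤ) = ((v : ℤˣ) : ℤ) := by exact_mod_cast h1
  exact Units.ext h2


theorem exists_coc {K L : Type} [Field K] [NumberField K] [Field L] [NumberField L] [Algebra K L]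
    {a b : K} {θ : L} (hL : Cub K L a b θ) {d : Fin 3 → K} (hd : ev θ d ≠ 0)
    (hn : IsSquare (Algebra.norm K (ev θ d))) :
    ∃ (f : Coch K (⟨0, 0, 0, a, b⟩ : WeierstrassCurve K))
      (r : (L →ₐ[K] AlgebraicClosure K) → AlgebraicClosure K),
      IsCocycle K _ f ∧ (∀ σ, f σ + f σ = 0) ∧ (∀ φ, r φ ≠ 0) ∧
      (∀ σ φ, σ (r φ) = ((wp (mv σ φ θ) (f σ) : ℤ) : AlgebraicClosure K) * r (mv σ φ)) ∧
      ∀ φ, r φ ^ 2 = φ (ev θ d) := by
  obtain ⟨hfd, hfr⟩ := fin3 hL
  have hfd' : FiniteDimensional K L := hfd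
  obtain ⟨φ₁, φ₂, φ₃, h12, h13, h23, hall⟩ := emb3 (Ω := AlgebraicClosure K) hL
  have hE : IsCub ((⟨0, 0, 0, a, b⟩ : WeierstrassCurve K).baseChange (AlgebraicClosure K))
      (φ₁ θ) (φ₂ θ) (φ₃ θ) :=
    isCub_of (a := algebraMap K (AlgebraicClosure K) a)
      (b := algebraMap K (AlgebraicClosure K) b)
      (map_zero (algebraMap K (AlgebraicClosure K))) (map_zero (algebraMap K (AlgebraicClosure K)))
      (map_zero (algebraMap K (AlgebraicClosure K))) rfl rfl two_ne_zero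
      (emb_root hL φ₁) (emb_root hL φ₂) (emb_root hL φ₃) (fun h => h12 (emb_ext hL h))
      (fun h => h13 (emb_ext hL h)) (fun h => h23 (emb_ext hL h))
  have hth : ∀ φ : L →ₐ[K] AlgebraicClosure K, φ θ = φ₁ θ ∨ φ θ = φ₂ θ ∨ φ θ = φ₃ θ := by
    intro φ
    rcases hall φ with h | h | h
    · exact Or.inl (by rw [h])
    · exact Or.inr (Or.inl (by rw [h]))
    · exact Or.inr (Or.inr (by rw [h]))
  have hex : ∀ φ : L →ₐ[K] AlgebraicClosure K, ∃ x : AlgebraicClosure K,
      x ^ 2 = φ (ev θ d) := fun φ => IsAlgClosed.exists_pow_nat_eq _ two_pos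
  choose r hr2 using hex
  have hr0 : ∀ φ, r φ ≠ 0 := by
    intro φ h
    have h1 := hr2 φ
    rw [h, zero_pow two_ne_zero] at h1
    exact hd (φ.toRingHom.injective (h1.symm.trans (map_zero φ).symm))
  have hfix : ∀ σ : AlgebraicClosure K ≃ₐ[K] AlgebraicClosure K,
      σ (∏ φ, r φ) = ∏ φ, r φ := by
    intro σ
    obtain ⟨n, hn⟩ := hn
    have h1 : (∏ φ, r φ) ^ 2 = (algebraMap K (AlgebraicClosure K) n) ^ 2 := by
      rw [← Finset.prod_pow, pow_two (algebraMap K (AlgebraicClosure K) n), ← map_mul, ← hn,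
        Algebra.norm_eq_prod_embeddings K (AlgebraicClosure K)]
      exact Finset.prod_congr rfl (fun φ _ => hr2 φ)
    rcases sq_eq_sq_iff_eq_or_eq_neg.1 h1 with h | h
    · rw [h, AlgEquiv.commutes]
    · rw [h, map_neg, AlgEquiv.commutes]
  have hsg : ∀ (σ : AlgebraicClosure K ≃ₐ[K] AlgebraicClosure K)
      (φ : L →ₐ[K] AlgebraicClosure K), ∃ e : ℤˣ,
        σ (r φ) = ((e : ℤ) : AlgebraicClosure K) * r (mv σ φ) := by
    intro σ φ
    have h2 : (σ (r φ)) ^ 2 = (r (mv σ φ)) ^ 2 := by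
      rw [← map_pow, hr2, hr2, mv_apply]
    rcases sq_eq_sq_iff_eq_or_eq_neg.1 h2 with h | h
    · exact ⟨1, by rw [h]; simp⟩
    · exact ⟨-1, by rw [h]; simp⟩
  choose e he using hsg
  have hmm : ∀ (σ : AlgebraicClosure K ≃ₐ[K] AlgebraicClosure K)
      (φ : L →ₐ[K] AlgebraicClosure K), mv σ⁻¹ (mv σ φ) = φ := by
    intro σ φ
    rw [← mv_mul, inv_mul_cancel, mv_one]
  have hmm' : ∀ (σ : AlgebraicClosure K ≃ₐ[K] AlgebraicClosure K)
      (φ : L →ₐ[K] AlgebraicClosure K), mv σ (mv σ⁻¹ φ) = φ := by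
    intro σ φ
    rw [← mv_mul, mul_inv_cancel, mv_one]
  have hpr0 : (∏ φ, r φ) ≠ 0 := Finset.prod_ne_zero_iff.2 (fun φ _ => hr0 φ)
  have hep : ∀ σ, ∏ φ, e σ φ = 1 := by
    intro σ
    have h1 := hfix σ
    rw [map_prod] at h1
    simp_rw [he] at h1
    rw [Finset.prod_mul_distrib, prod_mv' σ (fun φ => r φ), units_cast_prod] at h1
    refine Ja_can hpr0 ?_
    rw [h1, Units.val_one, Int.cast_one, one_mul]
  have hcp : ∀ σ, e σ (mv σ⁻¹ φ₁) * e σ (mv σ⁻¹ φ₂) * e σ (mv σ⁻¹ φ₃) = 1 := by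
    intro σ
    rw [← Ja_prod h12 h13 h23 hall (fun ψ => e σ (mv σ⁻¹ ψ)),
      prod_mv' σ⁻¹ (fun φ => e σ φ)]
    exact hep σ
  choose f hf2 hw1 hw2 hw3 using fun σ => wp_ex hE (hcp σ)
  have hw : ∀ (σ : AlgebraicClosure K ≃ₐ[K] AlgebraicClosure K)
      (ψ : L →ₐ[K] AlgebraicClosure K), wp (ψ θ) (f σ) = e σ (mv σ⁻¹ ψ) := by
    intro σ ψ
    rcases hall ψ with h | h | h
    · rw [h, hw1]
    · rw [h, hw2]
    · rw [h, hw3]
  have hact2 : ∀ (σ : AlgebraicClosure K ≃ₐ[K] AlgebraicClosure K)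
      {P : ((⟨0, 0, 0, a, b⟩ : WeierstrassCurve K).baseChange
        (AlgebraicClosure K)).toAffine.Point}, P + P = 0 →
      act (inv_bc K _) σ P + act (inv_bc K _) σ P = 0 := by
    intro σ P hP
    rw [← map_add, hP, map_zero]
  have hact : ∀ (σ : AlgebraicClosure K ≃ₐ[K] AlgebraicClosure K)
      (φ : L →ₐ[K] AlgebraicClosure K)
      (P : ((⟨0, 0, 0, a, b⟩ : WeierstrassCurve K).baseChange
        (AlgebraicClosure K)).toAffine.Point),
      wp (mv σ φ θ) (act (inv_bc K _) σ P) = wp (φ θ) P := fun σ φ P =>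
    wp_pm (σ : AlgebraicClosure K →+* AlgebraicClosure K) (inv_bc K _ σ) (φ θ) P
  have hmul : ∀ (σ τ : AlgebraicClosure K ≃ₐ[K] AlgebraicClosure K)
      (φ : L →ₐ[K] AlgebraicClosure K), e (σ * τ) φ = e τ φ * e σ (mv τ φ) := by
    intro σ τ φ
    refine Ja_can (hr0 (mv (σ * τ) φ)) ?_
    rw [← he, AlgEquiv.mul_apply, he, map_mul, map_intCast, he, mv_mul, Units.val_mul,
      Int.cast_mul, mul_assoc]
  refine ⟨f, r, (isCocycle_iff f).2 ⟨?_, ?_⟩, hf2, hr0, ?_, hr2⟩
  · have : Algebra.IsIntegral K (AlgebraicClosure K) := inferInstance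
    rw [lc_iff]
    intro σ₀
    refine ⟨Finset.univ.image (fun φ : L →ₐ[K] AlgebraicClosure K => φ θ) ∪
      Finset.univ.image (fun φ : L →ₐ[K] AlgebraicClosure K => r φ), fun σ hσ => ?_⟩
    have h1 : ∀ φ : L →ₐ[K] AlgebraicClosure K, mv σ φ = mv σ₀ φ := by
      intro φ
      refine emb_ext hL ?_
      rw [mv_apply, mv_apply]
      exact hσ _ (Finset.mem_union_left _ (Finset.mem_image_of_mem _ (Finset.mem_univ φ)))
    have h2 : ∀ φ : L →ₐ[K] AlgebraicClosure K, e σ φ = e σ₀ φ := by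
      intro φ
      have h3 : σ (r φ) = σ₀ (r φ) :=
        hσ _ (Finset.mem_union_right _ (Finset.mem_image_of_mem _ (Finset.mem_univ φ)))
      rw [he, he, h1] at h3
      exact Ja_can (hr0 _) h3
    have h4 : ∀ ψ : L →ₐ[K] AlgebraicClosure K, mv σ⁻¹ ψ = mv σ₀⁻¹ ψ := by
      intro ψ
      have h5 := h1 (mv σ⁻¹ ψ)
      rw [hmm'] at h5
      have h6 := congrArg (mv σ₀⁻¹) h5
      rw [hmm] at h6
      exact h6.symm
    have key : ∀ ψ : L →ₐ[K] AlgebraicClosure K, wp (ψ θ) (f σ) = wp (ψ θ) (f σ₀) := by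
      intro ψ
      rw [hw, hw, h2, h4]
    exact wp_ext hE (hf2 σ) (hf2 σ₀) (key φ₁) (key φ₂) (key φ₃)
  · intro σ τ
    have h2t : (f σ + act (inv_bc K _) σ (f τ)) + (f σ + act (inv_bc K _) σ (f τ)) = 0 := by
      rw [add_add_add_comm, hf2, hact2 σ (hf2 τ), add_zero]
    have key : ∀ ψ : L →ₐ[K] AlgebraicClosure K, wp (ψ θ) (f (σ * τ)) =
        wp (ψ θ) (f σ + act (inv_bc K _) σ (f τ)) := by
      intro ψ
      have h3 := hact σ (mv σ⁻¹ ψ) (f τ)
      rw [hmm'] at h3
      rw [wp_add hE (hth ψ) (hf2 σ) (hact2 σ (hf2 τ)), h3, hw, hw, hw, hmul, mul_inv_rev,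
        mv_mul, hmm', mul_comm]
    exact wp_ext hE (hf2 _) h2t (key φ₁) (key φ₂) (key φ₃)
  · intro σ φ
    rw [hw, hmm]
    exact he σ φ

end H30ZO

end S_H30_ZO_Ja

section S_H30_ZO_Jb

set_option autoImplicit false
open scoped Classical

open WeierstrassCurve NumberField IsDedekindDomain Pool.Agent.H10 H76PP H24PD

namespace H30ZO

private lemma Jb_sq {R : Type*} [CommRing R] (u : ℤˣ) : ((u : ℤ) : R) ^ 2 = 1 := by
  rcases Int.units_eq_one_or u with rfl | rfl <;> simp

private lemma Jb_perm {M : Type*} [CommRing M] (T : Fin 3 → M) (π : Fin 3 → Fin 3)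
    (hπ : Function.Injective π) :
    T (π 0) * T (π 1) + T (π 0) * T (π 2) + T (π 1) * T (π 2) =
      T 0 * T 1 + T 0 * T 2 + T 1 * T 2 ∧
    (T (π 0) + T (π 1)) * (T (π 0) + T (π 2)) * (T (π 1) + T (π 2)) =
      (T 0 + T 1) * (T 0 + T 2) * (T 1 + T 2) := by
  have h01 : π 0 ≠ π 1 := fun h => absurd (hπ h) (by decide)
  have h02 : π 0 ≠ π 2 := fun h => absurd (hπ h) (by decide)
  have h12 : π 1 ≠ π 2 := fun h => absurd (hπ h) (by decide)
  have key : ∀ i : Fin 3, i = 0 ∨ i = 1 ∨ i = 2 := by decide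
  obtain ⟨i, hi⟩ : ∃ i, i = π 0 := ⟨_, rfl⟩
  obtain ⟨j, hj⟩ : ∃ j, j = π 1 := ⟨_, rfl⟩
  obtain ⟨l, hl⟩ : ∃ l, l = π 2 := ⟨_, rfl⟩
  rw [← hi, ← hj] at h01
  rw [← hi, ← hl] at h02
  rw [← hj, ← hl] at h12
  rw [← hi, ← hj, ← hl]
  clear hi hj hl
  rcases key i with rfl | rfl | rfl <;> rcases key j with rfl | rfl | rfl <;>
    rcases key l with rfl | rfl | rfl <;>
    first
    | exact absurd rfl h01
    | exact absurd rfl h02
    | exact absurd rfl h12
    | exact ⟨by ring, by ring⟩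

private lemma Jb_m3 {F M : Type*} [CommRing F] [CommRing M] (φ : F →+* M) (a b : F)
    (u v : Fin 3 → F) : m3 (φ a) (φ b) (fun j => φ (u j)) (fun j => φ (v j)) =
      fun j => φ (m3 a b u v j) := by
  funext j
  fin_cases j <;> simp [m3]

private lemma Jb_half {M : Type*} [Field M] {W : WeierstrassCurve M} {e₁ e₂ e₃ : M}
    (h : IsCub W e₁ e₂ e₃) {x s₁ s₂ s₃ : M} (h1 : s₁ ^ 2 = x - e₁) (h2 : s₂ ^ 2 = x - e₂)
    (h3 : s₃ ^ 2 = x - e₃) {X Y : M} (hns : W.toAffine.Nonsingular X Y)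
    (hX : X = x + s₁ * s₂ + s₁ * s₃ + s₂ * s₃) (hY : Y = (s₁ + s₂) * (s₁ + s₃) * (s₂ + s₃)) :
    Affine.Point.some X Y hns = h.half x s₁ s₂ s₃ h1 h2 h3 := by
  subst hX hY
  rfl

theorem triv_of_LC {K L : Type} [Field K] [NumberField K] [Field L] [Algebra K L] {a b : K} {θ : L}
    (hL : Cub K L a b θ) {F : Type} [Field F] [Algebra K F]
    {f : Coch K (⟨0, 0, 0, a, b⟩ : WeierstrassCurve K)} (h2 : ∀ σ, f σ + f σ = 0)
    {r : (L →ₐ[K] AlgebraicClosure K) → AlgebraicClosure K} (hr : ∀ φ, r φ ≠ 0)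
    (he : ∀ σ φ, σ (r φ) = ((wp (mv σ φ θ) (f σ) : ℤ) : AlgebraicClosure K) * r (mv σ φ))
    {d : Fin 3 → K} (hd : ∀ φ, r φ ^ 2 = φ (ev θ d)) (hLC : LC (algebraMap K F) a b d)
    (ι : AlgebraicClosure K →ₐ[K] AlgebraicClosure F) :
    TrivAt (F := F) (inv_bc' (⟨0, 0, 0, a, b⟩ : WeierstrassCurve K))
      (ι : AlgebraicClosure K →+* AlgebraicClosure F) (map_bc _ ι) f := by
  have : CharZero F := charZero_of_alg (K := K)
  obtain ⟨φ₁, φ₂, φ₃, n12, n13, n23, hall⟩ := emb3 (Ω := AlgebraicClosure K) hL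
  obtain ⟨q, q0, q1, q2⟩ : ∃ q : Fin 3 → (L →ₐ[K] AlgebraicClosure K),
      q 0 = φ₁ ∧ q 1 = φ₂ ∧ q 2 = φ₃ := ⟨![φ₁, φ₂, φ₃], rfl, rfl, rfl⟩
  have hq : ∀ φ : L →ₐ[K] AlgebraicClosure K, ∃ i, φ = q i := by
    intro φ
    rcases hall φ with h | h | h
    · exact ⟨0, by rw [h, q0]⟩
    · exact ⟨1, by rw [h, q1]⟩
    · exact ⟨2, by rw [h, q2]⟩
  have hal : ∀ c : K, ι (algebraMap K (AlgebraicClosure K) c) =
      algebraMap F (AlgebraicClosure F) (algebraMap K F c) := by
    intro c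
    rw [ι.commutes, IsScalarTower.algebraMap_apply K F (AlgebraicClosure F)]
  have hroot : ∀ i, ι (q i θ) ^ 3 + algebraMap F (AlgebraicClosure F) (algebraMap K F a) *
      ι (q i θ) + algebraMap F (AlgebraicClosure F) (algebraMap K F b) = 0 := by
    intro i
    have h := congrArg ι (emb_root hL (q i))
    rw [map_add, map_add, map_mul, map_pow, map_zero, hal, hal] at h
    exact h
  have hne : ∀ {φ ψ : L →ₐ[K] AlgebraicClosure K}, φ ≠ ψ → ι (φ θ) ≠ ι (ψ θ) := by
    intro φ ψ h h'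
    exact h (emb_ext hL (ι.toRingHom.injective h'))
  have c1 : ((⟨0, 0, 0, a, b⟩ : WeierstrassCurve K).baseChange (AlgebraicClosure F)).a₁ = 0 :=
    map_zero (algebraMap K (AlgebraicClosure F))
  have c2 : ((⟨0, 0, 0, a, b⟩ : WeierstrassCurve K).baseChange (AlgebraicClosure F)).a₂ = 0 :=
    map_zero (algebraMap K (AlgebraicClosure F))
  have c3 : ((⟨0, 0, 0, a, b⟩ : WeierstrassCurve K).baseChange (AlgebraicClosure F)).a₃ = 0 :=
    map_zero (algebraMap K (AlgebraicClosure F))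
  have c4 : ((⟨0, 0, 0, a, b⟩ : WeierstrassCurve K).baseChange (AlgebraicClosure F)).a₄ =
      algebraMap F (AlgebraicClosure F) (algebraMap K F a) :=
    IsScalarTower.algebraMap_apply K F (AlgebraicClosure F) a
  have c6 : ((⟨0, 0, 0, a, b⟩ : WeierstrassCurve K).baseChange (AlgebraicClosure F)).a₆ =
      algebraMap F (AlgebraicClosure F) (algebraMap K F b) :=
    IsScalarTower.algebraMap_apply K F (AlgebraicClosure F) b
  have e01 : ι (q 0 θ) ≠ ι (q 1 θ) := hne (by rw [q0, q1]; exact n12)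
  have e02 : ι (q 0 θ) ≠ ι (q 2 θ) := hne (by rw [q0, q2]; exact n13)
  have e12 : ι (q 1 θ) ≠ ι (q 2 θ) := hne (by rw [q1, q2]; exact n23)
  have hcub : IsCub ((⟨0, 0, 0, a, b⟩ : WeierstrassCurve K).baseChange (AlgebraicClosure F))
      (ι (q 0 θ)) (ι (q 1 θ)) (ι (q 2 θ)) :=
    isCub_of c1 c2 c3 c4 c6 two_ne_zero (hroot 0) (hroot 1) (hroot 2) e01 e02 e12
  have hs0 : ∀ i, ι (r (q i)) ≠ 0 := by
    intro i h
    exact hr (q i) (ι.toRingHom.injective (h.trans (map_zero ι).symm))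
  have hs : ∀ i, ι (r (q i)) ^ 2 = E3 (ι (q i θ)) (fun j =>
      algebraMap F (AlgebraicClosure F) (algebraMap K F (d j))) := by
    intro i
    rw [← map_pow, hd]
    unfold ev E3
    rw [map_add, map_add, map_mul, map_mul, map_pow, map_add, map_add, map_mul, map_mul, map_pow,
      (q i).commutes, (q i).commutes, (q i).commutes, hal, hal, hal]
  obtain ⟨x, y, z, -, -, hm⟩ := hLC
  have hζ : ∀ i, ι (r (q i)) ^ 2 * (algebraMap F (AlgebraicClosure F) x - ι (q i θ)) =
      E3 (ι (q i θ)) (fun j => algebraMap F (AlgebraicClosure F) (z j)) ^ 2 := by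
    intro i
    have g1 := congrArg (fun u : Fin 3 → F => E3 (ι (q i θ))
      (fun j => algebraMap F (AlgebraicClosure F) (u j))) hm
    change E3 (ι (q i θ)) (fun j => algebraMap F (AlgebraicClosure F)
      (m3 (algebraMap K F a) (algebraMap K F b) (fun j => algebraMap K F (d j)) ![x, -1, 0] j)) =
      E3 (ι (q i θ)) (fun j => algebraMap F (AlgebraicClosure F)
      (m3 (algebraMap K F a) (algebraMap K F b) z z j)) at g1
    rw [← Jb_m3, ← Jb_m3, E3_m3 (hroot i), E3_m3 (hroot i), ← hs i] at g1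
    have g2 : E3 (ι (q i θ)) (fun j => algebraMap F (AlgebraicClosure F)
        ((![x, -1, 0] : Fin 3 → F) j)) = algebraMap F (AlgebraicClosure F) x - ι (q i θ) := by
      unfold E3
      change algebraMap F (AlgebraicClosure F) x + algebraMap F (AlgebraicClosure F) (-1) *
        ι (q i θ) + algebraMap F (AlgebraicClosure F) 0 * ι (q i θ) ^ 2 = _
      rw [map_neg, map_one, map_zero]
      ring
    rw [g2] at g1
    rw [g1, pow_two]
  -- the square roots
  obtain ⟨t, ht⟩ : ∃ t : Fin 3 → AlgebraicClosure F, ∀ i,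
      t i = E3 (ι (q i θ)) (fun j => algebraMap F (AlgebraicClosure F) (z j)) / ι (r (q i)) :=
    ⟨_, fun i => rfl⟩
  have ht2 : ∀ i, t i ^ 2 = algebraMap F (AlgebraicClosure F) x - ι (q i θ) := by
    intro i
    rw [ht, div_pow, ← hζ i, mul_div_cancel_left₀ _ (pow_ne_zero 2 (hs0 i))]
  refine ⟨hcub.half (algebraMap F (AlgebraicClosure F) x) (t 0) (t 1) (t 2) (ht2 0) (ht2 1)
    (ht2 2), ?_⟩
  intro τ σ hx
  set S := pm (ι : AlgebraicClosure K →+* AlgebraicClosure F) (map_bc _ ι) (f σ) with hSdef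
  have hS2 : S + S = 0 := by rw [hSdef, ← map_add, h2, map_zero]
  choose π hπ using fun i => hq (mv σ (q i))
  have hτe : ∀ i, τ (ι (q i θ)) = ι (q (π i) θ) := by
    intro i
    have h1 := hx (q i θ)
    change τ (ι (q i θ)) = ι (σ (q i θ)) at h1
    rw [h1, ← hπ i]
    rfl
  have hπi : Function.Injective π := by
    have hei : Function.Injective (fun i => ι (q i θ)) := by
      intro i j hij
      fin_cases i <;> fin_cases j
      · rfl
      · exact absurd hij e01
      · exact absurd hij e02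
      · exact absurd hij.symm e01
      · rfl
      · exact absurd hij e12
      · exact absurd hij.symm e02
      · exact absurd hij.symm e12
      · rfl
    intro i j hij
    apply hei
    apply τ.injective
    change τ (ι (q i θ)) = τ (ι (q j θ))
    rw [hτe, hτe, hij]
  have hτs : ∀ i, τ (ι (r (q i))) = ((wp (ι (q (π i) θ)) S : ℤ) : AlgebraicClosure F) *
      ι (r (q (π i))) := by
    intro i
    have h1 := hx (r (q i))
    change τ (ι (r (q i))) = ι (σ (r (q i))) at h1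
    rw [h1, he, map_mul, map_intCast, hπ i]
    congr 3
    exact (wp_pm (ι : AlgebraicClosure K →+* AlgebraicClosure F)
      (map_bc _ ι) (q (π i) θ) (f σ)).symm
  have hτt : ∀ i, τ (t i) = ((wp (ι (q (π i) θ)) S : ℤ) : AlgebraicClosure F) * t (π i) := by
    intro i
    have hz1 : τ (E3 (ι (q i θ)) (fun j => algebraMap F (AlgebraicClosure F) (z j))) =
        E3 (ι (q (π i) θ)) (fun j => algebraMap F (AlgebraicClosure F) (z j)) := by
      unfold E3
      rw [map_add, map_add, map_mul, map_mul, map_pow, hτe, τ.commutes, τ.commutes, τ.commutes]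
    have hw2 : (((wp (ι (q (π i) θ)) S : ℤˣ) : ℤ) : AlgebraicClosure F) ^ 2 = 1 :=
      Jb_sq _
    have hw0 : (((wp (ι (q (π i) θ)) S : ℤˣ) : ℤ) : AlgebraicClosure F) ≠ 0 := by
      intro h0
      rw [h0] at hw2
      norm_num at hw2
    rw [ht i, ht (π i), map_div₀, hz1, hτs, div_eq_iff (mul_ne_zero hw0 (hs0 _))]
    have hs1 := hs0 (π i)
    field_simp
    rw [hw2, mul_one]
  obtain ⟨c, hc⟩ := hcub.exists_tau S hS2
  obtain ⟨w0, w1, w2⟩ := Wp_tau hcub c
  rw [← hc] at w0 w1 w2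
  obtain ⟨T, hT⟩ : ∃ T : Fin 3 → AlgebraicClosure F, ∀ j,
      T j = ((wp (ι (q j θ)) S : ℤ) : AlgebraicClosure F) * t j := ⟨_, fun j => rfl⟩
  have hT2 : ∀ j, T j ^ 2 = algebraMap F (AlgebraicClosure F) x - ι (q j θ) := by
    intro j
    rw [hT, mul_pow, Jb_sq, one_mul, ht2]
  have hτT : ∀ i, τ (t i) = T (π i) := fun i => by rw [hτt, hT]
  obtain ⟨p1, p2⟩ := Jb_perm T π hπi
  have hact : act (inv_bc' (⟨0, 0, 0, a, b⟩ : WeierstrassCurve K)) τ
      (hcub.half (algebraMap F (AlgebraicClosure F) x) (t 0) (t 1) (t 2) (ht2 0) (ht2 1) (ht2 2)) =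
      hcub.half (algebraMap F (AlgebraicClosure F) x) (T 0) (T 1) (T 2) (hT2 0) (hT2 1)
        (hT2 2) := by
    unfold act
    rw [show hcub.half (algebraMap F (AlgebraicClosure F) x) (t 0) (t 1) (t 2) (ht2 0) (ht2 1)
      (ht2 2) = Affine.Point.some _ _ (hcub.nonsingular (IsCub.half_eq (ht2 0) (ht2 1) (ht2 2)))
      from rfl, pm_some]
    refine Jb_half hcub (hT2 0) (hT2 1) (hT2 2) _ ?_ ?_
    · change τ (algebraMap F (AlgebraicClosure F) x + t 0 * t 1 + t 0 * t 2 + t 1 * t 2) = _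
      rw [map_add, map_add, map_add, map_mul, map_mul, map_mul, τ.commutes, hτT, hτT, hτT]
      linear_combination p1
    · change τ ((t 0 + t 1) * (t 0 + t 2) * (t 1 + t 2)) = _
      rw [map_mul, map_mul, map_add, map_add, map_add, hτT, hτT, hτT]
      exact p2
  have hadd := hcub.half_add_tau (ht2 0) (ht2 1) (ht2 2) c (hT2 0) (hT2 1) (hT2 2)
    (by rw [hT, w0]) (by rw [hT, w1]) (by rw [hT, w2])
  rw [hact, ← hadd, ← hc, add_sub_cancel_left]

end H30ZO

end S_H30_ZO_Jb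

section S_H36_ZO_Coh

set_option autoImplicit false
set_option linter.unusedSectionVars false
open scoped Classical

open WeierstrassCurve NumberField IsDedekindDomain Pool.Agent.H10 H76PP H24PD H36CY

namespace H36ZO

/-- The cocycle `f` of the curve `V` over `k` becomes a coboundary over the extension `L` of `k`. -/
def TrOv (k L : Type) [Field k] [NumberField k] [Field L] [Algebra k L] (V : WeierstrassCurve k)
    (f : (AlgebraicClosure k ≃ₐ[k] AlgebraicClosure k) →
      (V.baseChange (AlgebraicClosure k)).toAffine.Point) : Prop :=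
  ∀ ι : AlgebraicClosure k →ₐ[k] AlgebraicClosure L,
    ∃ P : (V.baseChange (AlgebraicClosure L)).toAffine.Point,
    ∀ τ : AlgebraicClosure L ≃ₐ[L] AlgebraicClosure L,
    ∀ σ : AlgebraicClosure k ≃ₐ[k] AlgebraicClosure k,
      (τ.toAlgHom.restrictScalars k).comp ι = ι.comp σ.toAlgHom →
      (WeierstrassCurve.Affine.Point.map ι :
        (V.baseChange (AlgebraicClosure k)).toAffine.Point →+
          (V.baseChange (AlgebraicClosure L)).toAffine.Point) (f σ) =
        (WeierstrassCurve.Affine.Point.map (τ.toAlgHom.restrictScalars k) :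
          (V.baseChange (AlgebraicClosure L)).toAffine.Point →+
            (V.baseChange (AlgebraicClosure L)).toAffine.Point) P - P

theorem trOv_iff {k L : Type} [Field k] [NumberField k] [Field L] [Algebra k L]
    {V : WeierstrassCurve k} {f : Coch k V} : TrOv k L V f ↔
      ∀ ι : AlgebraicClosure k →ₐ[k] AlgebraicClosure L, TrivAt (F := L) (inv_bc' V)
        (ι : AlgebraicClosure k →+* AlgebraicClosure L) (map_bc V ι) f :=
  forall_congr' fun ι => locTriv_aux f ι

/-- The algebra structure of the completion over the subfield. -/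
noncomputable abbrev algC (k k' : Type) [Field k] [Field k'] [NumberField k'] [Algebra k k']
    (w : HeightOneSpectrum (𝓞 k')) : Algebra k (w.adicCompletion k') :=
  ((algebraMap k' (w.adicCompletion k')).comp (algebraMap k k')).toAlgebra

/-- The local condition at the prime `v` of `K`: for all number fields `k ≤ k'` between `K` and `F` with
`[k' : k] = 2`, every class of `H^1(k, E)[2]` which is trivial over the completions of `k'` at the
places above `v` is trivial over the completions of `k` at the places above `v`. -/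
def LocC (K F : Type) [Field K] [NumberField K] [Field F] [Algebra K F]
    (v : HeightOneSpectrum (𝓞 K)) (a b : K) : Prop :=
  ∀ (k k' : Type) [Field k] [NumberField k] [Field k'] [NumberField k'] [Algebra K k] [Algebra K k']
    [Algebra k k'] [IsScalarTower K k k'] [Algebra k' F] [IsScalarTower K k' F],
    Module.finrank k k' = 2 → ∀ f : Coch k (⟨0, 0, 0, algebraMap K k a, algebraMap K k b⟩ :
      WeierstrassCurve k),
    IsCocycle k _ f → IsCobound k _ (fun σ => 2 • f σ) →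
    (∀ w : HeightOneSpectrum (𝓞 k'), dn K w = v →
      @TrOv k (w.adicCompletion k') _ _ _ (algC k k' w) _ f) →
    ∀ u : HeightOneSpectrum (𝓞 k), dn K u = v → TrOv k (u.adicCompletion k) _ f

section Kummer

variable {k L : Type} [Field k] [NumberField k] [Field L] [NumberField L] [Algebra k L] {a b : k}
  {θ : L}

/-- The element attached to a cocycle killed by two. -/
theorem exists_d (hL : Cub k L a b θ) {f : Coch k (⟨0, 0, 0, a, b⟩ : WeierstrassCurve k)}
    (hf : IsCocycle k _ f) (h2 : ∀ σ, f σ + f σ = 0) :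
    ∃ (d : Fin 3 → k) (r : (L →ₐ[k] AlgebraicClosure k) → AlgebraicClosure k),
      ev θ d ≠ 0 ∧ IsSquare (Algebra.norm k (ev θ d)) ∧ (∀ φ, r φ ≠ 0) ∧
      (∀ σ φ, σ (r φ) = ((wp (mv σ φ θ) (f σ) : ℤ) : AlgebraicClosure k) * r (mv σ φ)) ∧
      ∀ φ, r φ ^ 2 = φ (ev θ d) := by
  obtain ⟨hfd, hfr⟩ := fin3 hL
  have hfd' : FiniteDimensional k L := hfd
  obtain ⟨φ₁, φ₂, φ₃, h12, h13, h23, hall⟩ := emb3 (Ω := AlgebraicClosure k) hL
  have hE : IsCub ((⟨0, 0, 0, a, b⟩ : WeierstrassCurve k).baseChange (AlgebraicClosure k))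
      (φ₁ θ) (φ₂ θ) (φ₃ θ) :=
    isCub_of (a := algebraMap k (AlgebraicClosure k) a) (b := algebraMap k (AlgebraicClosure k) b)
      (map_zero (algebraMap k (AlgebraicClosure k))) (map_zero (algebraMap k (AlgebraicClosure k)))
      (map_zero (algebraMap k (AlgebraicClosure k))) rfl rfl two_ne_zero
      (emb_root hL φ₁) (emb_root hL φ₂) (emb_root hL φ₃) (fun h => h12 (emb_ext hL h))
      (fun h => h13 (emb_ext hL h)) (fun h => h23 (emb_ext hL h))
  have hcoc := (isCocycle_iff f).1 hf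
  have hth : ∀ φ : L →ₐ[k] AlgebraicClosure k, φ θ = φ₁ θ ∨ φ θ = φ₂ θ ∨ φ θ = φ₃ θ := by
    intro φ
    rcases hall φ with h | h | h
    · exact Or.inl (by rw [h])
    · exact Or.inr (Or.inl (by rw [h]))
    · exact Or.inr (Or.inr (by rw [h]))
  have hprod : ∀ F : (L →ₐ[k] AlgebraicClosure k) → ℤˣ, ∏ φ, F φ = F φ₁ * F φ₂ * F φ₃ := by
    intro F
    have huniv : (Finset.univ : Finset (L →ₐ[k] AlgebraicClosure k)) = {φ₁, φ₂, φ₃} := by
      ext φ
      simp only [Finset.mem_univ, Finset.mem_insert, Finset.mem_singleton, true_iff]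
      exact hall φ
    rw [huniv, Finset.prod_insert, Finset.prod_insert, Finset.prod_singleton, mul_assoc]
    · simp only [Finset.mem_singleton]
      exact h23
    · simp only [Finset.mem_insert, Finset.mem_singleton, not_or]
      exact ⟨h12, h13⟩
  obtain ⟨r, δ, hr, he, hd, hδ, hsq⟩ := sd (K := k) (L := L) (Ω := AlgebraicClosure k)
    (fun σ φ => wp (φ θ) (f σ)) (fun φ => hcoc.1.comp (wp (φ θ))) (fun σ τ φ => by
      rw [hcoc.2 σ τ, wp_add hE (hth _) (h2 σ) (by rw [← map_add, h2, map_zero])]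
      congr 1
      exact wp_pm (σ : AlgebraicClosure k →+* AlgebraicClosure k) (inv_bc k _ σ) (φ θ) (f τ))
    (fun σ => by
      rw [hprod]
      exact wp_prod hE (h2 σ))
  obtain ⟨c₀, c₁, c₂, hδe⟩ := hL.sp δ
  have hev : ev θ ![c₀, c₁, c₂] = δ := hδe.symm
  refine ⟨![c₀, c₁, c₂], r, by rw [hev]; exact hδ, by rw [hev]; exact hsq, hr, he, fun φ => ?_⟩
  rw [hev]
  exact hd φ

/-- Modification by a coboundary. -/
theorem exists_two {V : WeierstrassCurve k} [V.IsElliptic] {f : Coch k V} (hf : IsCocycle k V f)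
    (h2 : IsCobound k V (fun σ => 2 • f σ)) :
    ∃ g : Coch k V, IsCocycle k V g ∧ (∀ σ, g σ + g σ = 0) ∧
      ∀ (F : Type) [Field F] [Algebra k F], TrOv k F V f ↔ TrOv k F V g := by
  obtain ⟨Q, hQ⟩ := (isCobound_iff _).1 h2
  obtain ⟨R, hR⟩ := Pool.Agent.H11.smul_surjective (V.baseChange (AlgebraicClosure k)) 2
    (by norm_num) Q
  rw [two_nsmul] at hR
  have hcf := (isCocycle_iff f).1 hf
  have hcR := isCoc_cob (inv_bc k V) R
  refine ⟨fun σ => f σ + -(act (inv_bc k V) σ R - R), (isCocycle_iff _).2 (hcf.add hcR.neg),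
    fun σ => ?_, fun F _ _ => ?_⟩
  · have h1 : f σ + -(act (inv_bc k V) σ R - R) + (f σ + -(act (inv_bc k V) σ R - R)) =
        (f σ + f σ) - (act (inv_bc k V) σ (R + R) - (R + R)) := by
      rw [map_add]
      abel
    have h3 : f σ + f σ = act (inv_bc k V) σ Q - Q := by
      rw [← hQ σ, two_nsmul]
    rw [h1, hR, h3, sub_self]
  · rw [trOv_iff, trOv_iff]
    constructor
    · intro h ι
      exact (h ι).add (trivAt_cob (inv_bc' V) (ι : AlgebraicClosure k →+* AlgebraicClosure F)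
        (map_bc V ι) R).neg
    · intro h ι
      have h1 := (h ι).add (trivAt_cob (h := inv_bc k V) (inv_bc' V)
        (ι : AlgebraicClosure k →+* AlgebraicClosure F) (map_bc V ι) R)
      have h4 : (fun σ => f σ + -(act (inv_bc k V) σ R - R) + (act (inv_bc k V) σ R - R)) = f := by
        funext σ
        abel
      rw [h4] at h1
      exact h1

/-- Local triviality in terms of the element. -/
theorem trOv_iff_LC (hL : Cub k L a b θ) {f : Coch k (⟨0, 0, 0, a, b⟩ : WeierstrassCurve k)}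
    (h2 : ∀ σ, f σ + f σ = 0) {d : Fin 3 → k}
    {r : (L →ₐ[k] AlgebraicClosure k) → AlgebraicClosure k} (hr : ∀ φ, r φ ≠ 0)
    (he : ∀ σ φ, σ (r φ) = ((wp (mv σ φ θ) (f σ) : ℤ) : AlgebraicClosure k) * r (mv σ φ))
    (hd : ∀ φ, r φ ^ 2 = φ (ev θ d)) {F : Type} [Field F] [Algebra k F]
    (hinf : Infinite ((⟨0, 0, 0, a, b⟩ : WeierstrassCurve k).baseChange F).toAffine.Point) :
    TrOv k F _ f ↔ LC (algebraMap k F) a b d := by
  rw [trOv_iff]
  constructor
  · intro h
    obtain ⟨ι⟩ := exists_embedding k F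
    exact lo hL hinf h2 hr he hd ι (h ι)
  · intro h ι
    exact H30ZO.triv_of_LC hL h2 hr he hd h ι

theorem bc_eq {k F : Type} [Field k] [Field F] [Algebra k F] (a b : k) :
    (⟨0, 0, 0, a, b⟩ : WeierstrassCurve k).baseChange F =
      ⟨0, 0, 0, algebraMap k F a, algebraMap k F b⟩ := by
  unfold WeierstrassCurve.baseChange WeierstrassCurve.map
  simp only [map_zero]

/-- Infinitely many points over the completion. -/
theorem inf_bc {k' : Type} [Field k'] [NumberField k'] (w : HeightOneSpectrum (𝓞 k'))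
    [Algebra k (w.adicCompletion k')] (a b : k) :
    Infinite ((⟨0, 0, 0, a, b⟩ : WeierstrassCurve k).baseChange
      (w.adicCompletion k')).toAffine.Point := by
  rw [bc_eq]
  exact inf_fin w _ _

end Kummer

section Main

variable {K F : Type} [Field K] [NumberField K] [Field F] [Algebra K F]

/-- The two forms of the local condition over the larger field. -/
theorem LC_comp {k k' : Type} [Field k] [NumberField k] [Field k'] [NumberField k'] [Algebra K k]
    [Algebra K k'] [Algebra k k'] [IsScalarTower K k k'] (w : HeightOneSpectrum (𝓞 k')) (a b : K)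
    (d : Fin 3 → k) :
    LC (@algebraMap k (w.adicCompletion k') _ _ (algC k k' w)) (algebraMap K k a)
      (algebraMap K k b) d ↔ LC (algebraMap k' (w.adicCompletion k')) (algebraMap K k' a)
      (algebraMap K k' b) (fun i => algebraMap k k' (d i)) := by
  rw [IsScalarTower.algebraMap_apply K k k' a, IsScalarTower.algebraMap_apply K k k' b]
  exact Iff.rfl

/-- Descent for classes. -/
theorem locC_of_descAt [IsGalois K F] {v : HeightOneSpectrum (𝓞 K)} {a b : K}
    (hdeg : ∀ (N : IntermediateField K F) [NumberField N], IsGalois K N →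
      ∃ r : ℕ, Module.finrank K N = 2 ^ r)
    (hirr : ∀ t : K, t ^ 3 + a * t + b ≠ 0)
    (h : ∀ (N : IntermediateField K F) [NumberField N], IsGalois K N → DescAt K N v a b) :
    LocC K F v a b := by
  intro k k' _ _ _ _ _ _ _ _ _ _ h2 f hf hf2 hw u hu
  -- a Galois extension that contains `k'`
  obtain ⟨M, hM⟩ : ∃ M : IntermediateField K F, M = (IsScalarTower.toAlgHom K k' F).fieldRange :=
    ⟨_, rfl⟩
  have hk'f : FiniteDimensional K k' := Module.Finite.of_restrictScalars_finite ℚ K k'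
  have hMf : FiniteDimensional K M := by
    rw [hM]
    exact LinearMap.finiteDimensional_range (IsScalarTower.toAlgHom K k' F).toLinearMap
  have hMn : NumberField M := NumberField.of_module_finite K M
  obtain ⟨N, _, hN, hMN, -⟩ := H30CY.exists_big M (∅ : Finset Unit) (fun _ => ⊥)
    (fun i hi => absurd hi (Finset.notMem_empty i))
  obtain ⟨r, hr⟩ := hdeg N hN
  have hNf : FiniteDimensional K N := Module.Finite.of_restrictScalars_finite ℚ K N
  have hmem : ∀ x : k', algebraMap k' F x ∈ N := by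
    intro x
    apply hMN
    rw [hM]
    exact ⟨x, rfl⟩
  let _ : Algebra k' N := ((algebraMap k' F).codRestrict N.toSubfield hmem).toAlgebra
  let _ : Algebra k N := ((algebraMap k' N).comp (algebraMap k k')).toAlgebra
  have t1 : IsScalarTower K k' N := IsScalarTower.of_algebraMap_eq fun x => by
    apply Subtype.ext
    change algebraMap K F x = algebraMap k' F (algebraMap K k' x)
    exact IsScalarTower.algebraMap_apply K k' F x
  have t2 : IsScalarTower k k' N := IsScalarTower.of_algebraMap_eq fun x => rfl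
  have t3 : IsScalarTower K k N := IsScalarTower.of_algebraMap_eq fun x => by
    rw [IsScalarTower.algebraMap_apply K k' N, IsScalarTower.algebraMap_apply K k k']
    rfl
  have hirrk : ∀ t : k, t ^ 3 + algebraMap K k a * t + algebraMap K k b ≠ 0 :=
    fun t => H73P2.noroot (K := K) (N := N) (k := k) hr hirr t
  obtain ⟨L, _, _, _, θ, hL⟩ := exists_cub hirrk
  have := elliptic hL
  obtain ⟨g, hg, hg2, hfg⟩ := exists_two hf hf2
  obtain ⟨d, s, hd0, hsq, hs0, he, hd⟩ := exists_d hL hg hg2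
  have key := h N hN k k' h2 d (by rw [← Te_norm hL]; exact Algebra.norm_ne_zero_iff.2 hd0)
    (by rw [← Te_norm hL]; exact hsq) (fun w hwv => ?_) u hu
  · rw [hfg, trOv_iff_LC hL hg2 hs0 he hd (inf_bc u _ _)]
    exact key
  · have h3 := hw w hwv
    rw [← LC_comp]
    let _ : Algebra k (w.adicCompletion k') := algC k k' w
    exact (trOv_iff_LC hL hg2 hs0 he hd (inf_bc w _ _)).1 ((hfg _).1 h3)

/-- The converse. -/
theorem descAt_of_locC {v : HeightOneSpectrum (𝓞 K)} {a b : K}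
    (hdeg : ∀ (N : IntermediateField K F) [NumberField N], IsGalois K N →
      ∃ r : ℕ, Module.finrank K N = 2 ^ r)
    (hirr : ∀ t : K, t ^ 3 + a * t + b ≠ 0) (h : LocC K F v a b) :
    ∀ (N : IntermediateField K F) [NumberField N], IsGalois K N → DescAt K N v a b := by
  intro N _ hN k k' _ _ _ _ _ _ _ _ _ _ _ _ _ h2 d hd0 hsq hw u hu
  obtain ⟨r, hr⟩ := hdeg N hN
  have hNf : FiniteDimensional K N := Module.Finite.of_restrictScalars_finite ℚ K N
  let _ : Algebra k' F := ((algebraMap N F).comp (algebraMap k' N)).toAlgebra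
  have t1 : IsScalarTower K k' F := IsScalarTower.of_algebraMap_eq fun x => by
    change algebraMap N F (algebraMap K N x) = algebraMap N F (algebraMap k' N (algebraMap K k' x))
    rw [← IsScalarTower.algebraMap_apply K k' N]
  have hirrk : ∀ t : k, t ^ 3 + algebraMap K k a * t + algebraMap K k b ≠ 0 :=
    fun t => H73P2.noroot (K := K) (N := N) (k := k) hr hirr t
  obtain ⟨L, _, _, _, θ, hL⟩ := exists_cub hirrk
  rw [← Te_norm hL] at hd0 hsq
  obtain ⟨f, s, hf, hf2, hs0, he, hd⟩ := H30ZO.exists_coc hL (fun h0 => hd0 (by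
    rw [h0]
    obtain ⟨_, _⟩ := fin3 hL
    exact Algebra.norm_zero)) hsq
  have key := h k k' h2 f hf ((isCobound_iff _).2 ⟨0, fun σ => by
    rw [map_zero, sub_zero, two_nsmul, hf2]⟩) (fun w hwv => ?_) u hu
  · exact (trOv_iff_LC hL hf2 hs0 he hd (inf_bc u _ _)).1 key
  · have h3 := hw w hwv
    rw [← LC_comp] at h3
    let _ : Algebra k (w.adicCompletion k') := algC k k' w
    exact (trOv_iff_LC hL hf2 hs0 he hd (inf_bc w _ _)).2 h3

end Main

end H36ZO

end S_H36_ZO_Coh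

section S_H30_ZO_Jc

set_option autoImplicit false
open scoped Classical

open WeierstrassCurve NumberField IsDedekindDomain Pool.Agent.H10 H76PP H24PD

namespace H30ZO

theorem locTriv {K L : Type} [Field K] [NumberField K] [Field L] [Algebra K L] {a b : K} {θ : L}
    (hL : Cub K L a b θ) {f : Coch K (⟨0, 0, 0, a, b⟩ : WeierstrassCurve K)}
    (hc : IsCocycle K _ f) (h2 : ∀ σ, f σ + f σ = 0)
    {r : (L →ₐ[K] AlgebraicClosure K) → AlgebraicClosure K} (hr : ∀ φ, r φ ≠ 0)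
    (he : ∀ σ φ, σ (r φ) = ((wp (mv σ φ θ) (f σ) : ℤ) : AlgebraicClosure K) * r (mv σ φ))
    {d : Fin 3 → K} (hd : ∀ φ, r φ ^ 2 = φ (ev θ d))
    (hfin : ∀ v : HeightOneSpectrum (𝓞 K), LC (algebraMap K (v.adicCompletion K)) a b d)
    (hreal : ∀ s : K →+* ℝ, LC s a b d) : IsLocTriv K _ f := by
  rw [isLocTriv_iff]
  refine ⟨fun v ι => triv_of_LC hL h2 hr he hd (hfin v) ι, fun v ι => ?_⟩
  rcases v.isReal_or_isComplex with hv | hv
  · obtain ⟨e, -⟩ : ∃ e : v.Completion ≃+* ℝ, e = e :=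
      ⟨InfinitePlace.Completion.ringEquivRealOfIsReal hv, rfl⟩
    have h3 := H73CY.LC_map (j := algebraMap K v.Completion) (e.symm : ℝ →+* v.Completion)
      (fun x => e.symm_apply_apply (algebraMap K v.Completion x))
      (hreal ((e : v.Completion →+* ℝ).comp (algebraMap K v.Completion)))
    exact triv_of_LC hL h2 hr he hd h3 ι
  · obtain ⟨e, -⟩ : ∃ e : v.Completion ≃+* ℂ, e = e :=
      ⟨InfinitePlace.Completion.ringEquivComplexOfIsComplex hv, rfl⟩
    have hac : IsAlgClosed v.Completion := IsAlgClosed.of_ringEquiv ℂ v.Completion e.symm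
    have hsur : Function.Surjective (algebraMap v.Completion (AlgebraicClosure v.Completion)) :=
      IsAlgClosed.algebraMap_bijective_of_isIntegral.2
    refine ⟨0, ?_⟩
    intro τ σ hτ
    have h3 : σ = 1 := by
      refine AlgEquiv.ext fun x => ?_
      obtain ⟨y, hy⟩ := hsur ((ι : AlgebraicClosure K →+* AlgebraicClosure v.Completion) x)
      have h4 := hτ x
      rw [← hy, AlgEquiv.commutes, hy] at h4
      exact ((ι : AlgebraicClosure K →+* AlgebraicClosure v.Completion).injective h4).symm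
    have h5 : f 1 = 0 := ((isCocycle_iff f).1 hc).one
    rw [h3, h5, map_zero, map_zero, sub_zero]

end H30ZO

end S_H30_ZO_Jc

section S_H30_ZO_Jd

set_option autoImplicit false
open scoped Classical

open WeierstrassCurve NumberField IsDedekindDomain Pool.Agent.H10 H76PP H24PD

namespace H30ZO

private theorem Jd_double {G : Type*} [AddCommGroup G] (hfin : Finite G)
    (ht : ∀ P : G, P + P = 0 → P = 0) (P : G) : ∃ R, P = R + R := by
  have hinj : Function.Injective (fun P : G => P + P) := by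
    intro P Q h
    have h1 : P + P = Q + Q := h
    refine sub_eq_zero.1 (ht (P - Q) ?_)
    have h2 : P - Q + (P - Q) = (P + P) - (Q + Q) := by abel
    rw [h2, h1, sub_self]
  obtain ⟨R, hR⟩ := (Finite.injective_iff_surjective.1 hinj) P
  exact ⟨R, hR.symm⟩

private theorem Jd_cub {K L : Type} [Field K] [CharZero K] [Field L] [Algebra K L]
    {a b : K} {θ : L} (hL : Cub K L a b θ) (φ : L →ₐ[K] AlgebraicClosure K) :
    ∃ e₁ e₂ e₃ : AlgebraicClosure K, IsCub ((⟨0, 0, 0, a, b⟩ : WeierstrassCurve K).baseChange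
      (AlgebraicClosure K)) e₁ e₂ e₃ ∧ (φ θ = e₁ ∨ φ θ = e₂ ∨ φ θ = e₃) := by
  obtain ⟨φ₁, φ₂, φ₃, n12, n13, n23, hall⟩ := emb3 (Ω := AlgebraicClosure K) hL
  refine ⟨φ₁ θ, φ₂ θ, φ₃ θ, isCub_of (a := algebraMap K _ a) (b := algebraMap K _ b)
    (map_zero (algebraMap K (AlgebraicClosure K))) (map_zero (algebraMap K (AlgebraicClosure K)))
    (map_zero (algebraMap K (AlgebraicClosure K))) rfl rfl two_ne_zero
    (emb_root hL φ₁) (emb_root hL φ₂) (emb_root hL φ₃) (fun h => n12 (emb_ext hL h))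
    (fun h => n13 (emb_ext hL h)) (fun h => n23 (emb_ext hL h)), ?_⟩
  rcases hall φ with h | h | h
  · left
    rw [h]
  · right
    left
    rw [h]
  · right
    right
    rw [h]

theorem sq_of_cob {K L : Type} [Field K] [NumberField K] [Field L] [NumberField L] [Algebra K L]
    {a b : K} {θ : L} (hL : Cub K L a b θ) {f : Coch K (⟨0, 0, 0, a, b⟩ : WeierstrassCurve K)}
    (h2 : ∀ σ, f σ + f σ = 0)
    {r : (L →ₐ[K] AlgebraicClosure K) → AlgebraicClosure K}
    (he : ∀ σ φ, σ (r φ) = ((wp (mv σ φ θ) (f σ) : ℤ) : AlgebraicClosure K) * r (mv σ φ))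
    {d : Fin 3 → K} (hd : ∀ φ, r φ ^ 2 = φ (ev θ d)) (hcob : IsCobound K _ f)
    (hfin : Finite (⟨0, 0, 0, a, b⟩ : WeierstrassCurve K).toAffine.Point)
    (ht : ∀ P : (⟨0, 0, 0, a, b⟩ : WeierstrassCurve K).toAffine.Point, P + P = 0 → P = 0) :
    IsSquare (ev θ d) := by
  have hact : ∀ (σ : AlgebraicClosure K ≃ₐ[K] AlgebraicClosure K)
      (X : ((⟨0, 0, 0, a, b⟩ : WeierstrassCurve K).baseChange
        (AlgebraicClosure K)).toAffine.Point),
      Pool.Agent.H11.act (⟨0, 0, 0, a, b⟩ : WeierstrassCurve K) σ X =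
        act (inv_bc K (⟨0, 0, 0, a, b⟩ : WeierstrassCurve K)) σ X := by
    intro σ X
    unfold Pool.Agent.H11.act
    rw [map_eq_pm]
    rfl
  obtain ⟨R, hR⟩ := (isCobound_iff f).1 hcob
  obtain ⟨P₀, hP₀⟩ := Pool.Agent.H11.exists_of_act_eq (⟨0, 0, 0, a, b⟩ : WeierstrassCurve K)
    (R + R) (by
      intro σ
      rw [hact, map_add]
      have h1 := h2 σ
      rw [hR σ] at h1
      have h3 : ∀ x y : ((⟨0, 0, 0, a, b⟩ : WeierstrassCurve K).baseChange
        (AlgebraicClosure K)).toAffine.Point, x - y + (x - y) = 0 → x + x = y + y := by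
        intro x y h
        rw [← sub_eq_zero, ← h]
        abel
      exact h3 _ _ h1)
  obtain ⟨R₀, hR₀⟩ : ∃ R₀, P₀ = R₀ + R₀ :=
    @Jd_double (⟨0, 0, 0, a, b⟩ : WeierstrassCurve K).toAffine.Point _ hfin ht P₀
  obtain ⟨M, hM⟩ : ∃ M, M = WeierstrassCurve.Affine.Point.map
    (Algebra.ofId K (AlgebraicClosure K)) R₀ := ⟨_, rfl⟩
  have hMf : ∀ σ, act (inv_bc K (⟨0, 0, 0, a, b⟩ : WeierstrassCurve K)) σ M = M := by
    intro σ
    rw [← hact, hM]
    exact Pool.Agent.H11.act_of_K _ R₀ σ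
  have hMM : M + M = R + R := by
    rw [← hP₀, hR₀, map_add, hM]
  obtain ⟨T, hT⟩ : ∃ T, T = R - M := ⟨_, rfl⟩
  have hTT : T + T = 0 := by
    rw [hT]
    have h3 : R - M + (R - M) = (R + R) - (M + M) := by abel
    rw [h3, hMM, sub_self]
  have hTf : ∀ σ, act (inv_bc K (⟨0, 0, 0, a, b⟩ : WeierstrassCurve K)) σ T = f σ + T := by
    intro σ
    rw [hR σ, hT, map_sub, hMf]
    abel
  have hsq : ∀ u : ℤˣ, ((u : ℤ) : AlgebraicClosure K) * ((u : ℤ) : AlgebraicClosure K) = 1 := by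
    intro u
    rw [← Int.cast_mul, ← Units.val_mul, Int.units_mul_self, Units.val_one, Int.cast_one]
  have hw : ∀ σ φ, wp (φ θ) T = wp (mv σ φ θ) (f σ) * wp (mv σ φ θ) T := by
    intro σ φ
    obtain ⟨e₁, e₂, e₃, hcub, hφ⟩ := Jd_cub hL (mv σ φ)
    rw [← wp_add hcub hφ (h2 σ) hTT, ← hTf σ]
    exact (wp_pm (σ : AlgebraicClosure K →+* AlgebraicClosure K)
      (inv_bc K (⟨0, 0, 0, a, b⟩ : WeierstrassCurve K) σ) (φ θ) T).symm
  obtain ⟨φ₀, -, -, -, -, -, -⟩ := emb3 (Ω := AlgebraicClosure K) hL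
  obtain ⟨x, hx⟩ := H24PD.fd (K := K) (L := L) (Ω := AlgebraicClosure K)
    (fun φ => ((wp (φ θ) T : ℤ) : AlgebraicClosure K) * r φ) (by
      intro σ φ
      rw [map_mul, map_intCast, he, hw σ φ, Units.val_mul, Int.cast_mul]
      have h3 := hsq (wp (mv σ φ θ) (f σ))
      linear_combination (((wp (mv σ φ θ) T : ℤ) : AlgebraicClosure K) * r (mv σ φ)) * h3) φ₀
  refine ⟨x, ?_⟩
  apply φ₀.toRingHom.injective
  show φ₀ (ev θ d) = φ₀ (x * x)
  rw [← hd φ₀, map_mul, ← hx φ₀]
  have h3 := hsq (wp (φ₀ θ) T)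
  linear_combination (-(r φ₀ ^ 2)) * h3

end H30ZO

end S_H30_ZO_Jd

section S_H30_ZO_Je

set_option autoImplicit false
open scoped Classical

open WeierstrassCurve NumberField IsDedekindDomain Pool.Agent.H10 H76PP H24PD

namespace H30ZO

theorem selTriv_of_sha {K L : Type} [Field K] [NumberField K] [Field L] [NumberField L] [Algebra K L]
    {a b : K} {θ : L} (hL : Cub K L a b θ)
    (hfin : Finite (⟨0, 0, 0, a, b⟩ : WeierstrassCurve K).toAffine.Point)
    (ht : ∀ P : (⟨0, 0, 0, a, b⟩ : WeierstrassCurve K).toAffine.Point, P + P = 0 → P = 0)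
    (hS : Sha2Trivial K (⟨0, 0, 0, a, b⟩ : WeierstrassCurve K)) : SelTriv K L a b θ := by
  intro d hd hn hf hr
  obtain ⟨f, r, hc, h2, hr0, he, hd2⟩ := exists_coc hL hd hn
  have hl := locTriv hL hc h2 hr0 he hd2 hf hr
  refine sq_of_cob hL h2 he hd2 (hS f hc hl ⟨1, ?_⟩) hfin ht
  refine ⟨0, fun σ => ?_⟩
  rw [map_zero, sub_zero, pow_one]
  change 2 • f σ = 0
  rw [two_nsmul]
  exact h2 σ

end H30ZO

end S_H30_ZO_Je
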