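import Mathlib
import Pool.Agent.H24.TD.Yb
import Pool.Agent.H76.CQ.Qc
import Pool.Agent.H76.PN.A4
import Pool.Agent.H76.ZQ.Y0

/-! This file joins several modules to save build time (Y5). -/

set_option autoImplicit false

section S_H30_ZO_Ab

set_option autoImplicit false
set_option linter.unusedSectionVars false
open scoped Classical

open WithZero NumberField IsDedekindDomain H38RT
open H38T1 (SC sc scu rep eo la si Pri OddP tp unif)
open H76PP

namespace H30ZO

section Ab

variable {K : Type} [Field K] [NumberField K] (v : HeightOneSpectrum (𝓞 K))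

theorem Ab_two : v.intValuation (2 : 𝓞 K) = exp (-(e2 v : ℤ)) := by
  have h := e2_spec v
  have h2 : algebraMap (𝓞 K) K 2 = 2 := map_ofNat _ 2
  rw [← h, ← HeightOneSpectrum.valuation_of_algebraMap (K := K) v (2 : 𝓞 K)]
  exact congrArg _ h2

theorem Ab_mem (x : 𝓞 K) (n : ℕ) : x ∈ v.asIdeal ^ n ↔ v.intValuation x ≤ exp (-(n : ℤ)) :=
  (HeightOneSpectrum.intValuation_le_pow_iff_mem v x n).symm

theorem Ab_two_mem : (2 : 𝓞 K) ∈ v.asIdeal ^ e2 v := by
  rw [Ab_mem, Ab_two]

theorem Ab_two_nmem : (2 : 𝓞 K) ∉ v.asIdeal ^ (e2 v + 1) := by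
  rw [Ab_mem, Ab_two, exp_le_exp]
  push_cast
  omega

theorem Ab_or {N : ℕ} (hN : 2 * e2 v + 1 ≤ N) (x : 𝓞 K) :
    x ^ 2 - 1 ∈ v.asIdeal ^ N ↔ x - 1 ∈ v.asIdeal ^ (N - e2 v) ∨ x + 1 ∈ v.asIdeal ^ (N - e2 v) := by
  have hle : v.asIdeal ^ (N - e2 v) ≤ v.asIdeal ^ e2 v := Ideal.pow_le_pow_right (by omega)
  have hmul : v.asIdeal ^ (N - e2 v) * v.asIdeal ^ e2 v = v.asIdeal ^ N := by
    rw [← pow_add]
    congr 1
    omega
  constructor
  · intro h
    by_contra hcon
    rw [not_or, Ab_mem, Ab_mem, not_le, not_le] at hcon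
    obtain ⟨h1, h2⟩ := hcon
    have hf : x ^ 2 - 1 = (x - 1) * (x + 1) := by ring
    rw [hf, Ab_mem, map_mul] at h
    have n1 : v.intValuation (x - 1) ≠ 0 := ne_of_gt (lt_of_le_of_lt zero_le h1)
    have n2 : v.intValuation (x + 1) ≠ 0 := ne_of_gt (lt_of_le_of_lt zero_le h2)
    obtain ⟨i, hi⟩ : ∃ i : ℤ, v.intValuation (x - 1) = exp i := ⟨_, (exp_log n1).symm⟩
    obtain ⟨j, hj⟩ : ∃ j : ℤ, v.intValuation (x + 1) = exp j := ⟨_, (exp_log n2).symm⟩
    rw [hi, exp_lt_exp] at h1
    rw [hj, exp_lt_exp] at h2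
    rw [hi, hj, ← exp_add, exp_le_exp] at h
    have h3 : (2 : 𝓞 K) = (x + 1) - (x - 1) := by ring
    have h4 : v.intValuation (2 : 𝓞 K) ≤ max (exp j) (exp i) := by
      rw [h3, ← hi, ← hj]
      exact Valuation.map_sub _ _ _
    rw [Ab_two, le_max_iff, exp_le_exp, exp_le_exp] at h4
    rw [Nat.cast_sub (by omega)] at h1 h2
    omega
  · have hf : x ^ 2 - 1 = (x - 1) * (x + 1) := by ring
    rintro (h | h)
    · rw [hf, ← hmul]
      refine Ideal.mul_mem_mul h ?_
      have h5 : x + 1 = (x - 1) + 2 := by ring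
      rw [h5]
      exact Ideal.add_mem _ (hle h) (Ab_two_mem v)
    · rw [hf, ← hmul, mul_comm (x - 1)]
      refine Ideal.mul_mem_mul h ?_
      have h5 : x - 1 = (x + 1) - 2 := by ring
      rw [h5]
      exact Ideal.sub_mem _ (hle h) (Ab_two_mem v)

theorem Ab_card (n : ℕ) : Nat.card (𝓞 K ⧸ v.asIdeal ^ n) = Nv v ^ n := by
  rw [Nv, ← map_pow, Ideal.absNorm_apply, Submodule.cardQuot_apply]

theorem Ab_cardI {N m e : ℕ} (h : m + e = N) :
    Nat.card ((v.asIdeal ^ m).map (Ideal.Quotient.mk (v.asIdeal ^ N))) = Nv v ^ e := by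
  have hle : v.asIdeal ^ N ≤ v.asIdeal ^ m := Ideal.pow_le_pow_right (by omega)
  have h1 := Submodule.card_eq_card_quotient_mul_card
    ((v.asIdeal ^ m).map (Ideal.Quotient.mk (v.asIdeal ^ N)))
  have h2 : Nat.card ((𝓞 K ⧸ v.asIdeal ^ N) ⧸ (v.asIdeal ^ m).map (Ideal.Quotient.mk (v.asIdeal ^ N))) =
      Nv v ^ m := by
    rw [← Ab_card v m]
    exact Nat.card_congr (DoubleQuot.quotQuotEquivQuotOfLE hle).toEquiv
  rw [Ab_card, h2] at h1
  have hpos : 0 < Nv v ^ m := by
    refine pow_pos ?_ _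
    rw [Nv]
    exact Nat.pos_of_ne_zero (fun h0 => v.ne_bot (Ideal.absNorm_eq_zero_iff.1 h0))
  rw [mul_comm (Nat.card _)] at h1
  have h3 : Nv v ^ N = Nv v ^ m * Nv v ^ e := by rw [← pow_add, h]
  rw [h3] at h1
  exact (Nat.eq_of_mul_eq_mul_left hpos h1).symm

end Ab

theorem Ab_count {R : Type} [CommRing R] [Finite R] (I : Ideal R)
    (hsol : ∀ r : R, r ^ 2 = 1 ↔ r - 1 ∈ I ∨ r + 1 ∈ I) (hdis : ∀ r : R, r - 1 ∈ I → r + 1 ∉ I) :
    Nat.card {x : Rˣ // x ^ 2 = 1} = 2 * Nat.card I := by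
  have hp : ∀ a : I, ((a : R) + 1) ^ 2 = 1 := by
    intro a
    rw [hsol]
    left
    rw [add_sub_cancel_right]
    exact a.2
  have hm : ∀ a : I, ((a : R) - 1) ^ 2 = 1 := by
    intro a
    rw [hsol]
    right
    rw [sub_add_cancel]
    exact a.2
  have e1 : {x : Rˣ // x ^ 2 = 1} ≃ (I ⊕ I) :=
    { toFun := fun u => if h : ((u : Rˣ) : R) - 1 ∈ I then
        Sum.inl ⟨_, h⟩ else Sum.inr ⟨((u : Rˣ) : R) + 1, by
          have h2 : ((u : Rˣ) : R) ^ 2 = 1 := by
            rw [← Units.val_pow_eq_pow_val, u.2, Units.val_one]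
          exact ((hsol _).1 h2).resolve_left h⟩
      invFun := Sum.elim (fun a : I => ⟨Units.mkOfMulEqOne ((a : R) + 1)
          ((a : R) + 1) (by rw [← sq]; exact hp a), by
            apply Units.ext
            rw [Units.val_pow_eq_pow_val, Units.val_mkOfMulEqOne, Units.val_one]
            exact hp a⟩)
          (fun a : I => ⟨Units.mkOfMulEqOne ((a : R) - 1)
          ((a : R) - 1) (by rw [← sq]; exact hm a), by
            apply Units.ext
            rw [Units.val_pow_eq_pow_val, Units.val_mkOfMulEqOne, Units.val_one]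
            exact hm a⟩)
      left_inv := by
        intro u
        apply Subtype.ext
        apply Units.ext
        dsimp only
        split_ifs with h
        · simp only [Sum.elim_inl, Units.val_mkOfMulEqOne, sub_add_cancel]
        · simp only [Sum.elim_inr, Units.val_mkOfMulEqOne, add_sub_cancel_right]
      right_inv := by
        rintro (a | a)
        · simp only [Sum.elim_inl, Units.val_mkOfMulEqOne, add_sub_cancel_right, SetLike.coe_mem, dite_true]
        · have h : ¬ ((a : R) - 1) - 1 ∈ I := by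
            intro h
            refine hdis _ h ?_
            rw [sub_add_cancel]
            exact a.2
          simp only [Sum.elim_inr, Units.val_mkOfMulEqOne, sub_add_cancel, h, dite_false] }
  rw [Nat.card_congr e1, Nat.card_sum]
  ring

theorem two_tors {K : Type} [Field K] [NumberField K] (v : HeightOneSpectrum (𝓞 K)) (N : ℕ)
    (hN : 2 * e2 v + 1 ≤ N) :
    Nat.card {x : (𝓞 K ⧸ v.asIdeal ^ N)ˣ // x ^ 2 = 1} = 2 * qq v := by
  have hfin : Finite (𝓞 K ⧸ v.asIdeal ^ N) := by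
    refine Nat.finite_of_card_ne_zero ?_
    rw [Ab_card]
    refine pow_ne_zero _ ?_
    rw [Nv]
    exact fun h0 => v.ne_bot (Ideal.absNorm_eq_zero_iff.1 h0)
  set I := (v.asIdeal ^ (N - e2 v)).map (Ideal.Quotient.mk (v.asIdeal ^ N)) with hI
  have hle : v.asIdeal ^ N ≤ v.asIdeal ^ (N - e2 v) := Ideal.pow_le_pow_right (by omega)
  have hmemI : ∀ x : 𝓞 K, Ideal.Quotient.mk (v.asIdeal ^ N) x ∈ I ↔ x ∈ v.asIdeal ^ (N - e2 v) := by
    intro x
    rw [hI, Ideal.mem_map_iff_of_surjective _ Ideal.Quotient.mk_surjective]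
    constructor
    · rintro ⟨y, hy, hxy⟩
      rw [Ideal.Quotient.eq] at hxy
      have := Ideal.sub_mem _ hy (hle hxy)
      rwa [sub_sub_cancel] at this
    · intro hx
      exact ⟨x, hx, rfl⟩
  have hsol : ∀ r : 𝓞 K ⧸ v.asIdeal ^ N, r ^ 2 = 1 ↔ r - 1 ∈ I ∨ r + 1 ∈ I := by
    intro r
    obtain ⟨x, rfl⟩ := Ideal.Quotient.mk_surjective r
    have h1 : Ideal.Quotient.mk (v.asIdeal ^ N) x - 1 = Ideal.Quotient.mk (v.asIdeal ^ N) (x - 1) := by
      rw [map_sub, map_one]
    have h2 : Ideal.Quotient.mk (v.asIdeal ^ N) x + 1 = Ideal.Quotient.mk (v.asIdeal ^ N) (x + 1) := by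
      rw [map_add, map_one]
    rw [h1, h2, hmemI, hmemI, ← Ab_or v hN, ← Ideal.Quotient.eq_zero_iff_mem, map_sub, map_pow, map_one,
      sub_eq_zero]
  have hdis : ∀ r : 𝓞 K ⧸ v.asIdeal ^ N, r - 1 ∈ I → r + 1 ∉ I := by
    intro r h1 h2
    have h3 : Ideal.Quotient.mk (v.asIdeal ^ N) 2 ∈ I := by
      have h4 : Ideal.Quotient.mk (v.asIdeal ^ N) 2 = (r + 1) - (r - 1) := by
        rw [map_ofNat]
        ring
      rw [h4]
      exact Ideal.sub_mem _ h2 h1
    rw [hmemI] at h3
    exact Ab_two_nmem v (Ideal.pow_le_pow_right (by omega) h3)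
  have hcI : Nat.card I = Nv v ^ e2 v := Ab_cardI v (by omega)
  rw [Ab_count I hsol hdis, hcI, qq]

end H30ZO

end S_H30_ZO_Ab

section S_H30_ZO_Ac

set_option autoImplicit false
set_option linter.unusedSectionVars false
open scoped Classical

open WithZero NumberField IsDedekindDomain H38RT
open H38T1 (SC sc scu rep eo la si Pri OddP tp unif)
open H76PP

namespace H30ZO

section AcAux

variable {L : Type} [Field L] [NumberField L] (w : HeightOneSpectrum (𝓞 L))

private theorem Ac_mem (x : 𝓞 L) (n : ℕ) :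
    x ∈ w.asIdeal ^ n ↔ w.valuation L (x : L) ≤ exp (-(n : ℤ)) := by
  have h1 : w.valuation L (x : L) = w.intValuation x := w.valuation_of_algebraMap x
  rw [h1, w.intValuation_le_pow_iff_mem]

private theorem Ac_one {x : 𝓞 L} (hx : x ∉ w.asIdeal) : w.valuation L (x : L) = 1 :=
  (w.valuation_eq_one_iff_notMem (K := L)).2 hx

private theorem Ac_ne {x : 𝓞 L} (hx : x ∉ w.asIdeal) : (x : L) ≠ 0 := by
  intro h
  have h1 := Ac_one w hx
  rw [h, map_zero] at h1
  exact zero_ne_one h1

/-- The class of an element outside the prime, as a unit. -/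
private noncomputable def Ac_g (N : ℕ) (x : {x : 𝓞 L // x ∉ w.asIdeal}) : (𝓞 L ⧸ w.asIdeal ^ N)ˣ :=
  (Ideal.Quotient.isUnit_mk_pow_of_notMem w.asIdeal x.2).unit

private theorem Ac_g_val (N : ℕ) (x : {x : 𝓞 L // x ∉ w.asIdeal}) :
    ((Ac_g w N x : (𝓞 L ⧸ w.asIdeal ^ N)ˣ) : 𝓞 L ⧸ w.asIdeal ^ N) =
      Ideal.Quotient.mk (w.asIdeal ^ N) x.1 := rfl

private theorem Ac_mul_notMem {x y : 𝓞 L} (hx : x ∉ w.asIdeal) (hy : y ∉ w.asIdeal) :
    x * y ∉ w.asIdeal := fun h => (w.isPrime.mem_or_mem h).elim hx hy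

private theorem Ac_g_mul (N : ℕ) (x y : {x : 𝓞 L // x ∉ w.asIdeal}) :
    Ac_g w N x * Ac_g w N y = Ac_g w N ⟨x.1 * y.1, Ac_mul_notMem w x.2 y.2⟩ := by
  ext
  rw [Units.val_mul, Ac_g_val, Ac_g_val, Ac_g_val, map_mul]

private theorem Ac_g_surj {N : ℕ} (hN : N ≠ 0) (u : (𝓞 L ⧸ w.asIdeal ^ N)ˣ) :
    ∃ x, Ac_g w N x = u := by
  obtain ⟨x, hx⟩ := Ideal.Quotient.mk_surjective (u : 𝓞 L ⧸ w.asIdeal ^ N)
  have h1 : IsUnit (Ideal.Quotient.mk (w.asIdeal ^ N) x) := by
    rw [hx]
    exact u.isUnit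
  have h2 := (Ideal.Quotient.isUnit_mk_pow_iff_notMem w.asIdeal hN).1 h1
  exact ⟨⟨x, h2⟩, Units.ext hx⟩

/-- An integral element prime to `w` of the field is a fraction of such. -/
private theorem Ac_frac {y : L} (hy : w.valuation L y = 1) :
    ∃ a b : 𝓞 L, a ∉ w.asIdeal ∧ b ∉ w.asIdeal ∧ (b : L) * y = a := by
  obtain ⟨b, a, hb, h⟩ := H24TD.Yb_den w hy.le
  refine ⟨a, b, ?_, hb, h⟩
  rw [← w.valuation_eq_one_iff_notMem (K := L)]
  change w.valuation L (a : L) = 1
  rw [← h, map_mul, hy, mul_one, Ac_one w hb]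

private theorem Ac_key {z : 𝓞 L} (hz : z ∉ w.asIdeal) {N : ℕ} (hN : 2 * e2 w + 1 ≤ N) :
    sc (z : L) ∈ Sq w ↔ ∃ u : (𝓞 L ⧸ w.asIdeal ^ N)ˣ, u ^ 2 = Ac_g w N ⟨z, hz⟩ := by
  rw [mem_Sq (Ac_ne w hz)]
  have hNz : N ≠ 0 := by omega
  constructor
  · rintro ⟨r, hr⟩
    -- the element is a square in the completion
    have hvr : Valued.v r = 1 := by
      have h1 := congrArg Valued.v hr
      rw [H36CY.val_coe, Ac_one w hz, map_mul] at h1
      have h2 : Valued.v r ≠ 0 := by
        intro h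
        rw [h, zero_mul] at h1
        exact one_ne_zero h1
      have h3 := congrArg log h1
      rw [log_one, log_mul h2 h2] at h3
      rw [← exp_log h2, ← exp_zero]
      congr 1
      omega
    have hpi : (algebraMap L (w.adicCompletion L) (unif w ^ (N - 1 + 0))) ≠ 0 := by
      refine (map_ne_zero _).2 (pow_ne_zero _ ?_)
      intro h
      have h1 := H38T1.unif_spec w
      rw [h, map_zero] at h1
      exact exp_ne_zero h1.symm
    obtain ⟨y, hy⟩ := H36CY.near_coe w r hpi
    rw [H36CY.val_coe, map_pow, H38T1.unif_spec, add_zero, ← exp_nsmul] at hy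
    have hylt : Valued.v (algebraMap L (w.adicCompletion L) y - r) ≤ exp (-(N : ℤ)) := by
      have hN1 : ((N - 1 : ℕ) • (-1 : ℤ)) = -(N : ℤ) + 1 := by
        rw [nsmul_eq_mul]
        push_cast [Nat.one_le_iff_ne_zero.2 hNz]
        ring
      rw [hN1] at hy
      by_cases h0 : Valued.v (algebraMap L (w.adicCompletion L) y - r) = 0
      · rw [h0]
        exact zero_le
      · rw [← exp_log h0] at hy ⊢
        rw [exp_lt_exp] at hy
        rw [exp_le_exp]
        omega
    have hNneg : exp (-(N : ℤ)) < (1 : ℤᵐ⁰) := by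
      rw [← exp_zero, exp_lt_exp]
      omega
    have hy1 : w.valuation L y = 1 := by
      rw [← H36CY.val_coe]
      have h1 : algebraMap L (w.adicCompletion L) y =
          (algebraMap L (w.adicCompletion L) y - r) + r := by ring
      rw [h1, Valuation.map_add_eq_of_lt_right _ (by rw [hvr]; exact lt_of_le_of_lt hylt hNneg), hvr]
    obtain ⟨a, b, ha, hb, hab⟩ := Ac_frac w hy1
    have hdiff : w.valuation L (y ^ 2 - z) ≤ exp (-(N : ℤ)) := by
      rw [← H36CY.val_coe, map_sub, map_pow, hr]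
      have h1 : (algebraMap L (w.adicCompletion L) y) ^ 2 - r * r =
          (algebraMap L (w.adicCompletion L) y - r) * ((algebraMap L (w.adicCompletion L) y) + r) := by
        ring
      rw [h1, map_mul]
      have h2 : Valued.v (algebraMap L (w.adicCompletion L) y + r) ≤ 1 := by
        refine (Valued.v.map_add _ _).trans (max_le ?_ hvr.le)
        rw [H36CY.val_coe, hy1]
      calc Valued.v (algebraMap L (w.adicCompletion L) y - r) *
            Valued.v (algebraMap L (w.adicCompletion L) y + r)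
          ≤ exp (-(N : ℤ)) * 1 := mul_le_mul' hylt h2
        _ = _ := mul_one _
    have hmem : a ^ 2 - z * b ^ 2 ∈ w.asIdeal ^ N := by
      rw [Ac_mem]
      have h1 : ((a ^ 2 - z * b ^ 2 : 𝓞 L) : L) = (b : L) ^ 2 * (y ^ 2 - z) := by
        have h2 : ((a ^ 2 - z * b ^ 2 : 𝓞 L) : L) = (a : L) ^ 2 - z * (b : L) ^ 2 := by
          simp only [map_sub, map_mul, map_pow]
        rw [h2, ← hab]
        ring
      rw [h1, map_mul, map_pow, Ac_one w hb, one_pow, one_mul]
      exact hdiff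
    have h3 : (Ac_g w N ⟨a, ha⟩) ^ 2 = Ac_g w N ⟨z, hz⟩ * (Ac_g w N ⟨b, hb⟩) ^ 2 := by
      ext
      rw [Units.val_mul, Units.val_pow_eq_pow_val, Units.val_pow_eq_pow_val, Ac_g_val, Ac_g_val,
        Ac_g_val, ← map_pow, ← map_pow, ← map_mul, Ideal.Quotient.eq]
      exact hmem
    refine ⟨Ac_g w N ⟨a, ha⟩ * (Ac_g w N ⟨b, hb⟩)⁻¹, ?_⟩
    rw [mul_pow, h3, inv_pow, mul_assoc, mul_inv_cancel, mul_one]
  · rintro ⟨u, hu⟩
    obtain ⟨⟨c, hc⟩, rfl⟩ := Ac_g_surj w hNz u
    have hmem : z - c ^ 2 ∈ w.asIdeal ^ N := by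
      rw [← Ideal.Quotient.eq, map_pow]
      have h1 := congrArg (Units.val) hu
      rw [Units.val_pow_eq_pow_val, Ac_g_val, Ac_g_val] at h1
      exact h1.symm
    rw [Ac_mem] at hmem
    have h4 : w.valuation L (4 * (c : L) ^ 2) = exp (-(2 * e2 w : ℤ)) := by
      have h5 : (4 : L) = 2 * 2 := by norm_num
      rw [map_mul, map_pow, Ac_one w hc, one_pow, mul_one, h5, map_mul, e2_spec, ← exp_add]
      congr 1
      ring
    have h6 : w.valuation L ((z : L) - (c : L) ^ 2) < w.valuation L (4 * (c : L) ^ 2) := by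
      rw [h4]
      refine lt_of_le_of_lt ?_ (exp_lt_exp.2 (show -(N : ℤ) < -(2 * e2 w : ℤ) by omega))
      have h7 : ((z - c ^ 2 : 𝓞 L) : L) = (z : L) - (c : L) ^ 2 := by
        simp only [map_sub, map_pow]
      rw [← h7]
      exact hmem
    obtain ⟨r, -, hr⟩ := H36CY.sq_near' w h6
    refine ⟨algebraMap L (w.adicCompletion L) c * r, ?_⟩
    rw [hr, map_pow]
    ring

private theorem Ac_card_range {α β γ : Type*} (f : α → β) (g : α → γ)
    (h : ∀ x y, f x = f y ↔ g x = g y) : Nat.card (Set.range f) = Nat.card (Set.range g) := by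
  have hk : Setoid.ker f = Setoid.ker g := by
    ext x y
    exact h x y
  have e1 := Setoid.quotientKerEquivRange f
  have e2 := Setoid.quotientKerEquivRange g
  rw [hk] at e1
  exact Nat.card_congr (e1.symm.trans e2)

private theorem Ac_neg (c : SC L) : -c = c := by
  rw [neg_eq_iff_add_eq_zero, ← two_nsmul]
  exact H38T1.SC.two_smul c

private theorem Ac_index_sq {G : Type*} [CommGroup G] [Finite G] :
    (powMonoidHom 2 : G →* G).range.index = Nat.card {x : G // x ^ 2 = 1} := by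
  have h1 := (powMonoidHom 2 : G →* G).range.card_mul_index
  have h2 := (powMonoidHom 2 : G →* G).ker.card_mul_index
  rw [Subgroup.index_ker] at h2
  have h3 : 0 < Nat.card (powMonoidHom 2 : G →* G).range := Nat.card_pos
  have h4 : Nat.card (powMonoidHom 2 : G →* G).ker = Nat.card {x : G // x ^ 2 = 1} :=
    Nat.card_congr (Equiv.subtypeEquivRight fun x => by
      rw [MonoidHom.mem_ker, powMonoidHom_apply])
  rw [← h4]
  refine Nat.eq_of_mul_eq_mul_left h3 ?_
  rw [h1, ← h2, mul_comm]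

end AcAux

theorem index_Sq {L : Type} [Field L] [NumberField L] (w : HeightOneSpectrum (𝓞 L)) :
    (Sq w).index = 4 * qq w := by
  set N := 2 * e2 w + 1 with hN
  have hNz : N ≠ 0 := by omega
  -- the finite side
  have hfin : Finite (𝓞 L ⧸ w.asIdeal ^ N) := by
    have h1 : w.asIdeal ^ N ≠ ⊥ := pow_ne_zero _ w.ne_bot
    exact Ideal.finiteQuotientOfFreeOfNeBot _ h1
  let T : Subgroup (𝓞 L ⧸ w.asIdeal ^ N)ˣ := (powMonoidHom 2 : (𝓞 L ⧸ w.asIdeal ^ N)ˣ →* _).range
  have hT : T.index = 2 * qq w := by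
    rw [← two_tors w N le_rfl]
    exact Ac_index_sq
  let g : {x : 𝓞 L // x ∉ w.asIdeal} → (𝓞 L ⧸ w.asIdeal ^ N)ˣ ⧸ T := fun x =>
    QuotientGroup.mk (Ac_g w N x)
  let f : {x : 𝓞 L // x ∉ w.asIdeal} → SC L ⧸ Sq w := fun x =>
    QuotientAddGroup.mk (sc (x.1 : L))
  have hg : Nat.card (Set.range g) = 2 * qq w := by
    have h1 : Set.range g = Set.univ := by
      rw [Set.range_eq_univ]
      intro u
      obtain ⟨u, rfl⟩ := QuotientGroup.mk_surjective u
      obtain ⟨x, hx⟩ := Ac_g_surj w hNz u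
      exact ⟨x, congrArg _ hx⟩
    rw [h1, Nat.card_univ]
    exact hT
  have hfg : Nat.card (Set.range f) = Nat.card (Set.range g) := by
    refine Ac_card_range f g fun x y => ?_
    have h1 : f x = f y ↔ sc ((x.1 * y.1 : 𝓞 L) : L) ∈ Sq w := by
      change (QuotientAddGroup.mk _ : SC L ⧸ Sq w) = QuotientAddGroup.mk _ ↔ _
      rw [QuotientAddGroup.eq, Ac_neg, ← H38T1.sc_mul (Ac_ne w x.2) (Ac_ne w y.2), ← map_mul]
    have h2 : g x = g y ↔ ∃ u : (𝓞 L ⧸ w.asIdeal ^ N)ˣ,
        u ^ 2 = Ac_g w N ⟨x.1 * y.1, Ac_mul_notMem w x.2 y.2⟩ := by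
      change (QuotientGroup.mk _ : (𝓞 L ⧸ w.asIdeal ^ N)ˣ ⧸ T) = QuotientGroup.mk _ ↔ _
      rw [QuotientGroup.eq, ← Ac_g_mul]
      constructor
      · rintro ⟨u, hu⟩
        rw [powMonoidHom_apply] at hu
        refine ⟨Ac_g w N x * u, ?_⟩
        rw [mul_pow, hu, sq]
        group
      · rintro ⟨u, hu⟩
        refine ⟨(Ac_g w N x)⁻¹ * u, ?_⟩
        rw [powMonoidHom_apply, mul_pow, hu, inv_pow, sq]
        group
    rw [h1, h2]
    exact Ac_key w (Ac_mul_notMem w x.2 y.2) le_rfl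
  -- the parity of the order
  let ε : SC L →+ ZMod 2 := AddMonoidHom.mk' (eo w) (H38T1.eo_add w)
  have hε : ∀ c ∈ Sq w, ε c = 0 := by
    intro c hc
    obtain ⟨x, hx, rfl⟩ := H38T1.sc_surj c
    rw [mem_Sq hx] at hc
    obtain ⟨r, hr⟩ := hc
    change eo w (sc x) = 0
    rw [H38T1.eo_sc hx]
    have h1 := congrArg Valued.v hr
    rw [H36CY.val_coe, map_mul] at h1
    have hr0 : Valued.v r ≠ 0 := by
      intro h
      rw [h, zero_mul] at h1
      exact (Valuation.ne_zero_iff _).2 hx h1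
    rw [ord, h1, log_mul hr0 hr0]
    push_cast
    rw [CharTwo.add_self_eq_zero, neg_zero]
  let εb : SC L ⧸ Sq w →+ ZMod 2 := QuotientAddGroup.lift (Sq w) ε hε
  have hεb : ∀ x : L, εb (QuotientAddGroup.mk (sc x)) = eo w (sc x) := fun _ => rfl
  have hπ0 : unif w ≠ 0 := by
    intro h
    have h1 := H38T1.unif_spec w
    rw [h, map_zero] at h1
    exact exp_ne_zero h1.symm
  have hsurj : Function.Surjective εb := by
    have h1 : εb (QuotientAddGroup.mk (sc (unif w))) = 1 := by
      rw [hεb, H38T1.eo_sc hπ0, ord, H38T1.unif_spec, log_exp]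
      norm_num
    have h0 : εb 0 = 0 := map_zero _
    intro t
    fin_cases t
    · exact ⟨0, h0⟩
    · exact ⟨_, h1⟩
  have hker : Nat.card εb.ker = Nat.card (Set.range f) := by
    have h1 : (εb.ker : Set (SC L ⧸ Sq w)) = Set.range f := by
      ext q
      constructor
      · intro hq
        obtain ⟨c, rfl⟩ := QuotientAddGroup.mk_surjective q
        obtain ⟨x, hx, rfl⟩ := H38T1.sc_surj c
        have h2 : eo w (sc x) = 0 := hq
        rw [H38T1.eo_sc hx] at h2
        have h3 := (ZMod.intCast_zmod_eq_zero_iff_dvd _ 2).1 h2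
        obtain ⟨k, hk⟩ := h3
        set y := x * (unif w ^ (-k)) ^ 2 with hy
        have hu0 : unif w ^ (-k) ≠ 0 := zpow_ne_zero _ hπ0
        have hy0 : y ≠ 0 := mul_ne_zero hx (pow_ne_zero _ hu0)
        have hscy : sc y = sc x := by
          rw [hy, H38T1.sc_mul hx (pow_ne_zero _ hu0)]
          have : sc ((unif w ^ (-k)) ^ 2) = 0 := by
            rw [H38T1.sc_eq_zero (pow_ne_zero _ hu0), sq]
            exact ⟨_, rfl⟩
          rw [this, add_zero]
        have hvx : w.valuation L x ≠ 0 := (Valuation.ne_zero_iff _).2 hx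
        have hvy : w.valuation L y = 1 := by
          have h4 : w.valuation L x = exp (-(2 * k)) := by
            rw [← exp_log hvx]
            congr 1
            rw [ord] at hk
            push_cast at hk
            omega
          rw [hy, map_mul, map_pow, map_zpow₀, H38T1.unif_spec, h4, ← exp_zsmul, ← exp_nsmul, ← exp_add,
            ← exp_zero]
          congr 1
          simp only [smul_eq_mul, nsmul_eq_mul]
          push_cast
          ring
        obtain ⟨a, b, ha, hb, hab⟩ := Ac_frac w hvy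
        refine ⟨⟨a * b, Ac_mul_notMem w ha hb⟩, ?_⟩
        change (QuotientAddGroup.mk (sc ((a * b : 𝓞 L) : L)) : SC L ⧸ Sq w) = QuotientAddGroup.mk (sc x)
        rw [← hscy]
        congr 1
        have h5 : ((a * b : 𝓞 L) : L) = y * (b : L) ^ 2 := by
          have h6 : ((a * b : 𝓞 L) : L) = (a : L) * (b : L) := map_mul (algebraMap (𝓞 L) L) a b
          rw [h6, ← hab]
          ring
        have hb0 := Ac_ne w hb
        rw [h5, H38T1.sc_mul hy0 (pow_ne_zero _ hb0)]
        have : sc ((b : L) ^ 2) = 0 := by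
          rw [H38T1.sc_eq_zero (pow_ne_zero _ hb0), sq]
          exact ⟨_, rfl⟩
        rw [this, add_zero]
      · rintro ⟨x, rfl⟩
        change eo w (sc (x.1 : L)) = 0
        rw [H38T1.eo_sc (Ac_ne w x.2), ord, Ac_one w x.2, log_one]
        norm_num
    rw [← h1]
    rfl
  have hidx : εb.ker.index = 2 := by
    rw [AddSubgroup.index_ker, AddMonoidHom.range_eq_top.2 hsurj]
    rw [Nat.card_congr AddSubgroup.topEquiv.toEquiv, Nat.card_zmod]
  have hfinal := εb.ker.card_mul_index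
  rw [hker, hfg, hg, hidx] at hfinal
  have h9 : (Sq w).index = Nat.card (SC L ⧸ Sq w) := rfl
  rw [h9, ← hfinal]
  ring

end H30ZO

end S_H30_ZO_Ac

section S_H30_ZO_Ad

set_option autoImplicit false
set_option linter.unusedSectionVars false
open scoped Classical

open WithZero NumberField IsDedekindDomain H38RT
open H38T1 (SC sc scu rep eo la si Pri OddP tp unif)
open H76PP

namespace H30ZO

private theorem ZOAd_Nv {k L : Type} [Field k] [NumberField k] [Field L] [NumberField L]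
    [Algebra k L] (w : HeightOneSpectrum (𝓞 L)) :
    Nv w = Nv (dn k w) ^ (w.asIdeal.inertiaDeg (𝓞 k)) := by
  have h1 : w.asIdeal.IsMaximal := w.isMaximal
  have h2 : (dn k w).asIdeal.IsMaximal := (dn k w).isMaximal
  have h3 : w.asIdeal.LiesOver (dn k w).asIdeal := ⟨rfl⟩
  have h4 : Ideal.relNorm (𝓞 k) w.asIdeal = (dn k w).asIdeal ^ (w.asIdeal.inertiaDeg (𝓞 k)) :=
    Ideal.relNorm_eq_pow_of_isMaximal w.asIdeal (dn k w).asIdeal
  have h5 := Ideal.absNorm_relNorm (R := 𝓞 k) (S := 𝓞 L) w.asIdeal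
  rw [h4, map_pow] at h5
  exact h5.symm

private theorem ZOAd_e2 {k : Type} [Field k] [NumberField k] (v : HeightOneSpectrum (𝓞 k)) :
    ord (v.valuation k) 2 = (e2 v : ℤ) := by
  rw [ord, e2_spec, log_exp, neg_neg]

theorem prod_qq {k L : Type} [Field k] [NumberField k] [Field L] [NumberField L] [Algebra k L]
    {a b : k} {θ : L} (h : Cub k L a b θ) (v : HeightOneSpectrum (𝓞 k)) :
    ∏ w ∈ (fin_above (L := L) v).toFinset, qq w = qq v ^ 3 := by
  have hfr : Module.finrank k L = 3 := h.finrank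
  have h2L : (2 : L) ≠ 0 := two_ne_zero
  have hn : Algebra.norm k (2 : L) = 2 ^ 3 := by
    have e1 := Algebra.norm_algebraMap (R := k) (S := L) (2 : k)
    rw [hfr, map_ofNat] at e1
    exact e1
  have h1 := ord_norm (K := k) (L := L) v h2L
  have h0 : ∑ᶠ w : {w : HeightOneSpectrum (𝓞 L) // dn k w = v},
        (w.1.asIdeal.inertiaDeg (𝓞 k) : ℤ) * ord (w.1.valuation L) 2 =
      ∑ w ∈ (fin_above (L := L) v).toFinset,
        (w.asIdeal.inertiaDeg (𝓞 k) : ℤ) * ord (w.valuation L) 2 := by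
    rw [← finsum_mem_eq_finite_toFinset_sum (fun w : HeightOneSpectrum (𝓞 L) =>
      (w.asIdeal.inertiaDeg (𝓞 k) : ℤ) * ord (w.valuation L) 2) (fin_above (L := L) v)]
    exact finsum_set_coe_eq_finsum_mem {w : HeightOneSpectrum (𝓞 L) | dn k w = v}
      (f := fun w => (w.asIdeal.inertiaDeg (𝓞 k) : ℤ) * ord (w.valuation L) 2)
  have h2k : (2 : k) ≠ 0 := two_ne_zero
  have h3 : ord (v.valuation k) ((2 : k) ^ 3) = 3 * (e2 v : ℤ) := by
    have e1 : (2 : k) ^ 3 = 2 * (2 * 2) := by ring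
    rw [e1, ord_mul h2k (mul_ne_zero h2k h2k), ord_mul h2k h2k, ZOAd_e2]
    ring
  rw [h0, hn, h3] at h1
  have h4 : 3 * e2 v = ∑ w ∈ (fin_above (L := L) v).toFinset,
      w.asIdeal.inertiaDeg (𝓞 k) * e2 w := by
    have e1 : ((3 * e2 v : ℕ) : ℤ) = ((∑ w ∈ (fin_above (L := L) v).toFinset,
        w.asIdeal.inertiaDeg (𝓞 k) * e2 w : ℕ) : ℤ) := by
      push_cast
      rw [h1]
      refine Finset.sum_congr rfl fun w _ => ?_
      rw [ZOAd_e2]
    exact_mod_cast e1
  have h5 : ∀ w ∈ (fin_above (L := L) v).toFinset,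
      qq w = Nv v ^ (w.asIdeal.inertiaDeg (𝓞 k) * e2 w) := by
    intro w hw
    have e1 : dn k w = v := by
      have := (Set.Finite.mem_toFinset _).1 hw
      exact this
    rw [qq, ZOAd_Nv (k := k) w, e1, ← pow_mul]
  rw [Finset.prod_congr rfl h5, Finset.prod_pow_eq_pow_sum, ← h4, qq, ← pow_mul, mul_comm]

end H30ZO

end S_H30_ZO_Ad

section S_H30_ZO_Ae

set_option autoImplicit false
set_option linter.unusedSectionVars false
open scoped Classical

open WithZero NumberField IsDedekindDomain H38RT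
open H38T1 (SC sc scu rep eo la si Pri OddP tp unif)
open H76PP

namespace H30ZO

section AeAux

open Filter Topology

variable {F : Type*} [Field F] [Valued F (WithZero (Multiplicative ℤ))]

/-- The iteration `t ↦ l - t ^ 2` in the cubic algebra. -/
private def aeT (A B : F) (l : Fin 3 → F) : ℕ → Fin 3 → F
  | 0 => 0
  | n + 1 => fun j => l j - m3 A B (aeT A B l n) (aeT A B l n) j

private lemma ae_m3 {A B : F} (hA : Valued.v A ≤ 1) (hB : Valued.v B ≤ 1)
    {α β : WithZero (Multiplicative ℤ)} {x y : Fin 3 → F} (hx : ∀ j, Valued.v (x j) ≤ α)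
    (hy : ∀ j, Valued.v (y j) ≤ β) (j : Fin 3) : Valued.v (m3 A B x y j) ≤ α * β := by
  have hm : ∀ i j, Valued.v (x i * y j) ≤ α * β := by
    intro i j
    rw [map_mul]
    exact mul_le_mul' (hx i) (hy j)
  have hc : ∀ (a w : F), Valued.v a ≤ 1 → Valued.v w ≤ α * β → Valued.v (a * w) ≤ α * β := by
    intro a w ha hw
    rw [map_mul]
    calc _ ≤ 1 * (α * β) := mul_le_mul' ha hw
      _ = _ := one_mul _
  have ha : ∀ u w : F, Valued.v u ≤ α * β → Valued.v w ≤ α * β → Valued.v (u + w) ≤ α * β :=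
    fun u w hu hw => (Valuation.map_add _ _ _).trans (max_le hu hw)
  have hs : ∀ u w : F, Valued.v u ≤ α * β → Valued.v w ≤ α * β → Valued.v (u - w) ≤ α * β :=
    fun u w hu hw => (Valuation.map_sub _ _ _).trans (max_le hu hw)
  fin_cases j
  · exact hs _ _ (hm 0 0) (hc _ _ hB (ha _ _ (hm 1 2) (hm 2 1)))
  · exact hs _ _ (hs _ _ (ha _ _ (hm 0 1) (hm 1 0)) (hc _ _ hA (ha _ _ (hm 1 2) (hm 2 1))))
      (hc _ _ hB (hm 2 2))
  · exact hs _ _ (ha _ _ (ha _ _ (hm 0 2) (hm 1 1)) (hm 2 0)) (hc _ _ hA (hm 2 2))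

private lemma ae_le {A B : F} (hA : Valued.v A ≤ 1) (hB : Valued.v B ≤ 1) {l : Fin 3 → F}
    (hl : ∀ j, Valued.v (l j) ≤ exp (-1 : ℤ)) (n : ℕ) :
    ∀ j, Valued.v (aeT A B l n j) ≤ exp (-1 : ℤ) := by
  induction n with
  | zero =>
    intro j
    change Valued.v (0 : F) ≤ _
    rw [map_zero]
    exact zero_le
  | succ n ih =>
    intro j
    change Valued.v (l j - m3 A B (aeT A B l n) (aeT A B l n) j) ≤ _
    refine (Valuation.map_sub _ _ _).trans (max_le (hl j) ?_)
    refine (ae_m3 hA hB ih ih j).trans ?_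
    rw [← exp_add, exp_le_exp]
    norm_num

private lemma ae_dif (A B : F) (t u : Fin 3 → F) (j : Fin 3) :
    m3 A B t t j - m3 A B u u j = m3 A B (fun i => t i - u i) (fun i => t i + u i) j := by
  fin_cases j
  · simp only [m3, Fin.zero_eta, Matrix.cons_val_zero]
    ring
  · simp only [m3, Fin.mk_one, Matrix.cons_val_one, Matrix.cons_val_zero]
    ring
  · simp [m3]
    ring

private lemma ae_succ {A B : F} (hA : Valued.v A ≤ 1) (hB : Valued.v B ≤ 1) {l : Fin 3 → F}
    (hl : ∀ j, Valued.v (l j) ≤ exp (-1 : ℤ)) (n : ℕ) :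
    ∀ j, Valued.v (aeT A B l (n + 1) j - aeT A B l n j) ≤ exp (-((n + 1 : ℕ) : ℤ)) := by
  induction n with
  | zero =>
    intro j
    change Valued.v (aeT A B l 1 j - (0 : F)) ≤ _
    rw [sub_zero]
    exact_mod_cast ae_le hA hB hl 1 j
  | succ n ih =>
    intro j
    have e : aeT A B l (n + 1 + 1) j - aeT A B l (n + 1) j =
        -(m3 A B (fun i => aeT A B l (n + 1) i - aeT A B l n i)
          (fun i => aeT A B l (n + 1) i + aeT A B l n i) j) := by
      rw [← ae_dif]
      change (l j - m3 A B (aeT A B l (n + 1)) (aeT A B l (n + 1)) j) -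
        (l j - m3 A B (aeT A B l n) (aeT A B l n) j) = _
      ring
    rw [e, Valuation.map_neg]
    refine (ae_m3 hA hB ih (β := exp (-1 : ℤ)) (fun i =>
      (Valuation.map_add _ _ _).trans (max_le (ae_le hA hB hl _ i) (ae_le hA hB hl _ i))) j).trans
      ?_
    rw [← exp_add, exp_le_exp]
    push_cast
    omega

private lemma ae_sub {A B : F} (hA : Valued.v A ≤ 1) (hB : Valued.v B ≤ 1) {l : Fin 3 → F}
    (hl : ∀ j, Valued.v (l j) ≤ exp (-1 : ℤ)) (j : Fin 3) (n k : ℕ) :
    Valued.v (aeT A B l (n + k) j - aeT A B l n j) ≤ exp (-((n + 1 : ℕ) : ℤ)) := by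
  induction k with
  | zero => rw [add_zero, sub_self, map_zero]; exact zero_le
  | succ k ih =>
    have e : aeT A B l (n + (k + 1)) j - aeT A B l n j =
        (aeT A B l (n + k + 1) j - aeT A B l (n + k) j) +
          (aeT A B l (n + k) j - aeT A B l n j) := by
      rw [← add_assoc]; ring
    rw [e]
    refine (Valuation.map_add _ _ _).trans (max_le ((ae_succ hA hB hl _ j).trans ?_) ih)
    rw [exp_le_exp]
    push_cast
    omega

private lemma ae_lim [CompleteSpace F] {A B : F} (hA : Valued.v A ≤ 1) (hB : Valued.v B ≤ 1)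
    {l : Fin 3 → F} (hl : ∀ j, Valued.v (l j) ≤ exp (-1 : ℤ)) :
    ∃ t : Fin 3 → F, ∀ j, m3 A B t t j + t j = l j := by
  have hcau : ∀ j, CauchySeq fun n => aeT A B l n j := by
    intro j
    rw [CauchySeq, Valued.cauchy_iff]
    refine ⟨inferInstance, fun γ => ?_⟩
    obtain ⟨N, hN⟩ := exists_exp_neg_natCast_lt
      (x := MonoidWithZeroHom.ValueGroup₀.embedding γ.1) (by simp)
    refine ⟨(fun n => aeT A B l n j) '' Set.Ici N,
      Filter.image_mem_map (Filter.Ici_mem_atTop N), ?_⟩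
    rintro _ ⟨m, hm, rfl⟩ _ ⟨n, hn, rfl⟩
    rw [Valuation.restrict_lt_iff_lt_embedding]
    refine lt_of_le_of_lt ?_ hN
    have h1 := ae_sub hA hB hl j N (m - N)
    have h2 := ae_sub hA hB hl j N (n - N)
    rw [Nat.add_sub_cancel' hm] at h1
    rw [Nat.add_sub_cancel' hn] at h2
    have e : aeT A B l n j - aeT A B l m j =
        (aeT A B l n j - aeT A B l N j) - (aeT A B l m j - aeT A B l N j) := by ring
    show Valued.v (aeT A B l n j - aeT A B l m j) ≤ _
    rw [e]
    refine (Valuation.map_sub _ _ _).trans (max_le (h2.trans ?_) (h1.trans ?_)) <;>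
    · rw [exp_le_exp]; push_cast; omega
  choose t ht using fun j => cauchySeq_tendsto_of_complete (hcau j)
  have ht2 : Tendsto (fun n => aeT A B l n) atTop (𝓝 t) := tendsto_pi_nhds.2 ht
  refine ⟨t, fun j => ?_⟩
  have hc : Continuous fun u : Fin 3 → F => l j - m3 A B u u j := by
    fin_cases j
    · simp only [m3, Fin.zero_eta, Matrix.cons_val_zero]
      fun_prop
    · simp only [m3, Fin.mk_one, Matrix.cons_val_one, Matrix.cons_val_zero]
      fun_prop
    · simp [m3]
      fun_prop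
  have h1 : Tendsto (fun n => aeT A B l (n + 1) j) atTop (𝓝 (t j)) :=
    (ht j).comp (tendsto_add_atTop_nat 1)
  have h2 : Tendsto (fun n => aeT A B l (n + 1) j) atTop (𝓝 (l j - m3 A B t t j)) :=
    (hc.tendsto t).comp ht2
  have := tendsto_nhds_unique h1 h2
  linear_combination this

end AeAux

theorem sqrt_alg {k : Type} [Field k] [NumberField k] (v : HeightOneSpectrum (𝓞 k))
    {A B : v.adicCompletion k} (hA : Valued.v A ≤ 1) (hB : Valued.v B ≤ 1)
    {l : Fin 3 → v.adicCompletion k} (hl : ∀ j, Valued.v (l j) ≤ exp (-1 : ℤ)) :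
    ∃ s : Fin 3 → v.adicCompletion k, m3 A B s s = fun j => (![1, 0, 0] : Fin 3 → _) j + 4 * l j := by
  obtain ⟨t, ht⟩ := ae_lim hA hB hl
  refine ⟨fun j => (![1, 0, 0] : Fin 3 → _) j + 2 * t j, ?_⟩
  funext j
  rw [← ht j]
  fin_cases j
  · simp [m3]
    ring
  · simp [m3]
    ring
  · simp [m3]
    ring

end H30ZO

end S_H30_ZO_Ae

section S_H30_ZO_Af

set_option autoImplicit false
set_option linter.unusedSectionVars false
open scoped Classical

open WithZero NumberField IsDedekindDomain H38RT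
open H38T1 (SC sc scu rep eo la si Pri OddP tp unif)
open H76PP

namespace H30ZO

private theorem Af_pow {N : Type} [Field N] [NumberField N] (S : Finset (HeightOneSpectrum (𝓞 N)))
    {b : 𝓞 N} (hb : b ≠ 0) {ε : HeightOneSpectrum (𝓞 N) → WithZero (Multiplicative ℤ)}
    (hε : ∀ w, ε w ≠ 0) :
    ∃ k : ℕ, ∀ V ∈ S, exp (-(k : ℤ)) < ε V * V.intValuation b := by
  induction S using Finset.induction_on with
  | empty => exact ⟨0, fun V hV => absurd hV (Finset.notMem_empty V)⟩
  | insert V S hV ih =>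
    obtain ⟨k, hk⟩ := ih
    have h0 : ε V * V.intValuation b ≠ 0 := mul_ne_zero (hε V) (V.intValuation_ne_zero b hb)
    obtain ⟨l, hl⟩ : ∃ l : ℕ, exp (-(l : ℤ)) < ε V * V.intValuation b := by
      refine ⟨(-(log (ε V * V.intValuation b)) + 1).toNat, ?_⟩
      have h2 := Int.self_le_toNat (-(log (ε V * V.intValuation b)) + 1)
      have h3 : exp (-((-(log (ε V * V.intValuation b)) + 1).toNat : ℤ)) <
          exp (log (ε V * V.intValuation b)) := by
        rw [exp_lt_exp]
        omega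
      rwa [exp_log h0] at h3
    refine ⟨max k l, fun U hU => ?_⟩
    rcases Finset.mem_insert.mp hU with rfl | hU
    · refine lt_of_le_of_lt ?_ hl
      rw [exp_le_exp]
      have : (l : ℤ) ≤ ((max k l : ℕ) : ℤ) := by exact_mod_cast le_max_right k l
      omega
    · refine lt_of_le_of_lt ?_ (hk U hU)
      rw [exp_le_exp]
      have : (k : ℤ) ≤ ((max k l : ℕ) : ℤ) := by exact_mod_cast le_max_left k l
      omega

private theorem Af_weak {N : Type} [Field N] [NumberField N]
    (S : Finset (HeightOneSpectrum (𝓞 N))) (x : HeightOneSpectrum (𝓞 N) → N)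
    {ε : HeightOneSpectrum (𝓞 N) → WithZero (Multiplicative ℤ)} (hε : ∀ w, ε w ≠ 0) :
    ∃ y : N, ∀ V ∈ S, V.valuation N (y - x V) < ε V := by
  obtain ⟨b, hb⟩ := IsLocalization.exist_integer_multiples_of_finset (nonZeroDivisors (𝓞 N))
    (S.image x)
  have hb0 : (b : 𝓞 N) ≠ 0 := nonZeroDivisors.ne_zero b.2
  have ha : ∀ V : HeightOneSpectrum (𝓞 N), V ∈ S → ∃ a : 𝓞 N,
      algebraMap (𝓞 N) N a = algebraMap (𝓞 N) N b * x V := by
    intro V hV
    obtain ⟨a, ha⟩ := hb (x V) (Finset.mem_image_of_mem x hV)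
    refine ⟨a, ?_⟩
    rw [ha, Algebra.smul_def]
  obtain ⟨k, hk⟩ := Af_pow S hb0 hε
  obtain ⟨z, hz⟩ := IsDedekindDomain.exists_forall_sub_mem_ideal
    (s := S) (fun V : HeightOneSpectrum (𝓞 N) => V.asIdeal) (fun _ => k)
    (fun V _ => V.prime)
    (fun V _ U _ hVU h => hVU (HeightOneSpectrum.ext h))
    (fun V => (ha V.1 V.2).choose)
  have hbN : algebraMap (𝓞 N) N b ≠ 0 := by
    intro h
    exact hb0 ((FaithfulSMul.algebraMap_injective (𝓞 N) N) (by rw [h, map_zero]))
  refine ⟨algebraMap (𝓞 N) N z / algebraMap (𝓞 N) N b, fun V hV => ?_⟩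
  have h1 := hz V hV
  have h2 := (ha V hV).choose_spec
  set a := (ha V hV).choose with hadef
  have h3 : algebraMap (𝓞 N) N z / algebraMap (𝓞 N) N b - x V =
      algebraMap (𝓞 N) N (z - a) / algebraMap (𝓞 N) N b := by
    rw [map_sub, h2]
    field_simp
  rw [h3, map_div₀, V.valuation_of_algebraMap, V.valuation_of_algebraMap,
    div_lt_iff₀ (zero_lt_iff.mpr (V.intValuation_ne_zero b hb0))]
  exact lt_of_le_of_lt ((V.intValuation_le_pow_iff_mem (z - a) k).mpr h1) (hk V hV)

private theorem Af_exp_le (M : ℕ) : exp (-(M : ℤ)) ≤ (1 : WithZero (Multiplicative ℤ)) := by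
  rw [← exp_zero, exp_le_exp]
  omega

/-- The local computation. -/
private theorem Af_loc {F : Type} [Field F] (V : Valuation F (WithZero (Multiplicative ℤ))) {x r s : F} (M : ℕ)
    (hr : r ≠ 0) (hx : x = r * r) (h : V (s - r) < exp (-(M : ℤ)) * V r) :
    s ≠ 0 ∧ V (x / s ^ 2 - 1) ≤ exp (-(M : ℤ)) := by
  have hr0 : V r ≠ 0 := (Valuation.ne_zero_iff _).2 hr
  have hrp : 0 < V r := zero_lt_iff.2 hr0
  have h1 : V (s - r) < V r := by
    refine lt_of_lt_of_le h ?_
    calc exp (-(M : ℤ)) * V r ≤ 1 * V r := mul_le_mul_left (Af_exp_le M) (V r)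
      _ = V r := one_mul _
  have h2 : V s = V r := by
    have h3 : s = r + (s - r) := by ring
    rw [h3]
    exact Valuation.map_add_eq_of_lt_left V h1
  have hs0 : V s ≠ 0 := by rw [h2]; exact hr0
  have hs : s ≠ 0 := (Valuation.ne_zero_iff _).1 hs0
  refine ⟨hs, ?_⟩
  have h4 : x / s ^ 2 - 1 = (r - s) * (r + s) / s ^ 2 := by
    rw [hx]
    field_simp
    ring
  have h5 : V (r + s) ≤ V r := V.map_add_le le_rfl (le_of_eq h2)
  have h6 : V (r - s) ≤ exp (-(M : ℤ)) * V r := by
    rw [← Valuation.map_neg, neg_sub]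
    exact h.le
  rw [h4, map_div₀, map_mul, map_pow, h2]
  rw [div_le_iff₀ (pow_pos hrp 2)]
  calc V (r - s) * V (r + s) ≤ (exp (-(M : ℤ)) * V r) * V r := mul_le_mul' h6 h5
    _ = exp (-(M : ℤ)) * V r ^ 2 := by rw [mul_assoc, pow_two]

theorem approx_sq {k L : Type} [Field k] [NumberField k] [Field L] [NumberField L] [Algebra k L]
    (v : HeightOneSpectrum (𝓞 k)) {x : L} (hx : x ≠ 0) (hs : sc x ∈ Sqv k L v) (M : ℕ) :
    ∃ s : L, s ≠ 0 ∧ ∀ w : HeightOneSpectrum (𝓞 L), dn k w = v →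
      w.valuation L (x / s ^ 2 - 1) ≤ exp (-(M : ℤ)) := by
  classical
  have hfin := fin_above (K := k) (L := L) v
  have h0 : ∀ w : HeightOneSpectrum (𝓞 L), dn k w = v →
      ∃ r : w.adicCompletion L, r ≠ 0 ∧ algebraMap L (w.adicCompletion L) x = r * r := by
    intro w hw
    obtain ⟨r, hr⟩ := (mem_Sq hx).1 (mem_Sqv.1 hs w hw)
    refine ⟨r, ?_, hr⟩
    rintro rfl
    rw [mul_zero] at hr
    exact hx ((map_eq_zero (algebraMap L (w.adicCompletion L))).1 hr)
  have h1 : ∀ w : HeightOneSpectrum (𝓞 L), ∃ (y : L) (e : WithZero (Multiplicative ℤ)), e ≠ 0 ∧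
      (dn k w = v → ∃ r : w.adicCompletion L, r ≠ 0 ∧ algebraMap L (w.adicCompletion L) x = r * r ∧
        e = exp (-(M : ℤ)) * Valued.v r ∧
        Valued.v (algebraMap L (w.adicCompletion L) y - r) < exp (-(M : ℤ)) * Valued.v r) := by
    intro w
    by_cases hw : dn k w = v
    · obtain ⟨r, hr0, hr⟩ := h0 w hw
      obtain ⟨π, hπ⟩ := w.valuation_exists_uniformizer L
      have hπ0 : π ≠ 0 := by
        rintro rfl
        rw [map_zero] at hπ
        exact exp_ne_zero hπ.symm
      have hπM : Valued.v (algebraMap L (w.adicCompletion L) (π ^ M)) = exp (-(M : ℤ)) := by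
        rw [H36CY.val_coe, map_pow, hπ, ← exp_nsmul]
        congr 1
        simp
      have hc : algebraMap L (w.adicCompletion L) (π ^ M) * r ≠ 0 :=
        mul_ne_zero ((map_ne_zero _).2 (pow_ne_zero M hπ0)) hr0
      obtain ⟨y, hy⟩ := H36CY.near_coe w r hc
      rw [map_mul, hπM] at hy
      refine ⟨y, exp (-(M : ℤ)) * Valued.v r, mul_ne_zero exp_ne_zero ((Valuation.ne_zero_iff _).2 hr0),
        fun _ => ⟨r, hr0, hr, rfl, hy⟩⟩
    · exact ⟨0, 1, one_ne_zero, fun h => absurd h hw⟩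
  choose y e he0 hye using h1
  obtain ⟨s, hsS⟩ := Af_weak hfin.toFinset y he0
  have h2 : ∀ w : HeightOneSpectrum (𝓞 L), dn k w = v → s ≠ 0 ∧
      w.valuation L (x / s ^ 2 - 1) ≤ exp (-(M : ℤ)) := by
    intro w hw
    obtain ⟨r, hr0, hr, he, hy⟩ := hye w hw
    have h3 : w.valuation L (s - y w) < exp (-(M : ℤ)) * Valued.v r := by
      rw [← he]
      exact hsS w (hfin.mem_toFinset.2 hw)
    have h4 : Valued.v (algebraMap L (w.adicCompletion L) s - r) < exp (-(M : ℤ)) * Valued.v r := by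
      have h5 : algebraMap L (w.adicCompletion L) s - r =
          algebraMap L (w.adicCompletion L) (s - y w) +
            (algebraMap L (w.adicCompletion L) (y w) - r) := by
        rw [map_sub]
        ring
      rw [h5]
      refine Valuation.map_add_lt _ ?_ hy
      rw [H36CY.val_coe]
      exact h3
    obtain ⟨h6, h7⟩ := Af_loc (Valued.v : Valuation (w.adicCompletion L) (WithZero (Multiplicative ℤ))) M hr0 hr h4
    refine ⟨fun h => h6 (by rw [h, map_zero]), ?_⟩
    rw [← H36CY.val_coe, map_sub, map_div₀, map_pow, map_one]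
    exact h7
  by_cases hs0 : s = 0
  · exact ⟨1, one_ne_zero, fun w hw => absurd hs0 (h2 w hw).1⟩
  · exact ⟨s, hs0, fun w hw => (h2 w hw).2⟩

end H30ZO

end S_H30_ZO_Af

section S_H30_ZO_Ag

set_option autoImplicit false
set_option linter.unusedSectionVars false
open scoped Classical

open WithZero NumberField IsDedekindDomain H38RT
open H38T1 (SC sc scu rep eo la si Pri OddP tp unif)
open H76PP

namespace H30ZO

/-- the trace of an element which is integral above `v` -/
theorem Ag_trace {k L : Type} [Field k] [NumberField k] [Field L] [NumberField L] [Algebra k L]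
    (v : HeightOneSpectrum (𝓞 k)) {y : L}
    (hy : ∀ w : HeightOneSpectrum (𝓞 L), dn k w = v → w.valuation L y ≤ 1) :
    v.valuation k (Algebra.trace k L y) ≤ 1 := by
  let J : Ideal (𝓞 L) :=
    { carrier := {d | ∃ n : 𝓞 L, y * algebraMap (𝓞 L) L d = algebraMap (𝓞 L) L n}
      add_mem' := by
        rintro d₁ d₂ ⟨n₁, h₁⟩ ⟨n₂, h₂⟩
        refine ⟨n₁ + n₂, ?_⟩
        rw [map_add, map_add, mul_add, h₁, h₂]
      zero_mem' := ⟨0, by rw [map_zero, mul_zero]⟩
      smul_mem' := by
        rintro c d ⟨n, h⟩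
        refine ⟨c * n, ?_⟩
        rw [smul_eq_mul, map_mul, map_mul, ← h]
        ring }
  have hinj : Function.Injective (algebraMap (𝓞 k) (𝓞 L)) := by
    intro p q hpq
    apply RingOfIntegers.coe_injective
    apply (algebraMap k L).injective
    have h1 := congrArg (algebraMap (𝓞 L) L) hpq
    exact h1
  have hp := v.isPrime
  have hne : ¬ J.comap (algebraMap (𝓞 k) (𝓞 L)) ≤ v.asIdeal := by
    intro hle
    obtain ⟨Q, hQJ, hQ, hQc⟩ := Ideal.exists_ideal_over_prime_of_isIntegral (S := 𝓞 L) v.asIdeal J hle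
    have hQb : Q ≠ ⊥ := by
      rintro rfl
      apply v.ne_bot
      rw [← hQc, eq_bot_iff]
      intro x hx
      rw [Ideal.mem_comap, Ideal.mem_bot] at hx
      rw [Ideal.mem_bot]
      exact hinj (by rw [hx, map_zero])
    let w : HeightOneSpectrum (𝓞 L) := ⟨Q, hQ, hQb⟩
    have hw : dn k w = v := HeightOneSpectrum.ext hQc
    obtain ⟨n, ⟨d, hd⟩, hnd⟩ := w.exists_primeCompl_mul_eq_of_integer y (hy w hw)
    exact hd (hQJ ⟨n, hnd⟩)
  rw [SetLike.not_le_iff_exists] at hne
  obtain ⟨c, hcJ, hcv⟩ := hne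
  obtain ⟨n, hn⟩ := hcJ
  obtain ⟨t, ht⟩ : ∃ t : 𝓞 k, (t : k) = Algebra.trace k L (n : L) :=
    ⟨⟨_, Algebra.isIntegral_trace n.isIntegral_coe⟩, rfl⟩
  have e1 : algebraMap (𝓞 L) L (algebraMap (𝓞 k) (𝓞 L) c) = algebraMap k L (c : k) := rfl
  have e2 : Algebra.trace k L (n : L) = (c : k) * Algebra.trace k L y := by
    have e3 : (n : L) = (c : k) • y := by
      rw [Algebra.smul_def]
      have h3 := hn
      rw [e1] at h3
      have h4 : (n : L) = y * algebraMap k L (c : k) := h3.symm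
      rw [h4, mul_comm]
    rw [e3, map_smul, smul_eq_mul]
  have h1 : v.valuation k (c : k) = 1 := by
    have h2 : ¬ v.valuation k (c : k) < 1 := fun h => hcv ((v.valuation_lt_one_iff_mem (K := k) c).1 h)
    exact le_antisymm (v.valuation_le_one c) (not_lt.1 h2)
  have h5 : v.valuation k (t : k) ≤ 1 := v.valuation_le_one t
  rw [ht, e2, map_mul, h1, one_mul] at h5
  exact h5

/-- the dual basis -/
theorem Ag_dual {k L : Type} [Field k] [Field L] [Algebra k L] {a b : k} {θ : L}
    (h : Cub k L a b θ) (x : L) (j : Fin 3) :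
    ∃ c : Fin 3 → k, (∀ {v : Valuation k (WithZero (Multiplicative ℤ))}, v a ≤ 1 → v b ≤ 1 →
      v 2 ≤ 1 → v 3 ≤ 1 → ∀ i, v (c i) ≤ 1) ∧
      Algebra.trace k L (x * (algebraMap k L (c 0) + algebraMap k L (c 1) * θ +
        algebraMap k L (c 2) * θ ^ 2)) = (4 * a ^ 3 + 27 * b ^ 2) * h.co j x := by
  have hall : ∀ c : Fin 3 → k, Algebra.trace k L (x * (algebraMap k L (c 0) +
      algebraMap k L (c 1) * θ + algebraMap k L (c 2) * θ ^ 2)) =
      3 * (h.co 0 x * c 0 - b * (h.co 1 x * c 2 + h.co 2 x * c 1)) -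
        2 * a * (h.co 0 x * c 2 + h.co 1 x * c 1 + h.co 2 x * c 0 - a * (h.co 2 x * c 2)) := by
    intro c
    obtain ⟨i0, i1, i2⟩ := h.co_mk' (c 0) (c 1) (c 2)
    rw [h.trace, (h.co_mul _ _).1, (h.co_mul _ _).2.2, i0, i1, i2]
  have hv2 : ∀ {v : Valuation k (WithZero (Multiplicative ℤ))} {p q : k}, v p ≤ 1 → v q ≤ 1 →
      v (p * q) ≤ 1 := fun {v} {p q} hp hq => by
    rw [map_mul]
    exact mul_le_one' hp hq
  have hva : ∀ {v : Valuation k (WithZero (Multiplicative ℤ))} {p q : k}, v p ≤ 1 → v q ≤ 1 →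
      v (p + q) ≤ 1 := fun {v} {p q} hp hq => (v.map_add p q).trans (max_le hp hq)
  fin_cases j
  · refine ⟨![(2 * a) * (2 * a) * a + (3 * b) * (3 * b), -((2 * (3 * a)) * b), (2 * a) * (2 * a)], ?_, ?_⟩
    · intro v ha hb h2 h3 i
      fin_cases i
      · exact hva (hv2 (hv2 (hv2 h2 ha) (hv2 h2 ha)) ha) (hv2 (hv2 h3 hb) (hv2 h3 hb))
      · show v (-((2 * (3 * a)) * b)) ≤ 1
        rw [Valuation.map_neg]
        exact hv2 (hv2 h2 (hv2 h3 ha)) hb
      · exact hv2 (hv2 h2 ha) (hv2 h2 ha)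
    · rw [hall]
      simp only [Matrix.cons_val_zero, Matrix.cons_val_one, Matrix.cons_val_two, Matrix.head_cons,
        Matrix.tail_cons, Fin.zero_eta]
      ring
  · refine ⟨![-((2 * (3 * a)) * b), -(2 * (a * a)), -(3 * (3 * b))], ?_, ?_⟩
    · intro v ha hb h2 h3 i
      fin_cases i
      · show v (-((2 * (3 * a)) * b)) ≤ 1
        rw [Valuation.map_neg]
        exact hv2 (hv2 h2 (hv2 h3 ha)) hb
      · show v (-(2 * (a * a))) ≤ 1
        rw [Valuation.map_neg]
        exact hv2 h2 (hv2 ha ha)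
      · show v (-(3 * (3 * b))) ≤ 1
        rw [Valuation.map_neg]
        exact hv2 h3 (hv2 h3 hb)
    · rw [hall]
      simp only [Matrix.cons_val_zero, Matrix.cons_val_one, Matrix.cons_val_two, Matrix.head_cons,
        Matrix.tail_cons, Fin.mk_one]
      ring
  · refine ⟨![(2 * a) * (2 * a), -(3 * (3 * b)), 2 * (3 * a)], ?_, ?_⟩
    · intro v ha hb h2 h3 i
      fin_cases i
      · exact hv2 (hv2 h2 ha) (hv2 h2 ha)
      · show v (-(3 * (3 * b))) ≤ 1
        rw [Valuation.map_neg]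
        exact hv2 h3 (hv2 h3 hb)
      · exact hv2 h2 (hv2 h3 ha)
    · rw [hall]
      simp only [Matrix.cons_val_zero, Matrix.cons_val_one, Matrix.cons_val_two, Matrix.head_cons,
        Matrix.tail_cons, Fin.reduceFinMk, Matrix.cons_val]
      ring

theorem coord_int {k L : Type} [Field k] [NumberField k] [Field L] [NumberField L] [Algebra k L]
    {a b : k} {θ : L} (h : Cub k L a b θ) (v : HeightOneSpectrum (𝓞 k))
    (ha : v.valuation k a ≤ 1) (hb : v.valuation k b ≤ 1) {x : L}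
    (hx : ∀ w : HeightOneSpectrum (𝓞 L), dn k w = v → w.valuation L x ≤ 1) (j : Fin 3) :
    v.valuation k ((4 * a ^ 3 + 27 * b ^ 2) * h.co j x) ≤ 1 := by
  obtain ⟨c, hc, htr⟩ := Ag_dual h x j
  rw [← htr]
  have hnat : ∀ n : ℕ, v.valuation k (n : k) ≤ 1 := by
    intro n
    have h1 : v.valuation k (algebraMap (𝓞 k) k (n : 𝓞 k)) ≤ 1 := v.valuation_le_one _
    have h2 : algebraMap (𝓞 k) k (n : 𝓞 k) = (n : k) := map_natCast _ n
    rwa [h2] at h1
  have hci := hc (v := v.valuation k) ha hb (by exact_mod_cast hnat 2) (by exact_mod_cast hnat 3)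
  apply Ag_trace
  intro w hw
  have hcw : ∀ i, w.valuation L (algebraMap k L (c i)) ≤ 1 := by
    intro i
    apply val_le
    rw [hw]
    exact hci i
  have hθ : w.valuation L θ ≤ 1 := by
    have ha' : w.valuation L (algebraMap k L a) ≤ 1 := by
      apply val_le
      rw [hw]
      exact ha
    have hb' : w.valuation L (algebraMap k L b) ≤ 1 := by
      apply val_le
      rw [hw]
      exact hb
    by_contra hcon
    rw [not_le] at hcon
    have e1 : θ ^ 3 = -(algebraMap k L a * θ + algebraMap k L b) := by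
      have h1 := h.root
      linear_combination h1
    have e2 : w.valuation L θ ^ 3 ≤ w.valuation L θ := by
      rw [← map_pow, e1, Valuation.map_neg]
      refine ((w.valuation L).map_add _ _).trans (max_le ?_ (hb'.trans hcon.le))
      rw [map_mul]
      exact mul_le_of_le_one_left' ha'
    have e3 : w.valuation L θ < w.valuation L θ ^ 3 := by
      calc w.valuation L θ = w.valuation L θ ^ 1 := (pow_one _).symm
        _ < w.valuation L θ ^ 3 := pow_lt_pow_right₀ hcon (by norm_num)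
    exact absurd e2 (not_le.2 e3)
  rw [map_mul]
  refine mul_le_one' (hx w hw) ?_
  refine ((w.valuation L).map_add _ _).trans (max_le (((w.valuation L).map_add _ _).trans
    (max_le (hcw 0) ?_)) ?_)
  · rw [map_mul]
    exact mul_le_one' (hcw 1) hθ
  · rw [map_mul, map_pow]
    exact mul_le_one' (hcw 2) (pow_le_one' hθ 2)

end H30ZO

end S_H30_ZO_Ag

section S_H30_ZO_Ah

set_option autoImplicit false
set_option linter.unusedSectionVars false
open scoped Classical

open WithZero NumberField IsDedekindDomain H38RT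
open H38T1 (SC sc scu rep eo la si Pri OddP tp unif)
open H76PP

namespace H30ZO

variable {k L : Type} [Field k] [NumberField k] [Field L] [NumberField L] [Algebra k L]

private lemma Ah_disc {a b : k} {θ : L} (h : Cub k L a b θ) : 4 * a ^ 3 + 27 * b ^ 2 ≠ 0 := by
  intro hD
  have h1 : (3 * θ ^ 2 + algebraMap k L a) * (4 * algebraMap k L a ^ 2 - 9 * algebraMap k L b * θ +
      6 * algebraMap k L a * θ ^ 2) = algebraMap k L (4 * a ^ 3 + 27 * b ^ 2) := by
    simp only [map_add, map_mul, map_pow, map_ofNat]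
    linear_combination (18 * algebraMap k L a * θ - 27 * algebraMap k L b) * h.root
  rw [hD, map_zero, mul_eq_zero] at h1
  rcases h1 with h1 | h1
  · obtain ⟨_, _, e2⟩ := h.li a 0 3 (by
      rw [map_zero, map_ofNat]
      linear_combination h1)
    exact three_ne_zero e2
  · obtain ⟨_, e1, e2⟩ := h.li (4 * a ^ 2) (-9 * b) (6 * a) (by
      simp only [map_mul, map_pow, map_neg, map_ofNat]
      linear_combination h1)
    have ha : a = 0 := by
      rcases mul_eq_zero.1 e2 with h2 | h2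
      · exact absurd h2 (by norm_num)
      · exact h2
    have hb : b = 0 := by
      rcases mul_eq_zero.1 e1 with h2 | h2
      · exact absurd h2 (by norm_num)
      · exact h2
    have hr := h.root
    rw [ha, hb, map_zero, zero_mul, add_zero, add_zero] at hr
    have hθ : θ = 0 := pow_eq_zero_iff (three_ne_zero) |>.1 hr
    obtain ⟨_, e3, _⟩ := h.li 0 1 0 (by rw [hθ, map_zero]; ring)
    exact one_ne_zero e3

private lemma Ah_m3 {F : Type*} [CommRing F] (a b : F) (s t : Fin 3 → F) :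
    m3 a b (m3 a b s t) (m3 a b s t) = m3 a b (m3 a b s s) (m3 a b t t) := by
  funext j
  fin_cases j <;> simp only [m3, Matrix.cons_val_zero, Matrix.cons_val_one, Matrix.cons_val_two,
    Matrix.head_cons, Matrix.tail_cons, Matrix.cons_val, Fin.zero_eta, Fin.mk_one,
    Fin.reduceFinMk] <;> ring

private lemma Ah_inj {a b : k} {θ : L} (h : Cub k L a b θ) {c d : Fin 3 → k}
    (e : ev θ c = ev θ d) : c = d := by
  funext j
  have h1 := h.co_mk c j
  have h2 := h.co_mk d j
  have h3 : algebraMap k L (c 0) + algebraMap k L (c 1) * θ + algebraMap k L (c 2) * θ ^ 2 =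
      algebraMap k L (d 0) + algebraMap k L (d 1) * θ + algebraMap k L (d 2) * θ ^ 2 := e
  rw [← h1, ← h2, h3]

private lemma Ah_prec (v : HeightOneSpectrum (𝓞 k)) {g : k} (hg : g ≠ 0) :
    ∃ M : ℕ, ∀ w : HeightOneSpectrum (𝓞 L), dn k w = v →
      exp (-(M : ℤ)) ≤ w.valuation L (algebraMap k L g) := by
  have hgL : algebraMap k L g ≠ 0 := by
    rw [Ne, map_eq_zero]
    exact hg
  refine ⟨(fin_above (K := k) (L := L) v).toFinset.sup
    (fun w => (ord (w.valuation L) (algebraMap k L g)).toNat), fun w hw => ?_⟩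
  have h1 : (ord (w.valuation L) (algebraMap k L g)).toNat ≤
      (fin_above (K := k) (L := L) v).toFinset.sup
        (fun w => (ord (w.valuation L) (algebraMap k L g)).toNat) :=
    Finset.le_sup (f := fun w => (ord (w.valuation L) (algebraMap k L g)).toNat)
      ((fin_above (K := k) (L := L) v).mem_toFinset.2 hw)
  have h2 : w.valuation L (algebraMap k L g) = exp (-ord (w.valuation L) (algebraMap k L g)) := by
    unfold ord
    rw [neg_neg, exp_log ((Valuation.ne_zero_iff _).2 hgL)]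
  rw [h2, exp_le_exp]
  have h3 := Int.self_le_toNat (ord (w.valuation L) (algebraMap k L g))
  omega

theorem sq_alg {a b : k} {θ : L} (h : Cub k L a b θ) (v : HeightOneSpectrum (𝓞 k))
    (ha : v.valuation k a ≤ 1) (hb : v.valuation k b ≤ 1) {d : Fin 3 → k} (hd : ev θ d ≠ 0)
    (hs : sc (ev θ d) ∈ Sqv k L v) :
    ∃ z : Fin 3 → v.adicCompletion k, m3 (algebraMap k (v.adicCompletion k) a)
      (algebraMap k (v.adicCompletion k) b) z z =
        fun j => algebraMap k (v.adicCompletion k) (d j) := by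
  set i : k →+* v.adicCompletion k := algebraMap k (v.adicCompletion k) with hi
  have hiv : ∀ x : k, Valued.v (i x) = v.valuation k x := fun x =>
    HeightOneSpectrum.valuedAdicCompletion_eq_valuation' v x
  set D : k := 4 * a ^ 3 + 27 * b ^ 2 with hDdef
  have hD : D ≠ 0 := Ah_disc h
  have hDv : v.valuation k D ≤ 1 := by
    rw [hDdef]
    have n4 : v.valuation k 4 ≤ 1 := by
      have := val_nat (v.valuation k) 4
      rwa [Nat.cast_ofNat] at this
    have n27 : v.valuation k 27 ≤ 1 := by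
      have := val_nat (v.valuation k) 27
      rwa [Nat.cast_ofNat] at this
    refine Valuation.map_add_le _ ?_ ?_
    · rw [map_mul, map_pow]
      exact mul_le_one' n4 (pow_le_one' ha 3)
    · rw [map_mul, map_pow]
      exact mul_le_one' n27 (pow_le_one' hb 2)
  obtain ⟨π, hπ⟩ := v.valuation_exists_uniformizer k
  have hπ0 : π ≠ 0 := by
    rintro rfl
    rw [map_zero] at hπ
    exact exp_ne_zero hπ.symm
  have hc0 : D * π ≠ 0 := mul_ne_zero hD hπ0
  have h40 : (4 : k) * (D * π) ≠ 0 := mul_ne_zero (by norm_num) hc0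
  have h4L : algebraMap k L (4 * (D * π)) ≠ 0 := by
    rw [Ne, map_eq_zero]
    exact h40
  obtain ⟨M, hM⟩ := Ah_prec (L := L) v h40
  obtain ⟨s, hs0, hsw⟩ := approx_sq v hd hs M
  set lam : L := (ev θ d / s ^ 2 - 1) / algebraMap k L (4 * (D * π)) with hlam
  have hlamw : ∀ w : HeightOneSpectrum (𝓞 L), dn k w = v → w.valuation L lam ≤ 1 := by
    intro w hw
    have hpos : w.valuation L (algebraMap k L (4 * (D * π))) ≠ 0 :=
      (Valuation.ne_zero_iff _).2 h4L
    rw [hlam, map_div₀]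
    exact (div_le_one₀ (zero_lt_iff.2 hpos)).2 ((hsw w hw).trans (hM w hw))
  have hco := coord_int h v ha hb hlamw
  set l : Fin 3 → v.adicCompletion k := fun j => i (D * π * h.co j lam) with hl
  have hlv : ∀ j, Valued.v (l j) ≤ exp (-1 : ℤ) := by
    intro j
    have e1 : D * π * h.co j lam = π * (D * h.co j lam) := by ring
    rw [hl]
    change Valued.v (i (D * π * h.co j lam)) ≤ _
    rw [hiv, e1, map_mul, hπ]
    exact mul_le_of_le_one_right' (hco j)
  have hAv : Valued.v (i a) ≤ 1 := by rw [hiv]; exact ha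
  have hBv : Valued.v (i b) ≤ 1 := by rw [hiv]; exact hb
  obtain ⟨t, ht⟩ := sqrt_alg v hAv hBv hlv
  set u : Fin 3 → k := fun j => (![1, 0, 0] : Fin 3 → k) j + 4 * (D * π * h.co j lam) with hu
  have hut : m3 (i a) (i b) t t = fun j => i (u j) := by
    rw [ht]
    have h4 : i 4 = 4 := map_ofNat i 4
    funext j
    have e5 : i ((![1, 0, 0] : Fin 3 → k) j) = (![1, 0, 0] : Fin 3 → v.adicCompletion k) j := by
      fin_cases j
      · exact map_one i
      · exact map_zero i
      · exact map_zero i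
    rw [hu, hl]
    change _ = i ((![1, 0, 0] : Fin 3 → k) j + 4 * (D * π * h.co j lam))
    rw [map_add, map_mul, h4, e5]
  set s' : Fin 3 → k := fun j => h.co j s with hs'
  have hevs : ev θ s' = s := (h.eq_co s).symm
  have hevu : ev θ u = ev θ d / s ^ 2 := by
    have e1 : ev θ (fun j => h.co j lam) = lam := (h.eq_co lam).symm
    have e2 : ev θ u = 1 + algebraMap k L (4 * (D * π)) * ev θ (fun j => h.co j lam) := by
      simp only [ev, hu, Matrix.cons_val_zero, Matrix.cons_val_one, Matrix.cons_val_two,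
        Matrix.head_cons, Matrix.tail_cons, Matrix.cons_val, map_add, map_mul, map_one, map_zero]
      ring
    rw [e2, e1, hlam, mul_div_cancel₀ _ h4L]
    ring
  refine ⟨m3 (i a) (i b) (fun j => i (s' j)) t, ?_⟩
  rw [Ah_m3, hut]
  have e3 : m3 (i a) (i b) (fun j => i (s' j)) (fun j => i (s' j)) =
      fun j => i (m3 a b s' s' j) := by
    funext j
    exact Te_m3_map i a b s' s' j
  rw [e3]
  have e4 : m3 a b (m3 a b s' s') u = d := by
    apply Ah_inj h
    rw [← Te_ev_mul h, ← Te_ev_mul h, hevs, hevu]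
    field_simp
  funext j
  rw [Te_m3_map i a b (m3 a b s' s') u j, e4]

theorem alg_sq {a b : k} {θ : L} (h : Cub k L a b θ) (v : HeightOneSpectrum (𝓞 k))
    {d : Fin 3 → k} (hd : ev θ d ≠ 0) {z : Fin 3 → v.adicCompletion k}
    (hz : m3 (algebraMap k (v.adicCompletion k) a) (algebraMap k (v.adicCompletion k) b) z z =
      fun j => algebraMap k (v.adicCompletion k) (d j)) : sc (ev θ d) ∈ Sqv k L v := by
  rw [mem_Sqv]
  intro w hw
  subst hw
  rw [mem_Sq hd]
  set ι : (dn k w).adicCompletion k →+* w.adicCompletion L := (H36CY.over_dn w).map with hι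
  have hιm : ∀ x : k, ι (algebraMap k ((dn k w).adicCompletion k) x) =
      algebraMap L (w.adicCompletion L) (algebraMap k L x) := fun x =>
    Pool.Agent.H10.Over.map_algebraMap (H36CY.over_dn w) x
  set T : w.adicCompletion L := algebraMap L (w.adicCompletion L) θ with hT
  have hroot : T ^ 3 + ι (algebraMap k ((dn k w).adicCompletion k) a) * T +
      ι (algebraMap k ((dn k w).adicCompletion k) b) = 0 := by
    rw [hιm, hιm, hT, ← map_pow, ← map_mul, ← map_add, ← map_add, h.root, map_zero]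
  have h0 := congrArg ι (congrFun hz 0)
  have h1 := congrArg ι (congrFun hz 1)
  have h2 := congrArg ι (congrFun hz 2)
  rw [hιm] at h0 h1 h2
  simp only [m3, Matrix.cons_val_zero, Matrix.cons_val_one, Matrix.cons_val_two,
    Matrix.head_cons, Matrix.tail_cons, Matrix.cons_val, map_add, map_sub, map_mul] at h0 h1 h2
  refine ⟨ι (z 0) + ι (z 1) * T + ι (z 2) * T ^ 2, ?_⟩
  have e : algebraMap L (w.adicCompletion L) (ev θ d) =
      algebraMap L (w.adicCompletion L) (algebraMap k L (d 0)) +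
      algebraMap L (w.adicCompletion L) (algebraMap k L (d 1)) * T +
      algebraMap L (w.adicCompletion L) (algebraMap k L (d 2)) * T ^ 2 := by
    simp only [ev, map_add, map_mul, map_pow, hT]
  rw [e, ← h0, ← h1, ← h2]
  linear_combination (- (2 * ι (z 1) * ι (z 2) + ι (z 2) * ι (z 2) * T)) * hroot

end H30ZO

end S_H30_ZO_Ah

section S_H30_ZO_Ai

set_option autoImplicit false
set_option linter.unusedSectionVars false
open scoped Classical

open WithZero NumberField IsDedekindDomain H38RT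
open H38T1 (SC sc scu rep eo la si Pri OddP tp unif)
open H76PP

namespace H30ZO

variable {k L : Type} [Field k] [NumberField k] [Field L] [NumberField L] [Algebra k L]

theorem norm_Sqv {a b : k} {θ : L} (h : Cub k L a b θ) (v : HeightOneSpectrum (𝓞 k))
    (ha : v.valuation k a ≤ 1) (hb : v.valuation k b ≤ 1) {c : SC L} (hc : c ∈ Sqv k L v) :
    scm (Algebra.norm k : L →* k) c ∈ Sq v := by
  have _ : FiniteDimensional k L := Module.Finite.of_restrictScalars_finite ℚ k L
  obtain ⟨x, hx, rfl⟩ := H38T1.sc_surj c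
  obtain ⟨c₀, c₁, c₂, hx2⟩ := h.sp x
  obtain ⟨d, hd⟩ : ∃ d : Fin 3 → k, d = ![c₀, c₁, c₂] := ⟨_, rfl⟩
  have hxd : x = ev θ d := by
    rw [hd, hx2]
    rfl
  rw [hxd] at hx hc
  rw [hxd]
  obtain ⟨z, hz⟩ := sq_alg h v ha hb hx hc
  have hn : Algebra.norm k (ev θ d) ≠ 0 := Algebra.norm_ne_zero_iff.2 hx
  rw [scm_sc _ hx, mem_Sq hn, Te_norm h d]
  refine ⟨Te_nf (algebraMap k (v.adicCompletion k) a) (algebraMap k (v.adicCompletion k) b) z, ?_⟩
  rw [← Te_nf_mul, hz]
  exact (Te_nf_map (algebraMap k (v.adicCompletion k)) a b d).symm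

end H30ZO

end S_H30_ZO_Ai

section S_H30_ZO_Aj

set_option autoImplicit false
set_option linter.unusedSectionVars false
open scoped Classical

open WithZero NumberField IsDedekindDomain H38RT
open H38T1 (SC sc scu rep eo la si Pri OddP tp unif)
open H76PP

namespace H30ZO

variable {k L : Type} [Field k] [NumberField k] [Field L] [NumberField L] [Algebra k L]

private theorem Aj_ab {G G' : Type*} [AddCommGroup G] [AddCommGroup G'] (ι : G' →+ G)
    (N : G →+ G') (S : AddSubgroup G) (Q : AddSubgroup G') (h1 : ∀ e, N (ι e) = e)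
    (h2 : ∀ c ∈ S, N c ∈ Q) (h3 : ∀ e ∈ Q, ι e ∈ S) :
    S.index = (S ⊓ N.ker).relIndex N.ker * Q.index := by
  have hf : Function.Surjective (N.ker.subtype.coprod ι) := by
    intro g
    refine ⟨(⟨g - ι (N g), ?_⟩, N g), ?_⟩
    · rw [AddMonoidHom.mem_ker, map_sub, h1, sub_self]
    · rw [AddMonoidHom.coprod_apply, AddSubgroup.coe_subtype]
      exact sub_add_cancel _ _
  have hc : S.comap (N.ker.subtype.coprod ι) = (S.addSubgroupOf N.ker).prod Q := by
    ext ⟨c, e⟩
    rw [AddSubgroup.mem_comap, AddMonoidHom.coprod_apply, AddSubgroup.coe_subtype,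
      AddSubgroup.mem_prod, AddSubgroup.mem_addSubgroupOf]
    have hN : N ((c : G) + ι e) = e := by
      rw [map_add, h1, AddMonoidHom.mem_ker.1 c.2, zero_add]
    constructor
    · intro h
      have he : e ∈ Q := by
        have := h2 _ h
        rwa [hN] at this
      refine ⟨?_, he⟩
      have := S.sub_mem h (h3 e he)
      rwa [add_sub_cancel_right] at this
    · rintro ⟨hc, he⟩
      exact S.add_mem hc (h3 e he)
  rw [AddSubgroup.inf_relIndex_right, ← AddSubgroup.index_comap_of_surjective S hf, hc,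
    AddSubgroup.index_prod]
  rfl

private theorem Aj_qq (v : HeightOneSpectrum (𝓞 k)) : 0 < qq v := by
  unfold qq Nv
  refine pow_pos (Nat.pos_of_ne_zero ?_) _
  intro h
  exact v.ne_bot (Ideal.absNorm_eq_zero_iff.1 h)

private theorem Aj_idx {a b : k} {θ : L} (h : Cub k L a b θ) (v : HeightOneSpectrum (𝓞 k)) :
    (Sqv k L v).index ≠ 0 ∧ (Sqv k L v).index ≤ 4 ^ nb k L v * qq v ^ 3 := by
  have hfin : {w : HeightOneSpectrum (𝓞 L) | dn k w = v}.Finite := fin_above v
  letI : Fintype {w : HeightOneSpectrum (𝓞 L) // dn k w = v} := hfin.fintype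
  have hS : Sqv k L v = ⨅ w : {w : HeightOneSpectrum (𝓞 L) // dn k w = v}, Sq w.1 := by
    unfold Sqv
    rw [iInf_subtype]
  have h0 : ∀ w : {w : HeightOneSpectrum (𝓞 L) // dn k w = v}, (Sq w.1).index ≠ 0 := by
    intro w
    rw [index_Sq]
    have := Aj_qq w.1
    omega
  have hp : ∏ w : {w : HeightOneSpectrum (𝓞 L) // dn k w = v}, (Sq w.1).index =
      4 ^ nb k L v * qq v ^ 3 := by
    have h1 : ∏ w : {w : HeightOneSpectrum (𝓞 L) // dn k w = v}, (Sq w.1).index =
        ∏ w ∈ hfin.toFinset, (Sq w).index := by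
      rw [Finset.prod_subtype hfin.toFinset (p := fun w => dn k w = v)]
      intro w
      rw [Set.Finite.mem_toFinset]
      rfl
    rw [h1, Finset.prod_congr rfl (fun w _ => index_Sq w), Finset.prod_mul_distrib,
      Finset.prod_const]
    have h2 := prod_qq h v
    have h3 : hfin.toFinset.card = nb k L v := by
      unfold nb
      rw [Set.ncard_eq_toFinset_card _ hfin]
    rw [h3]
    congr 1
  rw [hS]
  refine ⟨AddSubgroup.index_iInf_ne_zero h0, ?_⟩
  rw [← hp]
  exact AddSubgroup.index_iInf_le _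

private theorem Aj_N {a b : k} {θ : L} (h : Cub k L a b θ) (e : SC k) :
    scm (Algebra.norm k : L →* k) (scm (algebraMap k L : k →* L) e) = e := by
  obtain ⟨x, hx, rfl⟩ := H38T1.sc_surj e
  have hx' : (algebraMap k L) x ≠ 0 := (map_ne_zero (algebraMap k L)).2 hx
  rw [scm_sc _ hx]
  have h1 : ((algebraMap k L : k →* L) x : L) = algebraMap k L x := rfl
  rw [h1, scm_sc _ hx']
  have h2 : ((Algebra.norm k : L →* k) (algebraMap k L x) : k) = x * (x * x) := by
    rw [Algebra.norm_algebraMap, h.finrank]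
    ring
  rw [h2, H38T1.sc_mul hx (mul_ne_zero hx hx), (H38T1.sc_eq_zero (mul_ne_zero hx hx)).2 ⟨x, rfl⟩,
    add_zero]

private theorem Aj_up (v : HeightOneSpectrum (𝓞 k)) {e : SC k} (he : e ∈ Sq v) :
    scm (algebraMap k L : k →* L) e ∈ Sqv k L v := by
  obtain ⟨x, hx, rfl⟩ := H38T1.sc_surj e
  have hx' : (algebraMap k L) x ≠ 0 := (map_ne_zero (algebraMap k L)).2 hx
  rw [mem_Sqv]
  rintro w rfl
  rw [scm_sc _ hx]
  have h1 : ((algebraMap k L : k →* L) x : L) = algebraMap k L x := rfl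
  rw [h1, mem_Sq hx']
  rw [mem_Sq hx] at he
  obtain ⟨y, hy⟩ := he
  refine ⟨(H36CY.over_dn (K := k) w).map y, ?_⟩
  rw [← Pool.Agent.H10.Over.map_algebraMap (H36CY.over_dn (K := k) w) x, hy, map_mul]

theorem idx_HH {a b : k} {θ : L} (h : Cub k L a b θ) (v : HeightOneSpectrum (𝓞 k))
    (ha : v.valuation k a ≤ 1) (hb : v.valuation k b ≤ 1) :
    (Sqv k L v ⊓ HH k L).relIndex (HH k L) ≠ 0 ∧
      4 * (Sqv k L v ⊓ HH k L).relIndex (HH k L) ≤ 4 ^ nb k L v * qq v ^ 2 := by
  have hi := Aj_idx h v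
  have hab := Aj_ab (scm (algebraMap k L : k →* L)) (scm (Algebra.norm k : L →* k)) (Sqv k L v)
    (Sq v) (Aj_N h) (fun c hc => norm_Sqv h v ha hb hc) (fun e he => Aj_up v he)
  rw [index_Sq] at hab
  change (Sqv k L v).index = (Sqv k L v ⊓ HH k L).relIndex (HH k L) * (4 * qq v) at hab
  have hq := Aj_qq v
  refine ⟨?_, ?_⟩
  · intro h0
    rw [h0, zero_mul] at hab
    exact hi.1 hab
  · have h2 := hi.2
    rw [hab] at h2
    refine Nat.le_of_mul_le_mul_right (a := 4 * (Sqv k L v ⊓ HH k L).relIndex (HH k L)) ?_ hq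
    calc 4 * (Sqv k L v ⊓ HH k L).relIndex (HH k L) * qq v
        = (Sqv k L v ⊓ HH k L).relIndex (HH k L) * (4 * qq v) := by ring
      _ ≤ 4 ^ nb k L v * qq v ^ 3 := h2
      _ = 4 ^ nb k L v * qq v ^ 2 * qq v := by ring

end H30ZO

end S_H30_ZO_Aj
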