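import Mathlib
import Pool.Agent.H10.GrHen
import Pool.Agent.H76.PN.A5
import Pool.Agent.H76.ZQ.Y0

/-! This file joins several modules to save build time (Y6). -/

set_option autoImplicit false

section S_H30_ZO_Ba

set_option autoImplicit false
set_option linter.unusedSectionVars false
open scoped Classical

open WithZero WeierstrassCurve

namespace H30ZO

section BaAux

variable {F : Type} [Field F] {V : Valuation F (WithZero (Multiplicative ℤ))}

theorem Ba_mul {s t : F} {p q : ℤ} (hs : V s ≤ exp p) (ht : V t ≤ exp q) :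
    V (s * t) ≤ exp (p + q) := by
  rw [map_mul, exp_add]
  exact mul_le_mul' hs ht

theorem Ba_add {s t : F} {p : ℤ} (hs : V s ≤ exp p) (ht : V t ≤ exp p) :
    V (s + t) ≤ exp p := (V.map_add s t).trans (max_le hs ht)

theorem Ba_sub {s t : F} {p : ℤ} (hs : V s ≤ exp p) (ht : V t ≤ exp p) :
    V (s - t) ≤ exp p := (V.map_sub s t).trans (max_le hs ht)

theorem Ba_mono {s : F} {p q : ℤ} (hs : V s ≤ exp p) (hpq : p ≤ q) : V s ≤ exp q :=
  hs.trans (exp_le_exp.2 hpq)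

theorem Ba_nat (n : ℕ) : V (n : F) ≤ exp (0 : ℤ) := by
  rw [exp_zero]
  induction n with
  | zero => rw [Nat.cast_zero, map_zero]; exact zero_le_one
  | succ n ih =>
    rw [Nat.cast_succ]
    refine (V.map_add _ _).trans (max_le ih ?_)
    rw [map_one]

theorem Ba_one_add {u : F} (hu : V u ≤ exp (-1 : ℤ)) : V (1 + u) = 1 := by
  apply V.map_one_add_of_lt
  refine lt_of_le_of_lt hu ?_
  rw [← exp_zero, exp_lt_exp]
  norm_num

theorem Ba_one_sub {u : F} (hu : V u ≤ exp (-1 : ℤ)) : V (1 - u) = 1 := by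
  apply V.map_one_sub_of_lt
  refine lt_of_le_of_lt hu ?_
  rw [← exp_zero, exp_lt_exp]
  norm_num

theorem Ba_ne {c : F} (hc : V c = 1) : c ≠ 0 := by
  rintro rfl
  rw [map_zero] at hc
  exact zero_ne_one hc

/-- the parameters of a point near the origin -/
theorem Ba_pt {A B : F} (hA : V A ≤ 1) (hB : V B ≤ 1) {m : ℕ} (hm : 1 ≤ m) {x y : F}
    (e : y ^ 2 = x ^ 3 + A * x + B) (hV : exp (2 * (m : ℤ)) ≤ V x) :
    y ≠ 0 ∧ V (x / y) ≤ exp (-(m : ℤ)) ∧ V (1 / y) ≤ exp (-(3 * (m : ℤ))) ∧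
      1 / y = (x / y) ^ 3 + A * (x / y) * (1 / y) ^ 2 + B * (1 / y) ^ 3 := by
  have hx0 : V x ≠ 0 := by
    intro h
    rw [h] at hV
    exact absurd hV (not_le.2 exp_pos)
  obtain ⟨α, hα⟩ : ∃ α : ℤ, V x = exp α := ⟨_, (exp_log hx0).symm⟩
  have hmα : 2 * (m : ℤ) ≤ α := by
    rw [hα, exp_le_exp] at hV
    exact hV
  have h3 : V (x ^ 3) = exp (3 * α) := by
    rw [map_pow, hα, ← exp_nsmul, nsmul_eq_mul]
    push_cast
    rfl
  have hAx : V (A * x + B) ≤ exp α := by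
    refine (V.map_add _ _).trans (max_le ?_ ?_)
    · rw [map_mul, hα]
      exact mul_le_of_le_one_left' hA
    · refine hB.trans ?_
      rw [← exp_zero, exp_le_exp]
      omega
  have hlt : V (A * x + B) < V (x ^ 3) := by
    rw [h3]
    refine lt_of_le_of_lt hAx ?_
    rw [exp_lt_exp]
    omega
  have hy2 : V (y ^ 2) = exp (3 * α) := by
    rw [e, add_assoc, V.map_add_eq_of_lt_left hlt, h3]
  have hy0 : y ≠ 0 := by
    rintro rfl
    rw [zero_pow two_ne_zero, map_zero] at hy2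
    exact exp_ne_zero hy2.symm
  have hVy0 : V y ≠ 0 := (V.ne_zero_iff).2 hy0
  obtain ⟨β, hβ⟩ : ∃ β : ℤ, V y = exp β := ⟨_, (exp_log hVy0).symm⟩
  have hab : 2 * β = 3 * α := by
    rw [map_pow, hβ, ← exp_nsmul, exp_inj] at hy2
    simpa using hy2
  refine ⟨hy0, ?_, ?_, ?_⟩
  · rw [map_div₀, hα, hβ, ← exp_sub, exp_le_exp]
    omega
  · rw [map_div₀, map_one, hβ, ← exp_zero, ← exp_sub, exp_le_exp]
    omega
  · field_simp
    linear_combination e

theorem Ba_line {A B : F} {z₁ z₂ z₃ w₁ w₂ l n c : F} (hz : z₁ ≠ z₂) (hc : c ≠ 0)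
    (hc' : c = 1 + A * l ^ 2 + B * l ^ 3) (h₁ : w₁ = l * z₁ + n) (h₂ : w₂ = l * z₂ + n)
    (e₁ : w₁ = z₁ ^ 3 + A * z₁ * w₁ ^ 2 + B * w₁ ^ 3)
    (e₂ : w₂ = z₂ ^ 3 + A * z₂ * w₂ ^ 2 + B * w₂ ^ 3)
    (h₃ : c * (z₁ + z₂ + z₃) = -(2 * A * l * n + 3 * B * l ^ 2 * n)) :
    c * (z₁ * z₂ + z₁ * z₃ + z₂ * z₃) = A * n ^ 2 + 3 * B * l * n ^ 2 - l ∧
      c * (z₁ * z₂ * z₃) = -(B * n ^ 3 - n) := by
  have g₁ : c * z₁ ^ 3 - c * (z₁ + z₂ + z₃) * z₁ ^ 2 + (A * n ^ 2 + 3 * B * l * n ^ 2 - l) * z₁ +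
      (B * n ^ 3 - n) = 0 := by
    rw [h₃, hc']
    rw [h₁] at e₁
    linear_combination -e₁
  have g₂ : c * z₂ ^ 3 - c * (z₁ + z₂ + z₃) * z₂ ^ 2 + (A * n ^ 2 + 3 * B * l * n ^ 2 - l) * z₂ +
      (B * n ^ 3 - n) = 0 := by
    rw [h₃, hc']
    rw [h₂] at e₂
    linear_combination -e₂
  have hq : c * (z₁ * z₂ + z₁ * z₃ + z₂ * z₃) = A * n ^ 2 + 3 * B * l * n ^ 2 - l := by
    apply mul_left_cancel₀ (sub_ne_zero.2 hz)
    linear_combination g₂ - g₁
  refine ⟨hq, ?_⟩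
  rw [← hq] at g₁
  linear_combination g₁

end BaAux

theorem zt_add_ne {F : Type} [Field F] {V : Valuation F (WithZero (Multiplicative ℤ))} {A B : F}
    (hA : V A ≤ 1) (hB : V B ≤ 1) {m : ℕ} (hm : 1 ≤ m) {x₁ y₁ x₂ y₂ : F}
    (h₁ : (⟨0, 0, 0, A, B⟩ : WeierstrassCurve F).toAffine.Nonsingular x₁ y₁)
    (h₂ : (⟨0, 0, 0, A, B⟩ : WeierstrassCurve F).toAffine.Nonsingular x₂ y₂) (hx : x₁ ≠ x₂)
    (hV₁ : exp (2 * (m : ℤ)) ≤ V x₁) (hV₂ : exp (2 * (m : ℤ)) ≤ V x₂) :
    Lv V m (Affine.Point.some x₁ y₁ h₁ + Affine.Point.some x₂ y₂ h₂ : Pc A B) ∧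
      V (zt (Affine.Point.some x₁ y₁ h₁ + Affine.Point.some x₂ y₂ h₂ : Pc A B) -
        x₁ / y₁ - x₂ / y₂) ≤ exp (-(5 * (m : ℤ))) := by
  have e₁ := (h₁.1 : _)
  have q₁ : y₁ ^ 2 = x₁ ^ 3 + A * x₁ + B := by
    have h := (Affine.equation_iff _ _).1 h₁.1
    linear_combination h
  have q₂ : y₂ ^ 2 = x₂ ^ 3 + A * x₂ + B := by
    have h := (Affine.equation_iff _ _).1 h₂.1
    linear_combination h
  clear e₁
  obtain ⟨hy₁, hz₁, hw₁, e₁⟩ := Ba_pt hA hB hm q₁ hV₁
  obtain ⟨hy₂, hz₂, hw₂, e₂⟩ := Ba_pt hA hB hm q₂ hV₂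
  obtain ⟨z₁, rz₁⟩ : ∃ z₁, z₁ = x₁ / y₁ := ⟨_, rfl⟩
  obtain ⟨z₂, rz₂⟩ : ∃ z₂, z₂ = x₂ / y₂ := ⟨_, rfl⟩
  obtain ⟨w₁, rw₁⟩ : ∃ w₁, w₁ = 1 / y₁ := ⟨_, rfl⟩
  obtain ⟨w₂, rw₂⟩ : ∃ w₂, w₂ = 1 / y₂ := ⟨_, rfl⟩
  rw [← rz₁] at hz₁ e₁ ⊢
  rw [← rz₂] at hz₂ e₂ ⊢
  rw [← rw₁] at hw₁ e₁
  rw [← rw₂] at hw₂ e₂
  have hm' : (1 : ℤ) ≤ m := by exact_mod_cast hm
  have hA' : V A ≤ exp (0 : ℤ) := by rw [exp_zero]; exact hA
  have hB' : V B ≤ exp (0 : ℤ) := by rw [exp_zero]; exact hB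
  have n2 : V (2 : F) ≤ exp (0 : ℤ) := by exact_mod_cast Ba_nat (V := V) 2
  have n3 : V (3 : F) ≤ exp (0 : ℤ) := by exact_mod_cast Ba_nat (V := V) 3
  have hx1w : z₁ = x₁ * w₁ := by rw [rz₁, rw₁]; ring
  have hx2w : z₂ = x₂ * w₂ := by rw [rz₂, rw₂]; ring
  have hw₁0 : w₁ ≠ 0 := by rw [rw₁]; exact one_div_ne_zero hy₁
  have hw₂0 : w₂ ≠ 0 := by rw [rw₂]; exact one_div_ne_zero hy₂
  have hu : V (A * z₂ * (w₁ + w₂) + B * (w₁ ^ 2 + w₁ * w₂ + w₂ ^ 2)) ≤ exp (-1 : ℤ) := by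
    apply Ba_add
    · refine Ba_mono (Ba_mul (Ba_mul hA' hz₂) (Ba_add hw₁ hw₂)) ?_
      omega
    · refine Ba_mono (Ba_mul hB' (Ba_add (p := -(6 * (m : ℤ))) (Ba_add ?_ ?_) ?_)) ?_
      · rw [sq]; exact Ba_mono (Ba_mul hw₁ hw₁) (by omega)
      · exact Ba_mono (Ba_mul hw₁ hw₂) (by omega)
      · rw [sq]; exact Ba_mono (Ba_mul hw₂ hw₂) (by omega)
      · omega
  have hV1u := Ba_one_sub hu
  have h1u := Ba_ne hV1u
  have hdiff : (w₁ - w₂) * (1 - (A * z₂ * (w₁ + w₂) + B * (w₁ ^ 2 + w₁ * w₂ + w₂ ^ 2))) =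
      (z₁ - z₂) * (z₁ ^ 2 + z₁ * z₂ + z₂ ^ 2 + A * w₁ ^ 2) := by
    linear_combination e₁ - e₂
  have hz : z₁ ≠ z₂ := by
    intro h
    rw [h, sub_self, zero_mul] at hdiff
    have hw : w₁ = w₂ := sub_eq_zero.1 ((mul_eq_zero.1 hdiff).resolve_right h1u)
    apply hx
    apply mul_right_cancel₀ hw₁0
    rw [← hx1w, h, hx2w, hw]
  have hzs : z₁ - z₂ ≠ 0 := sub_ne_zero.2 hz
  obtain ⟨l, hl⟩ : ∃ l, l = (w₁ - w₂) / (z₁ - z₂) := ⟨_, rfl⟩
  have hl' : l * (z₁ - z₂) = w₁ - w₂ := by rw [hl, div_mul_cancel₀ _ hzs]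
  have hlu : l * (1 - (A * z₂ * (w₁ + w₂) + B * (w₁ ^ 2 + w₁ * w₂ + w₂ ^ 2))) =
      z₁ ^ 2 + z₁ * z₂ + z₂ ^ 2 + A * w₁ ^ 2 := by
    apply mul_left_cancel₀ hzs
    rw [← hdiff, ← hl']
    ring
  have hVl : V l ≤ exp (-(2 * (m : ℤ))) := by
    have h := congrArg V hlu
    rw [map_mul, hV1u, mul_one] at h
    rw [h]
    apply Ba_add
    · apply Ba_add
      · apply Ba_add
        · rw [sq]; exact Ba_mono (Ba_mul hz₁ hz₁) (by omega)
        · exact Ba_mono (Ba_mul hz₁ hz₂) (by omega)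
      · rw [sq]; exact Ba_mono (Ba_mul hz₂ hz₂) (by omega)
    · rw [sq]; exact Ba_mono (Ba_mul hA' (Ba_mul hw₁ hw₁)) (by omega)
  obtain ⟨n, hn⟩ : ∃ n, n = w₁ - l * z₁ := ⟨_, rfl⟩
  have k₁ : w₁ = l * z₁ + n := by rw [hn]; ring
  have k₂ : w₂ = l * z₂ + n := by rw [hn]; linear_combination hl'
  have hVn : V n ≤ exp (-(3 * (m : ℤ))) := by
    rw [hn]
    exact Ba_sub hw₁ (Ba_mono (Ba_mul hVl hz₁) (by omega))
  have hn0 : n ≠ 0 := by
    intro h
    rw [h, add_zero, hx1w] at k₁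
    rw [h, add_zero, hx2w] at k₂
    have k₁' : 1 = l * x₁ := by
      apply mul_right_cancel₀ hw₁0
      linear_combination k₁
    have k₂' : 1 = l * x₂ := by
      apply mul_right_cancel₀ hw₂0
      linear_combination k₂
    have hl0 : l ≠ 0 := by
      rintro rfl
      rw [zero_mul] at k₁'
      exact one_ne_zero k₁'
    exact hx (mul_left_cancel₀ hl0 (k₁'.symm.trans k₂'))
  have hVll : V (A * l ^ 2 + B * l ^ 3) ≤ exp (-1 : ℤ) := by
    apply Ba_add
    · rw [sq]; exact Ba_mono (Ba_mul hA' (Ba_mul hVl hVl)) (by omega)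
    · rw [pow_succ, sq]; exact Ba_mono (Ba_mul hB' (Ba_mul (Ba_mul hVl hVl) hVl)) (by omega)
  obtain ⟨c, hc'⟩ : ∃ c, c = 1 + A * l ^ 2 + B * l ^ 3 := ⟨_, rfl⟩
  have hVc : V c = 1 := by
    rw [hc', add_assoc]
    exact Ba_one_add hVll
  have hc := Ba_ne hVc
  obtain ⟨p, hp⟩ : ∃ p, p = 2 * A * l * n + 3 * B * l ^ 2 * n := ⟨_, rfl⟩
  have hVp : V p ≤ exp (-(5 * (m : ℤ))) := by
    rw [hp]
    apply Ba_add
    · exact Ba_mono (Ba_mul (Ba_mul (Ba_mul n2 hA') hVl) hVn) (by omega)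
    · rw [sq]
      exact Ba_mono (Ba_mul (Ba_mul (Ba_mul n3 hB') (Ba_mul hVl hVl)) hVn) (by omega)
  have hVpc : V (p / c) ≤ exp (-(5 * (m : ℤ))) := by
    rw [map_div₀, hVc, div_one]
    exact hVp
  obtain ⟨z₃, hz₃⟩ : ∃ z₃, z₃ = -z₁ - z₂ - p / c := ⟨_, rfl⟩
  have hVz₃ : V z₃ ≤ exp (-(m : ℤ)) := by
    rw [hz₃]
    refine Ba_sub (Ba_sub ?_ hz₂) (Ba_mono hVpc (by omega))
    rw [Valuation.map_neg]
    exact hz₁
  obtain ⟨w₃, k₃⟩ : ∃ w₃, w₃ = l * z₃ + n := ⟨_, rfl⟩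
  have hVw₃ : V w₃ ≤ exp (-(3 * (m : ℤ))) := by
    rw [k₃]
    exact Ba_add (Ba_mono (Ba_mul hVl hVz₃) (by omega)) hVn
  have hs : c * (z₁ + z₂ + z₃) = -(2 * A * l * n + 3 * B * l ^ 2 * n) := by
    rw [← hp, hz₃]
    field_simp
    ring
  obtain ⟨v2, v3⟩ := Ba_line hz hc hc' k₁ k₂ e₁ e₂ hs
  have e₃ : w₃ = z₃ ^ 3 + A * z₃ * w₃ ^ 2 + B * w₃ ^ 3 := by
    rw [k₃]
    linear_combination z₃ ^ 3 * hc' - z₃ ^ 2 * hs + z₃ * v2 - v3
  have hw₃0 : w₃ ≠ 0 := by
    intro h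
    have h1 : z₃ ^ 3 = 0 := by
      rw [h] at e₃
      linear_combination -e₃
    have h2 : z₃ = 0 := pow_eq_zero_iff (three_ne_zero) |>.1 h1
    rw [h, h2, mul_zero, zero_add] at k₃
    exact hn0 k₃.symm
  have hu₃ : V (A * z₃ * w₃ + B * w₃ ^ 2) ≤ exp (-1 : ℤ) := by
    apply Ba_add
    · exact Ba_mono (Ba_mul (Ba_mul hA' hVz₃) hVw₃) (by omega)
    · rw [sq]; exact Ba_mono (Ba_mul hB' (Ba_mul hVw₃ hVw₃)) (by omega)
  have hVw3 : V w₃ = V z₃ ^ 3 := by
    have h : w₃ * (1 - (A * z₃ * w₃ + B * w₃ ^ 2)) = z₃ ^ 3 := by linear_combination e₃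
    have h' := congrArg V h
    rw [map_mul, Ba_one_sub hu₃, mul_one, map_pow] at h'
    exact h'
  have hz₃0 : z₃ ≠ 0 := by
    intro h
    rw [h, map_zero, zero_pow three_ne_zero, Valuation.zero_iff] at hVw3
    exact hw₃0 hVw3
  have hsl : (⟨0, 0, 0, A, B⟩ : WeierstrassCurve F).toAffine.slope x₁ x₂ y₁ y₂ =
      (y₁ - y₂) / (x₁ - x₂) := Affine.slope_of_X_ne hx
  have hxs : x₁ - x₂ ≠ 0 := sub_ne_zero.2 hx
  have r₁ : l * x₁ + n * y₁ = 1 := by
    have h1 : w₁ * y₁ = 1 := by rw [rw₁]; field_simp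
    have h2 : z₁ * y₁ = x₁ := by rw [rz₁]; field_simp
    linear_combination h1 - y₁ * k₁ - l * h2
  have r₂ : l * x₂ + n * y₂ = 1 := by
    have h1 : w₂ * y₂ = 1 := by rw [rw₂]; field_simp
    have h2 : z₂ * y₂ = x₂ := by rw [rz₂]; field_simp
    linear_combination h1 - y₂ * k₂ - l * h2
  have hell : (y₁ - y₂) / (x₁ - x₂) = -(l / n) := by
    field_simp
    linear_combination r₁ - r₂
  have hprod : c * (w₁ * w₂ * w₃) = n ^ 3 := by
    rw [k₁, k₂, k₃]
    linear_combination l ^ 3 * v3 + l ^ 2 * n * v2 + l * n ^ 2 * hs + n ^ 3 * hc'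
  have hsum : c * (z₁ * (w₂ * w₃) + z₂ * (w₁ * w₃) + z₃ * (w₁ * w₂)) = l ^ 2 * n := by
    rw [k₁, k₂, k₃]
    linear_combination 3 * l ^ 2 * v3 + 2 * l * n * v2 + n ^ 2 * hs
  have hX : ((y₁ - y₂) / (x₁ - x₂)) ^ 2 - x₁ - x₂ = z₃ / w₃ := by
    have hx₁' : x₁ = z₁ / w₁ := by rw [hx1w]; field_simp
    have hx₂' : x₂ = z₂ / w₂ := by rw [hx2w]; field_simp
    have hl2 : (-(l / n)) ^ 2 = z₁ / w₁ + z₂ / w₂ + z₃ / w₃ := by
      have h1 : l ^ 2 * n * (w₁ * w₂ * w₃) = n ^ 3 *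
          (z₁ * (w₂ * w₃) + z₂ * (w₁ * w₃) + z₃ * (w₁ * w₂)) := by
        apply mul_left_cancel₀ hc
        linear_combination (l ^ 2 * n) * hprod - n ^ 3 * hsum
      have h2 : l ^ 2 * (w₁ * w₂ * w₃) = n ^ 2 *
          (z₁ * (w₂ * w₃) + z₂ * (w₁ * w₃) + z₃ * (w₁ * w₂)) := by
        apply mul_left_cancel₀ hn0
        linear_combination h1
      field_simp
      linear_combination h2
    rw [hell, hl2, ← hx₁', ← hx₂']
    ring
  have r₃ : l * (z₃ / w₃) + n * (1 / w₃) = 1 := by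
    field_simp
    exact k₃.symm
  have hY : (y₁ - y₂) / (x₁ - x₂) * (z₃ / w₃ - x₁) + y₁ = 1 / w₃ := by
    rw [hell]
    have h1 : n * (-(l / n) * (z₃ / w₃ - x₁) + y₁) = n * (1 / w₃) := by
      have h2 : n * (-(l / n) * (z₃ / w₃ - x₁) + y₁) = -(l * (z₃ / w₃ - x₁)) + n * y₁ := by
        field_simp
      rw [h2]
      linear_combination r₁ - r₃
    exact mul_left_cancel₀ hn0 h1
  have haX : (⟨0, 0, 0, A, B⟩ : WeierstrassCurve F).toAffine.addX x₁ x₂
      ((⟨0, 0, 0, A, B⟩ : WeierstrassCurve F).toAffine.slope x₁ x₂ y₁ y₂) = z₃ / w₃ := by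
    rw [hsl, ← hX]
    simp only [Affine.addX]
    ring
  have haY : (⟨0, 0, 0, A, B⟩ : WeierstrassCurve F).toAffine.addY x₁ x₂ y₁
      ((⟨0, 0, 0, A, B⟩ : WeierstrassCurve F).toAffine.slope x₁ x₂ y₁ y₂) = -(1 / w₃) := by
    rw [Affine.addY, Affine.negAddY, haX, hsl, ← hY]
    simp [Affine.negY]
  have hadd := Affine.Point.add_some (h₁ := h₁) (h₂ := h₂) (fun hxy => hx hxy.1)
  rw [hadd]
  constructor
  · refine Or.inr ⟨_, _, _, rfl, ?_⟩
    rw [haX, map_div₀, hVw3]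
    have h0 : V z₃ ≠ 0 := (V.ne_zero_iff).2 hz₃0
    obtain ⟨α, hα⟩ : ∃ α : ℤ, V z₃ = exp α := ⟨_, (exp_log h0).symm⟩
    rw [hα, exp_le_exp] at hVz₃
    rw [hα, ← exp_nsmul, ← exp_sub, exp_le_exp]
    simp only [nsmul_eq_mul]
    push_cast
    omega
  · rw [zt_some, haX, haY]
    have h1 : z₃ / w₃ / -(1 / w₃) - z₁ - z₂ = p / c := by
      have h2 : z₃ / w₃ / -(1 / w₃) = -z₃ := by field_simp
      rw [h2, hz₃]
      ring
    rw [h1]
    exact hVpc

end H30ZO

end S_H30_ZO_Ba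

section S_H30_ZO_Bb

set_option autoImplicit false
set_option linter.unusedSectionVars false
open scoped Classical

open WithZero WeierstrassCurve

namespace H30ZO

/-- The algebra of the tangent construction near the origin. -/
lemma Bb_alg {F : Type} [Field F] {A B z w l n c z₃ w₃ : F}
    (hw : w = z ^ 3 + A * z * w ^ 2 + B * w ^ 3)
    (hl : l * (1 - 2 * A * z * w - 3 * B * w ^ 2) = 3 * z ^ 2 + A * w ^ 2)
    (hn : n = w - l * z) (hc : c = 1 + A * l ^ 2 + B * l ^ 3)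
    (hz₃ : c * z₃ = -2 * z * c - (2 * A * l * n + 3 * B * l ^ 2 * n))
    (hw₃ : w₃ = l * z₃ + n) :
    c * w₃ = c * (z₃ ^ 3 + A * z₃ * w₃ ^ 2 + B * w₃ ^ 3) ∧ c * w ^ 2 * w₃ = n ^ 3 ∧
      c * (2 * z * w * w₃ + z₃ * w ^ 2) = l ^ 2 * n ∧
      n * (1 - 2 * A * z * w - 3 * B * w ^ 2) = -2 * w := by
  have hwn : w = l * z + n := by rw [hn]; ring
  have e1 : 2 * A * l * n + 3 * B * l ^ 2 * n = -c * (2 * z + z₃) := by
    linear_combination hz₃
  have d0 : 3 * c * z ^ 2 + 2 * (2 * A * l * n + 3 * B * l ^ 2 * n) * z +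
      (A * n ^ 2 + 3 * B * l * n ^ 2 - l) = 0 := by
    rw [hc]
    subst hn
    linear_combination -hl
  have f0 : c * z ^ 3 + (2 * A * l * n + 3 * B * l ^ 2 * n) * z ^ 2 +
      (A * n ^ 2 + 3 * B * l * n ^ 2 - l) * z + (B * n ^ 3 - n) = 0 := by
    rw [hc]
    subst hn
    linear_combination -hw
  have e2 : A * n ^ 2 + 3 * B * l * n ^ 2 - l = c * (z ^ 2 + 2 * z * z₃) := by
    linear_combination d0 - 2 * z * e1
  have e3 : B * n ^ 3 - n = -c * z ^ 2 * z₃ := by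
    linear_combination f0 - z ^ 2 * e1 - z * e2
  refine ⟨?_, ?_, ?_, ?_⟩
  · have h1 : c * z₃ ^ 3 + (2 * A * l * n + 3 * B * l ^ 2 * n) * z₃ ^ 2 +
        (A * n ^ 2 + 3 * B * l * n ^ 2 - l) * z₃ + (B * n ^ 3 - n) = 0 := by
      rw [e1, e2, e3]; ring
    have h2 : w₃ = z₃ ^ 3 + A * z₃ * w₃ ^ 2 + B * w₃ ^ 3 := by
      rw [hw₃]
      rw [hc] at h1
      linear_combination -h1
    exact congrArg (fun t => c * t) h2
  · rw [hw₃, hwn]
    have : c * (l * z + n) ^ 2 * (l * z₃ + n) =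
        l ^ 3 * (c * z ^ 2 * z₃) + l ^ 2 * n * (c * (z ^ 2 + 2 * z * z₃)) +
          l * n ^ 2 * (c * (2 * z + z₃)) + c * n ^ 3 := by ring
    rw [this]
    have a1 : c * (2 * z + z₃) = -(2 * A * l * n + 3 * B * l ^ 2 * n) := by
      linear_combination e1
    have a3 : c * z ^ 2 * z₃ = n - B * n ^ 3 := by linear_combination e3
    rw [a1, a3, ← e2, hc]
    ring
  · rw [hw₃, hwn]
    have : c * (2 * z * (l * z + n) * (l * z₃ + n) + z₃ * (l * z + n) ^ 2) =
        3 * l ^ 2 * (c * z ^ 2 * z₃) + 2 * l * n * (c * (z ^ 2 + 2 * z * z₃)) +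
          n ^ 2 * (c * (2 * z + z₃)) := by ring
    rw [this]
    have a1 : c * (2 * z + z₃) = -(2 * A * l * n + 3 * B * l ^ 2 * n) := by
      linear_combination e1
    have a3 : c * z ^ 2 * z₃ = n - B * n ^ 3 := by linear_combination e3
    rw [a1, a3, ← e2]
    ring
  · rw [hn]
    linear_combination -z * hl + 3 * hw

/-- The valuation of a point near the origin. -/
lemma Bb_val {F : Type} [Field F] {V : Valuation F (WithZero (Multiplicative ℤ))} {A B : F}
    (hA : V A ≤ 1) (hB : V B ≤ 1) {m : ℕ} (hm : 1 ≤ m) {x y : F}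
    (he : y ^ 2 = x ^ 3 + A * x + B) (hV : exp (2 * (m : ℤ)) ≤ V x) :
    x ≠ 0 ∧ y ≠ 0 ∧ V (x / y) ≤ exp (-(m : ℤ)) ∧ V (1 / y) ≤ exp (-(3 * (m : ℤ))) := by
  have h1 : (1 : WithZero (Multiplicative ℤ)) < V x := by
    refine lt_of_lt_of_le ?_ hV
    rw [← exp_zero, exp_lt_exp]
    omega
  have hVx : V x ≠ 0 := (zero_lt_one.trans h1).ne'
  have hx : x ≠ 0 := (Valuation.ne_zero_iff _).1 hVx
  have h2 : V (A * x + B) < V (x ^ 3) := by
    have h3 : V (A * x + B) ≤ V x := by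
      refine (Valuation.map_add _ _ _).trans (max_le ?_ (hB.trans h1.le))
      rw [map_mul]
      exact mul_le_of_le_one_left' hA
    refine h3.trans_lt ?_
    rw [map_pow]
    calc V x = V x ^ 1 := (pow_one _).symm
      _ < V x ^ 3 := pow_lt_pow_right₀ h1 (by norm_num)
  have hy2 : V y ^ 2 = V x ^ 3 := by
    rw [← map_pow, he, add_assoc, Valuation.map_add_eq_of_lt_left _ h2, map_pow]
  have hVy : V y ≠ 0 := by
    intro h0
    rw [h0, zero_pow (by norm_num)] at hy2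
    exact pow_ne_zero 3 hVx hy2.symm
  have hy : y ≠ 0 := (Valuation.ne_zero_iff _).1 hVy
  have hz2 : V (x / y) ^ 2 * V x = 1 := by
    rw [map_div₀, div_pow, hy2]
    field_simp
  have hz : V (x / y) ≤ exp (-(m : ℤ)) := by
    by_contra h
    push Not at h
    have h3 : exp (-(m : ℤ)) ^ 2 * exp (2 * (m : ℤ)) < V (x / y) ^ 2 * V x := by
      refine lt_of_lt_of_le (mul_lt_mul_of_pos_right
        (pow_lt_pow_left₀ h zero_le (by norm_num)) (exp_pos)) ?_
      exact mul_le_mul' le_rfl hV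
    rw [hz2, ← exp_nsmul, ← exp_add] at h3
    have : (2 • -(m : ℤ) + 2 * (m : ℤ)) = 0 := by simp
    rw [this, exp_zero] at h3
    exact lt_irrefl _ h3
  refine ⟨hx, hy, hz, ?_⟩
  have h4 : V (1 / y) = V (x / y) ^ 3 := by
    rw [map_div₀, map_div₀, map_one, div_pow, ← hy2]
    field_simp
  rw [h4]
  calc V (x / y) ^ 3 ≤ exp (-(m : ℤ)) ^ 3 := pow_le_pow_left₀ zero_le hz 3
    _ = exp (-(3 * (m : ℤ))) := by
      rw [← exp_nsmul]
      congr 1
      simp

theorem zt_dbl {F : Type} [Field F] (h2 : (2 : F) ≠ 0)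
    {V : Valuation F (WithZero (Multiplicative ℤ))} {A B : F}
    (hA : V A ≤ 1) (hB : V B ≤ 1) {m : ℕ} (hm : 1 ≤ m) {x y : F}
    (h : (⟨0, 0, 0, A, B⟩ : WeierstrassCurve F).toAffine.Nonsingular x y)
    (hV : exp (2 * (m : ℤ)) ≤ V x) :
    Lv V m (Affine.Point.some x y h + Affine.Point.some x y h : Pc A B) ∧
      V (zt (Affine.Point.some x y h + Affine.Point.some x y h : Pc A B) - 2 * (x / y)) ≤
        exp (-(5 * (m : ℤ))) := by
  have he : y ^ 2 = x ^ 3 + A * x + B := by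
    have h1 := (Affine.equation_iff _ _).1 h.1
    linear_combination h1
  obtain ⟨hx, hy, hz, hw⟩ := Bb_val hA hB hm he hV
  -- small valuations
  have hE : ∀ k : ℤ, 0 < k → (exp (-k) : WithZero (Multiplicative ℤ)) < 1 := by
    intro k hk
    rw [← exp_zero, exp_lt_exp]
    omega
  have hnat : ∀ k : ℕ, V (k : F) ≤ 1 := by
    intro k
    induction k with
    | zero => simp
    | succ k ih =>
      push_cast
      exact (Valuation.map_add _ _ _).trans (max_le ih (by simp))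
  have hV2 : V (2 : F) ≤ 1 := by simpa using hnat 2
  have hV3 : V (3 : F) ≤ 1 := by simpa using hnat 3
  set z : F := x / y with hzd
  set w : F := 1 / y with hwd
  have hw0 : w ≠ 0 := one_div_ne_zero hy
  have hweq : w = z ^ 3 + A * z * w ^ 2 + B * w ^ 3 := by
    rw [hzd, hwd]
    field_simp
    linear_combination he
  have hz1 : V z < 1 := hz.trans_lt (hE _ (by omega))
  have hw1 : V w < 1 := hw.trans_lt (hE _ (by omega))
  have hD : V (1 - (2 * A * z * w + 3 * B * w ^ 2)) = 1 := by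
    apply Valuation.map_one_sub_of_lt
    refine (Valuation.map_add _ _ _).trans_lt (max_lt ?_ ?_)
    · have h3 : V (2 * A * z * w) ≤ V w := by
        simp only [map_mul]
        refine mul_le_of_le_one_left' ?_
        exact mul_le_one' (mul_le_one' hV2 hA) hz1.le
      exact h3.trans_lt hw1
    · have h3 : V (3 * B * w ^ 2) ≤ V w := by
        have : (3 * B * w ^ 2) = (3 * B * w) * w := by ring
        rw [this]
        simp only [map_mul]
        refine mul_le_of_le_one_left' ?_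
        exact mul_le_one' (mul_le_one' hV3 hB) hw1.le
      exact h3.trans_lt hw1
  have hD' : V (1 - 2 * A * z * w - 3 * B * w ^ 2) = 1 := by
    rw [← hD]; congr 1; ring
  have hD0 : (1 - 2 * A * z * w - 3 * B * w ^ 2) ≠ 0 := by
    intro h0
    rw [h0, map_zero] at hD'
    exact zero_ne_one hD'
  set D : F := 1 - 2 * A * z * w - 3 * B * w ^ 2 with hDd
  obtain ⟨l, hld⟩ : ∃ l : F, l = (3 * z ^ 2 + A * w ^ 2) / D := ⟨_, rfl⟩
  have hl : l * D = 3 * z ^ 2 + A * w ^ 2 := by rw [hld]; field_simp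
  obtain ⟨n, hn⟩ : ∃ n : F, n = w - l * z := ⟨_, rfl⟩
  obtain ⟨c, hc⟩ : ∃ c : F, c = 1 + A * l ^ 2 + B * l ^ 3 := ⟨_, rfl⟩
  -- powers of exp
  have hp2 : (exp (-(m : ℤ)) : WithZero (Multiplicative ℤ)) ^ 2 = exp (-(2 * (m : ℤ))) := by
    rw [← exp_nsmul]; congr 1; simp
  have hVl : V l ≤ exp (-(2 * (m : ℤ))) := by
    have h3 : V l = V (3 * z ^ 2 + A * w ^ 2) := by
      rw [hld, map_div₀, hD', div_one]
    rw [h3]
    refine (Valuation.map_add _ _ _).trans (max_le ?_ ?_)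
    · rw [map_mul, map_pow, ← hp2]
      exact (mul_le_of_le_one_left' hV3).trans (pow_le_pow_left₀ zero_le hz 2)
    · rw [map_mul, map_pow, ← hp2]
      refine (mul_le_of_le_one_left' hA).trans (pow_le_pow_left₀ zero_le (hw.trans ?_) 2)
      rw [exp_le_exp]; omega
  have hl1 : V l < 1 := hVl.trans_lt (hE _ (by omega))
  have hVn : V n ≤ exp (-(3 * (m : ℤ))) := by
    rw [hn]
    refine (Valuation.map_sub _ _ _).trans (max_le hw ?_)
    rw [map_mul]
    calc V l * V z ≤ exp (-(2 * (m : ℤ))) * exp (-(m : ℤ)) := mul_le_mul' hVl hz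
      _ = exp (-(3 * (m : ℤ))) := by rw [← exp_add]; congr 1; ring
  have hc1 : V c = 1 := by
    rw [hc, add_assoc]
    apply Valuation.map_one_add_of_lt
    refine (Valuation.map_add _ _ _).trans_lt (max_lt ?_ ?_)
    · have h3 : V (A * l ^ 2) ≤ V l := by
        have : A * l ^ 2 = (A * l) * l := by ring
        rw [this]
        simp only [map_mul]
        exact mul_le_of_le_one_left' (mul_le_one' hA hl1.le)
      exact h3.trans_lt hl1
    · have h3 : V (B * l ^ 3) ≤ V l := by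
        have : B * l ^ 3 = (B * l * l) * l := by ring
        rw [this]
        simp only [map_mul]
        exact mul_le_of_le_one_left' (mul_le_one' (mul_le_one' hB hl1.le) hl1.le)
      exact h3.trans_lt hl1
  have hc0 : c ≠ 0 := by
    intro h0
    rw [h0, map_zero] at hc1
    exact zero_ne_one hc1
  obtain ⟨e, he'⟩ : ∃ e : F, e = (2 * A * l * n + 3 * B * l ^ 2 * n) / c := ⟨_, rfl⟩
  have hVe : V e ≤ exp (-(5 * (m : ℤ))) := by
    rw [he', map_div₀, hc1, div_one]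
    have h3 : (2 * A * l * n + 3 * B * l ^ 2 * n) = (2 * A + 3 * B * l) * (l * n) := by ring
    rw [h3, map_mul]
    have h4 : V (2 * A + 3 * B * l) ≤ 1 := by
      refine (Valuation.map_add _ _ _).trans (max_le ?_ ?_)
      · rw [map_mul]; exact mul_le_one' hV2 hA
      · simp only [map_mul]; exact mul_le_one' (mul_le_one' hV3 hB) hl1.le
    refine (mul_le_of_le_one_left' h4).trans ?_
    rw [map_mul]
    calc V l * V n ≤ exp (-(2 * (m : ℤ))) * exp (-(3 * (m : ℤ))) := mul_le_mul' hVl hVn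
      _ = exp (-(5 * (m : ℤ))) := by rw [← exp_add]; congr 1; ring
  obtain ⟨z₃, hz₃⟩ : ∃ z₃ : F, z₃ = -2 * z - e := ⟨_, rfl⟩
  obtain ⟨w₃, hw₃⟩ : ∃ w₃ : F, w₃ = l * z₃ + n := ⟨_, rfl⟩
  obtain ⟨q1, q2, q3, q4⟩ := Bb_alg (z₃ := z₃) hweq hl hn hc
    (by rw [hz₃, he']; field_simp) hw₃
  have hw₃eq : w₃ = z₃ ^ 3 + A * z₃ * w₃ ^ 2 + B * w₃ ^ 3 := mul_left_cancel₀ hc0 q1
  have hn0 : n ≠ 0 := by
    intro h0
    rw [h0, zero_mul] at q4
    exact mul_ne_zero h2 hw0 (by linear_combination q4)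
  have hw₃0 : w₃ ≠ 0 := by
    intro h0
    rw [h0, mul_zero] at q2
    exact pow_ne_zero 3 hn0 q2.symm
  have hVz₃ : V z₃ ≤ exp (-(m : ℤ)) := by
    rw [hz₃]
    refine (Valuation.map_sub _ _ _).trans (max_le ?_ (hVe.trans ?_))
    · rw [map_mul, Valuation.map_neg]
      exact (mul_le_of_le_one_left' hV2).trans hz
    · rw [exp_le_exp]; omega
  have hz₃1 : V z₃ < 1 := hVz₃.trans_lt (hE _ (by omega))
  have hw₃1 : V w₃ < 1 := by
    rw [hw₃]
    refine (Valuation.map_add _ _ _).trans_lt (max_lt ?_ (hVn.trans_lt (hE _ (by omega))))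
    rw [map_mul]
    exact (mul_le_of_le_one_left' hl1.le).trans_lt hz₃1
  have hz₃0 : z₃ ≠ 0 := by
    intro h0
    have h3 : w₃ * (1 - B * w₃ ^ 2) = 0 := by
      rw [h0] at hw₃eq
      linear_combination hw₃eq
    rcases mul_eq_zero.1 h3 with h4 | h4
    · exact hw₃0 h4
    · have h5 : V (1 - B * w₃ ^ 2) = 1 := by
        apply Valuation.map_one_sub_of_lt
        have : B * w₃ ^ 2 = (B * w₃) * w₃ := by ring
        rw [this]
        simp only [map_mul]
        exact (mul_le_of_le_one_left' (mul_le_one' hB hw₃1.le)).trans_lt hw₃1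
      rw [h4, map_zero] at h5
      exact zero_ne_one h5
  have hVw₃ : V w₃ = V z₃ ^ 3 := by
    have h3 : w₃ * (1 - (A * z₃ * w₃ + B * w₃ ^ 2)) = z₃ ^ 3 := by
      linear_combination hw₃eq
    have h5 : V (1 - (A * z₃ * w₃ + B * w₃ ^ 2)) = 1 := by
      apply Valuation.map_one_sub_of_lt
      refine (Valuation.map_add _ _ _).trans_lt (max_lt ?_ ?_)
      · simp only [map_mul]
        exact (mul_le_of_le_one_left' (mul_le_one' hA hz₃1.le)).trans_lt hw₃1
      · have : B * w₃ ^ 2 = (B * w₃) * w₃ := by ring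
        rw [this]
        simp only [map_mul]
        exact (mul_le_of_le_one_left' (mul_le_one' hB hw₃1.le)).trans_lt hw₃1
    rw [← map_pow, ← h3, map_mul, h5, mul_one]
  -- the double
  have hny' : (⟨0, 0, 0, A, B⟩ : WeierstrassCurve F).toAffine.negY x y = -y := by
    simp [Affine.negY]
  have hny : y ≠ (⟨0, 0, 0, A, B⟩ : WeierstrassCurve F).toAffine.negY x y := by
    rw [hny']
    intro h3
    apply mul_ne_zero h2 hy
    linear_combination h3
  have hadd := Affine.Point.add_self_of_Y_ne (h₁ := h) hny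
  have hsl : (⟨0, 0, 0, A, B⟩ : WeierstrassCurve F).toAffine.slope x x y y = -(l / n) := by
    rw [Affine.slope_of_Y_ne rfl hny, hny']
    have hxz : x = z / w := by rw [hzd, hwd]; field_simp
    have hyw : y = 1 / w := by rw [hwd]; field_simp
    have h2y : y - -y = 2 * y := by ring
    have h2w : 2 * w = -(n * D) := by linear_combination q4
    calc (3 * x ^ 2 + 2 * 0 * x + A - 0 * y) / (y - -y) = (3 * z ^ 2 + A * w ^ 2) / (2 * w) := by
          rw [h2y, hxz, hyw]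
          field_simp
          ring
      _ = l * D / -(n * D) := by rw [← hl, h2w]
      _ = -(l / n) := by field_simp
  rw [hadd]
  have hX : (⟨0, 0, 0, A, B⟩ : WeierstrassCurve F).toAffine.addX x x
      ((⟨0, 0, 0, A, B⟩ : WeierstrassCurve F).toAffine.slope x x y y) = z₃ / w₃ := by
    rw [hsl]
    simp only [Affine.addX]
    have hxz : x = z / w := by rw [hzd, hwd]; field_simp
    rw [hxz]
    have hlv : l ^ 2 / n ^ 2 = (2 * z * w * w₃ + z₃ * w ^ 2) / (w ^ 2 * w₃) := by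
      rw [div_eq_div_iff (pow_ne_zero 2 hn0) (mul_ne_zero (pow_ne_zero 2 hw0) hw₃0)]
      apply mul_left_cancel₀ hc0
      apply mul_left_cancel₀ hn0
      linear_combination (l ^ 2 * n) * q2 - n ^ 3 * q3
    have : (-(l / n)) ^ 2 + 0 * -(l / n) - 0 - z / w - z / w = l ^ 2 / n ^ 2 - 2 * (z / w) := by
      rw [neg_sq, div_pow]; ring
    rw [this, hlv]
    field_simp
    ring
  have hY : (⟨0, 0, 0, A, B⟩ : WeierstrassCurve F).toAffine.addY x x y
      ((⟨0, 0, 0, A, B⟩ : WeierstrassCurve F).toAffine.slope x x y y) = -(1 / w₃) := by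
    simp only [Affine.addY, Affine.negAddY, Affine.negY, hX]
    rw [hsl]
    have hxz : x = z / w := by rw [hzd, hwd]; field_simp
    have hyw : y = 1 / w := by rw [hwd]; field_simp
    have hwn : w = l * z + n := by rw [hn]; ring
    have key : -(l / n) * (z₃ / w₃ - z / w) + 1 / w = 1 / w₃ := by
      have : -(l / n) * (z₃ / w₃ - z / w) + 1 / w - 1 / w₃ =
          (-l * z₃ * w + l * z * w₃ + n * w₃ - n * w) / (n * w * w₃) := by
        field_simp
        ring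
      have h0 : -l * z₃ * w + l * z * w₃ + n * w₃ - n * w = 0 := by
        linear_combination w * hw₃ - w₃ * hwn
      rw [h0, zero_div] at this
      exact sub_eq_zero.1 this
    rw [hxz, hyw, key]
    ring
  constructor
  · right
    refine ⟨_, _, _, rfl, ?_⟩
    rw [hX, map_div₀, hVw₃]
    have hVz0 : V z₃ ≠ 0 := (Valuation.ne_zero_iff _).2 hz₃0
    rw [le_div_iff₀ (pow_pos (zero_lt_iff.2 hVz0) 3)]
    calc exp (2 * (m : ℤ)) * V z₃ ^ 3 = (exp (2 * (m : ℤ)) * V z₃ ^ 2) * V z₃ := by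
          rw [mul_assoc, ← pow_succ]
      _ ≤ (exp (2 * (m : ℤ)) * exp (-(m : ℤ)) ^ 2) * V z₃ :=
        mul_le_mul' (mul_le_mul' le_rfl (pow_le_pow_left₀ zero_le hVz₃ 2)) le_rfl
      _ = V z₃ := by
        rw [hp2, ← exp_add, add_neg_cancel, exp_zero, one_mul]
  · rw [zt_some, hX, hY]
    have : z₃ / w₃ / -(1 / w₃) - 2 * z = e := by
      rw [hz₃]
      field_simp
      ring
    rw [this]
    exact hVe

end H30ZO

end S_H30_ZO_Bb

section S_H30_ZO_Bc

set_option autoImplicit false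
set_option linter.unusedSectionVars false
open scoped Classical

open WithZero WeierstrassCurve

namespace H30ZO

private theorem Bc_negY {F : Type} [Field F] (A B x y : F) :
    (⟨0, 0, 0, A, B⟩ : WeierstrassCurve F).toAffine.negY x y = -y := by
  simp [Affine.negY]

private theorem Bc_eqn {F : Type} [Field F] {A B x y : F}
    (h : (⟨0, 0, 0, A, B⟩ : WeierstrassCurve F).toAffine.Nonsingular x y) :
    y ^ 2 = x ^ 3 + A * x + B := by
  have h1 := (Affine.equation_iff _ _).1 h.1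
  linear_combination h1

private theorem Bc_ztneg {F : Type} [Field F] {A B : F} (P : Pc A B) : zt (-P) = -zt P := by
  rcases P with _ | ⟨x, y, h⟩
  · show zt (-(0 : Pc A B)) = -zt (0 : Pc A B)
    rw [neg_zero, zt_zero, neg_zero]
  · rw [Affine.Point.neg_some, zt_some, zt_some, Bc_negY, div_neg]

private theorem Bc_lvneg {F : Type} [Field F] {V : Valuation F (WithZero (Multiplicative ℤ))}
    {A B : F} {m : ℕ} {P : Pc A B} (hP : Lv V m P) : Lv V m (-P) := by
  rcases hP with rfl | ⟨x, y, h, rfl, hV⟩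
  · exact Or.inl neg_zero
  · exact Or.inr ⟨x, _, _, Affine.Point.neg_some h, hV⟩

private theorem Bc_add {F : Type} [Field F] (h2 : (2 : F) ≠ 0)
    {V : Valuation F (WithZero (Multiplicative ℤ))} {A B : F}
    (hA : V A ≤ 1) (hB : V B ≤ 1) {m : ℕ} (hm : 1 ≤ m) {P Q : Pc A B} (hP : Lv V m P)
    (hQ : Lv V m Q) :
    Lv V m (P + Q) ∧ V (zt (P + Q) - zt P - zt Q) ≤ exp (-(5 * (m : ℤ))) := by
  rcases hP with rfl | ⟨x₁, y₁, h₁, rfl, hV₁⟩
  · rw [zero_add, zt_zero, sub_zero, sub_self, map_zero]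
    exact ⟨hQ, zero_le⟩
  rcases hQ with rfl | ⟨x₂, y₂, h₂, rfl, hV₂⟩
  · rw [add_zero, zt_zero, sub_zero, sub_self, map_zero]
    exact ⟨Or.inr ⟨x₁, y₁, h₁, rfl, hV₁⟩, zero_le⟩
  by_cases hx : x₁ = x₂
  · subst hx
    have h3 : (y₁ - y₂) * (y₁ + y₂) = 0 := by linear_combination Bc_eqn h₁ - Bc_eqn h₂
    rcases mul_eq_zero.1 h3 with h4 | h4
    · have h5 : y₁ = y₂ := sub_eq_zero.1 h4
      subst h5
      obtain ⟨h6, h7⟩ := zt_dbl h2 hA hB hm h₁ hV₁
      refine ⟨h6, ?_⟩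
      rw [zt_some, sub_sub, ← two_mul]
      exact h7
    · have h5 : (Affine.Point.some x₁ y₁ h₁ : Pc A B) = -(Affine.Point.some x₁ y₂ h₂ : Pc A B) := by
        rw [Affine.Point.neg_some, Affine.Point.some.injEq]
        refine ⟨rfl, ?_⟩
        rw [Bc_negY]
        linear_combination h4
      rw [h5, neg_add_cancel, zt_zero, Bc_ztneg, zero_sub, neg_neg, sub_self, map_zero]
      exact ⟨Or.inl rfl, zero_le⟩
  · exact zt_add_ne hA hB hm h₁ h₂ hx hV₁ hV₂

theorem exists_EE {F : Type} [Field F] (h2 : (2 : F) ≠ 0)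
    {V : Valuation F (WithZero (Multiplicative ℤ))} {A B : F}
    (hA : V A ≤ 1) (hB : V B ≤ 1) {m : ℕ} (hm : 1 ≤ m) :
    ∃ H : AddSubgroup (Pc A B), (∀ P, P ∈ H ↔ Lv V m P) ∧
      (∀ P ∈ H, ∀ Q ∈ H, V (zt (P + Q) - zt P - zt Q) ≤ exp (-(5 * (m : ℤ)))) ∧
      (∀ P : Pc A B, zt (-P) = -zt P) ∧ ∀ P ∈ H, (2 : ℤ) • P = 0 → P = 0 := by
  refine ⟨{ carrier := {P | Lv V m P}
            zero_mem' := Or.inl rfl
            add_mem' := fun {P Q} hP hQ => (Bc_add h2 hA hB hm hP hQ).1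
            neg_mem' := fun {P} hP => Bc_lvneg hP }, fun P => Iff.rfl, ?_, Bc_ztneg, ?_⟩
  · intro P hP Q hQ
    exact (Bc_add h2 hA hB hm hP hQ).2
  · intro P hP h0
    rcases hP with rfl | ⟨x, y, h, rfl, hV⟩
    · rfl
    exfalso
    rw [two_zsmul, add_eq_zero_iff_eq_neg, Affine.Point.neg_some, Affine.Point.some.injEq,
      Bc_negY] at h0
    have hy : y = 0 := by
      have h3 : 2 * y = 0 := by linear_combination h0.2
      exact (mul_eq_zero.1 h3).resolve_left h2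
    have h4 := Bc_eqn h
    rw [hy] at h4
    have h5 : x ^ 3 = -(A * x + B) := by linear_combination -h4
    have hx1 : 1 < V x := by
      refine lt_of_lt_of_le ?_ hV
      rw [← exp_zero, exp_lt_exp]
      omega
    have h6 : V (x ^ 3) ≤ V x := by
      rw [h5, Valuation.map_neg]
      refine Valuation.map_add_le _ ?_ (hB.trans hx1.le)
      rw [map_mul]
      exact mul_le_of_le_one_left' hA
    have h7 : V x < V (x ^ 3) := by
      have hx0 : 0 < V x := zero_lt_one.trans hx1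
      rw [map_pow, pow_succ, pow_two]
      calc V x = 1 * V x := (one_mul _).symm
        _ < V x * V x * V x := by
          refine (mul_lt_mul_iff_left₀ hx0).2 ?_
          exact one_lt_mul'' hx1 hx1
    exact absurd h6 (not_le.2 h7)

end H30ZO

end S_H30_ZO_Bc

section S_H30_ZO_Bd

set_option autoImplicit false
set_option linter.unusedSectionVars false
open scoped Classical

open WithZero WeierstrassCurve NumberField IsDedekindDomain

namespace H30ZO

section Hensel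

open Topology Filter

variable {F : Type*} [Field F] [Valued F (WithZero (Multiplicative ℤ))]

/-- The Newton iteration for the cubic equation `y = -(a0 + a2 y^2 + a3 y^3)`. -/
def Bd_it (a0 a2 a3 : F) : ℕ → F
  | 0 => 0
  | n + 1 => -(a0 + a2 * (Bd_it a0 a2 a3 n) ^ 2 + a3 * (Bd_it a0 a2 a3 n) ^ 3)

lemma Bd_le {a0 a2 a3 : F} (h0 : Valued.v a0 < 1) (h2 : Valued.v a2 ≤ 1) (h3 : Valued.v a3 ≤ 1)
    (n : ℕ) : Valued.v (Bd_it a0 a2 a3 n) ≤ Valued.v a0 := by
  induction n with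
  | zero => change Valued.v (0 : F) ≤ _; rw [map_zero]; exact zero_le
  | succ n ih =>
    change Valued.v (-(a0 + a2 * (Bd_it a0 a2 a3 n) ^ 2 + a3 * (Bd_it a0 a2 a3 n) ^ 3)) ≤ _
    rw [Valuation.map_neg]
    have hy1 : Valued.v (Bd_it a0 a2 a3 n) ≤ 1 := ih.trans h0.le
    refine (Valuation.map_add _ _ _).trans (max_le ((Valuation.map_add _ _ _).trans
      (max_le le_rfl ?_)) ?_)
    · rw [map_mul, map_pow, pow_two]
      calc Valued.v a2 * (Valued.v (Bd_it a0 a2 a3 n) * Valued.v (Bd_it a0 a2 a3 n))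
          ≤ 1 * (Valued.v a0 * 1) := mul_le_mul' h2 (mul_le_mul' ih hy1)
        _ = _ := by rw [one_mul, mul_one]
    · rw [map_mul, map_pow, pow_succ, pow_two]
      calc Valued.v a3 * (Valued.v (Bd_it a0 a2 a3 n) * Valued.v (Bd_it a0 a2 a3 n) *
            Valued.v (Bd_it a0 a2 a3 n))
          ≤ 1 * (Valued.v a0 * 1 * 1) := mul_le_mul' h3 (mul_le_mul' (mul_le_mul' ih hy1) hy1)
        _ = _ := by rw [one_mul, mul_one, mul_one]

lemma Bd_succ {a0 a2 a3 : F} (h0 : Valued.v a0 < 1) (h2 : Valued.v a2 ≤ 1)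
    (h3 : Valued.v a3 ≤ 1) (n : ℕ) :
    Valued.v (Bd_it a0 a2 a3 (n + 1) - Bd_it a0 a2 a3 n) ≤ exp (-((n + 1 : ℕ) : ℤ)) := by
  have hc' := Pool.Agent.H10.lt_one_le_exp h0
  induction n with
  | zero =>
    change Valued.v (-(a0 + a2 * (0 : F) ^ 2 + a3 * (0 : F) ^ 3) - 0) ≤ _
    have : -(a0 + a2 * (0 : F) ^ 2 + a3 * (0 : F) ^ 3) - 0 = -a0 := by ring
    rw [this, Valuation.map_neg]
    exact_mod_cast hc'
  | succ n ih =>
    set y := Bd_it a0 a2 a3 (n + 1) with hy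
    set z := Bd_it a0 a2 a3 n with hz
    have e : Bd_it a0 a2 a3 (n + 1 + 1) - y =
        -((y - z) * (a2 * (y + z) + a3 * (y ^ 2 + y * z + z ^ 2))) := by
      have e1 : Bd_it a0 a2 a3 (n + 1 + 1) = -(a0 + a2 * y ^ 2 + a3 * y ^ 3) := rfl
      have e2 : y = -(a0 + a2 * z ^ 2 + a3 * z ^ 3) := rfl
      rw [e1]
      linear_combination (-1 : F) * e2
    rw [e, Valuation.map_neg, map_mul]
    have hyl : Valued.v y ≤ exp (-1 : ℤ) := (Bd_le h0 h2 h3 _).trans hc'
    have hzl : Valued.v z ≤ exp (-1 : ℤ) := (Bd_le h0 h2 h3 _).trans hc'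
    have hexp : (exp (-1 : ℤ) : WithZero (Multiplicative ℤ)) ≤ 1 := by
      rw [← exp_zero, exp_le_exp]; omega
    have q1 : Valued.v (a2 * (y + z)) ≤ exp (-1 : ℤ) := by
      rw [map_mul]
      calc Valued.v a2 * Valued.v (y + z) ≤ 1 * exp (-1 : ℤ) :=
            mul_le_mul' h2 ((Valuation.map_add _ _ _).trans (max_le hyl hzl))
        _ = _ := one_mul _
    have q2 : Valued.v (y ^ 2 + y * z + z ^ 2) ≤ exp (-1 : ℤ) := by
      refine (Valuation.map_add _ _ _).trans (max_le ((Valuation.map_add _ _ _).trans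
        (max_le ?_ ?_)) ?_)
      · rw [map_pow, pow_two]
        calc Valued.v y * Valued.v y ≤ exp (-1 : ℤ) * 1 := mul_le_mul' hyl (hyl.trans hexp)
          _ = _ := mul_one _
      · rw [map_mul]
        calc Valued.v y * Valued.v z ≤ exp (-1 : ℤ) * 1 := mul_le_mul' hyl (hzl.trans hexp)
          _ = _ := mul_one _
      · rw [map_pow, pow_two]
        calc Valued.v z * Valued.v z ≤ exp (-1 : ℤ) * 1 := mul_le_mul' hzl (hzl.trans hexp)
          _ = _ := mul_one _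
    have q3 : Valued.v (a3 * (y ^ 2 + y * z + z ^ 2)) ≤ exp (-1 : ℤ) := by
      rw [map_mul]
      calc Valued.v a3 * Valued.v (y ^ 2 + y * z + z ^ 2) ≤ 1 * exp (-1 : ℤ) := mul_le_mul' h3 q2
        _ = _ := one_mul _
    have h1 : Valued.v (a2 * (y + z) + a3 * (y ^ 2 + y * z + z ^ 2)) ≤ exp (-1 : ℤ) :=
      (Valuation.map_add _ _ _).trans (max_le q1 q3)
    calc Valued.v (y - z) * Valued.v (a2 * (y + z) + a3 * (y ^ 2 + y * z + z ^ 2))
        ≤ exp (-((n + 1 : ℕ) : ℤ)) * exp (-1 : ℤ) := mul_le_mul' ih h1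
      _ = exp (-((n + 1 + 1 : ℕ) : ℤ)) := by
          rw [← exp_add]; congr 1

lemma Bd_sub {a0 a2 a3 : F} (h0 : Valued.v a0 < 1) (h2 : Valued.v a2 ≤ 1)
    (h3 : Valued.v a3 ≤ 1) (n k : ℕ) :
    Valued.v (Bd_it a0 a2 a3 (n + k) - Bd_it a0 a2 a3 n) ≤ exp (-((n + 1 : ℕ) : ℤ)) := by
  induction k with
  | zero => rw [add_zero, sub_self, map_zero]; exact zero_le
  | succ k ih =>
    have e : Bd_it a0 a2 a3 (n + (k + 1)) - Bd_it a0 a2 a3 n =
        (Bd_it a0 a2 a3 (n + k + 1) - Bd_it a0 a2 a3 (n + k)) +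
          (Bd_it a0 a2 a3 (n + k) - Bd_it a0 a2 a3 n) := by
      rw [← add_assoc]; ring
    rw [e]
    refine (Valuation.map_add _ _ _).trans (max_le ((Bd_succ h0 h2 h3 _).trans ?_) ih)
    rw [exp_le_exp]
    push_cast
    omega

theorem Bd_exists [CompleteSpace F] {a0 a2 a3 : F} (h0 : Valued.v a0 < 1)
    (h2 : Valued.v a2 ≤ 1) (h3 : Valued.v a3 ≤ 1) :
    ∃ t : F, Valued.v t < 1 ∧ t = -(a0 + a2 * t ^ 2 + a3 * t ^ 3) := by
  have hcau : CauchySeq (Bd_it a0 a2 a3) := by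
    rw [CauchySeq, Valued.cauchy_iff]
    refine ⟨inferInstance, fun γ => ?_⟩
    obtain ⟨N, hN⟩ := exists_exp_neg_natCast_lt
      (x := MonoidWithZeroHom.ValueGroup₀.embedding γ.1) (by simp)
    refine ⟨Bd_it a0 a2 a3 '' Set.Ici N, Filter.image_mem_map (Filter.Ici_mem_atTop N), ?_⟩
    rintro _ ⟨m, hm, rfl⟩ _ ⟨n, hn, rfl⟩
    rw [Valuation.restrict_lt_iff_lt_embedding]
    refine lt_of_le_of_lt ?_ hN
    have h1 := Bd_sub h0 h2 h3 N (m - N)
    have h2 := Bd_sub h0 h2 h3 N (n - N)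
    rw [Nat.add_sub_cancel' hm] at h1
    rw [Nat.add_sub_cancel' hn] at h2
    have e : Bd_it a0 a2 a3 n - Bd_it a0 a2 a3 m = (Bd_it a0 a2 a3 n - Bd_it a0 a2 a3 N) -
        (Bd_it a0 a2 a3 m - Bd_it a0 a2 a3 N) := by ring
    rw [e]
    refine (Valuation.map_sub _ _ _).trans (max_le (h2.trans ?_) (h1.trans ?_)) <;>
    · rw [exp_le_exp]; push_cast; omega
  obtain ⟨t, ht⟩ := cauchySeq_tendsto_of_complete hcau
  have e1 : Tendsto (fun n => Bd_it a0 a2 a3 (n + 1)) atTop (𝓝 t) :=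
    ht.comp (tendsto_add_atTop_nat 1)
  have e2 : Tendsto (fun n => Bd_it a0 a2 a3 (n + 1)) atTop
      (𝓝 (-(a0 + a2 * t ^ 2 + a3 * t ^ 3))) := by
    have : (fun n => Bd_it a0 a2 a3 (n + 1)) =
        fun n => -(a0 + a2 * (Bd_it a0 a2 a3 n) ^ 2 + a3 * (Bd_it a0 a2 a3 n) ^ 3) := rfl
    rw [this]
    exact ((tendsto_const_nhds.add ((ht.pow 2).const_mul a2)).add ((ht.pow 3).const_mul a3)).neg
  refine ⟨t, ?_, tendsto_nhds_unique e1 e2⟩
  -- the valuation of the limit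
  have hnb : {z : F | Valued.v.restrict (z - t) < 1} ∈ 𝓝 t := by
    rw [Valued.mem_nhds]
    exact ⟨1, by intro z hz; simpa using hz⟩
  obtain ⟨n, hn⟩ := (ht.eventually hnb).exists
  have hn1 : Valued.v (Bd_it a0 a2 a3 n - t) < 1 := by
    have hn' : Valued.v.restrict (Bd_it a0 a2 a3 n - t) < 1 := hn
    rwa [Valuation.restrict_lt_one_iff] at hn'
  have e : t = Bd_it a0 a2 a3 n - (Bd_it a0 a2 a3 n - t) := by ring
  rw [e]
  exact lt_of_le_of_lt (Valuation.map_sub _ _ _)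
    (max_lt (lt_of_le_of_lt (Bd_le h0 h2 h3 n) h0) hn1)

end Hensel

lemma Bd_hens {F : Type*} [Field F] [Valued F (WithZero (Multiplicative ℤ))] [CompleteSpace F]
    {g0 g1 g2 g3 : F} (h0 : Valued.v g0 < 1) (h1 : Valued.v g1 = 1) (h2 : Valued.v g2 ≤ 1)
    (h3 : Valued.v g3 ≤ 1) :
    ∃ y : F, Valued.v y < 1 ∧ g0 + g1 * y + g2 * y ^ 2 + g3 * y ^ 3 = 0 := by
  have hne : g1 ≠ 0 := by
    intro h
    rw [h, map_zero] at h1
    exact zero_ne_one h1
  obtain ⟨t, ht1, ht⟩ := Bd_exists (F := F) (a0 := g0 / g1) (a2 := g2 / g1) (a3 := g3 / g1)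
    (by rw [map_div₀, h1, div_one]; exact h0) (by rw [map_div₀, h1, div_one]; exact h2)
    (by rw [map_div₀, h1, div_one]; exact h3)
  refine ⟨t, ht1, ?_⟩
  have h : g1 * t = -(g0 + g2 * t ^ 2 + g3 * t ^ 3) := by
    calc g1 * t = g1 * (-(g0 / g1 + g2 / g1 * t ^ 2 + g3 / g1 * t ^ 3)) := by rw [← ht]
      _ = _ := by field_simp
  linear_combination h

lemma Bd_nat {F : Type*} [Field F] (V : Valuation F (WithZero (Multiplicative ℤ))) (n : ℕ) :
    V (n : F) ≤ 1 := by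
  induction n with
  | zero => rw [Nat.cast_zero, map_zero]; exact zero_le
  | succ n ih =>
    rw [Nat.cast_succ]
    exact V.map_add_le ih (le_of_eq (map_one V))

lemma Bd_mul_lt {x y : WithZero (Multiplicative ℤ)} (hx : x ≤ 1) (hy : y < 1) : x * y < 1 :=
  lt_of_le_of_lt (by calc x * y ≤ 1 * y := mul_le_mul' hx le_rfl
    _ = y := one_mul y) hy


theorem exists_zt {k : Type} [Field k] [NumberField k] (v : HeightOneSpectrum (𝓞 k))
    {A B : v.adicCompletion k} (hA : Valued.v A ≤ 1) (hB : Valued.v B ≤ 1) {m : ℕ} (hm : 1 ≤ m)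
    {t : v.adicCompletion k} (ht : Valued.v t ≤ exp (-(m : ℤ))) :
    ∃ P : Pc A B, Lv Valued.v m P ∧ zt P = t := by
  by_cases ht0 : t = 0
  · refine ⟨0, Or.inl rfl, ?_⟩
    rw [ht0]
    rfl
  have ht1 : Valued.v t < 1 := lt_of_le_of_lt ht (by
    rw [← exp_zero, exp_lt_exp]
    omega)
  have hp : ∀ n : ℕ, n ≠ 0 → Valued.v (t ^ n) < 1 := by
    intro n hn
    rw [map_pow]
    exact pow_lt_one₀ zero_le ht1 hn
  have hu : Valued.v (A * t ^ 4) < 1 := by
    rw [map_mul]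
    exact Bd_mul_lt hA (hp 4 (by norm_num))
  have hw : Valued.v (B * t ^ 6) < 1 := by
    rw [map_mul]
    exact Bd_mul_lt hB (hp 6 (by norm_num))
  have h2v : Valued.v (2 : v.adicCompletion k) ≤ 1 := by
    have := Bd_nat (Valued.v : Valuation (v.adicCompletion k) _) 2
    rwa [Nat.cast_ofNat] at this
  have h3v : Valued.v (3 : v.adicCompletion k) ≤ 1 := by
    have := Bd_nat (Valued.v : Valuation (v.adicCompletion k) _) 3
    rwa [Nat.cast_ofNat] at this
  have h2u : Valued.v (2 * (A * t ^ 4)) < 1 := by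
    rw [map_mul]
    exact Bd_mul_lt h2v hu
  have h3w : Valued.v (3 * (B * t ^ 6)) < 1 := by
    rw [map_mul]
    exact Bd_mul_lt h3v hw
  have hg0 : Valued.v (-(A * t ^ 4 + B * t ^ 6)) < 1 := by
    rw [Valuation.map_neg]
    exact lt_of_le_of_lt (Valuation.map_add _ _ _) (max_lt hu hw)
  have hg1 : Valued.v (1 + -(2 * (A * t ^ 4) + 3 * (B * t ^ 6))) = 1 := by
    have h : Valued.v (-(2 * (A * t ^ 4) + 3 * (B * t ^ 6))) < Valued.v (1 : v.adicCompletion k) := by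
      rw [Valuation.map_neg, map_one]
      exact lt_of_le_of_lt (Valuation.map_add _ _ _) (max_lt h2u h3w)
    rw [Valuation.map_add_eq_of_lt_left _ h, map_one]
  have hg2 : Valued.v (-(A * t ^ 4 + 3 * (B * t ^ 6))) ≤ 1 := by
    rw [Valuation.map_neg]
    exact (Valuation.map_add _ _ _).trans (max_le hu.le h3w.le)
  have hg3 : Valued.v (-(B * t ^ 6)) ≤ 1 := by
    rw [Valuation.map_neg]
    exact hw.le
  obtain ⟨y, hy1, hy⟩ := Bd_hens hg0 hg1 hg2 hg3
  have hs1 : Valued.v (1 + y) = 1 := by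
    have h : Valued.v y < Valued.v (1 : v.adicCompletion k) := by
      rw [map_one]
      exact hy1
    rw [Valuation.map_add_eq_of_lt_left _ h, map_one]
  obtain ⟨s, hs⟩ : ∃ s : v.adicCompletion k, s = 1 + y := ⟨_, rfl⟩
  rw [← hs] at hs1
  have hse : s = 1 + A * t ^ 4 * s ^ 2 + B * t ^ 6 * s ^ 3 := by
    rw [hs]
    linear_combination hy
  have hs0 : s ≠ 0 := by
    intro h
    rw [h, map_zero] at hs1
    exact zero_ne_one hs1
  have h20 : (2 : v.adicCompletion k) ≠ 0 := by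
    have := charZero_of_injective_algebraMap (algebraMap k (v.adicCompletion k)).injective
    exact two_ne_zero
  have hyne : (t ^ 3 * s)⁻¹ ≠ 0 := inv_ne_zero (mul_ne_zero (pow_ne_zero 3 ht0) hs0)
  have hcurve : ((t ^ 3 * s)⁻¹) ^ 2 = ((t ^ 2 * s)⁻¹) ^ 3 + A * (t ^ 2 * s)⁻¹ + B := by
    have e1 : ((t ^ 3 * s)⁻¹) ^ 2 = s / (t ^ 6 * s ^ 3) := by
      field_simp
    have e2 : ((t ^ 2 * s)⁻¹) ^ 3 + A * (t ^ 2 * s)⁻¹ + B =
        (1 + A * t ^ 4 * s ^ 2 + B * t ^ 6 * s ^ 3) / (t ^ 6 * s ^ 3) := by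
      field_simp
    rw [e1, e2, ← hse]
  have hns := H73P2.Lb_ns h20 hyne hcurve
  refine ⟨Affine.Point.some _ _ hns, Or.inr ⟨_, _, hns, rfl, ?_⟩, ?_⟩
  · rw [map_inv₀, map_mul, hs1, mul_one, map_pow]
    have hv0 : Valued.v t ≠ 0 := (Valuation.ne_zero_iff _).2 ht0
    have h1 : Valued.v t ^ 2 ≤ exp (-(2 * (m : ℤ))) := by
      calc Valued.v t ^ 2 ≤ exp (-(m : ℤ)) ^ 2 := pow_le_pow_left₀ zero_le ht 2
        _ = exp (-(2 * (m : ℤ))) := by
            rw [← exp_nsmul]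
            congr 1
            simp
    rw [← inv_inv (exp (2 * (m : ℤ)))]
    refine inv_anti₀ (zero_lt_iff.2 (pow_ne_zero 2 hv0)) ?_
    rw [← exp_neg]
    exact h1
  · rw [zt_some]
    field_simp

end H30ZO

end S_H30_ZO_Bd

section S_H30_ZO_Be

set_option autoImplicit false
set_option linter.unusedSectionVars false
open scoped Classical

open WithZero WeierstrassCurve NumberField IsDedekindDomain

namespace H30ZO

private theorem ZOBe_val_coe {k : Type} [Field k] [NumberField k] (u : HeightOneSpectrum (𝓞 k)) (x : k) :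
    Valued.v (algebraMap k (u.adicCompletion k) x) = u.valuation k x :=
  HeightOneSpectrum.valuedAdicCompletion_eq_valuation' u x

private theorem ZOBe_zt_le {F : Type} [Field F] {V : Valuation F (WithZero (Multiplicative ℤ))}
    {A B : F} (hA : V A ≤ 1) (hB : V B ≤ 1) {m : ℕ} (hm : 1 ≤ m) {P : Pc A B}
    (hP : Lv V m P) : V (zt P) ≤ exp (-(m : ℤ)) := by
  rcases hP with rfl | ⟨x, y, h, rfl, hx⟩
  · rw [zt_zero, map_zero]
    exact zero_le
  rw [zt_some]
  have e1 : y ^ 2 = x ^ 3 + A * x + B := H73P2.Lb_eqn h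
  have hx1 : 1 < V x := by
    refine lt_of_lt_of_le ?_ hx
    rw [← exp_zero, exp_lt_exp]
    omega
  have hx0 : V x ≠ 0 := (lt_trans zero_lt_one hx1).ne'
  have h3 : V x < V x ^ 3 := by
    have h4 : V x ^ 1 < V x ^ 3 := pow_lt_pow_right₀ hx1 (by norm_num)
    rwa [pow_one] at h4
  have h5 : V (A * x + B) ≤ V x := by
    refine V.map_add_le ?_ (le_trans hB hx1.le)
    rw [map_mul]
    calc V A * V x ≤ 1 * V x := mul_le_mul_left hA _
      _ = V x := one_mul _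
  have h6 : V y ^ 2 = V x ^ 3 := by
    rw [← map_pow, e1, add_assoc, Valuation.map_add_eq_of_lt_left, map_pow]
    rw [map_pow]
    exact lt_of_le_of_lt h5 h3
  have h7 : V (x / y) ^ 2 ≤ exp (-(m : ℤ)) ^ 2 := by
    rw [map_div₀, div_pow, h6]
    have h8 : V x ^ 2 / V x ^ 3 = (V x)⁻¹ := by
      field_simp
    rw [h8, ← exp_nsmul]
    have h9 : (2 : ℕ) • (-(m : ℤ)) = -(2 * (m : ℤ)) := by
      rw [smul_neg, nsmul_eq_mul]
      push_cast
      rfl
    rw [h9, exp_neg]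
    exact inv_anti₀ (by exact exp_pos) hx
  exact (pow_le_pow_iff_left₀ zero_le zero_le two_ne_zero).1 h7

theorem EE_index {k : Type} [Field k] [NumberField k] (v : HeightOneSpectrum (𝓞 k))
    {A B : v.adicCompletion k} (hA : Valued.v A ≤ 1) (hB : Valued.v B ≤ 1) {m : ℕ} (hm : 1 ≤ m)
    (he : e2 v ≤ 4 * m) {H : AddSubgroup (Pc A B)} (h1 : ∀ P, P ∈ H ↔ Lv Valued.v m P)
    (h2 : ∀ P ∈ H, ∀ Q ∈ H, Valued.v (zt (P + Q) - zt P - zt Q) ≤ exp (-(5 * (m : ℤ))))
    (h3 : ∀ P : Pc A B, zt (-P) = -zt P) :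
    (H.map (zsmulAddGroupHom (α := Pc A B) (2 : ℤ))).relIndex H = 0 ∨
      qq v ≤ (H.map (zsmulAddGroupHom (α := Pc A B) (2 : ℤ))).relIndex H := by
  by_cases h0 : (H.map (zsmulAddGroupHom (α := Pc A B) (2 : ℤ))).relIndex H = 0
  · exact Or.inl h0
  refine Or.inr ?_
  have hme : (exp (-(5 * (m : ℤ))) : WithZero (Multiplicative ℤ)) ≤
      exp (-((m : ℤ) + (e2 v : ℤ))) := by
    rw [exp_le_exp]
    omega
  let K₀ : AddSubgroup (Pc A B) :=
    { carrier := {P | P ∈ H ∧ Valued.v (zt P) ≤ exp (-((m : ℤ) + (e2 v : ℤ)))}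
      zero_mem' := by
        refine ⟨H.zero_mem, ?_⟩
        rw [zt_zero, map_zero]
        exact zero_le
      add_mem' := by
        rintro P Q ⟨hP, hP1⟩ ⟨hQ, hQ1⟩
        refine ⟨H.add_mem hP hQ, ?_⟩
        have e1 : zt (P + Q) = (zt (P + Q) - zt P - zt Q) + (zt P + zt Q) := by ring
        rw [e1]
        exact Valuation.map_add_le _ (le_trans (h2 P hP Q hQ) hme) (Valuation.map_add_le _ hP1 hQ1)
      neg_mem' := by
        rintro P ⟨hP, hP1⟩
        refine ⟨H.neg_mem hP, ?_⟩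
        rw [h3, Valuation.map_neg]
        exact hP1 }
  have hmemK : ∀ P, P ∈ K₀ ↔ P ∈ H ∧ Valued.v (zt P) ≤ exp (-((m : ℤ) + (e2 v : ℤ))) :=
    fun P => Iff.rfl
  have hle : H.map (zsmulAddGroupHom (α := Pc A B) (2 : ℤ)) ≤ K₀ := by
    rintro _ ⟨P, hP, rfl⟩
    have e0 : (zsmulAddGroupHom (α := Pc A B) (2 : ℤ)) P = P + P := two_zsmul P
    rw [e0, hmemK]
    refine ⟨H.add_mem hP hP, ?_⟩
    have e1 : zt (P + P) = (zt (P + P) - zt P - zt P) + 2 * zt P := by ring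
    rw [e1]
    refine Valuation.map_add_le _ (le_trans (h2 P hP P hP) hme) ?_
    rw [map_mul]
    have e2' : (Valued.v (2 : v.adicCompletion k)) = exp (-(e2 v : ℤ)) := by
      have e3 : (2 : v.adicCompletion k) = algebraMap k (v.adicCompletion k) 2 := by
        rw [map_ofNat]
      rw [e3, ZOBe_val_coe, e2_spec]
    rw [e2', neg_add, exp_add, mul_comm]
    exact mul_le_mul_left (ZOBe_zt_le hA hB hm ((h1 P).1 hP)) _
  have hdvd := AddSubgroup.relIndex_dvd_of_le_left H hle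
  have hK0 : K₀.relIndex H ≠ 0 := by
    intro h4
    rw [h4] at hdvd
    exact h0 (zero_dvd_iff.1 hdvd)
  refine le_trans ?_ (Nat.le_of_dvd (Nat.pos_of_ne_zero h0) hdvd)
  obtain ⟨π, hπ⟩ := v.valuation_exists_uniformizer k
  have hex : ∀ c : 𝓞 k, ∃ P : Pc A B, P ∈ H ∧
      zt P = algebraMap k (v.adicCompletion k) (π ^ m * (algebraMap (𝓞 k) k c)) := by
    intro c
    have ht : Valued.v (algebraMap k (v.adicCompletion k) (π ^ m * (algebraMap (𝓞 k) k c))) ≤
        exp (-(m : ℤ)) := by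
      rw [ZOBe_val_coe, map_mul, map_pow, hπ, ← exp_nsmul]
      have e4 : (m : ℕ) • (-1 : ℤ) = -(m : ℤ) := by
        rw [smul_neg, nsmul_eq_mul, mul_one]
      rw [e4]
      calc _ ≤ exp (-(m : ℤ)) * 1 := mul_le_mul_right (v.valuation_le_one c) _
        _ = _ := mul_one _
    obtain ⟨P, hP, hz⟩ := exists_zt v hA hB hm ht
    exact ⟨P, (h1 P).2 hP, hz⟩
  choose p hpH hpz using hex
  have hcard : qq v = Nat.card (𝓞 k ⧸ v.asIdeal ^ (e2 v)) := by
    rw [qq, H76PP.Nv, ← map_pow, Ideal.absNorm_apply]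
    rfl
  have hfin : Finite (H ⧸ K₀.addSubgroupOf H) := Nat.finite_of_card_ne_zero hK0
  have hgoal : Nat.card (𝓞 k ⧸ v.asIdeal ^ (e2 v)) ≤ Nat.card (H ⧸ K₀.addSubgroupOf H) := by
    refine Nat.card_le_card_of_injective
      (fun c : 𝓞 k ⧸ v.asIdeal ^ (e2 v) =>
        (QuotientAddGroup.mk (⟨p c.out, hpH c.out⟩ : H) : H ⧸ K₀.addSubgroupOf H)) ?_
    intro c c' hcc
    have h5 := QuotientAddGroup.eq.1 hcc
    rw [AddSubgroup.mem_addSubgroupOf] at h5
    have h6 : -(p c.out) + p c'.out ∈ K₀ := h5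
    rw [hmemK] at h6
    have h7 := h2 _ (H.neg_mem (hpH c.out)) _ (hpH c'.out)
    rw [h3] at h7
    have h8 : Valued.v (zt (p c'.out) - zt (p c.out)) ≤ exp (-((m : ℤ) + (e2 v : ℤ))) := by
      have e1 : zt (p c'.out) - zt (p c.out) = zt (-(p c.out) + p c'.out) +
          -(zt (-(p c.out) + p c'.out) - -zt (p c.out) - zt (p c'.out)) := by ring
      rw [e1]
      refine Valuation.map_add_le _ h6.2 ?_
      rw [Valuation.map_neg]
      exact le_trans h7 hme
    rw [hpz, hpz, ← map_sub, ZOBe_val_coe, ← mul_sub, map_mul, map_pow, hπ, ← exp_nsmul] at h8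
    have e4 : (m : ℕ) • (-1 : ℤ) = -(m : ℤ) := by
      rw [smul_neg, nsmul_eq_mul, mul_one]
    rw [e4, neg_add, exp_add] at h8
    have h9 : v.valuation k ((algebraMap (𝓞 k) k c'.out) - (algebraMap (𝓞 k) k c.out)) ≤
        exp (-(e2 v : ℤ)) :=
      le_of_mul_le_mul_left h8 exp_pos
    rw [← map_sub, HeightOneSpectrum.valuation_of_algebraMap,
      HeightOneSpectrum.intValuation_le_pow_iff_mem] at h9
    have h10 : (Ideal.Quotient.mk (v.asIdeal ^ (e2 v))) c'.out =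
        (Ideal.Quotient.mk (v.asIdeal ^ (e2 v))) c.out := Ideal.Quotient.eq.2 h9
    have h11 : ∀ d : 𝓞 k ⧸ v.asIdeal ^ (e2 v),
        (Ideal.Quotient.mk (v.asIdeal ^ (e2 v))) d.out = d := fun d => Quotient.out_eq' d
    rw [h11, h11] at h10
    exact h10.symm
  rw [hcard]
  exact hgoal

end H30ZO

end S_H30_ZO_Be

section S_H30_ZO_Bf

set_option autoImplicit false
set_option linter.unusedSectionVars false
open scoped Classical

open WithZero WeierstrassCurve NumberField IsDedekindDomain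

namespace H30ZO


private theorem Bf_num {F : Type} [Field F] (V : Valuation F (WithZero (Multiplicative ℤ)))
    (n : ℕ) : V (n : F) ≤ exp 0 := by
  rw [exp_zero]
  induction n with
  | zero => rw [Nat.cast_zero, map_zero]; exact zero_le
  | succ n ih =>
    rw [Nat.cast_succ]
    exact V.map_add_le ih (le_of_eq (map_one V))

private theorem Bf_mul {F : Type} [Field F] (V : Valuation F (WithZero (Multiplicative ℤ)))
    {a b : F} {i j : ℤ} (ha : V a ≤ exp i) (hb : V b ≤ exp j) : V (a * b) ≤ exp (i + j) := by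
  rw [map_mul, exp_add]
  exact mul_le_mul' ha hb

private theorem Bf_mono {F : Type} [Field F] (V : Valuation F (WithZero (Multiplicative ℤ)))
    {a : F} {i j : ℤ} (ha : V a ≤ exp i) (h : i ≤ j) : V a ≤ exp j :=
  ha.trans (exp_le_exp.2 h)

/-- The main estimate. -/
private theorem Bf_key {F : Type} [Field F] (V : Valuation F (WithZero (Multiplicative ℤ)))
    {A B x y : F} (hA : V A ≤ 1) (hB : V B ≤ 1) {m : ℕ} {e : ℤ} (he : e ≤ 0)
    (hx : V x ≤ exp (2 * (m : ℤ))) (hc : y ^ 2 = x ^ 3 + A * x + B)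
    (h1 : V (3 * x ^ 2 + A) ≤ exp e) (h2 : V (2 * y) ≤ exp e) :
    V (4 * (4 * A ^ 3 + 27 * B ^ 2)) ≤ exp (4 * (m : ℤ) + e) := by
  have hm0 : (0 : ℤ) ≤ (m : ℤ) := Int.natCast_nonneg m
  have n6 : V (6 : F) ≤ exp 0 := by
    have := Bf_num V 6
    rwa [Nat.cast_ofNat] at this
  have n9 : V (9 : F) ≤ exp 0 := by
    have := Bf_num V 9
    rwa [Nat.cast_ofNat] at this
  have n4 : V (4 : F) ≤ exp 0 := by
    have := Bf_num V 4
    rwa [Nat.cast_ofNat] at this
  have n18 : V (18 : F) ≤ exp 0 := by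
    have := Bf_num V 18
    rwa [Nat.cast_ofNat] at this
  have n27 : V (27 : F) ≤ exp 0 := by
    have := Bf_num V 27
    rwa [Nat.cast_ofNat] at this
  have hA' : V A ≤ exp 0 := by rwa [exp_zero]
  have hB' : V B ≤ exp 0 := by rwa [exp_zero]
  have id1 : 4 * (4 * A ^ 3 + 27 * B ^ 2) =
      4 * ((6 * A * (x * x) - 9 * B * x + 4 * A * A) * (3 * x ^ 2 + A)) -
        (18 * A * x - 27 * B) * ((2 * y) * (2 * y)) := by
    linear_combination (4 * (18 * A * x - 27 * B)) * hc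
  have b1 : V (6 * A * (x * x)) ≤ exp (4 * (m : ℤ)) :=
    Bf_mono V (Bf_mul V (Bf_mul V n6 hA') (Bf_mul V hx hx)) (by omega)
  have b2 : V (9 * B * x) ≤ exp (4 * (m : ℤ)) :=
    Bf_mono V (Bf_mul V (Bf_mul V n9 hB') hx) (by omega)
  have b3 : V (4 * A * A) ≤ exp (4 * (m : ℤ)) :=
    Bf_mono V (Bf_mul V (Bf_mul V n4 hA') hA') (by omega)
  have b4 : V (18 * A * x) ≤ exp (4 * (m : ℤ)) :=
    Bf_mono V (Bf_mul V (Bf_mul V n18 hA') hx) (by omega)
  have b5 : V (27 * B) ≤ exp (4 * (m : ℤ)) :=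
    Bf_mono V (Bf_mul V n27 hB') (by omega)
  have c1 : V (6 * A * (x * x) - 9 * B * x + 4 * A * A) ≤ exp (4 * (m : ℤ)) :=
    V.map_add_le (V.map_sub_le b1 b2) b3
  have c2 : V (18 * A * x - 27 * B) ≤ exp (4 * (m : ℤ)) := V.map_sub_le b4 b5
  rw [id1]
  refine V.map_sub_le ?_ ?_
  · exact Bf_mono V (Bf_mul V n4 (Bf_mul V c1 h1)) (by omega)
  · exact Bf_mono V (Bf_mul V c2 (Bf_mul V h2 h2)) (by omega)

/-- The bound for the second coordinate. -/
private theorem Bf_y {F : Type} [Field F] (V : Valuation F (WithZero (Multiplicative ℤ)))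
    {A B x y : F} (hA : V A ≤ 1) (hB : V B ≤ 1) {m : ℕ}
    (hx : V x ≤ exp (2 * (m : ℤ))) (hc : y ^ 2 = x ^ 3 + A * x + B) :
    V y ≤ exp (3 * (m : ℤ)) := by
  have hm0 : (0 : ℤ) ≤ (m : ℤ) := Int.natCast_nonneg m
  have hA' : V A ≤ exp 0 := by rwa [exp_zero]
  have hB' : V B ≤ exp 0 := by rwa [exp_zero]
  have h1 : V (x * x * x) ≤ exp (6 * (m : ℤ)) :=
    Bf_mono V (Bf_mul V (Bf_mul V hx hx) hx) (by omega)
  have h2 : V (A * x) ≤ exp (6 * (m : ℤ)) := Bf_mono V (Bf_mul V hA' hx) (by omega)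
  have h3 : V B ≤ exp (6 * (m : ℤ)) := Bf_mono V hB' (by omega)
  have h4 : V (y ^ 2) ≤ exp (6 * (m : ℤ)) := by
    have e1 : y ^ 2 = x * x * x + A * x + B := by rw [hc]; ring
    rw [e1]
    exact V.map_add_le (V.map_add_le h1 h2) h3
  by_contra h5
  rw [not_le] at h5
  have h6 : exp (6 * (m : ℤ)) < V (y ^ 2) := by
    rw [map_pow, pow_two]
    have e2 : (6 * (m : ℤ)) = 3 * (m : ℤ) + 3 * (m : ℤ) := by ring
    rw [e2, exp_add]
    exact mul_lt_mul'' h5 h5 zero_le zero_le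
  exact absurd h4 (not_le.2 h6)

/-- The first coordinate of a sum is large when the slope is large. -/
private theorem Bf_big {F : Type} [Field F] (V : Valuation F (WithZero (Multiplicative ℤ)))
    {l s : F} {m : ℕ} (hl : exp (m : ℤ) ≤ V l) (hs : V s < exp (2 * (m : ℤ))) :
    exp (2 * (m : ℤ)) ≤ V (l ^ 2 - s) := by
  have h1 : exp (2 * (m : ℤ)) ≤ V (l ^ 2) := by
    rw [map_pow, pow_two, two_mul, exp_add]
    exact mul_le_mul' hl hl
  rw [V.map_sub_eq_of_lt_left (hs.trans_le h1)]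
  exact h1

/-- Two close points which are not of level `m` differ by a point of level `m`. -/
private theorem Bf_close {F : Type} [Field F] (V : Valuation F (WithZero (Multiplicative ℤ)))
    {A B : F} (hA : V A ≤ 1) (hB : V B ≤ 1) (h2 : (2 : F) ≠ 0) {m N : ℕ} (hmN : 2 * m ≤ N)
    (hN : exp (6 * (m : ℤ) - (N : ℤ)) < V (4 * (4 * A ^ 3 + 27 * B ^ 2)))
    {x y x' y' : F} (n : (⟨0, 0, 0, A, B⟩ : WeierstrassCurve F).toAffine.Nonsingular x y)
    (n' : (⟨0, 0, 0, A, B⟩ : WeierstrassCurve F).toAffine.Nonsingular x' y')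
    (hx : V x < exp (2 * (m : ℤ))) (hx' : V x' < exp (2 * (m : ℤ)))
    (hxx : V (x - x') ≤ exp (-(N : ℤ))) (hyy : V (y - y') ≤ exp (-(N : ℤ))) :
    Lv V m (Affine.Point.some x y n - Affine.Point.some x' y' n' : Pc A B) := by
  have hm0 : (0 : ℤ) ≤ (m : ℤ) := Int.natCast_nonneg m
  have hmN' : 2 * (m : ℤ) ≤ (N : ℤ) := by exact_mod_cast hmN
  have e := H73P2.Lb_eqn n
  have e' := H73P2.Lb_eqn n'
  rw [sub_eq_add_neg, Affine.Point.neg_some]
  by_cases hxe : x = x'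
  · subst hxe
    have h3 : (y - y') * (y + y') = 0 := by linear_combination e - e'
    rcases mul_eq_zero.1 h3 with h4 | h4
    · left
      have h5 : y = y' := sub_eq_zero.1 h4
      subst h5
      rw [← Affine.Point.neg_some]
      exact add_neg_cancel _
    · have h5 : y' = -y := by linear_combination h4
      subst h5
      have hneg : (⟨0, 0, 0, A, B⟩ : WeierstrassCurve F).toAffine.negY x (-y) = y := by
        rw [H73P2.Lb_negY, neg_neg]
      by_cases hy0 : y = 0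
      · left
        subst hy0
        apply Affine.Point.add_of_Y_eq rfl
        rw [hneg, H73P2.Lb_negY, neg_zero]
      · have hny : y ≠ (⟨0, 0, 0, A, B⟩ : WeierstrassCurve F).toAffine.negY x y := by
          rw [H73P2.Lb_negY]
          intro h6
          apply mul_ne_zero h2 hy0
          linear_combination h6
        have h2y : V (2 * y) ≤ exp (-(N : ℤ)) := by
          have e1 : 2 * y = y - -y := by ring
          rw [e1]
          exact hyy
        have hl : exp (m : ℤ) ≤ V ((3 * x ^ 2 + A) / (2 * y)) := by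
          by_contra h7
          rw [not_le] at h7
          have hy2 : 2 * y ≠ 0 := mul_ne_zero h2 hy0
          have h8 : V (3 * x ^ 2 + A) ≤ exp ((m : ℤ) - (N : ℤ)) := by
            have e1 : 3 * x ^ 2 + A = ((3 * x ^ 2 + A) / (2 * y)) * (2 * y) := by
              rw [div_mul_cancel₀ _ hy2]
            rw [e1]
            exact Bf_mono V (Bf_mul V h7.le h2y) (by omega)
          have h9 := Bf_key V hA hB (m := m) (e := (m : ℤ) - (N : ℤ)) (by omega) hx.le e h8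
            (Bf_mono V h2y (by omega))
          exact absurd (h9.trans (exp_le_exp.2 (by omega))) (not_le.2 hN)
        right
        have hadd : (Affine.Point.some x y n + Affine.Point.some x
            ((⟨0, 0, 0, A, B⟩ : WeierstrassCurve F).toAffine.negY x (-y))
            ((Affine.nonsingular_neg ..).2 n') : Pc A B) =
            Affine.Point.some x y n + Affine.Point.some x y n := by
          congr 1
          rw [Affine.Point.some.injEq]
          exact ⟨rfl, hneg⟩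
        rw [hadd, Affine.Point.add_self_of_Y_ne (h₁ := n) hny]
        refine ⟨_, _, _, rfl, ?_⟩
        have hX : (⟨0, 0, 0, A, B⟩ : WeierstrassCurve F).toAffine.addX x x
            ((⟨0, 0, 0, A, B⟩ : WeierstrassCurve F).toAffine.slope x x y y) =
            ((3 * x ^ 2 + A) / (2 * y)) ^ 2 - (x + x) := by
          rw [Affine.slope_of_Y_ne rfl hny, H73P2.Lb_negY]
          simp only [Affine.addX]
          have : (3 * x ^ 2 + 2 * 0 * x + A - 0 * y) / (y - -y) = (3 * x ^ 2 + A) / (2 * y) := by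
            congr 1 <;> ring
          rw [this]
          ring
        rw [hX]
        exact Bf_big V hl (V.map_add_lt hx hx)
  · right
    have hd0 : x - x' ≠ 0 := sub_ne_zero.2 hxe
    have hVd : V (x - x') ≠ 0 := (Valuation.ne_zero_iff _).2 hd0
    have hVdp : 0 < V (x - x') := zero_lt_iff.2 hVd
    have hadd := Affine.Point.add_some (h₁ := n) (h₂ := (Affine.nonsingular_neg ..).2 n')
      (fun hxy => hxe hxy.1)
    rw [hadd]
    refine ⟨_, _, _, rfl, ?_⟩
    have hX : (⟨0, 0, 0, A, B⟩ : WeierstrassCurve F).toAffine.addX x x'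
        ((⟨0, 0, 0, A, B⟩ : WeierstrassCurve F).toAffine.slope x x' y
          ((⟨0, 0, 0, A, B⟩ : WeierstrassCurve F).toAffine.negY x' y')) =
        ((y + y') / (x - x')) ^ 2 - (x + x') := by
      rw [Affine.slope_of_X_ne hxe, H73P2.Lb_negY]
      simp only [Affine.addX]
      rw [sub_neg_eq_add]
      ring
    rw [hX]
    apply Bf_big V ?_ (V.map_add_lt hx hx')
    by_contra h7
    rw [not_le] at h7
    have hs : V (y + y') ≤ exp (m : ℤ) * V (x - x') := by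
      have e1 : y + y' = ((y + y') / (x - x')) * (x - x') := by rw [div_mul_cancel₀ _ hd0]
      rw [e1, map_mul]
      exact mul_le_mul' h7.le le_rfl
    have hexp : exp ((m : ℤ) - (N : ℤ)) = exp (m : ℤ) * exp (-(N : ℤ)) := by
      rw [← exp_add, sub_eq_add_neg]
    have hs1 : V (y + y') ≤ exp ((m : ℤ) - (N : ℤ)) := by
      refine hs.trans ?_
      rw [hexp]
      exact mul_le_mul' le_rfl hxx
    have hg : V (x ^ 2 + x * x' + x' ^ 2 + A) ≤ exp ((m : ℤ) - (N : ℤ)) := by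
      have e1 : (y - y') * (y + y') = (x - x') * (x ^ 2 + x * x' + x' ^ 2 + A) := by
        linear_combination e - e'
      have e2 : V (x - x') * V (x ^ 2 + x * x' + x' ^ 2 + A) = V (y - y') * V (y + y') := by
        rw [← map_mul, ← map_mul, e1]
      have e3 : V (x - x') * V (x ^ 2 + x * x' + x' ^ 2 + A) ≤
          V (x - x') * exp ((m : ℤ) - (N : ℤ)) := by
        rw [e2]
        calc V (y - y') * V (y + y') ≤ exp (-(N : ℤ)) * (exp (m : ℤ) * V (x - x')) :=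
              mul_le_mul' hyy hs
          _ = V (x - x') * exp ((m : ℤ) - (N : ℤ)) := by
              rw [hexp, mul_comm, mul_comm (exp (m : ℤ)) (V (x - x')), mul_assoc]
      exact le_of_mul_le_mul_left e3 hVdp
    have h2y : V (2 * y) ≤ exp (2 * (m : ℤ) - (N : ℤ)) := by
      have e1 : 2 * y = (y + y') + (y - y') := by ring
      rw [e1]
      exact V.map_add_le (Bf_mono V hs1 (by omega)) (Bf_mono V hyy (by omega))
    have h3x : V (3 * x ^ 2 + A) ≤ exp (2 * (m : ℤ) - (N : ℤ)) := by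
      have e1 : 3 * x ^ 2 + A = (x ^ 2 + x * x' + x' ^ 2 + A) + (x - x') * (x + x + x') := by ring
      rw [e1]
      refine V.map_add_le (Bf_mono V hg (by omega)) ?_
      exact Bf_mono V (Bf_mul V hxx (V.map_add_le (V.map_add_le hx.le hx.le) hx'.le)) (by omega)
    have h9 := Bf_key V hA hB (m := m) (e := 2 * (m : ℤ) - (N : ℤ)) (by omega) hx.le e h3x h2y
    exact absurd (h9.trans (exp_le_exp.2 (by omega))) (not_le.2 hN)

section Net

variable {k : Type} [Field k] [NumberField k] (v : HeightOneSpectrum (𝓞 k))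

private theorem Bf_dense (x : v.adicCompletion k) :
    ∃ c : k, Valued.v (algebraMap k (v.adicCompletion k) c - x) < 1 := by
  have hd := HeightOneSpectrum.denseRange_algebraMap (K := k) v
  have hopen : IsOpen {y : v.adicCompletion k | Valued.v (y - x) < 1} := by
    have h1 : IsOpen {y : v.adicCompletion k | Valued.v y < 1} := by
      obtain ⟨t, ht⟩ := v.valuedAdicCompletion_surjective k (1 : WithZero (Multiplicative ℤ))
      have := Valued.isOpen_ball (v.adicCompletion k) (Valued.v.restrict t)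
      simp_rw [Valuation.restrict_lt_iff] at this
      rwa [ht] at this
    exact h1.preimage (continuous_sub_right x)
  obtain ⟨c, hc⟩ := hd.exists_mem_open hopen ⟨x, by simp⟩
  exact ⟨c, hc⟩

private theorem Bf_val (x : k) :
    Valued.v (algebraMap k (v.adicCompletion k) x) = v.valuation k x :=
  v.valuedAdicCompletion_eq_valuation' (K := k) x

private theorem Bf_res : ∃ R : Set (v.adicCompletion k), R.Finite ∧
    ∀ t : v.adicCompletion k, Valued.v t ≤ 1 → ∃ r ∈ R, Valued.v (t - r) < 1 := by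
  have hfin : Finite (𝓞 k ⧸ v.asIdeal) := Ideal.finiteQuotientOfFreeOfNeBot v.asIdeal v.ne_bot
  refine ⟨Set.range fun q : 𝓞 k ⧸ v.asIdeal =>
    algebraMap k (v.adicCompletion k) ((Quotient.out q : 𝓞 k) : k), Set.finite_range _, ?_⟩
  intro t ht
  obtain ⟨c, hc⟩ := Bf_dense v t
  have h1 : v.valuation k c ≤ 1 := by
    rw [← Bf_val v c]
    have e1 : algebraMap k (v.adicCompletion k) c =
        (algebraMap k (v.adicCompletion k) c - t) + t := by ring
    rw [e1]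
    exact Valuation.map_add_le _ hc.le ht
  obtain ⟨a, ha⟩ := H76PP.Tf_approx v h1
  refine ⟨_, ⟨Ideal.Quotient.mk v.asIdeal a, rfl⟩, ?_⟩
  have h3 : a - (Quotient.out (Ideal.Quotient.mk v.asIdeal a) : 𝓞 k) ∈ v.asIdeal := by
    rw [← Ideal.Quotient.eq]
    exact (Quotient.out_eq (Ideal.Quotient.mk v.asIdeal a)).symm
  have h4 : v.valuation k (((a - (Quotient.out (Ideal.Quotient.mk v.asIdeal a) : 𝓞 k) : 𝓞 k)) : k)
      < 1 := (v.valuation_lt_one_iff_mem _).2 h3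
  set o : 𝓞 k := (Quotient.out (Ideal.Quotient.mk v.asIdeal a) : 𝓞 k) with ho
  have e1 : t - algebraMap k (v.adicCompletion k) (o : k) =
      -(algebraMap k (v.adicCompletion k) c - t) +
        (algebraMap k (v.adicCompletion k) (c - (a : k)) +
          algebraMap k (v.adicCompletion k) ((a - o : 𝓞 k) : k)) := by
    have e0 : ((a - o : 𝓞 k) : k) = (a : k) - (o : k) := map_sub (algebraMap (𝓞 k) k) a o
    rw [e0, map_sub, map_sub]
    ring
  rw [e1]
  refine Valuation.map_add_lt _ ?_ (Valuation.map_add_lt _ ?_ ?_)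
  · rw [Valuation.map_neg]
    exact hc
  · rw [Bf_val]
    exact ha
  · rw [Bf_val]
    exact h4

private theorem Bf_net (N : ℕ) : ∃ R : Set (v.adicCompletion k), R.Finite ∧
    ∀ t : v.adicCompletion k, Valued.v t ≤ 1 → ∃ r ∈ R, Valued.v (t - r) ≤ exp (-(N : ℤ)) := by
  obtain ⟨π, hπ⟩ := v.valuedAdicCompletion_surjective k (exp (-1 : ℤ))
  have hπ0 : π ≠ 0 := by
    rintro rfl
    rw [map_zero] at hπ
    exact exp_ne_zero hπ.symm
  have hpow : ∀ n : ℕ, Valued.v (π ^ n) = exp (-(n : ℤ)) := by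
    intro n
    rw [map_pow, hπ, ← exp_nsmul]
    congr 1
    simp
  obtain ⟨R₀, hR₀, hR⟩ := Bf_res v
  induction N with
  | zero =>
    refine ⟨{0}, Set.finite_singleton 0, fun t ht => ⟨0, rfl, ?_⟩⟩
    simpa using ht
  | succ N ih =>
    obtain ⟨S, hS, hS'⟩ := ih
    refine ⟨Set.image2 (fun s r => s + π ^ N * r) S R₀, hS.image2 _ hR₀, fun t ht => ?_⟩
    obtain ⟨s, hs, hst⟩ := hS' t ht
    have h1 : Valued.v ((t - s) / π ^ N) ≤ 1 := by
      rw [map_div₀, hpow]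
      exact div_le_one_of_le₀ hst zero_le
    obtain ⟨r, hr, hrt⟩ := hR _ h1
    refine ⟨s + π ^ N * r, ⟨s, hs, r, hr, rfl⟩, ?_⟩
    have e1 : t - (s + π ^ N * r) = π ^ N * ((t - s) / π ^ N - r) := by
      field_simp
      ring
    have h2 : Valued.v ((t - s) / π ^ N - r) ≤ exp (-1 : ℤ) := by
      by_cases h0 : Valued.v ((t - s) / π ^ N - r) = 0
      · rw [h0]
        exact zero_le
      · rw [← log_le_iff_le_exp h0]
        have h3 := (log_lt_log h0 one_ne_zero).2 hrt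
        rw [log_one] at h3
        omega
    rw [e1, map_mul, hpow]
    have e2 : (-((N + 1 : ℕ) : ℤ)) = -(N : ℤ) + -1 := by push_cast; ring
    rw [e2, exp_add]
    exact mul_le_mul' le_rfl h2

private theorem Bf_net2 (j N : ℕ) : ∃ R : Set (v.adicCompletion k), R.Finite ∧
    ∀ t : v.adicCompletion k, Valued.v t ≤ exp (j : ℤ) →
      ∃ r ∈ R, Valued.v (t - r) ≤ exp (-(N : ℤ)) := by
  obtain ⟨c, hc⟩ := v.valuedAdicCompletion_surjective k (exp (j : ℤ))
  have hc0 : c ≠ 0 := by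
    rintro rfl
    rw [map_zero] at hc
    exact exp_ne_zero hc.symm
  obtain ⟨R, hR, hR'⟩ := Bf_net v (N + j)
  refine ⟨(fun r => c * r) '' R, hR.image _, fun t ht => ?_⟩
  have h1 : Valued.v (t / c) ≤ 1 := by
    rw [map_div₀, hc]
    exact div_le_one_of_le₀ ht zero_le
  obtain ⟨r, hr, hrt⟩ := hR' _ h1
  refine ⟨c * r, ⟨r, hr, rfl⟩, ?_⟩
  have e1 : t - c * r = c * (t / c - r) := by
    field_simp
  rw [e1, map_mul, hc]
  have e2 : (-(N : ℤ)) = (j : ℤ) + (-((N + j : ℕ) : ℤ)) := by push_cast; ring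
  rw [e2, exp_add]
  exact mul_le_mul' le_rfl hrt

end Net

theorem EE_fin {k : Type} [Field k] [NumberField k] (v : HeightOneSpectrum (𝓞 k))
    {A B : v.adicCompletion k} (hA : Valued.v A ≤ 1) (hB : Valued.v B ≤ 1)
    (hD : 4 * A ^ 3 + 27 * B ^ 2 ≠ 0) {m : ℕ} (hm : 1 ≤ m) {H : AddSubgroup (Pc A B)}
    (h1 : ∀ P, P ∈ H ↔ Lv Valued.v m P) : H.index ≠ 0 := by
  have hch : CharZero (v.adicCompletion k) :=
    charZero_of_injective_algebraMap (algebraMap k (v.adicCompletion k)).injective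
  have h2 : (2 : v.adicCompletion k) ≠ 0 := two_ne_zero
  have h4 : (4 : v.adicCompletion k) ≠ 0 := by
    have e4 : (4 : v.adicCompletion k) = 2 * 2 := by norm_num
    rw [e4]
    exact mul_ne_zero h2 h2
  have h4D : Valued.v (4 * (4 * A ^ 3 + 27 * B ^ 2)) ≠ 0 :=
    (Valuation.ne_zero_iff _).2 (mul_ne_zero h4 hD)
  obtain ⟨j, hj⟩ := exists_exp_neg_natCast_lt h4D
  have hN : exp (6 * (m : ℤ) - ((6 * m + j : ℕ) : ℤ)) <
      Valued.v (4 * (4 * A ^ 3 + 27 * B ^ 2)) := by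
    have e1 : 6 * (m : ℤ) - ((6 * m + j : ℕ) : ℤ) = -(j : ℤ) := by push_cast; ring
    rw [e1]
    exact hj
  obtain ⟨R, hR, hR'⟩ := Bf_net2 v (3 * m) (6 * m + j)
  have hsmall : ∀ P : Pc A B, P ∉ H → ∃ (x y : v.adicCompletion k)
      (h : (⟨0, 0, 0, A, B⟩ : WeierstrassCurve (v.adicCompletion k)).toAffine.Nonsingular x y),
      P = Affine.Point.some x y h ∧ Valued.v x < exp (2 * (m : ℤ)) := by
    intro P hP
    rw [h1] at hP
    rcases P with _ | ⟨x, y, h⟩
    · exact absurd (Or.inl rfl) hP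
    · refine ⟨x, y, h, rfl, ?_⟩
      by_contra h5
      rw [not_lt] at h5
      exact hP (Or.inr ⟨x, y, h, rfl, h5⟩)
  have hcode : ∀ P : Pc A B, ∃ c : Option (R × R), (c = none → P ∈ H) ∧
      ∀ r : R × R, c = some r → ∃ (x y : v.adicCompletion k)
      (h : (⟨0, 0, 0, A, B⟩ : WeierstrassCurve (v.adicCompletion k)).toAffine.Nonsingular x y),
      P = Affine.Point.some x y h ∧ Valued.v x < exp (2 * (m : ℤ)) ∧
      Valued.v (x - r.1.1) ≤ exp (-((6 * m + j : ℕ) : ℤ)) ∧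
      Valued.v (y - r.2.1) ≤ exp (-((6 * m + j : ℕ) : ℤ)) := by
    intro P
    by_cases hP : P ∈ H
    · exact ⟨none, fun _ => hP, fun r hr => absurd hr (by simp)⟩
    · obtain ⟨x, y, h, rfl, hx⟩ := hsmall P hP
      have hx3 : Valued.v x ≤ exp ((3 * m : ℕ) : ℤ) := by
        refine hx.le.trans (exp_le_exp.2 ?_)
        push_cast
        omega
      have hy3 : Valued.v y ≤ exp ((3 * m : ℕ) : ℤ) := by
        have := Bf_y Valued.v hA hB hx.le (H73P2.Lb_eqn h)
        refine this.trans (exp_le_exp.2 ?_)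
        push_cast
        omega
      obtain ⟨r, hr, hrx⟩ := hR' x hx3
      obtain ⟨s, hs, hsy⟩ := hR' y hy3
      refine ⟨some (⟨r, hr⟩, ⟨s, hs⟩), fun h0 => absurd h0 (by simp), ?_⟩
      intro q hq
      rw [Option.some.injEq] at hq
      subst hq
      exact ⟨x, y, h, rfl, hx, hrx, hsy⟩
  choose c hc1 hc2 using hcode
  have hfinR : Finite R := hR
  have hfin : Finite (Pc A B ⧸ H) := by
    refine Finite.of_injective (fun q : Pc A B ⧸ H => c q.out) ?_
    intro q q' hqq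
    have hqq' : c q.out = c q'.out := hqq
    have hdiff : q'.out - q.out ∈ H := by
      rcases hcq : c q.out with _ | r
      · have h6 := hc1 _ hcq
        have h7 := hc1 _ (hqq'.symm.trans hcq)
        exact H.sub_mem h7 h6
      · obtain ⟨x, y, h, hP, hx, hxr, hyr⟩ := hc2 _ r hcq
        obtain ⟨x', y', h', hP', hx', hxr', hyr'⟩ := hc2 _ r (hqq'.symm.trans hcq)
        rw [hP, hP', h1]
        refine Bf_close Valued.v hA hB h2 (by omega) hN h' h hx' hx ?_ ?_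
        · have e1 : x' - x = (x' - r.1.1) - (x - r.1.1) := by ring
          rw [e1]
          exact Valuation.map_sub_le _ hxr' hxr
        · have e1 : y' - y = (y' - r.2.1) - (y - r.2.1) := by ring
          rw [e1]
          exact Valuation.map_sub_le _ hyr' hyr
    rw [← QuotientAddGroup.out_eq' q, ← QuotientAddGroup.out_eq' q']
    rw [QuotientAddGroup.eq]
    rw [neg_add_eq_sub]
    exact hdiff
  exact AddSubgroup.index_ne_zero_of_finite

end H30ZO

end S_H30_ZO_Bf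

section S_H30_ZO_Bg

set_option autoImplicit false

namespace H30ZO

theorem herbrand {G : Type} [AddCommGroup G] (H : AddSubgroup G) (hH : H.index ≠ 0)
    (ht : ∀ x ∈ H, (2 : ℤ) • x = 0 → x = 0) :
    (zsmulAddGroupHom (α := G) (2 : ℤ)).range.index =
      Nat.card (zsmulAddGroupHom (α := G) (2 : ℤ)).ker *
        (H.map (zsmulAddGroupHom (α := G) (2 : ℤ))).relIndex H := by
  obtain ⟨f, hf⟩ : ∃ f, f = zsmulAddGroupHom (α := G) (2 : ℤ) := ⟨_, rfl⟩
  rw [← hf]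
  have hfx : ∀ x, f x = (2 : ℤ) • x := by
    intro x
    rw [hf]
    rfl
  have h1 : H.map f ≤ H := by
    rintro _ ⟨x, hx, rfl⟩
    rw [hfx]
    exact H.zsmul_mem hx 2
  have h2 : (H.map f).relIndex H * H.index = (H.map f).index := AddSubgroup.relIndex_mul_index h1
  have h3 : (H.map f).index = (H ⊔ f.ker).index * f.range.index := AddSubgroup.index_map H f
  have h4 : H.relIndex (H ⊔ f.ker) * (H ⊔ f.ker).index = H.index :=
    AddSubgroup.relIndex_mul_index le_sup_left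
  have h5 : H ⊓ f.ker = ⊥ := by
    rw [eq_bot_iff]
    rintro x ⟨hx, hk⟩
    have hk' : f x = 0 := hk
    rw [hfx] at hk'
    exact (AddSubgroup.mem_bot).2 (ht x hx hk')
  have h6 : H.relIndex (H ⊔ f.ker) = Nat.card f.ker := by
    rw [AddSubgroup.relIndex_sup_left, ← AddSubgroup.inf_relIndex_right, h5,
      AddSubgroup.relIndex_bot_left]
  have h7 : (H ⊔ f.ker).index ≠ 0 := by
    intro h0
    rw [h0, mul_zero] at h4
    exact hH h4.symm
  have h8 : (H ⊔ f.ker).index * f.range.index =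
      (H ⊔ f.ker).index * (Nat.card f.ker * (H.map f).relIndex H) := by
    rw [← h3, ← h2, ← h4, h6]
    ring
  exact Nat.eq_of_mul_eq_mul_left (Nat.pos_of_ne_zero h7) h8

end H30ZO

end S_H30_ZO_Bg

section S_H30_ZO_Bh

set_option autoImplicit false
set_option linter.unusedSectionVars false
open scoped Classical

open WithZero WeierstrassCurve NumberField IsDedekindDomain

namespace H30ZO

theorem idx_D2 {k : Type} [Field k] [NumberField k] (v : HeightOneSpectrum (𝓞 k)) {a b : k}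
    (ha : v.valuation k a ≤ 1) (hb : v.valuation k b ≤ 1) (hD : 4 * a ^ 3 + 27 * b ^ 2 ≠ 0) :
    (D2 v a b).index = 0 ∨ qq v * Nat.card (T2 v a b) ≤ (D2 v a b).index := by
  have hval : ∀ x : k, Valued.v (algebraMap k (v.adicCompletion k) x) = v.valuation k x := fun x =>
    HeightOneSpectrum.valuedAdicCompletion_eq_valuation' v x
  have hA : Valued.v (algebraMap k (v.adicCompletion k) a) ≤ 1 := by
    rw [hval]
    exact ha
  have hB : Valued.v (algebraMap k (v.adicCompletion k) b) ≤ 1 := by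
    rw [hval]
    exact hb
  have h2 : (2 : v.adicCompletion k) ≠ 0 := by
    have e : (2 : v.adicCompletion k) = algebraMap k (v.adicCompletion k) 2 := by rw [map_ofNat]
    rw [e]
    exact (map_ne_zero _).2 two_ne_zero
  have hD' : 4 * (algebraMap k (v.adicCompletion k) a) ^ 3 + 27 * (algebraMap k (v.adicCompletion k) b) ^ 2 ≠ 0 := by
    have e : 4 * (algebraMap k (v.adicCompletion k) a) ^ 3 + 27 * (algebraMap k (v.adicCompletion k) b) ^ 2 =
        algebraMap k (v.adicCompletion k) (4 * a ^ 3 + 27 * b ^ 2) := by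
      rw [map_add, map_mul, map_mul, map_pow, map_pow, map_ofNat, map_ofNat]
    rw [e]
    exact (map_ne_zero _).2 hD
  obtain ⟨H, h1, h3, h4, h5⟩ := exists_EE h2 hA hB (m := e2 v + 1) (by omega)
  have hfin := EE_fin v hA hB hD' (by omega) h1
  have hh := herbrand H hfin h5
  have hi := EE_index v hA hB (by omega) (by omega) h1 h3 h4
  have hh' : (D2 v a b).index = Nat.card (T2 v a b) *
      (H.map (zsmulAddGroupHom (α := Pt v a b) (2 : ℤ))).relIndex H := hh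
  rw [hh']
  rcases hi with hi | hi
  · left
    have hi' : (H.map (zsmulAddGroupHom (α := Pt v a b) (2 : ℤ))).relIndex H = 0 := hi
    rw [hi', mul_zero]
  · right
    rw [mul_comm]
    exact Nat.mul_le_mul_left _ hi

end H30ZO

end S_H30_ZO_Bh
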