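import Mathlib
import Pool.Agent.H76.PN.A4
import Pool.Agent.H76.ZQ.Y0
import Pool.Agent.H76.ZQ.Y5

/-! This file joins several modules to save build time (Y7). -/

set_option autoImplicit false

section S_H30_ZO_Ca

set_option autoImplicit false
set_option linter.unusedSectionVars false
open scoped Classical

open WithZero WeierstrassCurve H76PP

namespace H30ZO

theorem Ca_alg {F : Type} [Field F] [CharZero F] {A B x a0 a1 u : F}
    (e0 : a0 * a0 - B * (a1 * u + u * a1) = x)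
    (e1 : a0 * a1 + a1 * a0 - A * (a1 * u + u * a1) - B * (u * u) = -1)
    (e2 : a0 * u + a1 * a1 + u * a0 - A * (u * u) = 0) :
    ∃ p q : F, q ≠ 0 ∧ q ^ 2 = p ^ 3 + A * p + B ∧
      ((3 * p ^ 2 + A) / (2 * q)) ^ 2 - 2 * p = x := by
  have h2 : (2 : F) ≠ 0 := two_ne_zero
  have hu : u ≠ 0 := by
    rintro rfl
    have h3 : a1 = 0 := by
      have : a1 * a1 = 0 := by linear_combination e2
      exact mul_self_eq_zero.1 this
    rw [h3] at e1
    have : (1 : F) = 0 := by linear_combination e1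
    exact one_ne_zero this
  obtain ⟨r, hr⟩ : ∃ r : F, a1 = -(r * u) := ⟨-a1 / u, by field_simp⟩
  subst hr
  have h0 : 2 * a0 - (A - r ^ 2) * u = 0 := by
    have : u * (2 * a0 - (A - r ^ 2) * u) = 0 := by linear_combination e2
    exact (mul_eq_zero.1 this).resolve_left hu
  have h1 : (r ^ 3 + A * r - B) * u ^ 2 + 1 = 0 := by linear_combination e1 + r * u * h0
  have hx : x = a0 ^ 2 + 2 * B * r * u ^ 2 := by linear_combination -e0
  have hl : (3 * (-r) ^ 2 + A) / (2 * (-u⁻¹)) = -((3 * r ^ 2 + A) * u / 2) := by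
    field_simp
  refine ⟨-r, -u⁻¹, neg_ne_zero.2 (inv_ne_zero hu), ?_, ?_⟩
  · have h3 : (u⁻¹) ^ 2 * u ^ 2 = 1 := by
      rw [← mul_pow, inv_mul_cancel₀ hu, one_pow]
    have h4 : (-u⁻¹) ^ 2 - ((-r) ^ 3 + A * -r + B) =
        (u⁻¹) ^ 2 * ((r ^ 3 + A * r - B) * u ^ 2 + 1) := by
      linear_combination -(r ^ 3 + A * r - B) * h3
    rw [h1, mul_zero] at h4
    exact sub_eq_zero.1 h4
  · rw [hl, hx]
    have h5 : 4 * ((-((3 * r ^ 2 + A) * u / 2)) ^ 2 - 2 * -r - (a0 ^ 2 + 2 * B * r * u ^ 2)) = 0 := by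
      have h6 : 4 * (-((3 * r ^ 2 + A) * u / 2)) ^ 2 = ((3 * r ^ 2 + A) * u) ^ 2 := by
        field_simp
        ring
      linear_combination h6 + 8 * r * h1 - (2 * a0 + (A - r ^ 2) * u) * h0
    have h7 : (4 : F) ≠ 0 := by norm_num
    exact sub_eq_zero.1 ((mul_eq_zero.1 h5).resolve_left h7)

theorem halve {F : Type} [Field F] [CharZero F] {A B x y : F} (hD : 4 * A ^ 3 + 27 * B ^ 2 ≠ 0)
    (h : (⟨0, 0, 0, A, B⟩ : WeierstrassCurve F).toAffine.Nonsingular x y) {z : Fin 3 → F}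
    (hz : m3 A B z z = ![x, -1, 0]) : ∃ Q : Pc A B, Q + Q = Affine.Point.some x y h := by
  have e0 : z 0 * z 0 - B * (z 1 * z 2 + z 2 * z 1) = x := congrFun hz 0
  have e1 : z 0 * z 1 + z 1 * z 0 - A * (z 1 * z 2 + z 2 * z 1) - B * (z 2 * z 2) = -1 :=
    congrFun hz 1
  have e2 : z 0 * z 2 + z 1 * z 1 + z 2 * z 0 - A * (z 2 * z 2) = 0 := congrFun hz 2
  obtain ⟨p, q, hq, hpq, hx⟩ := Ca_alg e0 e1 e2
  have hQ : (⟨0, 0, 0, A, B⟩ : WeierstrassCurve F).toAffine.Nonsingular p q :=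
    H73P2.Lb_ns two_ne_zero hq hpq
  have hnq : q ≠ (⟨0, 0, 0, A, B⟩ : WeierstrassCurve F).toAffine.negY p q := by
    rw [H73P2.Lb_negY]
    intro h3
    apply mul_ne_zero (two_ne_zero (α := F)) hq
    linear_combination h3
  have hadd := Affine.Point.add_self_of_Y_ne (h₁ := hQ) hnq
  have hX : (⟨0, 0, 0, A, B⟩ : WeierstrassCurve F).toAffine.addX p p
      ((⟨0, 0, 0, A, B⟩ : WeierstrassCurve F).toAffine.slope p p q q) = x := by
    rw [Affine.slope_of_Y_ne rfl hnq, H73P2.Lb_negY]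
    simp only [Affine.addX]
    have : (3 * p ^ 2 + 2 * 0 * p + A - 0 * q) / (q - -q) = (3 * p ^ 2 + A) / (2 * q) := by
      congr 1 <;> ring
    rw [this, ← hx]
    ring
  obtain ⟨X, Y, hXY, hs⟩ : ∃ (X Y : F)
      (h' : (⟨0, 0, 0, A, B⟩ : WeierstrassCurve F).toAffine.Nonsingular X Y),
      X = x ∧ (Affine.Point.some p q hQ + Affine.Point.some p q hQ : Pc A B) =
        Affine.Point.some X Y h' := ⟨_, _, _, hX, hadd⟩
  obtain ⟨hXx, hs⟩ := hs
  subst hXx
  have e3 := H73P2.Lb_eqn hXY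
  have e4 := H73P2.Lb_eqn h
  have h5 : (Y - y) * (Y + y) = 0 := by linear_combination e3 - e4
  rcases mul_eq_zero.1 h5 with h6 | h6
  · have h7 : Y = y := sub_eq_zero.1 h6
    subst h7
    exact ⟨_, hs⟩
  · have h7 : y = (⟨0, 0, 0, A, B⟩ : WeierstrassCurve F).toAffine.negY X Y := by
      rw [H73P2.Lb_negY]
      linear_combination h6
    subst h7
    refine ⟨-(Affine.Point.some p q hQ), ?_⟩
    rw [← neg_add, hs, Affine.Point.neg_some]

end H30ZO

end S_H30_ZO_Ca

section S_H30_ZO_Cb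

set_option autoImplicit false
set_option linter.unusedSectionVars false
open scoped Classical

open WithZero WeierstrassCurve H76PP

namespace H30ZO

theorem Cb_comm {F : Type} [Field F] (A B : F) (u v : Fin 3 → F) : m3 A B u v = m3 A B v u := by
  funext j
  fin_cases j <;> simp [m3] <;> ring

theorem Cb_assoc {F : Type} [Field F] (A B : F) (u v w : Fin 3 → F) :
    m3 A B (m3 A B u v) w = m3 A B u (m3 A B v w) := by
  funext j
  fin_cases j <;> simp [m3] <;> ring

theorem Cb_inv {F : Type} [Field F] {A B : F} {z : Fin 3 → F} (h : Te_nf A B z ≠ 0) :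
    m3 A B z (fun j => Te_C A B z j / Te_nf A B z) = ![1, 0, 0] := by
  have h1 := Te_m3_adj A B z
  have h2 : m3 A B z (fun j => Te_C A B z j / Te_nf A B z) =
      fun j => m3 A B z (Te_C A B z) j / Te_nf A B z := by
    funext j
    fin_cases j <;> simp [m3] <;> ring
  rw [h2, h1]
  funext j
  fin_cases j <;> simp [h]

theorem Cb_root {F : Type} [Field F] {A B : F} {z u X : Fin 3 → F} (h : Te_nf A B z ≠ 0)
    (hu : m3 A B (m3 A B z z) X = m3 A B u u) : ∃ w : Fin 3 → F, m3 A B w w = X := by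
  set z' : Fin 3 → F := fun j => Te_C A B z j / Te_nf A B z with hz'
  have hz : m3 A B z z' = ![1, 0, 0] := Cb_inv h
  refine ⟨m3 A B u z', ?_⟩
  have h1 : m3 A B (m3 A B u z') (m3 A B u z') = m3 A B (m3 A B u u) (m3 A B z' z') := by
    rw [Cb_assoc, Cb_comm A B z', Cb_assoc A B u z', ← Cb_assoc A B u u]
  have h2 : m3 A B (m3 A B (m3 A B z z) X) (m3 A B z' z') =
      m3 A B X (m3 A B (m3 A B z z') (m3 A B z z')) := by
    have h3 : m3 A B (m3 A B z z') (m3 A B z z') = m3 A B (m3 A B z z) (m3 A B z' z') := by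
      rw [Cb_assoc, Cb_comm A B z', Cb_assoc A B z z', ← Cb_assoc A B z z]
    rw [h3, Cb_comm A B (m3 A B z z) X, Cb_assoc]
  rw [h1, ← hu, h2, hz, H73P2.Lb_one, H73P2.Lb_one]

theorem diff_D2 {F : Type} [Field F] [CharZero F] {A B : F} (hD : 4 * A ^ 3 + 27 * B ^ 2 ≠ 0)
    (hinf : Infinite (Pc A B)) {x y x' y' : F}
    (h : (⟨0, 0, 0, A, B⟩ : WeierstrassCurve F).toAffine.Nonsingular x y)
    (h' : (⟨0, 0, 0, A, B⟩ : WeierstrassCurve F).toAffine.Nonsingular x' y')
    (hy : y ≠ 0) (hy' : y' ≠ 0) {z : Fin 3 → F}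
    (hz : m3 A B z z = m3 A B ![x, -1, 0] ![x', -1, 0]) :
    ∃ Q : Pc A B, Q + Q = Affine.Point.some x y h - Affine.Point.some x' y' h' := by
  have h2 : (2 : F) ≠ 0 := two_ne_zero
  have hnx : ∀ {s t : F} (hst : (⟨0, 0, 0, A, B⟩ : WeierstrassCurve F).toAffine.Nonsingular s t),
      t ≠ 0 → Te_nf A B ![s, -1, 0] ≠ 0 := by
    intro s t hst ht
    have h3 : Te_nf A B ![s, -1, 0] = t ^ 2 := by
      rw [H73P2.Lb_eqn hst]
      simp [Te_nf]
      ring
    rw [h3]
    exact pow_ne_zero 2 ht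
  have hnz : Te_nf A B z ≠ 0 := by
    intro h0
    have h3 := congrArg (Te_nf A B) hz
    rw [Te_nf_mul, Te_nf_mul, h0, zero_mul] at h3
    exact mul_ne_zero (hnx h hy) (hnx h' hy') h3.symm
  set P₁ : (⟨0, 0, 0, A, B⟩ : WeierstrassCurve F).toAffine.Point := Affine.Point.some x y h with hP₁
  set P₂ : (⟨0, 0, 0, A, B⟩ : WeierstrassCurve F).toAffine.Point := Affine.Point.some x' y' h'
    with hP₂
  have L₁ : H73P2.Lb_P A B ![x, -1, 0] P₁ := ⟨x, y, h, ![x, -1, 0], hP₁, hy, rfl⟩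
  have L₂ : H73P2.Lb_P A B ![x', -1, 0] P₂ := ⟨x', y', h', ![x', -1, 0], hP₂, hy', rfl⟩
  obtain ⟨Q, hQ⟩ := H73P2.Lb_avoid hD hinf
    {0, P₁ + P₁, -(P₁ + P₁), (P₂ - P₁) + (P₂ - P₁), -((P₁ + P₂) + (P₁ + P₂))} (by simp)
  have q0 : 4 • Q ≠ 0 := hQ _ (by simp)
  have q1 : 4 • Q ≠ P₁ + P₁ := hQ _ (by simp)
  have q2 : 4 • Q ≠ -(P₁ + P₁) := hQ _ (by simp)
  have q3 : 4 • Q ≠ (P₂ - P₁) + (P₂ - P₁) := hQ _ (by simp)
  have q4 : 4 • Q ≠ -((P₁ + P₂) + (P₁ + P₂)) := hQ _ (by simp)
  have h4 : 4 • Q = (Q + Q) + (Q + Q) := by abel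
  have hT : H73P2.Lb_P A B ![1, 0, 0] (Q + Q) := by
    refine H73P2.Lb_dbl h2 Q ?_ ?_
    · intro h
      apply q0
      rw [h4, h, add_zero]
    · rw [← h4]
      exact q0
  have hA : H73P2.Lb_P A B ![x, -1, 0] (P₁ + (Q + Q)) := by
    have := H73P2.Lb_add L₁ hT ?_ ?_ ?_
    · rwa [H73P2.Lb_one] at this
    · intro h
      apply q1
      rw [h4, ← h]
    · intro h
      apply q2
      rw [h4, h]
      abel
    · intro h
      apply q2
      rw [h4, eq_neg_iff_add_eq_zero, ← h]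
      abel
  have hB := H73P2.Lb_add hA L₂ ?_ ?_ ?_
  · obtain ⟨x'', y'', n'', u, hP'', hy'', hu⟩ := hB
    rw [← hz] at hu
    obtain ⟨w, hw⟩ := Cb_root hnz hu
    obtain ⟨U, hU⟩ := halve hD n'' hw
    refine ⟨U - Q - P₂, ?_⟩
    have h5 : U + U = P₁ + (Q + Q) + P₂ := by rw [hU, hP'']
    have h6 : U - Q - P₂ + (U - Q - P₂) = (U + U) - (Q + Q) - P₂ - P₂ := by abel
    rw [h6, h5]
    abel
  · intro h
    apply q3
    rw [h4, ← h]
    abel
  · intro h
    apply q4
    rw [h4]
    have : P₂ = -(P₁ + (Q + Q)) := by rw [h, neg_neg]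
    rw [this]
    abel
  · intro h
    apply q4
    rw [h4, eq_neg_iff_add_eq_zero, ← h]
    abel

end H30ZO

end S_H30_ZO_Cb

section S_H30_ZO_Cc

set_option autoImplicit false
set_option linter.unusedSectionVars false
open scoped Classical

open WithZero WeierstrassCurve NumberField IsDedekindDomain H76PP

namespace H30ZO

private lemma Cc_m3 {F : Type} [Field F] (A B : F) (e s : Fin 3 → F) :
    m3 A B (m3 A B e s) (m3 A B e s) = m3 A B (m3 A B e e) (m3 A B s s) := by
  funext j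
  fin_cases j <;> simp [m3] <;> ring

private lemma Cc_alg {F : Type} [Field F] {A B x₀ y₀ X : F} (hy : y₀ ≠ 0) (h4 : (4 : F) ≠ 0)
    (e : y₀ ^ 2 = x₀ ^ 3 + A * x₀ + B) :
    m3 A B (m3 A B ![x₀, -1, 0] ![x₀, -1, 0]) (fun j => (![1, 0, 0] : Fin 3 → F) j +
      4 * ((X - x₀) / 4 * ((![x₀ ^ 2 + A, x₀, 1] : Fin 3 → F) j / y₀ ^ 2))) =
      m3 A B ![x₀, -1, 0] ![X, -1, 0] := by
  have hy2 : y₀ ^ 2 ≠ 0 := pow_ne_zero _ hy
  have e1 : ∀ w : F, 4 * ((X - x₀) / 4 * (w / y₀ ^ 2)) = ((X - x₀) / y₀ ^ 2) * w := by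
    intro w
    field_simp
  obtain ⟨u, hu⟩ : ∃ u, u = (X - x₀) / y₀ ^ 2 := ⟨_, rfl⟩
  have hu' : u * (x₀ ^ 3 + A * x₀ + B) = X - x₀ := by
    rw [← e, hu]
    field_simp
  funext j
  simp only [e1]
  rw [← hu]
  fin_cases j
  · simp [m3]
    linear_combination x₀ * hu'
  · simp [m3]
    linear_combination (-1 : F) * hu'
  · simp [m3]
    ring

private lemma Cc_nat {F : Type} [Field F] [Valued F (WithZero (Multiplicative ℤ))] (n : ℕ) :
    Valued.v (n : F) ≤ 1 := by
  induction n with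
  | zero => rw [Nat.cast_zero, map_zero]; exact zero_le
  | succ n ih =>
    rw [Nat.cast_succ]
    exact (Valuation.map_add _ _ _).trans (max_le ih (by rw [map_one]))

private lemma Cc_add {F : Type} [Field F] [Valued F (WithZero (Multiplicative ℤ))] {u w : F}
    {γ : WithZero (Multiplicative ℤ)} (hu : Valued.v u ≤ γ) (hw : Valued.v w ≤ γ) :
    Valued.v (u + w) ≤ γ := (Valuation.map_add _ _ _).trans (max_le hu hw)

private lemma Cc_near {F : Type} [Field F] [CharZero F] [Valued F (WithZero (Multiplicative ℤ))]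
    [CompleteSpace F] {A B x₀ y₀ g X : F} (hA : Valued.v A ≤ 1) (hg1 : 1 ≤ Valued.v g)
    (hgx : Valued.v x₀ ≤ Valued.v g) (hB : Valued.v B ≤ 1) (hy : y₀ ≠ 0)
    (e : y₀ ^ 2 = x₀ ^ 3 + A * x₀ + B)
    (hX : Valued.v (X - x₀) < Valued.v (4 * y₀ ^ 2 / g ^ 2)) :
    (∃ y : F, y ≠ 0 ∧ y ^ 2 = X ^ 3 + A * X + B) ∧
      ∀ j, Valued.v ((X - x₀) / 4 * ((![x₀ ^ 2 + A, x₀, 1] : Fin 3 → F) j / y₀ ^ 2)) ≤
        exp (-1 : ℤ) := by
  have h4 : (4 : F) ≠ 0 := by norm_num
  have v4 : Valued.v (4 : F) ≤ 1 := by exact_mod_cast Cc_nat (F := F) 4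
  have hg0 : g ≠ 0 := by
    rintro rfl
    rw [map_zero] at hg1
    exact absurd hg1 (not_le.2 zero_lt_one)
  have hg2 : 1 ≤ Valued.v g ^ 2 := one_le_pow₀ hg1
  have hgg : Valued.v g ≤ Valued.v g ^ 2 := le_self_pow₀ hg1 (by norm_num)
  have hg3 : Valued.v g ^ 2 ≤ Valued.v g ^ 3 := pow_le_pow_right₀ hg1 (by norm_num)
  have hx2 : Valued.v (x₀ ^ 2) ≤ Valued.v g ^ 2 := by
    rw [map_pow]
    exact pow_le_pow_left₀ zero_le hgx 2
  have hvg : 0 < Valued.v g ^ 2 := lt_of_lt_of_le zero_lt_one hg2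
  have hvy : Valued.v (y₀ ^ 2) ≠ 0 := (Valuation.ne_zero_iff _).2 (pow_ne_zero _ hy)
  have hv4 : Valued.v (4 : F) ≠ 0 := (Valuation.ne_zero_iff _).2 h4
  have hX' : Valued.v (X - x₀) * Valued.v g ^ 2 < Valued.v (4 : F) * Valued.v (y₀ ^ 2) := by
    rw [map_div₀, map_mul, map_pow _ g 2, lt_div_iff₀ hvg] at hX
    exact hX
  have hy3 : Valued.v (y₀ ^ 2) ≤ Valued.v g ^ 3 := by
    rw [e]
    refine Cc_add (Cc_add ?_ ?_) ?_
    · rw [map_pow]
      exact pow_le_pow_left₀ zero_le hgx 3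
    · rw [map_mul]
      calc Valued.v A * Valued.v x₀ ≤ 1 * Valued.v g := mul_le_mul' hA hgx
        _ = Valued.v g := one_mul _
        _ ≤ _ := hgg.trans hg3
    · exact hB.trans (hg2.trans hg3)
  have hXg : Valued.v (X - x₀) ≤ Valued.v g := by
    have h5 : Valued.v (X - x₀) * Valued.v g ^ 2 ≤ Valued.v g * Valued.v g ^ 2 := by
      calc Valued.v (X - x₀) * Valued.v g ^ 2 ≤ Valued.v (4 : F) * Valued.v (y₀ ^ 2) := hX'.le
        _ ≤ 1 * Valued.v g ^ 3 := mul_le_mul' v4 hy3
        _ = Valued.v g * Valued.v g ^ 2 := by rw [one_mul, pow_succ, mul_comm]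
    exact le_of_mul_le_mul_right h5 hvg
  have hXg' : Valued.v X ≤ Valued.v g := by
    have h6 : X = (X - x₀) + x₀ := by ring
    rw [h6]
    exact Cc_add hXg hgx
  have hq : Valued.v (X ^ 2 + X * x₀ + x₀ ^ 2 + A) ≤ Valued.v g ^ 2 := by
    refine Cc_add (Cc_add (Cc_add ?_ ?_) hx2) (hA.trans hg2)
    · rw [map_pow]
      exact pow_le_pow_left₀ zero_le hXg' 2
    · rw [map_mul, pow_two]
      exact mul_le_mul' hXg' hgx
  refine ⟨?_, ?_⟩
  · have h5 : Valued.v ((X ^ 3 + A * X + B - y₀ ^ 2) / y₀ ^ 2) < Valued.v (4 : F) := by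
      rw [map_div₀, div_lt_iff₀ (zero_lt_iff.2 hvy)]
      refine lt_of_le_of_lt ?_ hX'
      have h7 : X ^ 3 + A * X + B - y₀ ^ 2 = (X - x₀) * (X ^ 2 + X * x₀ + x₀ ^ 2 + A) := by
        rw [e]
        ring
      rw [h7, map_mul]
      exact mul_le_mul' le_rfl hq
    obtain ⟨t, ht⟩ := Pool.Agent.H10.isSquare_one_add (two_ne_zero : (2 : F) ≠ 0) h5
    have ht0 : t ≠ 0 := by
      rintro rfl
      rw [mul_zero] at ht
      have h8 : (X ^ 3 + A * X + B - y₀ ^ 2) / y₀ ^ 2 = -1 := by linear_combination ht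
      rw [h8, Valuation.map_neg, map_one] at h5
      exact absurd (lt_of_lt_of_le h5 v4) (lt_irrefl _)
    refine ⟨y₀ * t, mul_ne_zero hy ht0, ?_⟩
    have h9 : (y₀ * t) ^ 2 = y₀ ^ 2 * (t * t) := by ring
    rw [h9, ← ht]
    field_simp
    ring
  · intro j
    refine Pool.Agent.H10.lt_one_le_exp ?_
    have h10 : Valued.v ((![x₀ ^ 2 + A, x₀, 1] : Fin 3 → F) j) ≤ Valued.v g ^ 2 := by
      fin_cases j
      · exact Cc_add hx2 (hA.trans hg2)
      · exact hgx.trans hgg
      · change Valued.v (1 : F) ≤ _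
        rw [map_one]
        exact hg2
    rw [map_mul, map_div₀, map_div₀, div_mul_div_comm,
      div_lt_one₀ (zero_lt_iff.2 (mul_ne_zero hv4 hvy))]
    exact lt_of_le_of_lt (mul_le_mul' le_rfl h10) hX'

private lemma Cc_core {F k : Type} [Field F] [CharZero F] [Valued F (WithZero (Multiplicative ℤ))]
    [CompleteSpace F] {A B : F} (hA : Valued.v A ≤ 1) (hB : Valued.v B ≤ 1)
    (hD : 4 * A ^ 3 + 27 * B ^ 2 ≠ 0) (hinf : Infinite (Pc A B)) (i : k → F)
    (hi : ∀ (x : F) {c : F}, c ≠ 0 → ∃ y : k, Valued.v (i y - x) < Valued.v c)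
    (hs : ∀ l : Fin 3 → F, (∀ j, Valued.v (l j) ≤ exp (-1 : ℤ)) →
      ∃ s : Fin 3 → F, m3 A B s s = fun j => (![1, 0, 0] : Fin 3 → _) j + 4 * l j)
    (P : Pc A B) :
    ∃ (x : k) (y : F)
      (h : (⟨0, 0, 0, A, B⟩ : WeierstrassCurve F).toAffine.Nonsingular (i x) y), y ≠ 0 ∧
      ∃ Q : Pc A B, Q + Q = P - Affine.Point.some _ y h := by
  have h4 : (4 : F) ≠ 0 := by norm_num
  have h2 : (2 : F) ≠ 0 := by norm_num
  obtain ⟨R, hR⟩ := H73P2.Lb_avoid hD hinf {-(P + P)} (Set.finite_singleton _)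
  have hR1 : 4 • R ≠ -(P + P) := hR _ (Set.mem_singleton _)
  have hP0 : (P + (R + R)) + (P + (R + R)) ≠ 0 := by
    intro h0
    apply hR1
    rw [eq_neg_iff_add_eq_zero, ← h0]
    abel
  obtain ⟨P₀, hP₀⟩ : ∃ P₀, P₀ = P + (R + R) := ⟨_, rfl⟩
  rw [← hP₀] at hP0
  rcases P₀ with _ | ⟨x₀, y₀, h₀⟩
  · exact absurd (by rfl) hP0
  have hy₀ := H73P2.Lb_y_ne h₀ hP0
  have e := H73P2.Lb_eqn h₀
  obtain ⟨g, hg1, hgx⟩ : ∃ g : F, 1 ≤ Valued.v g ∧ Valued.v x₀ ≤ Valued.v g := by
    rcases le_total (Valued.v x₀) 1 with h | h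
    · exact ⟨1, by rw [map_one], by rw [map_one]; exact h⟩
    · exact ⟨x₀, h, le_rfl⟩
  have hg0 : g ≠ 0 := by
    rintro rfl
    rw [map_zero] at hg1
    exact absurd hg1 (not_le.2 zero_lt_one)
  obtain ⟨x, hx⟩ := hi x₀ (c := 4 * y₀ ^ 2 / g ^ 2)
    (div_ne_zero (mul_ne_zero h4 (pow_ne_zero _ hy₀)) (pow_ne_zero _ hg0))
  obtain ⟨⟨y, hy, hyx⟩, hl⟩ := Cc_near hA hg1 hgx hB hy₀ e hx
  obtain ⟨s, hss⟩ := hs _ hl
  refine ⟨x, y, H73P2.Lb_ns h2 hy hyx, hy, ?_⟩
  obtain ⟨Q, hQ⟩ := diff_D2 hD hinf h₀ (H73P2.Lb_ns h2 hy hyx) hy₀ hy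
    (z := m3 A B ![x₀, -1, 0] s) (by rw [Cc_m3, hss, Cc_alg hy₀ h4 e])
  refine ⟨Q - R, ?_⟩
  rw [hP₀] at hQ
  have h11 : (Q - R) + (Q - R) = (Q + Q) - (R + R) := by abel
  rw [h11, hQ]
  abel

theorem rep_k {k : Type} [Field k] [NumberField k] (v : HeightOneSpectrum (𝓞 k)) {a b : k}
    (ha : v.valuation k a ≤ 1) (hb : v.valuation k b ≤ 1) (hD : 4 * a ^ 3 + 27 * b ^ 2 ≠ 0)
    (P : Pt v a b) :
    ∃ (x : k) (y : v.adicCompletion k)
      (h : (⟨0, 0, 0, algebraMap k (v.adicCompletion k) a, algebraMap k (v.adicCompletion k) b⟩ :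
        WeierstrassCurve (v.adicCompletion k)).toAffine.Nonsingular
          (algebraMap k (v.adicCompletion k) x) y), y ≠ 0 ∧
      ∃ Q : Pt v a b, Q + Q = P - Affine.Point.some _ y h := by
  have _ : CharZero (v.adicCompletion k) :=
    charZero_of_injective_algebraMap (algebraMap k (v.adicCompletion k)).injective
  have hva : ∀ c : k, v.valuation k c ≤ 1 →
      Valued.v (algebraMap k (v.adicCompletion k) c) ≤ 1 := by
    intro c hc
    have h5 := v.valuedAdicCompletion_eq_valuation' (K := k) c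
    change Valued.v (algebraMap k (v.adicCompletion k) c) = _ at h5
    rw [h5]
    exact hc
  have hD' : 4 * algebraMap k (v.adicCompletion k) a ^ 3 +
      27 * algebraMap k (v.adicCompletion k) b ^ 2 ≠ 0 := by
    intro h0
    apply hD
    apply (algebraMap k (v.adicCompletion k)).injective
    rw [map_zero, ← h0]
    simp only [map_add, map_mul, map_pow, map_ofNat]
  exact Cc_core (hva a ha) (hva b hb) hD' (H24PD.inf_fin v _ _) (algebraMap k (v.adicCompletion k))
    (fun x c hc => by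
      obtain ⟨y, hy⟩ := (HeightOneSpectrum.denseRange_algebraMap (K := k) v).mem_nhds
        (Te_nhd x hc)
      exact ⟨y, hy⟩)
    (fun l hl => sqrt_alg v (hva a ha) (hva b hb) hl) P

end H30ZO

end S_H30_ZO_Cc

section S_H30_ZO_Cd

set_option autoImplicit false
set_option linter.unusedSectionVars false
open scoped Classical

open WithZero WeierstrassCurve NumberField IsDedekindDomain H38RT
open H38T1 (SC sc scu rep eo la si Pri OddP tp unif)
open H76PP

namespace H30ZO

variable {k L : Type} [Field k] [NumberField k] [Field L] [NumberField L] [Algebra k L]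

private def Cd_d {F : Type*} [CommRing F] (a b x : F) : Fin 3 → F :=
  ![(x ^ 3 + a * x + b) * x, -(x ^ 3 + a * x + b), 0]

private lemma Cd_nf {F : Type*} [CommRing F] (a b x : F) :
    Te_nf a b (Cd_d a b x) = (x ^ 3 + a * x + b) ^ 2 * (x ^ 3 + a * x + b) ^ 2 := by
  simp only [Te_nf, Cd_d, Matrix.cons_val_zero, Matrix.cons_val_one, Matrix.cons_val_two,
    Matrix.head_cons, Matrix.tail_cons]
  ring

private lemma Cd_map {F F' : Type*} [CommRing F] [CommRing F'] (i : F →+* F') (a b x : F) :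
    (fun j => i (Cd_d a b x j)) = Cd_d (i a) (i b) (i x) := by
  funext j
  fin_cases j <;> simp [Cd_d]

private lemma Cd_sq {F : Type*} [CommRing F] (a b x y : F) (h : y ^ 2 = x ^ 3 + a * x + b) :
    m3 a b (Cd_d a b x) ![x, -1, 0] = m3 a b ![y * x, -y, 0] ![y * x, -y, 0] := by
  unfold Cd_d
  rw [← h]
  funext j
  fin_cases j <;> simp [m3] <;> ring

private lemma Cd_prod {F : Type*} [Field F] (a b x x' y y' : F) (h : y ^ 2 = x ^ 3 + a * x + b)
    (h' : y' ^ 2 = x' ^ 3 + a * x' + b) (hy : y ≠ 0) (hy' : y' ≠ 0) (z : Fin 3 → F)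
    (hz : m3 a b z z = m3 a b (Cd_d a b x) (Cd_d a b x')) :
    m3 a b (fun j => (y * y')⁻¹ * z j) (fun j => (y * y')⁻¹ * z j) =
      m3 a b ![x, -1, 0] ![x', -1, 0] := by
  have h1 : m3 a b (fun j => (y * y')⁻¹ * z j) (fun j => (y * y')⁻¹ * z j) =
      fun j => ((y * y')⁻¹) ^ 2 * m3 a b z z j := by
    funext j
    fin_cases j <;> simp [m3] <;> ring
  have h2 : m3 a b (Cd_d a b x) (Cd_d a b x') =
      fun j => (y * y') ^ 2 * m3 a b ![x, -1, 0] ![x', -1, 0] j := by
    unfold Cd_d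
    rw [← h, ← h']
    funext j
    fin_cases j <;> simp [m3] <;> ring
  rw [h1, hz, h2]
  funext j
  dsimp only
  have hyy : y * y' ≠ 0 := mul_ne_zero hy hy'
  rw [← mul_assoc, ← mul_pow, inv_mul_cancel₀ hyy, one_pow, one_mul]

private lemma Cd_two (c : SC L) : c + c = 0 := by
  obtain ⟨x, hx, rfl⟩ := H38T1.sc_surj c
  rw [← H38T1.sc_mul hx hx]
  exact (H38T1.sc_eq_zero (mul_ne_zero hx hx)).2 ⟨x, rfl⟩

theorem idx_W {a b : k} {θ : L} (h : Cub k L a b θ) (v : HeightOneSpectrum (𝓞 k))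
    (ha : v.valuation k a ≤ 1) (hb : v.valuation k b ≤ 1) (hD : 4 * a ^ 3 + 27 * b ^ 2 ≠ 0)
    {W : AddSubgroup (SC L)}
    (hW : ∀ c, c ∈ W ↔ c ∈ HH k L ∧ Wc (algebraMap k (v.adicCompletion k)) a b θ c)
    (hfin : (Sqv k L v ⊓ HH k L).relIndex W ≠ 0) :
    (D2 v a b).index ≠ 0 ∧ (D2 v a b).index ≤ (Sqv k L v ⊓ HH k L).relIndex W := by
  have _ : CharZero (v.adicCompletion k) :=
    charZero_of_injective_algebraMap (algebraMap k (v.adicCompletion k)).injective
  have _ : FiniteDimensional k L := Module.Finite.of_restrictScalars_finite ℚ k L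
  set i : k →+* v.adicCompletion k := algebraMap k (v.adicCompletion k) with hi
  have hi0 : ∀ x : k, i x = 0 → x = 0 := fun x hx => (map_eq_zero i).1 hx
  have hD' : 4 * (i a) ^ 3 + 27 * (i b) ^ 2 ≠ 0 := by
    intro e
    apply hD
    apply hi0
    simpa only [map_add, map_mul, map_pow, map_ofNat] using e
  choose X Y hns hY Qf hQ using (rep_k v ha hb hD)
  have heq : ∀ P, Y P ^ 2 = (i (X P)) ^ 3 + i a * i (X P) + i b := by
    intro P
    exact (H73P2.Lb_eqn (hns P))
  have hf : ∀ P, X P ^ 3 + a * X P + b ≠ 0 := by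
    intro P e
    have h1 := heq P
    have h2 : (i (X P)) ^ 3 + i a * i (X P) + i b = i (X P ^ 3 + a * X P + b) := by
      simp only [map_add, map_mul, map_pow]
    rw [h2, e, map_zero] at h1
    exact hY P (pow_eq_zero_iff (two_ne_zero) |>.1 h1)
  have hne : ∀ P, ev θ (Cd_d a b (X P)) ≠ 0 := by
    intro P
    refine (Algebra.norm_ne_zero_iff (R := k) (S := L)).1 ?_
    rw [Te_norm h, Cd_nf]
    exact mul_ne_zero (pow_ne_zero _ (hf P)) (pow_ne_zero _ (hf P))
  have hmem : ∀ P, sc (ev θ (Cd_d a b (X P))) ∈ W := by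
    intro P
    rw [hW]
    refine ⟨(mem_HH (hne P)).2 ⟨(X P ^ 3 + a * X P + b) ^ 2, ?_⟩, Cd_d a b (X P), hne P, rfl,
      i (X P), Y P, ![Y P * i (X P), -(Y P), 0], hY P, heq P, ?_⟩
    · rw [Te_norm h, Cd_nf]
    · rw [Cd_map]
      exact Cd_sq _ _ _ _ (heq P)
  have key : ∀ P P' : Pt v a b, -sc (ev θ (Cd_d a b (X P))) + sc (ev θ (Cd_d a b (X P'))) ∈
      Sqv k L v → -P + P' ∈ D2 v a b := by
    intro P P' hs
    have h1 : -sc (ev θ (Cd_d a b (X P))) = sc (ev θ (Cd_d a b (X P))) :=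
      neg_eq_of_add_eq_zero_left (Cd_two _)
    rw [h1, ← H38T1.sc_mul (hne P) (hne P'), Te_ev_mul h] at hs
    have hne2 : ev θ (m3 a b (Cd_d a b (X P)) (Cd_d a b (X P'))) ≠ 0 := by
      rw [← Te_ev_mul h]
      exact mul_ne_zero (hne P) (hne P')
    obtain ⟨z, hz⟩ := sq_alg h v ha hb hne2 hs
    have hz2 : m3 (i a) (i b) z z = m3 (i a) (i b) (Cd_d (i a) (i b) (i (X P)))
        (Cd_d (i a) (i b) (i (X P'))) := by
      rw [hz, ← Cd_map, ← Cd_map]
      funext j
      exact (Te_m3_map i a b _ _ j).symm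
    have hz3 := Cd_prod (i a) (i b) (i (X P)) (i (X P')) (Y P) (Y P') (heq P) (heq P') (hY P)
      (hY P') z hz2
    obtain ⟨Q, hQQ⟩ := diff_D2 hD' (H24PD.inf_fin v (i a) (i b)) (hns P) (hns P') (hY P) (hY P')
      hz3
    have e1 := hQ P
    have e2 := hQ P'
    refine ⟨Qf P' - Q - Qf P, ?_⟩
    show (2 : ℤ) • (Qf P' - Q - Qf P) = -P + P'
    have e3 : P = Qf P + Qf P + Affine.Point.some _ (Y P) (hns P) := by
      rw [e1]
      abel
    have e4 : P' = Qf P' + Qf P' + Affine.Point.some _ (Y P') (hns P') := by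
      rw [e2]
      abel
    have e5 : (Affine.Point.some _ (Y P) (hns P) : Pt v a b) =
        Q + Q + Affine.Point.some _ (Y P') (hns P') := by
      rw [hQQ]
      abel
    have e6 : -P + P' = -(Qf P + Qf P + Affine.Point.some _ (Y P) (hns P)) +
        (Qf P' + Qf P' + Affine.Point.some _ (Y P') (hns P')) := by
      rw [← e3, ← e4]
    rw [e6, e5, two_zsmul]
    abel
  -- the injection
  let φ : (Pt v a b ⧸ D2 v a b) → (W ⧸ (Sqv k L v ⊓ HH k L).addSubgroupOf W) :=
    fun q => QuotientAddGroup.mk ⟨sc (ev θ (Cd_d a b (X q.out))), hmem q.out⟩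
  have hφ : Function.Injective φ := by
    intro q q' hqq
    have h1 := (QuotientAddGroup.eq).1 hqq
    rw [AddSubgroup.mem_addSubgroupOf] at h1
    have h2 := key q.out q'.out h1.1
    have h3 : (QuotientAddGroup.mk q.out : Pt v a b ⧸ D2 v a b) = QuotientAddGroup.mk q'.out :=
      (QuotientAddGroup.eq).2 h2
    rwa [QuotientAddGroup.out_eq', QuotientAddGroup.out_eq'] at h3
  have hfin' : Finite (W ⧸ (Sqv k L v ⊓ HH k L).addSubgroupOf W) :=
    Nat.finite_of_card_ne_zero hfin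
  have hfin2 : Finite (Pt v a b ⧸ D2 v a b) := Finite.of_injective φ hφ
  refine ⟨?_, Nat.card_le_card_of_injective φ hφ⟩
  exact Nat.card_pos.ne'

end H30ZO

end S_H30_ZO_Cd

section S_H30_ZO_Ce

set_option autoImplicit false
set_option linter.unusedSectionVars false
open scoped Classical

open WithZero NumberField IsDedekindDomain H38RT
open H38T1 (SC sc scu rep eo la si Pri OddP tp unif)
open H76PP

namespace H30ZO

section CeAux

open Filter Topology

private lemma ce_lim {F : Type*} [Field F] [Valued F (WithZero (Multiplicative ℤ))]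
    [CompleteSpace F] (π : F) (hπ : Valued.v π = exp (-1 : ℤ)) (t : ℕ → F)
    (ht : ∀ n m, n ≤ m → Valued.v (t m - t n) ≤ exp (-(n : ℤ))) :
    ∃ r : F, Tendsto t atTop (𝓝 r) ∧ ∀ n, Valued.v (t n - r) ≤ exp (-(n : ℤ)) := by
  have hcau : CauchySeq t := by
    rw [CauchySeq, Valued.cauchy_iff]
    refine ⟨inferInstance, fun γ => ?_⟩
    obtain ⟨N, hN⟩ := exists_exp_neg_natCast_lt
      (x := MonoidWithZeroHom.ValueGroup₀.embedding γ.1) (by simp)
    refine ⟨t '' Set.Ici N, Filter.image_mem_map (Filter.Ici_mem_atTop N), ?_⟩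
    rintro _ ⟨m, hm, rfl⟩ _ ⟨n, hn, rfl⟩
    rw [Valuation.restrict_lt_iff_lt_embedding]
    refine lt_of_le_of_lt ?_ hN
    have e : t n - t m = (t n - t N) - (t m - t N) := by ring
    rw [e]
    exact (Valuation.map_sub _ _ _).trans (max_le (ht N n hn) (ht N m hm))
  obtain ⟨r, hr⟩ := cauchySeq_tendsto_of_complete hcau
  refine ⟨r, hr, fun n => ?_⟩
  have hπ0 : π ≠ 0 := by
    rintro rfl
    rw [map_zero] at hπ
    exact exp_ne_zero hπ.symm
  have hc : Valued.v (π ^ n) = exp (-(n : ℤ)) := by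
    rw [map_pow, hπ, ← exp_nsmul]
    congr 1
    simp
  have h6 : Tendsto (fun m => (t m - r) / π ^ n) atTop (𝓝 0) := by
    have := (hr.sub_const r).div_const (π ^ n)
    rwa [sub_self, zero_div] at this
  have h7 := h6.eventually (show {x : F | Valued.v x < 1} ∈ 𝓝 (0 : F) by
    rw [Valued.mem_nhds_zero]
    exact ⟨1, fun x hx => by simpa using hx⟩)
  obtain ⟨m, hm1, hm2⟩ := (h7.and (eventually_ge_atTop n)).exists
  have hm3 : Valued.v (t m - r) ≤ exp (-(n : ℤ)) := by
    have e : t m - r = (t m - r) / π ^ n * π ^ n := by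
      rw [div_mul_cancel₀ _ (pow_ne_zero n hπ0)]
    rw [e, map_mul, hc]
    have h8 : Valued.v ((t m - r) / π ^ n) ≤ 1 := le_of_lt hm1
    exact mul_le_of_le_one_left' h8
  have e : t n - r = (t m - r) - (t m - t n) := by ring
  rw [e]
  exact (Valuation.map_sub _ _ _).trans (max_le hm3 (ht n m hm2))

end CeAux

variable {k L : Type} [Field k] [NumberField k] [Field L] [NumberField L] [Algebra k L]

theorem root_w {a b : k} {θ : L} (h : Cub k L a b θ) (v : HeightOneSpectrum (𝓞 k))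
    (ha : v.valuation k a ≤ 1) (hb : v.valuation k b ≤ 1) (w : HeightOneSpectrum (𝓞 L))
    (he : ∀ x : k, w.valuation L (algebraMap k L x) = v.valuation k x) (hf : Nv w = Nv v) :
    ∃ r : v.adicCompletion k, r ^ 3 + algebraMap k (v.adicCompletion k) a * r +
        algebraMap k (v.adicCompletion k) b = 0 ∧
      ∀ t : k, w.valuation L (algebraMap k L t - θ) =
        Valued.v (algebraMap k (v.adicCompletion k) t - r) := by
  -- `θ` is integral at `w`
  have hwa : w.valuation L (algebraMap k L a) ≤ 1 := by rw [he]; exact ha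
  have hwb : w.valuation L (algebraMap k L b) ≤ 1 := by rw [he]; exact hb
  have hwt : w.valuation L θ ≤ 1 := by
    by_contra hcon
    rw [not_le] at hcon
    have h0 : 0 < w.valuation L θ := lt_trans zero_lt_one hcon
    have e1 : θ ^ 3 = -(algebraMap k L a * θ + algebraMap k L b) := by linear_combination h.root
    have e2 : w.valuation L θ ^ 3 ≤ w.valuation L θ := by
      rw [← map_pow, e1, Valuation.map_neg]
      refine (w.valuation L).map_add_le ?_ (hwb.trans hcon.le)
      rw [map_mul]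
      exact mul_le_of_le_one_left' hwa
    have e3 : w.valuation L θ < w.valuation L θ ^ 3 := by
      calc w.valuation L θ = w.valuation L θ ^ 1 := (pow_one _).symm
        _ < w.valuation L θ ^ 3 := pow_lt_pow_right₀ hcon (by norm_num)
    exact absurd e2 (not_le.2 e3)
  -- the residue fields are equal
  have hmem : ∀ x : 𝓞 k, x ∈ v.asIdeal ↔ algebraMap (𝓞 k) (𝓞 L) x ∈ w.asIdeal := by
    intro x
    rw [← v.valuation_lt_one_iff_mem (K := k), ← w.valuation_lt_one_iff_mem (K := L)]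
    change v.valuation k (x : k) < 1 ↔ w.valuation L (algebraMap k L (x : k)) < 1
    rw [he]
  have hres : ∀ y : 𝓞 L, ∃ x : 𝓞 k, algebraMap (𝓞 k) (𝓞 L) x - y ∈ w.asIdeal := by
    have hle : v.asIdeal ≤ Ideal.comap (algebraMap (𝓞 k) (𝓞 L)) w.asIdeal := fun x hx =>
      (hmem x).1 hx
    have hge : Ideal.comap (algebraMap (𝓞 k) (𝓞 L)) w.asIdeal ≤ v.asIdeal := fun x hx =>
      (hmem x).2 hx
    have hinj : Function.Injective (Ideal.quotientMap w.asIdeal (algebraMap (𝓞 k) (𝓞 L)) hle) :=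
      Ideal.quotientMap_injective' hge
    have hfin : Finite (𝓞 L ⧸ w.asIdeal) := Ideal.finiteQuotientOfFreeOfNeBot w.asIdeal w.ne_bot
    have hcard : Nat.card (𝓞 L ⧸ w.asIdeal) ≤ Nat.card (𝓞 k ⧸ v.asIdeal) := by
      have h1 : Ideal.absNorm w.asIdeal = Ideal.absNorm v.asIdeal := hf
      rw [Ideal.absNorm_apply, Ideal.absNorm_apply, Submodule.cardQuot_apply,
        Submodule.cardQuot_apply] at h1
      exact h1.le
    have hbij := hinj.bijective_of_nat_card_le hcard
    intro y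
    obtain ⟨q, hq⟩ := hbij.2 (Ideal.Quotient.mk w.asIdeal y)
    obtain ⟨x, rfl⟩ := Ideal.Quotient.mk_surjective q
    refine ⟨x, ?_⟩
    rw [Ideal.quotientMap_mk] at hq
    exact Ideal.Quotient.eq.1 hq
  have happ : ∀ z : L, w.valuation L z ≤ 1 → ∃ x : 𝓞 k,
      w.valuation L (algebraMap k L (x : k) - z) ≤ exp (-1 : ℤ) := by
    intro z hz
    obtain ⟨y, hy⟩ := w.exists_valuation_sub_lt_of_integer hz 1
    obtain ⟨x, hx⟩ := hres y
    refine ⟨x, ?_⟩
    have h1 := (w.valuation_lt_one_iff_mem (K := L) _).2 hx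
    have e : algebraMap k L (x : k) - z =
        algebraMap (𝓞 L) L (algebraMap (𝓞 k) (𝓞 L) x - y) + (algebraMap (𝓞 L) L y - z) := by
      rw [map_sub]
      have e2 : algebraMap (𝓞 L) L (algebraMap (𝓞 k) (𝓞 L) x) = algebraMap k L (x : k) := rfl
      rw [e2]
      ring
    have h2 : w.valuation L (algebraMap k L (x : k) - z) < 1 := by
      rw [e]
      refine (Valuation.map_add _ _ _).trans_lt (max_lt h1 ?_)
      simpa using hy
    by_cases h0 : w.valuation L (algebraMap k L (x : k) - z) = 0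
    · rw [h0]; exact zero_le
    · rw [← exp_log h0, exp_le_exp]
      have h3 := (log_lt_log h0 one_ne_zero).2 h2
      rw [log_one] at h3
      omega
  obtain ⟨π, hπ⟩ := v.valuation_exists_uniformizer k
  have hπ0 : π ≠ 0 := by
    rintro rfl
    rw [map_zero] at hπ
    exact exp_ne_zero hπ.symm
  have hpn : ∀ n : ℕ, w.valuation L (algebraMap k L (π ^ n)) = exp (-(n : ℤ)) := by
    intro n
    rw [he, map_pow, hπ, ← exp_nsmul]
    congr 1
    simp
  have hpn' : ∀ n : ℕ, v.valuation k (π ^ n) = exp (-(n : ℤ)) := by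
    intro n
    rw [← he, hpn]
  -- the approximations
  have hex : ∀ n : ℕ, ∃ t : k, v.valuation k t ≤ 1 ∧
      w.valuation L (algebraMap k L t - θ) ≤ exp (-(n : ℤ)) := by
    intro n
    induction n with
    | zero =>
      refine ⟨0, by rw [map_zero]; exact zero_le, ?_⟩
      rw [map_zero, zero_sub, Valuation.map_neg]
      simpa using hwt
    | succ n ih =>
      obtain ⟨t, h1, h2⟩ := ih
      have hp0 : algebraMap k L (π ^ n) ≠ 0 := (map_ne_zero _).2 (pow_ne_zero n hπ0)
      have h3 : w.valuation L ((algebraMap k L t - θ) / algebraMap k L (π ^ n)) ≤ 1 := by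
        rw [map_div₀, hpn]
        exact div_le_one_of_le₀ h2 zero_le
      obtain ⟨x, hx⟩ := happ _ h3
      refine ⟨t - π ^ n * x, ?_, ?_⟩
      · refine (Valuation.map_sub _ _ _).trans (max_le h1 ?_)
        rw [map_mul, hpn']
        refine mul_le_one' ?_ (v.valuation_le_one x)
        rw [← exp_zero, exp_le_exp]
        omega
      · have e : algebraMap k L (t - π ^ n * x) - θ = -(algebraMap k L (π ^ n) *
            (algebraMap k L (x : k) - (algebraMap k L t - θ) / algebraMap k L (π ^ n))) := by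
          rw [mul_sub, mul_div_cancel₀ _ hp0, map_sub, map_mul]
          ring
        rw [e, Valuation.map_neg, map_mul, hpn]
        calc exp (-(n : ℤ)) * _ ≤ exp (-(n : ℤ)) * exp (-1 : ℤ) := mul_le_mul_right hx _
          _ = exp (-((n + 1 : ℕ) : ℤ)) := by
            rw [← exp_add]
            congr 1
            push_cast
            ring
  choose t ht1 ht2 using hex
  have hcoe : ∀ x : k, Valued.v (algebraMap k (v.adicCompletion k) x) = v.valuation k x :=
    fun x => v.valuedAdicCompletion_eq_valuation' x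
  obtain ⟨r, hr, hr2⟩ := ce_lim (algebraMap k (v.adicCompletion k) π) (by rw [hcoe, hπ])
    (fun n => algebraMap k (v.adicCompletion k) (t n)) (by
      intro n m hnm
      rw [← map_sub, hcoe, ← he, map_sub]
      have e : algebraMap k L (t m) - algebraMap k L (t n) =
        (algebraMap k L (t m) - θ) - (algebraMap k L (t n) - θ) := by ring
      rw [e]
      refine (Valuation.map_sub _ _ _).trans (max_le ((ht2 m).trans ?_) (ht2 n))
      rw [exp_le_exp]
      omega)
  have hr1 : Valued.v r ≤ 1 := by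
    have e : r = algebraMap k (v.adicCompletion k) (t 0) -
      (algebraMap k (v.adicCompletion k) (t 0) - r) := by ring
    rw [e]
    refine (Valuation.map_sub _ _ _).trans (max_le ?_ ?_)
    · rw [hcoe]; exact ht1 0
    · simpa using hr2 0
  refine ⟨r, ?_, ?_⟩
  · -- the valuation of `f r` is smaller than everything
    by_contra hcon
    have hv0 : Valued.v (r ^ 3 + algebraMap k (v.adicCompletion k) a * r +
        algebraMap k (v.adicCompletion k) b) ≠ 0 := (Valuation.ne_zero_iff _).2 hcon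
    obtain ⟨N, hN⟩ := exists_exp_neg_natCast_lt hv0
    -- `f(t_N)`
    have h1 : v.valuation k (t N ^ 3 + a * t N + b) ≤ exp (-(N : ℤ)) := by
      rw [← he]
      have e : algebraMap k L (t N ^ 3 + a * t N + b) = (algebraMap k L (t N) - θ) *
          (algebraMap k L (t N) ^ 2 + algebraMap k L (t N) * θ + θ ^ 2 + algebraMap k L a) := by
        simp only [map_add, map_mul, map_pow]
        linear_combination h.root
      have hwN : w.valuation L (algebraMap k L (t N)) ≤ 1 := by rw [he]; exact ht1 N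
      rw [e, map_mul]
      refine (mul_le_of_le_one_right' ?_).trans (ht2 N)
      refine (w.valuation L).map_add_le ((w.valuation L).map_add_le
        ((w.valuation L).map_add_le ?_ ?_) ?_) hwa
      · rw [map_pow]; exact pow_le_one₀ zero_le hwN
      · rw [map_mul]; exact mul_le_one' hwN hwt
      · rw [map_pow]; exact pow_le_one₀ zero_le hwt
    have e : r ^ 3 + algebraMap k (v.adicCompletion k) a * r +
        algebraMap k (v.adicCompletion k) b =
        algebraMap k (v.adicCompletion k) (t N ^ 3 + a * t N + b) -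
        (algebraMap k (v.adicCompletion k) (t N) - r) *
          (algebraMap k (v.adicCompletion k) (t N) ^ 2 +
            algebraMap k (v.adicCompletion k) (t N) * r + r ^ 2 +
            algebraMap k (v.adicCompletion k) a) := by
      simp only [map_add, map_mul, map_pow]
      ring
    have h2 : Valued.v (r ^ 3 + algebraMap k (v.adicCompletion k) a * r +
        algebraMap k (v.adicCompletion k) b) ≤ exp (-(N : ℤ)) := by
      rw [e]
      refine (Valuation.map_sub _ _ _).trans (max_le (by rw [hcoe]; exact h1) ?_)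
      rw [map_mul]
      refine (mul_le_of_le_one_right' ?_).trans (hr2 N)
      have hN1 : Valued.v (algebraMap k (v.adicCompletion k) (t N)) ≤ 1 := by
        rw [hcoe]; exact ht1 N
      have ha1 : Valued.v (algebraMap k (v.adicCompletion k) a) ≤ 1 := by
        rw [hcoe]; exact ha
      refine Valuation.map_add_le _ (Valuation.map_add_le _
        (Valuation.map_add_le _ ?_ ?_) ?_) ha1
      · rw [map_pow]; exact pow_le_one₀ zero_le hN1
      · rw [map_mul]; exact mul_le_one' hN1 hr1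
      · rw [map_pow]; exact pow_le_one₀ zero_le hr1
    exact absurd h2 (not_le.2 hN)
  · intro s
    have hs : algebraMap k L s - θ ≠ 0 := by
      intro h0
      have h1 := h.li s (-1) 0 (by
        rw [map_neg, map_one, map_zero]
        linear_combination h0)
      exact absurd h1.2.1 (by norm_num)
    have hws : w.valuation L (algebraMap k L s - θ) ≠ 0 := (Valuation.ne_zero_iff _).2 hs
    obtain ⟨N, hN⟩ := exists_exp_neg_natCast_lt hws
    have h1 : w.valuation L (algebraMap k L s - algebraMap k L (t N)) =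
        w.valuation L (algebraMap k L s - θ) := by
      refine Valuation.map_eq_of_sub_lt _ ?_
      have e : algebraMap k L s - algebraMap k L (t N) - (algebraMap k L s - θ) =
        -(algebraMap k L (t N) - θ) := by ring
      rw [e, Valuation.map_neg]
      exact (ht2 N).trans_lt hN
    have h2 : Valued.v (algebraMap k (v.adicCompletion k) s -
        algebraMap k (v.adicCompletion k) (t N)) = w.valuation L (algebraMap k L s - θ) := by
      rw [← map_sub, hcoe, ← he, map_sub, h1]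
    rw [← h2]
    symm
    refine Valuation.map_eq_of_sub_lt _ ?_
    have e : algebraMap k (v.adicCompletion k) s - r - (algebraMap k (v.adicCompletion k) s -
        algebraMap k (v.adicCompletion k) (t N)) = algebraMap k (v.adicCompletion k) (t N) - r := by
      ring
    rw [e, h2]
    exact (hr2 N).trans_lt hN

end H30ZO

end S_H30_ZO_Ce

section S_H30_ZO_Cf

set_option autoImplicit false
set_option linter.unusedSectionVars false
open scoped Classical

open WithZero NumberField IsDedekindDomain H38RT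
open H38T1 (SC sc scu rep eo la si Pri OddP tp unif)
open H76PP

namespace H30ZO

variable {k L : Type} [Field k] [NumberField k] [Field L] [NumberField L] [Algebra k L]

private lemma Cf_int {F : Type*} [Field F] (V : Valuation F (WithZero (Multiplicative ℤ)))
    {A B r : F} (hA : V A ≤ 1) (hB : V B ≤ 1) (hr : r ^ 3 + A * r + B = 0) : V r ≤ 1 := by
  by_contra hlt
  rw [not_le] at hlt
  have h1 : r ^ 3 = -(A * r + B) := by linear_combination hr
  have h2 : V r ^ 3 ≤ V r := by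
    rw [← map_pow, h1, Valuation.map_neg]
    refine Valuation.map_add_le _ ?_ (hB.trans hlt.le)
    rw [map_mul]
    exact mul_le_of_le_one_left' hA
  have hpos : 0 < V r := lt_trans zero_lt_one hlt
  have h3 : V r ^ 2 ≤ 1 := by
    have h4 : V r ^ 2 * V r ≤ 1 * V r := by
      rw [one_mul, ← pow_succ]
      exact h2
    exact le_of_mul_le_mul_right h4 hpos
  have h5 : V r ≤ V r ^ 2 := by
    rw [pow_two]
    exact le_mul_of_one_le_right' hlt.le
  exact absurd (h5.trans h3) (not_le.2 hlt)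

theorem root_ne {a b : k} {θ : L} (h : Cub k L a b θ) (v : HeightOneSpectrum (𝓞 k))
    (ha : v.valuation k a ≤ 1) (hb : v.valuation k b ≤ 1) (hD : 4 * a ^ 3 + 27 * b ^ 2 ≠ 0)
    {w w' : HeightOneSpectrum (𝓞 L)} (hw : dn k w = v) (hw' : dn k w' = v) (hne : w ≠ w')
    {r r' : v.adicCompletion k}
    (hr0 : r ^ 3 + algebraMap k (v.adicCompletion k) a * r +
      algebraMap k (v.adicCompletion k) b = 0)
    (hr : ∀ t : k, w.valuation L (algebraMap k L t - θ) =
      Valued.v (algebraMap k (v.adicCompletion k) t - r))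
    (hr' : ∀ t : k, w'.valuation L (algebraMap k L t - θ) =
      Valued.v (algebraMap k (v.adicCompletion k) t - r')) : r ≠ r' := by
  intro hrr
  subst hrr
  set i : k →+* v.adicCompletion k := algebraMap k (v.adicCompletion k) with hi
  have hiv : ∀ x : k, Valued.v (i x) = v.valuation k x := fun x =>
    HeightOneSpectrum.valuedAdicCompletion_eq_valuation' v x
  have hAv : Valued.v (i a) ≤ 1 := by rw [hiv]; exact ha
  have hBv : Valued.v (i b) ≤ 1 := by rw [hiv]; exact hb
  have hrv : Valued.v r ≤ 1 := Cf_int Valued.v hAv hBv hr0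
  have hn3 : Valued.v (3 : v.adicCompletion k) ≤ 1 := by
    have h1 := val_nat (v.valuation k) 3
    rw [← hiv, map_natCast] at h1
    exact_mod_cast h1
  have hn2 : Valued.v (2 : v.adicCompletion k) ≤ 1 := by
    have h1 := val_nat (v.valuation k) 2
    rw [← hiv, map_natCast] at h1
    exact_mod_cast h1
  -- the derivative
  set δ : v.adicCompletion k := 3 * r ^ 2 + i a with hδ
  have hδ0 : δ ≠ 0 := by
    intro h0
    have h1 : i (4 * a ^ 3 + 27 * b ^ 2) = 0 := by
      have e : i (4 * a ^ 3 + 27 * b ^ 2) = 4 * i a ^ 3 + 27 * i b ^ 2 := by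
        have e4 : i 4 = 4 := map_ofNat i 4
        have e27 : i 27 = 27 := map_ofNat i 27
        rw [map_add, map_mul, map_mul, map_pow, map_pow, e4, e27]
      rw [e]
      linear_combination (6 * i a * r ^ 2 - 9 * i b * r + 4 * i a ^ 2) * h0 -
        (18 * i a * r - 27 * i b) * hr0
    exact hD ((map_eq_zero i).1 h1)
  have hδ1 : Valued.v δ ≤ 1 := by
    refine Valuation.map_add_le _ ?_ hAv
    rw [map_mul, map_pow]
    exact mul_le_one' hn3 (pow_le_one' hrv 2)
  -- an element of the base field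
  obtain ⟨t, ht⟩ := (HeightOneSpectrum.denseRange_algebraMap (K := k) v).mem_nhds (Te_nhd r hδ0)
  change Valued.v (i t - r) < Valued.v δ at ht
  have hu : algebraMap k L t - θ ≠ 0 := by
    intro h0
    obtain ⟨_, e1, _⟩ := h.li t (-1) 0 (by
      rw [map_neg, map_one, map_zero]
      linear_combination h0)
    exact absurd e1 (by norm_num)
  have hn := h.norm_sub t
  have hft : t ^ 3 + a * t + b ≠ 0 := by
    rw [← hn]
    have _ : FiniteDimensional k L := Module.Finite.of_restrictScalars_finite ℚ k L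
    exact Algebra.norm_ne_zero_iff.2 hu
  have hfac : i (t ^ 3 + a * t + b) = (i t - r) * (δ + (i t - r) * (i t + 2 * r)) := by
    rw [map_add, map_add, map_mul, map_pow, hδ]
    linear_combination hr0
  have htr1 : Valued.v (i t - r) < 1 := ht.trans_le hδ1
  have htv : Valued.v (i t) ≤ 1 := by
    have e : i t = (i t - r) + r := by ring
    rw [e]
    exact Valuation.map_add_le _ htr1.le hrv
  have hsm : Valued.v ((i t - r) * (i t + 2 * r)) < Valued.v δ := by
    rw [map_mul]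
    refine lt_of_le_of_lt (mul_le_of_le_one_right' ?_) ht
    refine Valuation.map_add_le _ htv ?_
    rw [map_mul]
    exact mul_le_one' hn2 hrv
  have hval : v.valuation k (t ^ 3 + a * t + b) = Valued.v (i t - r) * Valued.v δ := by
    rw [← hiv, hfac, map_mul, Valuation.map_add_eq_of_lt_left _ hsm]
  have htr0 : Valued.v (i t - r) ≠ 0 := by
    intro h0
    rw [h0, zero_mul] at hval
    exact hft ((Valuation.zero_iff _).1 hval)
  have hδv0 : Valued.v δ ≠ 0 := (Valuation.ne_zero_iff _).2 hδ0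
  have hordf : ord (v.valuation k) (t ^ 3 + a * t + b) =
      -log (Valued.v (i t - r)) + -log (Valued.v δ) := by
    unfold ord
    rw [hval, log_mul htr0 hδv0]
    ring
  have hlt : log (Valued.v (i t - r)) < log (Valued.v δ) := (log_lt_log htr0 hδv0).2 ht
  have hsum := ord_norm (K := k) v hu
  rw [hn, hordf] at hsum
  have htk : v.valuation k t ≤ 1 := by rw [← hiv]; exact htv
  have hnn : ∀ u : {w : HeightOneSpectrum (𝓞 L) // dn k w = v},
      0 ≤ (u.1.asIdeal.inertiaDeg (𝓞 k) : ℤ) * ord (u.1.valuation L) (algebraMap k L t - θ) := by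
    rintro ⟨u, hu1⟩
    refine mul_nonneg (Int.natCast_nonneg _) ?_
    have h1 : u.valuation L (algebraMap k L t) ≤ 1 := val_le (K := k) (by rw [hu1]; exact htk)
    have h2 : u.valuation L θ ≤ 1 :=
      Cf_int _ (val_le (K := k) (by rw [hu1]; exact ha)) (val_le (K := k) (by rw [hu1]; exact hb))
        h.root
    have h3 : u.valuation L (algebraMap k L t - θ) ≤ 1 := Valuation.map_sub_le _ h1 h2
    unfold ord
    have h4 := (log_le_log ((Valuation.ne_zero_iff _).2 hu) one_ne_zero).2 h3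
    rw [log_one] at h4
    change 0 ≤ -log (u.valuation L (algebraMap k L t - θ))
    omega
  have hfin : Finite {w : HeightOneSpectrum (𝓞 L) // dn k w = v} :=
    (fin_above (K := k) (L := L) v).to_subtype
  have hfty : Fintype {w : HeightOneSpectrum (𝓞 L) // dn k w = v} := Fintype.ofFinite _
  rw [finsum_eq_sum_of_fintype] at hsum
  have hpair : ∑ u ∈ ({⟨w, hw⟩, ⟨w', hw'⟩} :
      Finset {w : HeightOneSpectrum (𝓞 L) // dn k w = v}),
      (u.1.asIdeal.inertiaDeg (𝓞 k) : ℤ) * ord (u.1.valuation L) (algebraMap k L t - θ) ≤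
      ∑ u : {w : HeightOneSpectrum (𝓞 L) // dn k w = v},
      (u.1.asIdeal.inertiaDeg (𝓞 k) : ℤ) * ord (u.1.valuation L) (algebraMap k L t - θ) :=
    Finset.sum_le_sum_of_subset_of_nonneg (Finset.subset_univ _) (fun u _ _ => hnn u)
  rw [Finset.sum_pair (fun h0 => hne (congrArg Subtype.val h0))] at hpair
  have hdeg : ∀ u : HeightOneSpectrum (𝓞 L), (1 : ℤ) ≤ (u.asIdeal.inertiaDeg (𝓞 k) : ℤ) := by
    intro u
    have _ : u.asIdeal.IsPrime := u.isPrime
    have h1 := Ideal.inertiaDeg_pos u.asIdeal (𝓞 k)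
    omega
  have hpos : 0 < -log (Valued.v (i t - r)) := by
    have h1 := (log_lt_log htr0 one_ne_zero).2 htr1
    rw [log_one] at h1
    omega
  have ho1 : ord (w.valuation L) (algebraMap k L t - θ) = -log (Valued.v (i t - r)) := by
    unfold ord
    rw [hr t]
  have ho2 : ord (w'.valuation L) (algebraMap k L t - θ) = -log (Valued.v (i t - r)) := by
    unfold ord
    rw [hr' t]
  change (w.asIdeal.inertiaDeg (𝓞 k) : ℤ) * ord (w.valuation L) (algebraMap k L t - θ) +
    (w'.asIdeal.inertiaDeg (𝓞 k) : ℤ) * ord (w'.valuation L) (algebraMap k L t - θ) ≤ _ at hpair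
  rw [ho1, ho2] at hpair
  have g1 : -log (Valued.v (i t - r)) ≤
      (w.asIdeal.inertiaDeg (𝓞 k) : ℤ) * -log (Valued.v (i t - r)) :=
    le_mul_of_one_le_left hpos.le (hdeg w)
  have g2 : -log (Valued.v (i t - r)) ≤
      (w'.asIdeal.inertiaDeg (𝓞 k) : ℤ) * -log (Valued.v (i t - r)) :=
    le_mul_of_one_le_left hpos.le (hdeg w')
  omega

end H30ZO

end S_H30_ZO_Cf

section S_H30_ZO_Cg

set_option autoImplicit false
set_option linter.unusedSectionVars false
open scoped Classical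

open WithZero NumberField IsDedekindDomain H38RT
open H38T1 (SC sc scu rep eo la si Pri OddP tp unif)
open H76PP

namespace H30ZO

variable {k L : Type} [Field k] [NumberField k] [Field L] [NumberField L] [Algebra k L]

private theorem Cg_Nv (w : HeightOneSpectrum (𝓞 L)) :
    Nv w = Nv (dn k w) ^ (w.asIdeal.inertiaDeg (𝓞 k)) := by
  have h1 : w.asIdeal.IsMaximal := w.isMaximal
  have h2 : (dn k w).asIdeal.IsMaximal := (dn k w).isMaximal
  have h3 : w.asIdeal.LiesOver (dn k w).asIdeal := ⟨rfl⟩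
  have h4 : Ideal.relNorm (𝓞 k) w.asIdeal = (dn k w).asIdeal ^ (w.asIdeal.inertiaDeg (𝓞 k)) :=
    Ideal.relNorm_eq_pow_of_isMaximal w.asIdeal (dn k w).asIdeal
  have h5 := Ideal.absNorm_relNorm (R := 𝓞 k) (S := 𝓞 L) w.asIdeal
  rw [h4, map_pow] at h5
  exact h5.symm

private theorem Cg_f (w : HeightOneSpectrum (𝓞 L)) : 1 ≤ w.asIdeal.inertiaDeg (𝓞 k) := by
  rw [Nat.one_le_iff_ne_zero]
  intro h
  have h1 := Cg_Nv (k := k) w
  rw [h, pow_zero, Nv, Ideal.absNorm_eq_one_iff] at h1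
  exact w.isPrime.ne_top h1

/-- a place of degree one -/
private def CgD (k : Type) {L : Type} [Field k] [NumberField k] [Field L] [NumberField L]
    [Algebra k L] (v : HeightOneSpectrum (𝓞 k)) (w : HeightOneSpectrum (𝓞 L)) : Prop :=
  dn k w = v ∧ (∀ x : k, w.valuation L (algebraMap k L x) = v.valuation k x) ∧ Nv w = Nv v

/-- many places of degree one -/
private theorem Cg_cnt {a b : k} {θ : L} (h : Cub k L a b θ) (v : HeightOneSpectrum (𝓞 k)) :
    nb k L v ≤ 3 ∧ ∃ W : Finset (HeightOneSpectrum (𝓞 L)), (∀ w ∈ W, CgD k v w) ∧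
      2 * nb k L v ≤ W.card + 3 := by
  obtain ⟨ϖ, hϖ⟩ := v.valuation_exists_uniformizer k
  have hϖ0 : ϖ ≠ 0 := by
    rintro rfl
    rw [map_zero] at hϖ
    exact absurd hϖ.symm exp_ne_zero
  have hord : ord (v.valuation k) ϖ = 1 := by
    rw [ord, hϖ, log_exp]
    rfl
  have hL0 : algebraMap k L ϖ ≠ 0 := fun h0 =>
    hϖ0 ((algebraMap k L).injective (by rw [h0, map_zero]))
  have hfr : Module.finrank k L = 3 := h.finrank
  have hn : Algebra.norm k (algebraMap k L ϖ) = ϖ ^ 3 := by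
    rw [Algebra.norm_algebraMap, hfr]
  have h1 := ord_norm (K := k) (L := L) v hL0
  have h0 : ∑ᶠ w : {w : HeightOneSpectrum (𝓞 L) // dn k w = v},
        (w.1.asIdeal.inertiaDeg (𝓞 k) : ℤ) * ord (w.1.valuation L) (algebraMap k L ϖ) =
      ∑ w ∈ (fin_above (L := L) v).toFinset,
        (w.asIdeal.inertiaDeg (𝓞 k) : ℤ) * ord (w.valuation L) (algebraMap k L ϖ) := by
    rw [← finsum_mem_eq_finite_toFinset_sum (fun w : HeightOneSpectrum (𝓞 L) =>
      (w.asIdeal.inertiaDeg (𝓞 k) : ℤ) * ord (w.valuation L) (algebraMap k L ϖ))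
      (fin_above (L := L) v)]
    exact finsum_set_coe_eq_finsum_mem {w : HeightOneSpectrum (𝓞 L) | dn k w = v}
      (f := fun w => (w.asIdeal.inertiaDeg (𝓞 k) : ℤ) * ord (w.valuation L) (algebraMap k L ϖ))
  have h3 : ord (v.valuation k) (ϖ ^ 3) = 3 := by
    have e1 : ϖ ^ 3 = ϖ * (ϖ * ϖ) := by ring
    rw [e1, ord_mul hϖ0 (mul_ne_zero hϖ0 hϖ0), ord_mul hϖ0 hϖ0, hord]
    norm_num
  rw [h0, hn, h3] at h1
  obtain ⟨S, hS⟩ : ∃ S, S = (fin_above (L := L) v).toFinset := ⟨_, rfl⟩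
  rw [← hS] at h1
  have hnb : nb k L v = S.card := by
    rw [nb, hS, Set.ncard_eq_toFinset_card _ (fin_above (L := L) v)]
  have hmem : ∀ w ∈ S, dn k w = v := by
    intro w hw
    rw [hS] at hw
    have hw' := (Set.Finite.mem_toFinset _).1 hw
    exact hw'
  have hE : ∀ w ∈ S, 1 ≤ ord (w.valuation L) (algebraMap k L ϖ) ∧
      (ord (w.valuation L) (algebraMap k L ϖ) = 1 →
        ∀ x : k, w.valuation L (algebraMap k L x) = v.valuation k x) := by
    intro w hw
    obtain ⟨e, he, h4⟩ := ord_dn (K := k) w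
    rw [hmem w hw] at h4
    have h5 := h4 ϖ hϖ0
    rw [hord, mul_one] at h5
    refine ⟨by rw [h5]; exact_mod_cast he, ?_⟩
    intro h6 x
    rw [h5] at h6
    by_cases hx : x = 0
    · rw [hx, map_zero, map_zero, map_zero]
    have hx' : algebraMap k L x ≠ 0 := fun h0 =>
      hx ((algebraMap k L).injective (by rw [h0, map_zero]))
    have h7 := h4 x hx
    rw [h6, one_mul, ord, ord, neg_inj] at h7
    rw [← exp_log ((Valuation.ne_zero_iff (w.valuation L)).2 hx'), h7,
      exp_log ((Valuation.ne_zero_iff (v.valuation k)).2 hx)]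
  have hfe : ∀ w ∈ S, (1 : ℤ) ≤ (w.asIdeal.inertiaDeg (𝓞 k) : ℤ) *
      ord (w.valuation L) (algebraMap k L ϖ) := by
    intro w hw
    have e1 : (1 : ℤ) ≤ (w.asIdeal.inertiaDeg (𝓞 k) : ℤ) := by exact_mod_cast Cg_f (k := k) w
    have e2 := (hE w hw).1
    nlinarith
  rw [hnb]
  constructor
  · have h4 : ∑ w ∈ S, (1 : ℤ) ≤ ∑ w ∈ S, (w.asIdeal.inertiaDeg (𝓞 k) : ℤ) *
        ord (w.valuation L) (algebraMap k L ϖ) := Finset.sum_le_sum hfe
    rw [← h1, Finset.sum_const, nsmul_eq_mul, mul_one] at h4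
    exact_mod_cast h4
  · refine ⟨S.filter fun w => (w.asIdeal.inertiaDeg (𝓞 k) : ℤ) *
      ord (w.valuation L) (algebraMap k L ϖ) = 1, ?_, ?_⟩
    · intro w hw
      rw [Finset.mem_filter] at hw
      obtain ⟨hwS, hw1⟩ := hw
      have e1 : (1 : ℤ) ≤ (w.asIdeal.inertiaDeg (𝓞 k) : ℤ) := by exact_mod_cast Cg_f (k := k) w
      have e2 := (hE w hwS).1
      have e3 : ord (w.valuation L) (algebraMap k L ϖ) = 1 := by nlinarith
      have e4 : (w.asIdeal.inertiaDeg (𝓞 k) : ℤ) = 1 := by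
        rw [e3, mul_one] at hw1
        exact hw1
      have e5 : w.asIdeal.inertiaDeg (𝓞 k) = 1 := by exact_mod_cast e4
      refine ⟨hmem w hwS, (hE w hwS).2 e3, ?_⟩
      rw [Cg_Nv (k := k) w, e5, pow_one, hmem w hwS]
    · have h4 : ∑ w ∈ S, ((2 : ℤ) - if (w.asIdeal.inertiaDeg (𝓞 k) : ℤ) *
          ord (w.valuation L) (algebraMap k L ϖ) = 1 then 1 else 0) ≤
          ∑ w ∈ S, (w.asIdeal.inertiaDeg (𝓞 k) : ℤ) *
            ord (w.valuation L) (algebraMap k L ϖ) := by
        refine Finset.sum_le_sum fun w hw => ?_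
        have e1 := hfe w hw
        split_ifs with e2
        · omega
        · omega
      rw [← h1, Finset.sum_sub_distrib, Finset.sum_const, nsmul_eq_mul, Finset.sum_boole] at h4
      omega

section Points

variable {F : Type} [Field F] {A B : F}

private theorem Cg_negY (x y : F) :
    (⟨0, 0, 0, A, B⟩ : WeierstrassCurve F).toAffine.negY x y = -y := by
  simp [WeierstrassCurve.Affine.negY]

private theorem Cg_eqn {x y : F}
    (h : (⟨0, 0, 0, A, B⟩ : WeierstrassCurve F).toAffine.Nonsingular x y) :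
    y ^ 2 = x ^ 3 + A * x + B := by
  have h1 := (WeierstrassCurve.Affine.equation_iff _ _).1 h.1
  linear_combination h1

private theorem Cg_ns {r : F} (hD : 4 * A ^ 3 + 27 * B ^ 2 ≠ 0) (hr : r ^ 3 + A * r + B = 0) :
    (⟨0, 0, 0, A, B⟩ : WeierstrassCurve F).toAffine.Nonsingular r 0 := by
  rw [WeierstrassCurve.Affine.nonsingular_iff, WeierstrassCurve.Affine.equation_iff]
  refine ⟨by linear_combination -hr, Or.inl ?_⟩
  intro h0
  apply hD
  linear_combination (27 * B - 18 * A * r) * hr - (6 * A * r ^ 2 - 9 * B * r + 4 * A ^ 2) * h0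

private theorem Cg_y {x y : F} (h2 : (2 : F) ≠ 0)
    (h : (⟨0, 0, 0, A, B⟩ : WeierstrassCurve F).toAffine.Nonsingular x y)
    (h0 : (2 : ℤ) • (WeierstrassCurve.Affine.Point.some x y h) = 0) :
    y = 0 ∧ x ^ 3 + A * x + B = 0 := by
  rw [two_zsmul, add_eq_zero_iff_eq_neg, WeierstrassCurve.Affine.Point.neg_some,
    WeierstrassCurve.Affine.Point.some.injEq, Cg_negY] at h0
  have hy : y = 0 := by
    have h3 : 2 * y = 0 := by linear_combination h0.2
    exact (mul_eq_zero.1 h3).resolve_left h2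
  refine ⟨hy, ?_⟩
  have h1 := Cg_eqn h
  rw [hy] at h1
  linear_combination -h1

private theorem Cg_fin : {r : F | r ^ 3 + A * r + B = 0}.Finite := by
  have hp : (Polynomial.X ^ 3 + Polynomial.C A * Polynomial.X + Polynomial.C B :
      Polynomial F) ≠ 0 := by
    intro h0
    have h1 := congrArg (fun p => Polynomial.coeff p 3) h0
    simp at h1
  refine (Polynomial.X ^ 3 + Polynomial.C A * Polynomial.X + Polynomial.C B :
    Polynomial F).roots.toFinset.finite_toSet.subset fun r hr => ?_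
  have hr' : r ^ 3 + A * r + B = 0 := hr
  rw [Finset.mem_coe, Multiset.mem_toFinset, Polynomial.mem_roots hp, Polynomial.IsRoot.def]
  simp [hr']

end Points

theorem nb_T2 {a b : k} {θ : L} (h : Cub k L a b θ) (v : HeightOneSpectrum (𝓞 k))
    (ha : v.valuation k a ≤ 1) (hb : v.valuation k b ≤ 1) (hD : 4 * a ^ 3 + 27 * b ^ 2 ≠ 0) :
    Finite (T2 v a b) ∧ 2 ^ nb k L v ≤ 2 * Nat.card (T2 v a b) := by
  have hmap0 : ∀ x : k, x ≠ 0 → algebraMap k (v.adicCompletion k) x ≠ 0 := fun x hx =>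
    (map_ne_zero (algebraMap k (v.adicCompletion k))).2 hx
  have h2 : (2 : v.adicCompletion k) ≠ 0 := by
    have := hmap0 2 two_ne_zero
    rwa [map_ofNat] at this
  have hD' : 4 * algebraMap k (v.adicCompletion k) a ^ 3 +
      27 * algebraMap k (v.adicCompletion k) b ^ 2 ≠ 0 := by
    have := hmap0 _ hD
    rw [map_add, map_mul, map_mul, map_pow, map_pow, map_ofNat, map_ofNat] at this
    exact this
  have hmemT : ∀ P : Pt v a b, P ∈ T2 v a b ↔ (2 : ℤ) • P = 0 := fun P => Iff.rfl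
  have hfin : Finite (T2 v a b) := by
    have hR : Finite {r : v.adicCompletion k | r ^ 3 + algebraMap k (v.adicCompletion k) a * r +
        algebraMap k (v.adicCompletion k) b = 0} := (Cg_fin).to_subtype
    have hcl : ∀ P : T2 v a b, P.1 = 0 ∨ ∃ (r : v.adicCompletion k) (hn : _),
        r ^ 3 + algebraMap k (v.adicCompletion k) a * r +
          algebraMap k (v.adicCompletion k) b = 0 ∧
        P.1 = WeierstrassCurve.Affine.Point.some r 0 hn := by
      rintro ⟨P, hP⟩
      rcases P with _ | ⟨x, y, hn⟩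
      · exact Or.inl rfl
      · obtain ⟨hy, hx⟩ := Cg_y h2 hn ((hmemT _).1 hP)
        subst hy
        exact Or.inr ⟨x, hn, hx, rfl⟩
    let φ : Option {r : v.adicCompletion k | r ^ 3 + algebraMap k (v.adicCompletion k) a * r +
        algebraMap k (v.adicCompletion k) b = 0} → Pt v a b := fun o =>
      match o with
      | none => 0
      | some r => WeierstrassCurve.Affine.Point.some r.1 0 (Cg_ns hD' r.2)
    have hsub : ((T2 v a b : AddSubgroup (Pt v a b)) : Set (Pt v a b)) ⊆ Set.range φ := by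
      intro P hP
      rcases hcl ⟨P, hP⟩ with h0 | ⟨r, hn, hr, h0⟩
      · exact ⟨none, h0.symm⟩
      · exact ⟨some ⟨r, hr⟩, h0.symm⟩
    exact ((Set.finite_range φ).subset hsub).to_subtype
  refine ⟨hfin, ?_⟩
  obtain ⟨h3, W, hW, hWc⟩ := Cg_cnt h v
  have hroot : ∀ w : W, ∃ r : v.adicCompletion k, r ^ 3 +
        algebraMap k (v.adicCompletion k) a * r + algebraMap k (v.adicCompletion k) b = 0 ∧
      ∀ t : k, w.1.valuation L (algebraMap k L t - θ) =
        Valued.v (algebraMap k (v.adicCompletion k) t - r) := fun w =>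
    root_w h v ha hb w.1 (hW w.1 w.2).2.1 (hW w.1 w.2).2.2
  choose r hr1 hr2 using hroot
  have hcard : W.card + 1 ≤ Nat.card (T2 v a b) := by
    let ψ : Option W → T2 v a b := fun o =>
      match o with
      | none => 0
      | some w => ⟨WeierstrassCurve.Affine.Point.some (r w) 0 (Cg_ns hD' (hr1 w)), by
          rw [hmemT, two_zsmul]
          apply WeierstrassCurve.Affine.Point.add_self_of_Y_eq
          rw [Cg_negY, neg_zero]⟩
    have hψ : Function.Injective ψ := by
      rintro (_ | w) (_ | w') hww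
      · rfl
      · exact absurd (congrArg Subtype.val hww).symm (by
          exact WeierstrassCurve.Affine.Point.some_ne_zero _)
      · exact absurd (congrArg Subtype.val hww) (by
          exact WeierstrassCurve.Affine.Point.some_ne_zero _)
      · have e1 : (WeierstrassCurve.Affine.Point.some (r w) 0 (Cg_ns hD' (hr1 w)) : Pt v a b) =
            WeierstrassCurve.Affine.Point.some (r w') 0 (Cg_ns hD' (hr1 w')) :=
          congrArg Subtype.val hww
        rw [WeierstrassCurve.Affine.Point.some.injEq] at e1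
        by_contra hne
        have hne' : w.1 ≠ w'.1 := fun h0 => hne (congrArg some (Subtype.ext h0))
        exact root_ne h v ha hb hD (hW w.1 w.2).1 (hW w'.1 w'.2).1 hne' (hr1 w) (hr2 w) (hr2 w') e1.1
    have h4 := Nat.card_le_card_of_injective ψ hψ
    have h5 : Nat.card (Option W) = W.card + 1 := by
      rw [Nat.card_eq_fintype_card, Fintype.card_option, Fintype.card_coe]
    rw [h5] at h4
    exact h4
  have h6 : nb k L v = 0 ∨ nb k L v = 1 ∨ nb k L v = 2 ∨ nb k L v = 3 := by omega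
  rcases h6 with h6 | h6 | h6 | h6
  · rw [h6] at hWc ⊢
    omega
  · rw [h6] at hWc ⊢
    omega
  · rw [h6] at hWc ⊢
    omega
  · rw [h6] at hWc ⊢
    omega

end H30ZO

end S_H30_ZO_Cg

section S_H30_ZO_Ch

set_option autoImplicit false
set_option linter.unusedSectionVars false
open scoped Classical

open WithZero WeierstrassCurve NumberField IsDedekindDomain H38RT
open H38T1 (SC sc scu rep eo la si Pri OddP tp unif)
open H76PP

namespace H30ZO

variable {k L : Type} [Field k] [NumberField k] [Field L] [NumberField L] [Algebra k L]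

private lemma Ch_pt {F : Type} [Field F] [CharZero F] {A B : F}
    (hD : 4 * A ^ 3 + 27 * B ^ 2 ≠ 0)
    (hinf : Infinite (⟨0, 0, 0, A, B⟩ : WeierstrassCurve F).toAffine.Point) :
    ∃ (x y : F) (z : Fin 3 → F), y ≠ 0 ∧ y ^ 2 = x ^ 3 + A * x + B ∧
      m3 A B ![1, 0, 0] ![x, -1, 0] = m3 A B z z := by
  obtain ⟨Q, hQ⟩ := H73P2.Lb_avoid hD hinf {0} (Set.finite_singleton 0)
  have h4 : 4 • Q ≠ 0 := hQ 0 rfl
  have e4 : 4 • Q = Q + Q + (Q + Q) := by abel
  have h0 : Q + Q ≠ 0 := by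
    intro h
    apply h4
    rw [e4, h, add_zero]
  have h1 : Q + Q + (Q + Q) ≠ 0 := by
    rw [← e4]
    exact h4
  obtain ⟨x, y, hns, z, -, hy, hz⟩ := H73P2.Lb_dbl two_ne_zero Q h0 h1
  exact ⟨x, y, z, hy, H73P2.Lb_eqn hns, hz⟩

private lemma Ch_neg (c : SC L) : -c = c := by
  have h := H38T1.SC.two_smul c
  rw [two_nsmul] at h
  exact neg_eq_of_add_eq_zero_left h

private lemma Ch_ev1 (θ : L) : ev (K := k) θ ![1, 0, 0] = 1 := by
  unfold ev
  simp

private lemma Ch_sc1 : sc (1 : L) = 0 := by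
  have h := H38T1.sc_mul (K := L) (x := 1) (y := 1) one_ne_zero one_ne_zero
  rw [one_mul] at h
  exact (add_eq_left.1 h.symm)

theorem exists_WW {a b : k} {θ : L} (h : Cub k L a b θ) {F : Type} [Field F] [CharZero F]
    (i : k →+* F) (hD : 4 * i a ^ 3 + 27 * i b ^ 2 ≠ 0)
    (hinf : Infinite (⟨0, 0, 0, i a, i b⟩ : WeierstrassCurve F).toAffine.Point) :
    ∃ W : AddSubgroup (SC L), ∀ c, c ∈ W ↔ c ∈ HH k L ∧ Wc i a b θ c := by
  refine ⟨{ carrier := {c | c ∈ HH k L ∧ Wc i a b θ c}, add_mem' := ?_, zero_mem' := ?_,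
            neg_mem' := ?_ }, fun c => Iff.rfl⟩
  · rintro c₁ c₂ ⟨h1, d₁, n₁, e₁, l₁⟩ ⟨h2, d₂, n₂, e₂, l₂⟩
    refine ⟨(HH k L).add_mem h1 h2, m3 a b d₁ d₂, ?_, ?_, H73P2.LC_mul i hD hinf l₁ l₂⟩
    · rw [← Te_ev_mul h]
      exact mul_ne_zero n₁ n₂
    · rw [← Te_ev_mul h, H38T1.sc_mul n₁ n₂, e₁, e₂]
  · refine ⟨(HH k L).zero_mem, ![1, 0, 0], ?_, ?_, ?_⟩
    · rw [Ch_ev1]
      exact one_ne_zero
    · rw [Ch_ev1]
      exact Ch_sc1
    · obtain ⟨x, y, z, hy, he, hz⟩ := Ch_pt hD hinf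
      refine ⟨x, y, z, hy, he, ?_⟩
      have e1 : (fun j => i ((![1, 0, 0] : Fin 3 → k) j)) = (![1, 0, 0] : Fin 3 → F) := by
        funext j
        fin_cases j
        · exact map_one i
        · exact map_zero i
        · exact map_zero i
      rw [e1]
      exact hz
  · rintro c ⟨h1, h2⟩
    show -c ∈ HH k L ∧ Wc i a b θ (-c)
    rw [Ch_neg c]
    exact ⟨h1, h2⟩

theorem Sqv_le {a b : k} {θ : L} (h : Cub k L a b θ) (v : HeightOneSpectrum (𝓞 k))
    (ha : v.valuation k a ≤ 1) (hb : v.valuation k b ≤ 1) (hD : 4 * a ^ 3 + 27 * b ^ 2 ≠ 0)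
    {c : SC L} (hc : c ∈ Sqv k L v) :
    Wc (algebraMap k (v.adicCompletion k)) a b θ c := by
  have _ : CharZero (v.adicCompletion k) := H36CY.char_zero v
  obtain ⟨x, hx, rfl⟩ := H38T1.sc_surj c
  have hev : ev θ (fun j => h.co j x) = x := (h.eq_co x).symm
  have hne : ev θ (fun j => h.co j x) ≠ 0 := by
    rw [hev]
    exact hx
  obtain ⟨z, hz⟩ := sq_alg h v ha hb hne (by rw [hev]; exact hc)
  set i : k →+* v.adicCompletion k := algebraMap k (v.adicCompletion k) with hi
  have hD' : 4 * i a ^ 3 + 27 * i b ^ 2 ≠ 0 := by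
    have e : 4 * i a ^ 3 + 27 * i b ^ 2 = i (4 * a ^ 3 + 27 * b ^ 2) := by
      simp only [map_add, map_mul, map_pow, map_ofNat]
    rw [e, Ne, map_eq_zero]
    exact hD
  obtain ⟨x₁, y₁, u, hy, he, hu⟩ := Ch_pt hD' (H24PD.inf_fin v (i a) (i b))
  refine ⟨fun j => h.co j x, hne, by rw [hev], x₁, y₁, m3 (i a) (i b) z u, hy, he, ?_⟩
  have e1 : m3 (i a) (i b) (![1, 0, 0] : Fin 3 → v.adicCompletion k) ![x₁, -1, 0] = ![x₁, -1, 0] := by
    funext j
    fin_cases j <;> simp [m3]
  rw [e1] at hu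
  rw [hu, ← hz]
  funext j
  fin_cases j <;> simp only [m3, Matrix.cons_val_zero, Matrix.cons_val_one, Matrix.cons_val_two,
    Matrix.head_cons, Matrix.tail_cons, Matrix.cons_val, Fin.zero_eta, Fin.mk_one,
    Fin.reduceFinMk] <;> ring

end H30ZO

end S_H30_ZO_Ch
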