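import Mathlib
import Pool.Agent.H76.CQ.Qb
import Pool.Agent.H76.CQ.Qe
import Pool.Agent.H76.CQ.Qf
import Pool.Agent.H76.PN.N6
import Pool.Agent.H76.PN.P1
import Pool.Agent.H76.PN.P2
import Pool.Agent.H76.ZQ.Y0
import Pool.Agent.H76.ZQ.Y2
import Pool.Agent.H76.ZQ.Y3
import Pool.Agent.H76.ZQ.Y4
import Pool.Agent.H76.ZQ.Y5
import Pool.Agent.H76.ZQ.Y6
import Pool.Agent.H76.ZQ.Y7
import Pool.Agent.H76.ZQ.Y8

/-! This file joins several modules to save build time (Y9). -/

set_option autoImplicit false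

section S_H30_ZO_Is

set_option autoImplicit false
set_option linter.unusedSectionVars false
open scoped Classical

open WithZero NumberField IsDedekindDomain H38RT H76PP H36MT
open H38T1 (SC sc scu rep eo la si Pri OddP tp unif)
open H30CY (exists_two_in fin_any exists_big two_fin)

namespace H30ZO

/-- The set of the pairs which satisfy the required property over `F`. -/
def PF (K F : Type) [Field K] [NumberField K] [Field F] [Algebra K F] (p : 𝓞 K × 𝓞 K) : Prop :=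
  ∀ (M : IntermediateField K F) [NumberField M], Tv M (algebraMap K M p.1) (algebraMap K M p.2)

/-- The theorem for a finite or infinite extension `F / K` with infinitely many completely split primes,
given the local data at the primes of `S`. -/
theorem main_inf (K F : Type) [Field K] [NumberField K] [Field F] [Algebra K F] [IsGalois K F]
    (hdeg : ∀ (N : IntermediateField K F) [NumberField N], IsGalois K N →
      ∃ r : ℕ, Module.finrank K N = 2 ^ r)
    (hram : {v : HeightOneSpectrum (𝓞 K) | ∃ (N : IntermediateField K F) (_ : NumberField N)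
      (V : HeightOneSpectrum (𝓞 N)), dn K V = v ∧ H73P2.Ram K V}.Finite)
    (hspl : {v : HeightOneSpectrum (𝓞 K) | ∃ ι : F →+* v.adicCompletion K, ∀ x : K,
      ι (algebraMap K F x) = algebraMap K (v.adicCompletion K) x}.Infinite)
    {S : Finset (HeightOneSpectrum (𝓞 K))}
    (hSv : ∀ v : HeightOneSpectrum (𝓞 K), (2 : 𝓞 K) ∈ v.asIdeal → v ∈ S)
    (e : HeightOneSpectrum (𝓞 K) → ℕ) (A₀ B₀ : HeightOneSpectrum (𝓞 K) → 𝓞 K)
    (hcl : ∀ v ∈ S, dsc (A₀ v) (B₀ v) ∉ v.asIdeal ^ e v)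
    (hloc : ∀ v ∈ S, ∀ A B : 𝓞 K, A - A₀ v ∈ v.asIdeal ^ e v → B - B₀ v ∈ v.asIdeal ^ e v →
        ∀ (N : IntermediateField K F) [NumberField N], IsGalois K N →
          H36CY.DescAt K N v (A : K) (B : K)) :
    ∃ (c X₀ : ℝ), 0 < c ∧ ∀ X : ℝ, X₀ ≤ X → ∃ G : Finset (𝓞 K × 𝓞 K),
      (∀ p ∈ G, p ∈ Bx K X ∧ 4 * p.1 ^ 3 + 27 * p.2 ^ 2 ≠ 0 ∧
        (∀ v ∈ S, p.1 - A₀ v ∈ v.asIdeal ^ e v ∧ p.2 - B₀ v ∈ v.asIdeal ^ e v) ∧
        Finite (⟨0, 0, 0, algebraMap K F p.1, algebraMap K F p.2⟩ :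
          WeierstrassCurve F).toAffine.Point ∧ PF K F p) ∧
      (∀ p ∈ G, ∀ q ∈ G, p.1 ^ 3 * q.2 ^ 2 = q.1 ^ 3 * p.2 ^ 2 → p = q) ∧
      c * ((Bx K X).ncard : ℝ) ≤ (G.card : ℝ) := by
  obtain ⟨R, hR⟩ : ∃ R : Finset (HeightOneSpectrum (𝓞 K)), ∀ v, v ∈ R ↔
      ((∃ (N : IntermediateField K F) (_ : NumberField N)
      (V : HeightOneSpectrum (𝓞 N)), dn K V = v ∧ H73P2.Ram K V) ∧ v ∉ S) := by
    refine ⟨hram.toFinset.filter fun v => v ∉ S, fun v => ?_⟩
    rw [Finset.mem_filter, Set.Finite.mem_toFinset]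
    rfl
  obtain ⟨T, c, X₀, hT, hc, h⟩ := main_gen K hSv (fun v hv => ((hR v).1 hv).2) hspl e A₀ B₀ hcl
  refine ⟨c, X₀, hc, fun X hX => ?_⟩
  obtain ⟨G, hG, hj, hcard⟩ := h X hX
  refine ⟨G, fun p hp => ?_, hj, hcard⟩
  obtain ⟨hB, hne, hpc, hall⟩ := hG p hp
  have hM : PF K F p := by
    intro M _
    obtain ⟨N, _, hNg, hMN, -⟩ := exists_big M (∅ : Finset ℕ) (fun _ => ⊥)
      fun v hv => absurd hv (Finset.notMem_empty v)
    let _ : Algebra M N := (IntermediateField.inclusion hMN).toRingHom.toAlgebra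
    have _ : IsScalarTower K M N := IsScalarTower.of_algebraMap_eq fun _ => rfl
    refine hall N ⟨hNg, hdeg N hNg, ?_, ?_, ?_⟩ M
    · intro V h2 hV
      exact (hR _).2 ⟨⟨N, inferInstance, V, rfl, hV⟩, h2⟩
    · intro v hv
      obtain ⟨ι, hι⟩ := hT v hv
      exact ⟨ι.comp N.val.toRingHom, fun x => hι x⟩
    · intro v hv
      obtain ⟨h1, h2⟩ := hpc v hv
      exact hloc v hv p.1 p.2 h1 h2 N hNg
  refine ⟨hB, hne, hpc, ?_, hM⟩
  obtain ⟨l, l', v, v', ⟨ι, hι⟩, ⟨ι', hι'⟩, hl, hl', hll, hv, hv', hg, hg'⟩ := exists_two_in hspl hne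
  exact fin_any (fun M _ => (hM M).1) (H73P2.tors_emb hl hl' hll hv hv' hg hg' ι hι ι' hι')

/-- Congruences modulo powers of primes give a congruence modulo an ideal. -/
theorem mem_of_pow {K : Type} [Field K] [NumberField K] {m : Ideal (𝓞 K)} (hm : m ≠ ⊥) :
    ∃ n : ℕ, ∀ (S : Finset (HeightOneSpectrum (𝓞 K))),
      (∀ v : HeightOneSpectrum (𝓞 K), m ≤ v.asIdeal → v ∈ S) → ∀ (e : HeightOneSpectrum (𝓞 K) → ℕ),
      (∀ v ∈ S, n ≤ e v) → ∀ x : 𝓞 K, (∀ v ∈ S, x ∈ v.asIdeal ^ e v) → x ∈ m := by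
  have hm' : m ≠ 0 := hm
  have hfin : {v : HeightOneSpectrum (𝓞 K) | m ≤ v.asIdeal}.Finite :=
    (Ideal.finite_factors hm).subset fun v hv => Ideal.dvd_iff_le.2 hv
  obtain ⟨c, hc⟩ : ∃ c : HeightOneSpectrum (𝓞 K) → ℕ, c = fun v =>
    (Associates.mk v.asIdeal).count (Associates.mk m).factors := ⟨_, rfl⟩
  have hcv : ∀ v, v.maxPowDividing m = v.asIdeal ^ c v := by
    intro v
    rw [hc]
    rfl
  refine ⟨∑ v ∈ hfin.toFinset, c v, fun S hS e he x hx => ?_⟩
  rw [← Ideal.iInf_maxPowDividing_eq hm', Submodule.mem_iInf]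
  intro v
  rw [hcv]
  by_cases h0 : c v = 0
  · rw [h0, pow_zero, Ideal.one_eq_top]
    exact trivial
  · have h1 : m ≤ v.asIdeal := by
      rw [← Ideal.dvd_iff_le, ← Associates.count_ne_zero_iff_dvd hm' v.irreducible]
      rw [hc] at h0
      exact h0
    have h2 : c v ≤ ∑ v ∈ hfin.toFinset, c v :=
      Finset.single_le_sum (fun _ _ => Nat.zero_le _) (hfin.mem_toFinset.2 h1)
    exact Ideal.pow_le_pow_right (h2.trans (he v (hS v h1))) (hx v (hS v h1))

/-- The zero-one law in a residue class. -/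
theorem zero_one (K F : Type) [Field K] [NumberField K] [Field F] [Algebra K F] [IsGalois K F]
    (hdeg : ∀ (N : IntermediateField K F) [NumberField N], IsGalois K N →
      ∃ r : ℕ, Module.finrank K N = 2 ^ r)
    (hram : {v : HeightOneSpectrum (𝓞 K) | ∃ (N : IntermediateField K F) (_ : NumberField N)
      (V : HeightOneSpectrum (𝓞 N)), dn K V = v ∧ H73P2.Ram K V}.Finite)
    (hspl : {v : HeightOneSpectrum (𝓞 K) | ∃ ι : F →+* v.adicCompletion K, ∀ x : K,
      ι (algebraMap K F x) = algebraMap K (v.adicCompletion K) x}.Infinite)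
    {m : Ideal (𝓞 K)} (hm : m ≠ ⊥) {A₀ B₀ : 𝓞 K} (hD : dsc A₀ B₀ ≠ 0)
    (hdesc : ∀ (v : HeightOneSpectrum (𝓞 K)) (N : IntermediateField K F) [NumberField N],
      IsGalois K N → H36CY.DescAt K N v (A₀ : K) (B₀ : K)) :
    ∃ (c X₀ : ℝ), 0 < c ∧ ∀ X : ℝ, X₀ ≤ X → ∃ G : Finset (𝓞 K × 𝓞 K),
      (∀ p ∈ G, p ∈ Bx K X ∧ 4 * p.1 ^ 3 + 27 * p.2 ^ 2 ≠ 0 ∧
        (p.1 - A₀ ∈ m ∧ p.2 - B₀ ∈ m) ∧
        Finite (⟨0, 0, 0, algebraMap K F p.1, algebraMap K F p.2⟩ :
          WeierstrassCurve F).toAffine.Point ∧ PF K F p) ∧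
      (∀ p ∈ G, ∀ q ∈ G, p.1 ^ 3 * q.2 ^ 2 = q.1 ^ 3 * p.2 ^ 2 → p = q) ∧
      c * ((Bx K X).ncard : ℝ) ≤ (G.card : ℝ) := by
  obtain ⟨n, hn⟩ := mem_of_pow hm
  choose e he1 he2 using fun v : HeightOneSpectrum (𝓞 K) => H36LG.descAt_open v hD
  obtain ⟨S₂, hS₂⟩ := two_fin K
  have hfm : {v : HeightOneSpectrum (𝓞 K) | m ≤ v.asIdeal}.Finite :=
    (Ideal.finite_factors hm).subset fun v hv => Ideal.dvd_iff_le.2 hv
  obtain ⟨S, hS⟩ : ∃ S : Finset (HeightOneSpectrum (𝓞 K)), S = S₂ ∪ hfm.toFinset := ⟨_, rfl⟩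
  have hS1 : ∀ v : HeightOneSpectrum (𝓞 K), (2 : 𝓞 K) ∈ v.asIdeal → v ∈ S := by
    intro v hv
    rw [hS]
    exact Finset.mem_union_left _ ((hS₂ v).2 hv)
  have hS3 : ∀ v : HeightOneSpectrum (𝓞 K), m ≤ v.asIdeal → v ∈ S := by
    intro v hv
    rw [hS]
    exact Finset.mem_union_right _ (hfm.mem_toFinset.2 hv)
  have hle : ∀ v : HeightOneSpectrum (𝓞 K), v.asIdeal ^ (e v + n) ≤ v.asIdeal ^ e v := fun v =>
    Ideal.pow_le_pow_right (Nat.le_add_right _ _)
  obtain ⟨c, X₀, hc, h⟩ := main_inf K F hdeg hram hspl hS1 (fun v => e v + n) (fun _ => A₀)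
    (fun _ => B₀) (fun v _ h => he1 v (hle v h))
    (fun v _ A B hA hB N _ hN => he2 v A B (hle v hA) (hle v hB) N (hdesc v N hN))
  refine ⟨c, X₀, hc, fun X hX => ?_⟩
  obtain ⟨G, hG, hj, hcard⟩ := h X hX
  refine ⟨G, fun p hp => ?_, hj, hcard⟩
  obtain ⟨h1, h2, h3, h4, h5⟩ := hG p hp
  refine ⟨h1, h2, ⟨?_, ?_⟩, h4, h5⟩
  · exact hn S hS3 (fun v => e v + n) (fun v _ => Nat.le_add_left _ _) _ fun v hv => (h3 v hv).1
  · exact hn S hS3 (fun v => e v + n) (fun v _ => Nat.le_add_left _ _) _ fun v hv => (h3 v hv).2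

end H30ZO

end S_H30_ZO_Is

section S_H30_ZO_Ci

set_option autoImplicit false
set_option linter.unusedSectionVars false
open scoped Classical

open WithZero WeierstrassCurve NumberField IsDedekindDomain H38RT
open H38T1 (SC sc scu rep eo la si Pri OddP tp unif)
open H76PP

namespace H30ZO

variable {k L : Type} [Field k] [NumberField k] [Field L] [NumberField L] [Algebra k L]

theorem loc_idx {a b : k} {θ : L} (h : Cub k L a b θ) (v : HeightOneSpectrum (𝓞 k))
    (ha : v.valuation k a ≤ 1) (hb : v.valuation k b ≤ 1) (hD : 4 * a ^ 3 + 27 * b ^ 2 ≠ 0)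
    {W : AddSubgroup (SC L)}
    (hW : ∀ c, c ∈ W ↔ c ∈ HH k L ∧ Wc (algebraMap k (v.adicCompletion k)) a b θ c) :
    W.relIndex (HH k L) ≠ 0 ∧ 2 * W.relIndex (HH k L) ≤ 2 ^ nb k L v * qq v := by
  set S : AddSubgroup (SC L) := Sqv k L v ⊓ HH k L with hS
  have hSW : S ≤ W := by
    intro c hc
    exact (hW c).2 ⟨hc.2, Sqv_le h v ha hb hD hc.1⟩
  have hWH : W ≤ HH k L := fun c hc => ((hW c).1 hc).1
  have hmul : S.relIndex W * W.relIndex (HH k L) = S.relIndex (HH k L) :=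
    AddSubgroup.relIndex_mul_relIndex S W (HH k L) hSW hWH
  obtain ⟨hX0, hX⟩ := idx_HH h v ha hb
  rw [← hS, ← hmul] at hX0 hX
  have hY0 : S.relIndex W ≠ 0 := left_ne_zero_of_mul hX0
  have hZ0 : W.relIndex (HH k L) ≠ 0 := right_ne_zero_of_mul hX0
  refine ⟨hZ0, ?_⟩
  obtain ⟨hd0, hd⟩ := idx_W h v ha hb hD hW (by rw [← hS]; exact hY0)
  rw [← hS] at hd
  have hd2 : qq v * Nat.card (T2 v a b) ≤ (D2 v a b).index :=
    (idx_D2 v ha hb hD).resolve_left hd0
  obtain ⟨-, hnb⟩ := nb_T2 h v ha hb hD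
  have hq : 0 < qq v := by
    unfold qq Nv
    refine pow_pos (Nat.pos_of_ne_zero ?_) _
    intro h0
    exact v.ne_bot (Ideal.absNorm_eq_zero_iff.1 h0)
  set Z := W.relIndex (HH k L) with hZ
  set Y := S.relIndex W with hY
  set q := qq v with hqd
  set t := Nat.card (T2 v a b) with ht
  set n := nb k L v with hn
  have h1 : q * t ≤ Y := hd2.trans hd
  have h2 : 4 * (q * t * Z) ≤ 4 ^ n * q ^ 2 :=
    (Nat.mul_le_mul_left 4 (Nat.mul_le_mul_right Z h1)).trans hX
  have h3 : 4 * (t * Z) ≤ 4 ^ n * q := by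
    refine Nat.le_of_mul_le_mul_right (a := 4 * (t * Z)) ?_ hq
    calc 4 * (t * Z) * q = 4 * (q * t * Z) := by ring
      _ ≤ 4 ^ n * q ^ 2 := h2
      _ = 4 ^ n * q * q := by ring
  have h4 : 2 * (2 ^ n * Z) ≤ 4 ^ n * q := by
    calc 2 * (2 ^ n * Z) ≤ 2 * (2 * t * Z) :=
          Nat.mul_le_mul_left 2 (Nat.mul_le_mul_right Z hnb)
      _ = 4 * (t * Z) := by ring
      _ ≤ 4 ^ n * q := h3
  have h5 : (4 : ℕ) ^ n = 2 ^ n * 2 ^ n := by
    rw [← mul_pow]
    norm_num
  rw [h5] at h4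
  refine Nat.le_of_mul_le_mul_right (a := 2 * Z) ?_ (Nat.two_pow_pos n)
  calc 2 * Z * 2 ^ n = 2 * (2 ^ n * Z) := by ring
    _ ≤ 2 ^ n * 2 ^ n * q := h4
    _ = 2 ^ n * q * 2 ^ n := by ring

end H30ZO

end S_H30_ZO_Ci

section S_H30_ZO_Cj

set_option autoImplicit false
set_option linter.unusedSectionVars false
open scoped Classical

open WithZero WeierstrassCurve NumberField IsDedekindDomain H38RT
open H38T1 (SC sc scu rep eo la si Pri OddP tp unif)
open H76PP

namespace H30ZO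

variable {k L : Type} [Field k] [NumberField k] [Field L] [NumberField L] [Algebra k L]

private noncomputable def Cj_eo {K : Type} [Field K] [NumberField K]
    (w : HeightOneSpectrum (𝓞 K)) : SC K →+ ZMod 2 :=
  AddMonoidHom.mk' (eo w) (H38T1.eo_add w)

private theorem Cj_ap {K : Type} [Field K] [NumberField K] (w : HeightOneSpectrum (𝓞 K))
    (c : SC K) : Cj_eo w c = eo w c := rfl

private theorem Cj_surj {K : Type} [Field K] [NumberField K] (w : HeightOneSpectrum (𝓞 K)) :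
    Function.Surjective (Cj_eo w) := by
  have hu := H38T1.unif_spec w
  have hu0 : unif w ≠ 0 := by
    intro h
    rw [h, map_zero] at hu
    exact exp_ne_zero hu.symm
  have h1 : Cj_eo w (sc (unif w)) = 1 := by
    rw [Cj_ap, H38T1.eo_sc hu0]
    unfold ord
    rw [hu, log_exp]
    decide
  intro z
  have hz : z = 0 ∨ z = 1 := by
    revert z
    decide
  rcases hz with rfl | rfl
  · exact ⟨0, map_zero _⟩
  · exact ⟨_, h1⟩

private theorem Cj_two {K : Type} [Field K] [NumberField K] (w : HeightOneSpectrum (𝓞 K)) :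
    (Cj_eo w).ker.index = 2 := by
  rw [AddSubgroup.index_ker, AddMonoidHom.range_eq_top.2 (Cj_surj w),
    Nat.card_congr AddSubgroup.topEquiv.toEquiv, Nat.card_zmod]

private theorem Cj_Sq {K : Type} [Field K] [NumberField K] (w : HeightOneSpectrum (𝓞 K)) :
    Sq w ≤ (Cj_eo w).ker := by
  intro c hc
  obtain ⟨x, hx, rfl⟩ := H38T1.sc_surj c
  rw [mem_Sq hx] at hc
  obtain ⟨y, hy⟩ := hc
  rw [AddMonoidHom.mem_ker, Cj_ap, H38T1.eo_sc hx]
  have h1 : w.valuation K x = Valued.v y * Valued.v y := by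
    rw [← H36CY.val_coe, hy, map_mul]
  have hy0 : (Valued.v y : WithZero (Multiplicative ℤ)) ≠ 0 := by
    intro h
    rw [h, mul_zero] at h1
    exact hx ((Valuation.zero_iff _).1 h1)
  unfold ord
  rw [h1, log_mul hy0 hy0, neg_add, Int.cast_add, CharTwo.add_self_eq_zero]

private theorem Cj_rel {K : Type} [Field K] [NumberField K] (w : HeightOneSpectrum (𝓞 K))
    (h2 : w.valuation K 2 = 1) : (Sq w).relIndex (Cj_eo w).ker = 2 := by
  have h := AddSubgroup.relIndex_mul_index (Cj_Sq w)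
  rw [index_Sq, Cj_two, qq_odd h2] at h
  omega

private theorem Cj_ab {G G' : Type*} [AddCommGroup G] [AddCommGroup G'] (ι : G' →+ G)
    (N : G →+ G') (S E : AddSubgroup G) (Q U : AddSubgroup G') (h1 : ∀ e, N (ι e) = e)
    (h2 : ∀ c ∈ S, N c ∈ Q) (h3 : ∀ e ∈ Q, ι e ∈ S) (h4 : ∀ e ∈ U, ι e ∈ E)
    (h5 : S.relIndex E ≠ 0) :
    (S ⊓ N.ker).relIndex (E ⊓ N.ker) * Q.relIndex U ≠ 0 ∧
      (S ⊓ N.ker).relIndex (E ⊓ N.ker) * Q.relIndex U ≤ S.relIndex E := by
  obtain ⟨f, hf⟩ : ∃ f : (↥(E ⊓ N.ker) × ↥U) →+ G,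
      f = (E ⊓ N.ker).subtype.coprod (ι.comp U.subtype) := ⟨_, rfl⟩
  have hfe : ∀ (c : ↥(E ⊓ N.ker)) (e : ↥U), f (c, e) = (c : G) + ι (e : G') := by
    intro c e
    rw [hf, AddMonoidHom.coprod_apply]
    rfl
  have hr : f.range ≤ E := by
    rintro _ ⟨⟨c, e⟩, rfl⟩
    rw [hfe]
    exact E.add_mem (AddSubgroup.mem_inf.1 c.2).1 (h4 _ e.2)
  have hc : S.comap f = ((S ⊓ N.ker).addSubgroupOf (E ⊓ N.ker)).prod (Q.addSubgroupOf U) := by
    ext ⟨c, e⟩
    have hcN : N (c : G) = 0 := AddMonoidHom.mem_ker.1 (AddSubgroup.mem_inf.1 c.2).2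
    rw [AddSubgroup.mem_comap, hfe, AddSubgroup.mem_prod, AddSubgroup.mem_addSubgroupOf,
      AddSubgroup.mem_addSubgroupOf, AddSubgroup.mem_inf]
    have hN : N ((c : G) + ι e) = e := by
      rw [map_add, h1, hcN, zero_add]
    constructor
    · intro h
      have he : (e : G') ∈ Q := by
        have := h2 _ h
        rwa [hN] at this
      refine ⟨⟨?_, AddMonoidHom.mem_ker.2 hcN⟩, he⟩
      have := S.sub_mem h (h3 e he)
      rwa [add_sub_cancel_right] at this
    · rintro ⟨hc, he⟩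
      exact S.add_mem hc.1 (h3 e he)
  have hi : (S.comap f).index = S.relIndex f.range := AddSubgroup.index_comap S f
  rw [hc, AddSubgroup.index_prod] at hi
  change (S ⊓ N.ker).relIndex (E ⊓ N.ker) * Q.relIndex U = S.relIndex f.range at hi
  rw [hi]
  exact ⟨fun h => h5 (AddSubgroup.relIndex_eq_zero_of_le_right hr h),
    AddSubgroup.relIndex_le_of_le_right hr h5⟩

private theorem Cj_N {a b : k} {θ : L} (h : Cub k L a b θ) (e : SC k) :
    scm (Algebra.norm k : L →* k) (scm (algebraMap k L : k →* L) e) = e := by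
  obtain ⟨x, hx, rfl⟩ := H38T1.sc_surj e
  have hx' : (algebraMap k L) x ≠ 0 := (map_ne_zero (algebraMap k L)).2 hx
  rw [scm_sc _ hx]
  have h1 : ((algebraMap k L : k →* L) x : L) = algebraMap k L x := rfl
  rw [h1, scm_sc _ hx']
  have h2 : ((Algebra.norm k : L →* k) (algebraMap k L x) : k) = x * (x * x) := by
    rw [Algebra.norm_algebraMap, h.finrank]
    ring
  rw [h2, H38T1.sc_mul hx (mul_ne_zero hx hx), (H38T1.sc_eq_zero (mul_ne_zero hx hx)).2 ⟨x, rfl⟩,
    add_zero]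

private theorem Cj_up (v : HeightOneSpectrum (𝓞 k)) {e : SC k} (he : e ∈ Sq v) :
    scm (algebraMap k L : k →* L) e ∈ Sqv k L v := by
  obtain ⟨x, hx, rfl⟩ := H38T1.sc_surj e
  have hx' : (algebraMap k L) x ≠ 0 := (map_ne_zero (algebraMap k L)).2 hx
  rw [mem_Sqv]
  rintro w rfl
  rw [scm_sc _ hx]
  have h1 : ((algebraMap k L : k →* L) x : L) = algebraMap k L x := rfl
  rw [h1, mem_Sq hx']
  rw [mem_Sq hx] at he
  obtain ⟨y, hy⟩ := he
  refine ⟨(H36CY.over_dn (K := k) w).map y, ?_⟩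
  rw [← Pool.Agent.H10.Over.map_algebraMap (H36CY.over_dn (K := k) w) x, hy, map_mul]

private theorem Cj_dn (w : HeightOneSpectrum (𝓞 L)) {e : SC k} (he : eo (dn k w) e = 0) :
    eo w (scm (algebraMap k L : k →* L) e) = 0 := by
  obtain ⟨x, hx, rfl⟩ := H38T1.sc_surj e
  have hx' : (algebraMap k L) x ≠ 0 := (map_ne_zero (algebraMap k L)).2 hx
  rw [scm_sc _ hx]
  have h1 : ((algebraMap k L : k →* L) x : L) = algebraMap k L x := rfl
  obtain ⟨n, _, hn⟩ := ord_dn (K := k) w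
  rw [h1, H38T1.eo_sc hx', hn x hx, Int.cast_mul]
  rw [H38T1.eo_sc hx] at he
  rw [he, mul_zero]

variable (k L) in
private noncomputable def Cj_E (v : HeightOneSpectrum (𝓞 k)) : AddSubgroup (SC L) :=
  ⨅ w : {w : HeightOneSpectrum (𝓞 L) // dn k w = v}, (Cj_eo w.1).ker

private theorem Cj_mE {v : HeightOneSpectrum (𝓞 k)} {c : SC L} :
    c ∈ Cj_E k L v ↔ ∀ w : HeightOneSpectrum (𝓞 L), dn k w = v → eo w c = 0 := by
  unfold Cj_E
  rw [AddSubgroup.mem_iInf]
  constructor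
  · intro h w hw
    exact AddMonoidHom.mem_ker.1 (h ⟨w, hw⟩)
  · rintro h ⟨w, hw⟩
    exact AddMonoidHom.mem_ker.2 (h w hw)

private theorem Cj_idx (v : HeightOneSpectrum (𝓞 k)) (h2 : v.valuation k 2 = 1) :
    (Sqv k L v).relIndex (Cj_E k L v) ≠ 0 ∧
      (Sqv k L v).relIndex (Cj_E k L v) ≤ 2 ^ nb k L v := by
  have hfin : {w : HeightOneSpectrum (𝓞 L) | dn k w = v}.Finite := fin_above v
  let _ : Fintype {w : HeightOneSpectrum (𝓞 L) // dn k w = v} := hfin.fintype
  have hS : Sqv k L v = ⨅ w : {w : HeightOneSpectrum (𝓞 L) // dn k w = v}, Sq w.1 := by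
    unfold Sqv
    rw [iInf_subtype]
  have hle : ∀ w : {w : HeightOneSpectrum (𝓞 L) // dn k w = v},
      Cj_E k L v ≤ (Cj_eo w.1).ker := fun w => iInf_le _ w
  have h2' : ∀ w : {w : HeightOneSpectrum (𝓞 L) // dn k w = v}, w.1.valuation L 2 = 1 := by
    rintro ⟨w, rfl⟩
    have h3 := val_one (L := L) h2
    rwa [map_ofNat] at h3
  have h0 : ∀ w : {w : HeightOneSpectrum (𝓞 L) // dn k w = v},
      (Sq w.1).relIndex (Cj_E k L v) ≠ 0 := by
    intro w h
    have h3 := Cj_rel w.1 (h2' w)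
    have h4 : (Sq w.1).relIndex (Cj_eo w.1).ker = 0 :=
      AddSubgroup.relIndex_eq_zero_of_le_right (hle w) h
    omega
  have h1 : ∀ w : {w : HeightOneSpectrum (𝓞 L) // dn k w = v},
      (Sq w.1).relIndex (Cj_E k L v) ≤ 2 := by
    intro w
    rw [← Cj_rel w.1 (h2' w)]
    refine AddSubgroup.relIndex_le_of_le_right (hle w) ?_
    rw [Cj_rel w.1 (h2' w)]
    norm_num
  have h3 : Fintype.card {w : HeightOneSpectrum (𝓞 L) // dn k w = v} = nb k L v := by
    unfold nb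
    rw [← Nat.card_eq_fintype_card]
    exact Nat.card_coe_set_eq _
  rw [hS]
  refine ⟨AddSubgroup.relIndex_iInf_ne_zero h0, ?_⟩
  calc (⨅ w : {w : HeightOneSpectrum (𝓞 L) // dn k w = v}, Sq w.1).relIndex (Cj_E k L v)
      ≤ ∏ w : {w : HeightOneSpectrum (𝓞 L) // dn k w = v}, (Sq w.1).relIndex (Cj_E k L v) :=
        AddSubgroup.relIndex_iInf_le _
    _ ≤ ∏ w : {w : HeightOneSpectrum (𝓞 L) // dn k w = v}, 2 :=
        Finset.prod_le_prod' fun w _ => h1 w
    _ = 2 ^ nb k L v := by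
        rw [Finset.prod_const, Finset.card_univ, h3]

theorem good_W (hos : H73P2.OrdSub) {a b : k} {θ : L} (h : Cub k L a b θ)
    (v : HeightOneSpectrum (𝓞 k)) (ha : v.valuation k a ≤ 1) (hb : v.valuation k b ≤ 1)
    (h2 : v.valuation k 2 = 1) (hD : v.valuation k (4 * a ^ 3 + 27 * b ^ 2) = 1)
    {W : AddSubgroup (SC L)}
    (hW : ∀ c, c ∈ W ↔ c ∈ HH k L ∧ Wc (algebraMap k (v.adicCompletion k)) a b θ c)
    {c : SC L} (hc : c ∈ HH k L) (he : ∀ w : HeightOneSpectrum (𝓞 L), dn k w = v → eo w c = 0) :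
    c ∈ W := by
  have hD0 : 4 * a ^ 3 + 27 * b ^ 2 ≠ 0 := by
    intro h0
    rw [h0, map_zero] at hD
    exact zero_ne_one hD
  have hq : qq v = 1 := qq_odd h2
  have hSW : Sqv k L v ⊓ HH k L ≤ W := by
    intro d hd
    rw [AddSubgroup.mem_inf] at hd
    exact (hW d).2 ⟨hd.2, Sqv_le h v ha hb hD0 hd.1⟩
  have hWE : W ≤ Cj_E k L v ⊓ HH k L := by
    intro d hd
    have hd2 := (hW d).1 hd
    refine AddSubgroup.mem_inf.2 ⟨Cj_mE.2 ?_, hd2.1⟩
    rintro w rfl
    obtain ⟨d', hd1, rfl, hLC⟩ := hd2.2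
    refine H73P2.even_nice hos h w ⟨1, a, b, one_ne_zero, ?_, ?_, ha, hb, ?_⟩ hd1 hLC
    · rw [one_pow, one_mul]
    · rw [one_pow, one_mul]
    · rw [hD, ← exp_zero, exp_le_exp]
      norm_num
  have hE := Cj_idx (L := L) v h2
  have hab := Cj_ab (scm (algebraMap k L : k →* L)) (scm (Algebra.norm k : L →* k)) (Sqv k L v)
    (Cj_E k L v) (Sq v) (Cj_eo v).ker (Cj_N h) (fun c hc => norm_Sqv h v ha hb hc)
    (fun e he => Cj_up v he)
    (fun e he => Cj_mE.2 fun w hw => by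
      subst hw
      exact Cj_dn w (AddMonoidHom.mem_ker.1 he)) hE.1
  rw [Cj_rel v h2] at hab
  change (Sqv k L v ⊓ HH k L).relIndex (Cj_E k L v ⊓ HH k L) * 2 ≠ 0 ∧
    (Sqv k L v ⊓ HH k L).relIndex (Cj_E k L v ⊓ HH k L) * 2 ≤ _ at hab
  have hm := AddSubgroup.relIndex_mul_relIndex _ _ _ hSW hWE
  rw [← hm] at hab
  obtain ⟨X, hX⟩ : ∃ X, X = (Sqv k L v ⊓ HH k L).relIndex W := ⟨_, rfl⟩
  obtain ⟨Y, hY⟩ : ∃ Y, Y = W.relIndex (Cj_E k L v ⊓ HH k L) := ⟨_, rfl⟩
  rw [← hX, ← hY] at hab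
  have hX0 : X ≠ 0 := by
    intro h0
    rw [h0, zero_mul, zero_mul] at hab
    exact hab.1 rfl
  have hY0 : Y ≠ 0 := by
    intro h0
    rw [h0, mul_zero, zero_mul] at hab
    exact hab.1 rfl
  have hiW := idx_W h v ha hb hD0 hW (by rw [← hX]; exact hX0)
  rw [← hX] at hiW
  have hiD := (idx_D2 v ha hb hD0).resolve_left hiW.1
  rw [hq, one_mul] at hiD
  have hnb := (nb_T2 h v ha hb hD0).2
  have hfin : X * Y * 2 ≤ 2 * X := by
    calc X * Y * 2 ≤ 2 ^ nb k L v := hab.2.trans hE.2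
      _ ≤ 2 * Nat.card (T2 v a b) := hnb
      _ ≤ 2 * X := Nat.mul_le_mul_left _ (hiD.trans hiW.2)
  have hY1 : Y = 1 := by
    by_contra hne
    have hY2 : 2 ≤ Y := by omega
    have hX1 : 1 ≤ X := Nat.one_le_iff_ne_zero.2 hX0
    have := Nat.mul_le_mul_left X hY2
    omega
  have hEW : Cj_E k L v ⊓ HH k L ≤ W := AddSubgroup.relIndex_eq_one.1 (by rw [← hY]; exact hY1)
  exact hEW (AddSubgroup.mem_inf.2 ⟨Cj_mE.2 he, hc⟩)

end H30ZO

end S_H30_ZO_Cj

section S_H30_ZO_Nb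

set_option autoImplicit false
set_option linter.unusedSectionVars false
open scoped Classical

open WithZero NumberField IsDedekindDomain H38RT
open H38T1 (SC sc scu rep eo la si Pri OddP tp unif)
open H76PP

namespace H30ZO

variable {k L : Type} [Field k] [NumberField k] [Field L] [NumberField L] [Algebra k L]

theorem exists_class (hos : H73P2.OrdSub) {a b : k} {θ : L} (h : Cub k L a b θ)
    (ha : ∀ v : HeightOneSpectrum (𝓞 k), v.valuation k a ≤ 1)
    (hb : ∀ v : HeightOneSpectrum (𝓞 k), v.valuation k b ≤ 1)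
    (hD : 4 * a ^ 3 + 27 * b ^ 2 ≠ 0) (hsel : SelTriv k L a b θ)
    (T : Finset (HeightOneSpectrum (𝓞 k))) {c₀ : SC L} (hc₀ : c₀ ∈ HH k L) :
    ∃ c ∈ HH k L,
      (∀ v ∈ T, Wc (algebraMap k (v.adicCompletion k)) a b θ (c - c₀)) ∧
      (∀ v ∉ T, Wc (algebraMap k (v.adicCompletion k)) a b θ c) ∧
      ∀ s : k →+* ℝ, Wc s a b θ c := by
  have h20 : (2 : k) ≠ 0 := two_ne_zero
  obtain ⟨S, hS⟩ : ∃ S : Finset (HeightOneSpectrum (𝓞 k)),
      S = T ∪ ((fin_bad h20).toFinset ∪ (fin_bad hD).toFinset) := ⟨_, rfl⟩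
  have hTS : ∀ v ∈ T, v ∈ S := by
    intro v hv
    rw [hS]
    exact Finset.mem_union_left _ hv
  have hS2 : ∀ v, v ∉ S → v.valuation k 2 = 1 := by
    intro v hv
    by_contra h1
    apply hv
    rw [hS]
    exact Finset.mem_union_right _ (Finset.mem_union_left _ ((fin_bad h20).mem_toFinset.2 h1))
  have hSD : ∀ v, v ∉ S → v.valuation k (4 * a ^ 3 + 27 * b ^ 2) = 1 := by
    intro v hv
    by_contra h1
    apply hv
    rw [hS]
    exact Finset.mem_union_right _ (Finset.mem_union_right _ ((fin_bad hD).mem_toFinset.2 h1))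
  have hWv : ∀ v : HeightOneSpectrum (𝓞 k), ∃ W : AddSubgroup (SC L), ∀ c, c ∈ W ↔
      c ∈ HH k L ∧ Wc (algebraMap k (v.adicCompletion k)) a b θ c := by
    intro v
    have _ := H36CY.char_zero v
    refine exists_WW h _ ?_ (H24PD.inf_fin v _ _)
    intro e
    apply hD
    apply (algebraMap k (v.adicCompletion k)).injective
    rw [map_zero, map_add, map_mul, map_mul, map_pow, map_pow, map_ofNat, map_ofNat]
    exact e
  choose Wf hWf using hWv
  have hWs : ∀ s : k →+* ℝ, ∃ W : AddSubgroup (SC L), ∀ c, c ∈ W ↔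
      c ∈ HH k L ∧ Wc s a b θ c := by
    intro s
    refine exists_WW h s ?_ (H24PD.inf_real _ _)
    intro e
    apply hD
    apply s.injective
    rw [map_zero, map_add, map_mul, map_mul, map_pow, map_pow, map_ofNat, map_ofNat]
    exact e
  choose Wr hWr using hWs
  -- the `S`-units of square norm
  obtain ⟨X, hX⟩ : ∃ X : AddSubgroup (SC L),
      X = H24TD.US L {w : HeightOneSpectrum (𝓞 L) | dn k w ∈ S} ⊓ HH k L := ⟨_, rfl⟩
  have hXH : X ≤ HH k L := by
    rw [hX]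
    exact inf_le_right
  have hcX := card_X h S
  rw [← hX] at hcX
  have hX0 : Nat.card X ≠ 0 := by
    intro h0
    rw [h0, zero_mul] at hcX
    exact (pow_ne_zero _ two_ne_zero) hcX.symm
  have hXf : Finite X := Nat.finite_of_card_ne_zero hX0
  -- even valuations outside `S`
  have hev : ∀ c ∈ X, ∀ v, v ∉ S → c ∈ Wf v := by
    intro c hc v hv
    have hcH := hXH hc
    refine good_W hos h v (ha v) (hb v) (hS2 v hv) (hSD v hv) (hWf v) hcH ?_
    intro w hw
    rw [hX] at hc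
    obtain ⟨u, hu, rfl⟩ := (AddSubgroup.mem_inf.1 hc).1
    rw [H24TD.cls_eq, H38T1.eo_sc (Units.ne_zero _)]
    have h1 : w.valuation L ((Additive.toMul u : Lˣ) : L) = 1 := by
      refine hu w ?_
      intro h2
      apply hv
      rw [← hw]
      exact h2
    rw [ord, h1, log_one, neg_zero, Int.cast_zero]
  -- the product of the indices
  obtain ⟨n, hn⟩ : ∃ n, n = Module.finrank ℚ k := ⟨_, rfl⟩
  obtain ⟨t, ht⟩ : ∃ t, t = Nat.card {s : k →+* ℝ // nr k L s = 3} := ⟨_, rfl⟩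
  have hplc := places_count h hD
  rw [← hn, ← ht] at hplc
  have hfinI : ∀ v : HeightOneSpectrum (𝓞 k), (Wf v).relIndex (HH k L) ≠ 0 ∧
      2 * (Wf v).relIndex (HH k L) ≤ 2 ^ nb k L v * qq v :=
    fun v => loc_idx h v (ha v) (hb v) hD (hWf v)
  have hreI : ∀ s : k →+* ℝ, (Wr s).relIndex (HH k L) ≠ 0 ∧
      2 * (Wr s).relIndex (HH k L) ≤ nr k L s + 1 :=
    fun s => real_idx h hD s (hWr s)
  have hP1 : 2 ^ S.card * ∏ v ∈ S, (Wf v).relIndex (HH k L) ≤ 2 ^ (∑ v ∈ S, nb k L v) * 2 ^ n := by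
    have h1 : ∏ v ∈ S, (2 * (Wf v).relIndex (HH k L)) ≤ ∏ v ∈ S, (2 ^ nb k L v * qq v) :=
      Finset.prod_le_prod (fun v _ => Nat.zero_le _) (fun v _ => (hfinI v).2)
    rw [Finset.prod_mul_distrib, Finset.prod_mul_distrib, Finset.prod_const,
      Finset.prod_pow_eq_pow_sum, prod_two S (fun v hv => by
        by_contra h2
        rw [hS2 v h2] at hv
        exact lt_irrefl _ hv), ← hn] at h1
    exact h1
  have hP2 : ∏ s : k →+* ℝ, (Wr s).relIndex (HH k L) ≤ 2 ^ t := by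
    have h1 : ∏ s : k →+* ℝ, (Wr s).relIndex (HH k L) ≤
        ∏ s : k →+* ℝ, (if nr k L s = 3 then 2 else 1) := by
      refine Finset.prod_le_prod (fun s _ => Nat.zero_le _) (fun s _ => ?_)
      have h2 := (hreI s).2
      rcases nr_cases h hD s with h3 | h3
      · rw [h3] at h2
        rw [h3]
        simp only [OfNat.one_ne_ofNat, if_false]
        omega
      · rw [h3] at h2
        rw [h3, if_pos rfl]
        omega
    refine h1.trans (le_of_eq ?_)
    rw [Finset.prod_ite, Finset.prod_const_one, mul_one, Finset.prod_const, ht,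
      Nat.card_eq_fintype_card, Fintype.card_subtype]
  have hprod : (∏ v ∈ S, (Wf v).relIndex (HH k L)) * (∏ s : k →+* ℝ, (Wr s).relIndex (HH k L)) ≤
      Nat.card X := by
    have h1 : Nat.card X * 2 ^ S.card = 2 ^ (∑ v ∈ S, nb k L v) * 2 ^ n * 2 ^ t := by
      have h2 : Nat.card X * 2 ^ S.card *
          2 ^ (InfinitePlace.nrRealPlaces k + InfinitePlace.nrComplexPlaces k) =
          2 ^ (∑ v ∈ S, nb k L v) * 2 ^ n * 2 ^ t *
          2 ^ (InfinitePlace.nrRealPlaces k + InfinitePlace.nrComplexPlaces k) := by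
        rw [mul_assoc, ← pow_add, hcX, hplc, ← pow_add, ← pow_add, ← pow_add]
        congr 1
        omega
      exact Nat.eq_of_mul_eq_mul_right (pow_pos two_pos _) h2
    refine Nat.le_of_mul_le_mul_right (c := 2 ^ S.card) ?_ (pow_pos two_pos _)
    rw [h1]
    calc (∏ v ∈ S, (Wf v).relIndex (HH k L)) * (∏ s : k →+* ℝ, (Wr s).relIndex (HH k L)) *
          2 ^ S.card
        = (2 ^ S.card * ∏ v ∈ S, (Wf v).relIndex (HH k L)) *
          ∏ s : k →+* ℝ, (Wr s).relIndex (HH k L) := by ring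
      _ ≤ 2 ^ (∑ v ∈ S, nb k L v) * 2 ^ n * 2 ^ t := Nat.mul_le_mul hP1 hP2
  -- the classes satisfying all conditions are trivial
  have htriv : ∀ c ∈ X, (∀ v ∈ S, c ∈ Wf v) → (∀ s, c ∈ Wr s) → c = 0 := by
    intro c hc h1 h2
    have hall : ∀ v, c ∈ Wf v := by
      intro v
      by_cases hv : v ∈ S
      · exact h1 v hv
      · exact hev c hc v hv
    obtain ⟨x, hx, rfl⟩ := H38T1.sc_surj c
    obtain ⟨d, hd⟩ : ∃ d : Fin 3 → k, d = fun j => h.co j x := ⟨_, rfl⟩
    have hdx : ev θ d = x := by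
      rw [hd]
      exact (h.eq_co x).symm
    have hd0 : ev θ d ≠ 0 := by
      rw [hdx]
      exact hx
    rw [← hdx] at hall h2 ⊢
    rw [H38T1.sc_eq_zero hd0]
    refine hsel d hd0 ?_ ?_ ?_
    · rw [← mem_HH hd0, hdx]
      exact hXH hc
    · intro v
      exact (Wc_iff _ h hd0).1 ((hWf v _).1 (hall v)).2
    · intro s
      exact (Wc_iff _ h hd0).1 ((hWr s _).1 (h2 s)).2
  -- the lifting
  obtain ⟨c, hc, hcj⟩ := exists_lift (G := SC L) (J := {v // v ∈ S} ⊕ (k →+* ℝ)) (HH k L) X hXH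
    (Sum.elim (fun v => Wf v.1) Wr)
    (by
      rintro (v | s)
      · exact (hfinI v.1).1
      · exact (hreI s).1) hXf
    (by
      rw [Fintype.prod_sum_type]
      simp only [Sum.elim_inl, Sum.elim_inr]
      rw [Finset.prod_coe_sort S (fun v => (Wf v).relIndex (HH k L))]
      exact hprod)
    (fun c hc hj => htriv c hc (fun v hv => hj (Sum.inl ⟨v, hv⟩)) (fun s => hj (Sum.inr s)))
    (Sum.elim (fun v => if v.1 ∈ T then c₀ else 0) (fun _ => 0))
    (by
      rintro (v | s)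
      · show (if v.1 ∈ T then c₀ else 0) ∈ HH k L
        split_ifs
        · exact hc₀
        · exact (HH k L).zero_mem
      · exact (HH k L).zero_mem)
  refine ⟨c, hXH hc, ?_, ?_, ?_⟩
  · intro v hv
    have h1 : c - (if v ∈ T then c₀ else 0) ∈ Wf v := hcj (Sum.inl ⟨v, hTS v hv⟩)
    rw [if_pos hv] at h1
    exact ((hWf v _).1 h1).2
  · intro v hv
    by_cases hvS : v ∈ S
    · have h1 : c - (if v ∈ T then c₀ else 0) ∈ Wf v := hcj (Sum.inl ⟨v, hvS⟩)
      rw [if_neg hv, sub_zero] at h1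
      exact ((hWf v _).1 h1).2
    · exact ((hWf v _).1 (hev c hc v hvS)).2
  · intro s
    have h1 : c - 0 ∈ Wr s := hcj (Sum.inr s)
    rw [sub_zero] at h1
    exact ((hWr s _).1 h1).2

end H30ZO

end S_H30_ZO_Nb

section S_H30_ZO_Nc

set_option autoImplicit false
set_option linter.unusedSectionVars false
open scoped Classical

open WithZero NumberField IsDedekindDomain H38RT
open H38T1 (SC sc scu rep eo la si Pri OddP tp unif)
open H76PP H73P2

namespace H30ZO

theorem Nc_two {L : Type} [Field L] (c : SC L) : c + c = 0 :=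
  (two_nsmul c).symm.trans (H38T1.SC.two_smul c)

theorem Nc_comp {k k' F : Type} [Field k] [Field k'] [Field F] [Algebra k k'] (j : k' →+* F)
    {a b : k} {d : Fin 3 → k} (h : LC (j.comp (algebraMap k k')) a b d) :
    LC j (algebraMap k k' a) (algebraMap k k' b) (fun i => algebraMap k k' (d i)) := by
  unfold LC at h ⊢
  simp only [RingHom.comp_apply] at h
  exact h

theorem Nc_square {k L k' L' : Type} [Field k] [NumberField k] [Field L]
    [NumberField L] [Field k'] [NumberField k'] [Field L'] [NumberField L'] [Algebra k L]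
    [Algebra k k'] [Algebra L L'] [Algebra k' L'] [Algebra k L'] [IsScalarTower k L L']
    [IsScalarTower k k' L'] {a b : k} {θ : L} {θ' : L'} (hQ : QS k L k' L' a b θ θ')
    {y : L} (hy : y ≠ 0) (hn : IsSquare (Algebra.norm k y)) (h : IsSquare (algebraMap L L' y)) :
    IsSquare y := by
  obtain ⟨D, δ, hδ, hδk⟩ := exists_gen0 hQ.two
  have hodd : Odd (Module.finrank k L) := by
    rw [hQ.cub.finrank]
    exact ⟨1, rfl⟩
  have hfin : FiniteDimensional k L :=
    Module.finite_of_finrank_pos (by rw [hQ.cub.finrank]; norm_num)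
  have hδL := Pool.Agent.H10.Q.notMem_up (L := L) (L2 := L') hodd hδ hδk
  have hD2 : (algebraMap k' L' δ) ^ 2 = algebraMap L L' (algebraMap k L D) := by
    rw [← map_pow, hδ, ← IsScalarTower.algebraMap_apply k L L',
      ← IsScalarTower.algebraMap_apply k k' L']
  rcases Pool.Agent.H10.Q.sq_of_sq hQ.fin2 hD2 hδL two_ne_zero h with h1 | h1
  · exact h1
  · exfalso
    obtain ⟨c, hc⟩ := h1
    obtain ⟨m, hm⟩ := hn
    have hny : Algebra.norm k y ≠ 0 := Algebra.norm_ne_zero_iff.2 hy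
    have hm0 : m ≠ 0 := by
      rintro rfl
      rw [mul_zero] at hm
      exact hny hm
    have hD0 : D ≠ 0 := by
      rintro rfl
      rw [map_zero] at hδ
      exact hδk 0 (by rw [map_zero]; exact (pow_eq_zero_iff two_ne_zero |>.mp hδ).symm)
    have h2 := congrArg (Algebra.norm k) hc
    rw [map_mul, map_mul, Algebra.norm_algebraMap, hQ.cub.finrank, hm] at h2
    have h3 : (Algebra.norm k c / (m * D)) ^ 2 = D := by
      rw [div_pow, div_eq_iff (pow_ne_zero 2 (mul_ne_zero hm0 hD0))]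
      linear_combination -h2
    have h4 : (algebraMap k k' (Algebra.norm k c / (m * D))) ^ 2 = δ ^ 2 := by
      rw [← map_pow, h3, hδ]
    rcases sq_eq_sq_iff_eq_or_eq_neg.mp h4 with h5 | h5
    · exact hδk _ h5
    · exact hδk (-(Algebra.norm k c / (m * D))) (by rw [map_neg, h5, neg_neg])

theorem desc_quad (hos : H73P2.OrdSub) {k L k' L' : Type} [Field k] [NumberField k] [Field L]
    [NumberField L] [Field k'] [NumberField k'] [Field L'] [NumberField L'] [Algebra k L]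
    [Algebra k k'] [Algebra L L'] [Algebra k' L'] [Algebra k L'] [IsScalarTower k L L']
    [IsScalarTower k k' L'] {a b : k} {θ : L} {θ' : L'} (hQ : QS k L k' L' a b θ θ')
    (ha : ∀ v : HeightOneSpectrum (𝓞 k), v.valuation k a ≤ 1)
    (hb : ∀ v : HeightOneSpectrum (𝓞 k), v.valuation k b ≤ 1)
    (hD : 4 * a ^ 3 + 27 * b ^ 2 ≠ 0) (hsel : SelTriv k L a b θ)
    (hsel' : SelTriv k' L' (algebraMap k k' a) (algebraMap k k' b) θ')
    (T : Finset (HeightOneSpectrum (𝓞 k))) {d : Fin 3 → k} (hd : ev θ d ≠ 0)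
    (hn : IsSquare (Algebra.norm k (ev θ d)))
    (hloc : ∀ u' : HeightOneSpectrum (𝓞 k'), dn k u' ∈ T →
      LC (algebraMap k' (u'.adicCompletion k')) (algebraMap k k' a) (algebraMap k k' b)
        (fun i => algebraMap k k' (d i))) :
    ∀ v ∈ T, LC (algebraMap k (v.adicCompletion k)) a b d := by
  have hc₀ : sc (ev θ d) ∈ HH k L := (mem_HH hd).2 hn
  obtain ⟨c, hcH, hT, hnT, hre⟩ := exists_class hos hQ.cub ha hb hD hsel T hc₀
  obtain ⟨x, hx0, hxc⟩ := H38T1.sc_surj c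
  obtain ⟨e, hex⟩ : ∃ e : Fin 3 → k, ev θ e = x :=
    ⟨fun i => hQ.cub.co i x, (hQ.cub.eq_co x).symm⟩
  have he0 : ev θ e ≠ 0 := by
    rw [hex]
    exact hx0
  have hec : sc (ev θ e) = c := by
    rw [hex]
    exact hxc
  have hne : IsSquare (Algebra.norm k (ev θ e)) := (mem_HH he0).1 (by rw [hec]; exact hcH)
  have hed0 : ev θ (m3 a b e d) ≠ 0 := by
    rw [← Te_ev_mul hQ.cub]
    exact mul_ne_zero he0 hd
  have hprod : ∀ v ∈ T, LC (algebraMap k (v.adicCompletion k)) a b (m3 a b e d) := by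
    intro v hv
    have h1 := hT v hv
    have h2 : c - sc (ev θ d) = sc (ev θ (m3 a b e d)) := by
      rw [← Te_ev_mul hQ.cub, H38T1.sc_mul he0 hd, hec, sub_eq_iff_eq_add, add_assoc, Nc_two,
        add_zero]
    rw [h2] at h1
    exact (Wc_iff _ hQ.cub hed0).1 h1
  have hco : algebraMap L L' (ev θ e) = ev θ' (fun i => algebraMap k k' (e i)) := hQ.coord e
  have hcd : algebraMap L L' (ev θ d) = ev θ' (fun i => algebraMap k k' (d i)) := hQ.coord d
  have hced : algebraMap L L' (ev θ (m3 a b e d)) =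
      ev θ' (fun i => algebraMap k k' (m3 a b e d i)) := hQ.coord _
  have he'0 : ev θ' (fun i => algebraMap k k' (e i)) ≠ 0 := by
    rw [← hco]
    exact (map_ne_zero _).2 he0
  have hd'0 : ev θ' (fun i => algebraMap k k' (d i)) ≠ 0 := by
    rw [← hcd]
    exact (map_ne_zero _).2 hd
  have hed'0 : ev θ' (fun i => algebraMap k k' (m3 a b e d i)) ≠ 0 := by
    rw [← hced]
    exact (map_ne_zero _).2 hed0
  have hsq : IsSquare (ev θ' (fun i => algebraMap k k' (e i))) := by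
    refine hsel' _ he'0 ?_ ?_ ?_
    · rw [Te_norm hQ.cub', Te_nf_map, ← Te_norm hQ.cub]
      exact hne.map _
    · intro u'
      have hov := H36CY.over_dn (K := k) u'
      by_cases hu : dn k u' ∈ T
      · have h1 : LC (algebraMap k' (u'.adicCompletion k')) (algebraMap k k' a)
            (algebraMap k k' b) (fun i => algebraMap k k' (m3 a b e d i)) :=
          Nc_comp _ (H73CY.LC_map hov.map (fun x => hov.map_algebraMap x) (hprod _ hu))
        have h2 := hloc u' hu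
        have hc : CharZero (u'.adicCompletion k') :=
          charZero_of_injective_algebraMap (algebraMap k' (u'.adicCompletion k')).injective
        have hdisc : 4 * algebraMap k' (u'.adicCompletion k') (algebraMap k k' a) ^ 3 +
            27 * algebraMap k' (u'.adicCompletion k') (algebraMap k k' b) ^ 2 ≠ 0 := by
          have h3 := (map_ne_zero ((algebraMap k' (u'.adicCompletion k')).comp
            (algebraMap k k'))).2 hD
          simpa only [map_add, map_mul, map_pow, map_ofNat, RingHom.comp_apply] using h3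
        have h3 := LC_mul (algebraMap k' (u'.adicCompletion k')) hdisc
          (H24PD.inf_fin u' _ _) h1 h2
        have hm : ev θ' (m3 (algebraMap k k' a) (algebraMap k k' b)
            (fun i => algebraMap k k' (m3 a b e d i)) (fun i => algebraMap k k' (d i))) =
            ev θ' (fun i => algebraMap k k' (e i)) * ev θ' (fun i => algebraMap k k' (d i)) *
              ev θ' (fun i => algebraMap k k' (d i)) := by
          rw [← Te_ev_mul hQ.cub', ← hced, ← Te_ev_mul hQ.cub, map_mul, hco, hcd]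
        have h4 := (Wc_iff (algebraMap k' (u'.adicCompletion k')) hQ.cub' (by
          rw [hm]
          exact mul_ne_zero (mul_ne_zero he'0 hd'0) hd'0)).2 h3
        rw [hm, H38T1.sc_mul (mul_ne_zero he'0 hd'0) hd'0, H38T1.sc_mul he'0 hd'0, add_assoc,
          Nc_two, add_zero] at h4
        exact (Wc_iff _ hQ.cub' he'0).1 h4
      · have h1 := hnT _ hu
        rw [← hec] at h1
        exact Nc_comp _ (H73CY.LC_map hov.map (fun x => hov.map_algebraMap x)
          ((Wc_iff _ hQ.cub he0).1 h1))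
    · intro s'
      have h1 := hre (s'.comp (algebraMap k k'))
      rw [← hec] at h1
      exact Nc_comp _ ((Wc_iff _ hQ.cub he0).1 h1)
  have hsqe : IsSquare (ev θ e) := Nc_square hQ he0 hne (by rw [hco]; exact hsq)
  have hc0 : c = 0 := by
    rw [← hec]
    exact (H38T1.sc_eq_zero he0).2 hsqe
  intro v hv
  have h1 := hT v hv
  rw [hc0, zero_sub, neg_eq_of_add_eq_zero_left (Nc_two (sc (ev θ d)))] at h1
  exact (Wc_iff _ hQ.cub hd).1 h1

end H30ZO

end S_H30_ZO_Nc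

section S_H30_ZO_Zl

set_option autoImplicit false
set_option linter.unusedSectionVars false
open scoped Classical

open WithZero NumberField IsDedekindDomain H38RT WeierstrassCurve
open H38T1 (SC sc scu rep eo la si Pri OddP tp unif)
open H76PP H73P2 H36CY

namespace H30ZO

/-- Transport of the triviality of the Selmer group along an isomorphism. -/
theorem selTriv_base {K k : Type} [Field K] [NumberField K] [Field k] [NumberField k] [Algebra K k]
    (hs : Function.Surjective (algebraMap K k)) {a b : K}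
    (hT : ∀ (L : Type) [Field L] [NumberField L] [Algebra K L] (θ : L), Cub K L a b θ →
      SelTriv K L a b θ)
    (L : Type) [Field L] [NumberField L] [Algebra k L] (θ : L)
    (h : Cub k L (algebraMap K k a) (algebraMap K k b) θ) :
    SelTriv k L (algebraMap K k a) (algebraMap K k b) θ := by
  have hi : Function.Injective (algebraMap K k) := (algebraMap K k).injective
  letI : Algebra K L := ((algebraMap k L).comp (algebraMap K k)).toAlgebra
  have hal : ∀ x : K, algebraMap K L x = algebraMap k L (algebraMap K k x) := fun _ => rfl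
  have hcub : Cub K L a b θ := by
    refine ⟨?_, ?_, ?_⟩
    · rw [hal, hal]
      exact h.root
    · intro c₀ c₁ c₂ hc
      rw [hal, hal, hal] at hc
      obtain ⟨e0, e1, e2⟩ := h.li _ _ _ hc
      exact ⟨(map_eq_zero _).1 e0, (map_eq_zero _).1 e1, (map_eq_zero _).1 e2⟩
    · intro x
      obtain ⟨c₀, c₁, c₂, hx⟩ := h.sp x
      obtain ⟨d₀, rfl⟩ := hs c₀
      obtain ⟨d₁, rfl⟩ := hs c₁
      obtain ⟨d₂, rfl⟩ := hs c₂
      exact ⟨d₀, d₁, d₂, hx⟩
  intro d hd hn hfin hre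
  choose d₀ hd₀ using fun i => hs (d i)
  obtain rfl : d = fun i => algebraMap K k (d₀ i) := funext fun i => (hd₀ i).symm
  have hev : ev θ d₀ = ev θ (fun i => algebraMap K k (d₀ i)) := rfl
  let e : K ≃+* k := RingEquiv.ofBijective (algebraMap K k) ⟨hi, hs⟩
  have bsLC : ∀ {F : Type} [Field F] (j : K →+* F) (j' : k →+* F)
      (_ : ∀ x : K, j' (algebraMap K k x) = j x)
      (_ : LC j' (algebraMap K k a) (algebraMap K k b) (fun i => algebraMap K k (d₀ i))),
      LC j a b d₀ := by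
    intro F _ j j' hj h
    obtain ⟨x, y, z, hy, h1, h2⟩ := h
    simp only [hj] at h1 h2
    exact ⟨x, y, z, hy, h1, h2⟩
  rw [← hev]
  refine hT L θ hcub d₀ ?_ ?_ ?_ ?_
  · rw [hev]
    exact hd
  · rw [Te_norm hcub]
    rw [Te_norm h, Te_nf_map] at hn
    obtain ⟨r, hr⟩ := hn
    obtain ⟨r₀, rfl⟩ := hs r
    refine ⟨r₀, hi ?_⟩
    rw [hr, map_mul]
  · intro v
    let j' : k →+* v.adicCompletion K :=
      (algebraMap K (v.adicCompletion K)).comp (e.symm : k →+* K)
    have hj' : ∀ x : K, j' (algebraMap K k x) = algebraMap K (v.adicCompletion K) x := by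
      intro x
      change algebraMap K (v.adicCompletion K) (e.symm (e x)) = algebraMap K (v.adicCompletion K) x
      rw [RingEquiv.symm_apply_apply]
    obtain ⟨u, φ, hφ⟩ := exists_map v j' hj'
    exact bsLC _ j' hj' (H73CY.LC_map φ hφ (hfin u))
  · intro s
    let s' : k →+* ℝ := s.comp (e.symm : k →+* K)
    have hs' : ∀ x : K, s' (algebraMap K k x) = s x := by
      intro x
      change s (e.symm (e x)) = s x
      rw [RingEquiv.symm_apply_apply]
    exact bsLC s s' hs' (hre s')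

/-- Triviality of the Selmer group from the finite group of points without point of order two and the
Tate-Shafarevich group, over an isomorphic field. -/
theorem selTriv_iso {M k : Type} [Field M] [NumberField M] [Field k] [NumberField k] (e : M ≃+* k)
    {a b : M}
    (hfin : Finite (⟨0, 0, 0, a, b⟩ : WeierstrassCurve M).toAffine.Point)
    (ht : ∀ P : (⟨0, 0, 0, a, b⟩ : WeierstrassCurve M).toAffine.Point, P + P = 0 → P = 0)
    (hS : Pool.Agent.H10.Sha2Trivial M (⟨0, 0, 0, a, b⟩ : WeierstrassCurve M)) {a' b' : k}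
    (ha : e a = a') (hb : e b = b')
    (L : Type) [Field L] [NumberField L] [Algebra k L] (θ : L) (h : Cub k L a' b' θ) :
    SelTriv k L a' b' θ := by
  subst ha hb
  letI : Algebra M k := (e : M →+* k).toAlgebra
  exact selTriv_base (K := M) (k := k) e.surjective
    (fun L _ _ _ θ hL => selTriv_of_sha hL hfin ht hS) L θ h

/-- The quadratic descent at finitely many places. -/
theorem desc_of_sel (hos : OrdSub) {k k' : Type} [Field k] [NumberField k] [Field k']
    [NumberField k'] [Algebra k k'] (two : Module.finrank k k' = 2) {a b : k}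
    (ha : ∀ v : HeightOneSpectrum (𝓞 k), v.valuation k a ≤ 1)
    (hb : ∀ v : HeightOneSpectrum (𝓞 k), v.valuation k b ≤ 1)
    (hD : 4 * a ^ 3 + 27 * b ^ 2 ≠ 0)
    (hir : ∀ t : k', t ^ 3 + algebraMap k k' a * t + algebraMap k k' b ≠ 0)
    (hT : ∀ (L : Type) [Field L] [NumberField L] [Algebra k L] (θ : L), Cub k L a b θ →
      SelTriv k L a b θ)
    (hT' : ∀ (L : Type) [Field L] [NumberField L] [Algebra k' L] (θ : L),
      Cub k' L (algebraMap k k' a) (algebraMap k k' b) θ →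
      SelTriv k' L (algebraMap k k' a) (algebraMap k k' b) θ)
    (T : Finset (HeightOneSpectrum (𝓞 k))) {d : Fin 3 → k} (hd : Te_nf a b d ≠ 0)
    (hn : IsSquare (Te_nf a b d))
    (hloc : ∀ u' : HeightOneSpectrum (𝓞 k'), dn k u' ∈ T →
      LC (algebraMap k' (u'.adicCompletion k')) (algebraMap k k' a) (algebraMap k k' b)
        (fun i => algebraMap k k' (d i))) :
    ∀ v ∈ T, LC (algebraMap k (v.adicCompletion k)) a b d := by
  obtain ⟨L', _, _, _, θ', h'⟩ := H24PD.exists_cub (K := k') hir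
  let _ : Algebra k L' := ((algebraMap k' L').comp (algebraMap k k')).toAlgebra
  have _ : IsScalarTower k k' L' := IsScalarTower.of_algebraMap_eq fun _ => rfl
  obtain ⟨L, _, _, _, _, _, θ, hc, hθ⟩ := exists_sub h'
  have Q : QS k L k' L' a b θ θ' := ⟨two, hc, h', hθ⟩
  refine desc_quad hos Q ha hb hD (hT L θ hc) (hT' L' θ' h') T ?_ ?_ hloc
  · rw [← Te_norm hc d, Ne, Algebra.norm_eq_zero_iff] at hd
    exact hd
  · rw [Te_norm hc d]
    exact hn

theorem Tv.sel {M k : Type} [Field M] [NumberField M] [Field k] [NumberField k] (e : M ≃+* k)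
    {a b : M} (h : Tv M a b) {a' b' : k} (ha : e a = a') (hb : e b = b')
    (L : Type) [Field L] [NumberField L] [Algebra k L] (θ : L) (hL : Cub k L a' b' θ) :
    SelTriv k L a' b' θ :=
  selTriv_iso e h.1 h.2.1 h.2.2 ha hb L θ hL

/-- The trivial two-Selmer group over the subfields gives the descent of the local conditions at
every place. -/
theorem zo_loc {K F : Type} [Field K] [NumberField K] [Field F] [Algebra K F] {a b : 𝓞 K}
    (hD : 4 * a ^ 3 + 27 * b ^ 2 ≠ 0)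
    (h : ∀ (M : IntermediateField K F) [NumberField M], Tv M (algebraMap K M a) (algebraMap K M b))
    (N : IntermediateField K F) [NumberField N] (v : HeightOneSpectrum (𝓞 K)) :
    DescAt K N v (a : K) (b : K) := by
  intro k k' _ _ _ _ _ _ _ _ _ _ _ _ _ two d hd hn hloc u hu
  have hint : ∀ (x : 𝓞 K) (m : Type) [Field m] [NumberField m] [Algebra K m]
      (w : HeightOneSpectrum (𝓞 m)), w.valuation m (algebraMap K m x) ≤ 1 := by
    intro x m _ _ _ w
    have e1 : algebraMap K m x = algebraMap (𝓞 m) m (algebraMap (𝓞 K) (𝓞 m) x) := rfl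
    rw [e1]
    exact w.valuation_le_one _
  have hDK : (4 * (a : K) ^ 3 + 27 * (b : K) ^ 2) ≠ 0 := by
    intro h1
    apply hD
    apply FaithfulSMul.algebraMap_injective (𝓞 K) K
    rw [map_add, map_mul, map_mul, map_pow, map_pow, map_ofNat, map_ofNat, map_zero]
    exact h1
  have hab : ∀ x : K, algebraMap K k' x = algebraMap k k' (algebraMap K k x) :=
    IsScalarTower.algebraMap_apply K k k'
  have hDk : ∀ (m : Type) [Field m] [Algebra K m],
      4 * (algebraMap K m a) ^ 3 + 27 * (algebraMap K m b) ^ 2 ≠ 0 := by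
    intro m _ _
    have h1 := (map_ne_zero (algebraMap K m)).2 hDK
    simpa only [map_add, map_mul, map_pow, map_ofNat] using h1
  have key : ∀ (m : Type) [Field m] [NumberField m] [Algebra K m] (f : m →ₐ[K] F),
      (∀ t : m, t ^ 3 + algebraMap K m a * t + algebraMap K m b ≠ 0) ∧
      ∀ (L : Type) [Field L] [NumberField L] [Algebra m L] (θ : L),
        Cub m L (algebraMap K m a) (algebraMap K m b) θ →
        SelTriv m L (algebraMap K m a) (algebraMap K m b) θ := by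
    intro m _ _ _ f
    let M : IntermediateField K F := f.fieldRange
    let e : m ≃ₐ[K] M := AlgEquiv.ofInjectiveField f
    have _ : NumberField M := NumberField.of_ringEquiv _ _ e.toRingEquiv
    have hM := h M
    refine ⟨fun t ht => ?_, fun L _ _ _ θ hL => ?_⟩
    · refine hM.noroot (hDk M) (e t) ?_
      have h4 := congrArg e ht
      rw [map_add, map_add, map_mul, map_pow, e.commutes, e.commutes, map_zero] at h4
      exact h4
    · exact hM.sel (M := M) (k := m) e.symm.toRingEquiv (e.symm.commutes _)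
        (e.symm.commutes _) L θ hL
  let fN : N →ₐ[K] F := N.val
  obtain ⟨-, hT⟩ := key k (fN.comp (IsScalarTower.toAlgHom K k N))
  obtain ⟨hir, hT'⟩ := key k' (fN.comp (IsScalarTower.toAlgHom K k' N))
  simp only [hab] at hir hT' hloc
  set T : Finset (HeightOneSpectrum (𝓞 k)) := (fin_above (K := K) (L := k) v).toFinset with hTd
  have hmT : ∀ w : HeightOneSpectrum (𝓞 k), w ∈ T ↔ dn K w = v := by
    intro w
    rw [hTd, Set.Finite.mem_toFinset]
    exact Iff.rfl
  refine desc_of_sel H36MT.ordSub two (hint a k) (hint b k) (hDk k) hir hT hT' T hd hn ?_ u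
    ((hmT u).2 hu)
  intro u' hu'
  refine hloc u' ?_
  rw [← dn_dn (k := k) u']
  exact (hmT _).1 hu'

end H30ZO

end S_H30_ZO_Zl

section S_H30_ZO_Zo

set_option autoImplicit false
set_option linter.unusedSectionVars false
open scoped Classical

open WithZero NumberField IsDedekindDomain H38RT H76PP H36MT H36CY
open H30CY (two_fin)

namespace H30ZO

/-- The conclusion: a positive proportion of the pairs in the residue class of `(A₀, B₀)` modulo `m`. -/
def PosProp (K F : Type) [Field K] [NumberField K] [Field F] [Algebra K F] (m : Ideal (𝓞 K))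
    (A₀ B₀ : 𝓞 K) : Prop :=
  ∃ (c X₀ : ℝ), 0 < c ∧ ∀ X : ℝ, X₀ ≤ X → ∃ G : Finset (𝓞 K × 𝓞 K),
      (∀ p ∈ G, p ∈ Bx K X ∧ 4 * p.1 ^ 3 + 27 * p.2 ^ 2 ≠ 0 ∧
        (p.1 - A₀ ∈ m ∧ p.2 - B₀ ∈ m) ∧
        Finite (⟨0, 0, 0, algebraMap K F p.1, algebraMap K F p.2⟩ :
          WeierstrassCurve F).toAffine.Point ∧ PF K F p) ∧
      (∀ p ∈ G, ∀ q ∈ G, p.1 ^ 3 * q.2 ^ 2 = q.1 ^ 3 * p.2 ^ 2 → p = q) ∧
      c * ((Bx K X).ncard : ℝ) ≤ (G.card : ℝ)

/-- The local condition at the prime `v` of `K` for the extension `F / K`. -/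
def LocOK (K F : Type) [Field K] [NumberField K] [Field F] [Algebra K F]
    (v : HeightOneSpectrum (𝓞 K)) : Prop :=
  ∃ a b : 𝓞 K, dsc a b ≠ 0 ∧ ∀ (N : IntermediateField K F) [NumberField N], IsGalois K N →
    DescAt K N v (a : K) (b : K)

/-- The admissible extensions. -/
structure AdmF (K F : Type) [Field K] [NumberField K] [Field F] [Algebra K F] : Prop where
  gal : IsGalois K F
  deg : ∀ (N : IntermediateField K F) [NumberField N], IsGalois K N →
      ∃ r : ℕ, Module.finrank K N = 2 ^ r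
  ram : {v : HeightOneSpectrum (𝓞 K) | ∃ (N : IntermediateField K F) (_ : NumberField N)
      (V : HeightOneSpectrum (𝓞 N)), dn K V = v ∧ H73P2.Ram K V}.Finite
  spl : FiniteDimensional K F ∨
      {v : HeightOneSpectrum (𝓞 K) | ∃ ι : F →+* v.adicCompletion K, ∀ x : K,
      ι (algebraMap K F x) = algebraMap K (v.adicCompletion K) x}.Infinite

theorem AdmF.spl_inf {K F : Type} [Field K] [NumberField K] [Field F] [Algebra K F]
    (h : AdmF K F) :
    {v : HeightOneSpectrum (𝓞 K) | ∃ ι : F →+* v.adicCompletion K, ∀ x : K,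
      ι (algebraMap K F x) = algebraMap K (v.adicCompletion K) x}.Infinite := by
  have _ := h.gal
  rcases h.spl with h | h
  · have _ : NumberField F := NumberField.of_module_finite K F
    exact H30PN.split_inf K F
  · exact h

/-- The zero-one law: one curve in the residue class gives a positive proportion. -/
theorem pos_of_one {K F : Type} [Field K] [NumberField K] [Field F] [Algebra K F] (h : AdmF K F)
    {m : Ideal (𝓞 K)} (hm : m ≠ ⊥) {A₀ B₀ : 𝓞 K} (hD : 4 * A₀ ^ 3 + 27 * B₀ ^ 2 ≠ 0)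
    (hP : PF K F (A₀, B₀)) : PosProp K F m A₀ B₀ := by
  have _ := h.gal
  exact zero_one K F h.deg h.ram h.spl_inf hm hD fun v N _ _ => zo_loc hD hP N v

/-- A curve with the required property gives the local conditions. -/
theorem loc_of_one {K F : Type} [Field K] [NumberField K] [Field F] [Algebra K F]
    {A₀ B₀ : 𝓞 K} (hD : 4 * A₀ ^ 3 + 27 * B₀ ^ 2 ≠ 0)
    (hP : PF K F (A₀, B₀)) (v : HeightOneSpectrum (𝓞 K)) : LocOK K F v :=
  ⟨A₀, B₀, hD, fun N _ _ => zo_loc hD hP N v⟩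

/-- The local conditions above two give a positive proportion. -/
theorem pos_of_loc {K F : Type} [Field K] [NumberField K] [Field F] [Algebra K F] (h : AdmF K F)
    (hl : ∀ v : HeightOneSpectrum (𝓞 K), (2 : 𝓞 K) ∈ v.asIdeal → LocOK K F v) :
    PosProp K F ⊤ 0 0 := by
  have _ := h.gal
  obtain ⟨S, hS⟩ := two_fin K
  have hl' : ∀ v : HeightOneSpectrum (𝓞 K), ∃ (e : ℕ) (A₀ B₀ : 𝓞 K), v ∈ S →
      dsc A₀ B₀ ∉ v.asIdeal ^ e ∧ ∀ A B : 𝓞 K, A - A₀ ∈ v.asIdeal ^ e →
        B - B₀ ∈ v.asIdeal ^ e → ∀ (N : IntermediateField K F) [NumberField N], IsGalois K N →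
          DescAt K N v (A : K) (B : K) := by
    intro v
    by_cases hv : (2 : 𝓞 K) ∈ v.asIdeal
    · obtain ⟨a, b, hd, hab⟩ := hl v hv
      obtain ⟨e, he, h1⟩ := H36LG.descAt_open v hd
      exact ⟨e, a, b, fun _ => ⟨he, fun A B hA hB N _ hN => h1 A B hA hB N (hab N hN)⟩⟩
    · exact ⟨0, 0, 0, fun h => absurd ((hS v).1 h) hv⟩
  choose e A₀ B₀ hcl using hl'
  obtain ⟨c, X₀, hc, h1⟩ := main_inf K F h.deg h.ram h.spl_inf (fun v hv => (hS v).2 hv) e A₀ B₀
    (fun v hv => (hcl v hv).1) (fun v hv => (hcl v hv).2)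
  refine ⟨c, X₀, hc, fun X hX => ?_⟩
  obtain ⟨G, h2, h3, h4⟩ := h1 X hX
  exact ⟨G, fun p hp => ⟨(h2 p hp).1, (h2 p hp).2.1, ⟨trivial, trivial⟩, (h2 p hp).2.2.2.1,
    (h2 p hp).2.2.2.2⟩, h3, h4⟩

/-- Descent for a smaller field. -/
theorem descAt_mono {K N N' : Type} [Field K] [NumberField K] [Field N] [NumberField N] [Field N']
    [NumberField N'] [Algebra K N] [Algebra K N'] (f : N →ₐ[K] N')
    {v : HeightOneSpectrum (𝓞 K)} {a b : K} (h : DescAt K N' v a b) : DescAt K N v a b := by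
  intro k k' _ _ _ _ _ _ _ _ _ _ _ _ _ two d hd hn hloc u hu
  let _ : Algebra k N' := ((f : N →+* N').comp (algebraMap k N)).toAlgebra
  let _ : Algebra k' N' := ((f : N →+* N').comp (algebraMap k' N)).toAlgebra
  have _ : IsScalarTower K k N' := IsScalarTower.of_algebraMap_eq fun x => by
    change algebraMap K N' x = f (algebraMap k N (algebraMap K k x))
    rw [← IsScalarTower.algebraMap_apply, f.commutes]
  have _ : IsScalarTower K k' N' := IsScalarTower.of_algebraMap_eq fun x => by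
    change algebraMap K N' x = f (algebraMap k' N (algebraMap K k' x))
    rw [← IsScalarTower.algebraMap_apply, f.commutes]
  have _ : IsScalarTower k k' N' := IsScalarTower.of_algebraMap_eq fun x => by
    change f (algebraMap k N x) = f (algebraMap k' N (algebraMap k k' x))
    rw [← IsScalarTower.algebraMap_apply]
  exact h k k' two d hd hn hloc u hu

/-- Cyclic decomposition groups give the local condition. -/
theorem loc_of_cyclic {K F : Type} [Field K] [NumberField K] [Field F] [Algebra K F] [IsGalois K F]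
    (hdeg : ∀ (N : IntermediateField K F) [NumberField N], IsGalois K N →
      ∃ r : ℕ, Module.finrank K N = 2 ^ r) {v : HeightOneSpectrum (𝓞 K)}
    (hv : (2 : 𝓞 K) ∈ v.asIdeal)
    (hdec : ∀ (N : IntermediateField K F) [NumberField N], IsGalois K N →
      ∀ W : HeightOneSpectrum (𝓞 N), dn K W = v → ∃ τ : N ≃ₐ[K] N, ∀ g : N ≃ₐ[K] N,
        Stb K W g ↔ g ∈ Subgroup.zpowers τ) : LocOK K F v := by
  obtain ⟨e, A₀, B₀, N₀, h1, h2, h3⟩ := H30CY.loc_data hdeg hv hdec
  refine ⟨A₀, B₀, fun h0 => h2 (by rw [h0]; exact Ideal.zero_mem _), fun N _ hN => ?_⟩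
  have hz : ∀ x : 𝓞 K, x - x ∈ v.asIdeal ^ e := fun x => by
    rw [sub_self]
    exact Ideal.zero_mem _
  obtain ⟨N', hnf, hg, hle, hle'⟩ := H30CY.exists_big N ({0} : Finset ℕ) (fun _ => N₀)
    fun _ _ => h1
  exact descAt_mono (IntermediateField.inclusion hle)
    (h3 A₀ B₀ (hz _) (hz _) N' hg (hle' 0 (Finset.mem_singleton_self 0)))

end H30ZO

end S_H30_ZO_Zo

section S_H36_ZO_Fin

set_option autoImplicit false
set_option linter.unusedSectionVars false
open scoped Classical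

open WeierstrassCurve NumberField IsDedekindDomain Pool.Agent.H10 H76PP H36CY

namespace H36ZO

/-- The pair `(A, B)` defines an elliptic curve which has finitely many points, no point of order two
and trivial two-primary part of the Tate-Shafarevich group over all number fields between `K` and
`F`. -/
def Gd (K F : Type) [Field K] [NumberField K] [Field F] [Algebra K F] (p : 𝓞 K × 𝓞 K) : Prop :=
  4 * p.1 ^ 3 + 27 * p.2 ^ 2 ≠ 0 ∧ ∀ (M : IntermediateField K F) [NumberField M],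
    H30ZO.Tv M (algebraMap K M p.1) (algebraMap K M p.2)

/-- A positive proportion of the pairs satisfies `S`. -/
def PosP (K F : Type) [Field K] [NumberField K] [Field F] [Algebra K F] (S : 𝓞 K × 𝓞 K → Prop) :
    Prop :=
  ∃ (c X₀ : ℝ), 0 < c ∧ ∀ X : ℝ, X₀ ≤ X → ∃ G : Finset (𝓞 K × 𝓞 K),
    (∀ p ∈ G, p ∈ Bx K X ∧ S p ∧ Gd K F p ∧
      Finite (⟨0, 0, 0, algebraMap K F p.1, algebraMap K F p.2⟩ :
        WeierstrassCurve F).toAffine.Point) ∧
    (∀ p ∈ G, ∀ q ∈ G, p.1 ^ 3 * q.2 ^ 2 = q.1 ^ 3 * p.2 ^ 2 → p = q) ∧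
    c * ((Bx K X).ncard : ℝ) ≤ (G.card : ℝ)

/-- The statement on a finite set of primes with prescribed residue classes. -/
def MainSig (K F : Type) [Field K] [NumberField K] [Field F] [Algebra K F] : Prop :=
  ∀ (Sg : Finset (HeightOneSpectrum (𝓞 K))) (e : HeightOneSpectrum (𝓞 K) → ℕ)
    (A₀ B₀ : HeightOneSpectrum (𝓞 K) → 𝓞 K),
    (∀ v : HeightOneSpectrum (𝓞 K), (2 : 𝓞 K) ∈ v.asIdeal → v ∈ Sg) →
    (∀ v ∈ Sg, dsc (A₀ v) (B₀ v) ∉ v.asIdeal ^ e v ∧
      ∀ A B : 𝓞 K, A - A₀ v ∈ v.asIdeal ^ e v → B - B₀ v ∈ v.asIdeal ^ e v →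
        ∀ (N : IntermediateField K F) [NumberField N], IsGalois K N →
          DescAt K N v (A : K) (B : K)) →
    PosP K F (fun p => ∀ v ∈ Sg, p.1 - A₀ v ∈ v.asIdeal ^ e v ∧ p.2 - B₀ v ∈ v.asIdeal ^ e v)

theorem mainSig {K F : Type} [Field K] [NumberField K] [Field F] [Algebra K F]
    (h : H30ZO.AdmF K F) : MainSig K F := by
  intro Sg e A₀ B₀ h2 hcl
  have _ := h.gal
  obtain ⟨c, X₀, hc, h1⟩ := H30ZO.main_inf K F h.deg h.ram h.spl_inf h2 e A₀ B₀
    (fun v hv => (hcl v hv).1) (fun v hv => (hcl v hv).2)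
  refine ⟨c, X₀, hc, fun X hX => ?_⟩
  obtain ⟨G, hG, hj, hcard⟩ := h1 X hX
  refine ⟨G, fun p hp => ?_, hj, hcard⟩
  obtain ⟨g1, g2, g3, g4, g5⟩ := hG p hp
  exact ⟨g1, g3, ⟨g2, g5⟩, g4⟩

section Good

variable {K F : Type} [Field K] [NumberField K] [Field F] [Algebra K F]

theorem gd_irr {p : 𝓞 K × 𝓞 K} (h : Gd K F p) (t : K) :
    t ^ 3 + (p.1 : K) * t + (p.2 : K) ≠ 0 := by
  have hb : NumberField (⊥ : IntermediateField K F) := NumberField.of_module_finite K _
  have h1 := h.2 ⊥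
  intro h0
  refine h1.noroot ?_ (algebraMap K (⊥ : IntermediateField K F) t) ?_
  · intro h2
    apply h.1
    apply FaithfulSMul.algebraMap_injective (𝓞 K) K
    apply (algebraMap K (⊥ : IntermediateField K F)).injective
    rw [map_add, map_mul, map_mul, map_pow, map_pow, map_ofNat, map_ofNat, map_zero, map_add,
      map_mul, map_mul, map_pow, map_pow, map_ofNat, map_ofNat, map_zero]
    exact h2
  · rw [← map_pow, ← map_mul, ← map_add, ← map_add, h0, map_zero]

/-- The local condition is necessary at all primes. -/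
theorem gd_loc [IsGalois K F]
    (hdeg : ∀ (N : IntermediateField K F) [NumberField N], IsGalois K N →
      ∃ r : ℕ, Module.finrank K N = 2 ^ r) {p : 𝓞 K × 𝓞 K} (h : Gd K F p)
    (v : HeightOneSpectrum (𝓞 K)) : LocC K F v (p.1 : K) (p.2 : K) :=
  locC_of_descAt hdeg (gd_irr h) fun N _ _ => H30ZO.zo_loc h.1 h.2 N v

end Good

section Ideals

variable {K : Type} [Field K] [NumberField K]

/-- The exponent of a prime in an ideal. -/
theorem exists_exp {m : Ideal (𝓞 K)} (hm : m ≠ ⊥) : ∃ n : HeightOneSpectrum (𝓞 K) → ℕ,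
    (∀ v, m ≤ v.asIdeal ^ n v) ∧
    (∀ x : 𝓞 K, (∀ v, m ≤ v.asIdeal → x ∈ v.asIdeal ^ n v) → x ∈ m) := by
  have hm0 : m ≠ 0 := hm
  obtain ⟨n, hn⟩ : ∃ n : HeightOneSpectrum (𝓞 K) → ℕ,
      n = fun v => (Associates.mk v.asIdeal).count (Associates.mk m).factors := ⟨_, rfl⟩
  have hv : ∀ v, HeightOneSpectrum.maxPowDividing v m = v.asIdeal ^ n v := by
    intro v
    rw [hn]
    rfl
  have hfin := Ideal.finite_factors hm0
  have hsub : Function.mulSupport (fun v : HeightOneSpectrum (𝓞 K) =>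
      HeightOneSpectrum.maxPowDividing v m) ⊆ (hfin.toFinset : Set (HeightOneSpectrum (𝓞 K))) := by
    intro v hvs
    rw [Set.Finite.coe_toFinset]
    change v.asIdeal ∣ m
    rw [← Associates.count_ne_zero_iff_dvd hm0 v.irreducible]
    intro h0
    apply hvs
    change HeightOneSpectrum.maxPowDividing v m = 1
    rw [hv, hn]
    change v.asIdeal ^ (Associates.mk v.asIdeal).count (Associates.mk m).factors = 1
    rw [h0, pow_zero]
  have hprod : ∏ v ∈ hfin.toFinset, v.asIdeal ^ n v = m := by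
    have h1 := Ideal.finprod_heightOneSpectrum_factorization hm0
    rw [finprod_eq_prod_of_mulSupport_subset _ hsub] at h1
    rw [← Finset.prod_congr rfl fun v _ => hv v]
    exact h1
  have hinf := IsDedekindDomain.inf_pow_eq_prod_of_prime hfin.toFinset
    (fun v : HeightOneSpectrum (𝓞 K) => v.asIdeal) n (fun v _ => v.prime)
    (fun v _ w _ hne h => hne (HeightOneSpectrum.ext h))
  rw [hprod] at hinf
  refine ⟨n, fun v => ?_, fun x hx => ?_⟩
  · by_cases hvm : v ∈ hfin.toFinset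
    · rw [← hinf]
      exact Finset.inf_le hvm
    · have h0 : n v = 0 := by
        rw [Set.Finite.mem_toFinset] at hvm
        by_contra h1
        apply hvm
        change v.asIdeal ∣ m
        rw [← Associates.count_ne_zero_iff_dvd hm0 v.irreducible]
        rwa [hn] at h1
      rw [h0, pow_zero, Ideal.one_eq_top]
      exact le_top
  · rw [← hinf, Submodule.mem_finsetInf]
    intro v hvm
    rw [Set.Finite.mem_toFinset] at hvm
    exact hx v (Ideal.dvd_iff_le.1 hvm)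

/-- A polynomial without roots is separable. -/
theorem dsc_ne {a b : K} (h : ∀ t : K, t ^ 3 + a * t + b ≠ 0) : 4 * a ^ 3 + 27 * b ^ 2 ≠ 0 := by
  intro h0
  by_cases ha : a = 0
  · rw [ha] at h0
    have hb : b = 0 := by
      have h1 : (27 : K) * b ^ 2 = 0 := by linear_combination h0
      rcases mul_eq_zero.1 h1 with h2 | h2
      · norm_num at h2
      · exact pow_eq_zero_iff two_ne_zero |>.1 h2
    exact h 0 (by rw [ha, hb]; ring)
  · refine h (-3 * b / (2 * a)) ?_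
    have h2 : (2 : K) ≠ 0 := two_ne_zero
    field_simp
    linear_combination (-b) * h0

end Ideals

section Main

variable {K F : Type} [Field K] [NumberField K] [Field F] [Algebra K F] [IsGalois K F]

/-- The local conditions are sufficient. -/
theorem suff (hdeg : ∀ (N : IntermediateField K F) [NumberField N], IsGalois K N →
      ∃ r : ℕ, Module.finrank K N = 2 ^ r) (hmain : MainSig K F)
    {m : Ideal (𝓞 K)} (hm : m ≠ ⊥) (c : 𝓞 K × 𝓞 K)
    (h : ∀ v : HeightOneSpectrum (𝓞 K), (2 : 𝓞 K) ∈ v.asIdeal ∨ m ≤ v.asIdeal →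
      ∃ p : 𝓞 K × 𝓞 K, (∀ n : ℕ, m ≤ v.asIdeal ^ n → p.1 - c.1 ∈ v.asIdeal ^ n ∧
        p.2 - c.2 ∈ v.asIdeal ^ n) ∧ (∀ t : K, t ^ 3 + (p.1 : K) * t + (p.2 : K) ≠ 0) ∧
        LocC K F v (p.1 : K) (p.2 : K)) :
    PosP K F (fun p => p.1 - c.1 ∈ m ∧ p.2 - c.2 ∈ m) := by
  obtain ⟨n, hn1, hn3⟩ := exists_exp hm
  -- the set of primes
  have hfin : {v : HeightOneSpectrum (𝓞 K) | (2 : 𝓞 K) ∈ v.asIdeal ∨ m ≤ v.asIdeal}.Finite := by
    refine Set.Finite.union ?_ ?_
    · obtain ⟨S, hS⟩ := H30CY.two_fin K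
      refine S.finite_toSet.subset fun v hv => ?_
      exact (hS v).2 hv
    · refine (Ideal.finite_factors (I := m) hm).subset fun v hv => ?_
      exact Ideal.dvd_iff_le.2 hv
  obtain ⟨Sg, hSg⟩ : ∃ Sg : Finset (HeightOneSpectrum (𝓞 K)), ∀ v, v ∈ Sg ↔
      ((2 : 𝓞 K) ∈ v.asIdeal ∨ m ≤ v.asIdeal) := ⟨hfin.toFinset, fun v => hfin.mem_toFinset⟩
  have key : ∀ v : HeightOneSpectrum (𝓞 K), ∃ (e : ℕ) (A₀ B₀ : 𝓞 K), v ∈ Sg → n v ≤ e ∧
      A₀ - c.1 ∈ v.asIdeal ^ n v ∧ B₀ - c.2 ∈ v.asIdeal ^ n v ∧ dsc A₀ B₀ ∉ v.asIdeal ^ e ∧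
      ∀ A B : 𝓞 K, A - A₀ ∈ v.asIdeal ^ e → B - B₀ ∈ v.asIdeal ^ e →
        ∀ (N : IntermediateField K F) [NumberField N], IsGalois K N →
          DescAt K N v (A : K) (B : K) := by
    intro v
    by_cases hv : v ∈ Sg
    · obtain ⟨p, h1, h2, h3⟩ := h v ((hSg v).1 hv)
      have hd : dsc p.1 p.2 ≠ 0 := by
        intro h4
        apply dsc_ne h2
        have h5 := congrArg (algebraMap (𝓞 K) K) h4
        unfold dsc at h5
        rw [map_add, map_mul, map_mul, map_pow, map_pow, map_ofNat, map_ofNat, map_zero] at h5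
        exact h5
      obtain ⟨e, he1, he2⟩ := H36LG.descAt_open v hd
      refine ⟨e + n v, p.1, p.2, fun _ => ⟨Nat.le_add_left _ _, (h1 _ (hn1 v)).1,
        (h1 _ (hn1 v)).2, fun h4 => he1 (Ideal.pow_le_pow_right (Nat.le_add_right _ _) h4), ?_⟩⟩
      intro A B hA hB N _ hN
      exact he2 A B (Ideal.pow_le_pow_right (Nat.le_add_right _ _) hA)
        (Ideal.pow_le_pow_right (Nat.le_add_right _ _) hB) N
        (descAt_of_locC hdeg h2 h3 N hN)
    · exact ⟨0, 0, 0, fun h => absurd h hv⟩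
  choose e A₀ B₀ hk using key
  obtain ⟨c', X₀, hc', h1⟩ := hmain Sg e A₀ B₀ (fun v hv => (hSg v).2 (Or.inl hv))
    (fun v hv => (hk v hv).2.2.2)
  refine ⟨c', X₀, hc', fun X hX => ?_⟩
  obtain ⟨G, hG, hj, hcard⟩ := h1 X hX
  refine ⟨G, fun p hp => ?_, hj, hcard⟩
  obtain ⟨g1, g2, g3⟩ := hG p hp
  refine ⟨g1, ⟨hn3 _ fun v hv => ?_, hn3 _ fun v hv => ?_⟩, g3⟩
  · have hv' := (hSg v).2 (Or.inr hv)
    obtain ⟨k1, k2, k3, -⟩ := hk v hv'
    have h4 := Ideal.pow_le_pow_right k1 (g2 v hv').1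
    have h5 := Ideal.add_mem _ h4 k2
    rwa [sub_add_sub_cancel] at h5
  · have hv' := (hSg v).2 (Or.inr hv)
    obtain ⟨k1, k2, k3, -⟩ := hk v hv'
    have h4 := Ideal.pow_le_pow_right k1 (g2 v hv').2
    have h5 := Ideal.add_mem _ h4 k3
    rwa [sub_add_sub_cancel] at h5

/-- Nonempty sets. -/
theorem exists_of_posP {S : 𝓞 K × 𝓞 K → Prop} (h : PosP K F S) : ∃ p, S p ∧ Gd K F p := by
  obtain ⟨c, X₀, hc, h1⟩ := h
  obtain ⟨G, hG, -, hcard⟩ := h1 (max X₀ 1) (le_max_left _ _)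
  have h2 : (0 : 𝓞 K × 𝓞 K) ∈ Bx K (max X₀ 1) := by
    have h6 : (0 : ℝ) ≤ max X₀ 1 := le_max_of_le_right zero_le_one
    constructor
    · intro s
      have h7 : s (((0 : 𝓞 K × 𝓞 K).1 : 𝓞 K) : K) = 0 := by simp
      rw [h7, norm_zero]
      positivity
    · intro s
      have h7 : s (((0 : 𝓞 K × 𝓞 K).2 : 𝓞 K) : K) = 0 := by simp
      rw [h7, norm_zero]
      positivity
  have h3 : 0 < (Bx K (max X₀ 1)).ncard := by
    rw [Set.ncard_pos (H76PP.Bx_fin K _)]
    exact ⟨0, h2⟩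
  have h4 : 0 < G.card := by
    have h5 : (0 : ℝ) < c * ((Bx K (max X₀ 1)).ncard : ℝ) := by positivity
    exact_mod_cast h5.trans_le hcard
  obtain ⟨p, hp⟩ := Finset.card_pos.1 h4
  exact ⟨p, (hG p hp).2.1, (hG p hp).2.2.1⟩

/-- The local-global principle and the zero-one law. -/
theorem main (hdeg : ∀ (N : IntermediateField K F) [NumberField N], IsGalois K N →
      ∃ r : ℕ, Module.finrank K N = 2 ^ r) (hmain : MainSig K F)
    {m : Ideal (𝓞 K)} (hm : m ≠ ⊥) (c : 𝓞 K × 𝓞 K) :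
    ((∃ p : 𝓞 K × 𝓞 K, (p.1 - c.1 ∈ m ∧ p.2 - c.2 ∈ m) ∧ Gd K F p) ↔
      PosP K F (fun p => p.1 - c.1 ∈ m ∧ p.2 - c.2 ∈ m)) ∧
    ((∃ p : 𝓞 K × 𝓞 K, (p.1 - c.1 ∈ m ∧ p.2 - c.2 ∈ m) ∧ Gd K F p) ↔
      ∀ v : HeightOneSpectrum (𝓞 K), (2 : 𝓞 K) ∈ v.asIdeal ∨ m ≤ v.asIdeal →
      ∃ p : 𝓞 K × 𝓞 K, (∀ n : ℕ, m ≤ v.asIdeal ^ n → p.1 - c.1 ∈ v.asIdeal ^ n ∧
        p.2 - c.2 ∈ v.asIdeal ^ n) ∧ (∀ t : K, t ^ 3 + (p.1 : K) * t + (p.2 : K) ≠ 0) ∧
        LocC K F v (p.1 : K) (p.2 : K)) := by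
  have h1 : (∃ p : 𝓞 K × 𝓞 K, (p.1 - c.1 ∈ m ∧ p.2 - c.2 ∈ m) ∧ Gd K F p) →
      ∀ v : HeightOneSpectrum (𝓞 K), (2 : 𝓞 K) ∈ v.asIdeal ∨ m ≤ v.asIdeal →
      ∃ p : 𝓞 K × 𝓞 K, (∀ n : ℕ, m ≤ v.asIdeal ^ n → p.1 - c.1 ∈ v.asIdeal ^ n ∧
        p.2 - c.2 ∈ v.asIdeal ^ n) ∧ (∀ t : K, t ^ 3 + (p.1 : K) * t + (p.2 : K) ≠ 0) ∧
        LocC K F v (p.1 : K) (p.2 : K) := by
    rintro ⟨p, ⟨hA, hB⟩, hp⟩ v -
    exact ⟨p, fun n hn => ⟨hn hA, hn hB⟩, gd_irr hp, gd_loc hdeg hp v⟩
  refine ⟨⟨fun h => suff hdeg hmain hm c (h1 h), fun h => ?_⟩, ⟨h1, fun h => ?_⟩⟩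
  · obtain ⟨p, h2, h3⟩ := exists_of_posP h
    exact ⟨p, h2, h3⟩
  · obtain ⟨p, h2, h3⟩ := exists_of_posP (suff hdeg hmain hm c h)
    exact ⟨p, h2, h3⟩

/-- A polynomial without roots modulo a prime has no roots. -/
theorem noroot_K {A B : 𝓞 K} {w : HeightOneSpectrum (𝓞 K)} (h : H30PN.NoRt K w A B) (t : K) :
    t ^ 3 + (A : K) * t + (B : K) ≠ 0 := by
  intro h0
  have hmon : (Polynomial.X ^ 3 + (Polynomial.C A * Polynomial.X + Polynomial.C B) :
      Polynomial (𝓞 K)).Monic := by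
    refine Polynomial.monic_X_pow_add ?_
    exact Polynomial.degree_linear_le.trans_lt (by norm_num)
  have hint : IsIntegral (𝓞 K) t := by
    refine ⟨_, hmon, ?_⟩
    rw [Polynomial.eval₂_add, Polynomial.eval₂_add, Polynomial.eval₂_mul, Polynomial.eval₂_pow,
      Polynomial.eval₂_X, Polynomial.eval₂_C, Polynomial.eval₂_C]
    linear_combination h0
  obtain ⟨y, rfl⟩ := IsIntegrallyClosed.isIntegral_iff.1 hint
  apply h y
  have h1 : y ^ 3 + A * y + B = 0 := by
    apply FaithfulSMul.algebraMap_injective (𝓞 K) K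
    rw [map_add, map_add, map_mul, map_pow, map_zero]
    exact h0
  rw [h1]
  exact Ideal.zero_mem _

/-- A pair with an irreducible polynomial which satisfies the local condition. -/
theorem exists_irr (h : H30ZO.AdmF K F) {v : HeightOneSpectrum (𝓞 K)}
    (hl : H30ZO.LocOK K F v) : ∃ p : 𝓞 K × 𝓞 K, (∀ t : K, t ^ 3 + (p.1 : K) * t + (p.2 : K) ≠ 0) ∧
      LocC K F v (p.1 : K) (p.2 : K) := by
  obtain ⟨a, b, hd, hab⟩ := hl
  choose e he1 he2 using fun v : HeightOneSpectrum (𝓞 K) => H36LG.descAt_open v hd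
  obtain ⟨S₂, hS₂⟩ := H30CY.two_fin K
  obtain ⟨w, -, hw⟩ := h.spl_inf.exists_notMem_finset (insert v S₂)
  obtain ⟨m, E, A₀, B₀, -, -, -, -, hcl⟩ := H30ZO.exists_cls (S := insert v S₂) (R := {w})
    (fun v' hv' => Finset.mem_insert_of_mem ((hS₂ v').2 hv'))
    (fun v' hv' => by
      rw [Finset.mem_singleton] at hv'
      rw [hv']
      exact hw) e (fun _ => a) (fun _ => b) (fun v' _ => he1 v')
  obtain ⟨h1, h2⟩ := hcl A₀ B₀ (by rw [sub_self]; exact Ideal.zero_mem _)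
    (by rw [sub_self]; exact Ideal.zero_mem _)
  obtain ⟨h3, h4⟩ := h1 v (Finset.mem_insert_self _ _)
  have hirr := noroot_K (h2 w (Finset.mem_singleton_self w))
  exact ⟨(A₀, B₀), hirr, locC_of_descAt h.deg hirr fun N _ hN => he2 v A₀ B₀ h3 h4 N (hab N hN)⟩

end Main

end H36ZO

end S_H36_ZO_Fin
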