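import Mathlib
import Pool.Agent.H76.CQ.Qb
import Pool.Agent.H76.CQ.Qc
import Pool.Agent.H76.PN.A5
import Pool.Agent.H76.PN.N5
import Pool.Agent.H76.PN.P2
import Pool.Agent.H76.ZQ.Y11
import Pool.Agent.H76.ZQ.Y9

/-! This file joins several modules to save build time (Y12). -/

set_option autoImplicit false

section S_H30_ZO_Ra

set_option autoImplicit false
set_option linter.unusedSectionVars false
open scoped Classical

open WithZero NumberField IsDedekindDomain H38RT
open H38T1 (SC sc scu rep eo la si Pri OddP tp unif)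
open H76PP

namespace H30ZO

variable {k L : Type} [Field k] [NumberField k] [Field L] [NumberField L] [Algebra k L]

theorem exists_classR (hos : H73P2.OrdSub) {a b : k} {θ : L} (h : Cub k L a b θ)
    (ha : ∀ v : HeightOneSpectrum (𝓞 k), v.valuation k a ≤ 1)
    (hb : ∀ v : HeightOneSpectrum (𝓞 k), v.valuation k b ≤ 1)
    (hD : 4 * a ^ 3 + 27 * b ^ 2 ≠ 0) (hsel : SelTriv k L a b θ)
    (s₀ : k →+* ℝ) {c₀ : SC L} (hc₀ : c₀ ∈ HH k L) :
    ∃ c ∈ HH k L,
      (∀ v : HeightOneSpectrum (𝓞 k), Wc (algebraMap k (v.adicCompletion k)) a b θ c) ∧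
      Wc s₀ a b θ (c - c₀) ∧ ∀ s : k →+* ℝ, s ≠ s₀ → Wc s a b θ c := by
  obtain ⟨T, hT⟩ : ∃ T : Finset (HeightOneSpectrum (𝓞 k)), T = ∅ := ⟨_, rfl⟩
  have h20 : (2 : k) ≠ 0 := two_ne_zero
  obtain ⟨S, hS⟩ : ∃ S : Finset (HeightOneSpectrum (𝓞 k)),
      S = T ∪ ((fin_bad h20).toFinset ∪ (fin_bad hD).toFinset) := ⟨_, rfl⟩
  have hTS : ∀ v ∈ T, v ∈ S := by
    intro v hv
    rw [hS]
    exact Finset.mem_union_left _ hv
  have hS2 : ∀ v, v ∉ S → v.valuation k 2 = 1 := by
    intro v hv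
    by_contra h1
    apply hv
    rw [hS]
    exact Finset.mem_union_right _ (Finset.mem_union_left _ ((fin_bad h20).mem_toFinset.2 h1))
  have hSD : ∀ v, v ∉ S → v.valuation k (4 * a ^ 3 + 27 * b ^ 2) = 1 := by
    intro v hv
    by_contra h1
    apply hv
    rw [hS]
    exact Finset.mem_union_right _ (Finset.mem_union_right _ ((fin_bad hD).mem_toFinset.2 h1))
  have hWv : ∀ v : HeightOneSpectrum (𝓞 k), ∃ W : AddSubgroup (SC L), ∀ c, c ∈ W ↔
      c ∈ HH k L ∧ Wc (algebraMap k (v.adicCompletion k)) a b θ c := by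
    intro v
    have _ := H36CY.char_zero v
    refine exists_WW h _ ?_ (H24PD.inf_fin v _ _)
    intro e
    apply hD
    apply (algebraMap k (v.adicCompletion k)).injective
    rw [map_zero, map_add, map_mul, map_mul, map_pow, map_pow, map_ofNat, map_ofNat]
    exact e
  choose Wf hWf using hWv
  have hWs : ∀ s : k →+* ℝ, ∃ W : AddSubgroup (SC L), ∀ c, c ∈ W ↔
      c ∈ HH k L ∧ Wc s a b θ c := by
    intro s
    refine exists_WW h s ?_ (H24PD.inf_real _ _)
    intro e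
    apply hD
    apply s.injective
    rw [map_zero, map_add, map_mul, map_mul, map_pow, map_pow, map_ofNat, map_ofNat]
    exact e
  choose Wr hWr using hWs
  -- the `S`-units of square norm
  obtain ⟨X, hX⟩ : ∃ X : AddSubgroup (SC L),
      X = H24TD.US L {w : HeightOneSpectrum (𝓞 L) | dn k w ∈ S} ⊓ HH k L := ⟨_, rfl⟩
  have hXH : X ≤ HH k L := by
    rw [hX]
    exact inf_le_right
  have hcX := card_X h S
  rw [← hX] at hcX
  have hX0 : Nat.card X ≠ 0 := by
    intro h0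
    rw [h0, zero_mul] at hcX
    exact (pow_ne_zero _ two_ne_zero) hcX.symm
  have hXf : Finite X := Nat.finite_of_card_ne_zero hX0
  -- even valuations outside `S`
  have hev : ∀ c ∈ X, ∀ v, v ∉ S → c ∈ Wf v := by
    intro c hc v hv
    have hcH := hXH hc
    refine good_W hos h v (ha v) (hb v) (hS2 v hv) (hSD v hv) (hWf v) hcH ?_
    intro w hw
    rw [hX] at hc
    obtain ⟨u, hu, rfl⟩ := (AddSubgroup.mem_inf.1 hc).1
    rw [H24TD.cls_eq, H38T1.eo_sc (Units.ne_zero _)]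
    have h1 : w.valuation L ((Additive.toMul u : Lˣ) : L) = 1 := by
      refine hu w ?_
      intro h2
      apply hv
      rw [← hw]
      exact h2
    rw [ord, h1, log_one, neg_zero, Int.cast_zero]
  -- the product of the indices
  obtain ⟨n, hn⟩ : ∃ n, n = Module.finrank ℚ k := ⟨_, rfl⟩
  obtain ⟨t, ht⟩ : ∃ t, t = Nat.card {s : k →+* ℝ // nr k L s = 3} := ⟨_, rfl⟩
  have hplc := places_count h hD
  rw [← hn, ← ht] at hplc
  have hfinI : ∀ v : HeightOneSpectrum (𝓞 k), (Wf v).relIndex (HH k L) ≠ 0 ∧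
      2 * (Wf v).relIndex (HH k L) ≤ 2 ^ nb k L v * qq v :=
    fun v => loc_idx h v (ha v) (hb v) hD (hWf v)
  have hreI : ∀ s : k →+* ℝ, (Wr s).relIndex (HH k L) ≠ 0 ∧
      2 * (Wr s).relIndex (HH k L) ≤ nr k L s + 1 :=
    fun s => real_idx h hD s (hWr s)
  have hP1 : 2 ^ S.card * ∏ v ∈ S, (Wf v).relIndex (HH k L) ≤ 2 ^ (∑ v ∈ S, nb k L v) * 2 ^ n := by
    have h1 : ∏ v ∈ S, (2 * (Wf v).relIndex (HH k L)) ≤ ∏ v ∈ S, (2 ^ nb k L v * qq v) :=
      Finset.prod_le_prod (fun v _ => Nat.zero_le _) (fun v _ => (hfinI v).2)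
    rw [Finset.prod_mul_distrib, Finset.prod_mul_distrib, Finset.prod_const,
      Finset.prod_pow_eq_pow_sum, prod_two S (fun v hv => by
        by_contra h2
        rw [hS2 v h2] at hv
        exact lt_irrefl _ hv), ← hn] at h1
    exact h1
  have hP2 : ∏ s : k →+* ℝ, (Wr s).relIndex (HH k L) ≤ 2 ^ t := by
    have h1 : ∏ s : k →+* ℝ, (Wr s).relIndex (HH k L) ≤
        ∏ s : k →+* ℝ, (if nr k L s = 3 then 2 else 1) := by
      refine Finset.prod_le_prod (fun s _ => Nat.zero_le _) (fun s _ => ?_)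
      have h2 := (hreI s).2
      rcases nr_cases h hD s with h3 | h3
      · rw [h3] at h2
        rw [h3]
        simp only [OfNat.one_ne_ofNat, if_false]
        omega
      · rw [h3] at h2
        rw [h3, if_pos rfl]
        omega
    refine h1.trans (le_of_eq ?_)
    rw [Finset.prod_ite, Finset.prod_const_one, mul_one, Finset.prod_const, ht,
      Nat.card_eq_fintype_card, Fintype.card_subtype]
  have hprod : (∏ v ∈ S, (Wf v).relIndex (HH k L)) * (∏ s : k →+* ℝ, (Wr s).relIndex (HH k L)) ≤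
      Nat.card X := by
    have h1 : Nat.card X * 2 ^ S.card = 2 ^ (∑ v ∈ S, nb k L v) * 2 ^ n * 2 ^ t := by
      have h2 : Nat.card X * 2 ^ S.card *
          2 ^ (InfinitePlace.nrRealPlaces k + InfinitePlace.nrComplexPlaces k) =
          2 ^ (∑ v ∈ S, nb k L v) * 2 ^ n * 2 ^ t *
          2 ^ (InfinitePlace.nrRealPlaces k + InfinitePlace.nrComplexPlaces k) := by
        rw [mul_assoc, ← pow_add, hcX, hplc, ← pow_add, ← pow_add, ← pow_add]
        congr 1
        omega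
      exact Nat.eq_of_mul_eq_mul_right (pow_pos two_pos _) h2
    refine Nat.le_of_mul_le_mul_right (c := 2 ^ S.card) ?_ (pow_pos two_pos _)
    rw [h1]
    calc (∏ v ∈ S, (Wf v).relIndex (HH k L)) * (∏ s : k →+* ℝ, (Wr s).relIndex (HH k L)) *
          2 ^ S.card
        = (2 ^ S.card * ∏ v ∈ S, (Wf v).relIndex (HH k L)) *
          ∏ s : k →+* ℝ, (Wr s).relIndex (HH k L) := by ring
      _ ≤ 2 ^ (∑ v ∈ S, nb k L v) * 2 ^ n * 2 ^ t := Nat.mul_le_mul hP1 hP2
  -- the classes satisfying all conditions are trivial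
  have htriv : ∀ c ∈ X, (∀ v ∈ S, c ∈ Wf v) → (∀ s, c ∈ Wr s) → c = 0 := by
    intro c hc h1 h2
    have hall : ∀ v, c ∈ Wf v := by
      intro v
      by_cases hv : v ∈ S
      · exact h1 v hv
      · exact hev c hc v hv
    obtain ⟨x, hx, rfl⟩ := H38T1.sc_surj c
    obtain ⟨d, hd⟩ : ∃ d : Fin 3 → k, d = fun j => h.co j x := ⟨_, rfl⟩
    have hdx : ev θ d = x := by
      rw [hd]
      exact (h.eq_co x).symm
    have hd0 : ev θ d ≠ 0 := by
      rw [hdx]
      exact hx
    rw [← hdx] at hall h2 ⊢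
    rw [H38T1.sc_eq_zero hd0]
    refine hsel d hd0 ?_ ?_ ?_
    · rw [← mem_HH hd0, hdx]
      exact hXH hc
    · intro v
      exact (Wc_iff _ h hd0).1 ((hWf v _).1 (hall v)).2
    · intro s
      exact (Wc_iff _ h hd0).1 ((hWr s _).1 (h2 s)).2
  -- the lifting
  obtain ⟨c, hc, hcj⟩ := exists_lift (G := SC L) (J := {v // v ∈ S} ⊕ (k →+* ℝ)) (HH k L) X hXH
    (Sum.elim (fun v => Wf v.1) Wr)
    (by
      rintro (v | s)
      · exact (hfinI v.1).1
      · exact (hreI s).1) hXf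
    (by
      rw [Fintype.prod_sum_type]
      simp only [Sum.elim_inl, Sum.elim_inr]
      rw [Finset.prod_coe_sort S (fun v => (Wf v).relIndex (HH k L))]
      exact hprod)
    (fun c hc hj => htriv c hc (fun v hv => hj (Sum.inl ⟨v, hv⟩)) (fun s => hj (Sum.inr s)))
    (Sum.elim (fun _ => 0) (fun s => if s = s₀ then c₀ else 0))
    (by
      rintro (v | s)
      · exact (HH k L).zero_mem
      · show (if s = s₀ then c₀ else 0) ∈ HH k L
        split_ifs
        · exact hc₀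
        · exact (HH k L).zero_mem)
  refine ⟨c, hXH hc, ?_, ?_, ?_⟩
  · intro v
    by_cases hvS : v ∈ S
    · have h1 : c - 0 ∈ Wf v := hcj (Sum.inl ⟨v, hvS⟩)
      rw [sub_zero] at h1
      exact ((hWf v _).1 h1).2
    · exact ((hWf v _).1 (hev c hc v hvS)).2
  · have h1 : c - (if s₀ = s₀ then c₀ else 0) ∈ Wr s₀ := hcj (Sum.inr s₀)
    rw [if_pos rfl] at h1
    exact ((hWr s₀ _).1 h1).2
  · intro s hs
    have h1 : c - (if s = s₀ then c₀ else 0) ∈ Wr s := hcj (Sum.inr s)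
    rw [if_neg hs, sub_zero] at h1
    exact ((hWr s _).1 h1).2

end H30ZO

end S_H30_ZO_Ra

section S_H30_ZO_Rb

set_option autoImplicit false
set_option linter.unusedSectionVars false
open scoped Classical

open WithZero NumberField IsDedekindDomain H38RT
open H38T1 (SC sc scu rep eo la si Pri OddP tp unif)
open H76PP H73P2

namespace H30ZO

theorem desc_real (hos : H73P2.OrdSub) {k L k' L' : Type} [Field k] [NumberField k] [Field L]
    [NumberField L] [Field k'] [NumberField k'] [Field L'] [NumberField L'] [Algebra k L]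
    [Algebra k k'] [Algebra L L'] [Algebra k' L'] [Algebra k L'] [IsScalarTower k L L']
    [IsScalarTower k k' L'] {a b : k} {θ : L} {θ' : L'} (hQ : QS k L k' L' a b θ θ')
    (ha : ∀ v : HeightOneSpectrum (𝓞 k), v.valuation k a ≤ 1)
    (hb : ∀ v : HeightOneSpectrum (𝓞 k), v.valuation k b ≤ 1)
    (hD : 4 * a ^ 3 + 27 * b ^ 2 ≠ 0) (hsel : SelTriv k L a b θ)
    (hsel' : SelTriv k' L' (algebraMap k k' a) (algebraMap k k' b) θ')
    (s₀ : k →+* ℝ) (hs₀ : ∀ s' : k' →+* ℝ, s'.comp (algebraMap k k') ≠ s₀) {d : Fin 3 → k}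
    (hd : ev θ d ≠ 0) (hn : IsSquare (Algebra.norm k (ev θ d))) : LC s₀ a b d := by
  have hc₀ : sc (ev θ d) ∈ HH k L := (mem_HH hd).2 hn
  obtain ⟨c, hcH, hfin, h0, hre⟩ := exists_classR hos hQ.cub ha hb hD hsel s₀ hc₀
  obtain ⟨x, hx0, hxc⟩ := H38T1.sc_surj c
  obtain ⟨e, hex⟩ : ∃ e : Fin 3 → k, ev θ e = x :=
    ⟨fun i => hQ.cub.co i x, (hQ.cub.eq_co x).symm⟩
  have he0 : ev θ e ≠ 0 := by
    rw [hex]
    exact hx0
  have hec : sc (ev θ e) = c := by
    rw [hex]
    exact hxc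
  have hne : IsSquare (Algebra.norm k (ev θ e)) := (mem_HH he0).1 (by rw [hec]; exact hcH)
  have hco : algebraMap L L' (ev θ e) = ev θ' (fun i => algebraMap k k' (e i)) := hQ.coord e
  have he'0 : ev θ' (fun i => algebraMap k k' (e i)) ≠ 0 := by
    rw [← hco]
    exact (map_ne_zero _).2 he0
  have hsq : IsSquare (ev θ' (fun i => algebraMap k k' (e i))) := by
    refine hsel' _ he'0 ?_ ?_ ?_
    · rw [Te_norm hQ.cub', Te_nf_map, ← Te_norm hQ.cub]
      exact hne.map _
    · intro u'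
      have hov := H36CY.over_dn (K := k) u'
      have h1 := hfin (dn k u')
      rw [← hec] at h1
      exact Nc_comp _ (H73CY.LC_map hov.map (fun x => hov.map_algebraMap x)
        ((Wc_iff _ hQ.cub he0).1 h1))
    · intro s'
      have h1 := hre (s'.comp (algebraMap k k')) (hs₀ s')
      rw [← hec] at h1
      exact Nc_comp _ ((Wc_iff _ hQ.cub he0).1 h1)
  have hsqe : IsSquare (ev θ e) := Nc_square hQ he0 hne (by rw [hco]; exact hsq)
  have hc0 : c = 0 := by
    rw [← hec]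
    exact (H38T1.sc_eq_zero he0).2 hsqe
  rw [hc0, zero_sub, neg_eq_of_add_eq_zero_left (Nc_two (sc (ev θ d)))] at h0
  exact (Wc_iff _ hQ.cub hd).1 h0

/-- A class which violates the local condition at a real place with three real roots. -/
theorem real_wit {k : Type} [Field k] {a b : k} (s : k →+* ℝ)
    (hneg : s (4 * a ^ 3 + 27 * b ^ 2) < 0) :
    ∃ d : Fin 3 → k, Te_nf a b d ≠ 0 ∧ IsSquare (Te_nf a b d) ∧ ¬ LC s a b d := by
  have hs : s (4 * a ^ 3 + 27 * b ^ 2) = 4 * (s a) ^ 3 + 27 * (s b) ^ 2 := by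
    rw [map_add, map_mul, map_mul, map_pow, map_pow, map_ofNat, map_ofNat]
  rw [hs] at hneg
  rcases real_cases hneg.ne with ⟨r, p, q, hf, hpq⟩ | ⟨r₁, r₂, r₃, h12, h23, hf⟩
  · exfalso
    have e0 := hf 0
    have e1 := hf 1
    have e2 := hf (-1)
    have hB : s b = -(r * q) := by linear_combination e0
    have hp : p = r := by linear_combination (-1 / 2) * e1 + (-1 / 2) * e2 + hB
    have hA : s a = q - r ^ 2 := by
      rw [hp, hB] at e1
      linear_combination e1
    have h1 : 4 * (s a) ^ 3 + 27 * (s b) ^ 2 = (4 * q - r ^ 2) * (q + 2 * r ^ 2) ^ 2 := by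
      rw [hA, hB]
      ring
    rw [hp] at hpq
    rw [h1] at hneg
    have h2 : 0 ≤ (4 * q - r ^ 2) * (q + 2 * r ^ 2) ^ 2 :=
      mul_nonneg (by linarith) (sq_nonneg _)
    linarith
  · obtain ⟨q, hq1, hq2⟩ := exists_rat_btwn h23
    obtain ⟨r, hr⟩ : ∃ r : k, s r = (q : ℝ) := by
      have h0 : CharZero k := s.charZero
      exact ⟨(q : k), map_ratCast s q⟩
    obtain ⟨c, hc⟩ : ∃ c : k, c = -(r ^ 3 + a * r + b) := ⟨_, rfl⟩
    have hsc : s c = -(((q : ℝ) - r₁) * (((q : ℝ) - r₂) * ((q : ℝ) - r₃))) := by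
      rw [hc, map_neg, map_add, map_add, map_mul, map_pow, hr, hf]
      ring
    have hsc0 : 0 < s c := by
      rw [hsc]
      have h1 : 0 < (q : ℝ) - r₁ := by linarith
      have h2 : 0 < (q : ℝ) - r₂ := by linarith
      have h3 : 0 < r₃ - (q : ℝ) := by linarith
      have h4 := mul_pos h1 (mul_pos h2 h3)
      nlinarith
    have hc0 : c ≠ 0 := by
      rintro rfl
      rw [map_zero] at hsc0
      exact lt_irrefl _ hsc0
    have hnf : Te_nf a b ![-(r * c), c, 0] = (c ^ 2) * (c ^ 2) := by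
      simp [Te_nf]
      rw [hc]
      ring
    refine ⟨![-(r * c), c, 0], ?_, ?_, ?_⟩
    · rw [hnf]
      exact mul_ne_zero (pow_ne_zero 2 hc0) (pow_ne_zero 2 hc0)
    · rw [hnf]
      exact ⟨c ^ 2, rfl⟩
    · rintro ⟨x, y, z, hy, hxy, hm⟩
      have key : ∀ t : ℝ, t ^ 3 + s a * t + s b = 0 → 0 ≤ s c * (t - q) * (x - t) := by
        intro t ht
        have h1 := congrArg (H36CY.e1 t) hm
        rw [H36CY.e1_m3 ht, H36CY.e1_m3 ht] at h1
        have h2 : H36CY.e1 t (fun i => s ((![-(r * c), c, 0] : Fin 3 → k) i)) * H36CY.e1 t ![x, -1, 0] =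
            s c * (t - q) * (x - t) := by
          simp [H36CY.e1, hr]
          ring
        rw [← h2, h1]
        exact mul_self_nonneg _
      have hr1 := key r₁ (by rw [hf]; ring)
      have hr3 := key r₃ (by rw [hf]; ring)
      have h1 : x ≤ r₁ := by
        by_contra hx
        push Not at hx
        have h2 : s c * (r₁ - q) < 0 := mul_neg_of_pos_of_neg hsc0 (by linarith)
        have h3 := mul_neg_of_neg_of_pos h2 (by linarith : 0 < x - r₁)
        linarith
      have h3 : r₃ ≤ x := by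
        by_contra hx
        push Not at hx
        have h2 : 0 < s c * (r₃ - q) := mul_pos hsc0 (by linarith)
        have h3 := mul_neg_of_pos_of_neg h2 (by linarith : x - r₃ < 0)
        linarith
      linarith

/-- The real condition for all number fields between `K` and `F`. -/
def RealN (K F : Type) [Field K] [NumberField K] [Field F] [Algebra K F] (a b : K) : Prop :=
  ∀ s : K →+* ℝ, 0 < s (4 * a ^ 3 + 27 * b ^ 2) ∨
    ∀ (N : IntermediateField K F) [NumberField N], ∃ s' : N →+* ℝ, ∀ x : K,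
      s' (algebraMap K N x) = s x

/-- Root and Selmer group over a field which embeds in `F`. -/
theorem pf_sel {K F : Type} [Field K] [NumberField K] [Field F] [Algebra K F] {a b : 𝓞 K}
    (hDk : ∀ (m : Type) [Field m] [Algebra K m],
      4 * (algebraMap K m a) ^ 3 + 27 * (algebraMap K m b) ^ 2 ≠ 0)
    (h : PF K F (a, b)) (m : Type) [Field m] [NumberField m] [Algebra K m] (f : m →ₐ[K] F) :
    (∀ t : m, t ^ 3 + algebraMap K m a * t + algebraMap K m b ≠ 0) ∧
      ∀ (L : Type) [Field L] [NumberField L] [Algebra m L] (θ : L),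
        Cub m L (algebraMap K m a) (algebraMap K m b) θ →
        SelTriv m L (algebraMap K m a) (algebraMap K m b) θ := by
  let M : IntermediateField K F := f.fieldRange
  let e : m ≃ₐ[K] M := AlgEquiv.ofInjectiveField f
  have _ : NumberField M := NumberField.of_ringEquiv _ _ e.toRingEquiv
  have hM := h M
  refine ⟨fun t ht => ?_, fun L _ _ _ θ hL => ?_⟩
  · refine hM.noroot (hDk M) (e t) ?_
    have h4 := congrArg e ht
    rw [map_add, map_add, map_mul, map_pow, e.commutes, e.commutes, map_zero] at h4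
    exact h4
  · exact hM.sel (M := M) (k := m) e.symm.toRingEquiv (e.symm.commutes _)
      (e.symm.commutes _) L θ hL

/-- A real-valued embedding. -/
theorem to_real {k : Type} [Field k] (τ : k →+* ℂ)
    (h : ∀ x, (starRingEnd ℂ) (τ x) = τ x) : ∃ s : k →+* ℝ, ∀ x, ((s x : ℝ) : ℂ) = τ x := by
  have him : ∀ x, (τ x).im = 0 := fun x => Complex.conj_eq_iff_im.1 (h x)
  have hre : ∀ x, (((τ x).re : ℝ) : ℂ) = τ x := fun x => Complex.conj_eq_iff_re.1 (h x)
  refine ⟨{ toFun := fun x => (τ x).re, map_one' := ?_, map_mul' := ?_,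
            map_zero' := ?_, map_add' := ?_ }, hre⟩
  · rw [map_one, Complex.one_re]
  · intro x y
    change (τ (x * y)).re = (τ x).re * (τ y).re
    rw [map_mul, Complex.mul_re, him x, zero_mul, sub_zero]
  · change (τ 0).re = 0
    rw [map_zero, Complex.zero_re]
  · intro x y
    change (τ (x + y)).re = (τ x).re + (τ y).re
    rw [map_add, Complex.add_re]

/-- The real condition is necessary. -/
theorem zo_real {K F : Type} [Field K] [NumberField K] [Field F] [Algebra K F] [IsGalois K F]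
    {a b : 𝓞 K} (hD : 4 * a ^ 3 + 27 * b ^ 2 ≠ 0) (h : PF K F (a, b)) :
    RealN K F (a : K) (b : K) := by
  have hDK : (4 * (a : K) ^ 3 + 27 * (b : K) ^ 2) ≠ 0 := by
    intro h1
    apply hD
    apply FaithfulSMul.algebraMap_injective (𝓞 K) K
    rw [map_add, map_mul, map_mul, map_pow, map_pow, map_ofNat, map_ofNat, map_zero]
    exact h1
  have hDk : ∀ (m : Type) [Field m] [Algebra K m],
      4 * (algebraMap K m a) ^ 3 + 27 * (algebraMap K m b) ^ 2 ≠ 0 := by
    intro m _ _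
    have h1 := (map_ne_zero (algebraMap K m)).2 hDK
    simpa only [map_add, map_mul, map_pow, map_ofNat] using h1
  intro s
  by_contra hcon
  rw [not_or] at hcon
  obtain ⟨hneg, hno⟩ := hcon
  push Not at hno
  obtain ⟨N₁, _, hN₁⟩ := hno
  have hneg' : s (4 * (a : K) ^ 3 + 27 * (b : K) ^ 2) < 0 :=
    lt_of_le_of_ne (not_lt.1 hneg) ((map_ne_zero s).2 hDK)
  obtain ⟨N, _, hNg, hMN, -⟩ := H30CY.exists_big N₁ (∅ : Finset ℕ) (fun _ => ⊥)
    fun v hv => absurd hv (Finset.notMem_empty v)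
  have hN : ∀ s' : N →+* ℝ, ∃ x : K, s' (algebraMap K N x) ≠ s x := by
    intro s'
    obtain ⟨x, hx⟩ := hN₁ (s'.comp (IntermediateField.inclusion hMN).toRingHom)
    exact ⟨x, hx⟩
  have hfd : FiniteDimensional K N := Module.Finite.of_restrictScalars_finite ℚ K N
  -- the complex embedding
  let _ : Algebra K ℂ := ((Complex.ofRealHom).comp s).toAlgebra
  have hKC : ∀ x : K, algebraMap K ℂ x = ((s x : ℝ) : ℂ) := fun _ => rfl
  let σ : N →ₐ[K] ℂ := IsAlgClosed.lift
  let _ : Algebra N ℂ := σ.toRingHom.toAlgebra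
  have _ : IsScalarTower K N ℂ := IsScalarTower.of_algebraMap_eq fun x => (σ.commutes x).symm
  let χ : ℂ ≃ₐ[K] ℂ := AlgEquiv.ofRingEquiv (f := (Complex.conjAe : ℂ ≃+* ℂ)) (fun x => by
    rw [hKC]
    exact Complex.conj_ofReal _)
  have hχ : ∀ z : ℂ, χ z = (starRingEnd ℂ) z := fun _ => rfl
  obtain ⟨g, hg⟩ : ∃ g : N ≃ₐ[K] N, g = χ.restrictNormal N := ⟨_, rfl⟩
  have hgs : ∀ x : N, σ (g x) = (starRingEnd ℂ) (σ x) := by
    intro x
    rw [hg]
    exact χ.restrictNormal_commutes N x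
  have hg2 : ∀ x : N, g (g x) = x := by
    intro x
    apply (σ : N →+* ℂ).injective
    change σ (g (g x)) = σ x
    rw [hgs, hgs, Complex.conj_conj]
  have hg1 : g ≠ 1 := by
    intro h1
    obtain ⟨s', hs'⟩ := to_real (σ : N →+* ℂ) (fun x => by
      change (starRingEnd ℂ) (σ x) = σ x
      rw [← hgs, h1]
      rfl)
    obtain ⟨x, hx⟩ := hN s'
    apply hx
    have h2 : ((s' (algebraMap K N x) : ℝ) : ℂ) = ((s x : ℝ) : ℂ) := by
      rw [hs', ← hKC]
      exact σ.commutes x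
    exact_mod_cast h2
  have hord : orderOf g = 2 := by
    refine orderOf_eq_prime ?_ hg1
    ext x
    rw [pow_two]
    exact congrArg _ (hg2 x)
  let k : IntermediateField K N := IntermediateField.fixedField (Subgroup.zpowers g)
  have hkf : ∀ x : k, g (x : N) = (x : N) := fun x =>
    (IntermediateField.mem_fixedField_iff _ _).1 x.2 g (Subgroup.mem_zpowers g)
  have _ : NumberField k := NumberField.of_module_finite K k
  have two : Module.finrank k N = 2 := by
    rw [IntermediateField.finrank_fixedField_eq_card, Nat.card_zpowers, hord]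
  obtain ⟨s₀, hs₀⟩ := to_real ((σ : N →+* ℂ).comp (algebraMap k N)) (fun x => by
    change (starRingEnd ℂ) (σ (x : N)) = σ (x : N)
    rw [← hgs, hkf])
  have hs₀K : ∀ x : K, s₀ (algebraMap K k x) = s x := by
    intro x
    have h2 : ((s₀ (algebraMap K k x) : ℝ) : ℂ) = ((s x : ℝ) : ℂ) := by
      rw [hs₀, ← hKC]
      exact σ.commutes x
    exact_mod_cast h2
  have hs₀N : ∀ s' : N →+* ℝ, s'.comp (algebraMap k N) ≠ s₀ := by
    intro s' hs'
    obtain ⟨x, hx⟩ := hN s'
    apply hx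
    rw [← hs₀K, ← hs']
    rfl
  have hint : ∀ (x : 𝓞 K) (w : HeightOneSpectrum (𝓞 k)), w.valuation k (algebraMap K k x) ≤ 1 := by
    intro x w
    have e1 : algebraMap K k x = algebraMap (𝓞 k) k (algebraMap (𝓞 K) (𝓞 k) x) := rfl
    rw [e1]
    exact w.valuation_le_one _
  -- the Selmer groups
  obtain ⟨-, hT⟩ := pf_sel hDk h k (N.val.comp (IsScalarTower.toAlgHom K k N))
  obtain ⟨hir, hT'⟩ := pf_sel hDk h N N.val
  obtain ⟨L', _, _, _, θ', h'⟩ := H24PD.exists_cub (K := N) hir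
  have _ : IsScalarTower k N L' := inferInstance
  have h'' : Cub N L' (algebraMap k N (algebraMap K k a)) (algebraMap k N (algebraMap K k b)) θ' := h'
  obtain ⟨L, _, _, _, _, _, θ, hc, hθ⟩ := exists_sub h''
  have Q : QS k L N L' (algebraMap K k a) (algebraMap K k b) θ θ' := ⟨two, hc, h'', hθ⟩
  obtain ⟨d, hd1, hd2, hd3⟩ := real_wit (a := algebraMap K k a) (b := algebraMap K k b) s₀ (by
    have e1 : 4 * algebraMap K k a ^ 3 + 27 * algebraMap K k b ^ 2 =
        algebraMap K k (4 * (a : K) ^ 3 + 27 * (b : K) ^ 2) := by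
      rw [map_add, map_mul, map_mul, map_pow, map_pow, map_ofNat, map_ofNat]
    rw [e1, hs₀K]
    exact hneg')
  apply hd3
  refine desc_real H36MT.ordSub Q (hint a) (hint b) (hDk k) (hT L θ hc) (hT' L' θ' h'') s₀ hs₀N ?_ ?_
  · rw [← Te_norm hc d, Ne, Algebra.norm_eq_zero_iff] at hd1
    exact hd1
  · rw [Te_norm hc d]
    exact hd2

end H30ZO

end S_H30_ZO_Rb

section S_H30_ZO_Dt

set_option autoImplicit false
set_option linter.unusedSectionVars false
open scoped Classical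

open WithZero NumberField IsDedekindDomain H38RT
open H76PP H73P2 H36CY

namespace H30ZO

theorem nf_twist {F : Type} [CommRing F] (A B D : F) (d : Fin 3 → F) :
    Te_nf A B (fun j => d j * D ^ (j : ℕ)) = Te_nf (D ^ 2 * A) (D ^ 3 * B) d := by
  simp only [Te_nf, Fin.val_zero, Fin.val_one, Fin.val_two]
  ring

/-- The converse of `LC_twist`. -/
theorem LC_untwist {K F : Type} [Field K] [Field F] (i : K →+* F) {A B D : K} (hD : D ≠ 0)
    {d : Fin 3 → K} {r : F} (hr : i D = r ^ 2) (h : LC i A B (fun j => d j * D ^ (j : ℕ))) :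
    LC i (D ^ 2 * A) (D ^ 3 * B) d := by
  have hD' : D⁻¹ ≠ 0 := inv_ne_zero hD
  have hr' : i D⁻¹ = r⁻¹ ^ 2 := by rw [map_inv₀, hr, inv_pow]
  have e1 : D⁻¹ ^ 2 * (D ^ 2 * A) = A := by
    field_simp
  have e2 : D⁻¹ ^ 3 * (D ^ 3 * B) = B := by
    field_simp
  have h1 : LC i (D⁻¹ ^ 2 * (D ^ 2 * A)) (D⁻¹ ^ 3 * (D ^ 3 * B)) (fun j => d j * D ^ (j : ℕ)) := by
    rw [e1, e2]
    exact h
  have h2 := LC_twist i hD' hr' h1
  have e3 : (fun j : Fin 3 => d j * D ^ (j : ℕ) * D⁻¹ ^ (j : ℕ)) = d := by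
    funext j
    rw [mul_assoc, ← mul_pow, mul_inv_cancel₀ hD, one_pow, mul_one]
  rw [e3] at h2
  exact h2

theorem descAt_twist {K N : Type} [Field K] [NumberField K] [Field N] [NumberField N] [Algebra K N]
    {v : HeightOneSpectrum (𝓞 K)} {A B D : K} (hD : D ≠ 0) {r : v.adicCompletion K}
    (hr : algebraMap K (v.adicCompletion K) D = r ^ 2) (h : DescAt K N v A B) :
    DescAt K N v (D ^ 2 * A) (D ^ 3 * B) := by
  intro k k' _ _ _ _ _ _ _ _ _ _ _ _ _ two d hd hn hloc u hu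
  have key : ∀ (m : Type) [Field m] [NumberField m] [Algebra K m] (w : HeightOneSpectrum (𝓞 m)),
      dn K w = v → ∃ s : w.adicCompletion m,
        algebraMap m (w.adicCompletion m) (algebraMap K m D) = s ^ 2 := by
    intro m _ _ _ w hw
    subst hw
    refine ⟨(over_dn w).map r, ?_⟩
    rw [← map_pow, ← hr, Pool.Agent.H10.Over.map_algebraMap]
  have e2 : ∀ (m : Type) [Field m] [Algebra K m],
      algebraMap K m (D ^ 2 * A) = (algebraMap K m D) ^ 2 * algebraMap K m A := by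
    intro m _ _
    rw [map_mul, map_pow]
  have e3 : ∀ (m : Type) [Field m] [Algebra K m],
      algebraMap K m (D ^ 3 * B) = (algebraMap K m D) ^ 3 * algebraMap K m B := by
    intro m _ _
    rw [map_mul, map_pow]
  rw [e2, e3] at hd hn ⊢
  have hDk : algebraMap K k D ≠ 0 := (map_ne_zero _).2 hD
  have hDk' : algebraMap K k' D ≠ 0 := (map_ne_zero _).2 hD
  obtain ⟨s, hs⟩ := key k u hu
  refine LC_untwist _ hDk hs ?_
  rw [← nf_twist] at hd hn
  refine h k k' two _ hd hn (fun u' hu' => ?_) u hu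
  obtain ⟨s', hs'⟩ := key k' u' hu'
  have h1 := hloc u' hu'
  rw [e2, e3] at h1
  have h2 := LC_twist _ hDk' hs' h1
  have e4 : (fun j : Fin 3 => algebraMap k k' (d j * algebraMap K k D ^ (j : ℕ))) =
      fun j : Fin 3 => algebraMap k k' (d j) * algebraMap K k' D ^ (j : ℕ) := by
    funext j
    rw [map_mul, map_pow, ← IsScalarTower.algebraMap_apply]
  rw [e4]
  exact h2

end H30ZO

end S_H30_ZO_Dt

section S_H30_ZO_Al

set_option autoImplicit false
set_option linter.unusedSectionVars false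
open scoped Classical

open WithZero NumberField IsDedekindDomain H38RT H76PP H36MT H36CY

namespace H30ZO

/-- The local conditions at all places. -/
def LocAll (K F : Type) [Field K] [NumberField K] [Field F] [Algebra K F] (p : 𝓞 K × 𝓞 K) : Prop :=
  (∀ (v : HeightOneSpectrum (𝓞 K)) (N : IntermediateField K F) [NumberField N], IsGalois K N →
    DescAt K N v (p.1 : K) (p.2 : K)) ∧ RealN K F (p.1 : K) (p.2 : K)

/-- The required property from the relaxed Selmer group. -/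
theorem pf_of_rel {K F : Type} [Field K] [NumberField K] [Field F] [Algebra K F] (h : AdmF K F)
    {S T : Finset (HeightOneSpectrum (𝓞 K))}
    (hS2 : ∀ v : HeightOneSpectrum (𝓞 K), (2 : 𝓞 K) ∈ v.asIdeal → v ∈ S)
    (hram : ∀ (N : IntermediateField K F) [NumberField N] (V : HeightOneSpectrum (𝓞 N)),
      H73P2.Ram K V → dn K V ∈ S)
    (hT : ∀ v ∈ T, ∃ ι : F →+* v.adicCompletion K, ∀ x : K,
      ι (algebraMap K F x) = algebraMap K (v.adicCompletion K) x) {A B : 𝓞 K}
    (hrel : RelG K (S ∪ T) A B)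
    (hdesc : ∀ v ∈ S, ∀ (N : IntermediateField K F) [NumberField N], IsGalois K N →
      DescAt K N v (A : K) (B : K)) (hreal : RealN K F (A : K) (B : K)) : PF K F (A, B) := by
  have _ := h.gal
  intro M _
  obtain ⟨N, _, hNg, hMN, -⟩ := H30CY.exists_big M (∅ : Finset ℕ) (fun _ => ⊥)
    fun v hv => absurd hv (Finset.notMem_empty v)
  let _ : Algebra M N := (IntermediateField.inclusion hMN).toRingHom.toAlgebra
  have _ : IsScalarTower K M N := IsScalarTower.of_algebraMap_eq fun _ => rfl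
  obtain ⟨r, hr⟩ := h.deg N hNg
  have hd : 4 * (A : K) ^ 3 + 27 * (B : K) ^ 2 ≠ 0 := by
    rw [← dsc_coe]
    intro h0
    apply hrel.ne
    apply RingOfIntegers.coe_injective
    rw [map_zero]
    exact h0
  have _ : FiniteDimensional K N := Module.Finite.of_restrictScalars_finite ℚ K N
  have hnr := H73P2.noroot (K := K) (N := N) (k := M) hr hrel.irr
  obtain ⟨L, _, _, _, θ, hL⟩ := H24PD.exists_cub (K := M) hnr
  have hdes := H24PD.descent hL (H73ZO.selS_mid (K := K) (N := N) ordSub hr (Sg := S) (S := T)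
    (fun v hv => hS2 v (two_mem_iff.1 hv)) hd ?_ ?_ ?_ ?_ (fun v hv => hdesc v hv N hNg) ?_ M L θ hL)
  · exact ⟨hdes.1, tors_of_noroot hnr, hdes.2⟩
  · intro v hv1 hv2
    exact hrel.nice v fun h => (Finset.mem_union.1 h).elim hv1 hv2
  · intro v hv
    obtain ⟨ι, hι⟩ := hT v hv
    exact ⟨ι.comp N.val.toRingHom, fun x => hι x⟩
  · intro s
    rcases hreal s with h1 | h1
    · exact Or.inl h1
    · exact Or.inr (h1 N)
  · intro V hVS _ hV
    exact absurd (hram N V hV) hVS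
  · intro L _ _ _ θ hL
    exact H73ZO.relST_of (hrel.rel L θ hL)

/-- Almost all pairs which satisfy the local conditions have a good twist in a finite set. -/
theorem almost_all {K F : Type} [Field K] [NumberField K] [Field F] [Algebra K F] (h : AdmF K F)
    {m : Ideal (𝓞 K)} (hm : m ≠ ⊥) {ε : ℝ} (hε : 0 < ε) :
    ∃ (DD : Finset (𝓞 K)) (X₀ : ℝ),
      (∀ D ∈ DD, D ≠ 0 ∧ D - 1 ∈ m ∧ ∀ s : K →+* ℝ, 0 < s (D : K)) ∧
      ∀ X : ℝ, X₀ ≤ X →
        ({p : 𝓞 K × 𝓞 K | p ∈ Bx K X ∧ LocAll K F p ∧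
          ¬ ∃ D ∈ DD, 4 * (D ^ 2 * p.1) ^ 3 + 27 * (D ^ 3 * p.2) ^ 2 ≠ 0 ∧
            PF K F (D ^ 2 * p.1, D ^ 3 * p.2)}.ncard : ℝ) ≤ ε * ((Bx K X).ncard : ℝ) := by
  have _ := h.gal
  obtain ⟨c, X₁, hc, hlow⟩ := class_lower (K := K) (m := ⊤) top_ne_bot
  obtain ⟨S, e, Z₁, Z₂, m', X₀, hS6, hS₀, hZ₁Z, hZ₂Z, hm'0, hm't, hm'm, hm'S, hZ₁, hZ₂, hZr, hcount⟩ :=
    main_count K hm (ε := ε * c) (by positivity) h.spl_inf h.ram.toFinset
  have hS2 : ∀ v : HeightOneSpectrum (𝓞 K), (2 : 𝓞 K) ∈ v.asIdeal → v ∈ S := by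
    intro v hv
    apply hS6
    rw [show (6 : 𝓞 K) = 3 * 2 by norm_num]
    exact v.asIdeal.mul_mem_left _ hv
  have hD : ∀ (q : HeightOneSpectrum (𝓞 K)) (J : Finset (HeightOneSpectrum (𝓞 K))), ∃ D : 𝓞 K,
      q ∈ Z₁ → J ⊆ Z₂ → D - 1 ∈ m' ∧ TwS S q J (D : K) := by
    intro q J
    by_cases h : q ∈ Z₁ ∧ J ⊆ Z₂
    · obtain ⟨D, hD⟩ := exists_twistS hm'0 hm't hm'S (hZ₁ q h.1).2.2
        (fun p hp => hZr q h.1 p (h.2 hp))
      exact ⟨D, fun _ _ => hD⟩
    · exact ⟨0, fun h1 h2 => absurd ⟨h1, h2⟩ h⟩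
  choose D hD using hD
  have hD0 : ∀ q ∈ Z₁, ∀ J ⊆ Z₂, D q J ≠ 0 := by
    intro q hq J hJ h0
    apply (hD q J hq hJ).2.ne
    rw [h0]
    exact map_zero (algebraMap (𝓞 K) K)
  refine ⟨Z₁.biUnion fun q => Z₂.powerset.image (D q), max X₀ X₁, ?_, ?_⟩
  · intro d hd
    rw [Finset.mem_biUnion] at hd
    obtain ⟨q, hq, hd⟩ := hd
    rw [Finset.mem_image] at hd
    obtain ⟨J, hJ, rfl⟩ := hd
    have hJ' := Finset.mem_powerset.1 hJ
    obtain ⟨h1, h2⟩ := hD q J hq hJ'
    exact ⟨hD0 q hq J hJ', hm'm h1, h2.pos⟩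
  · intro X hX
    have h4 := hcount X ((le_max_left _ _).trans hX)
    have h5 := hlow X ((le_max_right _ _).trans hX) 0 0
    have h6 : {p : 𝓞 K × 𝓞 K | p ∈ Bx K X ∧ p.1 - 0 ∈ (⊤ : Ideal (𝓞 K)) ∧
        p.2 - 0 ∈ (⊤ : Ideal (𝓞 K))} = Bx K X := by
      ext p
      simp
    rw [h6] at h5
    have h7 : {p : 𝓞 K × 𝓞 K | p ∈ Bx K X ∧ LocAll K F p ∧
          ¬ ∃ d ∈ Z₁.biUnion fun q => Z₂.powerset.image (D q),
            4 * (d ^ 2 * p.1) ^ 3 + 27 * (d ^ 3 * p.2) ^ 2 ≠ 0 ∧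
            PF K F (d ^ 2 * p.1, d ^ 3 * p.2)} ⊆
        {p : 𝓞 K × 𝓞 K | p ∈ Bx K X ∧ ¬ ∃ q ∈ Z₁, ∃ T ⊆ Z₂, FamS S e q T p.1 p.2 ∧
          ¬ BadS S T p.1 p.2} := by
      rintro p ⟨hp, hloc, hno⟩
      refine ⟨hp, ?_⟩
      rintro ⟨q, hq, T, hT, hF, hB⟩
      apply hno
      obtain ⟨J, hJ, hgood⟩ := good_S (q₀ := q) hS6
        (fun v hv => ⟨fun h => (hZ₁ q hq).2.1 (by rw [← h]; exact hT hv), hZ₂ v (hT hv)⟩) hF hB
      have hJ2 : J ⊆ Z₂ := hJ.trans hT
      obtain ⟨hD1, hD2⟩ := hD q J hq hJ2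
      have hrel := hgood (D q J) hD2 (S ∪ insert q T) Finset.subset_union_left
        ((Finset.subset_insert _ _).trans Finset.subset_union_right)
        (Finset.mem_union_right _ (Finset.mem_insert_self _ _))
      have e1 : ((D q J ^ 2 * p.1 : 𝓞 K) : K) = (D q J : K) ^ 2 * (p.1 : K) := by push_cast; rfl
      have e2 : ((D q J ^ 3 * p.2 : 𝓞 K) : K) = (D q J : K) ^ 3 * (p.2 : K) := by push_cast; rfl
      refine ⟨D q J, ?_, hrel.ne, ?_⟩
      · rw [Finset.mem_biUnion]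
        exact ⟨q, hq, Finset.mem_image.2 ⟨J, Finset.mem_powerset.2 hJ2, rfl⟩⟩
      · refine pf_of_rel h hS2 ?_ ?_ hrel ?_ ?_
        · intro N _ V hV
          exact hS₀ (h.ram.mem_toFinset.2 ⟨N, inferInstance, V, rfl, hV⟩)
        · intro v hv
          rcases Finset.mem_insert.1 hv with h1 | h1
          · rw [h1]
            exact hZ₁Z q hq
          · exact hZ₂Z v (hT h1)
        · intro v hv N _ hN
          obtain ⟨x, hx, hx1⟩ := hD2.loc v hv
          obtain ⟨r, hr⟩ := sq_S hx hx1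
          rw [e1, e2]
          exact descAt_twist hD2.ne hr (hloc.1 v N hN)
        · intro s
          rcases hloc.2 s with h1 | h1
          · left
            have h2 := hD2.pos s
            have e3 : 4 * ((D q J ^ 2 * p.1 : 𝓞 K) : K) ^ 3 + 27 * ((D q J ^ 3 * p.2 : 𝓞 K) : K) ^ 2 =
                (D q J : K) ^ 6 * (4 * (p.1 : K) ^ 3 + 27 * (p.2 : K) ^ 2) := by
              rw [e1, e2]
              ring
            rw [e3, map_mul, map_pow]
            exact mul_pos (pow_pos h2 6) h1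
          · exact Or.inr h1
    have h8 := Set.ncard_le_ncard h7 ((H36PP.Bx_finite K X).subset fun p hp => hp.1)
    have h9 : ({p : 𝓞 K × 𝓞 K | p ∈ Bx K X ∧ LocAll K F p ∧
        ¬ ∃ d ∈ Z₁.biUnion fun q => Z₂.powerset.image (D q),
          4 * (d ^ 2 * p.1) ^ 3 + 27 * (d ^ 3 * p.2) ^ 2 ≠ 0 ∧
          PF K F (d ^ 2 * p.1, d ^ 3 * p.2)}.ncard : ℝ) ≤ _ := Nat.cast_le.2 h8
    calc _ ≤ _ := h9
      _ ≤ ε * c * X ^ (5 * Module.finrank ℚ K) := h4
      _ = ε * (c * X ^ (5 * Module.finrank ℚ K)) := by ring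
      _ ≤ _ := mul_le_mul_of_nonneg_left h5 hε.le

/-- The local conditions are necessary. -/
theorem loc_of_good {K F : Type} [Field K] [NumberField K] [Field F] [Algebra K F] [IsGalois K F]
    {p : 𝓞 K × 𝓞 K} (hD : 4 * p.1 ^ 3 + 27 * p.2 ^ 2 ≠ 0) (hP : PF K F p) : LocAll K F p :=
  ⟨fun v N _ _ => zo_loc hD hP N v, zo_real hD hP⟩

end H30ZO

end S_H30_ZO_Al
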