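import Mathlib
import Pool.Agent.H76.ZQ.Y0
import Pool.Agent.H76.ZQ.Y4
import Pool.Agent.H76.ZQ.Y9

/-! This file joins several modules to save build time (Y10). -/

set_option autoImplicit false

section S_H73_ZO_Gd

set_option autoImplicit false
set_option linter.unusedSectionVars false
open scoped Classical

open WithZero NumberField IsDedekindDomain H38RT
open H38T1 (SC sc scu rep eo la si Pri OddP tp unif)
open H76PP H73P2 H36CY H73CY

namespace H73ZO

theorem descAt_good {K N : Type} [Field K] [NumberField K] [Field N] [NumberField N] [Algebra K N]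
    {r : ℕ} (hr : Module.finrank K N = 2 ^ r) {v : HeightOneSpectrum (𝓞 K)}
    (h2 : (2 : 𝓞 K) ∉ v.asIdeal)
    (hu : ∀ V : HeightOneSpectrum (𝓞 N), dn K V = v → ¬ Ram K V)
    {a b : 𝓞 K} (hirr : ∀ t : K, t ^ 3 + (a : K) * t + (b : K) ≠ 0) (hd : dsc a b ∉ v.asIdeal) :
    H36CY.DescAt K N v (a : K) (b : K) := by
  intro k k' _ _ _ _ _ _ _ _ _ _ _ _ _ two d hdn hsq hloc u hu'
  have hab : ∀ x : K, algebraMap K k' x = algebraMap k k' (algebraMap K k x) :=
    IsScalarTower.algebraMap_apply K k k'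
  have hone : ∀ x : 𝓞 K, x ∉ v.asIdeal → v.valuation K (x : K) = 1 := by
    intro x hx
    refine le_antisymm (v.valuation_le_one x) (not_lt.1 fun h => hx ?_)
    exact (v.valuation_lt_one_iff_mem x).1 h
  have hv2 : v.valuation K 2 = 1 := by
    have h3 := hone 2 h2
    have h4 : ((2 : 𝓞 K) : K) = 2 := map_ofNat (algebraMap (𝓞 K) K) 2
    rwa [h4] at h3
  have hvD : v.valuation K (4 * (a : K) ^ 3 + 27 * (b : K) ^ 2) = 1 := by
    have h3 := hone (dsc a b) hd
    have h4 : ((dsc a b : 𝓞 K) : K) = 4 * (a : K) ^ 3 + 27 * (b : K) ^ 2 := by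
      unfold dsc
      change algebraMap (𝓞 K) K _ = _
      rw [map_add, map_mul, map_mul, map_pow, map_pow, map_ofNat, map_ofNat]
    rwa [h4] at h3
  have hint : ∀ (x : 𝓞 K) (m : Type) [Field m] [NumberField m] [Algebra K m]
      (w : HeightOneSpectrum (𝓞 m)), w.valuation m (algebraMap K m x) ≤ 1 := by
    intro x m _ _ _ w
    have e1 : algebraMap K m x = algebraMap (𝓞 m) m (algebraMap (𝓞 K) (𝓞 m) x) := rfl
    rw [e1]
    exact w.valuation_le_one _
  have h2m : ∀ (m : Type) [Field m] [NumberField m] [Algebra K m] (w : HeightOneSpectrum (𝓞 m)),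
      dn K w = v → w.valuation m 2 = 1 := by
    intro m _ _ _ w hw
    exact val2_up (K := K) (by rw [hw]; exact hv2)
  have hDm : ∀ (m : Type) [Field m] [NumberField m] [Algebra K m] (w : HeightOneSpectrum (𝓞 m)),
      dn K w = v →
      w.valuation m (4 * algebraMap K m a ^ 3 + 27 * algebraMap K m b ^ 2) = 1 := by
    intro m _ _ _ w hw
    have h3 := val_one (L := m) (w := w) (x := 4 * (a : K) ^ 3 + 27 * (b : K) ^ 2)
      (by rw [hw]; exact hvD)
    rw [map_add, map_mul, map_mul, map_pow, map_pow, map_ofNat, map_ofNat] at h3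
    exact h3
  have hirrk' : ∀ t : k', t ^ 3 + algebraMap k k' (algebraMap K k a) * t +
      algebraMap k k' (algebraMap K k b) ≠ 0 := by
    intro t
    rw [← hab, ← hab]
    exact H73P2.noroot (K := K) (N := N) (k := k') hr hirr t
  obtain ⟨L', _, _, _, θ', h'⟩ := H24PD.exists_cub (K := k') hirrk'
  let _ : Algebra k L' := ((algebraMap k' L').comp (algebraMap k k')).toAlgebra
  have _ : IsScalarTower k k' L' := IsScalarTower.of_algebraMap_eq fun _ => rfl
  obtain ⟨L, _, _, _, _, _, θ, hc, hθ⟩ := H73P2.exists_sub h'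
  have Q : QS k L k' L' (algebraMap K k a) (algebraMap K k b) θ θ' := ⟨two, hc, h', hθ⟩
  have f2 := Q.fin2
  have hne : ev θ d ≠ 0 := by
    rw [← Te_norm hc d, Ne, Algebra.norm_eq_zero_iff] at hdn
    exact hdn
  have hsq' : IsSquare (Algebra.norm k (ev θ d)) := by
    rw [Te_norm hc d]
    exact hsq
  -- even orders over `k`
  have hev : ∀ w : HeightOneSpectrum (𝓞 L), dn k w = u → eo w (sc (ev θ d)) = 0 := by
    intro w hw
    obtain ⟨V, hV⟩ := exists_above (L := N) (dn k w)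
    have hKV : dn K V = v := by
      rw [← hu', ← hw, ← hV]
      exact (dn_dn V).symm
    obtain ⟨h1, -⟩ := unram_mid (k := k) (hu V hKV)
    obtain ⟨D, ρ, hρ, hρk, hD⟩ := exists_gen (k' := k') two h1
    rw [hV] at hD
    have hw2 : w.valuation L 2 = 1 := val2_up (K := k) (h2m k _ (by rw [hw]; exact hu'))
    refine even_unram Q f2 w hw2 hρ hρk hD hne fun w' hw' => ?_
    have hw3 : dn K (dn k' w') = v := by
      rw [← dn_sq (k := k) (L := L), hw', hw]
      exact hu'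
    rw [Q.coord]
    have hne' : ev θ' (fun i => algebraMap k k' (d i)) ≠ 0 := by
      rw [← Q.coord]
      exact (map_ne_zero _).2 hne
    refine even_nice H36MT.ordSub Q.cub' w' ⟨1, _, _, one_ne_zero, (by rw [one_pow, one_mul]),
      (by rw [one_pow, one_mul]), ?_, ?_, ?_⟩ hne' ?_
    · rw [← hab]
      exact hint a k' _
    · rw [← hab]
      exact hint b k' _
    · rw [← hab, ← hab, hDm k' _ hw3, ← exp_zero, exp_le_exp]
      norm_num
    · have h3 := hloc (dn k' w') hw3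
      rw [hab, hab] at h3
      exact h3
  have hD0 : 4 * algebraMap K k a ^ 3 + 27 * algebraMap K k b ^ 2 ≠ 0 := by
    intro h0
    have h3 := hDm k u hu'
    rw [h0, map_zero] at h3
    exact zero_ne_one h3
  have _ := H36CY.char_zero u
  obtain ⟨W, hW⟩ := H30ZO.exists_WW hc (algebraMap k (u.adicCompletion k)) (by
    intro e
    apply hD0
    apply (algebraMap k (u.adicCompletion k)).injective
    rw [map_zero, map_add, map_mul, map_mul, map_pow, map_pow, map_ofNat, map_ofNat]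
    exact e) (H24PD.inf_fin u _ _)
  have hmem := H30ZO.good_W H36MT.ordSub hc u (hint a k u) (hint b k u) (h2m k u hu')
    (hDm k u hu') hW ((H30ZO.mem_HH hne).2 hsq') hev
  exact (H30ZO.Wc_iff _ hc hne).1 ((hW _).1 hmem).2

end H73ZO

end S_H73_ZO_Gd

section S_H36_ZO_Ex

set_option autoImplicit false
set_option linter.unusedSectionVars false
open scoped Classical

open WeierstrassCurve NumberField IsDedekindDomain Pool.Agent.H10 H76PP H36CY

namespace H36ZO

theorem descAt_good {K N : Type} [Field K] [NumberField K] [Field N] [NumberField N] [Algebra K N]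
    {r : ℕ} (hr : Module.finrank K N = 2 ^ r) {v : HeightOneSpectrum (𝓞 K)}
    (h2 : (2 : 𝓞 K) ∉ v.asIdeal)
    (hu : ∀ V : HeightOneSpectrum (𝓞 N), dn K V = v → ¬ H73P2.Ram K V)
    {a b : 𝓞 K} (hirr : ∀ t : K, t ^ 3 + (a : K) * t + (b : K) ≠ 0) (hd : dsc a b ∉ v.asIdeal) :
    DescAt K N v (a : K) (b : K) :=
  H73ZO.descAt_good hr h2 hu hirr hd

section

variable {K F : Type} [Field K] [NumberField K] [Field F] [Algebra K F] [IsGalois K F]

/-- A pair in the residue class of `q` modulo `m` with an irreducible polynomial. -/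
theorem exists_near {Z : Set (HeightOneSpectrum (𝓞 K))} (hZ : Z.Infinite) {m : Ideal (𝓞 K)}
    (hm : m ≠ ⊥) (q : 𝓞 K × 𝓞 K) : ∃ p : 𝓞 K × 𝓞 K, p.1 - q.1 ∈ m ∧ p.2 - q.2 ∈ m ∧
      ∀ t : K, t ^ 3 + (p.1 : K) * t + (p.2 : K) ≠ 0 := by
  have hfin : {v : HeightOneSpectrum (𝓞 K) | m ≤ v.asIdeal}.Finite :=
    (Ideal.finite_factors (I := m) hm).subset fun v hv => Ideal.dvd_iff_le.2 hv
  obtain ⟨w, -, hw⟩ := hZ.exists_notMem_finset hfin.toFinset
  have hw' : ¬ m ≤ w.asIdeal := fun h => hw (hfin.mem_toFinset.2 h)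
  have hmax := w.isMaximal
  obtain ⟨x, hx, y, hy, hxy⟩ : ∃ x ∈ m, ∃ y ∈ w.asIdeal, x + y = 1 := by
    have h1 : m ⊔ w.asIdeal = ⊤ := by
      by_contra h1
      have h3 := hmax.eq_of_le h1 le_sup_right
      apply hw'
      rw [h3]
      exact le_sup_left
    exact Submodule.mem_sup.1 (by rw [h1]; exact trivial)
  obtain ⟨b, hb⟩ := H30PN.Rm_noroot w
  refine ⟨(q.1 + x * (-1 - q.1), q.2 + x * (b - q.2)), ?_, ?_, ?_⟩
  · change q.1 + x * (-1 - q.1) - q.1 ∈ m
    rw [add_sub_cancel_left]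
    exact Ideal.mul_mem_right _ _ hx
  · change q.2 + x * (b - q.2) - q.2 ∈ m
    rw [add_sub_cancel_left]
    exact Ideal.mul_mem_right _ _ hx
  · refine noroot_K (w := w) fun t ht => hb t ?_
    have e : t ^ 3 - t + b = (t ^ 3 + (q.1 + x * (-1 - q.1)) * t + (q.2 + x * (b - q.2))) -
        y * ((q.1 + 1) * t + (q.2 - b)) := by
      have h1 : y = 1 - x := by rw [← hxy]; ring
      rw [h1]
      ring
    rw [e]
    exact Ideal.sub_mem _ ht (Ideal.mul_mem_right _ _ hy)

/-- The local condition at the odd primes of good reduction which are unramified in `F`. -/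
theorem exists_good (h : H30ZO.AdmF K F) {m : Ideal (𝓞 K)} (hm : m ≠ ⊥)
    {v : HeightOneSpectrum (𝓞 K)} (hmv : m ≤ v.asIdeal) (h2 : (2 : 𝓞 K) ∉ v.asIdeal)
    (hu : ∀ (N : IntermediateField K F) [NumberField N] (V : HeightOneSpectrum (𝓞 N)),
      dn K V = v → ¬ H73P2.Ram K V) {q : 𝓞 K × 𝓞 K} (hq : dsc q.1 q.2 ∉ v.asIdeal) :
    ∃ p : 𝓞 K × 𝓞 K, (∀ n : ℕ, m ≤ v.asIdeal ^ n → p.1 - q.1 ∈ v.asIdeal ^ n ∧
      p.2 - q.2 ∈ v.asIdeal ^ n) ∧ (∀ t : K, t ^ 3 + (p.1 : K) * t + (p.2 : K) ≠ 0) ∧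
      LocC K F v (p.1 : K) (p.2 : K) := by
  obtain ⟨p, h1, h3, h4⟩ := exists_near h.spl_inf hm q
  refine ⟨p, fun n hn => ⟨hn h1, hn h3⟩, h4, locC_of_descAt h.deg h4 fun N _ hN => ?_⟩
  obtain ⟨r, hr⟩ := h.deg N hN
  refine descAt_good hr h2 (hu N) h4 fun h5 => hq ?_
  have e : dsc q.1 q.2 = dsc p.1 p.2 - ((p.1 - q.1) *
      (4 * (p.1 ^ 2 + p.1 * q.1 + q.1 ^ 2)) + (p.2 - q.2) * (27 * (p.2 + q.2))) := by
    unfold dsc
    ring
  rw [e]
  exact Ideal.sub_mem _ h5 (Ideal.add_mem _ (Ideal.mul_mem_right _ _ (hmv h1))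
    (Ideal.mul_mem_right _ _ (hmv h3)))

end

end H36ZO

end S_H36_ZO_Ex
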