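import Mathlib
import Mathlib.RingTheory.Frobenius
import Pool.Agent.H10.GrHen
import Pool.Agent.H76.CQ.Qb
import Pool.Agent.H76.CQ.Qc
import Pool.Agent.H76.PN.D1

/-! This file joins several modules to save build time (Y14). -/

set_option autoImplicit false

section S_H36_O2_Df

set_option autoImplicit false
set_option linter.unusedSectionVars false
open scoped Classical

open WithZero NumberField IsDedekindDomain H76PP H36CY H24PD

namespace H36O2

section Alg

variable {κ κ' : Type*} [Field κ] [Field κ']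

/-- `κ'` is an extension of `κ` along `i` and `σ` is an involution of `κ'` with fixed field `κ`. -/
structure Inv2 (i : κ →+* κ') (σ : κ' →+* κ') : Prop where
  inv : ∀ x, σ (σ x) = x
  fix : ∀ x, σ (i x) = i x
  desc : ∀ x, σ x = x → ∃ y, i y = x

/-- `e` in `κ` and `f` in `κ'` are roots of `T^3 + a T + b`, and `f` is not in `κ`. -/
structure Rts (i : κ →+* κ') (σ : κ' →+* κ') (a b e : κ) (f : κ') : Prop where
  r1 : e ^ 3 + a * e + b = 0
  r2 : f ^ 3 + i a * f + i b = 0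
  ne : σ f ≠ f

variable {i : κ →+* κ'} {σ : κ' →+* κ'} {a b e : κ} {f : κ'}

theorem Rts.r1' (h : Rts i σ a b e f) : (i e) ^ 3 + i a * i e + i b = 0 := by
  have h1 := congrArg i h.r1
  simpa using h1

theorem Rts.r3 (hI : Inv2 i σ) (h : Rts i σ a b e f) : (σ f) ^ 3 + i a * σ f + i b = 0 := by
  have h1 := congrArg σ h.r2
  simpa [hI.fix] using h1

theorem Rts.ne1 (hI : Inv2 i σ) (h : Rts i σ a b e f) : i e ≠ f := by
  intro h1
  apply h.ne
  rw [← h1, hI.fix]

theorem Rts.ne2 (hI : Inv2 i σ) (h : Rts i σ a b e f) : i e ≠ σ f := by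
  intro h1
  apply h.ne1 hI
  have h2 := congrArg σ h1
  rwa [hI.inv, hI.fix] at h2

theorem Rts.sum (hI : Inv2 i σ) (h : Rts i σ a b e f) : i e + f + σ f = 0 := by
  have h1 : (i e - f) * ((i e) ^ 2 + i e * f + f ^ 2 + i a) = 0 := by
    linear_combination h.r1' - h.r2
  have h2 : (i e - σ f) * ((i e) ^ 2 + i e * σ f + (σ f) ^ 2 + i a) = 0 := by
    linear_combination h.r1' - h.r3 hI
  have h3 := (mul_eq_zero.1 h1).resolve_left (sub_ne_zero.2 (h.ne1 hI))
  have h4 := (mul_eq_zero.1 h2).resolve_left (sub_ne_zero.2 (h.ne2 hI))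
  have h5 : (f - σ f) * (i e + f + σ f) = 0 := by linear_combination h3 - h4
  exact (mul_eq_zero.1 h5).resolve_left (sub_ne_zero.2 h.ne.symm)

theorem Rts.a_eq (hI : Inv2 i σ) (h : Rts i σ a b e f) :
    i a = i e * f + i e * σ f + f * σ f := by
  have h1 : (i e - f) * ((i e) ^ 2 + i e * f + f ^ 2 + i a) = 0 := by
    linear_combination h.r1' - h.r2
  have h3 := (mul_eq_zero.1 h1).resolve_left (sub_ne_zero.2 (h.ne1 hI))
  have h4 := h.sum hI
  linear_combination h3 - (i e + f) * h4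

theorem Rts.b_eq (hI : Inv2 i σ) (h : Rts i σ a b e f) : i b = -(i e * f * σ f) := by
  have h1 := h.r1'
  have h2 := h.a_eq hI
  have h4 := h.sum hI
  linear_combination h1 - i e * h2 - (i e) ^ 2 * h4

/-- The factorisation of the cubic over `κ'`. -/
theorem Rts.fac (hI : Inv2 i σ) (h : Rts i σ a b e f) (x : κ') :
    x ^ 3 + i a * x + i b = (x - i e) * (x - f) * (x - σ f) := by
  have h2 := h.a_eq hI
  have h3 := h.b_eq hI
  have h4 := h.sum hI
  linear_combination x * h2 + h3 + x ^ 2 * h4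

/-- The product of the differences. -/
theorem Rts.prod (hI : Inv2 i σ) (h : Rts i σ a b e f) :
    (i e - f) * (i e - σ f) = i (3 * e ^ 2 + a) := by
  have h2 := h.a_eq hI
  have h4 := h.sum hI
  rw [map_add, map_mul, map_pow, map_ofNat]
  linear_combination -h2 - 2 * i e * h4

end Alg

section Near

variable {M : Type*} [Field M] [Valued M (WithZero (Multiplicative ℤ))]

/-- The element `x` is close to the root `e` (relative to the other roots `f`, `g`), and the distances have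
odd order. -/
structure Nr (n : ℤ) (e f g x : M) : Prop where
  sf : IsSquare ((x - f) * (e - f))
  sg : IsSquare ((x - g) * (e - g))
  vf : Valued.v (x - f) = exp (2 * n + 1)
  vg : Valued.v (x - g) = exp (2 * n + 1)
  ve : ∃ m : ℤ, Valued.v (x - e) = exp (2 * m)

end Near

section Pts

variable {K : Type} [Field K] [NumberField K]

/-- Up to a twist by `D` the cubic has exactly one root modulo `v`. -/
def TypAt (v : HeightOneSpectrum (𝓞 K)) (a b : K) : Prop :=
  ∃ (D A B : 𝓞 K), D ≠ 0 ∧ a = (D : K) ^ 2 * (A : K) ∧ b = (D : K) ^ 3 * (B : K) ∧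
    ∃ t : 𝓞 K, t ^ 3 + A * t + B ∈ v.asIdeal ∧ ∀ s : 𝓞 K, -3 * t ^ 2 - 4 * A - s ^ 2 ∉ v.asIdeal

/-- The decomposition groups of `v` in `N / K` have order at most two. -/
def Dec2 (N : Type) [Field N] [NumberField N] [Algebra K N] (v : HeightOneSpectrum (𝓞 K)) : Prop :=
  ∀ W : HeightOneSpectrum (𝓞 N), dn K W = v → ∃ t : N ≃ₐ[K] N, ∀ g : N ≃ₐ[K] N,
    Stb K W g → g = 1 ∨ g = t

end Pts

end H36O2

end S_H36_O2_Df

section S_H36_O2_Oa

set_option autoImplicit false
set_option linter.unusedSectionVars false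
open scoped Classical

open WithZero NumberField IsDedekindDomain H76PP H36CY H24PD

namespace H36O2

private theorem Oa_E3_map {R S : Type*} [CommRing R] [CommRing S] (g : R →+* S) (x : R) (u : Fin 3 → R) :
    E3 (g x) (fun j => g (u j)) = g (E3 x u) := by
  unfold E3
  simp only [map_add, map_mul, map_pow]

private theorem Oa_m3_map {R S : Type*} [CommRing R] [CommRing S] (g : R →+* S) (a b : R) (u v : Fin 3 → R) :
    (fun j => g (m3 a b u v j)) = m3 (g a) (g b) (fun j => g (u j)) (fun j => g (v j)) := by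
  funext j
  fin_cases j
  · show g (u 0 * v 0 - b * (u 1 * v 2 + u 2 * v 1)) = g (u 0) * g (v 0) - g b * (g (u 1) * g (v 2) + g (u 2) * g (v 1))
    simp only [map_add, map_mul, map_sub]
  · show g (u 0 * v 1 + u 1 * v 0 - a * (u 1 * v 2 + u 2 * v 1) - b * (u 2 * v 2))
      = g (u 0) * g (v 1) + g (u 1) * g (v 0) - g a * (g (u 1) * g (v 2) + g (u 2) * g (v 1)) - g b * (g (u 2) * g (v 2))
    simp only [map_add, map_mul, map_sub]
  · show g (u 0 * v 2 + u 1 * v 1 + u 2 * v 0 - a * (u 2 * v 2))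
      = g (u 0) * g (v 2) + g (u 1) * g (v 1) + g (u 2) * g (v 0) - g a * (g (u 2) * g (v 2))
    simp only [map_add, map_mul, map_sub]

theorem sq_interp {κ κ' : Type*} [Field κ] [Field κ'] {i : κ →+* κ'} {σ : κ' →+* κ'}
    (hI : Inv2 i σ) {a b e : κ} {f : κ'} (hR : Rts i σ a b e f) {w : Fin 3 → κ} {r : κ} {s : κ'}
    (h1 : E3 e w = r ^ 2) (h2 : E3 f (fun j => i (w j)) = s ^ 2) :
    ∃ z : Fin 3 → κ, m3 a b z z = w := by
  have n1 : i e ≠ f := hR.ne1 hI
  have n2 : i e ≠ σ f := hR.ne2 hI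
  have n3 : f ≠ σ f := hR.ne.symm
  obtain ⟨v, hv⟩ : ∃ v : Fin 3 → κ', v = ![i e, f, σ f] := ⟨_, rfl⟩
  have v0 : v 0 = i e := by rw [hv]; rfl
  have v1 : v 1 = f := by rw [hv]; rfl
  have v2 : v 2 = σ f := by rw [hv]; rfl
  have m01 : v 0 ≠ v 1 := by rw [v0, v1]; exact n1
  have m02 : v 0 ≠ v 2 := by rw [v0, v2]; exact n2
  have m12 : v 1 ≠ v 2 := by rw [v1, v2]; exact n3
  obtain ⟨c, hc⟩ := E3_ex m01 m02 m12 ![i r, s, σ s]
  have c0 : E3 (i e) c = i r := by
    have h := hc 0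
    rw [v0] at h
    exact h
  have c1 : E3 f c = s := by
    have h := hc 1
    rw [v1] at h
    exact h
  have c2 : E3 (σ f) c = σ s := by
    have h := hc 2
    rw [v2] at h
    exact h
  have hfix : (fun j => σ (c j)) = c := by
    refine E3_inj m01 m02 m12 fun k => ?_
    fin_cases k
    · show E3 (v 0) (fun j => σ (c j)) = E3 (v 0) c
      rw [v0, c0]
      have h := Oa_E3_map σ (i e) c
      rw [hI.fix, c0, hI.fix] at h
      exact h
    · show E3 (v 1) (fun j => σ (c j)) = E3 (v 1) c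
      rw [v1, c1]
      have h := Oa_E3_map σ (σ f) c
      rw [hI.inv, c2, hI.inv] at h
      exact h
    · show E3 (v 2) (fun j => σ (c j)) = E3 (v 2) c
      rw [v2, c2]
      have h := Oa_E3_map σ f c
      rw [c1] at h
      exact h
  have hex : ∀ j, ∃ y : κ, i y = c j := fun j => hI.desc (c j) (congrFun hfix j)
  choose z hz using hex
  refine ⟨z, ?_⟩
  have hzc : (fun j => i (z j)) = c := funext hz
  have hfin : (fun j => i (m3 a b z z j)) = fun j => i (w j) := by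
    rw [Oa_m3_map, hzc]
    refine E3_inj m01 m02 m12 fun k => ?_
    fin_cases k
    · show E3 (v 0) (m3 (i a) (i b) c c) = E3 (v 0) (fun j => i (w j))
      rw [v0, E3_m3 hR.r1' c c, c0, Oa_E3_map i e w, h1]
      rw [map_pow, sq]
    · show E3 (v 1) (m3 (i a) (i b) c c) = E3 (v 1) (fun j => i (w j))
      rw [v1, E3_m3 hR.r2 c c, c1, h2, sq]
    · show E3 (v 2) (m3 (i a) (i b) c c) = E3 (v 2) (fun j => i (w j))
      rw [v2, E3_m3 (hR.r3 hI) c c, c2]
      have h := Oa_E3_map σ f (fun j => i (w j))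
      simp only [hI.fix] at h
      rw [h, h2, map_pow, sq]
  funext j
  exact i.injective (congrFun hfin j)

end H36O2

end S_H36_O2_Oa

section S_H36_O2_Ob

set_option autoImplicit false
set_option linter.unusedSectionVars false
open scoped Classical

open WithZero NumberField IsDedekindDomain H76PP H36CY H24PD

namespace H36O2

theorem sq_one_add_aux {M : Type*} [Field M] [Valued M (WithZero (Multiplicative ℤ))]
    [CompleteSpace M] (h4 : Valued.v (4 : M) = 1) {c : M} (hc : Valued.v c < 1) :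
    IsSquare (1 + c) := by
  have h40 : (4 : M) ≠ 0 := by
    intro h
    rw [h, map_zero] at h4
    exact zero_ne_one h4
  have h20 : (2 : M) ≠ 0 := by
    intro h
    apply h40
    have : (4 : M) = 2 * 2 := by norm_num
    rw [this, h, mul_zero]
  exact Pool.Agent.H10.isSquare_one_add h20 (by rw [h4]; exact hc)

theorem near_aux {M : Type*} [Field M] [Valued M (WithZero (Multiplicative ℤ))] [CompleteSpace M]
    (h4 : Valued.v (4 : M) = 1) {n : ℤ} {e f g x y : M}
    (hef : Valued.v (e - f) = exp (2 * n + 1)) (heg : Valued.v (e - g) = exp (2 * n + 1))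
    (hy : y ≠ 0) (hxy : y ^ 2 = (x - e) * (x - f) * (x - g))
    (hlt : Valued.v (x - e) < exp (2 * n + 1)) : Nr n e f g x := by
  have key : ∀ r : M, Valued.v (e - r) = exp (2 * n + 1) →
      Valued.v (x - r) = exp (2 * n + 1) ∧ IsSquare ((x - r) * (e - r)) := by
    intro r hr
    have h0 : e - r ≠ 0 := by
      intro h
      rw [h, map_zero] at hr
      exact exp_ne_zero hr.symm
    constructor
    · have h1 : x - r = (x - e) + (e - r) := by ring
      rw [h1, Valuation.map_add_eq_of_lt_right _ (by rw [hr]; exact hlt), hr]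
    · obtain ⟨s, hs⟩ := sq_one_add_aux h4 (c := (x - e) / (e - r)) (by
        rw [map_div₀, hr, div_lt_one₀ (zero_lt_iff.mpr exp_ne_zero)]
        exact hlt)
      refine ⟨(e - r) * s, ?_⟩
      have h2 : (x - r) * (e - r) = (e - r) * (e - r) * (1 + (x - e) / (e - r)) := by
        field_simp
        ring
      rw [h2, hs]
      ring
  obtain ⟨h1, h2⟩ := key f hef
  obtain ⟨h3, h4'⟩ := key g heg
  refine ⟨h2, h4', h1, h3, ?_⟩
  have hvy : Valued.v y ≠ 0 := (Valuation.ne_zero_iff _).mpr hy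
  refine ⟨log (Valued.v y) - (2 * n + 1), ?_⟩
  have h5 : Valued.v y ^ 2 = Valued.v (x - e) * exp (2 * n + 1) * exp (2 * n + 1) := by
    rw [← map_pow, hxy, map_mul, map_mul, h1, h3]
  have h6 : Valued.v y ^ 2 = exp (2 * log (Valued.v y)) := by
    rw [pow_two]
    nth_rewrite 1 [← exp_log hvy]
    nth_rewrite 2 [← exp_log hvy]
    rw [← exp_add]
    congr 1
    ring
  have h7 : exp (2 * (log (Valued.v y) - (2 * n + 1))) * exp (2 * n + 1) * exp (2 * n + 1) =
      exp (2 * log (Valued.v y)) := by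
    rw [← exp_add, ← exp_add]
    congr 1
    ring
  have h8 : Valued.v (x - e) * exp (2 * n + 1) * exp (2 * n + 1) =
      exp (2 * (log (Valued.v y) - (2 * n + 1))) * exp (2 * n + 1) * exp (2 * n + 1) := by
    rw [h7, ← h6, h5]
  exact mul_right_cancel₀ exp_ne_zero (mul_right_cancel₀ exp_ne_zero h8)

theorem cases_pt {M : Type*} [Field M] [Valued M (WithZero (Multiplicative ℤ))] [CompleteSpace M]
    (h4 : Valued.v (4 : M) = 1) {n : ℤ} {e f g x y : M} (he : Valued.v e ≤ exp (2 * n + 1))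
    (hf : Valued.v f ≤ exp (2 * n + 1)) (hg : Valued.v g ≤ exp (2 * n + 1))
    (hef : Valued.v (e - f) = exp (2 * n + 1)) (heg : Valued.v (e - g) = exp (2 * n + 1))
    (hfg : Valued.v (f - g) = exp (2 * n + 1)) (hy : y ≠ 0)
    (hxy : y ^ 2 = (x - e) * (x - f) * (x - g)) :
    (IsSquare (x - e) ∧ IsSquare (x - f) ∧ IsSquare (x - g)) ∨ Nr n e f g x ∨ Nr n f e g x ∨
      Nr n g e f x := by
  have hvy : Valued.v y ≠ 0 := (Valuation.ne_zero_iff _).mpr hy
  rcases lt_or_ge (exp (2 * n + 1)) (Valued.v x) with hA | hB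
  · left
    have hx0 : x ≠ 0 := by
      intro h
      rw [h, map_zero] at hA
      exact absurd hA (not_lt_of_ge zero_le)
    have hvx : Valued.v x ≠ 0 := (Valuation.ne_zero_iff _).mpr hx0
    have key : ∀ r : M, Valued.v r ≤ exp (2 * n + 1) → ∃ s, x - r = x * s ^ 2 := by
      intro r hr
      obtain ⟨s, hs⟩ := sq_one_add_aux h4 (c := -(r / x)) (by
        rw [Valuation.map_neg, map_div₀, div_lt_one₀ (zero_lt_iff.mpr hvx)]
        exact lt_of_le_of_lt hr hA)
      refine ⟨s, ?_⟩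
      have h2 : x - r = x * (1 + -(r / x)) := by
        field_simp
        ring
      rw [h2, hs]
      ring
    obtain ⟨s1, hs1⟩ := key e he
    obtain ⟨s2, hs2⟩ := key f hf
    obtain ⟨s3, hs3⟩ := key g hg
    have hp : y ^ 2 = x * (x * (s1 * s2 * s3)) ^ 2 := by
      rw [hxy, hs1, hs2, hs3]
      ring
    have hs0 : x * (s1 * s2 * s3) ≠ 0 := by
      intro h
      rw [h] at hp
      have : y ^ 2 = 0 := by rw [hp]; ring
      exact hy (pow_eq_zero_iff (two_ne_zero) |>.1 this)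
    have hx : x = (y / (x * (s1 * s2 * s3))) ^ 2 := by
      rw [div_pow, hp, mul_div_assoc, div_self (pow_ne_zero 2 hs0), mul_one]
    have sq : ∀ s : M, IsSquare (x * s ^ 2) := by
      intro s
      refine ⟨(y / (x * (s1 * s2 * s3))) * s, ?_⟩
      nth_rewrite 1 [hx]
      ring
    rw [hs1, hs2, hs3]
    exact ⟨sq s1, sq s2, sq s3⟩
  · right
    have hle : ∀ r : M, Valued.v r ≤ exp (2 * n + 1) → Valued.v (x - r) ≤ exp (2 * n + 1) := by
      intro r hr
      exact (Valuation.map_sub _ _ _).trans (max_le hB hr)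
    have hfe : Valued.v (f - e) = exp (2 * n + 1) := by
      rw [Valuation.map_sub_swap]; exact hef
    have hge : Valued.v (g - e) = exp (2 * n + 1) := by
      rw [Valuation.map_sub_swap]; exact heg
    have hgf : Valued.v (g - f) = exp (2 * n + 1) := by
      rw [Valuation.map_sub_swap]; exact hfg
    rcases lt_or_eq_of_le (hle e he) with h1 | h1
    · left
      exact near_aux h4 hef heg hy hxy h1
    rcases lt_or_eq_of_le (hle f hf) with h2 | h2
    · right; left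
      exact near_aux h4 hfe hfg hy (by rw [hxy]; ring) h2
    rcases lt_or_eq_of_le (hle g hg) with h3 | h3
    · right; right
      exact near_aux h4 hge hgf hy (by rw [hxy]; ring) h3
    exfalso
    have h5 : Valued.v y ^ 2 = exp (2 * n + 1) * exp (2 * n + 1) * exp (2 * n + 1) := by
      rw [← map_pow, hxy, map_mul, map_mul, h1, h2, h3]
    have h6 : Valued.v y ^ 2 = exp (2 * log (Valued.v y)) := by
      rw [pow_two]
      nth_rewrite 1 [← exp_log hvy]
      nth_rewrite 2 [← exp_log hvy]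
      rw [← exp_add]
      congr 1
      ring
    rw [h6, ← exp_add, ← exp_add] at h5
    have h7 := exp_injective h5
    omega

end H36O2

end S_H36_O2_Ob

section S_H36_O2_Oc

set_option autoImplicit false
set_option linter.unusedSectionVars false
open scoped Classical

open WithZero NumberField IsDedekindDomain H76PP H36CY H24PD

namespace H36O2

private theorem Oc_pow {γ : WithZero (Multiplicative ℤ)} (h1 : γ < 1)
    (c : WithZero (Multiplicative ℤ)) : ∃ N : ℕ, γ ^ N * c < 1 := by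
  by_cases hc : c = 0
  · refine ⟨0, ?_⟩
    rw [hc, mul_zero]
    exact zero_lt_one
  · obtain ⟨N, hN⟩ := exists_pow_lt₀ h1 (Units.mk0 c⁻¹ (inv_ne_zero hc))
    refine ⟨N, ?_⟩
    rw [Units.val_mk0] at hN
    calc γ ^ N * c < c⁻¹ * c := mul_lt_mul_of_pos_right hN (zero_lt_iff.2 hc)
      _ = 1 := inv_mul_cancel₀ hc

theorem exists_pts {κ κ' : Type*} [Field κ] [Field κ'] [Valued κ (WithZero (Multiplicative ℤ))]
    [CompleteSpace κ] [Valued κ' (WithZero (Multiplicative ℤ))] [CompleteSpace κ']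
    {i : κ →+* κ'} {σ : κ' →+* κ'} (hI : Inv2 i σ) (h4 : Valued.v (4 : κ) = 1)
    (h4' : Valued.v (4 : κ') = 1) {π : κ} (hπ0 : π ≠ 0) (hπ : Valued.v π < 1)
    (hv : ∀ x : κ, Valued.v (i x) = Valued.v x) {a b e : κ} {f : κ'} (hR : Rts i σ a b e f) :
    ∃ x₀ y₀ x₁ y₁ : κ, y₀ ≠ 0 ∧ y₀ ^ 2 = x₀ ^ 3 + a * x₀ + b ∧ IsSquare (x₀ - e) ∧
      IsSquare (i x₀ - f) ∧ y₁ ≠ 0 ∧ y₁ ^ 2 = x₁ ^ 3 + a * x₁ + b ∧
      IsSquare ((x₁ - e) * (3 * e ^ 2 + a)) ∧ IsSquare ((i x₁ - f) * (i e - f)) := by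
  have h40 : (4 : κ) ≠ 0 := by
    intro h
    rw [h, map_zero] at h4
    exact zero_ne_one h4
  have h20 : (2 : κ) ≠ 0 := by
    intro h
    apply h40
    linear_combination 2 * h
  have h40' : (4 : κ') ≠ 0 := by
    intro h
    rw [h, map_zero] at h4'
    exact zero_ne_one h4'
  have h20' : (2 : κ') ≠ 0 := by
    intro h
    apply h40'
    linear_combination 2 * h
  obtain ⟨q, hq⟩ : ∃ q, q = 3 * e ^ 2 + a := ⟨_, rfl⟩
  obtain ⟨g, hg⟩ : ∃ g, g = i e - f := ⟨_, rfl⟩
  obtain ⟨g', hg'⟩ : ∃ g', g' = i e - σ f := ⟨_, rfl⟩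
  have hgg : g * g' = i q := by
    rw [hg, hg', hq]
    exact hR.prod hI
  have hg0 : g ≠ 0 := by
    rw [hg]
    exact sub_ne_zero.2 (hR.ne1 hI)
  have hg0' : g' ≠ 0 := by
    rw [hg']
    exact sub_ne_zero.2 (hR.ne2 hI)
  have hq0 : q ≠ 0 := by
    intro h
    rw [h, map_zero] at hgg
    exact mul_ne_zero hg0 hg0' hgg
  obtain ⟨c, hc⟩ : ∃ c : WithZero (Multiplicative ℤ), c = max 1 (max (Valued.v (3 * e))
    (max (Valued.v q) (max (Valued.v g) (Valued.v g')))) := ⟨_, rfl⟩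
  have c0 : 1 ≤ c := by
    rw [hc]
    exact le_max_left _ _
  have c1 : Valued.v (3 * e) ≤ c := by
    rw [hc]
    exact (le_max_left _ _).trans (le_max_right _ _)
  have c2 : Valued.v q ≤ c := by
    rw [hc]
    exact ((le_max_left _ _).trans (le_max_right _ _)).trans (le_max_right _ _)
  have c3 : Valued.v g ≤ c := by
    rw [hc]
    exact (((le_max_left _ _).trans (le_max_right _ _)).trans (le_max_right _ _)).trans
      (le_max_right _ _)
  have c4 : Valued.v g' ≤ c := by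
    rw [hc]
    exact (((le_max_right _ _).trans (le_max_right _ _)).trans (le_max_right _ _)).trans
      (le_max_right _ _)
  obtain ⟨N, hN⟩ := Oc_pow hπ c
  obtain ⟨s, hs⟩ : ∃ s, s = π ^ N := ⟨_, rfl⟩
  have hs0 : s ≠ 0 := by
    rw [hs]
    exact pow_ne_zero _ hπ0
  have hsc : Valued.v s * c < 1 := by
    rw [hs, map_pow]
    exact hN
  have hs1 : Valued.v s < 1 :=
    lt_of_le_of_lt (by simpa using mul_le_mul_right c0 (Valued.v s)) hsc
  have hbd : ∀ t : WithZero (Multiplicative ℤ), t ≤ c → Valued.v s ^ 2 * t < 1 := by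
    intro t ht
    refine lt_of_le_of_lt ?_ hsc
    rw [sq]
    refine mul_le_mul' ?_ ht
    exact mul_le_of_le_one_right' hs1.le
  have his0 : i s ≠ 0 := by
    intro h
    exact hs0 (i.injective (h.trans (map_zero i).symm))
  have hx : Valued.v (3 * e * s ^ 2 + q * s ^ 4) < 1 := by
    refine Valuation.map_add_lt _ ?_ ?_
    · rw [map_mul, map_pow, mul_comm]
      exact hbd _ c1
    · have e1 : q * s ^ 4 = s ^ 2 * (s ^ 2 * q) := by ring
      rw [e1, map_mul, map_mul, map_pow]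
      refine lt_of_le_of_lt ?_ (hbd _ c2)
      refine mul_le_of_le_one_left' ?_
      exact pow_le_one₀ zero_le hs1.le
  obtain ⟨m, hm⟩ := Pool.Agent.H10.isSquare_one_add h20 (x := 3 * e * s ^ 2 + q * s ^ 4)
    (by rw [h4]; exact hx)
  have hm0 : m ≠ 0 := by
    intro h
    rw [h, mul_zero] at hm
    have h1 : 3 * e * s ^ 2 + q * s ^ 4 = -1 := by linear_combination hm
    rw [h1, Valuation.map_neg, map_one] at hx
    exact lt_irrefl _ hx
  obtain ⟨n, hn⟩ := Pool.Agent.H10.isSquare_one_add h20' (x := (i s) ^ 2 * g) (by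
    rw [h4', map_mul, map_pow, hv]
    exact hbd _ c3)
  obtain ⟨n', hn'⟩ := Pool.Agent.H10.isSquare_one_add h20' (x := (i s) ^ 2 * g') (by
    rw [h4', map_mul, map_pow, hv]
    exact hbd _ c4)
  have hr := hR.r1
  refine ⟨e + 1 / s ^ 2, m / s ^ 3, e + q * s ^ 2, q * s * m, ?_, ?_, ?_, ?_, ?_, ?_, ?_, ?_⟩
  · exact div_ne_zero hm0 (pow_ne_zero _ hs0)
  · have e1 : (e + 1 / s ^ 2) ^ 3 + a * (e + 1 / s ^ 2) + b =
        (1 + (3 * e * s ^ 2 + q * s ^ 4)) / s ^ 6 := by
      rw [hq]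
      field_simp
      linear_combination s ^ 6 * hr
    rw [e1, hm]
    field_simp
  · refine ⟨1 / s, ?_⟩
    field_simp
    ring
  · refine ⟨n / i s, ?_⟩
    have e1 : i (e + 1 / s ^ 2) - f = (1 + (i s) ^ 2 * g) / (i s) ^ 2 := by
      rw [hg, map_add, map_div₀, map_one, map_pow]
      field_simp
      ring
    rw [e1, hn]
    field_simp
  · exact mul_ne_zero (mul_ne_zero hq0 hs0) hm0
  · have e1 : (e + q * s ^ 2) ^ 3 + a * (e + q * s ^ 2) + b =
        q ^ 2 * s ^ 2 * (1 + (3 * e * s ^ 2 + q * s ^ 4)) := by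
      linear_combination hr - q * s ^ 2 * hq
    rw [e1, hm]
    ring
  · refine ⟨q * s, ?_⟩
    rw [← hq]
    ring
  · refine ⟨g * n', ?_⟩
    rw [← hg, map_add, map_mul, map_pow, ← hgg]
    linear_combination g ^ 2 * hn' + (-g) * hg

end H36O2

end S_H36_O2_Oc

section S_H36_O2_Od

set_option autoImplicit false
set_option linter.unusedSectionVars false
open scoped Classical

open WithZero NumberField IsDedekindDomain H76PP H36CY H24PD

namespace H36O2

private lemma Od_norm {F : Type*} [CommRing F] {E f g A B : F} (hs : E + f + g = 0)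
    (hA : A = E * f + E * g + f * g) (hB : B = -(E * f * g)) (u : Fin 3 → F) :
    E3 E u * E3 f u * E3 g u = Te_nf A B u := by
  have hE : E = -f - g := by linear_combination hs
  subst hA hB hE
  unfold E3 Te_nf
  ring

private lemma Od_map {κ κ' : Type*} [Field κ] [Field κ'] (i : κ →+* κ') (e : κ) (d : Fin 3 → κ) :
    E3 (i e) (fun j => i (d j)) = i (E3 e d) := by
  unfold E3
  simp only [map_add, map_mul, map_pow]

private lemma Od_x {F : Type*} [CommRing F] (e x : F) : E3 e ![x, -1, 0] = x - e := by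
  simp [E3]
  ring

private lemma Od_fin {κ κ' : Type*} [Field κ] [Field κ'] {i : κ →+* κ'} {σ : κ' →+* κ'}
    (hI : Inv2 i σ) {a b e : κ} {f : κ'} (hR : Rts i σ a b e f) {d : Fin 3 → κ} {x₀ y₀ : κ}
    (hy : y₀ ≠ 0) (hxy : y₀ ^ 2 = x₀ ^ 3 + a * x₀ + b)
    {r : κ} (h1 : E3 e d * (x₀ - e) = r ^ 2)
    {s : κ'} (h2 : E3 f (fun j => i (d j)) * (i x₀ - f) = s ^ 2) :
    ∃ (x y : κ) (z : Fin 3 → κ), y ≠ 0 ∧ y ^ 2 = x ^ 3 + a * x + b ∧
      m3 a b d ![x, -1, 0] = m3 a b z z := by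
  obtain ⟨z, hz⟩ := sq_interp hI hR (w := m3 a b d ![x₀, -1, 0]) (r := r) (s := s)
    (by rw [E3_m3 hR.r1, Od_x, h1])
    (by
      have h3 : (fun j => i (m3 a b d ![x₀, -1, 0] j)) =
          m3 (i a) (i b) (fun j => i (d j)) (fun j => i ((![x₀, -1, 0] : Fin 3 → κ) j)) := by
        funext j
        exact (Te_m3_map i a b d ![x₀, -1, 0] j).symm
      have h4 : (fun j => i ((![x₀, -1, 0] : Fin 3 → κ) j)) = ![i x₀, -1, 0] := by
        funext j
        fin_cases j <;> simp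
      rw [h3, h4, E3_m3 hR.r2, Od_x, h2])
  exact ⟨x₀, y₀, z, hy, hxy, hz.symm⟩

private lemma Od_exp {Γ : Type*} [Field Γ] [Valued Γ (WithZero (Multiplicative ℤ))] {D u z : Γ}
    {k m : ℤ} (hD : Valued.v D = exp k) (hu : Valued.v u = exp m) (hz : D * u = z * z) :
    ∃ l : ℤ, k + m = 2 * l := by
  have hz0 : z ≠ 0 := by
    rintro rfl
    rw [mul_zero] at hz
    have h1 := congrArg Valued.v hz
    rw [map_mul, hD, hu, map_zero, ← exp_add] at h1
    exact absurd h1 exp_ne_zero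
  have hvz : Valued.v z ≠ 0 := (Valuation.ne_zero_iff _).2 hz0
  refine ⟨log (Valued.v z), ?_⟩
  have h1 := congrArg Valued.v hz
  rw [map_mul, map_mul, hD, hu, ← exp_log hvz, ← exp_add, ← exp_add, exp_inj] at h1
  rw [h1]
  ring

private lemma Od_core {κ κ' : Type*} [Field κ] [Field κ']
    [Valued κ (WithZero (Multiplicative ℤ))] [CompleteSpace κ]
    [Valued κ' (WithZero (Multiplicative ℤ))] [CompleteSpace κ']
    {i : κ →+* κ'} {σ : κ' →+* κ'} (hI : Inv2 i σ) (h4 : Valued.v (4 : κ) = 1)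
    (h4' : Valued.v (4 : κ') = 1) {π : κ} (hπ0 : π ≠ 0) (hπ : Valued.v π < 1)
    (hv : ∀ x : κ, Valued.v (i x) = Valued.v x) (hσ : ∀ x : κ', Valued.v (σ x) = Valued.v x)
    {a b : κ} {e : κ} {f : κ'} (hR : Rts i σ a b e f) {n : ℤ}
    (he : Valued.v (i e) ≤ exp (2 * n + 1)) (hf : Valued.v f ≤ exp (2 * n + 1))
    (hef : Valued.v (i e - f) = exp (2 * n + 1)) (hfg : Valued.v (f - σ f) = exp (2 * n + 1))
    {d : Fin 3 → κ} {ν : κ} (hν0 : ν ≠ 0) (hν : Te_nf a b d = ν ^ 2)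
    {x y : κ'} {z : Fin 3 → κ'} (hy : y ≠ 0) (hxy : y ^ 2 = x ^ 3 + i a * x + i b)
    (hz : m3 (i a) (i b) (fun j => i (d j)) ![x, -1, 0] = m3 (i a) (i b) z z) :
    ∃ (x y : κ) (z : Fin 3 → κ), y ≠ 0 ∧ y ^ 2 = x ^ 3 + a * x + b ∧
      m3 a b d ![x, -1, 0] = m3 a b z z := by
  have hfac : y ^ 2 = (x - i e) * (x - f) * (x - σ f) := by rw [hxy, hR.fac hI]
  have hy2 : y ^ 2 ≠ 0 := pow_ne_zero _ hy
  have nE : x - i e ≠ 0 := by
    intro h0
    rw [hfac, h0, zero_mul, zero_mul] at hy2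
    exact hy2 rfl
  have nf : x - f ≠ 0 := by
    intro h0
    rw [hfac, h0, mul_zero, zero_mul] at hy2
    exact hy2 rfl
  have ng : x - σ f ≠ 0 := by
    intro h0
    rw [hfac, h0, mul_zero] at hy2
    exact hy2 rfl
  obtain ⟨D₁, hD₁⟩ : ∃ D₁, D₁ = E3 e d := ⟨_, rfl⟩
  obtain ⟨D₂, hD₂⟩ : ∃ D₂, D₂ = E3 f (fun j => i (d j)) := ⟨_, rfl⟩
  have hσD : E3 (σ f) (fun j => i (d j)) = σ D₂ := by
    rw [hD₂]
    unfold E3
    simp only [map_add, map_mul, map_pow, hI.fix]
  have hED : E3 (i e) (fun j => i (d j)) = i D₁ := by rw [hD₁, Od_map]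
  have q1 : i D₁ * (x - i e) = E3 (i e) z * E3 (i e) z := by
    rw [← E3_m3 hR.r1', ← hz, E3_m3 hR.r1', Od_x, hED]
  have q2 : D₂ * (x - f) = E3 f z * E3 f z := by
    rw [← E3_m3 hR.r2, ← hz, E3_m3 hR.r2, Od_x, hD₂]
  have q3 : σ D₂ * (x - σ f) = E3 (σ f) z * E3 (σ f) z := by
    rw [← E3_m3 (hR.r3 hI), ← hz, E3_m3 (hR.r3 hI), Od_x, hσD]
  have hN : i D₁ * D₂ * σ D₂ = (i ν) ^ 2 := by
    have h1 := Od_norm (hR.sum hI) (hR.a_eq hI) (hR.b_eq hI) (fun j => i (d j))
    rw [hED, ← hD₂, hσD, Te_nf_map, hν, map_pow] at h1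
    exact h1
  have hiν : i ν ≠ 0 := (map_ne_zero i).2 hν0
  have hN0 : i D₁ * D₂ * σ D₂ ≠ 0 := by
    rw [hN]
    exact pow_ne_zero _ hiν
  have hD20 : D₂ ≠ 0 := by
    rintro h0
    rw [h0, mul_zero, zero_mul] at hN0
    exact hN0 rfl
  have hinj : Function.Injective i := i.injective
  have hdesc : ∀ t : κ', t ≠ 0 → ∃ N : κ, N ≠ 0 ∧ i N = t * σ t := by
    intro t ht
    obtain ⟨N, hN⟩ := hI.desc (t * σ t) (by rw [map_mul, hI.inv, mul_comm])
    refine ⟨N, ?_, hN⟩
    rintro rfl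
    rw [map_zero] at hN
    exact (mul_ne_zero ht ((map_ne_zero σ).2 ht)) hN.symm
  have hvD : Valued.v D₂ ≠ 0 := (Valuation.ne_zero_iff _).2 hD20
  obtain ⟨x₀, y₀, x₁, y₁, hy₀, hxy₀, hs₀, ht₀, hy₁, hxy₁, hs₁, ht₁⟩ :=
    exists_pts hI h4 h4' hπ0 hπ hv hR
  have hg : Valued.v (σ f) ≤ exp (2 * n + 1) := by
    rw [hσ]
    exact hf
  have heg : Valued.v (i e - σ f) = exp (2 * n + 1) := by
    have h1 : i e - σ f = σ (i e - f) := by rw [map_sub, hI.fix]
    rw [h1, hσ, hef]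
  rcases cases_pt h4' he hf hg hef heg hfg hy hfac with ⟨-, hB, -⟩ | hB | hC | hD
  · -- near infinity
    obtain ⟨p, hp⟩ := hB
    have hp0 : p ≠ 0 := by
      rintro rfl
      rw [mul_zero] at hp
      exact nf hp
    obtain ⟨t, ht⟩ : ∃ t, t = E3 f z / p := ⟨_, rfl⟩
    have htD : D₂ = t ^ 2 := by
      rw [ht, div_pow, eq_div_iff (pow_ne_zero _ hp0)]
      rw [hp] at q2
      linear_combination q2
    have ht0 : t ≠ 0 := by
      rintro h0
      rw [h0] at htD
      apply hD20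
      rw [htD]
      ring
    obtain ⟨N, hN1, hN2⟩ := hdesc t ht0
    have h5 : D₁ * N ^ 2 = ν ^ 2 := by
      apply hinj
      rw [map_mul, map_pow, map_pow, hN2, ← hN, htD, map_pow]
      ring
    obtain ⟨r, hr⟩ := hs₀
    obtain ⟨s, hs⟩ := ht₀
    refine Od_fin hI hR hy₀ hxy₀ (r := ν / N * r) (s := t * s) ?_ ?_
    · rw [← hD₁, hr]
      have h6 : D₁ = (ν / N) ^ 2 := by
        rw [div_pow, eq_div_iff (pow_ne_zero _ hN1), h5]
      rw [h6]
      ring
    · rw [← hD₂, hs, htD]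
      ring
  · -- near `e`
    obtain ⟨p, hp⟩ := hB.sf
    have nef : i e - f ≠ 0 := sub_ne_zero.2 (hR.ne1 hI)
    obtain ⟨t, ht⟩ : ∃ t, t = E3 f z * p / (x - f) := ⟨_, rfl⟩
    have htD : D₂ * (i e - f) = t ^ 2 := by
      rw [ht, div_pow, eq_div_iff (pow_ne_zero _ nf)]
      linear_combination (x - f) * (i e - f) * q2 + E3 f z * E3 f z * hp
    have ht0 : t ≠ 0 := by
      rintro h0
      rw [h0] at htD
      have h6 : D₂ * (i e - f) ≠ 0 := mul_ne_zero hD20 nef
      apply h6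
      rw [htD]
      ring
    obtain ⟨N, hN1, hN2⟩ := hdesc t ht0
    have hσt : σ D₂ * (i e - σ f) = (σ t) ^ 2 := by
      rw [← map_pow, ← htD, map_mul, map_sub, hI.fix]
    have hpr := hR.prod hI
    have h5 : D₁ * N ^ 2 = ν ^ 2 * (3 * e ^ 2 + a) := by
      apply hinj
      rw [map_mul, map_pow, map_mul, map_pow, hN2, ← hN, ← hpr]
      linear_combination (-i D₁ * (σ t) ^ 2) * htD - i D₁ * D₂ * (i e - f) * hσt
    have hq0 : 3 * e ^ 2 + a ≠ 0 := by
      intro h0
      rw [h0, map_zero] at hpr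
      rcases mul_eq_zero.1 hpr with h6 | h6
      · exact nef h6
      · exact (sub_ne_zero.2 (hR.ne2 hI)) h6
    obtain ⟨r, hr⟩ := hs₁
    obtain ⟨s, hs⟩ := ht₁
    refine Od_fin hI hR hy₁ hxy₁ (r := ν / N * r) (s := t * s / (i e - f)) ?_ ?_
    · rw [← hD₁]
      have h6 : D₁ = (ν / N) ^ 2 * (3 * e ^ 2 + a) := by
        rw [div_pow, div_mul_eq_mul_div, eq_div_iff (pow_ne_zero _ hN1), h5]
      rw [h6]
      linear_combination (ν / N) ^ 2 * hr
    · rw [← hD₂, div_pow, eq_div_iff (pow_ne_zero _ nef)]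
      linear_combination (i x₁ - f) * (i e - f) * htD + t ^ 2 * hs
  · -- near `f`
    exfalso
    obtain ⟨m, hm⟩ := hC.ve
    obtain ⟨l, hl⟩ := Od_exp (exp_log hvD).symm hm q2
    obtain ⟨l', hl'⟩ := Od_exp (D := σ D₂) (k := log (Valued.v D₂))
      (by rw [hσ, exp_log hvD]) hC.vg q3
    omega
  · -- near `σ f`
    exfalso
    obtain ⟨m, hm⟩ := hD.ve
    obtain ⟨l, hl⟩ := Od_exp (exp_log hvD).symm hD.vg q2
    obtain ⟨l', hl'⟩ := Od_exp (D := σ D₂) (k := log (Valued.v D₂))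
      (by rw [hσ, exp_log hvD]) hm q3
    omega

theorem LC_down {k κ κ' : Type*} [Field k] [Field κ] [Field κ']
    [Valued κ (WithZero (Multiplicative ℤ))] [CompleteSpace κ]
    [Valued κ' (WithZero (Multiplicative ℤ))] [CompleteSpace κ']
    {i : κ →+* κ'} {σ : κ' →+* κ'} (hI : Inv2 i σ) (h4 : Valued.v (4 : κ) = 1)
    (h4' : Valued.v (4 : κ') = 1) {π : κ} (hπ0 : π ≠ 0) (hπ : Valued.v π < 1)
    (hv : ∀ x : κ, Valued.v (i x) = Valued.v x) (hσ : ∀ x : κ', Valued.v (σ x) = Valued.v x)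
    {i₀ : k →+* κ} {a b : k} {e : κ} {f : κ'} (hR : Rts i σ (i₀ a) (i₀ b) e f) {n : ℤ}
    (he : Valued.v (i e) ≤ exp (2 * n + 1)) (hf : Valued.v f ≤ exp (2 * n + 1))
    (hef : Valued.v (i e - f) = exp (2 * n + 1)) (hfg : Valued.v (f - σ f) = exp (2 * n + 1))
    {d : Fin 3 → k} (hd0 : Te_nf a b d ≠ 0) (hd : IsSquare (Te_nf a b d))
    (h : LC (i.comp i₀) a b d) : LC i₀ a b d := by
  obtain ⟨x, y, z, hy, hxy, hz⟩ := h
  obtain ⟨ν, hν⟩ := hd
  have hν0 : ν ≠ 0 := by
    rintro rfl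
    rw [mul_zero] at hν
    exact hd0 hν
  exact Od_core hI h4 h4' hπ0 hπ hv hσ hR he hf hef hfg (ν := i₀ ν) ((map_ne_zero i₀).2 hν0)
    (d := fun j => i₀ (d j)) (by rw [Te_nf_map, hν, map_mul, pow_two]) hy hxy hz

end H36O2

end S_H36_O2_Od

section S_H36_O2_Oq

set_option autoImplicit false
set_option linter.unusedSectionVars false
open scoped Classical

open WithZero NumberField IsDedekindDomain H76PP H36CY H24PD

namespace H36O2

/-- The residue class of an integral element of the completion. -/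
theorem exists_int {k : Type} [Field k] [NumberField k] (u : HeightOneSpectrum (𝓞 k))
    {x : u.adicCompletion k} (hx : Valued.v x ≤ 1) :
    ∃ y : 𝓞 k, Valued.v (algebraMap k (u.adicCompletion k) (y : k) - x) < 1 := by
  obtain ⟨y, hy⟩ := near_coe u x (c := 1) one_ne_zero
  rw [map_one] at hy
  have hyv : Valued.v (algebraMap k (u.adicCompletion k) y) ≤ 1 := by
    have e : algebraMap k (u.adicCompletion k) y =
        (algebraMap k (u.adicCompletion k) y - x) + x := by ring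
    rw [e]
    exact Valuation.map_add_le _ hy.le hx
  have hyk : u.valuation k y ≤ 1 := by rw [← val_coe]; exact hyv
  obtain ⟨n, ⟨d, hd⟩, hnd⟩ := u.exists_primeCompl_mul_eq_of_integer y hyk
  obtain ⟨c, i, hi, hc⟩ := u.isMaximal.exists_inv (x := d) hd
  refine ⟨n * c, ?_⟩
  have hiv : Valued.v (algebraMap k (u.adicCompletion k) (i : k)) < 1 := by
    rw [val_coe]
    exact (u.valuation_lt_one_iff_mem i).2 hi
  have e1 : (((n * c : 𝓞 k)) : k) = y * (1 - (i : k)) := by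
    have h1 : ((n * c : 𝓞 k) : k) = (n : k) * (c : k) := rfl
    have h2 : (n : k) = y * (d : k) := hnd.symm
    have h3 : (c : k) * (d : k) + (i : k) = 1 := by
      have := congrArg (fun z : 𝓞 k => (z : k)) hc
      exact this
    rw [h1, h2]
    linear_combination y * h3
  have e3 : algebraMap k (u.adicCompletion k) (y * (1 - (i : k))) =
      algebraMap k (u.adicCompletion k) y * (1 - algebraMap k (u.adicCompletion k) (i : k)) := by
    rw [map_mul, map_sub, map_one]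
  rw [e1, e3]
  have e2 : algebraMap k (u.adicCompletion k) y * (1 - algebraMap k (u.adicCompletion k) (i : k)) - x
      = (algebraMap k (u.adicCompletion k) y - x) -
        algebraMap k (u.adicCompletion k) y * algebraMap k (u.adicCompletion k) (i : k) := by ring
  rw [e2]
  refine Valuation.map_sub_lt _ hy ?_
  rw [map_mul]
  exact lt_of_le_of_lt (mul_le_of_le_one_left' hyv) hiv

theorem Oq_two {k : Type} [Field k] [NumberField k] (u : HeightOneSpectrum (𝓞 k)) :
    (2 : u.adicCompletion k) = algebraMap k (u.adicCompletion k) 2 := by rw [map_ofNat]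

/-- A unit congruent to a square is a square. -/
theorem Oq_sq {k : Type} [Field k] [NumberField k] (u : HeightOneSpectrum (𝓞 k))
    (h2 : u.valuation k 2 = 1) {x : u.adicCompletion k} (hx : Valued.v x = 1) {x0 s : 𝓞 k}
    (hx0 : Valued.v (algebraMap k (u.adicCompletion k) (x0 : k) - x) < 1)
    (hs : x0 - s ^ 2 ∈ u.asIdeal) : IsSquare x := by
  have hv2 : Valued.v (2 : u.adicCompletion k) = 1 := by rw [Oq_two, val_coe]; exact h2
  have h20 : (2 : u.adicCompletion k) ≠ 0 := by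
    intro h
    rw [h, map_zero] at hv2
    exact zero_ne_one hv2
  have hv4 : Valued.v (4 : u.adicCompletion k) = 1 := by
    have e : (4 : u.adicCompletion k) = 2 * 2 := by norm_num
    rw [e, map_mul, hv2, mul_one]
  set r : u.adicCompletion k := algebraMap k (u.adicCompletion k) (s : k) with hr
  have h1 : Valued.v (algebraMap k (u.adicCompletion k) (x0 : k) - r ^ 2) < 1 := by
    have e : algebraMap k (u.adicCompletion k) (x0 : k) - r ^ 2 =
        algebraMap k (u.adicCompletion k) ((x0 - s ^ 2 : 𝓞 k) : k) := by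
      have e' : ((x0 - s ^ 2 : 𝓞 k) : k) = (x0 : k) - (s : k) ^ 2 := rfl
      rw [e', map_sub, map_pow]
    rw [e, val_coe]
    exact (u.valuation_lt_one_iff_mem _).2 hs
  have h3 : Valued.v (x - r ^ 2) < 1 := by
    have e : x - r ^ 2 = (algebraMap k (u.adicCompletion k) (x0 : k) - r ^ 2) -
        (algebraMap k (u.adicCompletion k) (x0 : k) - x) := by ring
    rw [e]
    exact Valuation.map_sub_lt _ h1 hx0
  have h4 : Valued.v (r ^ 2) = 1 := by
    have e : r ^ 2 = x - (x - r ^ 2) := by ring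
    rw [e, Valuation.map_sub_eq_of_lt_left _ (by rw [hx]; exact h3), hx]
  have hr0 : r ≠ 0 := by
    intro h
    rw [h, zero_pow two_ne_zero, map_zero] at h4
    exact zero_ne_one h4
  obtain ⟨t, ht⟩ := Pool.Agent.H10.isSquare_one_add h20 (x := (x - r ^ 2) / r ^ 2) (by
    rw [map_div₀, h4, div_one, hv4]; exact h3)
  refine ⟨t * r, ?_⟩
  have e5 : x = (1 + (x - r ^ 2) / r ^ 2) * r ^ 2 := by
    field_simp
    ring
  rw [e5, ht]
  ring

theorem nonsq_mul {k : Type} [Field k] [NumberField k] (u : HeightOneSpectrum (𝓞 k))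
    (h2 : u.valuation k 2 = 1) {x y : u.adicCompletion k} (hx : Valued.v x = 1)
    (hy : Valued.v y = 1) (hx' : ¬ IsSquare x) (hy' : ¬ IsSquare y) : IsSquare (x * y) := by
  obtain ⟨x0, hx0⟩ := exists_int u hx.le
  obtain ⟨y0, hy0⟩ := exists_int u hy.le
  have _ : u.asIdeal.IsMaximal := u.isMaximal
  let _ : Field (𝓞 k ⧸ u.asIdeal) := Ideal.Quotient.field _
  have _ : Finite (𝓞 k ⧸ u.asIdeal) := Ideal.finiteQuotientOfFreeOfNeBot _ u.ne_bot
  let _ : Fintype (𝓞 k ⧸ u.asIdeal) := Fintype.ofFinite _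
  have hsq : ∀ {z : u.adicCompletion k} {z0 : 𝓞 k}, Valued.v z = 1 →
      Valued.v (algebraMap k (u.adicCompletion k) (z0 : k) - z) < 1 →
      IsSquare (Ideal.Quotient.mk u.asIdeal z0) → IsSquare z := by
    intro z z0 hz hz0 hq
    obtain ⟨a, ha⟩ := hq
    obtain ⟨s, rfl⟩ := Ideal.Quotient.mk_surjective a
    refine Oq_sq u h2 hz hz0 (s := s) ?_
    rw [← Ideal.Quotient.eq, ha, map_pow, pow_two]
  have hch : ringChar (𝓞 k ⧸ u.asIdeal) ≠ 2 := by
    intro h
    have h3 : ((2 : ℕ) : 𝓞 k ⧸ u.asIdeal) = 0 := by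
      rw [← h]; exact ringChar.Nat.cast_ringChar
    have h4 : Ideal.Quotient.mk u.asIdeal (2 : 𝓞 k) = 0 := by
      rw [map_ofNat]; exact_mod_cast h3
    rw [Ideal.Quotient.eq_zero_iff_mem, ← u.valuation_lt_one_iff_mem (K := k)] at h4
    have h5 : u.valuation k (2 : k) < 1 := h4
    rw [h2] at h5
    exact lt_irrefl _ h5
  have hnx : ¬ IsSquare (Ideal.Quotient.mk u.asIdeal x0) := fun h => hx' (hsq hx hx0 h)
  have hny : ¬ IsSquare (Ideal.Quotient.mk u.asIdeal y0) := fun h => hy' (hsq hy hy0 h)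
  have hnz : ∀ a : 𝓞 k ⧸ u.asIdeal, ¬ IsSquare a → a ≠ 0 := by
    intro a ha h
    exact ha ⟨0, by rw [h, mul_zero]⟩
  have hpow : ∀ a : 𝓞 k ⧸ u.asIdeal, ¬ IsSquare a →
      a ^ (Fintype.card (𝓞 k ⧸ u.asIdeal) / 2) = -1 := by
    intro a ha
    rcases FiniteField.pow_dichotomy hch (hnz a ha) with h | h
    · exact absurd ((FiniteField.isSquare_iff hch (hnz a ha)).2 h) ha
    · exact h
  have hprod : IsSquare (Ideal.Quotient.mk u.asIdeal (x0 * y0)) := by
    rw [map_mul, FiniteField.isSquare_iff hch (mul_ne_zero (hnz _ hnx) (hnz _ hny)), mul_pow,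
      hpow _ hnx, hpow _ hny]
    ring
  refine hsq (z0 := x0 * y0) (by rw [map_mul, hx, hy, mul_one]) ?_ hprod
  have e1 : ((x0 * y0 : 𝓞 k) : k) = (x0 : k) * (y0 : k) := rfl
  have hxv : Valued.v (algebraMap k (u.adicCompletion k) (x0 : k)) ≤ 1 := by
    rw [val_coe]
    exact u.valuation_le_one x0
  have e2 : algebraMap k (u.adicCompletion k) (x0 : k) * algebraMap k (u.adicCompletion k) (y0 : k) -
      x * y = algebraMap k (u.adicCompletion k) (x0 : k) *
        (algebraMap k (u.adicCompletion k) (y0 : k) - y) +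
        (algebraMap k (u.adicCompletion k) (x0 : k) - x) * y := by ring
  rw [e1, map_mul, e2]
  refine Valuation.map_add_lt _ ?_ ?_
  · rw [map_mul]
    exact lt_of_le_of_lt (mul_le_of_le_one_left' hxv) hy0
  · rw [map_mul, hy, mul_one]
    exact hx0

end H36O2

end S_H36_O2_Oq

section S_H36_O2_Or

set_option autoImplicit false
set_option linter.unusedSectionVars false
open scoped Classical

open WithZero NumberField IsDedekindDomain H76PP H36CY H24PD

namespace H36O2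

private lemma Or_stb {K N : Type} [Field K] [NumberField K] [Field N] [NumberField N] [Algebra K N]
    (W : HeightOneSpectrum (𝓞 N)) (φ : N ≃ₐ[K] N)
    (h : ∀ x : 𝓞 N, x ∈ W.asIdeal ↔ galRestrict (𝓞 K) K N (𝓞 N) φ x ∈ W.asIdeal) : Stb K W φ := by
  let s := galRestrict (𝓞 K) K N (𝓞 N) φ
  have hs : ∀ x : 𝓞 N, algebraMap (𝓞 N) N (s x) = φ (algebraMap (𝓞 N) N x) :=
    fun x => algebraMap_galRestrict_apply (𝓞 K) φ x
  have hcm : W.asIdeal = W.asIdeal.comap (s : 𝓞 N →+* 𝓞 N) := by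
    ext x
    rw [Ideal.mem_comap]
    exact h x
  have hpow : ∀ (x : 𝓞 N) (n : ℕ), x ∈ W.asIdeal ^ n ↔ s x ∈ W.asIdeal ^ n := by
    intro x n
    have e1 : W.asIdeal = W.asIdeal.map (s.symm.toRingEquiv : 𝓞 N →+* 𝓞 N) := by
      refine hcm.trans ?_
      exact (Ideal.map_symm (I := W.asIdeal) s.toRingEquiv).symm
    have e2 : W.asIdeal ^ n = (W.asIdeal ^ n).comap (s : 𝓞 N →+* 𝓞 N) := by
      have e3 : W.asIdeal ^ n = (W.asIdeal.map (s.symm.toRingEquiv : 𝓞 N →+* 𝓞 N)) ^ n := by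
        rw [← e1]
      refine e3.trans ?_
      rw [← Ideal.map_pow]
      exact Ideal.map_symm (I := W.asIdeal ^ n) s.toRingEquiv
    constructor
    · intro hx
      rw [e2, Ideal.mem_comap] at hx
      exact hx
    · intro hx
      rw [e2, Ideal.mem_comap]
      exact hx
  have hint : ∀ x : 𝓞 N, W.intValuation (s x) = W.intValuation x := by
    intro x
    by_cases hx : x = 0
    · rw [hx, map_zero]
    · have hsx : s x ≠ 0 := by
        intro h
        apply hx
        rw [← s.symm_apply_apply x, h, map_zero]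
      apply le_antisymm
      · rw [W.intValuation_eq_exp_neg_multiplicity hx, HeightOneSpectrum.intValuation_le_pow_iff_mem, ← hpow,
          ← HeightOneSpectrum.intValuation_le_pow_iff_mem, W.intValuation_eq_exp_neg_multiplicity hx]
      · rw [W.intValuation_eq_exp_neg_multiplicity hsx, HeightOneSpectrum.intValuation_le_pow_iff_mem, hpow,
          ← HeightOneSpectrum.intValuation_le_pow_iff_mem, W.intValuation_eq_exp_neg_multiplicity hsx]
  intro x
  obtain ⟨a, b, hb, rfl⟩ := IsFractionRing.div_surjective (A := 𝓞 N) x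
  rw [map_div₀, ← hs, ← hs, map_div₀, map_div₀, W.valuation_of_algebraMap,
    W.valuation_of_algebraMap, W.valuation_of_algebraMap, W.valuation_of_algebraMap, hint, hint]

theorem exists_frob {K N : Type} [Field K] [NumberField K] [Field N] [NumberField N] [Algebra K N]
    [IsGalois K N] (W : HeightOneSpectrum (𝓞 N)) :
    ∃ φ : N ≃ₐ[K] N, Stb K W φ ∧ ∀ x : 𝓞 N,
      W.valuation N (φ (x : N) - (x : N) ^ Nat.card (𝓞 K ⧸ (dn K W).asIdeal)) < 1 := by
  haveI : Algebra.IsInvariant (𝓞 K) (𝓞 N) (𝓞 N ≃ₐ[𝓞 K] 𝓞 N) :=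
    Algebra.isInvariant_of_isGalois' (𝓞 K) K N (𝓞 N)
  haveI : Finite (𝓞 N ≃ₐ[𝓞 K] 𝓞 N) :=
    Finite.of_equiv _ (galRestrict (𝓞 K) K N (𝓞 N)).toEquiv
  haveI : W.asIdeal.IsPrime := W.isPrime
  haveI : Finite (𝓞 N ⧸ W.asIdeal) := Ring.HasFiniteQuotients.finiteQuotient W.ne_bot
  obtain ⟨σ, hσ⟩ := IsArithFrobAt.exists_of_isInvariant (𝓞 K) (𝓞 N ≃ₐ[𝓞 K] 𝓞 N) W.asIdeal
  have hσ' : ∀ x : 𝓞 N, σ x - x ^ Nat.card (𝓞 K ⧸ W.asIdeal.under (𝓞 K)) ∈ W.asIdeal := hσ
  have hgs : galRestrict (𝓞 K) K N (𝓞 N) ((galRestrict (𝓞 K) K N (𝓞 N)).symm σ) = σ :=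
    (galRestrict (𝓞 K) K N (𝓞 N)).apply_symm_apply σ
  have hmem : ∀ x : 𝓞 N, x ∈ W.asIdeal ↔ σ x ∈ W.asIdeal := by
    intro x
    have h1 := AlgHom.IsArithFrobAt.comap_eq hσ
    constructor
    · intro hx
      rw [← h1] at hx
      exact hx
    · intro hx
      rw [← h1]
      exact hx
  refine ⟨(galRestrict (𝓞 K) K N (𝓞 N)).symm σ, ?_, ?_⟩
  · apply Or_stb
    intro x
    rw [hgs]
    exact hmem x
  · intro x
    have h1 : ((galRestrict (𝓞 K) K N (𝓞 N)).symm σ) (x : N) = ((σ x : 𝓞 N) : N) := by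
      have h2 := algebraMap_galRestrict_apply (𝓞 K) ((galRestrict (𝓞 K) K N (𝓞 N)).symm σ) x
      rw [hgs] at h2
      exact h2.symm
    rw [h1]
    have h3 : ((σ x : 𝓞 N) : N) - (x : N) ^ Nat.card (𝓞 K ⧸ (dn K W).asIdeal) =
        algebraMap (𝓞 N) N (σ x - x ^ Nat.card (𝓞 K ⧸ W.asIdeal.under (𝓞 K))) := by
      rw [map_sub, map_pow]
      rfl
    rw [h3, W.valuation_lt_one_iff_mem]
    exact hσ' x

end H36O2

end S_H36_O2_Or

section S_H36_O2_Og

set_option autoImplicit false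
set_option linter.unusedSectionVars false
open scoped Classical

open WithZero NumberField IsDedekindDomain H76PP H36CY H24PD

namespace H36O2

theorem nonsq_up {K k N : Type} [Field K] [NumberField K] [Field k] [NumberField k] [Field N]
    [NumberField N] [Algebra K k] [Algebra k N] [Algebra K N] [IsScalarTower K k N]
    [IsGalois K N] (W : HeightOneSpectrum (𝓞 N)) (h2 : (2 : 𝓞 K) ∉ (dn K W).asIdeal)
    {t₀ : N ≃ₐ[K] N} (hdec : ∀ g : N ≃ₐ[K] N, Stb K W g → g = 1 ∨ g = t₀) {g : N ≃ₐ[k] N}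
    (hg : Stb k W g) (hg1 : g ≠ 1) {δ : 𝓞 K} (hδ : ∀ s : 𝓞 K, δ - s ^ 2 ∉ (dn K W).asIdeal)
    (s : 𝓞 k) : algebraMap (𝓞 K) (𝓞 k) δ - s ^ 2 ∉ (dn k W).asIdeal := by
  intro hmem
  obtain ⟨v, hv⟩ : ∃ v : Ideal (𝓞 K), v = (dn K W).asIdeal := ⟨_, rfl⟩
  have hvW : ∀ x : 𝓞 K, x ∈ v ↔ algebraMap (𝓞 K) (𝓞 N) x ∈ W.asIdeal := by
    intro x
    rw [hv]
    exact Ideal.mem_comap
  have hkW : ∀ x : 𝓞 k, x ∈ (dn k W).asIdeal ↔ algebraMap (𝓞 k) (𝓞 N) x ∈ W.asIdeal := by
    intro x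
    exact Ideal.mem_comap
  have hvp : v.IsPrime := by rw [hv]; exact (dn K W).isPrime
  have hvb : v ≠ ⊥ := by rw [hv]; exact (dn K W).ne_bot
  have hvm : v.IsMaximal := hvp.isMaximal hvb
  letI : Field (𝓞 K ⧸ v) := Ideal.Quotient.field v
  haveI : Finite (𝓞 K ⧸ v) := Ideal.finiteQuotientOfFreeOfNeBot v hvb
  letI : Fintype (𝓞 K ⧸ v) := Fintype.ofFinite _
  have h2v : (2 : 𝓞 K) ∉ v := by rw [hv]; exact h2
  have h2q : (2 : 𝓞 K ⧸ v) ≠ 0 := by
    intro h
    apply h2v
    rw [← Ideal.Quotient.eq_zero_iff_mem, show Ideal.Quotient.mk v 2 = 2 from map_ofNat _ 2]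
    exact h
  have hch : ringChar (𝓞 K ⧸ v) ≠ 2 := by
    intro h
    apply h2q
    have h3 := ringChar.Nat.cast_ringChar (R := 𝓞 K ⧸ v)
    rw [h] at h3
    exact_mod_cast h3
  have hδ0 : (Ideal.Quotient.mk v δ) ≠ 0 := by
    rw [Ne, Ideal.Quotient.eq_zero_iff_mem]
    have := hδ 0
    rw [← hv] at this
    simpa using this
  have hns : ¬ IsSquare (Ideal.Quotient.mk v δ) := by
    rintro ⟨y, hy⟩
    obtain ⟨z, rfl⟩ := Ideal.Quotient.mk_surjective y
    apply hδ z
    rw [← hv, ← Ideal.Quotient.eq_zero_iff_mem, map_sub, map_pow, hy]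
    ring
  obtain ⟨m, hm⟩ : ∃ m, m = Fintype.card (𝓞 K ⧸ v) / 2 := ⟨_, rfl⟩
  have hpow : (Ideal.Quotient.mk v δ) ^ m = -1 := by
    rw [hm]
    rcases FiniteField.pow_dichotomy hch hδ0 with h | h
    · exact absurd ((FiniteField.isSquare_iff hch hδ0).mpr h) hns
    · exact h
  have hodd : Nat.card (𝓞 K ⧸ v) = 2 * m + 1 := by
    have h1 := FiniteField.odd_card_of_char_ne_two hch
    rw [Nat.card_eq_fintype_card, hm]
    omega
  have hpow' : δ ^ m + 1 ∈ v := by
    rw [← Ideal.Quotient.eq_zero_iff_mem, map_add, map_pow, hpow, map_one]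
    ring
  -- Frobenius
  obtain ⟨φ, hφ, hφ2⟩ := exists_frob (K := K) W
  have hgK : Stb K W (AlgEquiv.restrictScalars K g) := fun y => hg y
  have hgK1 : AlgEquiv.restrictScalars K g ≠ 1 := by
    intro h
    apply hg1
    ext y
    have := DFunLike.congr_fun h y
    simpa using this
  have ht : t₀ = AlgEquiv.restrictScalars K g := by
    rcases hdec _ hgK with h | h
    · exact absurd h hgK1
    · exact h.symm
  obtain ⟨s', hs'⟩ : ∃ s' : 𝓞 N, s' = algebraMap (𝓞 k) (𝓞 N) s := ⟨_, rfl⟩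
  have hs'N : (s' : N) = algebraMap k N (s : k) := by
    rw [hs']
    rfl
  have hφs : φ (s' : N) = (s' : N) := by
    rcases hdec φ hφ with h | h
    · rw [h]; rfl
    · rw [h, ht, hs'N]
      exact g.commutes _
  have hfr := hφ2 s'
  rw [hφs, ← hv, hodd] at hfr
  have hfr' : s' - s' ^ (2 * m + 1) ∈ W.asIdeal := by
    rw [← W.valuation_lt_one_iff_mem (K := N)]
    simpa using hfr
  have hD : algebraMap (𝓞 K) (𝓞 N) δ = algebraMap (𝓞 k) (𝓞 N) (algebraMap (𝓞 K) (𝓞 k) δ) :=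
    IsScalarTower.algebraMap_apply (𝓞 K) (𝓞 k) (𝓞 N) δ
  rw [hkW, map_sub, map_pow, ← hD, ← hs'] at hmem
  rw [hvW, map_add, map_pow, map_one] at hpow'
  have hWp : W.asIdeal.IsPrime := W.isPrime
  have h2W : (2 : 𝓞 N) ∉ W.asIdeal := by
    intro h
    apply h2v
    rw [hvW, show algebraMap (𝓞 K) (𝓞 N) 2 = 2 from map_ofNat _ 2]
    exact h
  have hδW : algebraMap (𝓞 K) (𝓞 N) δ ∉ W.asIdeal := by
    rw [← hvW]
    have := hδ 0
    rw [← hv] at this
    simpa using this
  obtain ⟨D, hDd⟩ : ∃ D : 𝓞 N, D = algebraMap (𝓞 K) (𝓞 N) δ := ⟨_, rfl⟩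
  rw [← hDd] at hmem hpow' hδW
  have e1 : Ideal.Quotient.mk W.asIdeal D = (Ideal.Quotient.mk W.asIdeal s') ^ 2 := by
    rw [← map_pow, ← sub_eq_zero, ← map_sub, Ideal.Quotient.eq_zero_iff_mem]
    exact hmem
  have e2 : (Ideal.Quotient.mk W.asIdeal D) ^ m = -1 := by
    have := Ideal.Quotient.eq_zero_iff_mem.mpr hpow'
    rw [map_add, map_pow, map_one] at this
    exact eq_neg_of_add_eq_zero_left this
  have e3 : Ideal.Quotient.mk W.asIdeal s' = (Ideal.Quotient.mk W.asIdeal s') ^ (2 * m + 1) := by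
    rw [← map_pow, ← sub_eq_zero, ← map_sub, Ideal.Quotient.eq_zero_iff_mem]
    exact hfr'
  have e4 : Ideal.Quotient.mk W.asIdeal s' = - Ideal.Quotient.mk W.asIdeal s' := by
    conv_lhs => rw [e3]
    rw [pow_succ, pow_mul, ← e1, e2]
    ring
  have e5 : Ideal.Quotient.mk W.asIdeal (2 * s') = 0 := by
    rw [map_mul]
    have : Ideal.Quotient.mk W.asIdeal s' + Ideal.Quotient.mk W.asIdeal s' = 0 := by
      nth_rewrite 1 [e4]
      ring
    have h22 : Ideal.Quotient.mk W.asIdeal 2 = 2 := map_ofNat _ 2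
    rw [h22, two_mul, this]
  rw [Ideal.Quotient.eq_zero_iff_mem] at e5
  rcases hWp.mem_or_mem e5 with h | h
  · exact h2W h
  · apply hδW
    have h6 : s' ^ 2 ∈ W.asIdeal := W.asIdeal.pow_mem_of_mem h 2 (by norm_num)
    have h7 := W.asIdeal.add_mem hmem h6
    simpa using h7

end H36O2

end S_H36_O2_Og

section S_H36_O2_Oj

set_option autoImplicit false
set_option linter.unusedSectionVars false
open scoped Classical

open WithZero NumberField IsDedekindDomain H76PP H36CY H24PD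

namespace H36O2

private theorem te_scale {F : Type*} [CommRing F] (C A B : F) (d : Fin 3 → F) :
    Te_nf (C ^ 4 * A) (C ^ 6 * B) d = Te_nf A B ![d 0, C ^ 2 * d 1, C ^ 4 * d 2] := by
  simp only [Te_nf, Matrix.cons_val_zero, Matrix.cons_val_one, Matrix.cons_val]
  ring

private theorem lc_scale {k F : Type*} [Field k] [Field F] (i : k →+* F) (C A B : k)
    (hC : C ≠ 0) (d : Fin 3 → k) (h : LC i (C ^ 4 * A) (C ^ 6 * B) d) :
    LC i A B ![d 0, C ^ 2 * d 1, C ^ 4 * d 2] := by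
  obtain ⟨x, y, z, hy, hxy, hm⟩ := h
  have hg : i C ≠ 0 := by simpa using hC
  have h0 := congrFun hm 0
  have h1 := congrFun hm 1
  have h2 := congrFun hm 2
  simp only [m3, Matrix.cons_val_zero, Matrix.cons_val_one, Matrix.cons_val, map_mul,
    map_pow] at h0 h1 h2 hxy
  refine ⟨x / (i C) ^ 2, y / (i C) ^ 3, ![z 0 / i C, i C * z 1, (i C) ^ 3 * z 2],
    div_ne_zero hy (pow_ne_zero _ hg), ?_, ?_⟩
  · field_simp
    linear_combination hxy
  · funext j
    fin_cases j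
    · simp [m3]
      field_simp
      linear_combination h0
    · simp [m3]
      field_simp
      linear_combination h1
    · simp [m3]
      field_simp
      linear_combination h2

private theorem lc_scale_iff {k F : Type*} [Field k] [Field F] (i : k →+* F) (C A B : k)
    (hC : C ≠ 0) (d : Fin 3 → k) :
    LC i (C ^ 4 * A) (C ^ 6 * B) d ↔ LC i A B ![d 0, C ^ 2 * d 1, C ^ 4 * d 2] := by
  refine ⟨lc_scale i C A B hC d, fun h => ?_⟩
  have h1 : LC i (C⁻¹ ^ 4 * (C ^ 4 * A)) (C⁻¹ ^ 6 * (C ^ 6 * B))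
      ![d 0, C ^ 2 * d 1, C ^ 4 * d 2] := by
    have e1 : C⁻¹ ^ 4 * (C ^ 4 * A) = A := by field_simp
    have e2 : C⁻¹ ^ 6 * (C ^ 6 * B) = B := by field_simp
    rw [e1, e2]
    exact h
  have h2 := lc_scale i C⁻¹ _ _ (inv_ne_zero hC) _ h1
  have e3 : (![(![d 0, C ^ 2 * d 1, C ^ 4 * d 2] : Fin 3 → k) 0,
      C⁻¹ ^ 2 * (![d 0, C ^ 2 * d 1, C ^ 4 * d 2] : Fin 3 → k) 1,
      C⁻¹ ^ 4 * (![d 0, C ^ 2 * d 1, C ^ 4 * d 2] : Fin 3 → k) 2] : Fin 3 → k) = d := by
    funext j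
    fin_cases j
    · simp
    · simp
      field_simp
    · simp
      field_simp
  rw [e3] at h2
  exact h2

theorem descAt_scale {K N : Type} [Field K] [NumberField K] [Field N] [NumberField N]
    [Algebra K N] {v : HeightOneSpectrum (𝓞 K)} {a b c : K} (hc : c ≠ 0)
    (h : DescAt K N v a b) : DescAt K N v (c ^ 4 * a) (c ^ 6 * b) := by
  intro k k' _ _ _ _ _ _ _ _ _ _ _ _ _ h2 d hn hsq hloc u hu
  have hCk : algebraMap K k c ≠ 0 := by simpa using hc
  have hCk' : algebraMap K k' c ≠ 0 := by simpa using hc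
  simp only [map_mul, map_pow] at hn hsq hloc ⊢
  rw [te_scale] at hn hsq
  rw [lc_scale_iff _ _ _ _ hCk]
  refine h k k' h2 _ hn hsq (fun u' hu' => ?_) u hu
  have h3 := (lc_scale_iff _ _ _ _ hCk' _).1 (hloc u' hu')
  refine (congrArg (LC _ _ _) ?_).mpr h3
  funext j
  have e : algebraMap k k' (algebraMap K k c) = algebraMap K k' c :=
    (IsScalarTower.algebraMap_apply K k k' c).symm
  fin_cases j
  · simp
  · simp [e]
  · simp [e]

end H36O2

end S_H36_O2_Oj
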