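import Mathlib
import Pool.Agent.H76.CQ.Qa
import Pool.Agent.H76.CQ.Qb
import Pool.Agent.H76.CQ.Qc
import Pool.Agent.H76.PN.N1
import Pool.Agent.H76.PN.P1
import Pool.Agent.H76.PN.P2
import Pool.Agent.H76.ZQ.Y0
import Pool.Agent.H76.ZQ.Y1
import Pool.Agent.H76.ZQ.Y10
import Pool.Agent.H76.ZQ.Y14
import Pool.Agent.H76.ZQ.Y4
import Pool.Agent.H76.ZQ.Y7
import Pool.Agent.H76.ZQ.Y9

/-! This file joins several modules to save build time (Y15). -/

set_option autoImplicit false

section S_H36_O2_Oe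

set_option autoImplicit false
set_option linter.unusedSectionVars false
open scoped Classical

open WithZero NumberField IsDedekindDomain H76PP H36CY H24PD H73P2

namespace H36O2

private theorem Oe_dens {K : Type} [Field K] [NumberField K] (u : HeightOneSpectrum (𝓞 K))
    {x : u.adicCompletion K} {s : Set (u.adicCompletion K)} (hs : s ∈ nhds x) :
    ∃ y : K, algebraMap K (u.adicCompletion K) y ∈ s := by
  obtain ⟨y, hy⟩ := (HeightOneSpectrum.denseRange_algebraMap (K := K) u).mem_nhds hs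
  exact ⟨y, hy⟩

private theorem Oe_small {K : Type} [Field K] [NumberField K] (u : HeightOneSpectrum (𝓞 K))
    {g : WithZero (Multiplicative ℤ)} (hg : g ≠ 0) :
    ∃ c : u.adicCompletion K, c ≠ 0 ∧ Valued.v c < g := by
  obtain ⟨n, hn⟩ := exists_exp_neg_natCast_lt (x := g) hg
  obtain ⟨π, hπ⟩ := u.valuation_exists_uniformizer K
  refine ⟨algebraMap K (u.adicCompletion K) (π ^ n), ?_, ?_⟩
  · have h1 : π ≠ 0 := by
      rintro rfl
      rw [map_zero] at hπ
      exact absurd hπ.symm exp_ne_zero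
    exact (map_ne_zero _).2 (pow_ne_zero _ h1)
  · rw [val_coe, map_pow, hπ]
    refine lt_of_le_of_lt (le_of_eq ?_) hn
    rw [← exp_nsmul]
    congr 1
    simp

private theorem Oe_ball {K : Type} [Field K] [NumberField K] (u : HeightOneSpectrum (𝓞 K))
    (x : u.adicCompletion K) {s : Set (u.adicCompletion K)} (hs : s ∈ nhds x) :
    ∃ c : u.adicCompletion K, c ≠ 0 ∧ ∀ z, Valued.v (z - x) < Valued.v c → z ∈ s := by
  obtain ⟨γ, hγ⟩ := Valued.mem_nhds.1 hs
  obtain ⟨c, hc, hc2⟩ := Oe_small u (g := MonoidWithZeroHom.ValueGroup₀.embedding γ.1) (by simp)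
  refine ⟨c, hc, fun z hz => hγ ?_⟩
  change Valued.v.restrict _ < γ.1
  rw [Valuation.restrict_lt_iff_lt_embedding]
  exact hz.trans hc2

private theorem Oe_grp {k k' : Type} [Field k] [NumberField k] [Field k'] [NumberField k']
    [Algebra k k'] (two : Module.finrank k k' = 2) {τ : k' ≃ₐ[k] k'} (hτ1 : τ ≠ 1) :
    (∀ y, τ (τ y) = y) ∧ ∀ y, τ y = y → ∃ z : k, algebraMap k k' z = y := by
  have hfd : FiniteDimensional k k' := FiniteDimensional.of_finrank_pos (by omega)
  have hc : Nat.card (k' ≃ₐ[k] k') ≤ 2 := by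
    have h := AlgEquiv.card_le (F := k) (K := k')
    rw [two] at h
    rw [Nat.card_eq_fintype_card]
    exact h
  have hfin : Finite (k' ≃ₐ[k] k') := inferInstance
  have hnt : Nontrivial (k' ≃ₐ[k] k') := ⟨τ, 1, hτ1⟩
  have hc2 : Nat.card (k' ≃ₐ[k] k') = 2 := by
    have h : 1 < Nat.card (k' ≃ₐ[k] k') := Finite.one_lt_card
    omega
  have hall : ∀ f : k' ≃ₐ[k] k', f = 1 ∨ f = τ := by
    intro f
    by_contra hf
    push Not at hf
    have h3 : ({1, τ, f} : Finset (k' ≃ₐ[k] k')).card = 3 := by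
      rw [Finset.card_insert_of_notMem, Finset.card_insert_of_notMem, Finset.card_singleton]
      · rw [Finset.mem_singleton]
        exact fun h => hf.2 h.symm
      · rw [Finset.mem_insert, Finset.mem_singleton]
        rintro (h | h)
        · exact hτ1 h.symm
        · exact hf.1 h.symm
    have h4 : ({1, τ, f} : Finset (k' ≃ₐ[k] k')).card ≤ Nat.card (k' ≃ₐ[k] k') := by
      rw [Nat.card_eq_fintype_card]
      exact Finset.card_le_univ _
    omega
  have hgal : IsGalois k k' := IsGalois.of_card_aut_eq_finrank k k' (by rw [two]; exact hc2)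
  refine ⟨fun y => ?_, fun y hy => ?_⟩
  · have h : τ * τ = 1 := by
      rcases hall (τ * τ) with h | h
      · exact h
      · exact absurd (mul_eq_left.1 h) hτ1
    exact DFunLike.congr_fun h y
  · obtain ⟨z, hz⟩ := (IsGalois.mem_range_algebraMap_iff_fixed y).2 (fun f => by
      rcases hall f with rfl | rfl
      · rfl
      · exact hy)
    exact ⟨z, hz⟩

theorem inv2_of {k k' : Type} [Field k] [NumberField k] [Field k'] [NumberField k'] [Algebra k k']
    (two : Module.finrank k k' = 2) (w : HeightOneSpectrum (𝓞 k')) {τ : k' ≃ₐ[k] k'}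
    (hτ : Stb k w τ) {ρ : k'} (hρ0 : ρ ≠ 0) (hτρ : τ ρ = -ρ) (h2 : w.valuation k' 2 = 1)
    (hun : ∀ x : k, w.valuation k' (algebraMap k k' x) = (dn k w).valuation k x) :
    ∃ σ : w.adicCompletion k' →+* w.adicCompletion k',
      Inv2 (over_dn (K := k) w).map σ ∧ (∀ x, Valued.v (σ x) = Valued.v x) ∧
      (∀ x : k', σ (algebraMap k' (w.adicCompletion k') x) =
        algebraMap k' (w.adicCompletion k') (τ x)) ∧
      ∀ x : (dn k w).adicCompletion k, Valued.v ((over_dn (K := k) w).map x) = Valued.v x := by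
  have hτ1 : τ ≠ 1 := by
    rintro rfl
    have h1 : ρ = -ρ := hτρ
    have h2' : (2 : k') * ρ = 0 := by linear_combination h1
    rcases mul_eq_zero.1 h2' with h | h
    · exact two_ne_zero h
    · exact hρ0 h
  obtain ⟨hinv, hfix⟩ := Oe_grp two hτ1
  obtain ⟨σ, hσc, hσ⟩ := exists_act w hτ
  obtain ⟨j, hj⟩ : ∃ j : (dn k w).adicCompletion k →+* w.adicCompletion k',
      j = (over_dn (K := k) w).map := ⟨_, rfl⟩
  have hjc : Continuous j := by rw [hj]; exact (over_dn (K := k) w).continuous_map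
  have hja : ∀ x : k, j (algebraMap k ((dn k w).adicCompletion k) x) =
      algebraMap k' (w.adicCompletion k') (algebraMap k k' x) := by
    intro x
    rw [hj]
    exact (over_dn (K := k) w).map_algebraMap x
  rw [← hj]
  have hσv : ∀ x, Valued.v (σ x) = Valued.v x := by
    intro x
    by_cases hx : x = 0
    · rw [hx, map_zero]
    have hx2 : σ x ≠ 0 := (map_ne_zero σ).2 hx
    obtain ⟨y, hy1, hy2⟩ := Oe_dens w (Filter.inter_mem (Te_nhd x hx)
      ((hσc.continuousAt (x := x)).preimage_mem_nhds (Te_nhd (σ x) hx2)))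
    have h1 : Valued.v (algebraMap k' (w.adicCompletion k') y) = Valued.v x :=
      Valuation.map_eq_of_sub_lt _ hy1
    have h3 : Valued.v (σ (algebraMap k' (w.adicCompletion k') y)) = Valued.v (σ x) :=
      Valuation.map_eq_of_sub_lt _ hy2
    rw [← h1, ← h3, hσ, val_coe, val_coe, hτ y]
  have hjv : ∀ x, Valued.v (j x) = Valued.v x := by
    intro x
    by_cases hx : x = 0
    · rw [hx, map_zero, map_zero, map_zero]
    have hx2 : j x ≠ 0 := (map_ne_zero j).2 hx
    obtain ⟨y, hy1, hy2⟩ := Oe_dens (dn k w) (Filter.inter_mem (Te_nhd x hx)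
      ((hjc.continuousAt (x := x)).preimage_mem_nhds (Te_nhd (j x) hx2)))
    have h1 : Valued.v (algebraMap k ((dn k w).adicCompletion k) y) = Valued.v x :=
      Valuation.map_eq_of_sub_lt _ hy1
    have h3 : Valued.v (j (algebraMap k ((dn k w).adicCompletion k) y)) = Valued.v (j x) :=
      Valuation.map_eq_of_sub_lt _ hy2
    rw [← h1, ← h3, hja, val_coe, val_coe, hun y]
  refine ⟨σ, ⟨?_, ?_, ?_⟩, hσv, hσ, hjv⟩
  · intro x
    have h := act_ext w (f := fun x => σ (σ x)) (f' := fun x => x) (hσc.comp hσc) continuous_id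
      (fun y => by
        show σ (σ (algebraMap k' (w.adicCompletion k') y)) = _
        rw [hσ, hσ, hinv])
    exact congrFun h x
  · intro x
    have h := act_ext (dn k w) (f := fun x => σ (j x)) (f' := fun x => j x) (hσc.comp hjc) hjc
      (fun y => by
        show σ (j (algebraMap k ((dn k w).adicCompletion k) y)) = _
        rw [hja, hσ, AlgEquiv.commutes])
    exact congrFun h x
  · intro x hx
    have h2v : Valued.v (2 : w.adicCompletion k') = 1 := by
      have h := val_coe w (2 : k')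
      rw [map_ofNat, h2] at h
      exact h
    have hne2 : (2 : w.adicCompletion k') ≠ 0 := by
      intro h
      rw [h, map_zero] at h2v
      exact zero_ne_one h2v
    have hdense : ∀ c : w.adicCompletion k', c ≠ 0 → ∃ α, Valued.v (j α - x) < Valued.v c := by
      intro c hc
      obtain ⟨y, hy⟩ := near_coe w x hc
      obtain ⟨z, hz⟩ := hfix (y + τ y) (by rw [map_add, hinv]; ring)
      refine ⟨algebraMap k ((dn k w).adicCompletion k) (z / 2), ?_⟩
      have e1 : (2 : w.adicCompletion k') *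
          (j (algebraMap k ((dn k w).adicCompletion k) (z / 2)) - x) =
          (algebraMap k' (w.adicCompletion k') y - x) +
            σ (algebraMap k' (w.adicCompletion k') y - x) := by
        rw [map_sub, hx, hσ, hja, map_div₀, hz, map_ofNat, map_div₀, map_add, map_ofNat]
        field_simp
        ring
      have e2 : Valued.v (j (algebraMap k ((dn k w).adicCompletion k) (z / 2)) - x) =
          Valued.v ((algebraMap k' (w.adicCompletion k') y - x) +
            σ (algebraMap k' (w.adicCompletion k') y - x)) := by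
        rw [← e1, map_mul, h2v, one_mul]
      rw [e2]
      exact Valuation.map_add_lt _ hy (by rw [hσv]; exact hy)
    have hne : (Filter.comap j (nhds x)).NeBot := by
      rw [Filter.comap_neBot_iff]
      intro t ht
      obtain ⟨c, hc, hc2⟩ := Oe_ball w x ht
      obtain ⟨α, hα⟩ := hdense c hc
      exact ⟨α, hc2 _ hα⟩
    have hcau : Cauchy (Filter.comap j (nhds x)) := by
      rw [Valued.cauchy_iff]
      refine ⟨hne, fun γ => ?_⟩
      obtain ⟨c, hc, hc2⟩ := Oe_small w
        (g := MonoidWithZeroHom.ValueGroup₀.embedding γ.1) (by simp)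
      refine ⟨j ⁻¹' {z | Valued.v (z - x) < Valued.v c},
        Filter.preimage_mem_comap (Te_nhd x hc), ?_⟩
      intro α hα β hβ
      rw [Valuation.restrict_lt_iff_lt_embedding]
      refine lt_trans ?_ hc2
      rw [← hjv (β - α), map_sub j]
      have e : j β - j α = (j β - x) - (j α - x) := by ring
      rw [e]
      exact Valuation.map_sub_lt _ hβ hα
    obtain ⟨α, hα⟩ := CompleteSpace.complete hcau
    refine ⟨α, ?_⟩
    have h3 : Filter.Tendsto j (Filter.comap j (nhds x)) (nhds (j α)) :=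
      (hjc.tendsto α).mono_left hα
    have h4 : Filter.Tendsto j (Filter.comap j (nhds x)) (nhds x) := Filter.tendsto_comap
    exact tendsto_nhds_unique h3 h4

end H36O2

end S_H36_O2_Oe

section S_H36_O2_Of

set_option autoImplicit false
set_option linter.unusedSectionVars false
open scoped Classical

open WithZero NumberField IsDedekindDomain H76PP H36CY H24PD

namespace H36O2

theorem v_sq1 {a : WithZero (Multiplicative ℤ)} (h : a ^ 2 = 1) : a = 1 := by
  rcases lt_trichotomy a 1 with h1 | h1 | h1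
  · exact absurd h (ne_of_lt (pow_lt_one' h1 two_ne_zero))
  · exact h1
  · exact absurd h (ne_of_gt (one_lt_pow' h1 two_ne_zero))

theorem exists_rts {κ κ' : Type*} [Field κ] [Field κ'] [Valued κ (WithZero (Multiplicative ℤ))]
    [CompleteSpace κ] [Valued κ' (WithZero (Multiplicative ℤ))] [CompleteSpace κ']
    {i : κ →+* κ'} {σ : κ' →+* κ'} (hI : Inv2 i σ) (h4 : Valued.v (4 : κ) = 1)
    (hv : ∀ x : κ, Valued.v (i x) = Valued.v x) {ϖ : κ} (hϖ : Valued.v ϖ = exp (-1 : ℤ))
    (hns : ∀ x y : κ, Valued.v x = 1 → Valued.v y = 1 → ¬ IsSquare x → ¬ IsSquare y →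
      IsSquare (x * y))
    {ρ : κ'} (hρ0 : ρ ≠ 0) (hρ : σ ρ = -ρ) {A B t : κ} (hA : Valued.v A ≤ 1)
    (hB : Valued.v B ≤ 1) (ht : Valued.v t ≤ 1) (h1 : Valued.v (t ^ 3 + A * t + B) < 1)
    (h2 : ∀ s : κ, Valued.v s ≤ 1 → Valued.v (-3 * t ^ 2 - 4 * A - s ^ 2) = 1) :
    ∃ (e : κ) (f : κ'), Rts i σ A B e f ∧ Valued.v (i e) ≤ 1 ∧ Valued.v f ≤ 1 ∧
      Valued.v (i e - f) = 1 ∧ Valued.v (f - σ f) = 1 := by
  obtain ⟨D, hDe⟩ : ∃ D, D = 3 * t ^ 2 + A := ⟨_, rfl⟩
  have hDle : Valued.v D ≤ 1 := by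
    rw [hDe]
    exact Valuation.map_add_le _ (H36LG.v_ml1 (H36LG.v_ofNat 3) (H36LG.v_pw1 ht 2)) hA
  have h3t : Valued.v (3 * t) ≤ 1 := H36LG.v_ml1 (H36LG.v_ofNat 3) ht
  have hD1 : Valued.v D = 1 := by
    have h5 := h2 (3 * t) h3t
    have h6 : -3 * t ^ 2 - 4 * A - (3 * t) ^ 2 = -(4 * D) := by
      rw [hDe]
      ring
    rw [h6, Valuation.map_neg, map_mul, h4, one_mul] at h5
    exact h5
  have hD0 : D ≠ 0 := by
    rintro rfl
    rw [map_zero] at hD1
    exact zero_ne_one hD1
  obtain ⟨F, hF⟩ : ∃ F, F = t ^ 3 + A * t + B := ⟨_, rfl⟩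
  rw [← hF] at h1
  have hc0 : Valued.v (F / D ^ 2) < 1 := by
    rw [map_div₀, map_pow, hD1, one_pow, div_one]
    exact h1
  obtain ⟨Y, hY, hYv⟩ := H36LG.hens3 (F := κ) hc0 h3t hDle
  have hYv1 : Valued.v (D * Y) < 1 := by
    rw [map_mul, hD1, one_mul]
    exact hYv.trans_lt hc0
  obtain ⟨e, he⟩ : ∃ e, e = t + D * Y := ⟨_, rfl⟩
  have het : e - t = D * Y := by
    rw [he]
    ring
  have hr1 : e ^ 3 + A * e + B = 0 := by
    have h7 : e ^ 3 + A * e + B = D ^ 2 * (F / D ^ 2 + Y + 3 * t * Y ^ 2 + D * Y ^ 3) := by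
      have h8 : D ^ 2 * (F / D ^ 2) = F := by
        field_simp
      calc e ^ 3 + A * e + B = F + (3 * t ^ 2 + A) * (D * Y) + 3 * t * (D * Y) ^ 2 +
            (D * Y) ^ 3 := by
            rw [he, hF]
            ring
        _ = D ^ 2 * (F / D ^ 2) + D * (D * Y) + 3 * t * (D * Y) ^ 2 + (D * Y) ^ 3 := by
            rw [h8, ← hDe]
        _ = _ := by ring
    rw [h7, hY, mul_zero]
  have hev : Valued.v e ≤ 1 := by
    rw [he]
    exact Valuation.map_add_le _ ht hYv1.le
  have hsm : ∀ z : κ, Valued.v z ≤ 1 → Valued.v (z * ((e - t) * (e + t))) < 1 := by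
    intro z hz
    rw [map_mul, map_mul, het]
    have h9 : Valued.v (e + t) ≤ 1 := Valuation.map_add_le _ hev ht
    calc Valued.v z * (Valued.v (D * Y) * Valued.v (e + t)) ≤ 1 * (Valued.v (D * Y) * 1) :=
          mul_le_mul' hz (mul_le_mul' le_rfl h9)
      _ = Valued.v (D * Y) := by rw [one_mul, mul_one]
      _ < 1 := hYv1
  obtain ⟨δ, hδ⟩ : ∃ δ, δ = -3 * e ^ 2 - 4 * A := ⟨_, rfl⟩
  have hδs : ∀ s : κ, Valued.v s ≤ 1 → Valued.v (δ - s ^ 2) = 1 := by
    intro s hs
    have h10 : δ - s ^ 2 = (-3 * t ^ 2 - 4 * A - s ^ 2) + -(3 * ((e - t) * (e + t))) := by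
      rw [hδ]
      ring
    have h11 := h2 s hs
    rw [h10, Valuation.map_add_eq_of_lt_left, h11]
    rw [h11, Valuation.map_neg]
    exact hsm 3 (H36LG.v_ofNat 3)
  have hδv : Valued.v δ = 1 := by
    have h12 := hδs 0 (by rw [map_zero]; exact zero_le_one)
    simpa using h12
  have hδns : ¬ IsSquare δ := by
    rintro ⟨s, hs⟩
    have h13 : Valued.v s * Valued.v s = 1 := by
      rw [← map_mul, ← hs]
      exact hδv
    have h14 : Valued.v s = 1 := by
      rw [← pow_two] at h13
      exact v_sq1 h13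
    have h15 := hδs s h14.le
    rw [hs, pow_two, sub_self, map_zero] at h15
    exact zero_ne_one h15
  have h2v : Valued.v (2 : κ) = 1 := by
    have h16 : Valued.v (2 : κ) ^ 2 = 1 := by
      rw [← map_pow]
      have h17 : (2 : κ) ^ 2 = 4 := by norm_num
      rw [h17]
      exact h4
    exact v_sq1 h16
  have h2v' : Valued.v (2 : κ') = 1 := by
    have h18 := hv 2
    rw [map_ofNat] at h18
    rw [h18]
    exact h2v
  have h20 : (2 : κ') ≠ 0 := by
    intro h
    rw [h, map_zero] at h2v'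
    exact zero_ne_one h2v'
  -- the square of ρ
  obtain ⟨D0, hD0e⟩ := hI.desc (ρ ^ 2) (by rw [map_pow, hρ]; ring)
  have hD00 : D0 ≠ 0 := by
    rintro rfl
    rw [map_zero] at hD0e
    exact hρ0 (pow_eq_zero_iff (two_ne_zero) |>.1 hD0e.symm)
  have hρv : Valued.v ρ ≠ 0 := (Valuation.ne_zero_iff _).2 hρ0
  obtain ⟨m, hm⟩ : ∃ m : ℤ, Valued.v ρ = exp m := ⟨_, (exp_log hρv).symm⟩
  obtain ⟨c, hc⟩ : ∃ c : κ, c = ϖ ^ (-m) := ⟨_, rfl⟩
  have hcv : Valued.v c = Valued.v ρ := by
    rw [hc, map_zpow₀, hϖ, hm, ← exp_zsmul]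
    congr 1
    simp
  have hc0' : c ≠ 0 := by
    intro h
    rw [h, map_zero] at hcv
    exact hρv hcv.symm
  have hD0v : Valued.v D0 = Valued.v c ^ 2 := by
    rw [← hv, hD0e, map_pow, hcv]
  have hD1v : Valued.v (D0 / c ^ 2) = 1 := by
    rw [map_div₀, map_pow, hD0v]
    exact div_self (pow_ne_zero _ ((Valuation.ne_zero_iff _).2 hc0'))
  have hD1ns : ¬ IsSquare (D0 / c ^ 2) := by
    rintro ⟨s, hs⟩
    have h21 : D0 = (c * s) ^ 2 := by
      have h22 : D0 = D0 / c ^ 2 * c ^ 2 := by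
        field_simp
      rw [h22, hs]
      ring
    have h23 : ρ ^ 2 = (i (c * s)) ^ 2 := by
      rw [← hD0e, h21, map_pow]
    have h24 : σ ρ = ρ := by
      rcases sq_eq_sq_iff_eq_or_eq_neg.1 h23 with h | h
      · rw [h, hI.fix]
      · rw [h, map_neg, hI.fix]
    have h25 : (2 : κ') * ρ = 0 := by
      have h26 : -ρ = ρ := by rw [← hρ, h24]
      linear_combination -h26
    rcases mul_eq_zero.1 h25 with h | h
    · exact h20 h
    · exact hρ0 h
  obtain ⟨r, hr⟩ := hns δ (D0 / c ^ 2) hδv hD1v hδns hD1ns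
  obtain ⟨η, hη⟩ : ∃ η : κ', η = i (r * c) / ρ := ⟨_, rfl⟩
  have hη2 : η ^ 2 = i δ := by
    have h27 : (r * c) ^ 2 = δ * D0 := by
      have h28 : (r * c) ^ 2 = (r * r) * c ^ 2 := by ring
      rw [h28, ← hr]
      field_simp
    rw [hη, div_pow, ← hD0e, ← map_pow, h27, map_mul]
    exact mul_div_cancel_right₀ _ (by
      intro h
      exact hD00 (i.injective (by rw [h, map_zero])))
  have hση : σ η = -η := by
    rw [hη, map_div₀, hI.fix, hρ, div_neg]
  have hηv : Valued.v η = 1 := by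
    have h29 : Valued.v η ^ 2 = 1 := by
      rw [← map_pow, hη2, hv]
      exact hδv
    exact v_sq1 h29
  have hη0 : η ≠ 0 := by
    intro h
    rw [h, map_zero] at hηv
    exact zero_ne_one hηv
  have hη3 : η ^ 2 = -3 * (i e) ^ 2 - 4 * i A := by
    rw [hη2, hδ, map_sub, map_mul, map_mul, map_neg, map_pow, map_ofNat, map_ofNat]
  obtain ⟨f, hf⟩ : ∃ f : κ', f = (-(i e) + η) / 2 := ⟨_, rfl⟩
  have h2f : 2 * f = -(i e) + η := by
    rw [hf]
    field_simp
  have hσf : 2 * σ f = -(i e) - η := by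
    have h30 := congrArg σ h2f
    rw [map_mul, map_ofNat, map_add, map_neg, hI.fix, hση] at h30
    rw [h30]
    ring
  have hdf : f - σ f = η := by
    have h31 : (2 : κ') * (f - σ f) = 2 * η := by
      linear_combination h2f - hσf
    exact mul_left_cancel₀ h20 h31
  have hq : f ^ 2 + i e * f + (i e) ^ 2 + i A = 0 := by
    have h32 : (4 : κ') * (f ^ 2 + i e * f + (i e) ^ 2 + i A) = 0 := by
      have h33 : (4 : κ') * (f ^ 2 + i e * f + (i e) ^ 2 + i A) =
          (2 * f) ^ 2 + 2 * i e * (2 * f) + 4 * (i e) ^ 2 + 4 * i A := by ring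
      rw [h33, h2f]
      linear_combination hη3
    have h40 : (4 : κ') ≠ 0 := by
      have h41 : (4 : κ') = 2 * 2 := by norm_num
      rw [h41]
      exact mul_ne_zero h20 h20
    exact (mul_eq_zero.1 h32).resolve_left h40
  have hr1' : (i e) ^ 3 + i A * i e + i B = 0 := by
    have h34 := congrArg i hr1
    simpa using h34
  have hR : Rts i σ A B e f := by
    refine ⟨hr1, ?_, ?_⟩
    · linear_combination (f - i e) * hq + hr1'
    · intro h
      apply hη0
      rw [← hdf, h, sub_self]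
  have hiev : Valued.v (i e) ≤ 1 := by
    rw [hv]
    exact hev
  have hfv : Valued.v f ≤ 1 := by
    have h35 : Valued.v (2 * f) ≤ 1 := by
      rw [h2f]
      refine Valuation.map_add_le _ ?_ hηv.le
      rw [Valuation.map_neg]
      exact hiev
    rw [map_mul, h2v', one_mul] at h35
    exact h35
  have hσfv : Valued.v (σ f) ≤ 1 := by
    have h35 : Valued.v (2 * σ f) ≤ 1 := by
      rw [hσf]
      refine Valuation.map_sub_le _ ?_ hηv.le
      rw [Valuation.map_neg]
      exact hiev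
    rw [map_mul, h2v', one_mul] at h35
    exact h35
  refine ⟨e, f, hR, hiev, hfv, ?_, ?_⟩
  · have h36 := hR.prod hI
    have h37 : Valued.v (3 * e ^ 2 + A) = 1 := by
      have h38 : 3 * e ^ 2 + A = D + 3 * ((e - t) * (e + t)) := by
        rw [hDe]
        ring
      rw [h38, Valuation.map_add_eq_of_lt_left, hD1]
      rw [hD1]
      exact hsm 3 (H36LG.v_ofNat 3)
    have h39 : Valued.v (i e - f) * Valued.v (i e - σ f) = 1 := by
      rw [← map_mul, h36, hv]
      exact h37
    have h42 : Valued.v (i e - f) ≤ 1 := Valuation.map_sub_le _ hiev hfv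
    have h43 : Valued.v (i e - σ f) ≤ 1 := Valuation.map_sub_le _ hiev hσfv
    refine le_antisymm h42 ?_
    rw [← h39]
    calc Valued.v (i e - f) * Valued.v (i e - σ f) ≤ Valued.v (i e - f) * 1 :=
          mul_le_mul' le_rfl h43
      _ = Valued.v (i e - f) := mul_one _
  · rw [hdf]
    exact hηv

end H36O2

end S_H36_O2_Of

section S_H36_O2_Oh

set_option autoImplicit false
set_option linter.unusedSectionVars false
open scoped Classical

open WithZero NumberField IsDedekindDomain H76PP H36CY H24PD H73P2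

namespace H36O2

/-- Two elements with the same order have the same value. -/
theorem val_of_ord {F F' : Type} [Field F] [Field F'] {V : Valuation F (WithZero (Multiplicative ℤ))}
    {V' : Valuation F' (WithZero (Multiplicative ℤ))} {x : F} {y : F'} (hx : x ≠ 0) (hy : y ≠ 0)
    (h : H38RT.ord V x = H38RT.ord V' y) : V x = V' y := by
  rw [Ev_V hx, Ev_V hy, h]

section

variable {K k k' N : Type} [Field K] [NumberField K] [Field k] [NumberField k] [Field k']
  [NumberField k'] [Field N] [NumberField N] [Algebra K k] [Algebra K k'] [Algebra k k']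
  [IsScalarTower K k k'] [Algebra k N] [Algebra k' N] [Algebra K N] [IsScalarTower K k N]
  [IsScalarTower K k' N] [IsScalarTower k k' N]

/-- The valuation of a middle field at an unramified prime. -/
theorem val_mid {W : HeightOneSpectrum (𝓞 N)} (h : ¬ Ram K W) (x : k) :
    (dn k W).valuation k x = W.valuation N (algebraMap k N x) := by
  by_cases hx : x = 0
  · rw [hx, map_zero, map_zero, map_zero]
  · exact (val_of_ord ((map_ne_zero _).2 hx) hx ((unram_mid (k := k) h).1 x hx)).symm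

theorem valued_eq (u : HeightOneSpectrum (𝓞 k)) {n : WithZero (Multiplicative ℤ)} {x : k}
    (h : u.valuation k x = n) : Valued.v (algebraMap k (u.adicCompletion k) x) = n := by
  rw [val_coe, h]

theorem notMem_iff {u : HeightOneSpectrum (𝓞 k)} {x : 𝓞 k} (h : x ∉ u.asIdeal) :
    u.valuation k (x : k) = 1 :=
  le_antisymm (u.valuation_le_one x) (not_lt.1 fun h1 => h ((u.valuation_lt_one_iff_mem x).1 h1))

/-- Up to a square a nonzero element of even order is an integer which is a unit at `v`. -/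
theorem even_fac {v : HeightOneSpectrum (𝓞 K)} {D : 𝓞 K} (hD : D ≠ 0)
    (hev : Even (H38RT.ord (v.valuation K) (D : K))) :
    ∃ (c : K) (E : 𝓞 K), c ≠ 0 ∧ E ∉ v.asIdeal ∧ (D : K) = c ^ 2 * (E : K) := by
  have hD' : (D : K) ≠ 0 := by
    intro h
    apply hD
    apply RingOfIntegers.coe_injective
    exact h.trans (map_zero (algebraMap (𝓞 K) K)).symm
  obtain ⟨c, u, hc, hcu, hu⟩ := H30PN.Nc_fac hD' v hev
  obtain ⟨n, ⟨d, hd⟩, hnd⟩ := HeightOneSpectrum.exists_primeCompl_mul_eq_of_integer v u hu.le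
  change d ∉ v.asIdeal at hd
  have hnd' : (d : K) * u = (n : K) := by
    first
      | exact hnd
      | (rw [mul_comm]; exact hnd)
  have hd1 := notMem_iff hd
  have hd0 : (d : K) ≠ 0 := by
    intro h
    rw [h, map_zero] at hd1
    exact zero_ne_one hd1
  have h2 : ((n * d : 𝓞 K) : K) = (d : K) * u * (d : K) := by
    rw [hnd']
    exact map_mul (algebraMap (𝓞 K) K) n d
  refine ⟨c / (d : K), n * d, div_ne_zero hc hd0, fun h => ?_, ?_⟩
  · have h1 : v.valuation K ((n * d : 𝓞 K) : K) < 1 :=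
      (v.valuation_lt_one_iff_mem (K := K) (n * d)).2 h
    rw [h2, map_mul, map_mul, hd1, hu, one_mul, one_mul] at h1
    exact lt_irrefl _ h1
  · rw [h2, hcu]
    field_simp

/-- The discriminant is a unit. -/
theorem dsc_notMem {v : HeightOneSpectrum (𝓞 K)} (h2 : (2 : 𝓞 K) ∉ v.asIdeal) {A B t : 𝓞 K}
    (ht : t ^ 3 + A * t + B ∈ v.asIdeal) (hs : ∀ s : 𝓞 K, -3 * t ^ 2 - 4 * A - s ^ 2 ∉ v.asIdeal) :
    dsc A B ∉ v.asIdeal := by
  intro h
  have h0 := hs 0
  have h1 := hs (3 * t)
  have e1 : -3 * t ^ 2 - 4 * A - (0 : 𝓞 K) ^ 2 = -3 * t ^ 2 - 4 * A := by ring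
  have e2 : -3 * t ^ 2 - 4 * A - (3 * t) ^ 2 = -(2 * (2 * (3 * t ^ 2 + A))) := by ring
  rw [e1] at h0
  rw [e2, neg_mem_iff] at h1
  -- the discriminant is `-(3 t^2 + A)^2 (-3 t^2 - 4 A)` modulo `v`
  have e3 : (3 * t ^ 2 + A) ^ 2 * (-3 * t ^ 2 - 4 * A) = -dsc A B +
      (t ^ 3 + A * t + B) * (27 * (B - t ^ 3 - A * t)) := by
    unfold dsc
    ring
  have h3 : (3 * t ^ 2 + A) ^ 2 * (-3 * t ^ 2 - 4 * A) ∈ v.asIdeal := by
    rw [e3]
    exact add_mem (neg_mem_iff.2 h) (v.asIdeal.mul_mem_right _ ht)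
  rcases v.isPrime.mem_or_mem h3 with h4 | h4
  · exact h1 (v.asIdeal.mul_mem_left _ (v.asIdeal.mul_mem_left _ (v.isPrime.mem_of_pow_mem 2 h4)))
  · exact h0 h4

end

section Odd

variable {K N : Type} [Field K] [NumberField K] [Field N] [NumberField N] [Algebra K N]
  [IsGalois K N]

theorem descAt_odd {v : HeightOneSpectrum (𝓞 K)} (h2 : (2 : 𝓞 K) ∉ v.asIdeal)
    (hu : ∀ V : HeightOneSpectrum (𝓞 N), dn K V = v → ¬ Ram K V) (hdec : Dec2 N v)
    {A B D t : 𝓞 K} (hD : Odd (H38RT.ord (v.valuation K) (D : K))) (ht : t ^ 3 + A * t + B ∈ v.asIdeal)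
    (hs : ∀ s : 𝓞 K, -3 * t ^ 2 - 4 * A - s ^ 2 ∉ v.asIdeal) :
    DescAt K N v ((D : K) ^ 2 * (A : K)) ((D : K) ^ 3 * (B : K)) := by
  intro k k' _ _ _ _ _ _ _ _ _ _ _ _ _ two d hd0 hsq hloc u hu'
  have _ : IsGalois k N := IsGalois.tower_top_of_isGalois K k N
  have _ : FiniteDimensional k k' := Module.Finite.of_restrictScalars_finite ℚ k k'
  obtain ⟨D₀, ρ, hρ, hρk⟩ := exists_gen0 (k := k) (k' := k') two
  have hρ0 : ρ ≠ 0 := fun h => hρk 0 (by rw [map_zero, h])
  obtain ⟨W, rfl⟩ := exists_above (L := N) u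
  subst hu'
  have hab : ∀ x : K, algebraMap K k' x = algebraMap k k' (algebraMap K k x) :=
    IsScalarTower.algebraMap_apply K k k'
  by_cases hA : ∀ g : N ≃ₐ[k] N, Stb k W g → g (algebraMap k' N ρ) = algebraMap k' N ρ
  · refine ld_split two W hρ hρk hA ?_
    intro u' hu'
    have h1 := hloc u' (by rw [← hu', dn_dn])
    rw [hab, hab] at h1
    exact h1
  push Not at hA
  obtain ⟨g, hg, hgne⟩ := hA
  have hgρ : g (algebraMap k' N ρ) = -algebraMap k' N ρ := by
    have h1 : g (algebraMap k' N ρ) ^ 2 = algebraMap k' N ρ ^ 2 := by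
      rw [← map_pow, ← map_pow, hρ, ← IsScalarTower.algebraMap_apply, g.commutes]
    rcases sq_eq_sq_iff_eq_or_eq_neg.1 h1 with h2 | h2
    · exact absurd h2 hgne
    · exact h2
  have hg1 : g ≠ 1 := by
    rintro rfl
    exact hgne rfl
  -- the primes
  have eW : dn K W = dn K (dn k W) := (dn_dn W).symm
  have hW : ¬ Ram K W := hu W eW
  have hvk : ∀ x : k, (dn k W).valuation k x = W.valuation N (algebraMap k N x) := val_mid hW
  have hvk' : ∀ x : k', (dn k' W).valuation k' x = W.valuation N (algebraMap k' N x) := val_mid hW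
  have hvK : ∀ x : K, (dn K W).valuation K x = W.valuation N (algebraMap K N x) := val_mid hW
  have hdd : dn k (dn k' W) = dn k W := dn_dn W
  -- the involution of the quadratic extension
  have _ : Algebra.IsQuadraticExtension k k' := ⟨two⟩
  have _ : Normal k k' := inferInstance
  obtain ⟨τ, hτ⟩ : ∃ τ : k' ≃ₐ[k] k', ∀ x : k', algebraMap k' N (τ x) = g (algebraMap k' N x) :=
    ⟨g.restrictNormal k', fun x => g.restrictNormal_commutes k' x⟩
  have hτs : Stb k (dn k' W) τ := by
    intro y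
    rw [hvk', hvk', hτ]
    exact hg _
  have hτρ : τ ρ = -ρ := by
    apply (algebraMap k' N).injective
    rw [hτ, hgρ, map_neg]
  have hvv : ∀ x : k, (dn k' W).valuation k' (algebraMap k k' x) = (dn k (dn k' W)).valuation k x := by
    intro x
    rw [hdd, hvk', hvk, ← IsScalarTower.algebraMap_apply]
  have h2K : (dn K W).valuation K (2 : K) = 1 := by
    rw [eW]
    exact notMem_iff h2
  have h2N : W.valuation N (2 : N) = 1 := by
    rw [← map_ofNat (algebraMap K N) 2, ← hvK, h2K]
  have h2k : (dn k (dn k' W)).valuation k (2 : k) = 1 := by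
    rw [hdd, hvk, map_ofNat, h2N]
  have h2k' : (dn k' W).valuation k' (2 : k') = 1 := by
    rw [hvk', map_ofNat, h2N]
  obtain ⟨σ, hI, hσ, hσx, hiv⟩ := inv2_of two (dn k' W) hτs hρ0 hτρ h2k' hvv
  obtain ⟨i, hi⟩ : ∃ i, i = (over_dn (K := k) (dn k' W)).map := ⟨_, rfl⟩
  have hix : ∀ x : k, i (algebraMap k ((dn k (dn k' W)).adicCompletion k) x) =
      algebraMap k' ((dn k' W).adicCompletion k') (algebraMap k k' x) := by
    intro x
    rw [hi]
    exact Pool.Agent.H10.Over.map_algebraMap _ x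
  rw [← hi] at hI hiv
  -- values in the completions
  have hvc : ∀ x : k, Valued.v (algebraMap k ((dn k (dn k' W)).adicCompletion k) x) =
      (dn k (dn k' W)).valuation k x := fun x => val_coe _ x
  have hvKk : ∀ x : K, (dn k (dn k' W)).valuation k (algebraMap K k x) =
      (dn K W).valuation K x := by
    intro x
    rw [hdd, hvk, hvK, ← IsScalarTower.algebraMap_apply]
  have h4 : Valued.v (4 : (dn k (dn k' W)).adicCompletion k) = 1 := by
    have e : (4 : (dn k (dn k' W)).adicCompletion k) =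
        algebraMap k ((dn k (dn k' W)).adicCompletion k) (2 ^ 2) := by
      rw [map_pow, map_ofNat]
      norm_num
    rw [e, hvc, map_pow, h2k, one_pow]
  have h4' : Valued.v (4 : (dn k' W).adicCompletion k') = 1 := by
    have e : (4 : (dn k' W).adicCompletion k') =
        algebraMap k' ((dn k' W).adicCompletion k') (2 ^ 2) := by
      rw [map_pow, map_ofNat]
      norm_num
    rw [e, val_coe, map_pow, h2k', one_pow]
  obtain ⟨ϖ, hϖ⟩ := (dn k (dn k' W)).valuation_exists_uniformizer k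
  have hϖ' : Valued.v (algebraMap k ((dn k (dn k' W)).adicCompletion k) ϖ) = exp (-1 : ℤ) := by
    rw [hvc, hϖ]
  have hρ' : σ (algebraMap k' ((dn k' W).adicCompletion k') ρ) =
      -algebraMap k' ((dn k' W).adicCompletion k') ρ := by
    rw [hσx, hτρ, map_neg]
  have hint : ∀ x : 𝓞 K, Valued.v (algebraMap k ((dn k (dn k' W)).adicCompletion k)
      (algebraMap K k (x : K))) ≤ 1 := by
    intro x
    rw [hvc, hvKk]
    exact (dn K W).valuation_le_one x
  -- the nonsquare
  obtain ⟨t₀, ht₀⟩ := hdec W eW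
  have hns : ∀ s : (dn k (dn k' W)).adicCompletion k, Valued.v s ≤ 1 →
      Valued.v (-3 * (algebraMap k ((dn k (dn k' W)).adicCompletion k) (algebraMap K k (t : K))) ^ 2 -
        4 * (algebraMap k ((dn k (dn k' W)).adicCompletion k) (algebraMap K k (A : K))) - s ^ 2) = 1 := by
    intro s hs1
    obtain ⟨y, hy⟩ := exists_int (dn k (dn k' W)) hs1
    have h5 := nonsq_up (K := K) (k := k) (N := N) W (by rw [eW]; exact h2) ht₀ hg hg1
      (δ := -3 * t ^ 2 - 4 * A) (by rw [eW]; exact hs) y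
    rw [← hdd] at h5
    have h6 := notMem_iff h5
    have e1 : ((algebraMap (𝓞 K) (𝓞 k) (-3 * t ^ 2 - 4 * A) - y ^ 2 : 𝓞 k) : k) =
        -3 * (algebraMap K k (t : K)) ^ 2 - 4 * (algebraMap K k (A : K)) - (y : k) ^ 2 := by
      have e2 : algebraMap (𝓞 k) k (algebraMap (𝓞 K) (𝓞 k) (-3 * t ^ 2 - 4 * A) - y ^ 2) =
          algebraMap (𝓞 k) k (algebraMap (𝓞 K) (𝓞 k) (-3 * t ^ 2 - 4 * A)) -
            (algebraMap (𝓞 k) k y) ^ 2 := by
        rw [map_sub (algebraMap (𝓞 k) k), map_pow]
      refine e2.trans ?_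
      have e3 : algebraMap (𝓞 k) k (algebraMap (𝓞 K) (𝓞 k) (-3 * t ^ 2 - 4 * A)) =
          algebraMap K k (algebraMap (𝓞 K) K (-3 * t ^ 2 - 4 * A)) := rfl
      rw [e3]
      simp only [map_sub, map_mul, map_pow, map_neg, map_ofNat]
    rw [e1] at h6
    have h7 : Valued.v (algebraMap k ((dn k (dn k' W)).adicCompletion k)
        (-3 * (algebraMap K k (t : K)) ^ 2 - 4 * (algebraMap K k (A : K)) - (y : k) ^ 2)) = 1 := by
      rw [hvc, h6]
    obtain ⟨z, hz⟩ : ∃ z, z = algebraMap k ((dn k (dn k' W)).adicCompletion k) (y : k) := ⟨_, rfl⟩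
    rw [← hz] at hy
    have hz1 : Valued.v z ≤ 1 := by
      rw [hz, hvc]
      exact (dn k (dn k' W)).valuation_le_one y
    have e3 : -3 * (algebraMap k ((dn k (dn k' W)).adicCompletion k) (algebraMap K k (t : K))) ^ 2 -
        4 * (algebraMap k ((dn k (dn k' W)).adicCompletion k) (algebraMap K k (A : K))) - s ^ 2 =
        algebraMap k ((dn k (dn k' W)).adicCompletion k)
        (-3 * (algebraMap K k (t : K)) ^ 2 - 4 * (algebraMap K k (A : K)) - (y : k) ^ 2) +
        (z - s) * (z + s) := by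
      rw [hz]
      simp only [map_sub, map_mul, map_pow, map_neg, map_ofNat]
      ring
    rw [e3]
    have h8 : Valued.v ((z - s) * (z + s)) < 1 := by
      rw [map_mul]
      calc Valued.v (z - s) * Valued.v (z + s) ≤ Valued.v (z - s) * 1 :=
            mul_le_mul' le_rfl (Valuation.map_add_le _ hz1 hs1)
        _ = Valued.v (z - s) := mul_one _
        _ < 1 := hy
    rw [← h7] at h8 ⊢
    exact Valuation.map_add_eq_of_lt_left _ h8
  have hroot : Valued.v ((algebraMap k ((dn k (dn k' W)).adicCompletion k)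
      (algebraMap K k (t : K))) ^ 3 + algebraMap k ((dn k (dn k' W)).adicCompletion k)
      (algebraMap K k (A : K)) * algebraMap k ((dn k (dn k' W)).adicCompletion k)
      (algebraMap K k (t : K)) + algebraMap k ((dn k (dn k' W)).adicCompletion k)
      (algebraMap K k (B : K))) < 1 := by
    have e1 : (algebraMap k ((dn k (dn k' W)).adicCompletion k)
      (algebraMap K k (t : K))) ^ 3 + algebraMap k ((dn k (dn k' W)).adicCompletion k)
      (algebraMap K k (A : K)) * algebraMap k ((dn k (dn k' W)).adicCompletion k)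
      (algebraMap K k (t : K)) + algebraMap k ((dn k (dn k' W)).adicCompletion k)
      (algebraMap K k (B : K)) = algebraMap k ((dn k (dn k' W)).adicCompletion k)
        (algebraMap K k ((t ^ 3 + A * t + B : 𝓞 K) : K)) := by
      simp
    rw [e1, hvc, hvKk, eW]
    exact ((dn K (dn k W)).valuation_lt_one_iff_mem _).2 ht
  obtain ⟨e, f, hR, he, hf, hef, hff⟩ := exists_rts hI h4 hiv hϖ'
    (fun x y hx hy hx' hy' => nonsq_mul (dn k (dn k' W)) h2k hx hy hx' hy')
    ((map_ne_zero _).2 hρ0) hρ' (hint A) (hint B) (hint t) hroot hns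
  -- the twist
  obtain ⟨δ, hδ⟩ : ∃ δ, δ = algebraMap k ((dn k (dn k' W)).adicCompletion k)
    (algebraMap K k (D : K)) := ⟨_, rfl⟩
  obtain ⟨n, hn⟩ := hD
  have hDv : Valued.v δ = exp (2 * (-n - 1) + 1 : ℤ) := by
    have hD0 : (D : K) ≠ 0 := by
      intro h
      have h5 : H38RT.ord ((dn K (dn k W)).valuation K) (D : K) = 0 := by
        unfold H38RT.ord
        rw [h, map_zero, log_zero, neg_zero]
      omega
    rw [hδ, hvc, hvKk, eW, Ev_V hD0, hn]
    congr 1
    ring
  have hiδ : Valued.v (i δ) = exp (2 * (-n - 1) + 1 : ℤ) := by rw [hiv, hDv]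
  have hRD : Rts i σ (algebraMap k ((dn k (dn k' W)).adicCompletion k)
      (algebraMap K k ((D : K) ^ 2 * (A : K)))) (algebraMap k ((dn k (dn k' W)).adicCompletion k)
      (algebraMap K k ((D : K) ^ 3 * (B : K)))) (δ * e) (i δ * f) := by
    have hδ0 : i δ ≠ 0 := by
      intro h
      rw [h, map_zero] at hiδ
      exact exp_ne_zero hiδ.symm
    refine ⟨?_, ?_, ?_⟩
    · have h5 := hR.r1
      simp only [map_mul, map_pow, ← hδ]
      linear_combination δ ^ 3 * h5
    · have h5 := hR.r2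
      simp only [map_mul, map_pow, ← hδ]
      linear_combination (i δ) ^ 3 * h5
    · intro h5
      rw [map_mul, hI.fix] at h5
      exact hR.ne (mul_left_cancel₀ hδ0 h5)
  have hmul : ∀ x : (dn k' W).adicCompletion k', Valued.v x ≤ 1 →
      Valued.v (i δ * x) ≤ exp (2 * (-n - 1) + 1 : ℤ) := by
    intro x hx
    rw [map_mul, hiδ]
    calc exp (2 * (-n - 1) + 1 : ℤ) * Valued.v x ≤ exp (2 * (-n - 1) + 1 : ℤ) * 1 :=
          mul_le_mul' le_rfl hx
      _ = _ := mul_one _
  have hmul1 : ∀ x : (dn k' W).adicCompletion k', Valued.v x = 1 →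
      Valued.v (i δ * x) = exp (2 * (-n - 1) + 1 : ℤ) := by
    intro x hx
    rw [map_mul, hiδ, hx, mul_one]
  have hϖ0 : algebraMap k ((dn k (dn k' W)).adicCompletion k) ϖ ≠ 0 := by
    intro h
    rw [h, map_zero] at hϖ'
    exact exp_ne_zero hϖ'.symm
  have hϖ1 : Valued.v (algebraMap k ((dn k (dn k' W)).adicCompletion k) ϖ) < 1 := by
    rw [hϖ', ← exp_zero]
    exact exp_lt_exp.2 (by norm_num)
  have hfin := LC_down hI h4 h4' hϖ0 hϖ1 hiv hσ hRD (n := -n - 1) (by
      rw [map_mul]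
      exact hmul _ he) (hmul _ hf) (by
      rw [map_mul, ← mul_sub]
      exact hmul1 _ hef) (by
      rw [map_mul, hI.fix, ← mul_sub]
      exact hmul1 _ hff) hd0 hsq ?_
  · rw [hdd] at hfin
    exact hfin
  · have hLC := hloc (dn k' W) (by
      have e1 : dn K (dn k (dn k' W)) = dn K (dn k' W) := dn_dn _
      rw [← e1, hdd])
    rw [hab, hab] at hLC
    obtain ⟨x, y, z, h1, h5, h6⟩ := hLC
    refine ⟨x, y, z, h1, ?_, ?_⟩
    · rw [RingHom.comp_apply, RingHom.comp_apply, hix, hix]
      exact h5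
    · rw [RingHom.comp_apply, RingHom.comp_apply, hix, hix]
      have e4 : (fun j => (i.comp (algebraMap k ((dn k (dn k' W)).adicCompletion k))) (d j)) =
          fun j => algebraMap k' ((dn k' W).adicCompletion k') (algebraMap k k' (d j)) :=
        funext fun j => hix _
      rw [e4]
      exact h6

end Odd

/-- The descent property at a prime with decomposition groups of order at most two, for all twists of a curve with exactly
one root modulo the prime. -/
theorem descAt_T {K N : Type} [Field K] [NumberField K] [Field N] [NumberField N] [Algebra K N]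
    [IsGalois K N] {r : ℕ} (hr : Module.finrank K N = 2 ^ r) {v : HeightOneSpectrum (𝓞 K)}
    (h2 : (2 : 𝓞 K) ∉ v.asIdeal) (hu : ∀ V : HeightOneSpectrum (𝓞 N), dn K V = v → ¬ Ram K V)
    (hdec : Dec2 N v) {A B D t : 𝓞 K} (hD : D ≠ 0)
    (hirr : ∀ x : K, x ^ 3 + (A : K) * x + (B : K) ≠ 0) (ht : t ^ 3 + A * t + B ∈ v.asIdeal)
    (hs : ∀ s : 𝓞 K, -3 * t ^ 2 - 4 * A - s ^ 2 ∉ v.asIdeal) :
    DescAt K N v ((D : K) ^ 2 * (A : K)) ((D : K) ^ 3 * (B : K)) := by
  rcases Int.even_or_odd (H38RT.ord (v.valuation K) (D : K)) with hev | hodd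
  · obtain ⟨c, E, hc, hE, hDE⟩ := even_fac hD hev
    have hE0 : (E : K) ≠ 0 := by
      intro h
      have := notMem_iff hE
      rw [h, map_zero] at this
      exact zero_ne_one this
    have h3 := H73ZO.descAt_good (a := E ^ 2 * A) (b := E ^ 3 * B) hr h2 hu ?_ ?_
    · have h4 := descAt_scale hc h3
      have e1 : (D : K) ^ 2 * (A : K) = c ^ 4 * ((E ^ 2 * A : 𝓞 K) : K) := by
        rw [hDE]
        push_cast
        ring
      have e2 : (D : K) ^ 3 * (B : K) = c ^ 6 * ((E ^ 3 * B : 𝓞 K) : K) := by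
        rw [hDE]
        push_cast
        ring
      rw [e1, e2]
      exact h4
    · intro x hx
      apply hirr (x / (E : K))
      have e3 : ((E ^ 2 * A : 𝓞 K) : K) = (E : K) ^ 2 * (A : K) := by push_cast; rfl
      have e4 : ((E ^ 3 * B : 𝓞 K) : K) = (E : K) ^ 3 * (B : K) := by push_cast; rfl
      rw [e3, e4] at hx
      field_simp
      linear_combination hx
    · intro h5
      have h6 : dsc A B ∈ v.asIdeal := by
        have e5 : dsc (E ^ 2 * A) (E ^ 3 * B) = E ^ 6 * dsc A B := by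
          unfold dsc
          ring
        rw [e5] at h5
        exact (v.isPrime.mem_or_mem h5).resolve_left fun h7 => hE (v.isPrime.mem_of_pow_mem 6 h7)
      exact dsc_notMem h2 ht hs h6
  · exact descAt_odd h2 hu hdec hodd ht hs

end H36O2

end S_H36_O2_Oh

section S_H36_O2_Oi

set_option autoImplicit false
set_option linter.unusedSectionVars false
open scoped Classical

open WithZero NumberField IsDedekindDomain H76PP H36CY H24PD H73P2

namespace H36O2

section Copy

open H38RT
open H38T1 (SC sc scu rep eo la si Pri OddP tp unif)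

section Val

variable {F Γ : Type*} [Field F] [LinearOrderedCommGroupWithZero Γ] {V : Valuation F Γ}

private lemma Oi_mul_lt {p q : F} (hp : V p ≤ 1) (hq : V q < 1) : V (p * q) < 1 := by
  rw [map_mul]
  calc V p * V q ≤ 1 * V q := mul_le_mul' hp le_rfl
    _ = V q := one_mul _
    _ < 1 := hq

private lemma Oi_mul_le {p q : F} (hp : V p ≤ 1) (hq : V q ≤ 1) : V (p * q) ≤ 1 := by
  rw [map_mul]
  exact mul_le_one' hp hq

private lemma Oi_add_one {p q : F} (hp : V p = 1) (hq : V q < 1) : V (p + q) = 1 := by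
  rw [← hp]
  exact Valuation.map_add_eq_of_lt_left V (by rw [hp]; exact hq)

private lemma Oi_form {a b : F} (hr : ∀ t : F, V t ≤ 1 → V (t ^ 3 + a * t + b) = 1)
    {x y : F} (hx : V x ≤ 1) (hy : V y = 1) : V (x ^ 3 + a * x * y ^ 2 - b * y ^ 3) = 1 := by
  have hy0 : y ≠ 0 := by
    rintro rfl
    rw [map_zero] at hy
    exact zero_ne_one hy
  have h1 := hr (-x / y) (by rw [map_div₀, Valuation.map_neg, hy, div_one]; exact hx)
  have h2 : x ^ 3 + a * x * y ^ 2 - b * y ^ 3 = -(y ^ 3 * ((-x / y) ^ 3 + a * (-x / y) + b)) := by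
    field_simp
    ring
  rw [h2, Valuation.map_neg, map_mul, h1, map_pow, hy, one_pow, one_mul]

private lemma Oi_nf {a b : F} (ha : V a ≤ 1) (hb : V b ≤ 1)
    (hr : ∀ t : F, V t ≤ 1 → V (t ^ 3 + a * t + b) = 1) {c : Fin 3 → F} (hc : ∀ j, V (c j) ≤ 1)
    {j : Fin 3} (hj : V (c j) = 1) : V (Te_nf a b c) = 1 := by
  have hx := hc 0
  have hy := hc 1
  have hz := hc 2
  by_cases h2 : V (c 2) = 1
  · have hz0 : c 2 ≠ 0 := by
      intro h
      rw [h, map_zero] at h2
      exact zero_ne_one h2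
    obtain ⟨m, hm⟩ : ∃ m : F, m = -(c 1) / c 2 := ⟨_, rfl⟩
    have hmV : V m ≤ 1 := by
      rw [hm, map_div₀, Valuation.map_neg, h2, div_one]
      exact hy
    have hym : c 1 = -(m * c 2) := by
      rw [hm, div_mul_cancel₀ _ hz0, neg_neg]
    obtain ⟨P, hP⟩ : ∃ P : F, P = c 0 * m - b * c 2 := ⟨_, rfl⟩
    obtain ⟨Q, hQ⟩ : ∃ Q : F, Q = c 0 + c 1 * m - a * c 2 := ⟨_, rfl⟩
    have hM : V (m ^ 3 + a * m - b) = 1 := by
      have h3 := hr (-m) (by rw [Valuation.map_neg]; exact hmV)
      have h4 : m ^ 3 + a * m - b = -((-m) ^ 3 + a * (-m) + b) := by ring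
      rw [h4, Valuation.map_neg, h3]
    have hmul : Te_nf a b c * (m ^ 3 + a * m - b) = P ^ 3 + a * P * Q ^ 2 - b * Q ^ 3 := by
      have h3 := Te_nf_mul a b c ![m, 1, 0]
      have h4 : Te_nf a b ![m, 1, 0] = m ^ 3 + a * m - b := by
        simp only [Te_nf, Matrix.cons_val_zero, Matrix.cons_val_one, Matrix.cons_val_two,
          Matrix.head_cons, Matrix.tail_cons]
        ring
      have h5 : m3 a b c ![m, 1, 0] = ![P, Q, 0] := by
        funext i
        fin_cases i
        · simp [m3, hP]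
        · simp [m3, hQ]
        · simp [m3, hym]
          ring
      rw [← h4, ← h3, h5]
      simp only [Te_nf, Matrix.cons_val_zero, Matrix.cons_val_one, Matrix.cons_val_two,
        Matrix.head_cons, Matrix.tail_cons]
      ring
    have hPV : V P ≤ 1 := by
      have : P ∈ V.integer := by
        rw [hP]
        exact sub_mem (mul_mem hx hmV) (mul_mem hb hz)
      exact this
    have hQV : V Q ≤ 1 := by
      have : Q ∈ V.integer := by
        rw [hQ]
        exact sub_mem (add_mem hx (mul_mem hy hmV)) (mul_mem ha hz)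
      exact this
    have hkey : V (P ^ 3 + a * P * Q ^ 2 - b * Q ^ 3) = 1 := by
      by_cases hQ1 : V Q = 1
      · exact Oi_form hr hPV hQ1
      · have hQ2 : V Q < 1 := lt_of_le_of_ne hQV hQ1
        have hP1 : V P = 1 := by
          have e : P = c 2 * (m ^ 3 + a * m - b) + m * Q := by
            rw [hP, hQ, hym]
            ring
          rw [e]
          apply Oi_add_one
          · rw [map_mul, h2, hM, one_mul]
          · exact Oi_mul_lt hmV hQ2
        have e : P ^ 3 + a * P * Q ^ 2 - b * Q ^ 3 = P ^ 3 + ((a * P - b * Q) * Q) * Q := by ring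
        rw [e]
        apply Oi_add_one
        · rw [map_pow, hP1, one_pow]
        · apply Oi_mul_lt _ hQ2
          have : (a * P - b * Q) * Q ∈ V.integer :=
            mul_mem (sub_mem (mul_mem ha hPV) (mul_mem hb hQV)) hQV
          exact this
    rw [← hmul, map_mul, hM, mul_one] at hkey
    exact hkey
  · have h2' : V (c 2) < 1 := lt_of_le_of_ne hz h2
    have e : Te_nf a b c = (c 0 ^ 3 + a * c 0 * c 1 ^ 2 - b * c 1 ^ 3) +
        (-(a * c 0 ^ 2 + a * c 0 ^ 2) + a ^ 2 * c 0 * c 2 + (b * c 0 * c 1 + b * c 0 * c 1 +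
          b * c 0 * c 1) + b ^ 2 * c 2 ^ 2 - a * b * c 1 * c 2) * c 2 := by
      simp only [Te_nf]
      ring
    have hE : -(a * c 0 ^ 2 + a * c 0 ^ 2) + a ^ 2 * c 0 * c 2 + (b * c 0 * c 1 + b * c 0 * c 1 +
          b * c 0 * c 1) + b ^ 2 * c 2 ^ 2 - a * b * c 1 * c 2 ∈ V.integer := by
      have ha' : a ∈ V.integer := ha
      have hb' : b ∈ V.integer := hb
      have hx' : c 0 ∈ V.integer := hx
      have hy' : c 1 ∈ V.integer := hy
      have hz' : c 2 ∈ V.integer := hz
      have e1 : b * c 0 * c 1 ∈ V.integer := mul_mem (mul_mem hb' hx') hy'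
      exact sub_mem (add_mem (add_mem (add_mem (neg_mem (add_mem (mul_mem ha' (pow_mem hx' 2))
        (mul_mem ha' (pow_mem hx' 2)))) (mul_mem (mul_mem (pow_mem ha' 2) hx') hz'))
        (add_mem (add_mem e1 e1) e1)) (mul_mem (pow_mem hb' 2) (pow_mem hz' 2)))
        (mul_mem (mul_mem (mul_mem ha' hb') hy') hz')
    rw [e]
    apply Oi_add_one _ (Oi_mul_lt hE h2')
    by_cases h1 : V (c 1) = 1
    · exact Oi_form hr hx h1
    · have h1' : V (c 1) < 1 := lt_of_le_of_ne hy h1
      have h0 : V (c 0) = 1 := by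
        fin_cases j
        · exact hj
        · exact absurd hj h1
        · exact absurd hj h2
      have e2 : c 0 ^ 3 + a * c 0 * c 1 ^ 2 - b * c 1 ^ 3 =
          c 0 ^ 3 + ((a * c 0 - b * c 1) * c 1) * c 1 := by ring
      rw [e2]
      apply Oi_add_one
      · rw [map_pow, h0, one_pow]
      · apply Oi_mul_lt _ h1'
        have : (a * c 0 - b * c 1) * c 1 ∈ V.integer :=
          mul_mem (sub_mem (mul_mem ha hx) (mul_mem hb hy)) hy
        exact this

private lemma Oi_theta {a b θ : F} (hr : θ ^ 3 + a * θ + b = 0) (ha : V a ≤ 1) (hb : V b ≤ 1) :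
    V θ ≤ 1 := by
  by_contra h
  have h1 : 1 < V θ := not_le.1 h
  have h0 : θ ≠ 0 := by
    rintro rfl
    rw [map_zero] at h1
    exact absurd h1 (not_lt.2 zero_le_one)
  have h2 : V θ⁻¹ < 1 := by
    rw [map_inv₀]
    exact inv_lt_one_of_one_lt₀ h1
  have h3 : (1 : F) + (a * θ⁻¹ + b * θ⁻¹ * θ⁻¹) * θ⁻¹ = 0 := by
    have h4 : (1 : F) + (a * θ⁻¹ + b * θ⁻¹ * θ⁻¹) * θ⁻¹ = (θ ^ 3 + a * θ + b) * (θ⁻¹) ^ 3 := by
      field_simp
      ring
    rw [h4, hr, zero_mul]
  have h5 : V ((a * θ⁻¹ + b * θ⁻¹ * θ⁻¹) * θ⁻¹) < 1 := by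
    apply Oi_mul_lt _ h2
    have hi : θ⁻¹ ∈ V.integer := h2.le
    have : a * θ⁻¹ + b * θ⁻¹ * θ⁻¹ ∈ V.integer :=
      add_mem (mul_mem ha hi) (mul_mem (mul_mem hb hi) hi)
    exact this
  have h6 := Oi_add_one (map_one V) h5
  rw [h3, map_zero] at h6
  exact zero_ne_one h6

end Val

variable {k L : Type} [Field k] [NumberField k] [Field L] [NumberField L] [Algebra k L]

omit [NumberField k] [NumberField L] in
/-- The cubic after scaling. -/
private lemma Oi_cub {a b : k} {θ : L} (h : Cub k L a b θ) {c a' b' : k} (hc : c ≠ 0)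
    (ha : a = c ^ 4 * a') (hb : b = c ^ 6 * b') : Cub k L a' b' (θ / algebraMap k L c ^ 2) := by
  have hC : algebraMap k L c ≠ 0 := by
    rw [Ne, map_eq_zero]
    exact hc
  refine ⟨?_, ?_, ?_⟩
  · have h1 := h.root
    rw [ha, hb, map_mul, map_mul, map_pow, map_pow] at h1
    have h2 : (θ / algebraMap k L c ^ 2) ^ 3 + algebraMap k L a' * (θ / algebraMap k L c ^ 2) +
        algebraMap k L b' = (θ ^ 3 + algebraMap k L c ^ 4 * algebraMap k L a' * θ +
          algebraMap k L c ^ 6 * algebraMap k L b') / algebraMap k L c ^ 6 := by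
      field_simp
    rw [h2, h1, zero_div]
  · intro c₀ c₁ c₂ h1
    have h2 : algebraMap k L c₀ + algebraMap k L (c₁ / c ^ 2) * θ +
        algebraMap k L (c₂ / c ^ 4) * θ ^ 2 = 0 := by
      rw [← h1, map_div₀, map_div₀, map_pow, map_pow]
      field_simp
    obtain ⟨e0, e1, e2⟩ := h.li _ _ _ h2
    refine ⟨e0, ?_, ?_⟩
    · rw [div_eq_zero_iff] at e1
      exact e1.resolve_right (pow_ne_zero _ hc)
    · rw [div_eq_zero_iff] at e2
      exact e2.resolve_right (pow_ne_zero _ hc)
  · intro x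
    obtain ⟨c₀, c₁, c₂, hx⟩ := h.sp x
    refine ⟨c₀, c₁ * c ^ 2, c₂ * c ^ 4, ?_⟩
    rw [hx, map_mul, map_mul, map_pow, map_pow]
    field_simp

/-- The valuation of an element with integral coordinates, one of which is a unit. -/
private lemma Oi_one {a b : k} {θ : L} (h : Cub k L a b θ) {u : HeightOneSpectrum (𝓞 k)}
    (ha : u.valuation k a ≤ 1) (hb : u.valuation k b ≤ 1)
    (hr : ∀ t : k, u.valuation k t ≤ 1 → u.valuation k (t ^ 3 + a * t + b) = 1)
    {w : HeightOneSpectrum (𝓞 L)} (hw : dn k w = u) {c : Fin 3 → k}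
    (hc : ∀ j, u.valuation k (c j) ≤ 1) {j : Fin 3} (hj : u.valuation k (c j) = 1) :
    w.valuation L (ev θ c) = 1 := by
  subst hw
  have hθ : w.valuation L θ ≤ 1 := Oi_theta h.root (val_le ha) (val_le hb)
  have hev : ∀ d : Fin 3 → k, (∀ j, (dn k w).valuation k (d j) ≤ 1) → w.valuation L (ev θ d) ≤ 1 := by
    intro d hd
    have hθ' : θ ∈ (w.valuation L).integer := hθ
    have h0 : algebraMap k L (d 0) ∈ (w.valuation L).integer := val_le (hd 0)
    have h1 : algebraMap k L (d 1) ∈ (w.valuation L).integer := val_le (hd 1)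
    have h2 : algebraMap k L (d 2) ∈ (w.valuation L).integer := val_le (hd 2)
    have : ev θ d ∈ (w.valuation L).integer :=
      add_mem (add_mem h0 (mul_mem h1 hθ')) (mul_mem h2 (pow_mem hθ' 2))
    exact this
  have hN := val_one (w := w) (Oi_nf ha hb hr hc hj)
  rw [← Te_ev_adj h, map_mul] at hN
  have h1 := hev c hc
  have h2 := hev (Te_C a b c) (by
    have ha' : a ∈ ((dn k w).valuation k).integer := ha
    have hb' : b ∈ ((dn k w).valuation k).integer := hb
    have hx' : c 0 ∈ ((dn k w).valuation k).integer := hc 0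
    have hy' : c 1 ∈ ((dn k w).valuation k).integer := hc 1
    have hz' : c 2 ∈ ((dn k w).valuation k).integer := hc 2
    intro i
    fin_cases i
    · have : (c 0 - a * c 2) ^ 2 + a * c 1 ^ 2 + b * c 1 * c 2 ∈ ((dn k w).valuation k).integer :=
        add_mem (add_mem (pow_mem (sub_mem hx' (mul_mem ha' hz')) 2) (mul_mem ha' (pow_mem hy' 2)))
          (mul_mem (mul_mem hb' hy') hz')
      exact this
    · have : -(c 0 * c 1 + b * c 2 ^ 2) ∈ ((dn k w).valuation k).integer :=
        neg_mem (add_mem (mul_mem hx' hy') (mul_mem hb' (pow_mem hz' 2)))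
      exact this
    · have : c 1 ^ 2 - c 0 * c 2 + a * c 2 ^ 2 ∈ ((dn k w).valuation k).integer :=
        add_mem (sub_mem (pow_mem hy' 2) (mul_mem hx' hz')) (mul_mem ha' (pow_mem hz' 2))
      exact this)
  apply le_antisymm h1
  rw [← hN]
  calc w.valuation L (ev θ c) * w.valuation L (ev θ (Te_C a b c)) ≤ w.valuation L (ev θ c) * 1 :=
        mul_le_mul' le_rfl h2
    _ = _ := mul_one _

/-- All the places above `u` have the same ideal. -/
private lemma Oi_sub {a b : k} {θ : L} (h : Cub k L a b θ) {u : HeightOneSpectrum (𝓞 k)}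
    (ha : u.valuation k a ≤ 1) (hb : u.valuation k b ≤ 1)
    (hr : ∀ t : k, u.valuation k t ≤ 1 → u.valuation k (t ^ 3 + a * t + b) = 1)
    {w w' : HeightOneSpectrum (𝓞 L)} (hw : dn k w = u) (hw' : dn k w' = u) :
    w.asIdeal ≤ w'.asIdeal := by
  intro x hx
  by_cases hx0 : x = 0
  · rw [hx0]
    exact w'.asIdeal.zero_mem
  have hy0 : (algebraMap (𝓞 L) L x) ≠ 0 := by
    rw [Ne, FaithfulSMul.algebraMap_eq_zero_iff]
    exact hx0
  obtain ⟨c₀, c₁, c₂, hy⟩ := h.sp (algebraMap (𝓞 L) L x)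
  obtain ⟨c, hcd⟩ : ∃ c : Fin 3 → k, c = ![c₀, c₁, c₂] := ⟨_, rfl⟩
  have hyc : algebraMap (𝓞 L) L x = ev θ c := by
    rw [hy, hcd]
    simp [ev]
  obtain ⟨j, hj⟩ := Finite.exists_max (fun j => u.valuation k (c j))
  have hg0 : c j ≠ 0 := by
    intro h0
    apply hy0
    have hz : ∀ i, c i = 0 := by
      intro i
      have h1 := hj i
      simp only [h0, map_zero, le_zero_iff] at h1
      exact (Valuation.zero_iff _).1 h1
    rw [hyc]
    simp [ev, hz]
  have hscale : ev θ c = algebraMap k L (c j) * ev θ (fun i => c i / c j) := by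
    have hgL : algebraMap k L (c j) ≠ 0 := by
      rw [Ne, map_eq_zero]
      exact hg0
    simp only [ev, map_div₀]
    field_simp
  have hgV : u.valuation k (c j) ≠ 0 := (Valuation.ne_zero_iff _).2 hg0
  have hval : ∀ w₁ : HeightOneSpectrum (𝓞 L), dn k w₁ = u →
      w₁.valuation L (algebraMap (𝓞 L) L x) = w₁.valuation L (algebraMap k L (c j)) := by
    intro w₁ hw₁
    have hle : ∀ i, u.valuation k ((fun i => c i / c j) i) ≤ 1 := by
      intro i
      simp only [map_div₀]
      exact div_le_one_of_le₀ (hj i) zero_le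
    have hone : u.valuation k ((fun i => c i / c j) j) = 1 := by
      simp only [map_div₀]
      exact div_self hgV
    rw [hyc, hscale, map_mul, Oi_one h ha hb hr hw₁ hle hone, mul_one]
  have h1 : w.valuation L (algebraMap (𝓞 L) L x) < 1 :=
    (w.valuation_lt_one_iff_mem (K := L) x).2 hx
  rw [hval w hw] at h1
  have h2 : u.valuation k (c j) < 1 := by
    by_contra h3
    have h4 : (dn k w).valuation k (c j)⁻¹ ≤ 1 := by
      rw [hw, map_inv₀]
      exact inv_le_one_of_one_le₀ (not_lt.1 h3)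
    have h5 := val_le h4
    rw [map_inv₀, map_inv₀] at h5
    have h6 : w.valuation L (algebraMap k L (c j)) ≠ 0 := by
      rw [Ne, Valuation.zero_iff, map_eq_zero]
      exact hg0
    have h7 := (inv_le_one₀ (zero_lt_iff.2 h6)).1 h5
    exact absurd h1 (not_lt.2 h7)
  have h3 : w'.valuation L (algebraMap (𝓞 L) L x) < 1 := by
    rw [hval w' hw']
    apply val_lt
    rw [hw']
    exact h2
  exact (w'.valuation_lt_one_iff_mem (K := L) x).1 h3


theorem Oi_nb {a b : k} {θ : L} (h : Cub k L a b θ) {u : HeightOneSpectrum (𝓞 k)}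
    (hN : NoRootAt u a b) : H30ZO.nb k L u ≤ 1 := by
  obtain ⟨c, a', b', hc, ha, hb, ha', hb', hr⟩ := hN
  have h1 := Oi_cub h hc ha hb
  have hs : {w : HeightOneSpectrum (𝓞 L) | dn k w = u}.Subsingleton := by
    intro w hw w' hw'
    have h6 := Oi_sub h1 ha' hb' hr (w := w) (w' := w') hw hw'
    exact HeightOneSpectrum.ext (w.isMaximal.eq_of_le w'.isPrime.ne_top h6)
  exact (Set.ncard_le_one hs.finite).2 fun a ha b hb => hs ha hb

end Copy

/-- The condition of having no root passes to the places above in an extension inside `N`. -/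
theorem Oi_up {K N : Type} [Field K] [NumberField K] [Field N] [NumberField N] [Algebra K N]
    [IsGalois K N] {r : ℕ} (hr : Module.finrank K N = 2 ^ r) {a b : K} (n : ℕ) :
    ∀ (k : Type) [Field k] [NumberField k] [Algebra K k] [Algebra k N] [IsScalarTower K k N],
      Module.finrank K k = n →
      ∀ u : HeightOneSpectrum (𝓞 k), NoRootAt (dn K u) a b →
        NoRootAt u (algebraMap K k a) (algebraMap K k b) := by
  have _ : FiniteDimensional K N := Module.Finite.of_restrictScalars_finite ℚ K N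
  induction n using Nat.strong_induction_on with
  | _ n ih =>
    intro k _ _ _ _ _ hn
    by_cases h1 : Module.finrank K k = 1
    · exact fun u hu => nr_base h1 u hu
    · obtain ⟨k₀, hk₀⟩ := exists_half (K := K) (N := N) (k' := k) hr h1
      have _ : FiniteDimensional K k := Module.Finite.of_restrictScalars_finite ℚ K k
      have _ : NumberField k₀ := NumberField.of_module_finite K k₀
      have _ : IsScalarTower k₀ k N := inferInstance
      have _ : IsScalarTower K k₀ N := IsScalarTower.of_algebraMap_eq fun x => by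
        rw [IsScalarTower.algebraMap_apply K k N, IsScalarTower.algebraMap_apply K k₀ k]
        rfl
      have hmul := Module.finrank_mul_finrank K k₀ k
      rw [hk₀] at hmul
      have hpos : 0 < Module.finrank K k₀ := Module.finrank_pos
      have ih1 := ih (Module.finrank K k₀) (by omega) k₀ rfl
      have hab : ∀ x : K, algebraMap K k x = algebraMap k₀ k (algebraMap K k₀ x) :=
        IsScalarTower.algebraMap_apply K k₀ k
      intro u hu
      have h2 : dn K (dn k₀ u) = dn K u := H73P2.dn_dn u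
      rw [hab, hab]
      refine NoRootAt.up hk₀ u (ih1 _ ?_)
      rw [h2]
      exact hu

theorem descAt_noroot {K N : Type} [Field K] [NumberField K] [Field N] [NumberField N]
    [Algebra K N] {r : ℕ} (hr : Module.finrank K N = 2 ^ r) [IsGalois K N]
    {v : HeightOneSpectrum (𝓞 K)} (h2 : v.valuation K 2 = 1) {A B D : 𝓞 K} (hD : D ≠ 0)
    (hd : 4 * (A : K) ^ 3 + 27 * (B : K) ^ 2 ≠ 0)
    (hirr : ∀ t : K, t ^ 3 + (A : K) * t + (B : K) ≠ 0) (hn : H30PN.NoRt K v A B) :
    DescAt K N v ((D : K) ^ 2 * (A : K)) ((D : K) ^ 3 * (B : K)) := by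
  intro k k' _ _ _ _ _ _ _ _ _ _ _ _ _ _ d hd0 hsq _ u hu
  subst hu
  have _ : FiniteDimensional K N := Module.Finite.of_restrictScalars_finite ℚ K N
  have hDK : (D : K) ≠ 0 := by
    intro h0
    exact hD (RingOfIntegers.coe_injective (h0.trans (map_zero _).symm))
  have hDk : algebraMap K k (D : K) ≠ 0 := (map_ne_zero _).2 hDK
  -- (1)
  have h1 := H30PN.noroot_of (D := (1 : K)) one_ne_zero hn (by
    have : H38RT.ord ((dn K u).valuation K) (1 : K) = 0 := by
      unfold H38RT.ord
      rw [map_one]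
      simp
    rw [this]
    exact Even.zero)
  rw [one_pow, one_pow, one_mul, one_mul] at h1
  have h3 := Oi_up (N := N) hr _ k rfl u h1
  -- (2)
  obtain ⟨L, _, _, _, θ, hL⟩ := H24PD.exists_cub (K := k)
    (H73P2.noroot (K := K) (N := N) (k := k) hr hirr)
  have hnb := Oi_nb hL h3
  have hL2 := H73P2.Ev_twist hL hDk
  have ea : algebraMap K k ((D : K) ^ 2 * (A : K)) =
      algebraMap K k (D : K) ^ 2 * algebraMap K k (A : K) := by
    rw [map_mul, map_pow]
  have eb : algebraMap K k ((D : K) ^ 3 * (B : K)) =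
      algebraMap K k (D : K) ^ 3 * algebraMap K k (B : K) := by
    rw [map_mul, map_pow]
  rw [← ea, ← eb] at hL2
  obtain ⟨a, ha'⟩ : ∃ a : k, a = algebraMap K k ((D : K) ^ 2 * (A : K)) := ⟨_, rfl⟩
  obtain ⟨b, hb'⟩ : ∃ b : k, b = algebraMap K k ((D : K) ^ 3 * (B : K)) := ⟨_, rfl⟩
  have hua : u.valuation k a ≤ 1 := by
    rw [ha']
    apply val_le
    have e : (D : K) ^ 2 * (A : K) = ((D ^ 2 * A : 𝓞 K) : K) := by
      push_cast
      rfl
    rw [e]
    exact (dn K u).valuation_le_one _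
  have hub : u.valuation k b ≤ 1 := by
    rw [hb']
    apply val_le
    have e : (D : K) ^ 3 * (B : K) = ((D ^ 3 * B : 𝓞 K) : K) := by
      push_cast
      rfl
    rw [e]
    exact (dn K u).valuation_le_one _
  have hdd : 4 * a ^ 3 + 27 * b ^ 2 ≠ 0 := by
    have e : 4 * a ^ 3 + 27 * b ^ 2 =
        algebraMap K k ((D : K) ^ 6 * (4 * (A : K) ^ 3 + 27 * (B : K) ^ 2)) := by
      rw [ha', hb']
      simp only [map_mul, map_pow, map_add, map_ofNat]
      ring
    rw [e]
    exact (map_ne_zero _).2 (mul_ne_zero (pow_ne_zero 6 hDK) hd)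
  rw [← ha', ← hb'] at hL2 hd0 hsq ⊢
  obtain ⟨t, ht⟩ : ∃ t : L, t = algebraMap k L (algebraMap K k (D : K)) * θ := ⟨_, rfl⟩
  rw [← ht] at hL2
  have _ : CharZero (u.adicCompletion k) := H36CY.char_zero u
  obtain ⟨i, hi⟩ : ∃ i : k →+* u.adicCompletion k, i = algebraMap k (u.adicCompletion k) := ⟨_, rfl⟩
  have hD' : 4 * i a ^ 3 + 27 * i b ^ 2 ≠ 0 := by
    have e : 4 * i a ^ 3 + 27 * i b ^ 2 = i (4 * a ^ 3 + 27 * b ^ 2) := by
      simp only [map_add, map_mul, map_pow, map_ofNat]
    rw [e, Ne, map_eq_zero]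
    exact hdd
  obtain ⟨W, hW⟩ := H30ZO.exists_WW hL2 i hD' (H24PD.inf_fin u (i a) (i b))
  rw [hi] at hW
  obtain ⟨hi0, hi1⟩ := H30ZO.loc_idx hL2 u hua hub hdd hW
  have hq : H30ZO.qq u = 1 := by
    apply H30ZO.qq_odd
    have := val_one (w := u) h2
    rw [map_ofNat] at this
    exact this
  rw [hq, mul_one] at hi1
  have h2n : 2 ^ H30ZO.nb k L u ≤ 2 ^ 1 := Nat.pow_le_pow_right (by norm_num) hnb
  have hidx : W.relIndex (H30ZO.HH k L) = 1 := by omega
  have hle := AddSubgroup.relIndex_eq_one.1 hidx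
  -- (5)
  have hne : ev t d ≠ 0 := by
    intro h0
    apply hd0
    rw [← Te_norm hL2, h0]
    have _ : FiniteDimensional k L := Module.Finite.of_restrictScalars_finite ℚ k L
    exact Algebra.norm_zero
  have hmem : H38T1.sc (ev t d) ∈ H30ZO.HH k L := by
    rw [H30ZO.mem_HH hne, Te_norm hL2]
    exact hsq
  exact (H30ZO.Wc_iff _ hL2 hne).1 ((hW _).1 (hle hmem)).2

end H36O2

end S_H36_O2_Oi
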