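import Mathlib
import Pool.Agent.H76.PN.N6
import Pool.Agent.H76.ZQ.Y10
import Pool.Agent.H76.ZQ.Y13
import Pool.Agent.H76.ZQ.Y14
import Pool.Agent.H76.ZQ.Y15
import Pool.Agent.H76.ZQ.Y3
import Pool.Agent.H76.ZQ.Y4
import Pool.Agent.H76.ZQ.Y9

/-! This file joins several modules to save build time (Y17). -/

set_option autoImplicit false

section S_H30_ZO_Ng

set_option autoImplicit false
set_option linter.unusedSectionVars false
open scoped Classical

open WithZero NumberField IsDedekindDomain H38RT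
open H38T1 (SC sc scu rep eo la si Pri OddP tp unif)
open H76PP H73P2 H36CY H73CY H73ZO

namespace H30ZO

/-- The local condition at the real places: the real places of the fields between `K` and `N` at which
`4 a^3 + 27 b^2` is not positive extend to the quadratic extensions. -/
def RealAt (K N : Type) [Field K] [NumberField K] [Field N] [NumberField N] [Algebra K N]
    (a b : K) : Prop :=
  ∀ (k k' : Type) [Field k] [NumberField k] [Field k'] [NumberField k'] [Algebra K k] [Algebra K k']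
    [Algebra k k'] [IsScalarTower K k k'] [Algebra k N] [Algebra k' N] [IsScalarTower K k N]
    [IsScalarTower K k' N] [IsScalarTower k k' N], Module.finrank k k' = 2 → ∀ s : k →+* ℝ,
    0 < s (algebraMap K k (4 * a ^ 3 + 27 * b ^ 2)) ∨
      ∃ s' : k' →+* ℝ, ∀ x : k, s' (algebraMap k k' x) = s x

section Down

variable {K k L k' L' N : Type} [Field K] [NumberField K] [Field k] [NumberField k] [Field L]
  [NumberField L] [Field k'] [NumberField k'] [Field L'] [NumberField L'] [Field N] [NumberField N]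
  [Algebra K k] [Algebra K k'] [Algebra k k'] [Algebra k L] [Algebra L L'] [Algebra k' L']
  [Algebra k L'] [IsScalarTower K k k'] [IsScalarTower k L L'] [IsScalarTower k k' L']
  [Algebra K N] [Algebra k N] [Algebra k' N] [IsScalarTower K k N] [IsScalarTower K k' N]
  [IsScalarTower k k' N]

theorem relN_down {Sg : Finset (HeightOneSpectrum (𝓞 K))} {a b : K}
    (h2 : ∀ v : HeightOneSpectrum (𝓞 K), v.valuation K 2 < 1 → v ∈ Sg)
    (hreal : ∀ s : k →+* ℝ, 0 < s (algebraMap K k (4 * a ^ 3 + 27 * b ^ 2)) ∨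
      ∃ s' : k' →+* ℝ, ∀ x : k, s' (algebraMap k k' x) = s x)
    (hram : ∀ V : HeightOneSpectrum (𝓞 N), dn K V ∉ Sg → Ram K V → NoRootAt (dn K V) a b)
    (hdesc : ∀ v ∈ Sg, DescAt K N v a b)
    (hNR : ∀ u : HeightOneSpectrum (𝓞 k), NoRootAt (dn K u) a b →
      NoRootAt u (algebraMap K k a) (algebraMap K k b))
    {θ : L} {θ' : L'} (Q : QS k L k' L' (algebraMap K k a) (algebraMap K k b) θ θ')
    (f2 : Module.finrank L L' = 2) {e : Fin 3 → k} (hne : ev θ e ≠ 0)
    (hsq : IsSquare (Algebra.norm k (ev θ e)))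
    (hev : ∀ w' : HeightOneSpectrum (𝓞 L'), dn K (dn k' w') ∉ Sg →
      eo w' (sc (algebraMap L L' (ev θ e))) = 0)
    (hsg : ∀ u : HeightOneSpectrum (𝓞 k'), dn K u ∈ Sg →
      LC (algebraMap k' (u.adicCompletion k')) (algebraMap K k' a) (algebraMap K k' b)
        (fun i => algebraMap k k' (e i)))
    (hre : ∀ s : k' →+* ℝ, LC s (algebraMap K k' a) (algebraMap K k' b)
      (fun i => algebraMap k k' (e i))) : RelS K k L Sg ∅ a b θ e := by
  have hab : ∀ x : K, algebraMap K k' x = algebraMap k k' (algebraMap K k x) :=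
    IsScalarTower.algebraMap_apply K k k'
  refine ⟨hne, hsq, ?_, ?_, ?_, ?_⟩
  · intro w hwg _
    obtain ⟨V, hV⟩ := exists_above (L := N) (dn k w)
    have hKV : dn K V = dn K (dn k w) := by
      rw [← hV]
      exact (dn_dn V).symm
    have hw2 : w.valuation L 2 = 1 := val2_up (K := k) (val2_up (K := K) (odd_of h2 hwg))
    by_cases hr : Ram K V
    · have h1 := hram V (by rw [hKV]; exact hwg) hr
      rw [hKV] at h1
      exact even_unique Q.cub w (hNR _ h1) hne hsq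
    · obtain ⟨h1, -⟩ := unram_mid (k := k) hr
      obtain ⟨D, ρ, hρ, hρk, hD⟩ := exists_gen (k' := k') Q.two h1
      rw [hV] at hD
      refine even_unram Q f2 w hw2 hρ hρk hD hne fun w' hw' => hev w' ?_
      rw [← dn_sq (k := k) (L := L), hw']
      exact hwg
  · intro v hv
    exact absurd hv (Finset.notMem_empty v)
  · intro u hu
    refine hdesc (dn K u) hu k k' Q.two e ?_ ?_ (fun u' hu' => hsg u' (by rw [hu']; exact hu)) u rfl
    · rw [← Te_norm Q.cub e, Ne, Algebra.norm_eq_zero_iff]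
      exact hne
    · rw [← Te_norm Q.cub e]
      exact hsq
  · intro s
    rcases hreal s with h | h
    · refine LC_real s ?_ ?_
      · simpa only [map_add, map_mul, map_pow, map_ofNat] using h
      · have h1 := Te_norm Q.cub e
        rw [← h1]
        obtain ⟨c, hc⟩ := hsq
        have h2 : Algebra.norm k (ev θ e) ≠ 0 := by
          rw [Ne, Algebra.norm_eq_zero_iff]
          exact hne
        rw [hc] at h2 ⊢
        rw [map_mul]
        have h3 : s c ≠ 0 := (map_ne_zero s).2 (left_ne_zero_of_mul h2)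
        exact mul_self_pos.2 h3
    · obtain ⟨s', hs'⟩ := h
      have h1 := hre s'
      unfold LC at h1 ⊢
      simp only [hab, hs'] at h1
      exact h1

end Down

section Step

variable {K k k' N : Type} [Field K] [NumberField K] [Field k] [NumberField k] [Field k']
  [NumberField k'] [Field N] [NumberField N] [Algebra K k] [Algebra K k'] [Algebra k k']
  [IsScalarTower K k k'] [Algebra K N] [Algebra k N] [Algebra k' N] [IsScalarTower K k N]
  [IsScalarTower K k' N] [IsScalarTower k k' N]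

theorem quad_stepN (two : Module.finrank k k' = 2) {Sg : Finset (HeightOneSpectrum (𝓞 K))}
    {a b : K}
    (h2 : ∀ v : HeightOneSpectrum (𝓞 K), v.valuation K 2 < 1 → v ∈ Sg)
    (hd : 4 * a ^ 3 + 27 * b ^ 2 ≠ 0)
    (hreal : ∀ s : k →+* ℝ, 0 < s (algebraMap K k (4 * a ^ 3 + 27 * b ^ 2)) ∨
      ∃ s' : k' →+* ℝ, ∀ x : k, s' (algebraMap k k' x) = s x)
    (hram : ∀ V : HeightOneSpectrum (𝓞 N), dn K V ∉ Sg → Ram K V → NoRootAt (dn K V) a b)
    (hdesc : ∀ v ∈ Sg, DescAt K N v a b)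
    (hNR : ∀ u : HeightOneSpectrum (𝓞 k), NoRootAt (dn K u) a b →
      NoRootAt u (algebraMap K k a) (algebraMap K k b))
    (hT : ∀ (L : Type) [Field L] [NumberField L] [Algebra k L] (θ : L),
      Cub k L (algebraMap K k a) (algebraMap K k b) θ → RelST K k L Sg ∅ a b θ)
    (L' : Type) [Field L'] [NumberField L'] [Algebra k' L'] (θ' : L')
    (h' : Cub k' L' (algebraMap K k' a) (algebraMap K k' b) θ') : RelST K k' L' Sg ∅ a b θ' := by
  intro d hR
  have hab : ∀ x : K, algebraMap K k' x = algebraMap k k' (algebraMap K k x) :=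
    IsScalarTower.algebraMap_apply K k k'
  let _ : Algebra k L' := ((algebraMap k' L').comp (algebraMap k k')).toAlgebra
  have _ : IsScalarTower k k' L' := IsScalarTower.of_algebraMap_eq fun _ => rfl
  have h'' : Cub k' L' (algebraMap k k' (algebraMap K k a)) (algebraMap k k' (algebraMap K k b)) θ' := by
    rw [← hab, ← hab]
    exact h'
  obtain ⟨L, _, _, _, _, _, θ, hc, hθ⟩ := exists_sub h''
  have Q : QS k L k' L' (algebraMap K k a) (algebraMap K k b) θ θ' := ⟨two, hc, h'', hθ⟩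
  have f2 := Q.fin2
  obtain ⟨τ, σ, hσ, hτ⟩ := Q.sigma f2
  set x : L' := ev θ' d with hx
  have hx0 : x ≠ 0 := hR.ne
  -- the coordinates of an element of `L`
  have hco : ∀ y : L, ev θ (fun i => hc.co i y) = y := fun y => (hc.eq_co y).symm
  have hn0 : Algebra.norm L x ≠ 0 := by
    rw [Ne, Algebra.norm_eq_zero_iff]
    exact hx0
  -- first descent
  have hsq1 : IsSquare (Algebra.norm L x) := by
    set e : Fin 3 → k := fun i => hc.co i (Algebra.norm L x) with he
    have he1 : ev θ e = Algebra.norm L x := hco _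
    have he2 := hτ d e he1
    rw [← he1]
    refine hT L θ hc e (relN_down h2 hreal hram hdesc hNR Q f2 ?_ ?_ ?_ ?_ ?_)
    · rw [he1]
      exact hn0
    · rw [he1]
      exact Q.norm_sq f2 hR.sq
    · intro w' hwg
      rw [he1, hσ, H38T1.sc_mul hx0 ((map_ne_zero σ).2 hx0), H38T1.eo_add,
        hR.even w' hwg (Finset.notMem_empty _), zero_add]
      obtain ⟨W', h1, h3⟩ := eo_conj σ w'
      rw [h3 x hx0]
      refine hR.even _ ?_ (Finset.notMem_empty _)
      rw [← dn_sq (K := K) (k := k) (k' := k') (L := L) W', h1,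
        dn_sq (K := K) (k := k) (k' := k') (L := L) w']
      exact hwg
    · intro u hu
      rw [he2, ← hab, ← hab]
      refine lct_mul hd u (hR.sg u hu) ?_
      rw [hab, hab]
      refine sg_conj τ (fun u hu => ?_) u hu
      rw [← hab, ← hab]
      exact hR.sg u hu
    · intro s
      rw [he2, ← hab, ← hab]
      refine lcr_mul hd s (hR.real s) ?_
      have h1 := hR.real (s.comp (τ : k' →+* k'))
      unfold LC at h1 ⊢
      simp only [RingHom.comp_apply, RingHom.coe_coe, hab, τ.commutes] at h1 ⊢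
      exact h1
  -- second descent
  obtain ⟨t, z, ht, hz, hxt, hNt⟩ := Q.core f2 hx0 hR.sq hsq1
  have hsq2 : IsSquare t := by
    set e : Fin 3 → k := fun i => hc.co i t with he
    have he1 : ev θ e = t := hco _
    -- the coordinates of the inverse of `z`
    set u : Fin 3 → k' := fun i => h''.co i z⁻¹ with hu
    have hu1 : ev θ' u = z⁻¹ := (h''.eq_co z⁻¹).symm
    have he2 : (fun i => algebraMap k k' (e i)) = m3 (algebraMap k k' (algebraMap K k a))
        (algebraMap k k' (algebraMap K k b)) d (m3 (algebraMap k k' (algebraMap K k a))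
        (algebraMap k k' (algebraMap K k b)) u u) := by
      have h1 : ev θ' (fun i => algebraMap k k' (e i)) = ev θ' (m3 (algebraMap k k' (algebraMap K k a))
        (algebraMap k k' (algebraMap K k b)) d (m3 (algebraMap k k' (algebraMap K k a))
        (algebraMap k k' (algebraMap K k b)) u u)) := by
        rw [← Q.coord, he1, ← Te_ev_mul h'', ← Te_ev_mul h'', hu1, ← hx, hxt]
        field_simp
      funext i
      have h2 := h''.co_mk (fun i => algebraMap k k' (e i)) i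
      have h3 := h''.co_mk (m3 (algebraMap k k' (algebraMap K k a))
        (algebraMap k k' (algebraMap K k b)) d (m3 (algebraMap k k' (algebraMap K k a))
        (algebraMap k k' (algebraMap K k b)) u u)) i
      unfold ev at h1
      rw [← h2, ← h3, h1]
    rw [← he1]
    refine hT L θ hc e (relN_down h2 hreal hram hdesc hNR Q f2 ?_ ?_ ?_ ?_ ?_)
    · rw [he1]
      exact ht
    · rw [he1]
      exact hNt
    · intro w' hwg
      rw [he1]
      have h1 := hR.even w' hwg (Finset.notMem_empty _)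
      have htL : algebraMap L L' t ≠ 0 := (map_ne_zero _).2 ht
      rw [← hx, hxt, H38T1.sc_mul htL (pow_ne_zero 2 hz)] at h1
      have h2 : sc (z ^ 2) = (0 : SC L') := (H38T1.sc_eq_zero (pow_ne_zero 2 hz)).2 ⟨z, pow_two z⟩
      rwa [h2, add_zero] at h1
    · intro w hw
      have h1 := LC_sq (algebraMap k' (w.adicCompletion k')) u (hR.sg w hw)
      rw [hab, hab] at h1 ⊢
      rw [he2]
      exact h1
    · intro s
      have h1 := LC_sq s u (hR.real s)
      rw [hab, hab] at h1 ⊢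
      rw [he2]
      exact h1
  rw [hxt]
  obtain ⟨c, rfl⟩ := hsq2
  exact ⟨algebraMap L L' c * z, by rw [map_mul]; ring⟩

end Step

theorem chainN {K N : Type} [Field K] [NumberField K] [Field N] [NumberField N] [Algebra K N]
    {Nt : Type} [Field Nt] [NumberField Nt] [Algebra K Nt] [Algebra N Nt] [IsScalarTower K N Nt]
    [IsGalois K Nt] {r : ℕ} (hr : Module.finrank K Nt = 2 ^ r) {Sg : Finset (HeightOneSpectrum (𝓞 K))}
    {a b : K}
    (h2S : ∀ v : HeightOneSpectrum (𝓞 K), v.valuation K 2 < 1 → v ∈ Sg)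
    (hd : 4 * a ^ 3 + 27 * b ^ 2 ≠ 0)
    (hreal : RealAt K N a b)
    (hram : ∀ V : HeightOneSpectrum (𝓞 N), dn K V ∉ Sg → Ram K V → NoRootAt (dn K V) a b)
    (hdesc : ∀ v ∈ Sg, DescAt K N v a b)
    (hT : ∀ (L : Type) [Field L] [NumberField L] [Algebra K L] (θ : L), Cub K L a b θ →
      RelST K K L Sg ∅ a b θ) (n : ℕ) :
    ∀ (k : Type) [Field k] [NumberField k] [Algebra K k] [Algebra k N] [IsScalarTower K k N],
      Module.finrank K k = n →
      (∀ u : HeightOneSpectrum (𝓞 k), NoRootAt (dn K u) a b →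
        NoRootAt u (algebraMap K k a) (algebraMap K k b)) ∧
      ∀ (L : Type) [Field L] [NumberField L] [Algebra k L] (θ : L),
        Cub k L (algebraMap K k a) (algebraMap K k b) θ → RelST K k L Sg ∅ a b θ := by
  have _ : FiniteDimensional K Nt := Module.Finite.of_restrictScalars_finite ℚ K Nt
  induction n using Nat.strong_induction_on with
  | _ n ih =>
    intro k _ _ _ _ _ hn
    by_cases h1 : Module.finrank K k = 1
    · exact ⟨fun u hu => nr_base h1 u hu, fun L _ _ _ θ h => relS_base h1 hT L θ h⟩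
    · let _ : Algebra k Nt := ((algebraMap N Nt).comp (algebraMap k N)).toAlgebra
      have _ : IsScalarTower K k Nt := IsScalarTower.of_algebraMap_eq fun x => by
        rw [IsScalarTower.algebraMap_apply K N Nt, IsScalarTower.algebraMap_apply K k N]
        rfl
      obtain ⟨k₀, hk₀⟩ := exists_half (K := K) (N := Nt) (k' := k) hr h1
      have _ : FiniteDimensional K k := Module.Finite.of_restrictScalars_finite ℚ K k
      have _ : NumberField k₀ := NumberField.of_module_finite K k₀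
      have _ : IsScalarTower k₀ k N := inferInstance
      have _ : IsScalarTower K k₀ N := IsScalarTower.of_algebraMap_eq fun x => by
        rw [IsScalarTower.algebraMap_apply K k N, IsScalarTower.algebraMap_apply K k₀ k]
        rfl
      have hmul := Module.finrank_mul_finrank K k₀ k
      rw [hk₀] at hmul
      have hpos : 0 < Module.finrank K k₀ := Module.finrank_pos
      obtain ⟨ih1, ih2⟩ := ih (Module.finrank K k₀) (by omega) k₀ rfl
      have hab : ∀ x : K, algebraMap K k x = algebraMap k₀ k (algebraMap K k₀ x) :=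
        IsScalarTower.algebraMap_apply K k₀ k
      refine ⟨fun u hu => ?_, fun L _ _ _ θ h =>
        quad_stepN (N := N) hk₀ h2S hd (hreal k₀ k hk₀) hram hdesc ih1 ih2 L θ h⟩
      have h2 : dn K (dn k₀ u) = dn K u := dn_dn u
      rw [hab, hab]
      refine NoRootAt.up hk₀ u (ih1 _ ?_)
      rw [h2]
      exact hu

section

variable {K N : Type} [Field K] [NumberField K] [Field N] [NumberField N] [Algebra K N]
  {Nt : Type} [Field Nt] [NumberField Nt] [Algebra K Nt] [Algebra N Nt] [IsScalarTower K N Nt]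
  [IsGalois K Nt]

/-- The Selmer group over a field between `K` and `N`. -/
theorem selN_mid (hos : OrdSub) {r : ℕ} (hr : Module.finrank K Nt = 2 ^ r)
    {Sg : Finset (HeightOneSpectrum (𝓞 K))} {a b : K}
    (h2S : ∀ v : HeightOneSpectrum (𝓞 K), v.valuation K 2 < 1 → v ∈ Sg)
    (hd : 4 * a ^ 3 + 27 * b ^ 2 ≠ 0)
    (hnice : ∀ v : HeightOneSpectrum (𝓞 K), v ∉ Sg → NiceAt v a b)
    (hreal : RealAt K N a b)
    (hram : ∀ V : HeightOneSpectrum (𝓞 N), dn K V ∉ Sg → Ram K V → NoRootAt (dn K V) a b)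
    (hdesc : ∀ v ∈ Sg, DescAt K N v a b)
    (hT : ∀ (L : Type) [Field L] [NumberField L] [Algebra K L] (θ : L), Cub K L a b θ →
      RelST K K L Sg ∅ a b θ)
    (k : Type) [Field k] [NumberField k] [Algebra K k] [Algebra k N] [IsScalarTower K k N]
    (L : Type) [Field L] [NumberField L] [Algebra k L] (θ : L)
    (h : Cub k L (algebraMap K k a) (algebraMap K k b) θ) :
    SelTriv k L (algebraMap K k a) (algebraMap K k b) θ := by
  obtain ⟨hNR, hRT⟩ := chainN hr h2S hd hreal hram hdesc hT _ k rfl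
  intro d hd0 hsq hfin hre
  refine hRT L θ h d ⟨hd0, hsq, ?_, ?_, fun u _ => hfin u, hre⟩
  · intro w hwg _
    obtain ⟨V, hV⟩ := exists_above (L := N) (dn k w)
    have hKV : dn K V = dn K (dn k w) := by
      rw [← hV]
      exact (dn_dn V).symm
    by_cases hr' : Ram K V
    · have h1 := hram V (by rw [hKV]; exact hwg) hr'
      rw [hKV] at h1
      exact even_unique h w (hNR _ h1) hd0 hsq
    · obtain ⟨-, h1⟩ := unram_mid (k := k) hr'
      rw [hV, hKV] at h1
      exact even_nice hos h w (NiceAt.up h1 (hnice _ hwg)) hd0 (hfin _)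
  · intro v hv
    exact absurd hv (Finset.notMem_empty v)

end

end H30ZO

end S_H30_ZO_Ng

section S_H30_ZO_Uu

set_option autoImplicit false
set_option linter.unusedSectionVars false
open scoped Classical

open WithZero NumberField IsDedekindDomain H38RT H76PP H36MT H36CY

namespace H30ZO

/-- The auxiliary prime `v` is harmless for `(a, b)`. -/
def Harm (K : Type) [Field K] [NumberField K] (v : HeightOneSpectrum (𝓞 K)) (a b : K) : Prop :=
  ∀ (N : Type) [Field N] [NumberField N] [Algebra K N], IsGalois K N →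
    (∃ r : ℕ, Module.finrank K N = 2 ^ r) →
    (∀ V : HeightOneSpectrum (𝓞 N), dn K V = v → ¬ H73P2.Ram K V) → H36O2.Dec2 N v →
    DescAt K N v a b

/-- The uniform local-global principle: `S` and `Q` contain the exceptional primes. -/
structure HasQ (K : Type) [Field K] [NumberField K] (S Q : Finset (HeightOneSpectrum (𝓞 K)))
    (p : 𝓞 K × 𝓞 K) : Prop where
  ne : 4 * p.1 ^ 3 + 27 * p.2 ^ 2 ≠ 0
  irr : ∀ t : K, t ^ 3 + (p.1 : K) * t + (p.2 : K) ≠ 0
  base : Tv K (p.1 : K) (p.2 : K)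
  main : ∀ (F : Type) [Field F] [Algebra K F], IsGalois K F →
    (∀ (N : IntermediateField K F) [NumberField N], IsGalois K N →
      ∃ r : ℕ, Module.finrank K N = 2 ^ r) →
    (∀ v : HeightOneSpectrum (𝓞 K), (v ∈ S ∨ v ∈ Q ∨ RamF K F v) →
      (¬ ∃ ι : F →+* v.adicCompletion K, ∀ x : K,
        ι (algebraMap K F x) = algebraMap K (v.adicCompletion K) x) →
      (v ∉ S → v ∉ Q → ∃ t : 𝓞 K, t ^ 3 + p.1 * t + p.2 ∈ v.asIdeal) →
      ¬ (v ∈ Q ∧ ¬ RamF K F v ∧
        ∀ (N : IntermediateField K F) [NumberField N], IsGalois K N → H36O2.Dec2 N v) →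
      LocF K F v (p.1 : K) (p.2 : K)) →
    RealN K F (p.1 : K) (p.2 : K) → PF K F p

/-- The uniform local-global principle for a curve with trivial relaxed Selmer groups. -/
theorem hasQ_of_rel {K : Type} [Field K] [NumberField K] {S Q P : Finset (HeightOneSpectrum (𝓞 K))}
    (hP : ∀ v ∈ P, v ∈ S ∨ v ∈ Q) (hQS : ∀ v ∈ Q, v ∉ S)
    {p : 𝓞 K × 𝓞 K} (hrel : ∀ P' : Finset (HeightOneSpectrum (𝓞 K)), P ⊆ P' → RelG K P' p.1 p.2)
    (hharm : ∀ v ∈ P, v ∉ S → Harm K v (p.1 : K) (p.2 : K)) :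
    HasQ K S Q p := by
  have hasP := hasP_of_rel hrel
  refine ⟨hasP.ne, hasP.irr, hasP.base, ?_⟩
  intro F _ _ hgal hdeg hloc hreal
  refine hasP.main F hgal hdeg ?_ hreal
  intro v hv hs hr
  by_cases hex : v ∈ Q ∧ ¬ RamF K F v ∧
        ∀ (N : IntermediateField K F) [NumberField N], IsGalois K N → H36O2.Dec2 N v
  · obtain ⟨h1, h2, h3⟩ := hex
    rcases hv with h4 | h4
    · intro N _ hN
      exact hharm v h4 (hQS v h1) N hN (hdeg N hN) (fun V hV hR => h2 ⟨N, inferInstance, V, hV, hR⟩)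
        (h3 N hN)
    · exact absurd h4 h2
  · refine hloc v ?_ hs ?_ hex
    · rcases hv with h4 | h4
      · rcases hP v h4 with h5 | h5
        · exact Or.inl h5
        · exact Or.inr (Or.inl h5)
      · exact Or.inr (Or.inr h4)
    · intro h5 h6
      refine hr fun h7 => ?_
      exact (hP v h7).elim h5 h6

end H30ZO

end S_H30_ZO_Uu

section S_H30_ZO_Nh

set_option autoImplicit false
set_option linter.unusedSectionVars false
open scoped Classical

open WithZero NumberField IsDedekindDomain WeierstrassCurve H38RT H76PP H36MT H36CY H36ZO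
open Pool.Agent.H10

namespace H30ZO

/-- The local condition at the real places. -/
def RealF (K F : Type) [Field K] [NumberField K] [Field F] [Algebra K F] (a b : K) : Prop :=
  ∀ (k k' : Type) [Field k] [NumberField k] [Field k'] [NumberField k'] [Algebra K k] [Algebra K k']
    [Algebra k k'] [IsScalarTower K k k'] [Algebra k' F] [IsScalarTower K k' F],
    Module.finrank k k' = 2 → ∀ s : k →+* ℝ,
    0 < s (algebraMap K k (4 * a ^ 3 + 27 * b ^ 2)) ∨
      ∃ s' : k' →+* ℝ, ∀ x : k, s' (algebraMap k k' x) = s x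

theorem realAt_of {K F : Type} [Field K] [NumberField K] [Field F] [Algebra K F] {a b : K}
    (h : RealF K F a b) {M : Type} [Field M] [NumberField M] [Algebra K M] (f : M →ₐ[K] F) :
    RealAt K M a b := by
  intro k k' _ _ _ _ _ _ _ _ _ _ _ _ _ two s
  let _ : Algebra k' F := ((f : M →+* F).comp (algebraMap k' M)).toAlgebra
  have _ : IsScalarTower K k' F := IsScalarTower.of_algebraMap_eq fun x => by
    change algebraMap K F x = f (algebraMap k' M (algebraMap K k' x))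
    rw [← IsScalarTower.algebraMap_apply, f.commutes]
  exact h k k' two s

/-- The condition at the real places is necessary. -/
theorem zo_realF {K F : Type} [Field K] [NumberField K] [Field F] [Algebra K F]
    {a b : 𝓞 K} (hD : 4 * a ^ 3 + 27 * b ^ 2 ≠ 0) (h : PF K F (a, b)) :
    RealF K F (a : K) (b : K) := by
  intro k k' _ _ _ _ _ _ _ _ _ _ two s
  have hDK : (4 * (a : K) ^ 3 + 27 * (b : K) ^ 2) ≠ 0 := by
    intro h1
    apply hD
    apply FaithfulSMul.algebraMap_injective (𝓞 K) K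
    rw [map_add, map_mul, map_mul, map_pow, map_pow, map_ofNat, map_ofNat, map_zero]
    exact h1
  have hDk : ∀ (m : Type) [Field m] [Algebra K m],
      4 * (algebraMap K m a) ^ 3 + 27 * (algebraMap K m b) ^ 2 ≠ 0 := by
    intro m _ _
    have h1 := (map_ne_zero (algebraMap K m)).2 hDK
    simpa only [map_add, map_mul, map_pow, map_ofNat] using h1
  have hab : ∀ x : K, algebraMap K k' x = algebraMap k k' (algebraMap K k x) :=
    IsScalarTower.algebraMap_apply K k k'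
  have hint : ∀ (x : 𝓞 K) (w : HeightOneSpectrum (𝓞 k)), w.valuation k (algebraMap K k x) ≤ 1 := by
    intro x w
    have e1 : algebraMap K k x = algebraMap (𝓞 k) k (algebraMap (𝓞 K) (𝓞 k) x) := rfl
    rw [e1]
    exact w.valuation_le_one _
  by_contra hcon
  rw [not_or] at hcon
  obtain ⟨hneg, hno⟩ := hcon
  have hs : ∀ s' : k' →+* ℝ, s'.comp (algebraMap k k') ≠ s := by
    intro s' hs'
    exact hno ⟨s', fun x => by rw [← hs']; rfl⟩
  have e0 : algebraMap K k (4 * (a : K) ^ 3 + 27 * (b : K) ^ 2) =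
      4 * algebraMap K k a ^ 3 + 27 * algebraMap K k b ^ 2 := by
    rw [map_add, map_mul, map_mul, map_pow, map_pow, map_ofNat, map_ofNat]
  rw [e0] at hneg
  have hneg' : s (4 * algebraMap K k a ^ 3 + 27 * algebraMap K k b ^ 2) < 0 :=
    lt_of_le_of_ne (not_lt.1 hneg) ((map_ne_zero s).2 (hDk k))
  let f' : k' →ₐ[K] F := IsScalarTower.toAlgHom K k' F
  let f : k →ₐ[K] F := f'.comp (IsScalarTower.toAlgHom K k k')
  obtain ⟨-, hT⟩ := pf_sel hDk h k f
  obtain ⟨hir, hT'⟩ := pf_sel hDk h k' f'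
  simp only [hab] at hir hT'
  obtain ⟨L', _, _, _, θ', h'⟩ := H24PD.exists_cub (K := k') hir
  let _ : Algebra k L' := ((algebraMap k' L').comp (algebraMap k k')).toAlgebra
  have _ : IsScalarTower k k' L' := IsScalarTower.of_algebraMap_eq fun _ => rfl
  obtain ⟨L, _, _, _, _, _, θ, hc, hθ⟩ := H73P2.exists_sub h'
  have Q : H73P2.QS k L k' L' (algebraMap K k a) (algebraMap K k b) θ θ' := ⟨two, hc, h', hθ⟩
  obtain ⟨d, hd1, hd2, hd3⟩ := real_wit (a := algebraMap K k a) (b := algebraMap K k b) s hneg'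
  apply hd3
  refine desc_real H36MT.ordSub Q (hint a) (hint b) (hDk k) (hT L θ hc) (hT' L' θ' h') s hs ?_ ?_
  · rw [← Te_norm hc d, Ne, Algebra.norm_eq_zero_iff] at hd1
    exact hd1
  · rw [Te_norm hc d]
    exact hd2

/-- Ramification goes up. -/
theorem ram_up {K M N : Type} [Field K] [NumberField K] [Field M] [NumberField M] [Field N]
    [NumberField N] [Algebra K M] [Algebra K N] [Algebra M N] [IsScalarTower K M N]
    {W : HeightOneSpectrum (𝓞 N)} (h : H73P2.Ram K (dn M W)) : H73P2.Ram K W := by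
  unfold H73P2.Ram at h ⊢
  rw [H73P2.dn_dn] at h
  have e1 : algebraMap (𝓞 K) (𝓞 N) = (algebraMap (𝓞 M) (𝓞 N)).comp (algebraMap (𝓞 K) (𝓞 M)) := by
    ext x
    change algebraMap K N (x : K) = algebraMap M N (algebraMap K M (x : K))
    exact IsScalarTower.algebraMap_apply K M N _
  rw [e1, ← Ideal.map_map]
  refine (Ideal.map_mono h).trans ?_
  rw [Ideal.map_pow]
  exact Ideal.pow_right_mono Ideal.map_comap_le 2

/-- The uniform local-global principle over all fields `F` contained in a Galois extension `L` of `K` with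
layers of two-power degree. -/
structure HasU (K : Type) [Field K] [NumberField K] (S Q : Finset (HeightOneSpectrum (𝓞 K)))
    (p : 𝓞 K × 𝓞 K) : Prop where
  ne : 4 * p.1 ^ 3 + 27 * p.2 ^ 2 ≠ 0
  irr : ∀ t : K, t ^ 3 + (p.1 : K) * t + (p.2 : K) ≠ 0
  base : Tv K (p.1 : K) (p.2 : K)
  main : ∀ (F L : Type) [Field F] [Field L] [Algebra K F] [Algebra K L] [Algebra F L]
    [IsScalarTower K F L], IsGalois K L →
    (∀ (N : IntermediateField K L) [NumberField N], IsGalois K N →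
      ∃ r : ℕ, Module.finrank K N = 2 ^ r) →
    (∀ v : HeightOneSpectrum (𝓞 K), (v ∈ S ∨ v ∈ Q ∨ RamF K F v) →
      (¬ ∃ ι : L →+* v.adicCompletion K, ∀ x : K,
        ι (algebraMap K L x) = algebraMap K (v.adicCompletion K) x) →
      (v ∉ S → v ∉ Q → ∃ t : 𝓞 K, t ^ 3 + p.1 * t + p.2 ∈ v.asIdeal) →
      ¬ (v ∈ Q ∧ ¬ RamF K L v ∧
        ∀ (N : IntermediateField K L) [NumberField N], IsGalois K N → H36O2.Dec2 N v) →
      ∀ (M : IntermediateField K F) [NumberField M], DescAt K M v (p.1 : K) (p.2 : K)) →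
    RealF K F (p.1 : K) (p.2 : K) → PF K F p

/-- The uniform local-global principle for a curve with trivial relaxed Selmer groups. -/
theorem hasU_of_rel {K : Type} [Field K] [NumberField K] {S Q P : Finset (HeightOneSpectrum (𝓞 K))}
    (hP : ∀ v ∈ P, v ∈ S ∨ v ∈ Q) (hQS : ∀ v ∈ Q, v ∉ S)
    {p : 𝓞 K × 𝓞 K} (hrel : ∀ P' : Finset (HeightOneSpectrum (𝓞 K)), P ⊆ P' → RelG K P' p.1 p.2)
    (hharm : ∀ v ∈ P, v ∉ S → Harm K v (p.1 : K) (p.2 : K)) :
    HasU K S Q p := by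
  have hasP := hasP_of_rel hrel
  refine ⟨hasP.ne, hasP.irr, hasP.base, ?_⟩
  intro F L _ _ _ _ _ _ hgal hdeg hloc hreal M _
  -- a Galois extension that contains the image of `M`
  let fM : M →ₐ[K] L := (IsScalarTower.toAlgHom K F L).comp M.val
  let M' : IntermediateField K L := fM.fieldRange
  let e : M ≃ₐ[K] M' := AlgEquiv.ofInjectiveField fM
  have _ : NumberField M' := NumberField.of_ringEquiv _ _ e.toRingEquiv
  obtain ⟨N, _, hNg, hMN, -⟩ := H30CY.exists_big M' (∅ : Finset ℕ) (fun _ => ⊥)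
    fun v hv => absurd hv (Finset.notMem_empty v)
  let g : M →ₐ[K] N := (IntermediateField.inclusion hMN).comp e.toAlgHom
  let _ : Algebra M N := (g : M →+* N).toAlgebra
  have _ : IsScalarTower K M N := IsScalarTower.of_algebraMap_eq fun x => (g.commutes x).symm
  obtain ⟨r, hr⟩ := hdeg N hNg
  have hd : 4 * (p.1 : K) ^ 3 + 27 * (p.2 : K) ^ 2 ≠ 0 := by
    rw [← dsc_coe]
    intro h1
    apply hasP.ne
    apply RingOfIntegers.coe_injective
    rw [map_zero]
    exact h1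
  have _ : FiniteDimensional K N := Module.Finite.of_restrictScalars_finite ℚ K N
  obtain ⟨R, hR⟩ : ∃ R : Finset (HeightOneSpectrum (𝓞 K)), R =
    (H30PN.ram_fin K M).toFinset.image (dn K) := ⟨_, rfl⟩
  obtain ⟨Sg, hSg⟩ : ∃ Sg : Finset (HeightOneSpectrum (𝓞 K)), Sg =
    P ∪ R.filter (fun v => ∃ t : 𝓞 K, t ^ 3 + p.1 * t + p.2 ∈ v.asIdeal) := ⟨_, rfl⟩
  have hPS : P ⊆ Sg := by
    rw [hSg]
    exact Finset.subset_union_left
  have h1 := hrel Sg hPS
  have hnr := H73P2.noroot (K := K) (N := N) (k := M) hr h1.irr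
  obtain ⟨L₁, _, _, _, θ, hL⟩ := H24PD.exists_cub (K := M) hnr
  have hdes := H24PD.descent hL (selN_mid (K := K) (N := M) (Nt := N) ordSub hr (Sg := Sg)
    h1.two hd h1.nice (realAt_of hreal M.val) ?_ ?_ ?_ M L₁ θ hL)
  · exact ⟨hdes.1, tors_of_noroot hnr, hdes.2⟩
  · intro V hV hr'
    have h2 : dn K V ∈ R := by
      rw [hR, Finset.mem_image]
      exact ⟨V, (H30PN.ram_fin K M).mem_toFinset.2 hr', rfl⟩
    refine H73P2.noRootAt_of fun t ht => hV ?_
    rw [hSg]
    exact Finset.mem_union_right _ (Finset.mem_filter.2 ⟨h2, t, ht⟩)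
  · intro v hv
    by_cases hs : ∃ ι : L →+* v.adicCompletion K, ∀ x : K,
        ι (algebraMap K L x) = algebraMap K (v.adicCompletion K) x
    · obtain ⟨ι, hι⟩ := hs
      exact descAt_mono g (descAt_split ⟨ι.comp N.val.toRingHom, fun x => hι x⟩ _ _)
    · rw [hSg, Finset.mem_union, Finset.mem_filter] at hv
      have hram : v ∉ P → RamF K F v := by
        intro hvP
        obtain ⟨h2, -⟩ := hv.resolve_left hvP
        rw [hR, Finset.mem_image] at h2
        obtain ⟨V, h3, h4⟩ := h2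
        exact ⟨M, inferInstance, V, h4, (H30PN.ram_fin K M).mem_toFinset.1 h3⟩
      by_cases hex : v ∈ P ∧ v ∈ Q ∧ ¬ RamF K L v ∧
        ∀ (N : IntermediateField K L) [NumberField N], IsGalois K N → H36O2.Dec2 N v
      · obtain ⟨h2, h3, h4, h5⟩ := hex
        exact descAt_mono g (hharm v h2 (hQS v h3) N hNg ⟨r, hr⟩
          (fun V hV hR => h4 ⟨N, inferInstance, V, hV, hR⟩) (h5 N hNg))
      · refine hloc v ?_ hs ?_ ?_ M
        · by_cases hvP : v ∈ P
          · rcases hP v hvP with h5 | h5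
            · exact Or.inl h5
            · exact Or.inr (Or.inl h5)
          · exact Or.inr (Or.inr (hram hvP))
        · intro h5 h6
          have hvP : v ∉ P := fun h7 => (hP v h7).elim h5 h6
          exact (hv.resolve_left hvP).2
        · rintro ⟨h2, h3, h4⟩
          by_cases hvP : v ∈ P
          · exact hex ⟨hvP, h2, h3, h4⟩
          · -- ramified in `F`, so ramified in `L`
            obtain ⟨h5, -⟩ := hv.resolve_left hvP
            rw [hR, Finset.mem_image] at h5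
            obtain ⟨V, h6, h7⟩ := h5
            have h8 := (H30PN.ram_fin K M).mem_toFinset.1 h6
            obtain ⟨W, rfl⟩ := exists_above (L := N) V
            refine h3 ⟨N, inferInstance, W, ?_, ram_up h8⟩
            rw [← h7]
            exact (H73P2.dn_dn W).symm
  · intro L₂ _ _ _ θ₂ hL₂
    refine H73ZO.relST_of ?_
    rw [Finset.union_empty]
    exact h1.rel L₂ θ₂ hL₂

end H30ZO

end S_H30_ZO_Nh

section S_H30_ZO_Uw

set_option autoImplicit false
set_option linter.unusedSectionVars false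
open scoped Classical

open WithZero NumberField IsDedekindDomain H38RT
open H76PP H36MT H36CY

namespace H30ZO

theorem val_two {K : Type} [Field K] [NumberField K] {v : HeightOneSpectrum (𝓞 K)}
    (h : (2 : 𝓞 K) ∉ v.asIdeal) : v.valuation K 2 = 1 := by
  have h1 : v.valuation K ((2 : 𝓞 K) : K) = 1 := by
    refine le_antisymm (v.valuation_le_one 2) (not_lt.1 fun h1 => h ?_)
    exact (v.valuation_lt_one_iff_mem (K := K) 2).1 h1
  have h2 : ((2 : 𝓞 K) : K) = 2 := map_ofNat (algebraMap (𝓞 K) K) 2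
  rwa [h2] at h1

theorem disc_ne {K : Type} [Field K] [NumberField K] {A B : 𝓞 K}
    (h : 4 * A ^ 3 + 27 * B ^ 2 ≠ 0) : 4 * (A : K) ^ 3 + 27 * (B : K) ^ 2 ≠ 0 := by
  rw [← dsc_coe]
  intro h1
  apply h
  apply RingOfIntegers.coe_injective
  rw [map_zero]
  exact h1

/-- The prime at which the cubic has no root. -/
theorem harm_q {K : Type} [Field K] [NumberField K] {v : HeightOneSpectrum (𝓞 K)}
    (h2 : (2 : 𝓞 K) ∉ v.asIdeal) {A B D : 𝓞 K} (hD : D ≠ 0)
    (hd : 4 * (A : K) ^ 3 + 27 * (B : K) ^ 2 ≠ 0)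
    (hirr : ∀ t : K, t ^ 3 + (A : K) * t + (B : K) ≠ 0)
    (hn : ∀ t : 𝓞 K, t ^ 3 + A * t + B ∉ v.asIdeal) :
    Harm K v ((D ^ 2 * A : 𝓞 K) : K) ((D ^ 3 * B : 𝓞 K) : K) := by
  intro N _ _ _ hN hr _ _
  obtain ⟨r, hr⟩ := hr
  have e1 : ((D ^ 2 * A : 𝓞 K) : K) = (D : K) ^ 2 * (A : K) := by push_cast; rfl
  have e2 : ((D ^ 3 * B : 𝓞 K) : K) = (D : K) ^ 3 * (B : K) := by push_cast; rfl
  rw [e1, e2]
  exact H36O2.descAt_noroot hr (val_two h2) hD hd hirr hn

/-- The primes at which the cubic has exactly one root. -/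
theorem harm_T {K : Type} [Field K] [NumberField K] {v : HeightOneSpectrum (𝓞 K)}
    (h2 : (2 : 𝓞 K) ∉ v.asIdeal) {A B D : 𝓞 K} (hD : D ≠ 0)
    (hd : 4 * (A : K) ^ 3 + 27 * (B : K) ^ 2 ≠ 0)
    (hirr : ∀ t : K, t ^ 3 + (A : K) * t + (B : K) ≠ 0)
    (ht : ∃ t : 𝓞 K, t ^ 3 + A * t + B ∈ v.asIdeal ∧
      ∀ s : 𝓞 K, -3 * t ^ 2 - 4 * A - s ^ 2 ∉ v.asIdeal) :
    Harm K v ((D ^ 2 * A : 𝓞 K) : K) ((D ^ 3 * B : 𝓞 K) : K) := by
  intro N _ _ _ hN hr hu hdec
  obtain ⟨r, hr⟩ := hr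
  obtain ⟨t, ht, hs⟩ := ht
  have e1 : ((D ^ 2 * A : 𝓞 K) : K) = (D : K) ^ 2 * (A : K) := by push_cast; rfl
  have e2 : ((D ^ 3 * B : 𝓞 K) : K) = (D : K) ^ 3 * (B : K) := by push_cast; rfl
  rw [e1, e2]
  exact H36O2.descAt_T hr h2 hu hdec hD hirr ht hs

/-- The parameters: finite sets of primes, the twisting factors, the count. -/
theorem main_parW (K : Type) [Field K] [NumberField K] {m : Ideal (𝓞 K)} (hm : m ≠ ⊥) {ε : ℝ}
    (hε : 0 < ε) {Z₀ : Set (HeightOneSpectrum (𝓞 K))} (hZ₀ : Z₀.Infinite) :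
    ∃ (S : Finset (HeightOneSpectrum (𝓞 K))) (e : ℕ) (Z₁ Z₂ : Finset (HeightOneSpectrum (𝓞 K)))
      (D : HeightOneSpectrum (𝓞 K) → Finset (HeightOneSpectrum (𝓞 K)) → 𝓞 K) (X₀ : ℝ),
      (∀ v ∈ Z₁ ∪ Z₂, v ∈ Z₀) ∧
      (∀ q ∈ Z₁, ∀ J ⊆ Z₂, D q J - 1 ∈ m ∧ D q J ≠ 0 ∧ (∀ s : K →+* ℝ, 0 < s (D q J : K)) ∧
        ∀ v ∈ S, ∃ r : v.adicCompletion K, algebraMap K (v.adicCompletion K) (D q J : K) = r ^ 2) ∧
      (∀ q ∈ Z₁, ∀ T ⊆ Z₂, ∀ p : 𝓞 K × 𝓞 K, FamS S e q T p.1 p.2 → ¬ BadS S T p.1 p.2 →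
        ∃ J ⊆ Z₂, HasU K S (Z₁ ∪ Z₂) (D q J ^ 2 * p.1, D q J ^ 3 * p.2)) ∧
      ∀ X : ℝ, X₀ ≤ X →
        ({p : 𝓞 K × 𝓞 K | p ∈ Bx K X ∧ ¬ ∃ q ∈ Z₁, ∃ T ⊆ Z₂, FamS S e q T p.1 p.2 ∧
          ¬ BadS S T p.1 p.2}.ncard : ℝ) ≤ ε * X ^ (5 * Module.finrank ℚ K) := by
  obtain ⟨S, e, Z₁, Z₂, m', X₀, hS6, -, hZ₁Z, hZ₂Z, hm'0, hm't, hm'm, hm'S, hZ₁, hZ₂, hZr, hcount⟩ :=
    main_count K hm hε hZ₀ ∅
  have hD : ∀ (q : HeightOneSpectrum (𝓞 K)) (J : Finset (HeightOneSpectrum (𝓞 K))), ∃ D : 𝓞 K,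
      q ∈ Z₁ → J ⊆ Z₂ → D - 1 ∈ m' ∧ TwS S q J (D : K) := by
    intro q J
    by_cases h : q ∈ Z₁ ∧ J ⊆ Z₂
    · obtain ⟨D, hD⟩ := exists_twistS hm'0 hm't hm'S (hZ₁ q h.1).2.2
        (fun p hp => hZr q h.1 p (h.2 hp))
      exact ⟨D, fun _ _ => hD⟩
    · exact ⟨0, fun h1 h2 => absurd ⟨h1, h2⟩ h⟩
  choose D hD using hD
  refine ⟨S, e, Z₁, Z₂, D, X₀, fun v hv => (Finset.mem_union.1 hv).elim (hZ₁Z v) (hZ₂Z v), ?_, ?_,
    hcount⟩
  · intro q hq J hJ
    obtain ⟨h1, h2⟩ := hD q J hq hJ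
    refine ⟨hm'm h1, ?_, h2.pos, fun v hv => ?_⟩
    · intro h0
      apply h2.ne
      rw [h0]
      exact map_zero (algebraMap (𝓞 K) K)
    · obtain ⟨x, hx, hx1⟩ := h2.loc v hv
      exact sq_S hx hx1
  · intro q hq T hT p hF hB
    obtain ⟨J, hJ, hgood⟩ := good_S (q₀ := q) hS6
      (fun v hv => ⟨fun h => (hZ₁ q hq).2.1 (by rw [← h]; exact hT hv), hZ₂ v (hT hv)⟩) hF hB
    have hJ2 : J ⊆ Z₂ := hJ.trans hT
    have hDJ := (hD q J hq hJ2).2
    have hD0 : D q J ≠ 0 := by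
      intro h0
      apply hDJ.ne
      rw [h0]
      exact map_zero (algebraMap (𝓞 K) K)
    have h2v : ∀ v : HeightOneSpectrum (𝓞 K), v ∉ S → (2 : 𝓞 K) ∉ v.asIdeal := by
      intro v hv h2
      apply hv
      apply hS6
      rw [show (6 : 𝓞 K) = 3 * 2 by norm_num]
      exact v.asIdeal.mul_mem_left _ h2
    refine ⟨J, hJ2, hasU_of_rel (P := S ∪ insert q T) ?_ ?_ (fun P' hP' => hgood (D q J) hDJ P'
      (Finset.subset_union_left.trans hP') ?_ (hP' ?_)) ?_⟩
    · intro v hv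
      rcases Finset.mem_union.1 hv with h | h
      · exact Or.inl h
      · right
        rcases Finset.mem_insert.1 h with h | h
        · rw [h]
          exact Finset.mem_union_left _ hq
        · exact Finset.mem_union_right _ (hT h)
    · intro v hv
      rcases Finset.mem_union.1 hv with h | h
      · exact (hZ₁ v h).1
      · exact hZ₂ v h
    · exact (Finset.subset_insert _ _).trans (Finset.subset_union_right.trans hP')
    · exact Finset.mem_union_right _ (Finset.mem_insert_self _ _)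
    · intro v hv hvS
      have h3 : v = q ∨ v ∈ T := by
        rcases Finset.mem_union.1 hv with h | h
        · exact absurd h hvS
        · exact Finset.mem_insert.1 h
      rcases h3 with h3 | h3
      · rw [h3]
        exact harm_q (h2v q (hZ₁ q hq).1) hD0 hF.dsc_ne (fun t => hF.no_root t) hF.irr
      · exact harm_T (h2v v hvS) hD0 hF.dsc_ne (fun t => hF.no_root t) (hF.typ v h3)

/-- Theorem A. -/
theorem main_AW (K : Type) [Field K] [NumberField K] {m : Ideal (𝓞 K)} (hm : m ≠ ⊥) {ε : ℝ}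
    (hε : 0 < ε) {Z₀ : Set (HeightOneSpectrum (𝓞 K))} (hZ₀ : Z₀.Infinite) :
    ∃ (S Q : Finset (HeightOneSpectrum (𝓞 K))) (DD : Finset (𝓞 K)) (X₀ : ℝ),
      (∀ v ∈ Q, v ∈ Z₀) ∧
      (∀ D ∈ DD, D - 1 ∈ m ∧ D ≠ 0 ∧ (∀ s : K →+* ℝ, 0 < s (D : K)) ∧
        ∀ v ∈ S, ∃ r : v.adicCompletion K, algebraMap K (v.adicCompletion K) (D : K) = r ^ 2) ∧
      ∀ X : ℝ, X₀ ≤ X →
        ({p : 𝓞 K × 𝓞 K | p ∈ Bx K X ∧
          ¬ ∃ D ∈ DD, HasU K S Q (D ^ 2 * p.1, D ^ 3 * p.2)}.ncard : ℝ) ≤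
          ε * ((Bx K X).ncard : ℝ) := by
  obtain ⟨c, X₁, hc, hlow⟩ := class_lower (K := K) (m := ⊤) top_ne_bot
  obtain ⟨S, e, Z₁, Z₂, D, X₀, hZ12, h1, h2, h3⟩ := main_parW K hm (ε := ε * c) (by positivity) hZ₀
  refine ⟨S, Z₁ ∪ Z₂, Z₁.biUnion fun q => Z₂.powerset.image (D q), max X₀ X₁, hZ12, ?_, ?_⟩
  · intro d hd
    rw [Finset.mem_biUnion] at hd
    obtain ⟨q, hq, hd⟩ := hd
    rw [Finset.mem_image] at hd
    obtain ⟨J, hJ, rfl⟩ := hd
    exact h1 q hq J (Finset.mem_powerset.1 hJ)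
  · intro X hX
    have h4 := h3 X ((le_max_left _ _).trans hX)
    have h5 := hlow X ((le_max_right _ _).trans hX) 0 0
    have h6 : {p : 𝓞 K × 𝓞 K | p ∈ Bx K X ∧ p.1 - 0 ∈ (⊤ : Ideal (𝓞 K)) ∧
        p.2 - 0 ∈ (⊤ : Ideal (𝓞 K))} = Bx K X := by
      ext p
      simp
    rw [h6] at h5
    have h7 : {p : 𝓞 K × 𝓞 K | p ∈ Bx K X ∧ ¬ ∃ d ∈ Z₁.biUnion fun q => Z₂.powerset.image (D q),
        HasU K S (Z₁ ∪ Z₂) (d ^ 2 * p.1, d ^ 3 * p.2)} ⊆
        {p : 𝓞 K × 𝓞 K | p ∈ Bx K X ∧ ¬ ∃ q ∈ Z₁, ∃ T ⊆ Z₂, FamS S e q T p.1 p.2 ∧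
          ¬ BadS S T p.1 p.2} := by
      rintro p ⟨hp, hno⟩
      refine ⟨hp, ?_⟩
      rintro ⟨q, hq, T, hT, hF, hB⟩
      apply hno
      obtain ⟨J, hJ, hg⟩ := h2 q hq T hT p hF hB
      refine ⟨D q J, ?_, hg⟩
      rw [Finset.mem_biUnion]
      exact ⟨q, hq, Finset.mem_image.2 ⟨J, Finset.mem_powerset.2 hJ, rfl⟩⟩
    have h8 := Set.ncard_le_ncard h7 ((H36PP.Bx_finite K X).subset fun p hp => hp.1)
    have h9 : ({p : 𝓞 K × 𝓞 K | p ∈ Bx K X ∧
        ¬ ∃ d ∈ Z₁.biUnion fun q => Z₂.powerset.image (D q),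
        HasU K S (Z₁ ∪ Z₂) (d ^ 2 * p.1, d ^ 3 * p.2)}.ncard : ℝ) ≤ _ := Nat.cast_le.2 h8
    calc _ ≤ _ := h9
      _ ≤ ε * c * X ^ (5 * Module.finrank ℚ K) := h4
      _ = ε * (c * X ^ (5 * Module.finrank ℚ K)) := by ring
      _ ≤ _ := mul_le_mul_of_nonneg_left h5 hε.le

/-- Theorem B: every residue class contains a positive proportion of good curves, pairwise not
isomorphic over the algebraic closure. -/
theorem main_BW (K : Type) [Field K] [NumberField K] {m : Ideal (𝓞 K)} (hm : m ≠ ⊥)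
    {Z₀ : Set (HeightOneSpectrum (𝓞 K))} (hZ₀ : Z₀.Infinite) :
    ∃ (S Q : Finset (HeightOneSpectrum (𝓞 K))) (c X₀ : ℝ), (∀ v ∈ Q, v ∈ Z₀) ∧ 0 < c ∧
      ∀ a₀ b₀ : 𝓞 K, ∀ X : ℝ, X₀ ≤ X → ∃ G : Finset (𝓞 K × 𝓞 K),
        (∀ p ∈ G, p ∈ Bx K X ∧ p.1 - a₀ ∈ m ∧ p.2 - b₀ ∈ m ∧ HasU K S Q p) ∧
        (∀ p ∈ G, ∀ q ∈ G, p.1 ^ 3 * q.2 ^ 2 = q.1 ^ 3 * p.2 ^ 2 → p = q) ∧
        c * ((Bx K X).ncard : ℝ) ≤ (G.card : ℝ) := by
  have HB : Blocks K := blocks_of_HR2 K fun h hd => hr2 h hd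
  obtain ⟨c, X₁, hc, hlow⟩ := class_lower (K := K) hm
  obtain ⟨S, e, Z₁, Z₂, D, X₂, hZ12, h1, h2, h3⟩ := main_parW K hm (ε := c / 4) (by positivity) hZ₀
  obtain ⟨C, hC, hup⟩ := HB.up
  obtain ⟨η, X₃, hη, hη1, hsmall⟩ := HB.small (δ := c / 4) (by positivity)
  obtain ⟨M, hM⟩ := exists_subS K S e hη
  -- the size of the twisting factors
  choose t ht using fun (q : HeightOneSpectrum (𝓞 K)) (J : Finset (HeightOneSpectrum (𝓞 K))) =>
    exists_bx (D q J)
  obtain ⟨κ, hκ⟩ : ∃ κ : ℝ, κ = 1 + ∑ q ∈ Z₁, ∑ J ∈ Z₂.powerset, |t q J| := ⟨_, rfl⟩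
  have hκ1 : 1 ≤ κ := by
    have : 0 ≤ ∑ q ∈ Z₁, ∑ J ∈ Z₂.powerset, |t q J| :=
      Finset.sum_nonneg fun _ _ => Finset.sum_nonneg fun _ _ => abs_nonneg _
    linarith
  have hκD : ∀ q ∈ Z₁, ∀ J ⊆ Z₂, D q J ∈ bx K κ := by
    intro q hq J hJ
    refine bx_mono ?_ (ht q J)
    have e1 : |t q J| ≤ ∑ J ∈ Z₂.powerset, |t q J| :=
      Finset.single_le_sum (f := fun J => |t q J|) (fun _ _ => abs_nonneg _)
        (Finset.mem_powerset.2 hJ)
    have e2 : ∑ J ∈ Z₂.powerset, |t q J| ≤ ∑ q ∈ Z₁, ∑ J ∈ Z₂.powerset, |t q J| :=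
      Finset.single_le_sum (f := fun q => ∑ J ∈ Z₂.powerset, |t q J|)
        (fun _ _ => Finset.sum_nonneg fun _ _ => abs_nonneg _) hq
    have := le_abs_self (t q J)
    linarith
  obtain ⟨n, hn⟩ : ∃ n, n = Module.finrank ℚ K := ⟨_, rfl⟩
  rw [← hn] at hlow h3 hup hsmall
  obtain ⟨I, hI⟩ : ∃ I : Finset (HeightOneSpectrum (𝓞 K) × Finset (HeightOneSpectrum (𝓞 K)) ×
    Finset (HeightOneSpectrum (𝓞 K))), I = Z₁ ×ˢ Z₂.powerset ×ˢ Z₂.powerset := ⟨_, rfl⟩
  obtain ⟨ic, hic⟩ : ∃ ic : ℝ, ic = (I.card : ℝ) := ⟨_, rfl⟩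
  have hic0 : 0 ≤ ic := by rw [hic]; exact Nat.cast_nonneg _
  refine ⟨S, Z₁ ∪ Z₂, (c / 2) / ((ic + 1) * (M + 1) * (C * κ ^ (5 * n))),
    κ * max (max X₁ X₂) (max X₃ 1), hZ12, by positivity, ?_⟩
  intro a₀ b₀ Y hY
  obtain ⟨X, hXdef⟩ : ∃ X : ℝ, X = Y / κ := ⟨_, rfl⟩
  have hκ0 : 0 < κ := by linarith
  have hYX : Y = κ * X := by rw [hXdef]; field_simp
  have hX : max (max X₁ X₂) (max X₃ 1) ≤ X := by
    rw [hXdef, le_div_iff₀ hκ0, mul_comm]
    exact hY
  have hX1 : X₁ ≤ X := (le_max_left _ _).trans ((le_max_left _ _).trans hX)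
  have hX2 : X₂ ≤ X := (le_max_right _ _).trans ((le_max_left _ _).trans hX)
  have hX3 : X₃ ≤ X := (le_max_left _ _).trans ((le_max_right _ _).trans hX)
  have hX4 : 1 ≤ X := (le_max_right _ _).trans ((le_max_right _ _).trans hX)
  have hY1 : 1 ≤ Y := by rw [hYX]; nlinarith
  have hXp : 0 < X ^ (5 * n) := by positivity
  have hfin : ∀ P : 𝓞 K × 𝓞 K → Prop, {p : 𝓞 K × 𝓞 K | p ∈ Bx K X ∧ P p}.Finite := fun P =>
    (H36PP.Bx_finite K X).subset fun p hp => hp.1
  -- the pairs which we use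
  obtain ⟨G, hG⟩ : ∃ G : Finset (𝓞 K × 𝓞 K), ∀ p, p ∈ G ↔ (p ∈ Bx K X ∧
      (p.1 - a₀ ∈ m ∧ p.2 - b₀ ∈ m) ∧
      (∃ q ∈ Z₁, ∃ T ⊆ Z₂, FamS S e q T p.1 p.2 ∧ ¬ BadS S T p.1 p.2) ∧
      ∀ s : K →+* ℂ, η * X ^ 2 ≤ ‖s (p.1 : K)‖) :=
    ⟨(hfin _).toFinset, fun p => Set.Finite.mem_toFinset _⟩
  have hGc : c / 2 * X ^ (5 * n) ≤ (G.card : ℝ) := by
    have g1 := hlow X hX1 a₀ b₀
    have g2 := h3 X hX2
    have g3 := hsmall X hX3
    have g4 : {p : 𝓞 K × 𝓞 K | p ∈ Bx K X ∧ p.1 - a₀ ∈ m ∧ p.2 - b₀ ∈ m} ⊆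
        ((G : Set (𝓞 K × 𝓞 K)) ∪ {p : 𝓞 K × 𝓞 K | p ∈ Bx K X ∧ ¬ ∃ q ∈ Z₁, ∃ T ⊆ Z₂,
          FamS S e q T p.1 p.2 ∧ ¬ BadS S T p.1 p.2}) ∪
        {p : 𝓞 K × 𝓞 K | p ∈ Bx K X ∧ ∃ s : K →+* ℂ, ‖s (p.1 : K)‖ < η * X ^ 2} := by
      rintro p ⟨hp, hc⟩
      by_cases c1 : ∃ q ∈ Z₁, ∃ T ⊆ Z₂, FamS S e q T p.1 p.2 ∧ ¬ BadS S T p.1 p.2
      · by_cases c2 : ∃ s : K →+* ℂ, ‖s (p.1 : K)‖ < η * X ^ 2
        · exact Or.inr ⟨hp, c2⟩
        · push Not at c2
          exact Or.inl (Or.inl (Finset.mem_coe.2 ((hG p).2 ⟨hp, hc, c1, c2⟩)))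
      · exact Or.inl (Or.inr ⟨hp, c1⟩)
    have g5 := Set.ncard_le_ncard g4 ((G.finite_toSet.union (hfin _)).union (hfin _))
    have g6 := g5.trans (Set.ncard_union_le _ _)
    have g7 := g6.trans (Nat.add_le_add_right (Set.ncard_union_le _ _) _)
    rw [Set.ncard_coe_finset] at g7
    have g8 : ({p : 𝓞 K × 𝓞 K | p ∈ Bx K X ∧ p.1 - a₀ ∈ m ∧ p.2 - b₀ ∈ m}.ncard : ℝ) ≤ _ :=
      Nat.cast_le.2 g7
    push_cast at g8
    linarith
  -- pigeonhole
  have hch : ∀ p : 𝓞 K × 𝓞 K, ∃ i : HeightOneSpectrum (𝓞 K) × Finset (HeightOneSpectrum (𝓞 K)) ×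
      Finset (HeightOneSpectrum (𝓞 K)), p ∈ G → i ∈ I ∧ FamS S e i.1 i.2.1 p.1 p.2 ∧
        HasU K S (Z₁ ∪ Z₂) (D i.1 i.2.2 ^ 2 * p.1, D i.1 i.2.2 ^ 3 * p.2) := by
    intro p
    by_cases hp : p ∈ G
    · obtain ⟨-, -, ⟨q, hq, T, hT, hF, hB⟩, -⟩ := (hG p).1 hp
      obtain ⟨J, hJ, hg⟩ := h2 q hq T hT p hF hB
      refine ⟨(q, T, J), fun _ => ⟨?_, hF, hg⟩⟩
      rw [hI, Finset.mem_product, Finset.mem_product]
      exact ⟨hq, Finset.mem_powerset.2 hT, Finset.mem_powerset.2 hJ⟩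
    · obtain ⟨v, -⟩ := Ya_exists_two K
      exact ⟨(v, ∅, ∅), fun h => absurd h hp⟩
  choose f hf using hch
  have hGne : G.Nonempty := by
    rw [← Finset.card_pos]
    have : (0 : ℝ) < (G.card : ℝ) := lt_of_lt_of_le (by positivity) hGc
    exact_mod_cast this
  obtain ⟨p₀, hp₀⟩ := hGne
  obtain ⟨⟨q, T, J⟩, hi, G₂, hG₂, hG₂f, hcard⟩ :=
    pigeon G I ⟨f p₀, (hf p₀ hp₀).1⟩ f (fun a ha => (hf a ha).1)
  have hi' : q ∈ Z₁ ∧ T ⊆ Z₂ ∧ J ⊆ Z₂ := by
    rw [hI, Finset.mem_product, Finset.mem_product] at hi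
    exact ⟨hi.1, Finset.mem_powerset.1 hi.2.1, Finset.mem_powerset.1 hi.2.2⟩
  obtain ⟨G₁, hG₁, hcard₁, hinj₁⟩ := hM q T X (by linarith) G₂ (by
    intro p hp
    have g1 := (hf p (hG₂ hp)).2.1
    rw [hG₂f p hp] at g1
    exact ⟨((hG p).1 (hG₂ hp)).1, g1, ((hG p).1 (hG₂ hp)).2.2.2⟩)
  obtain ⟨hDm, hD0, -⟩ := h1 q hi'.1 J hi'.2.2
  have hinj : Set.InjOn (fun p : 𝓞 K × 𝓞 K => (D q J ^ 2 * p.1, D q J ^ 3 * p.2)) (G₁ : Set _) := by
    intro p _ p' _ hpp
    simp only [Prod.mk.injEq] at hpp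
    exact Prod.ext (mul_left_cancel₀ (pow_ne_zero 2 hD0) hpp.1)
      (mul_left_cancel₀ (pow_ne_zero 3 hD0) hpp.2)
  refine ⟨G₁.image (fun p => (D q J ^ 2 * p.1, D q J ^ 3 * p.2)), ?_, ?_, ?_⟩
  · intro x hx
    rw [Finset.mem_image] at hx
    obtain ⟨p, hp, rfl⟩ := hx
    have hpG := hG₂ (hG₁ hp)
    have hpf := hG₂f p (hG₁ hp)
    obtain ⟨hpB, ⟨hpa, hpb⟩, -, -⟩ := (hG p).1 hpG
    have g2 := (hf p hpG).2.2
    rw [hpf] at g2
    refine ⟨⟨?_, ?_⟩, ?_, ?_, g2⟩
    · rw [hYX]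
      exact bx_int_mul (hκD q hi'.1 J hi'.2.2) hpB.1
    · rw [hYX]
      exact bx_int_mul3 (hκD q hi'.1 J hi'.2.2) hpB.2
    · change D q J ^ 2 * p.1 - a₀ ∈ m
      have e1 : D q J ^ 2 * p.1 - a₀ = (p.1 - a₀) + (D q J - 1) * ((D q J + 1) * p.1) := by ring
      rw [e1]
      exact m.add_mem hpa (m.mul_mem_right _ hDm)
    · change D q J ^ 3 * p.2 - b₀ ∈ m
      have e1 : D q J ^ 3 * p.2 - b₀ =
          (p.2 - b₀) + (D q J - 1) * ((D q J ^ 2 + D q J + 1) * p.2) := by ring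
      rw [e1]
      exact m.add_mem hpb (m.mul_mem_right _ hDm)
  · intro x hx x' hx' h
    rw [Finset.mem_image] at hx hx'
    obtain ⟨p, hp, rfl⟩ := hx
    obtain ⟨p', hp', rfl⟩ := hx'
    have g1 : p = p' := by
      refine hinj₁ p hp p' hp' ?_
      have g2 : D q J ^ 12 * (p.1 ^ 3 * p'.2 ^ 2) = D q J ^ 12 * (p'.1 ^ 3 * p.2 ^ 2) := by
        change (D q J ^ 2 * p.1) ^ 3 * (D q J ^ 3 * p'.2) ^ 2 =
          (D q J ^ 2 * p'.1) ^ 3 * (D q J ^ 3 * p.2) ^ 2 at h
        linear_combination h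
      exact mul_left_cancel₀ (pow_ne_zero 12 hD0) g2
    rw [g1]
  · rw [Finset.card_image_of_injOn hinj]
    have g2 := hup Y hY1
    have hpow : Y ^ (5 * n) = κ ^ (5 * n) * X ^ (5 * n) := by rw [hYX, mul_pow]
    obtain ⟨x₁, hx₁⟩ : ∃ x₁ : ℝ, x₁ = (G₁.card : ℝ) := ⟨_, rfl⟩
    obtain ⟨x₂, hx₂⟩ : ∃ x₂ : ℝ, x₂ = (G.card : ℝ) := ⟨_, rfl⟩
    obtain ⟨x₃, hx₃⟩ : ∃ x₃ : ℝ, x₃ = ((Bx K Y).ncard : ℝ) := ⟨_, rfl⟩
    obtain ⟨x₄, hx₄⟩ : ∃ x₄ : ℝ, x₄ = (M : ℝ) := ⟨_, rfl⟩
    have h10 : 0 ≤ x₁ := by rw [hx₁]; exact Nat.cast_nonneg _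
    have h40 : 0 ≤ x₄ := by rw [hx₄]; exact Nat.cast_nonneg _
    have g4 : x₂ ≤ ic * (x₄ * x₁) := by
      rw [hx₁, hx₂, hx₄, hic]
      have g5 : G.card ≤ I.card * (M * G₁.card) :=
        hcard.trans (Nat.mul_le_mul_left _ hcard₁)
      exact_mod_cast g5
    rw [← hx₁, ← hx₃, ← hx₄]
    rw [← hx₂] at hGc
    rw [← hx₃] at g2
    have g3 : x₂ ≤ (ic + 1) * ((x₄ + 1) * x₁) := by
      refine g4.trans (mul_le_mul (by linarith) ?_ (by positivity) (by positivity))
      exact mul_le_mul_of_nonneg_right (by linarith) h10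
    calc (c / 2) / ((ic + 1) * (x₄ + 1) * (C * κ ^ (5 * n))) * x₃
        ≤ (c / 2) / ((ic + 1) * (x₄ + 1) * (C * κ ^ (5 * n))) * (C * Y ^ (5 * n)) :=
          mul_le_mul_of_nonneg_left g2 (by positivity)
      _ = (c / 2 * X ^ (5 * n)) / ((ic + 1) * (x₄ + 1)) := by
          rw [hpow]
          field_simp
      _ ≤ x₂ / ((ic + 1) * (x₄ + 1)) :=
          div_le_div_of_nonneg_right hGc (by positivity)
      _ ≤ x₁ := by
          rw [div_le_iff₀ (by positivity)]
          calc x₂ ≤ _ := g3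
            _ = _ := by ring

end H30ZO

end S_H30_ZO_Uw

section S_H30_ZO_Ni

set_option autoImplicit false
set_option linter.unusedSectionVars false
open scoped Classical

open WithZero NumberField IsDedekindDomain WeierstrassCurve H38RT H76PP H36MT H36CY H36ZO H24PD
open Pool.Agent.H10

namespace H30ZO

section Main

variable {K F : Type} [Field K] [NumberField K] [Field F] [Algebra K F]

/-- The cubic has no root over the number fields contained in a Galois extension with layers of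
two-power degree. -/
theorem noroot_in {L : Type} [Field L] [Algebra K L] (hgal : IsGalois K L)
    (hdeg : ∀ (N : IntermediateField K L) [NumberField N], IsGalois K N →
      ∃ r : ℕ, Module.finrank K N = 2 ^ r) {a b : K} (hirr : ∀ t : K, t ^ 3 + a * t + b ≠ 0)
    (k : Type) [Field k] [NumberField k] [Algebra K k] (f : k →ₐ[K] L) (t : k) :
    t ^ 3 + algebraMap K k a * t + algebraMap K k b ≠ 0 := by
  let M' : IntermediateField K L := f.fieldRange
  let e : k ≃ₐ[K] M' := AlgEquiv.ofInjectiveField f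
  have _ : NumberField M' := NumberField.of_ringEquiv _ _ e.toRingEquiv
  obtain ⟨N, _, hNg, hMN, -⟩ := H30CY.exists_big M' (∅ : Finset ℕ) (fun _ => ⊥)
    fun v hv => absurd hv (Finset.notMem_empty v)
  let g : k →ₐ[K] N := (IntermediateField.inclusion hMN).comp e.toAlgHom
  let _ : Algebra k N := (g : k →+* N).toAlgebra
  have _ : IsScalarTower K k N := IsScalarTower.of_algebraMap_eq fun x => (g.commutes x).symm
  obtain ⟨r, hr⟩ := hdeg N hNg
  have _ : FiniteDimensional K N := Module.Finite.of_restrictScalars_finite ℚ K N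
  exact H73P2.noroot (K := K) (N := N) (k := k) hr hirr t

/-- The degrees of the number fields contained in a Galois extension with layers of two-power
degree. -/
theorem deg_in {L : Type} [Field L] [Algebra K L] (hgal : IsGalois K L)
    (hdeg : ∀ (N : IntermediateField K L) [NumberField N], IsGalois K N →
      ∃ r : ℕ, Module.finrank K N = 2 ^ r)
    (k : Type) [Field k] [NumberField k] [Algebra K k] (f : k →ₐ[K] L) :
    ∃ r : ℕ, Module.finrank K k = 2 ^ r := by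
  let M' : IntermediateField K L := f.fieldRange
  let e : k ≃ₐ[K] M' := AlgEquiv.ofInjectiveField f
  have _ : NumberField M' := NumberField.of_ringEquiv _ _ e.toRingEquiv
  obtain ⟨N, _, hNg, hMN, -⟩ := H30CY.exists_big M' (∅ : Finset ℕ) (fun _ => ⊥)
    fun v hv => absurd hv (Finset.notMem_empty v)
  let g : k →ₐ[K] N := (IntermediateField.inclusion hMN).comp e.toAlgHom
  let _ : Algebra k N := (g : k →+* N).toAlgebra
  have _ : IsScalarTower K k N := IsScalarTower.of_algebraMap_eq fun x => (g.commutes x).symm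
  obtain ⟨r, hr⟩ := hdeg N hNg
  have _ : FiniteDimensional K N := Module.Finite.of_restrictScalars_finite ℚ K N
  have h1 := Module.finrank_mul_finrank K k N
  rw [hr] at h1
  obtain ⟨s, -, hs⟩ := (Nat.dvd_prime_pow Nat.prime_two).1 (Dvd.intro _ h1)
  exact ⟨s, hs⟩

/-- Descent for classes. -/
theorem locC_of_descN {v : HeightOneSpectrum (𝓞 K)} {a b : K}
    (hnr : ∀ (k : Type) [Field k] [NumberField k] [Algebra K k] (_ : k →ₐ[K] F) (t : k),
      t ^ 3 + algebraMap K k a * t + algebraMap K k b ≠ 0)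
    (h : ∀ (M : IntermediateField K F) [NumberField M], DescAt K M v a b) :
    LocC K F v a b := by
  intro k k' _ _ _ _ _ _ _ _ _ _ h2 f hf hf2 hw u hu
  obtain ⟨M, hM⟩ : ∃ M : IntermediateField K F, M = (IsScalarTower.toAlgHom K k' F).fieldRange :=
    ⟨_, rfl⟩
  have hk'f : FiniteDimensional K k' := Module.Finite.of_restrictScalars_finite ℚ K k'
  have hMf : FiniteDimensional K M := by
    rw [hM]
    exact LinearMap.finiteDimensional_range (IsScalarTower.toAlgHom K k' F).toLinearMap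
  have hMn : NumberField M := NumberField.of_module_finite K M
  have hmem : ∀ x : k', algebraMap k' F x ∈ M := by
    intro x
    rw [hM]
    exact ⟨x, rfl⟩
  let _ : Algebra k' M := ((algebraMap k' F).codRestrict M.toSubfield hmem).toAlgebra
  let _ : Algebra k M := ((algebraMap k' M).comp (algebraMap k k')).toAlgebra
  have t1 : IsScalarTower K k' M := IsScalarTower.of_algebraMap_eq fun x => by
    apply Subtype.ext
    change algebraMap K F x = algebraMap k' F (algebraMap K k' x)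
    exact IsScalarTower.algebraMap_apply K k' F x
  have t2 : IsScalarTower k k' M := IsScalarTower.of_algebraMap_eq fun x => rfl
  have t3 : IsScalarTower K k M := IsScalarTower.of_algebraMap_eq fun x => by
    rw [IsScalarTower.algebraMap_apply K k' M, IsScalarTower.algebraMap_apply K k k']
    rfl
  have hirrk : ∀ t : k, t ^ 3 + algebraMap K k a * t + algebraMap K k b ≠ 0 :=
    fun t => hnr k ((IsScalarTower.toAlgHom K k' F).comp (IsScalarTower.toAlgHom K k k')) t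
  obtain ⟨L, _, _, _, θ, hL⟩ := exists_cub hirrk
  have := elliptic hL
  obtain ⟨g, hg, hg2, hfg⟩ := exists_two hf hf2
  obtain ⟨d, s, hd0, hsq, hs0, he, hd⟩ := exists_d hL hg hg2
  have key := h M k k' h2 d (by rw [← Te_norm hL]; exact Algebra.norm_ne_zero_iff.2 hd0)
    (by rw [← Te_norm hL]; exact hsq) (fun w hwv => ?_) u hu
  · rw [hfg, trOv_iff_LC hL hg2 hs0 he hd (inf_bc u _ _)]
    exact key
  · have h3 := hw w hwv
    rw [← LC_comp]
    let _ : Algebra k (w.adicCompletion k') := algC k k' w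
    exact (trOv_iff_LC hL hg2 hs0 he hd (inf_bc w _ _)).1 ((hfg _).1 h3)

/-- The converse. -/
theorem descN_of_locC {v : HeightOneSpectrum (𝓞 K)} {a b : K}
    (hnr : ∀ (k : Type) [Field k] [NumberField k] [Algebra K k] (_ : k →ₐ[K] F) (t : k),
      t ^ 3 + algebraMap K k a * t + algebraMap K k b ≠ 0) (h : LocC K F v a b)
    (M : IntermediateField K F) [NumberField M] : DescAt K M v a b := by
  intro k k' _ _ _ _ _ _ _ _ _ _ _ _ _ h2 d hd0 hsq hw u hu
  let _ : Algebra k' F := ((algebraMap M F).comp (algebraMap k' M)).toAlgebra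
  have t1 : IsScalarTower K k' F := IsScalarTower.of_algebraMap_eq fun x => by
    change algebraMap M F (algebraMap K M x) = algebraMap M F (algebraMap k' M (algebraMap K k' x))
    rw [← IsScalarTower.algebraMap_apply K k' M]
  have hirrk : ∀ t : k, t ^ 3 + algebraMap K k a * t + algebraMap K k b ≠ 0 :=
    fun t => hnr k ((IsScalarTower.toAlgHom K k' F).comp (IsScalarTower.toAlgHom K k k')) t
  obtain ⟨L, _, _, _, θ, hL⟩ := exists_cub hirrk
  rw [← Te_norm hL] at hd0 hsq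
  obtain ⟨f, s, hf, hf2, hs0, he, hd⟩ := H30ZO.exists_coc hL (fun h0 => hd0 (by
    rw [h0]
    obtain ⟨_, _⟩ := fin3 hL
    exact Algebra.norm_zero)) hsq
  have key := h k k' h2 f hf ((isCobound_iff _).2 ⟨0, fun σ => by
    rw [map_zero, sub_zero, two_nsmul, hf2]⟩) (fun w hwv => ?_) u hu
  · exact (trOv_iff_LC hL hf2 hs0 he hd (inf_bc u _ _)).1 key
  · have h3 := hw w hwv
    rw [← LC_comp] at h3
    let _ : Algebra k (w.adicCompletion k') := algC k k' w
    exact (trOv_iff_LC hL hf2 hs0 he hd (inf_bc w _ _)).2 h3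

end Main

section Exempt

variable {K F L : Type} [Field K] [NumberField K] [Field F] [Field L] [Algebra K F] [Algebra K L]
  [Algebra F L] [IsScalarTower K F L]

/-- A number field in `F` and a Galois number field in `L` that contains it. -/
theorem exists_over (hgal : IsGalois K L) (M : IntermediateField K F) [NumberField M] :
    ∃ (N : IntermediateField K L) (_ : NumberField N), IsGalois K N ∧ Nonempty (M →ₐ[K] N) := by
  let fM : M →ₐ[K] L := (IsScalarTower.toAlgHom K F L).comp M.val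
  let M' : IntermediateField K L := fM.fieldRange
  let e : M ≃ₐ[K] M' := AlgEquiv.ofInjectiveField fM
  have _ : NumberField M' := NumberField.of_ringEquiv _ _ e.toRingEquiv
  obtain ⟨N, hN, hNg, hMN, -⟩ := H30CY.exists_big M' (∅ : Finset ℕ) (fun _ => ⊥)
    fun v hv => absurd hv (Finset.notMem_empty v)
  exact ⟨N, hN, hNg, ⟨(IntermediateField.inclusion hMN).comp e.toAlgHom⟩⟩

theorem ramF_up {v : HeightOneSpectrum (𝓞 K)} (h : RamF K F v) (hgal : IsGalois K L) :
    RamF K L v := by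
  obtain ⟨M, _, V, rfl, hV⟩ := h
  obtain ⟨N, hN, -, ⟨g⟩⟩ := exists_over (F := F) hgal M
  let _ : Algebra M N := (g : M →+* N).toAlgebra
  have _ : IsScalarTower K M N := IsScalarTower.of_algebraMap_eq fun x => (g.commutes x).symm
  obtain ⟨W, rfl⟩ := exists_above (L := N) V
  exact ⟨N, hN, W, (H73P2.dn_dn W).symm, ram_up hV⟩

theorem descAt_noroot_in (hgal : IsGalois K L)
    (hdeg : ∀ (N : IntermediateField K L) [NumberField N], IsGalois K N →
      ∃ r : ℕ, Module.finrank K N = 2 ^ r) {v : HeightOneSpectrum (𝓞 K)}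
    (h2 : (2 : 𝓞 K) ∉ v.asIdeal) {A B : 𝓞 K} (hne : 4 * A ^ 3 + 27 * B ^ 2 ≠ 0)
    (hirr : ∀ t : K, t ^ 3 + (A : K) * t + (B : K) ≠ 0)
    (hn : ∀ t : 𝓞 K, t ^ 3 + A * t + B ∉ v.asIdeal) (M : IntermediateField K F) [NumberField M] :
    DescAt K M v (A : K) (B : K) := by
  obtain ⟨N, _, hNg, ⟨g⟩⟩ := exists_over (F := F) hgal M
  obtain ⟨r, hr⟩ := hdeg N hNg
  have h6 := H36O2.descAt_noroot hr (val_two h2) one_ne_zero (disc_ne hne) hirr hn
  rw [show ((1 : 𝓞 K) : K) = 1 from map_one (algebraMap (𝓞 K) K), one_pow, one_pow, one_mul,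
    one_mul] at h6
  exact descAt_mono g h6

theorem descAt_good_in (hgal : IsGalois K L)
    (hdeg : ∀ (N : IntermediateField K L) [NumberField N], IsGalois K N →
      ∃ r : ℕ, Module.finrank K N = 2 ^ r) {v : HeightOneSpectrum (𝓞 K)} (hr : ¬ RamF K L v)
    (h2 : (2 : 𝓞 K) ∉ v.asIdeal) {A B : 𝓞 K}
    (hirr : ∀ t : K, t ^ 3 + (A : K) * t + (B : K) ≠ 0)
    (hd : 4 * A ^ 3 + 27 * B ^ 2 ∉ v.asIdeal) (M : IntermediateField K F) [NumberField M] :
    DescAt K M v (A : K) (B : K) := by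
  obtain ⟨N, hN, hNg, ⟨g⟩⟩ := exists_over (F := F) hgal M
  obtain ⟨r, hr'⟩ := hdeg N hNg
  exact descAt_mono g (H73ZO.descAt_good hr' h2 (fun V hV hR => hr ⟨N, hN, V, hV, hR⟩) hirr hd)

end Exempt

end H30ZO

end S_H30_ZO_Ni
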