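import Mathlib
import Mathlib.FieldTheory.Finite.Basic
import Mathlib.FieldTheory.Normal.Closure
import Mathlib.RingTheory.Valuation.LocalSubring
import Pool.Agent.H38.T1.Ga
import Pool.Agent.H76.ZQ.Y10
import Pool.Agent.H76.ZQ.Y13
import Pool.Agent.H76.ZQ.Y14
import Pool.Agent.H76.ZQ.Y15
import Pool.Agent.H76.ZQ.Y9

/-! This file joins several modules to save build time (Y16). -/

set_option autoImplicit false

section S_H36_O2_Ok

set_option autoImplicit false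
set_option linter.unusedSectionVars false
open scoped Classical

open WithZero NumberField IsDedekindDomain H76PP H36CY H24PD

namespace H36O2

private theorem Ok_base {K F : Type} [Field K] [NumberField K] [Field F] [Algebra K F]
    (v : HeightOneSpectrum (𝓞 K)) :
    ∃ R : ValuationSubring F,
      (∀ x : 𝓞 K, algebraMap K F (x : K) ∈ R) ∧
      ∀ x : 𝓞 K, x ∈ v.asIdeal → R.valuation (algebraMap K F (x : K)) < 1 := by
  let g : 𝓞 K →+* F := (algebraMap K F).comp (algebraMap (𝓞 K) K)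
  have hg : Function.Injective g :=
    (algebraMap K F).injective.comp (NumberField.RingOfIntegers.coe_injective)
  have hsur : Function.Surjective g.rangeRestrict := g.rangeRestrict_surjective
  have hI : Ideal.map g.rangeRestrict v.asIdeal ≠ ⊤ := by
    intro h
    have h1 : (1 : g.range) ∈ Ideal.map g.rangeRestrict v.asIdeal := by
      rw [h]
      exact Submodule.mem_top
    obtain ⟨x, hx, hx1⟩ := (Ideal.mem_map_iff_of_surjective _ hsur).1 h1
    have h2 : g x = 1 := congrArg Subtype.val hx1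
    have h3 : x = 1 := hg (h2.trans (map_one g).symm)
    exact v.isPrime.ne_top ((Ideal.eq_top_iff_one _).2 (h3 ▸ hx))
  obtain ⟨R, hR1, hR2⟩ := Ideal.image_subset_nonunits_valuationSubring _ hI
  refine ⟨R, fun x => hR1 ⟨x, rfl⟩, fun x hx => ?_⟩
  have h1 : g x ∈ R.nonunits :=
    hR2 ⟨g.rangeRestrict x, Ideal.mem_map_of_mem _ hx, rfl⟩
  exact R.mem_nonunits_iff.1 h1

private theorem Ok_int {K F : Type} [Field K] [NumberField K] [Field F] [Algebra K F]
    (R : ValuationSubring F) (N : IntermediateField K F) [NumberField N] (y : 𝓞 N) :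
    ((y : N) : F) ∈ R := by
  have h1 : IsIntegral ℤ (((y : N)) : F) := by
    have h2 : IsIntegral ℤ (y : N) := y.2
    exact h2.map (N.val.toRingHom.toIntAlgHom)
  have h3 : IsIntegral R (((y : N)) : F) := h1.tower_top
  obtain ⟨z, hz⟩ := (IsIntegrallyClosed.isIntegral_iff (R := R) (K := F)).1 h3
  rw [← hz]
  exact z.2

private theorem Ok_pow {K F : Type} [Field K] [NumberField K] [Field F] [Algebra K F] [IsGalois K F]
    {v : HeightOneSpectrum (𝓞 K)} {R : ValuationSubring F}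
    (hR2 : ∀ x : 𝓞 K, x ∈ v.asIdeal → R.valuation (algebraMap K F (x : K)) < 1)
    (N : IntermediateField K F) [NumberField N] (hN : IsGalois K N) (hd : Dec2 N v)
    (x : N) (hx : (x : F) ∈ R) :
    R.valuation ((x : F) ^ (Nat.card (𝓞 K ⧸ v.asIdeal) ^ 2) - (x : F)) < 1 := by
  obtain ⟨q, hq⟩ : ∃ q, q = Nat.card (𝓞 K ⧸ v.asIdeal) := ⟨_, rfl⟩
  rw [← hq]
  -- the ring homomorphism of the integers of `N` into `R`
  let j₀ : 𝓞 N →+* F := N.val.toRingHom.comp (algebraMap (𝓞 N) N)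
  have hj₀ : ∀ y : 𝓞 N, j₀ y = ((y : N) : F) := fun _ => rfl
  have hj₀R : ∀ y : 𝓞 N, j₀ y ∈ R := fun y => Ok_int R N y
  let j : 𝓞 N →+* R := j₀.codRestrict R hj₀R
  have hj : ∀ y : 𝓞 N, ((j y : R) : F) = ((y : N) : F) := fun _ => rfl
  let I : Ideal (𝓞 N) := (IsLocalRing.maximalIdeal R).comap j
  have hI : ∀ y : 𝓞 N, y ∈ I ↔ R.valuation ((y : N) : F) < 1 := by
    intro y
    rw [Ideal.mem_comap, ValuationSubring.valuation_lt_one_iff, hj]
  have hIp : I.IsPrime := Ideal.comap_isPrime _ _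
  have hIv : ∀ a : 𝓞 K, a ∈ v.asIdeal → algebraMap (𝓞 K) (𝓞 N) a ∈ I := by
    intro a ha
    rw [hI]
    have e : (((algebraMap (𝓞 K) (𝓞 N) a : 𝓞 N) : N) : F) = algebraMap K F (a : K) := rfl
    rw [e]
    exact hR2 a ha
  have hI0 : I ≠ ⊥ := by
    intro h0
    obtain ⟨a, ha, ha0⟩ := Submodule.exists_mem_ne_zero_of_ne_bot v.ne_bot
    have h1 := hIv a ha
    rw [h0, Ideal.mem_bot] at h1
    exact ha0 ((FaithfulSMul.algebraMap_injective (𝓞 K) (𝓞 N)) (h1.trans (map_zero _).symm))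
  let W : HeightOneSpectrum (𝓞 N) := ⟨I, hIp, hI0⟩
  have hW : ∀ y : 𝓞 N, y ∈ W.asIdeal ↔ R.valuation ((y : N) : F) < 1 := hI
  have hdn : dn K W = v := by
    apply HeightOneSpectrum.ext
    refine (v.isMaximal.eq_of_le (dn K W).isPrime.ne_top ?_).symm
    intro a ha
    exact hIv a ha
  -- comparison of the valuations
  have hdR : ∀ d : 𝓞 N, d ∉ W.asIdeal → R.valuation ((d : N) : F) = 1 := by
    intro d hd1
    have h1 := (R.valuation_le_one_iff _).2 (hj₀R d)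
    exact le_antisymm h1 (not_lt.1 fun h2 => hd1 ((hW d).2 h2))
  have hle : ∀ y : N, W.valuation N y < 1 → R.valuation (y : F) < 1 := by
    intro y hy
    obtain ⟨n, d, hnd⟩ := W.exists_primeCompl_mul_eq_of_integer (K := N) y hy.le
    have hd1 := hdR d d.2
    have hn : W.valuation N (algebraMap (𝓞 N) N n) < 1 := by
      rw [← hnd, map_mul]
      exact mul_lt_one_of_lt_of_le hy (W.valuation_le_one (K := N) (d : 𝓞 N))
    rw [W.valuation_lt_one_iff_mem, hW] at hn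
    have e : ((n : N) : F) = (y : F) * (((d : 𝓞 N) : N) : F) := by
      have h2 := congrArg (fun z : N => (z : F)) hnd
      exact h2.symm
    rw [e, map_mul, hd1, mul_one] at hn
    exact hn
  have hge : ∀ y : N, (y : F) ∈ R → W.valuation N y ≤ 1 := by
    intro y hy
    by_contra h1
    rw [not_le] at h1
    have hy0 : y ≠ 0 := by
      rintro rfl
      rw [map_zero] at h1
      exact not_lt_bot h1
    have h2 : W.valuation N y⁻¹ < 1 := by
      rw [map_inv₀]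
      exact inv_lt_one_of_one_lt₀ h1
    have h3 := hle _ h2
    have e : ((y⁻¹ : N) : F) = (y : F)⁻¹ := rfl
    rw [e, map_inv₀] at h3
    have hy0' : (y : F) ≠ 0 := fun h => hy0 (Subtype.ext h)
    have h4 : 0 < R.valuation (y : F) := by
      rw [zero_lt_iff, Ne, map_eq_zero]
      exact hy0'
    have h5 : 1 < R.valuation (y : F) := (inv_lt_one₀ h4).1 h3
    exact absurd ((R.valuation_le_one_iff _).2 hy) (not_le.2 h5)
  -- an integer close to `x`
  obtain ⟨a, ha⟩ := W.exists_valuation_sub_lt_of_integer (K := N) (hge x hx) 1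
  rw [Units.val_one] at ha
  -- the Frobenius element
  obtain ⟨φ, hφ, hφ1⟩ := exists_frob (K := K) (N := N) W
  rw [hdn, ← hq] at hφ1
  have hφφ : φ * φ = 1 := by
    obtain ⟨t, ht⟩ := hd W hdn
    have h2 : Stb K W (φ * φ) := by
      intro y
      rw [AlgEquiv.mul_apply, hφ, hφ]
    rcases ht φ hφ with h | h
    · rw [h, mul_one]
    · rcases ht _ h2 with h3 | h3
      · exact h3
      · have h4 : φ = 1 := by
          have h5 : φ * φ = φ * 1 := by rw [h3, mul_one, h]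
          exact mul_left_cancel h5
        rw [h4, mul_one]
  have hkey : W.valuation N ((a : N) - (a : N) ^ (q ^ 2)) < 1 := by
    have h1 := hφ1 a
    have h2 := hφ1 (a ^ q)
    have h3 : W.valuation N (φ (φ (a : N) - (a : N) ^ q)) < 1 := by
      rw [hφ]
      exact h1
    have e1 : ((a ^ q : 𝓞 N) : N) = (a : N) ^ q := by
      exact map_pow (algebraMap (𝓞 N) N) a q
    rw [e1] at h2
    have e2 : φ (φ (a : N)) = (a : N) := by
      rw [← AlgEquiv.mul_apply, hφφ, AlgEquiv.one_apply]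
    have e : (a : N) - (a : N) ^ (q ^ 2) = φ (φ (a : N) - (a : N) ^ q) +
        (φ ((a : N) ^ q) - ((a : N) ^ q) ^ q) := by
      rw [map_sub, e2, ← pow_mul, pow_two]
      ring
    rw [e]
    exact (Valuation.map_add _ _ _).trans_lt (max_lt h3 h2)
  -- conclusion in the residue field
  have hxa : R.valuation ((x : F) - ((a : N) : F)) < 1 := by
    have h1 := hle _ ha
    have e : ((algebraMap (𝓞 N) N a - x : N) : F) = -((x : F) - ((a : N) : F)) := by
      have : ((algebraMap (𝓞 N) N a - x : N) : F) = ((a : N) : F) - (x : F) := rfl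
      rw [this]
      ring
    rwa [e, Valuation.map_neg] at h1
  have hka : R.valuation (((a : N) : F) - ((a : N) : F) ^ (q ^ 2)) < 1 := by
    have h1 := hle _ hkey
    have e : (((a : N) - (a : N) ^ (q ^ 2) : N) : F) =
        ((a : N) : F) - ((a : N) : F) ^ (q ^ 2) := by
      push_cast
      rfl
    rwa [e] at h1
  let X : R := ⟨x, hx⟩
  have hX : IsLocalRing.residue R X = IsLocalRing.residue R (j a) := by
    rw [← sub_eq_zero, ← map_sub, IsLocalRing.residue_eq_zero_iff,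
      ValuationSubring.valuation_lt_one_iff]
    exact hxa
  have hA : IsLocalRing.residue R (j a) = IsLocalRing.residue R (j a) ^ (q ^ 2) := by
    rw [← map_pow, ← sub_eq_zero, ← map_sub, IsLocalRing.residue_eq_zero_iff,
      ValuationSubring.valuation_lt_one_iff]
    exact hka
  have hfin : IsLocalRing.residue R (X ^ (q ^ 2) - X) = 0 := by
    rw [map_sub, map_pow, hX, ← hA, sub_self]
  rw [IsLocalRing.residue_eq_zero_iff, ValuationSubring.valuation_lt_one_iff] at hfin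
  exact hfin

private theorem Ok_layer {K F : Type} [Field K] [NumberField K] [Field F] [Algebra K F]
    [IsGalois K F] (x : F) :
    ∃ (N : IntermediateField K F) (_ : NumberField N), IsGalois K N ∧ x ∈ N := by
  have hxi : IsIntegral K x := Algebra.IsIntegral.isIntegral _
  have hfd : FiniteDimensional K (IntermediateField.adjoin K {x}) :=
    IntermediateField.adjoin.finiteDimensional hxi
  let N : IntermediateField K F :=
    IntermediateField.normalClosure K (IntermediateField.adjoin K {x}) F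
  have hN : FiniteDimensional K N := normalClosure.is_finiteDimensional K _ F
  have hNn : Normal K N := normalClosure.normal K _ F
  have hle : IntermediateField.adjoin K {x} ≤ N := IntermediateField.le_normalClosure _
  exact ⟨N, NumberField.of_module_finite K N, ⟨⟩, hle (IntermediateField.mem_adjoin_simple_self K x)⟩

theorem exists_vs {K F : Type} [Field K] [NumberField K] [Field F] [Algebra K F] [IsGalois K F]
    {v : HeightOneSpectrum (𝓞 K)}
    (hdec : ∀ (N : IntermediateField K F) [NumberField N], IsGalois K N → Dec2 N v) :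
    ∃ R : ValuationSubring F, Finite (IsLocalRing.ResidueField R) ∧
      (∀ x : 𝓞 K, algebraMap K F (x : K) ∈ R) ∧
      ∀ x : 𝓞 K, x ∈ v.asIdeal → R.valuation (algebraMap K F (x : K)) < 1 := by
  obtain ⟨R, hR1, hR2⟩ := Ok_base (F := F) v
  refine ⟨R, ?_, hR1, hR2⟩
  obtain ⟨q, hq⟩ : ∃ q, q = Nat.card (𝓞 K ⧸ v.asIdeal) := ⟨_, rfl⟩
  have hq1 : 1 < q := by
    have hfin : Finite (𝓞 K ⧸ v.asIdeal) := Ideal.finiteQuotientOfFreeOfNeBot v.asIdeal v.ne_bot
    have hnt : Nontrivial (𝓞 K ⧸ v.asIdeal) :=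
      Ideal.Quotient.nontrivial_iff.2 v.isPrime.ne_top
    rw [hq]
    exact Finite.one_lt_card
  have hpow : ∀ z : IsLocalRing.ResidueField R, z ^ (q ^ 2) = z := by
    intro z
    obtain ⟨x, rfl⟩ := IsLocalRing.residue_surjective z
    obtain ⟨N, hNn, hNg, hxN⟩ := Ok_layer (K := K) (x : F)
    have h1 := Ok_pow hR2 N hNg (hdec N hNg) ⟨(x : F), hxN⟩ x.2
    rw [← hq] at h1
    rw [← map_pow, ← sub_eq_zero, ← map_sub, IsLocalRing.residue_eq_zero_iff,
      ValuationSubring.valuation_lt_one_iff]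
    exact h1
  have hq2 : 1 < q ^ 2 := one_lt_pow₀ hq1 two_ne_zero
  have hne : (Polynomial.X ^ (q ^ 2) - Polynomial.X :
      Polynomial (IsLocalRing.ResidueField R)) ≠ 0 :=
    FiniteField.X_pow_card_sub_X_ne_zero _ hq2
  refine Set.finite_univ_iff.1 ((Polynomial.finite_setOfPred_isRoot hne).subset fun z _ => ?_)
  rw [Set.mem_ofPred_eq, Polynomial.IsRoot.def, Polynomial.eval_sub, Polynomial.eval_pow,
    Polynomial.eval_X, hpow, sub_self]

end H36O2

end S_H36_O2_Ok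

section S_H36_O2_Ow

set_option autoImplicit false
set_option linter.unusedSectionVars false
open scoped Classical

open WithZero NumberField IsDedekindDomain H76PP H36CY H24PD

namespace H36O2

private theorem Ow_val {F : Type*} [Field F] (A : ValuationSubring F) {l : ℕ} (hl : l.Prime)
    (h : A.valuation (l : F) < 1) {k : ℤ} (hk : ¬ (l : ℤ) ∣ k) : A.valuation (k : F) = 1 := by
  have hle : ∀ j : ℤ, A.valuation (j : F) ≤ 1 := fun j =>
    (A.valuation_le_one_iff _).2 (intCast_mem A j)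
  refine le_antisymm (hle k) (not_lt.1 fun hlt => ?_)
  have hco : IsCoprime (l : ℤ) k := ((Nat.prime_iff_prime_int.1 hl).coprime_iff_not_dvd).2 hk
  obtain ⟨u, v, huv⟩ := hco
  have h1 : A.valuation ((u * (l : ℤ) + v * k : ℤ) : F) < 1 := by
    rw [Int.cast_add, Int.cast_mul, Int.cast_mul, Int.cast_natCast]
    refine (A.valuation.map_add _ _).trans_lt (max_lt ?_ ?_)
    · rw [map_mul]
      exact (mul_le_of_le_one_left' (hle u)).trans_lt h
    · rw [map_mul]
      exact (mul_le_of_le_one_left' (hle v)).trans_lt hlt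
  rw [huv, Int.cast_one, map_one] at h1
  exact lt_irrefl _ h1

private theorem Ow_valn {F : Type*} [Field F] (A : ValuationSubring F) {l : ℕ} (hl : l.Prime)
    (h : A.valuation (l : F) < 1) (n : ℕ) (hn : n.Coprime l) : A.valuation (n : F) = 1 := by
  have h1 := Ow_val A hl h (k := (n : ℤ)) (fun hd => by
    have h2 : l ∣ n := Int.natCast_dvd_natCast.1 hd
    exact (Nat.Prime.coprime_iff_not_dvd hl).1 hn.symm h2)
  rwa [Int.cast_natCast] at h1

section

variable {K : Type} [Field K] [NumberField K] {F : Type} [Field F] [Algebra K F]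
  {v : HeightOneSpectrum (𝓞 K)} {R : ValuationSubring F}

private lemma Ow_l (hR : ∀ x : 𝓞 K, x ∈ v.asIdeal → R.valuation (algebraMap K F (x : K)) < 1)
    {l : ℕ} (hv : (l : 𝓞 K) ∈ v.asIdeal) : R.valuation (l : F) < 1 := by
  have e : (l : F) = algebraMap K F (algebraMap (𝓞 K) K (l : 𝓞 K)) := by
    rw [map_natCast, map_natCast]
  rw [e]
  exact hR _ hv

private lemma Ow_unit (h0 : ∀ x : 𝓞 K, algebraMap K F (x : K) ∈ R)
    (hR : ∀ x : 𝓞 K, x ∈ v.asIdeal → R.valuation (algebraMap K F (x : K)) < 1)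
    {x : 𝓞 K} (hx : x ∉ v.asIdeal) : R.valuation (algebraMap K F (x : K)) = 1 := by
  have hle : ∀ y : 𝓞 K, R.valuation (algebraMap K F (y : K)) ≤ 1 := fun y =>
    (R.valuation_le_one_iff _).2 (h0 y)
  obtain ⟨y, hy⟩ := v.isMaximal.exists_inv hx
  obtain ⟨i, hi, hyi⟩ := hy
  refine le_antisymm (hle x) (not_lt.1 fun hlt => ?_)
  have h1 : R.valuation (algebraMap K F ((y * x + i : 𝓞 K) : K)) < 1 := by
    have e : algebraMap K F ((y * x + i : 𝓞 K) : K) =
        algebraMap K F (y : K) * algebraMap K F (x : K) + algebraMap K F (i : K) := by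
      rw [← map_mul, ← map_add, ← map_mul, ← map_add]
    rw [e]
    refine (R.valuation.map_add _ _).trans_lt (max_lt ?_ (hR i hi))
    rw [map_mul]
    exact (mul_le_of_le_one_left' (hle y)).trans_lt hlt
  have e1 : algebraMap K F ((1 : 𝓞 K) : K) = 1 := by
    rw [show ((1 : 𝓞 K) : K) = 1 from map_one (algebraMap (𝓞 K) K), map_one]
  rw [hyi, e1, map_one] at h1
  exact lt_irrefl _ h1

private lemma Ow_Δ (h0 : ∀ x : 𝓞 K, algebraMap K F (x : K) ∈ R)
    (hR : ∀ x : 𝓞 K, x ∈ v.asIdeal → R.valuation (algebraMap K F (x : K)) < 1) {A B : 𝓞 K}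
    (hg : 2 * (4 * A ^ 3 + 27 * B ^ 2) ∉ v.asIdeal) :
    R.valuation (⟨0, 0, 0, algebraMap K F A, algebraMap K F B⟩ : WeierstrassCurve F).Δ = 1 := by
  have e : (⟨0, 0, 0, algebraMap K F A, algebraMap K F B⟩ : WeierstrassCurve F).Δ =
      algebraMap K F (algebraMap (𝓞 K) K (-8 * (2 * (4 * A ^ 3 + 27 * B ^ 2)))) := by
    simp only [WeierstrassCurve.Δ, WeierstrassCurve.b₂, WeierstrassCurve.b₄, WeierstrassCurve.b₆,
      WeierstrassCurve.b₈, map_mul, map_add, map_pow, map_neg, map_ofNat]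
    ring
  rw [e]
  refine Ow_unit h0 hR fun hlt => ?_
  rcases v.isPrime.mem_or_mem hlt with h | h
  · have h2 : (2 : 𝓞 K) ∈ v.asIdeal := by
      have h3 : (2 : 𝓞 K) ^ 3 ∈ v.asIdeal := by
        have h4 := v.asIdeal.neg_mem h
        have e2 : -(-8 : 𝓞 K) = 2 ^ 3 := by norm_num
        rwa [e2] at h4
      exact v.isPrime.mem_of_pow_mem 3 h3
    exact hg (v.asIdeal.mul_mem_right _ h2)
  · exact hg h

private lemma Ow_int (h0 : ∀ x : 𝓞 K, algebraMap K F (x : K) ∈ R) (A B : 𝓞 K) :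
    Pool.Agent.H11.Integral R
      (⟨0, 0, 0, algebraMap K F A, algebraMap K F B⟩ : WeierstrassCurve F) :=
  ⟨zero_mem _, zero_mem _, zero_mem _, h0 A, h0 B⟩

end

theorem tors_dec {K : Type} [Field K] [NumberField K] {A B : 𝓞 K} {F : Type} [Field F]
    [Algebra K F] [IsGalois K F] {v v' : HeightOneSpectrum (𝓞 K)} {l l' : ℕ} (hl : l.Prime)
    (hl' : l'.Prime) (hne : l ≠ l') (hv : (l : 𝓞 K) ∈ v.asIdeal) (hv' : (l' : 𝓞 K) ∈ v'.asIdeal)
    (hg : 2 * (4 * A ^ 3 + 27 * B ^ 2) ∉ v.asIdeal) (hg' : 2 * (4 * A ^ 3 + 27 * B ^ 2) ∉ v'.asIdeal)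
    (hdec : ∀ (N : IntermediateField K F) [NumberField N], IsGalois K N → Dec2 N v)
    (hdec' : ∀ (N : IntermediateField K F) [NumberField N], IsGalois K N → Dec2 N v') :
    {P : (⟨0, 0, 0, algebraMap K F A, algebraMap K F B⟩ : WeierstrassCurve F).toAffine.Point |
      ∃ n : ℕ, n ≠ 0 ∧ n • P = 0}.Finite := by
  obtain ⟨R, hf, h0, hR⟩ := exists_vs hdec
  obtain ⟨R', hf', h0', hR'⟩ := exists_vs hdec'
  have hΔ := Ow_Δ h0 hR hg
  have hΔ' := Ow_Δ h0' hR' hg'
  have hell : (⟨0, 0, 0, algebraMap K F A, algebraMap K F B⟩ : WeierstrassCurve F).IsElliptic := by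
    refine ⟨isUnit_iff_ne_zero.2 fun h0 => ?_⟩
    rw [h0, map_zero] at hΔ
    exact zero_ne_one hΔ
  exact H38T1.tors_of_two R R' hl hl' hne (Ow_valn _ hl (Ow_l hR hv))
    (Ow_valn _ hl' (Ow_l hR' hv')) (Ow_int h0 A B) hΔ (Ow_int h0' A B) hΔ'

end H36O2

end S_H36_O2_Ow

section S_H36_O2_Ol

set_option autoImplicit false
set_option linter.unusedSectionVars false
open scoped Classical

open WithZero NumberField IsDedekindDomain H38RT H76PP H36MT
open H30CY hiding main_inS main_B2 two_fin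
open H30ZO hiding main_B3 main_gen main_inf
open H38T1 (SC sc scu rep eo la si Pri OddP tp unif)

namespace H36O2

variable {K : Type} [Field K] [NumberField K]

/-- The pair is a twist of a pair with exactly one root or no root modulo `v`. -/
def TwAt (v : HeightOneSpectrum (𝓞 K)) (p : 𝓞 K × 𝓞 K) : Prop :=
  ∃ D A B : 𝓞 K, D ≠ 0 ∧ p.1 = D ^ 2 * A ∧ p.2 = D ^ 3 * B ∧
    4 * (A : K) ^ 3 + 27 * (B : K) ^ 2 ≠ 0 ∧ (∀ x : K, x ^ 3 + (A : K) * x + (B : K) ≠ 0) ∧
    ((∃ t : 𝓞 K, t ^ 3 + A * t + B ∈ v.asIdeal ∧ ∀ s : 𝓞 K, -3 * t ^ 2 - 4 * A - s ^ 2 ∉ v.asIdeal) ∨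
      ∀ t : 𝓞 K, t ^ 3 + A * t + B ∉ v.asIdeal)

/-- The decomposition groups above `v` in the finite Galois extensions inside `F` have order at most
two. -/
def DecF (F : Type) [Field F] [Algebra K F] (v : HeightOneSpectrum (𝓞 K)) : Prop :=
  ∀ (N : IntermediateField K F) [NumberField N], IsGalois K N → Dec2 N v

/-- The descent property at the auxiliary primes. -/
theorem descAt_Tw {N : Type} [Field N] [NumberField N] [Algebra K N] [IsGalois K N] {r : ℕ}
    (hr : Module.finrank K N = 2 ^ r) {v : HeightOneSpectrum (𝓞 K)} (h6 : (6 : 𝓞 K) ∉ v.asIdeal)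
    (hu : ∀ V : HeightOneSpectrum (𝓞 N), dn K V = v → ¬ H73P2.Ram K V) (hdec : Dec2 N v)
    {p : 𝓞 K × 𝓞 K} (h : TwAt v p) : H36CY.DescAt K N v (p.1 : K) (p.2 : K) := by
  have h2 : (2 : 𝓞 K) ∉ v.asIdeal := by
    intro h3
    apply h6
    have e : (6 : 𝓞 K) = 3 * 2 := by norm_num
    rw [e]
    exact v.asIdeal.mul_mem_left _ h3
  obtain ⟨D, A, B, hD, hA, hB, hd, hirr, h3⟩ := h
  have e1 : (p.1 : K) = (D : K) ^ 2 * (A : K) := by
    rw [hA]
    push_cast
    rfl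
  have e2 : (p.2 : K) = (D : K) ^ 3 * (B : K) := by
    rw [hB]
    push_cast
    rfl
  rw [e1, e2]
  rcases h3 with ⟨t, ht, hs⟩ | hn
  · exact descAt_T hr h2 hu hdec hD hirr ht hs
  · have h2' : v.valuation K (2 : K) = 1 := by
      have h4 := notMem_iff h2
      have e : ((2 : 𝓞 K) : K) = 2 := map_ofNat (algebraMap (𝓞 K) K) 2
      rwa [e] at h4
    exact descAt_noroot hr h2' hD hd hirr hn

/-- The counting theorem: residue classes and auxiliary primes given in advance. -/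
theorem main_B4 (K : Type) [Field K] [NumberField K] {S : Finset (HeightOneSpectrum (𝓞 K))}
    (hSv : ∀ v : HeightOneSpectrum (𝓞 K), (2 : 𝓞 K) ∈ v.asIdeal → v ∈ S) {e : ℕ} (he : 1 ≤ e)
    {Z : Set (HeightOneSpectrum (𝓞 K))} (hZ : Z.Infinite) {m : Ideal (𝓞 K)} (hm0 : m ≠ ⊥)
    {A₀ B₀ : 𝓞 K} (hmS : ∀ v ∈ S, m ≤ v.asIdeal ^ e ∧ dsc A₀ B₀ ∉ v.asIdeal ^ e)
    (hm : ∀ v : HeightOneSpectrum (𝓞 K), v ∉ S → m ≤ v.asIdeal → dsc A₀ B₀ ∉ v.asIdeal) :
    ∃ (T : Finset (HeightOneSpectrum (𝓞 K))) (c X₀ : ℝ),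
      (∀ v ∈ T, v ∈ Z ∧ v ∉ S ∧ (6 : 𝓞 K) ∉ v.asIdeal) ∧ 0 < c ∧ ∀ X : ℝ, X₀ ≤ X →
        ∃ G : Finset (𝓞 K × 𝓞 K),
          (∀ p ∈ G, p ∈ Bx K X ∧ p.1 - A₀ ∈ m ∧ p.2 - B₀ ∈ m ∧
            (∀ s : K →+* ℝ, 0 < s (p.1 : K)) ∧ RelG K (S ∪ T) p.1 p.2 ∧ ∀ v ∈ T, TwAt v p) ∧
          (∀ p ∈ G, ∀ q ∈ G, p.1 ^ 3 * q.2 ^ 2 = q.1 ^ 3 * p.2 ^ 2 → p = q) ∧
          c * ((Bx K X).ncard : ℝ) ≤ (G.card : ℝ) := by
  have H : Blocks K := blocks_of_HR2 K fun h hd => hr2 h hd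
  obtain ⟨m', hm'0, hm't, hm'm, hm'S, -⟩ := exists_mod hm0 S
  obtain ⟨Z', hZ'Z, hZ', hZ'm, hZr⟩ := aux_set_in K hm'0 hZ
  have hmZ : ∀ v ∈ Z', ¬ m ≤ v.asIdeal ∧ (6 : 𝓞 K) ∉ v.asIdeal := fun v hv =>
    ⟨fun h => (hZ'm v hv).1 (hm'm.trans h), (hZ'm v hv).2⟩
  have hS6 : ∀ v : HeightOneSpectrum (𝓞 K), ¬ m ≤ v.asIdeal → v ∉ S := by
    intro v hv hvS
    exact hv ((hmS v hvS).1.trans (Ideal.pow_le_self (by omega)))
  have hS2 : ∀ v : HeightOneSpectrum (𝓞 K), v.valuation K 2 < 1 → v ∈ S := by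
    intro v hv
    refine hSv v ?_
    by_contra h
    have h4 := (v.valuation_eq_one_iff_notMem (K := K) (r := (2 : 𝓞 K))).2 h
    have h5 : v.valuation K (2 : K) = 1 := by
      rw [← h4]
      congr 1
    exact absurd h5 hv.ne
  obtain ⟨q₀, T, c, X₀, hq₀, hT, hc, hmain⟩ := main_inS3 H hSv he hZ' hm0 hmZ hmS hm
  obtain ⟨c', X₁, hc', h⟩ := count_genS H (S := S) (e := e) (q₀ := q₀) (T := T) (m' := m')
    (fun J hJ => exists_twistS hm'0 hm't hm'S (hZ'm q₀ hq₀).1 fun p hp =>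
      hZr q₀ hq₀ p (hT p (hJ hp)).1 (hT p (hJ hp)).2)
    (fun p => p.1 - A₀ ∈ m ∧ p.2 - B₀ ∈ m ∧ ∀ s : K →+* ℝ, 0 < s (p.1 : K))
    (fun p => p.1 - A₀ ∈ m ∧ p.2 - B₀ ∈ m ∧
            (∀ s : K →+* ℝ, 0 < s (p.1 : K)) ∧ RelG K (S ∪ insert q₀ T) p.1 p.2 ∧
            ∀ v ∈ insert q₀ T, TwAt v p) hc hmain
    (by
      intro p hF hP hB
      obtain ⟨J, hJ, hg⟩ := good_S2 hS2
        (fun v hv => ⟨(hT v hv).2, hS6 v (hmZ v (hT v hv).1).1, (hZ'm v (hT v hv).1).2⟩) hF hB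
      refine ⟨J, hJ, fun D hDm hD => ?_⟩
      have hDm' := hm'm hDm
      obtain ⟨h1, h2, h3⟩ := hP
      refine ⟨?_, ?_, ?_, hg D hD _ Finset.subset_union_left ?_ ?_, ?_⟩
      · change D ^ 2 * p.1 - A₀ ∈ m
        have e1 : D ^ 2 * p.1 - A₀ = (p.1 - A₀) + (D - 1) * ((D + 1) * p.1) := by ring
        rw [e1]
        exact m.add_mem h1 (m.mul_mem_right _ hDm')
      · change D ^ 3 * p.2 - B₀ ∈ m
        have e1 : D ^ 3 * p.2 - B₀ = (p.2 - B₀) + (D - 1) * ((D ^ 2 + D + 1) * p.2) := by ring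
        rw [e1]
        exact m.add_mem h2 (m.mul_mem_right _ hDm')
      · intro s
        change 0 < s ((D ^ 2 * p.1 : 𝓞 K) : K)
        have e1 : ((D ^ 2 * p.1 : 𝓞 K) : K) = (D : K) ^ 2 * (p.1 : K) := by push_cast; rfl
        rw [e1, map_mul, map_pow]
        exact mul_pos (pow_pos (hD.pos s) 2) (h3 s)
      · exact (Finset.subset_insert _ _).trans Finset.subset_union_right
      · exact Finset.mem_union_right _ (Finset.mem_insert_self _ _)
      · intro v hv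
        refine ⟨D, p.1, p.2, fun h0 => hD.ne (by rw [h0]; exact map_zero (algebraMap (𝓞 K) K)), rfl,
          rfl, hF.dsc_ne, fun t => hF.no_root t, ?_⟩
        rw [Finset.mem_insert] at hv
        rcases hv with hv | hv
        · rw [hv]
          exact Or.inr hF.irr
        · exact Or.inl (hF.typ v hv))
  refine ⟨insert q₀ T, c', X₁, fun v hv => ?_, hc', h⟩
  have hv' : v ∈ Z' := by
    rw [Finset.mem_insert] at hv
    rcases hv with h | h
    · rw [h]
      exact hq₀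
    · exact (hT v h).1
  exact ⟨hZ'Z hv', hS6 v (hmZ v hv').1, (hZ'm v hv').2⟩

/-- `N / K` is a Galois extension whose degree is a power of two, every ramified prime lies above `S` or
`R`, the primes of `T` are unramified with decomposition groups of order at most two, and the local
conditions above `S` descend in the quadratic extensions between `K` and `N`. -/
structure AdmG4 (K : Type) (N : Type) [Field K] [NumberField K] [Field N] [NumberField N]
    [Algebra K N] (S R T : Finset (HeightOneSpectrum (𝓞 K))) (a b : K) : Prop where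
  gal : IsGalois K N
  two : ∃ r : ℕ, Module.finrank K N = 2 ^ r
  ram : ∀ V : HeightOneSpectrum (𝓞 N), dn K V ∉ S → H73P2.Ram K V → dn K V ∈ R
  dec : ∀ v ∈ T, (∀ V : HeightOneSpectrum (𝓞 N), dn K V = v → ¬ H73P2.Ram K V) ∧ Dec2 N v
  desc : ∀ v ∈ S, H36CY.DescAt K N v a b

/-- The general theorem. -/
theorem main_gen4 (K : Type) [Field K] [NumberField K] {S R : Finset (HeightOneSpectrum (𝓞 K))}
    (hSv : ∀ v : HeightOneSpectrum (𝓞 K), (2 : 𝓞 K) ∈ v.asIdeal → v ∈ S)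
    (hR : ∀ v ∈ R, v ∉ S) {Z : Set (HeightOneSpectrum (𝓞 K))}
    (hZ : Z.Infinite) (e : HeightOneSpectrum (𝓞 K) → ℕ) (Av Bv : HeightOneSpectrum (𝓞 K) → 𝓞 K)
    (hcl : ∀ v ∈ S, dsc (Av v) (Bv v) ∉ v.asIdeal ^ e v) :
    ∃ (T : Finset (HeightOneSpectrum (𝓞 K))) (c X₀ : ℝ),
      (∀ v ∈ T, v ∈ Z) ∧ 0 < c ∧ ∀ X : ℝ, X₀ ≤ X → ∃ G : Finset (𝓞 K × 𝓞 K),
        (∀ p ∈ G, p ∈ Bx K X ∧ 4 * p.1 ^ 3 + 27 * p.2 ^ 2 ≠ 0 ∧
          (∀ v ∈ S, p.1 - Av v ∈ v.asIdeal ^ e v ∧ p.2 - Bv v ∈ v.asIdeal ^ e v) ∧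
          ∀ (N : Type) [Field N] [NumberField N] [Algebra K N],
            AdmG4 K N S R T (p.1 : K) (p.2 : K) → ∀ (M : Type) [Field M] [NumberField M]
            [Algebra K M] [Algebra M N] [IsScalarTower K M N],
            Tv M (algebraMap K M p.1) (algebraMap K M p.2)) ∧
        (∀ p ∈ G, ∀ q ∈ G, p.1 ^ 3 * q.2 ^ 2 = q.1 ^ 3 * p.2 ^ 2 → p = q) ∧
        c * ((Bx K X).ncard : ℝ) ≤ (G.card : ℝ) := by
  obtain ⟨m, E, A₀, B₀, hm0, hE, hmS, hm, hclass⟩ :=
    exists_cls hSv hR e Av Bv hcl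
  obtain ⟨T, c, X₀, hT, hc, h⟩ := main_B4 K hSv hE hZ hm0 hmS hm
  refine ⟨T, c, X₀, fun v hv => (hT v hv).1, hc, fun X hX => ?_⟩
  obtain ⟨G, hG, hj, hcard⟩ := h X hX
  refine ⟨G, fun p hp => ?_, hj, hcard⟩
  obtain ⟨hB, h1, h2, hpos, hrel, htw⟩ := hG p hp
  obtain ⟨hc1, hc2⟩ := hclass p.1 p.2 h1 h2
  refine ⟨hB, hrel.ne, hc1, ?_⟩
  intro N _ _ _ hN M _ _ _ _ _
  have _ := hN.gal
  obtain ⟨r, hr⟩ := hN.two
  have hd : 4 * (p.1 : K) ^ 3 + 27 * (p.2 : K) ^ 2 ≠ 0 := by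
    rw [← dsc_coe]
    intro h0
    apply hrel.ne
    apply RingOfIntegers.coe_injective
    rw [map_zero]
    exact h0
  have _ : FiniteDimensional K N := Module.Finite.of_restrictScalars_finite ℚ K N
  have hnr := H73P2.noroot (K := K) (N := N) (k := M) hr hrel.irr
  obtain ⟨L, _, _, _, θ, hL⟩ := H24PD.exists_cub (K := M) hnr
  have hdes := H24PD.descent hL (H73ZO.selS_mid (K := K) (N := N) ordSub hr (Sg := S ∪ T) (S := ∅)
    (fun v hv => Finset.mem_union_left _ (hSv v (H30ZO.two_mem_iff.1 hv))) hd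
    (fun v hv _ => hrel.nice v hv) (fun v hv => absurd hv (Finset.notMem_empty v)) ?_ ?_ ?_ ?_
    M L θ hL)
  · exact ⟨hdes.1, tors_of_noroot hnr, hdes.2⟩
  · intro s
    left
    rw [map_add, map_mul, map_mul, map_pow, map_pow, map_ofNat, map_ofNat]
    have h1 := hpos s
    positivity
  · intro V hVST _ hV
    have hVS : dn K V ∉ S := fun h => hVST (Finset.mem_union_left _ h)
    have h1 := H30PN.noroot_of (D := (1 : K)) one_ne_zero (hc2 _ (hN.ram V hVS hV)) (by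
      have : ord ((dn K V).valuation K) (1 : K) = 0 := by
        unfold ord
        rw [map_one]
        simp
      rw [this]
      exact Even.zero)
    rw [one_pow, one_pow, one_mul, one_mul] at h1
    exact h1
  · intro v hv
    rcases Finset.mem_union.1 hv with h | h
    · exact hN.desc v h
    · exact descAt_Tw hr (hT v h).2.2 (hN.dec v h).1 (hN.dec v h).2 (htw v h)
  · intro L _ _ _ θ hL
    refine H73ZO.relST_of ?_
    rw [Finset.union_empty]
    exact hrel.rel L θ hL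

/-- The theorem for a finite or infinite extension `F / K` with infinitely many primes with decomposition
groups of order at most two,
given the local data at the primes of `S`. -/
theorem main_inf4 (K F : Type) [Field K] [NumberField K] [Field F] [Algebra K F] [IsGalois K F]
    (hdeg : ∀ (N : IntermediateField K F) [NumberField N], IsGalois K N →
      ∃ r : ℕ, Module.finrank K N = 2 ^ r)
    (hram : {v : HeightOneSpectrum (𝓞 K) | ∃ (N : IntermediateField K F) (_ : NumberField N)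
      (V : HeightOneSpectrum (𝓞 N)), dn K V = v ∧ H73P2.Ram K V}.Finite)
    (hdec : {v : HeightOneSpectrum (𝓞 K) | DecF F v}.Infinite)
    {S : Finset (HeightOneSpectrum (𝓞 K))}
    (hSv : ∀ v : HeightOneSpectrum (𝓞 K), (2 : 𝓞 K) ∈ v.asIdeal → v ∈ S)
    (e : HeightOneSpectrum (𝓞 K) → ℕ) (A₀ B₀ : HeightOneSpectrum (𝓞 K) → 𝓞 K)
    (hcl : ∀ v ∈ S, dsc (A₀ v) (B₀ v) ∉ v.asIdeal ^ e v)
    (hloc : ∀ v ∈ S, ∀ A B : 𝓞 K, A - A₀ v ∈ v.asIdeal ^ e v → B - B₀ v ∈ v.asIdeal ^ e v →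
        ∀ (N : IntermediateField K F) [NumberField N], IsGalois K N →
          H36CY.DescAt K N v (A : K) (B : K)) :
    ∃ (c X₀ : ℝ), 0 < c ∧ ∀ X : ℝ, X₀ ≤ X → ∃ G : Finset (𝓞 K × 𝓞 K),
      (∀ p ∈ G, p ∈ Bx K X ∧ 4 * p.1 ^ 3 + 27 * p.2 ^ 2 ≠ 0 ∧
        (∀ v ∈ S, p.1 - A₀ v ∈ v.asIdeal ^ e v ∧ p.2 - B₀ v ∈ v.asIdeal ^ e v) ∧
        Finite (⟨0, 0, 0, algebraMap K F p.1, algebraMap K F p.2⟩ :
          WeierstrassCurve F).toAffine.Point ∧ PF K F p) ∧
      (∀ p ∈ G, ∀ q ∈ G, p.1 ^ 3 * q.2 ^ 2 = q.1 ^ 3 * p.2 ^ 2 → p = q) ∧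
      c * ((Bx K X).ncard : ℝ) ≤ (G.card : ℝ) := by
  obtain ⟨R, hR⟩ : ∃ R : Finset (HeightOneSpectrum (𝓞 K)), ∀ v, v ∈ R ↔
      ((∃ (N : IntermediateField K F) (_ : NumberField N)
      (V : HeightOneSpectrum (𝓞 N)), dn K V = v ∧ H73P2.Ram K V) ∧ v ∉ S) := by
    refine ⟨hram.toFinset.filter fun v => v ∉ S, fun v => ?_⟩
    rw [Finset.mem_filter, Set.Finite.mem_toFinset]
    rfl
  have hspl := hdec.sdiff hram
  obtain ⟨T, c, X₀, hT, hc, h⟩ := main_gen4 K hSv (fun v hv => ((hR v).1 hv).2) hspl e A₀ B₀ hcl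
  refine ⟨c, X₀, hc, fun X hX => ?_⟩
  obtain ⟨G, hG, hj, hcard⟩ := h X hX
  refine ⟨G, fun p hp => ?_, hj, hcard⟩
  obtain ⟨hB, hne, hpc, hall⟩ := hG p hp
  have hM : PF K F p := by
    intro M _
    obtain ⟨N, _, hNg, hMN, -⟩ := exists_big M (∅ : Finset ℕ) (fun _ => ⊥)
      fun v hv => absurd hv (Finset.notMem_empty v)
    let _ : Algebra M N := (IntermediateField.inclusion hMN).toRingHom.toAlgebra
    have _ : IsScalarTower K M N := IsScalarTower.of_algebraMap_eq fun _ => rfl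
    refine hall N ⟨hNg, hdeg N hNg, ?_, ?_, ?_⟩ M
    · intro V h2 hV
      exact (hR _).2 ⟨⟨N, inferInstance, V, rfl, hV⟩, h2⟩
    · intro v hv
      exact ⟨fun V hV hr => (hT v hv).2 ⟨N, inferInstance, V, hV, hr⟩, (hT v hv).1 N hNg⟩
    · intro v hv
      obtain ⟨h1, h2⟩ := hpc v hv
      exact hloc v hv p.1 p.2 h1 h2 N hNg
  refine ⟨hB, hne, hpc, ?_, hM⟩
  obtain ⟨l, l', v, v', hd, hd', hl, hl', hll, hv, hv', hg, hg'⟩ := exists_two_in hdec hne
  exact fin_any (fun M _ => (hM M).1) (tors_dec hl hl' hll hv hv' hg hg' hd hd')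


end H36O2

end S_H36_O2_Ol

section S_H36_O2_Fi

set_option autoImplicit false
set_option linter.unusedSectionVars false
open scoped Classical

open WeierstrassCurve NumberField IsDedekindDomain Pool.Agent.H10 H76PP H36CY

namespace H36O2

/-- The admissible extensions. -/
structure AdmF2 (K F : Type) [Field K] [NumberField K] [Field F] [Algebra K F] : Prop where
  gal : IsGalois K F
  deg : ∀ (N : IntermediateField K F) [NumberField N], IsGalois K N →
      ∃ r : ℕ, Module.finrank K N = 2 ^ r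
  ram : {v : HeightOneSpectrum (𝓞 K) | ∃ (N : IntermediateField K F) (_ : NumberField N)
      (V : HeightOneSpectrum (𝓞 N)), dn K V = v ∧ H73P2.Ram K V}.Finite
  dec : FiniteDimensional K F ∨ {v : HeightOneSpectrum (𝓞 K) | DecF F v}.Infinite

/-- A completely split prime has trivial decomposition groups. -/
theorem decF_split {K F : Type} [Field K] [NumberField K] [Field F] [Algebra K F]
    {v : HeightOneSpectrum (𝓞 K)} (h : ∃ ι : F →+* v.adicCompletion K, ∀ x : K,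
      ι (algebraMap K F x) = algebraMap K (v.adicCompletion K) x) : DecF F v := by
  obtain ⟨ι, hι⟩ := h
  intro N _ hN W hW
  refine ⟨1, fun g hg => Or.inl ?_⟩
  have hj : ∀ x : K, (ι.comp N.val.toRingHom) (algebraMap K N x) =
      algebraMap K (v.adicCompletion K) x := fun x => hι x
  have h0 : dn K W = dn K (H73P2.Cm_pl v (ι.comp N.val.toRingHom) hj) := by
    rw [H30ZO.cm_dn, hW]
  exact H36CY.triv_conj (K := K) h0 (fun g hg => H30ZO.stb_triv v _ hj g hg) g hg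

theorem AdmF2.dec_inf {K F : Type} [Field K] [NumberField K] [Field F] [Algebra K F]
    (h : AdmF2 K F) : {v : HeightOneSpectrum (𝓞 K) | DecF F v}.Infinite := by
  have _ := h.gal
  rcases h.dec with h | h
  · have _ : NumberField F := NumberField.of_module_finite K F
    exact (H30PN.split_inf K F).mono fun v hv => decF_split hv
  · exact h

theorem mainSig2 {K F : Type} [Field K] [NumberField K] [Field F] [Algebra K F]
    (h : AdmF2 K F) : H36ZO.MainSig K F := by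
  intro Sg e A₀ B₀ h2 hcl
  have _ := h.gal
  obtain ⟨c, X₀, hc, h1⟩ := main_inf4 K F h.deg h.ram h.dec_inf h2 e A₀ B₀
    (fun v hv => (hcl v hv).1) (fun v hv => (hcl v hv).2)
  refine ⟨c, X₀, hc, fun X hX => ?_⟩
  obtain ⟨G, hG, hj, hcard⟩ := h1 X hX
  refine ⟨G, fun p hp => ?_, hj, hcard⟩
  obtain ⟨g1, g2, g3, g4, g5⟩ := hG p hp
  exact ⟨g1, g3, ⟨g2, g5⟩, g4⟩

section Main

variable {K F : Type} [Field K] [NumberField K] [Field F] [Algebra K F] [IsGalois K F]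

/-- A pair with an irreducible polynomial which satisfies the local condition. -/
theorem exists_irr2 (h : AdmF2 K F) {v : HeightOneSpectrum (𝓞 K)}
    (hl : H30ZO.LocOK K F v) : ∃ p : 𝓞 K × 𝓞 K, (∀ t : K, t ^ 3 + (p.1 : K) * t + (p.2 : K) ≠ 0) ∧
      H36ZO.LocC K F v (p.1 : K) (p.2 : K) := by
  obtain ⟨a, b, hd, hab⟩ := hl
  choose e he1 he2 using fun v : HeightOneSpectrum (𝓞 K) => H36LG.descAt_open v hd
  obtain ⟨S₂, hS₂⟩ := H30CY.two_fin K
  obtain ⟨w, -, hw⟩ := h.dec_inf.exists_notMem_finset (insert v S₂)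
  obtain ⟨m, E, A₀, B₀, -, -, -, -, hcl⟩ := H30ZO.exists_cls (S := insert v S₂) (R := {w})
    (fun v' hv' => Finset.mem_insert_of_mem ((hS₂ v').2 hv'))
    (fun v' hv' => by
      rw [Finset.mem_singleton] at hv'
      rw [hv']
      exact hw) e (fun _ => a) (fun _ => b) (fun v' _ => he1 v')
  obtain ⟨h1, h2⟩ := hcl A₀ B₀ (by rw [sub_self]; exact Ideal.zero_mem _)
    (by rw [sub_self]; exact Ideal.zero_mem _)
  obtain ⟨h3, h4⟩ := h1 v (Finset.mem_insert_self _ _)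
  have hirr := H36ZO.noroot_K (h2 w (Finset.mem_singleton_self w))
  exact ⟨(A₀, B₀), hirr, H36ZO.locC_of_descAt h.deg hirr
    fun N _ hN => he2 v A₀ B₀ h3 h4 N (hab N hN)⟩

/-- The local condition at the odd primes of good reduction which are unramified in `F`. -/
theorem exists_good2 (h : AdmF2 K F) {m : Ideal (𝓞 K)} (hm : m ≠ ⊥)
    {v : HeightOneSpectrum (𝓞 K)} (hmv : m ≤ v.asIdeal) (h2 : (2 : 𝓞 K) ∉ v.asIdeal)
    (hu : ∀ (N : IntermediateField K F) [NumberField N] (V : HeightOneSpectrum (𝓞 N)),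
      dn K V = v → ¬ H73P2.Ram K V) {q : 𝓞 K × 𝓞 K} (hq : dsc q.1 q.2 ∉ v.asIdeal) :
    ∃ p : 𝓞 K × 𝓞 K, (∀ n : ℕ, m ≤ v.asIdeal ^ n → p.1 - q.1 ∈ v.asIdeal ^ n ∧
      p.2 - q.2 ∈ v.asIdeal ^ n) ∧ (∀ t : K, t ^ 3 + (p.1 : K) * t + (p.2 : K) ≠ 0) ∧
      H36ZO.LocC K F v (p.1 : K) (p.2 : K) := by
  obtain ⟨p, h1, h3, h4⟩ := H36ZO.exists_near h.dec_inf hm q
  refine ⟨p, fun n hn => ⟨hn h1, hn h3⟩, h4, H36ZO.locC_of_descAt h.deg h4 fun N _ hN => ?_⟩
  obtain ⟨r, hr⟩ := h.deg N hN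
  refine H36ZO.descAt_good hr h2 (hu N) h4 fun h5 => hq ?_
  have e : dsc q.1 q.2 = dsc p.1 p.2 - ((p.1 - q.1) *
      (4 * (p.1 ^ 2 + p.1 * q.1 + q.1 ^ 2)) + (p.2 - q.2) * (27 * (p.2 + q.2))) := by
    unfold dsc
    ring
  rw [e]
  exact Ideal.sub_mem _ h5 (Ideal.add_mem _ (Ideal.mul_mem_right _ _ (hmv h1))
    (Ideal.mul_mem_right _ _ (hmv h3)))

/-- The local condition at the odd primes where the polynomial has no root. -/
theorem exists_nort2 (h : AdmF2 K F) {m : Ideal (𝓞 K)} (hm : m ≠ ⊥)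
    {v : HeightOneSpectrum (𝓞 K)} (hmv : m ≤ v.asIdeal) (h2 : (2 : 𝓞 K) ∉ v.asIdeal)
    {q : 𝓞 K × 𝓞 K} (hq : ∀ t : 𝓞 K, t ^ 3 + q.1 * t + q.2 ∉ v.asIdeal) :
    ∃ p : 𝓞 K × 𝓞 K, (∀ n : ℕ, m ≤ v.asIdeal ^ n → p.1 - q.1 ∈ v.asIdeal ^ n ∧
      p.2 - q.2 ∈ v.asIdeal ^ n) ∧ (∀ t : K, t ^ 3 + (p.1 : K) * t + (p.2 : K) ≠ 0) ∧
      H36ZO.LocC K F v (p.1 : K) (p.2 : K) := by
  obtain ⟨p, h1, h3, h4⟩ := H36ZO.exists_near h.dec_inf hm q
  refine ⟨p, fun n hn => ⟨hn h1, hn h3⟩, h4, H36ZO.locC_of_descAt h.deg h4 fun N _ hN => ?_⟩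
  obtain ⟨r, hr⟩ := h.deg N hN
  have h2' : v.valuation K (2 : K) = 1 := by
    have h5 := notMem_iff h2
    have e : ((2 : 𝓞 K) : K) = 2 := map_ofNat (algebraMap (𝓞 K) K) 2
    rwa [e] at h5
  have hn : H30PN.NoRt K v p.1 p.2 := by
    intro t ht
    apply hq t
    have e : t ^ 3 + q.1 * t + q.2 = (t ^ 3 + p.1 * t + p.2) - ((p.1 - q.1) * t + (p.2 - q.2)) := by
      ring
    rw [e]
    exact Ideal.sub_mem _ ht (Ideal.add_mem _ (Ideal.mul_mem_right _ _ (hmv h1)) (hmv h3))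
  have h5 := descAt_noroot (N := N) hr h2' (D := 1) one_ne_zero (H36ZO.dsc_ne h4) h4 hn
  have e1 : (((1 : 𝓞 K) : K)) = 1 := map_one (algebraMap (𝓞 K) K)
  rw [e1, one_pow, one_pow, one_mul, one_mul] at h5
  exact h5

end Main

end H36O2

end S_H36_O2_Fi
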